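import Pool.Agent.Lib.PT5.ADefs2

/-! Annealing in the parameter. -/

namespace Pool.Agent.Lib.PT5

open Finset Real RC5

theorem st_ANN (hE : St_EQS) (hS : St_SCH) (h0 : St_START) (hC : St_CONT) (hK : St_CLOSE) :
    St_ANN := by
  intro k ε hε
  obtain ⟨s1, s0, sl, hs⟩ := hC k (ε / 2) (by positivity)
  obtain ⟨η0, e0, hE⟩ := hE s1 sl
  obtain ⟨C, C0, hS⟩ := hS s1 sl
  obtain ⟨η, h1, h2, h3⟩ : ∃ η, 0 < η ∧ η ≤ η0 ∧ 16 * 2 ^ k * η ≤ (ε / 2) ^ 2 :=
    ⟨min η0 ((ε / 2) ^ 2 / (16 * 2 ^ k)), by positivity, min_le_left _ _,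
      (le_div_iff₀' (by positivity)).1 (min_le_right _ _)⟩
  obtain ⟨N, hN⟩ := exists_nat_gt (2 * C / η)
  have N0 : (0 : ℝ) < N := lt_of_le_of_lt (by positivity) hN
  obtain ⟨e, e1, e2⟩ : ∃ e, 0 < e ∧ C * e ≤ η / 2 :=
    ⟨η / (2 * (C + 1)), by positivity, by
      rw [← mul_div_assoc, div_le_div_iff₀ (by positivity) (by positivity)]
      nlinarith⟩
  obtain ⟨h, a0, a1⟩ : ∃ h, 0 ≤ h ∧ N * h = s1 := ⟨s1 / N, by positivity, by field_simp⟩
  have c0 : 0 ≤ C * h ^ 2 + C * e * h := by positivity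
  have c1 : N * (C * h ^ 2 + C * e * h) ≤ η := by
    have b1 : C * h ≤ η / 2 := by
      rw [div_lt_iff₀ h1] at hN
      nlinarith [mul_le_mul_of_nonneg_right hN.le a0]
    have b2 : N * (C * h ^ 2 + C * e * h) = (C * h + C * e) * s1 := by rw [← a1]; ring
    rw [b2]
    nlinarith [mul_nonneg C0 a0, mul_nonneg C0 e1.le]
  have key : ∀ j : ℕ, j ≤ N → ∃ P, Exc P (j * h) (j * (C * h ^ 2 + C * e * h)) := by
    intro j
    induction j with
    | zero => simpa [St_START] using h0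
    | succ j ih =>
      intro hj
      obtain ⟨P, hP⟩ := ih (by omega)
      have j1 : (j : ℝ) + 1 ≤ N := by exact_mod_cast hj
      have j0 : (0 : ℝ) ≤ j := j.cast_nonneg
      have j2 : ((j : ℝ) + 1) * h ≤ s1 := a1 ▸ mul_le_mul_of_nonneg_right j1 a0
      have j3 : j * h ≤ s1 := by linarith
      obtain ⟨P', p1, p2⟩ := hE _ e P _ (by positivity) j3 e1
        (by nlinarith [mul_le_mul_of_nonneg_right j1 c0]) hP
      have := hS _ ((j + 1) * h) P' _ e (by positivity) j3 (by positivity) j2 p1 p2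
      rw [show ((j : ℝ) + 1) * h - j * h = h by ring, abs_of_nonneg a0] at this
      refine ⟨P', ?_⟩
      convert this using 1
      · push_cast; rfl
      · push_cast; ring
  obtain ⟨P, hP⟩ := key N le_rfl
  rw [a1] at hP
  have b := hK P s1 _ s0 sl hP k
  have b1 : ∑ p, |nuE P k p - muE s1 k p| ≤ ε / 2 :=
    abs_le_of_sq_le_sq' (b.trans ((mul_le_mul_of_nonneg_left c1 (by positivity)).trans h3))
      (by positivity) |>.2
  refine ⟨P, (sum_le_sum fun p _ => abs_sub_le _ (muE s1 k p) _).trans ?_⟩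
  rw [sum_add_distrib]
  linarith

end Pool.Agent.Lib.PT5
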