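import Pool.Agent.Lib.PT5.ADefs2

/-! One vertex. -/

namespace Pool.Agent.Lib.PT5

open Finset Real RC5

namespace AC1

theorem sum3 (f : (Fin 3 → Bool) → ℝ) : ∑ s, f s = ∑ a, ∑ b, ∑ c, f ![a, b, c] := by
  rw [← (Fin.consEquiv fun _ : Fin 3 => Bool).sum_comp, Fintype.sum_prod_type]
  refine sum_congr rfl fun b _ => ?_
  rw [← (piFinTwoEquiv fun _ => Bool).symm.sum_comp, Fintype.sum_prod_type]
  rfl

theorem sum_tau : ∑ x : Star, tau x = 1 := by
  rw [Fintype.sum_prod_type]
  simp only [sum3]
  simp [tau, cst]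
  norm_num

theorem tau_pos (x : Star) : 0 < tau x := by
  unfold tau
  split_ifs <;> norm_num

theorem psi_pos {s : ℝ} (h0 : 0 ≤ s) (h1 : s < 1) (a b : T1) : 0 < psi s a b := by
  unfold psi
  split_ifs <;> linarith

theorem card_T1 : Fintype.card T1 = 10 := by decide

theorem sum_psi (s : ℝ) (a : T1) : ∑ b, psi s a b = 10 := by
  simp only [psi, sum_add_distrib, sum_ite_eq', mem_univ, if_true, sum_const, card_univ,
    nsmul_eq_mul, card_T1]
  push_cast
  ring

theorem isP {β : Type} [Fintype β] (P : Proc) {Y : (TV → Star) → β} (hY : Loc Y) :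
    IsP fun y => nu P fun c => ind (Y c = y) :=
  ⟨fun _ => nu_nonneg P fun _ => ind_nonneg _, sum_pr (hY.cfg P tm)⟩

theorem kl_eq {β : Type} [Fintype β] (P : Proc) {Y : (TV → Star) → β} (hY : Loc Y) (q : β → ℝ) :
    kl (fun y => nu P fun c => ind (Y c = y)) q = -enP P Y - nu P fun c => log (q (Y c)) := by
  have e : enP P Y = ∑ y, negMulLog (nu P fun c => ind (Y c = y)) := rfl
  rw [nu_law P hY fun y => log (q y), e, kl, sum_sub_distrib, ← sum_neg_distrib]
  simp only [negMulLog, neg_mul, neg_neg]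

theorem unif (hS : St_STEP) (P : Proc) (a : T1) : (nu P fun c => ind (st c d0 = a)) = 1 / 10 := by
  obtain ⟨-, -, -, -, -, h1, h2, -⟩ := hS
  have k : ∀ b : T1, (nu P fun c => ind (st c d0 = b)) = nu P fun c => ind (st c d0 = a) := by
    intro b
    obtain ⟨g, rfl⟩ := h1 b a
    rw [← nu_sym P ((loc_st d0).map fun t => ind (t = g1 g b)) g]
    exact congrArg _ (funext fun c => ind_congr (by rw [st_gs]; exact (h2 g).1.eq_iff.symm))
  have := (isP P (loc_st d0)).2
  simp only [k, sum_const, card_univ, card_T1, nsmul_eq_mul] at this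
  push_cast at this
  linarith

theorem en_st (hS : St_STEP) (P : Proc) : (enP P fun c => st c d0) = log 10 := by
  have e : (enP P fun c => st c d0) = ∑ y, negMulLog (nu P fun c => ind (st c d0 = y)) := rfl
  simp only [e, unif hS, sum_const, card_univ, card_T1, nsmul_eq_mul, negMulLog, one_div, log_inv]
  push_cast
  ring

end AC1

open AC1 in
theorem st_C1 (hI : St_EIP) (hE : St_ENT) (hS : St_STEP) : St_C1 := by
  intro P s η h0 h1 hx
  have h := hI P s η Star T1 (fun c => see c d0) (fun c => st c d0) ds id hx (loc_see d0)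
    (fun i c => by rw [st_pull, cov_d0, ds_see]) fun _ => rfl
  simp only [st_pull, cov_d0, en_st hS] at h
  have hY : Loc fun c : TV → Star => (st c d0, st c (tm d0)) :=
    (loc_st d0).map₂ (loc_st (tm d0)) Prod.mk
  have k1 := (hE.2.1 Star _ tau (isP P (loc_see d0)) ⟨fun x => (tau_pos x).le, sum_tau⟩
    fun x e => absurd e (tau_pos x).ne').1
  have q2 : IsP fun p : T1 × T1 => psi s p.1 p.2 / 100 := by
    refine ⟨fun p => (div_pos (psi_pos h0 h1 _ _) (by norm_num)).le, ?_⟩
    rw [Fintype.sum_prod_type]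
    simp only [← sum_div, sum_psi, sum_const, card_univ, card_T1, nsmul_eq_mul]
    norm_num
  have k2 := (hE.2.1 (T1 × T1) _ _ (isP P hY) q2
    fun p e => absurd e (div_pos (psi_pos h0 h1 _ _) (by norm_num)).ne').1
  rw [kl_eq P (loc_see d0)] at k1
  rw [kl_eq P hY] at k2
  have l : ∀ a b, log (psi s a b / 100) = log (psi s a b) - 2 * log 10 := fun a b => by
    rw [log_div (psi_pos h0 h1 a b).ne' (by norm_num), show (100 : ℝ) = 10 ^ 2 by norm_num, log_pow]
    norm_num
  simp only [l] at k2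
  rw [nu_sub P (hY.map fun p => log (psi s p.1 p.2)) (Loc.const _), nu_const] at k2
  unfold lV lE at *
  constructor <;> linarith

end Pool.Agent.Lib.PT5
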