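import Pool.Agent.Lib.PT5.ADefs2

/-! Small excess gives closeness to the tree measure. -/

namespace Pool.Agent.Lib.PT5

open Finset Real RC5

namespace ACLOSE

/-- forget the last level of a pattern -/
def cut (k : ℕ) : Pt (k + 1) → Pt k :=
  Nat.rec (motive := fun k => Pt (k + 1) → Pt k) (fun _ => ())
    (fun _ ih p => (p.1, ih p.2.1, ih p.2.2)) k

theorem cut_pat (c : TV → Star) : ∀ (k : ℕ) (d : TD), cut k (pat tm c (k + 1) d) = pat tm c k d
  | 0, _ => rfl
  | k + 1, _ => Prod.ext rfl (Prod.ext (cut_pat c k _) (cut_pat c k _))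

/-- the pattern around a vertex -/
def YB (k : ℕ) (e : TD) (c : TV → Star) : Star × (Fin 3 → Pt k) :=
  (see c e, fun i => pat tm c k (rho i e))

theorem loc_YB (k : ℕ) (e : TD) : Loc (YB k e) :=
  (loc_see e).map₂ (Loc.pi fun i => loc_pat tm k (rho i e)) Prod.mk

theorem YB_pull (k : ℕ) (e : TD) (c : TV → Star) : YB k d0 (pull tm e c) = YB k e c := by
  simp only [YB, see_pull, pat_pull tm_invo, cov_rho, cov_d0]

theorem pat_tm (k : ℕ) (e : TD) (c : TV → Star) :
    pat tm c (k + 1) (tm e) = (see c e, pat tm c k (rho 1 e), pat tm c k (rho 2 e)) := by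
  simp only [pat, ch, tm_invo e]
  rfl

theorem YB_eq (k : ℕ) (e : TD) (c : TV → Star) :
    YB k e c = ((pat tm c (k + 1) (tm e)).1, ![cut k (pat tm c (k + 1) e),
      (pat tm c (k + 1) (tm e)).2.1, (pat tm c (k + 1) (tm e)).2.2]) := by
  rw [pat_tm, cut_pat]
  refine Prod.ext rfl (funext fun i => ?_)
  fin_cases i
  · exact congrArg (pat tm c k) (rho_zero e)
  · rfl
  · rfl

theorem factor (hE : St_ENT) (P : Proc) {β γ : Type} [Fintype β] [Fintype γ]
    {Y : (TV → Star) → β} {Z : (TV → Star) → γ} (hY : Loc Y) (h : β → γ) (e : ∀ c, Z c = h (Y c)) :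
    enP P Z ≤ enP P Y := by
  rw [funext e]
  exact hE.2.2.1 TD β γ P.A _ h (hY.cfg P tm)

end ACLOSE

open ACLOSE in
theorem st_CLOSE (hEIP : St_EIP) (hC1 : St_C1) (hPATW : St_PATW) (hENT : St_ENT) : St_CLOSE := by
  intro P s η s0 s1 hx
  obtain ⟨η0, h0⟩ := hC1 P s η s0 s1 hx
  have h2 : ∀ k, -η - lV P - 3 / 2 * lE P s ≤
      -2 * enP P (YB k d0) + 3 / 2 * enP P fun c => patE tm c k d0 := fun k => by
    have a1 := hEIP P s η _ _ (YB k d0) (YB k d0) (fun y i => (rot i y.1, fun j => y.2 (i + j)))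
      Prod.fst hx (loc_YB k d0) (fun i c => by
        rw [YB_pull]
        simp only [YB, see_rho, rho_rho]) fun _ => rfl
    have a2 := factor hENT P (Z := fun c => (YB k d0 c, YB k d0 (pull tm (tm d0) c)))
      (loc_patE tm k d0) (fun p => ((p.1.1, ![cut k p.2, p.1.2.1, p.1.2.2]),
        (p.2.1, ![cut k p.1, p.2.2.1, p.2.2.2]))) fun c => by
      rw [YB_pull, YB_eq, YB_eq, tm_invo d0]
      rfl
    linarith
  have h3 : ∀ k, -η - lV P - 3 / 2 * lE P s ≤
      enP P (YB (k + 1) d0) - 3 / 2 * enP P fun c => patE tm c k d0 := fun k => by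
    have a1 := hEIP P s η _ _ (YB (k + 1) d0) (fun c => patE tm c k d0)
      (fun y i => ((rot i y.1, cut k (y.2 (i + 1)), cut k (y.2 (i + 2))), y.2 i))
      Prod.fst hx (loc_YB _ d0) (fun i c => by
        rw [patE_pull tm_invo, cov_d0, patE, pat_tm]
        simp only [YB, see_rho, rho_rho, cut_pat]) fun _ => rfl
    have a2 := factor hENT P
      (Z := fun c => (patE tm c k d0, patE tm (pull tm (tm d0) c) k d0))
      (loc_patE tm k d0) (fun p => (p, p.swap)) fun c => by
      rw [patE_pull tm_invo, cov_d0, patE, patE, tm_invo d0]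
      rfl
    linarith
  have h4 : ∀ k, -enP P (YB k d0) - (3 * 2 ^ k - 2) * lV P - (3 * 2 ^ k - 3) * lE P s ≤
      (3 * 2 ^ k - 2) * η := fun k => by
    induction k with
    | zero =>
      have := factor hENT P (Z := fun c => see c d0) (loc_YB 0 d0) Prod.fst fun _ => rfl
      norm_num
      linarith
    | succ k ih =>
      have := h2 k
      have := h3 k
      rw [pow_succ]
      linarith
  intro k
  obtain ⟨b1, b2, b3⟩ := hPATW s k s0 s1
  have hP : IsP (nuE P k) :=
    ⟨fun p => pr_nonneg _, sum_pr ((loc_patE tm k d0).cfg P tm)⟩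
  refine (hENT.2.1 _ _ _ hP b1 fun p e => absurd e (b2 p).ne').2.trans ?_
  have b4 : kl (nuE P k) (muE s k) = -enP P (fun c => patE tm c k d0) -
      ((4 * 2 ^ k - 2) * lV P + (4 * 2 ^ k - 3) * lE P s) := by
    rw [← b3 P, nu_law P (loc_patE tm k d0) fun p => log (muE s k p), kl, sum_sub_distrib, enP, ent,
      ← sum_neg_distrib]
    congr 1
    exact sum_congr rfl fun p _ => by rw [negMulLog, neg_mul, neg_neg]; rfl
  have := h2 k
  have := h4 k
  rw [b4]
  linarith

end Pool.Agent.Lib.PT5
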