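import Pool.Agent.Lib.PT5.ADefs2

/-! Continuity of the tree measure. -/

namespace Pool.Agent.Lib.PT5

open Finset Real RC5 Filter Topology

namespace ACONT

lemma c_psi (a b : T1) : Continuous fun s => psi s a b := by
  unfold psi
  split_ifs <;> fun_prop

lemma c_lk (a : T1) : ∀ (k : ℕ) (p : Pt k), Continuous fun s => lk s a k p
  | 0, _ => continuous_const
  | _ + 1, _ => c_psi _ _

lemma c_wt : ∀ (k : ℕ) (p : Pt k), Continuous fun s => wt s k p
  | 0, _ => continuous_const
  | k + 1, _ => (continuous_const.mul ((c_lk _ k _).mul (c_wt k _))).mul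
      ((c_lk _ k _).mul (c_wt k _))

end ACONT

theorem st_CONT : St_CONT := by
  intro k ε hε
  have hc : Continuous fun s => ∑ p, |muE s k p - muE 1 k p| :=
    continuous_finsetSum _ fun p _ => (((ACONT.c_psi _ _).mul
      ((ACONT.c_wt _ _).mul (ACONT.c_wt _ _))).sub continuous_const).abs
  have h1 : ∀ᶠ s in 𝓝 (1 : ℝ), ∑ p, |muE s k p - muE 1 k p| < ε :=
    hc.continuousAt.eventually_lt continuousAt_const (by simpa using hε)
  have h2 : ∀ᶠ s in 𝓝 (1 : ℝ), 0 < s := lt_mem_nhds one_pos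
  obtain ⟨s, ⟨h3, h4⟩, h5⟩ :=
    (((h1.and h2).filter_mono nhdsWithin_le_nhds).and
      (self_mem_nhdsWithin (s := Set.Iio (1 : ℝ)))).exists
  exact ⟨s, h4.le, h5, h3.le⟩

end Pool.Agent.Lib.PT5
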