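import Pool.Agent.Lib.PT5.ADefs2

/-! The law of an edge in approximate equilibrium. -/

namespace Pool.Agent.Lib.PT5

open Finset Real RC5

namespace ADLR

theorem first {X B : Type} [Fintype X] (mu nv h : X → ℝ) (b : X → B) (e : ℝ)
    (hp : ∀ p, 0 < mu p) (h1 : ∑ p, mu p = 1) (hh : ∀ p, |h p| ≤ 2)
    (hr : ∀ p p', b p = b p' → |nv p / mu p - nv p' / mu p'| ≤ e)
    (h0 : ∀ F : B → ℝ, ∑ p, mu p * (h p * F (b p)) = 0) : |∑ p, nv p * h p| ≤ 2 * e := by
  classical
  let F : B → ℝ := fun β => if k : ∃ p, b p = β then nv k.choose / mu k.choose else 0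
  have hF : ∀ p, |nv p / mu p - F (b p)| ≤ e := fun p => by
    have k : ∃ p', b p' = b p := ⟨p, rfl⟩
    simp only [F, dif_pos k]
    exact hr _ _ k.choose_spec.symm
  have e1 : ∑ p, nv p * h p = ∑ p, mu p * (h p * (nv p / mu p - F (b p))) := by
    rw [← sub_zero (∑ p, nv p * h p), ← h0 F, ← sum_sub_distrib]
    refine sum_congr rfl fun p _ => ?_
    have := (hp p).ne'
    field_simp
  rw [e1]
  refine (abs_sum_le_sum_abs _ _).trans ?_
  calc ∑ p, |mu p * (h p * (nv p / mu p - F (b p)))| ≤ ∑ p, mu p * (2 * e) := by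
        refine sum_le_sum fun p _ => ?_
        rw [abs_mul, abs_mul, abs_of_pos (hp p)]
        exact mul_le_mul_of_nonneg_left
          (mul_le_mul (hh p) (hF p) (abs_nonneg _) (by norm_num)) (hp p).le
    _ = 2 * e := by rw [← sum_mul, h1, one_mul]

/-- length of the message behind a dart -/
noncomputable def len (s : ℝ) (k : ℕ) (e : TD) (c : TV → Star) : ℝ :=
  √(sq2 (am s k (pat tm c (k + 1) e) - 1))

theorem loc_len (s : ℝ) (k : ℕ) (e : TD) : Loc (len s k e) :=
  (loc_pat tm (k + 1) e).map fun p => √(sq2 (am s k p - 1))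

theorem nu_len (P : Proc) (s : ℝ) (k : ℕ) (ε : ℝ) (h0 : 0 ≤ ε) (hq : qn P s k ≤ ε ^ 2) (e : TD) :
    nu P (len s k e) ≤ ε := by
  have e1 : len s k e = fun c => len s k d0 (pull tm e c) :=
    funext fun c => by rw [len, len, pat_pull tm_invo, cov_d0]
  rw [e1, nu_pull P (loc_len s k d0)]
  have h1 : nu P (len s k d0) ^ 2 ≤ nu P fun c => len s k d0 c ^ 2 :=
    mn_sq ((loc_len s k d0).cfg P tm)
  have e2 : (fun c => len s k d0 c ^ 2) = fun c => sq2 (am s k (pat tm c (k + 1) d0) - 1) :=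
    funext fun c => sq_sqrt (sum_nonneg fun t _ => sq_nonneg _)
  rw [e2] at h1
  exact (abs_le_of_sq_le_sq' (h1.trans hq) h0).2

/-- the conditional mean of the central edge -/
noncomputable def G (s : ℝ) (k : ℕ) (g : T1 → T1 → ℝ) (p : Pt (k + 1 + 1) × Pt (k + 1 + 1)) : ℝ :=
  Gf s g (Vm (am s k p.1.2.1) (am s k p.1.2.2)) (Vm (am s k p.2.2.1) (am s k p.2.2.2))

theorem top_pat (c : TV → Star) (k : ℕ) (d : TD) : top (pat tm c (k + 1) d) = st c (tm d) :=
  (st_eq c (tm d)).symm

end ADLR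

open ADLR in
theorem st_DLR (hR : St_RATIO) (h1 : St_EDG1) (h2 : St_EDG2) (hF : St_FLD) (hW : St_PATW) :
    St_DLR := by
  obtain ⟨C1, hC1, h1⟩ := h1
  refine ⟨4 * C1, by positivity, fun s k hs hs1 => ?_⟩
  obtain ⟨CR, hCR, hR⟩ := hR s (k + 1) hs hs1
  refine ⟨2 * CR, by positivity, fun P δ ε hE hε hq g hg => ?_⟩
  have hM := (hF s hs hs1).1 k
  obtain ⟨hW1, hW2, -⟩ := hW s (k + 1) hs hs1
  have hG := fun p : Pt (k + 1 + 1) × Pt (k + 1 + 1) => h1 s g _ _ _ _ hs hs1 hg (hM p.1.2.1)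
    (hM p.1.2.2) (hM p.2.2.1) (hM p.2.2.2)
  have hY := loc_patE tm (k + 1) d0
  have a1 : |nu P fun c => g (top (patE tm c (k + 1) d0).1) (top (patE tm c (k + 1) d0).2)
      - G s k g (patE tm c (k + 1) d0)| ≤ 2 * (CR * δ) := by
    rw [nu_law P hY fun p => g (top p.1) (top p.2) - G s k g p]
    refine first (muE s (k + 1)) (nuE P (k + 1)) (fun p => g (top p.1) (top p.2) - G s k g p)
      (fun p => (bd (k + 1) p.1, bd (k + 1) p.2)) _ hW2 hW1.2 (fun p => ?_)
      (fun p p' h => hR P δ hE p p' (congrArg Prod.fst h) (congrArg Prod.snd h))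
      fun F => h2 s k g F hs hs1
    have := abs_sub (g (top p.1) (top p.2)) (G s k g p)
    have := hg (top p.1) (top p.2)
    have : |G s k g p| ≤ 1 := (hG p).1
    linarith
  have l1 := loc_len s k (ch tm (tm d0) false)
  have l2 := loc_len s k (ch tm (tm d0) true)
  have l3 := loc_len s k (ch tm d0 false)
  have l4 := loc_len s k (ch tm d0 true)
  have l12 := l1.map₂ l2 (· + ·)
  have l13 := l12.map₂ l3 (· + ·)
  have l14 := l13.map₂ l4 (· + ·)
  have lG : Loc fun c => G s k g (patE tm c (k + 1) d0) - eg s g :=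
    hY.map fun p => G s k g p - eg s g
  have a2 : |nu P fun c => G s k g (patE tm c (k + 1) d0) - eg s g| ≤ 4 * C1 * ε := by
    refine (abs_mn_le (lG.cfg P tm)).trans ?_
    refine (nu_mono P (lG.map abs) (l14.map (C1 * ·)) fun c => (hG _).2).trans ?_
    rw [nu_mul P l14, nu_add P l13 l4, nu_add P l12 l3, nu_add P l1 l2]
    have b1 := nu_len P s k ε hε hq (ch tm (tm d0) false)
    have b2 := nu_len P s k ε hε hq (ch tm (tm d0) true)
    have b3 := nu_len P s k ε hε hq (ch tm d0 false)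
    have b4 := nu_len P s k ε hε hq (ch tm d0 true)
    calc _ ≤ C1 * (ε + ε + ε + ε) := mul_le_mul_of_nonneg_left (by linarith) hC1
      _ = _ := by ring
  have lg : Loc fun c : TV → Star => g (st c d0) (st c (tm d0)) := (loc_st d0).map₂ (loc_st _) g
  have e1 : nu P (fun c => g (st c d0) (st c (tm d0))) - eg s g
      = nu P (fun c => g (top (patE tm c (k + 1) d0).1) (top (patE tm c (k + 1) d0).2)
        - G s k g (patE tm c (k + 1) d0))
        + nu P fun c => G s k g (patE tm c (k + 1) d0) - eg s g := by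
    rw [← nu_add P (hY.map fun p => g (top p.1) (top p.2) - G s k g p) lG, ← nu_const P (eg s g),
      ← nu_sub P lg (Loc.const _)]
    refine congrArg _ (funext fun c => ?_)
    simp only [patE, top_pat, tm_invo d0, nu_const]
    ring
  rw [e1]
  refine (abs_add_le _ _).trans ?_
  linarith

end Pool.Agent.Lib.PT5
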