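import Pool.Agent.Lib.PT5.ADefs2

/-! The linear part wins after many steps. -/

namespace Pool.Agent.Lib.PT5

open Finset Real RC5 Filter Topology

namespace ADUH

/-- sums over the descendants of a given depth -/
noncomputable def SS {L : Type} (y : (TD → L) → Vec) : ℕ → (TD → L) → Vec
  | 0 => y
  | j + 1 => fun x => at_ tm (SS y j) (ch tm d0 false) x + at_ tm (SS y j) (ch tm d0 true) x

theorem loc_SS {L : Type} {y : (TD → L) → Vec} (h : Loc y) : ∀ j, Loc (SS y j)
  | 0 => h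
  | j + 1 => ((loc_SS h j).at_ _ _).map₂ ((loc_SS h j).at_ _ _) (· + ·)

theorem SS_eq {L : Type} (y : (TD → L) → Vec) (i : T1) : ∀ (j : ℕ) (x : TD → L),
    SS y j x i = ∑ l ∈ words j, at_ tm (fun x => y x i) (des tm d0 l) x
  | 0, x => by
    have : x ∘ cov tm d0 = x := funext fun t => congrArg x (cov_id t)
    simp [SS, words, des, at_, this]
  | j + 1, x => by
    rw [sum_words, SS]
    simp only [Pi.add_apply, at_, SS_eq y i j, comp_cov tm_invo, cov_des tm_invo, cov_d0, des]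

theorem SS_sum {L : Type} {y : (TD → L) → Vec} (h : ∀ x, ∑ i, y x i = 0) :
    ∀ (j : ℕ) (x : TD → L), ∑ i, SS y j x i = 0
  | 0, x => h x
  | j + 1, x => by
    simp only [SS, Pi.add_apply, at_, sum_add_distrib, SS_sum h j, add_zero]

theorem mn_SS (hB : St_BSV) (A : LS) {y : (TD → A.L) → Vec} (h : Loc y)
    (h0 : ∀ i, mn A (fun x => y x i) = 0) (j : ℕ) :
    mn A (fun x => sq2 (SS y j x)) ≤ 4 * ((j : ℝ) + 1) ^ 2 * 2 ^ j * mn A fun x => sq2 (y x) := by
  simp only [sq2]
  rw [mn_sum univ fun i _ => (loc_SS h j).map fun v => v i ^ 2,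
    mn_sum univ fun i _ => h.map fun v => v i ^ 2, mul_sum]
  refine sum_le_sum fun i _ => ?_
  simp only [SS_eq]
  exact hB A (fun x => y x i) j (h.map fun v => v i) (h0 i)

theorem exJ {r C : ℝ} (h0 : 0 ≤ r) (h1 : r < 1) (hC : 1 ≤ C) :
    ∃ J : ℕ, 2 * (C * (4 * ((J : ℝ) + 1) ^ 2 * r ^ J)) ≤ 1 / 4 := by
  have ht := tendsto_pow_const_mul_const_pow_of_abs_lt_one 2 (r := r) (by rwa [abs_of_nonneg h0])
  have hp : (0 : ℝ) < 1 / (128 * C) := by positivity
  obtain ⟨J, hJ, h1J⟩ := ((ht.eventually (gt_mem_nhds hp)).and (eventually_ge_atTop 1)).exists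
  refine ⟨J, ?_⟩
  have h2 : (1 : ℝ) ≤ J := by exact_mod_cast h1J
  have h3 : ((J : ℝ) + 1) ^ 2 ≤ 4 * (J : ℝ) ^ 2 := by nlinarith
  have h4 : 0 ≤ r ^ J := pow_nonneg h0 J
  rw [lt_div_iff₀ (by positivity)] at hJ
  have h5 := mul_le_mul_of_nonneg_right h3 h4
  have h6 := mul_le_mul_of_nonneg_left h5 (by linarith : (0 : ℝ) ≤ C)
  nlinarith

end ADUH

open ADUH

theorem st_DUH (hB : St_BSV) (hL : St_LIN) (hS : St_STEP) : St_DUH := by
  obtain ⟨N, κ, C, hN⟩ := nrm_of_lin hL
  obtain ⟨Ladd, Lsm, Lsum, -, -, -, -, -, hms, -⟩ := hS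
  have hk0 := hN.k0
  have hC := hN.c1
  obtain ⟨J, hJ⟩ := exJ (r := 2 * κ ^ 2) (by positivity) hN.k1 hC
  have h6 : ∀ j : ℕ, (1 : ℝ) ≤ 6 ^ j := fun j => one_le_pow₀ (by norm_num)
  refine ⟨J, 2 * (3 * C * (6 ^ J - 1) / 5), by have := h6 J; positivity, ?_⟩
  intro s A a hs0 hs1 hF t ρ hρ
  set T : Vec → Vec := fun x => s • L1 x with hT
  have Tadd : ∀ x y, T (x + y) = T x + T y := fun x y => by simp only [hT, Ladd, smul_add]
  have Tsub : ∀ x y, T (x - y) = T x - T y := fun x y => by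
    rw [eq_sub_iff_add_eq, ← Tadd, sub_add_cancel]
  have Tsum : ∀ x : Vec, ∑ i, x i = 0 → ∑ i, T x i = 0 := fun x hx => by
    simp only [hT, Pi.smul_apply, smul_eq_mul, ← mul_sum, Lsum, hx, mul_zero]
  have Tcon : ∀ x : Vec, ∑ i, x i = 0 → N (T x) ≤ κ * N x := fun x hx => by
    simp only [hT, hN.smul, abs_of_nonneg hs0]
    exact (mul_le_of_le_one_left (hN.nn _) hs1).trans (hN.con x hx)
  have Iadd : ∀ (j : ℕ) x y, T^[j] (x + y) = T^[j] x + T^[j] y := fun j => by
    induction j with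
    | zero => exact fun _ _ => rfl
    | succ j ih => intro x y; simp only [Function.iterate_succ_apply', ih, Tadd]
  have Icon : ∀ (j : ℕ) (x : Vec), ∑ i, x i = 0 →
      ∑ i, T^[j] x i = 0 ∧ N (T^[j] x) ≤ κ ^ j * N x := fun j x hx => by
    induction j with
    | zero => exact ⟨hx, by simp⟩
    | succ j ih =>
      rw [Function.iterate_succ_apply']
      refine ⟨Tsum _ ih.1, (Tcon _ ih.1).trans ?_⟩
      rw [pow_succ', mul_assoc]
      exact mul_le_mul_of_nonneg_left ih.2 hk0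
  set y : (TD → A.L) → Vec := fun x => a t x - 1 with hy
  have ly : Loc y := (hF.loc t).map (· - 1)
  have sy : ∀ x, ∑ i, y x i = 0 := fun x => (hms s _ hs0 hs1 (hF.ms t x)).2
  set D : ℕ → (TD → A.L) → Vec := fun j x => a (t + j) x - 1 - T^[j] (SS y j x) with hD
  have lD : ∀ j, Loc (D j) := fun j =>
    (hF.loc (t + j)).map₂ (loc_SS ly j) fun u v => u - 1 - T^[j] v
  have sD : ∀ j x, ∑ i, D j x i = 0 := fun j x => by
    have e1 := (hms s _ hs0 hs1 (hF.ms (t + j) x)).2
    have e2 := (Icon j _ (SS_sum sy j x)).1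
    have : ∑ i, D j x i = ∑ i, (a (t + j) x - 1) i - ∑ i, T^[j] (SS y j x) i := by
      rw [← sum_sub_distrib]; rfl
    rw [this, e1, e2, sub_zero]
  have rD : ∀ j x, D (j + 1) x
      = Rm s (at_ tm (a (t + j)) (ch tm d0 false) x) (at_ tm (a (t + j)) (ch tm d0 true) x)
        + (T (at_ tm (D j) (ch tm d0 false) x) + T (at_ tm (D j) (ch tm d0 true) x)) := by
    intro j x
    have e := hF.step (t + j) x
    have eR : ∀ u v, Rm s u v = Fm s u v - 1 - T (u - 1) - T (v - 1) := fun _ _ => rfl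
    simp only [hD, ← add_assoc, e, SS, Iadd, Function.iterate_succ_apply', at_, eR,
      Tsub (_ - 1)]
    abel
  have hk1 : κ ^ 2 ≤ 1 := by have := hN.k1; nlinarith
  have eD : ∀ j ≤ J, mn A (fun x => N (D j x) ^ 2) ≤ 3 * C * (6 ^ j - 1) / 5 * ρ := by
    intro j
    induction j with
    | zero =>
      intro _
      have z : N 0 = 0 := by simpa using hN.smul 0 0
      simp [hD, SS, hy, z, mn_const]
    | succ j ih =>
      intro hj
      have ih' := ih (by omega)
      have l1 : Loc fun x => N (D j x) ^ 2 := (lD j).map fun v => N v ^ 2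
      have lR : Loc fun x => sq2 (Rm s (at_ tm (a (t + j)) (ch tm d0 false) x)
          (at_ tm (a (t + j)) (ch tm d0 true) x)) :=
        ((hF.loc _).at_ _ _).map₂ ((hF.loc _).at_ _ _) fun u v => sq2 (Rm s u v)
      have la := l1.at_ tm (ch tm d0 false)
      have lb := l1.at_ tm (ch tm d0 true)
      have hm := mn_mono (A := A) ((lD (j + 1)).map fun v => N v ^ 2)
        ((lR.map (3 * C * ·)).map₂ ((la.map₂ lb (· + ·)).map (3 * ·)) (· + ·)) fun x => by
          rw [rD]
          set R := Rm s (at_ tm (a (t + j)) (ch tm d0 false) x)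
            (at_ tm (a (t + j)) (ch tm d0 true) x)
          have c1 := Tcon _ (sD j (x ∘ cov tm (ch tm d0 false)))
          have c2 := Tcon _ (sD j (x ∘ cov tm (ch tm d0 true)))
          simp only [at_]
          set u := D j (x ∘ cov tm (ch tm d0 false))
          set v := D j (x ∘ cov tm (ch tm d0 true))
          have hκ : κ ≤ 1 := by nlinarith
          have nu := hN.nn u
          have nv := hN.nn v
          have b1 : N (R + (T u + T v)) ≤ N R + N u + N v := by
            have := hN.add R (T u + T v)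
            have := hN.add (T u) (T v)
            nlinarith
          have b2 := pow_le_pow_left₀ (hN.nn _) b1 2
          have b3 := (hN.eqv R).2
          nlinarith [sq_nonneg (N R - N u), sq_nonneg (N R - N v), sq_nonneg (N u - N v)]
      rw [mn_add (lR.map (3 * C * ·)) ((la.map₂ lb (· + ·)).map (3 * ·)), mn_mul lR,
        mn_mul (la.map₂ lb (· + ·)), mn_add la lb, mn_at_tm l1, mn_at_tm l1] at hm
      have hr : rr A s a (t + j) ≤ ρ := hρ j (by omega)
      have hr' := mul_le_mul_of_nonneg_left hr (by linarith : (0 : ℝ) ≤ 3 * C)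
      unfold rr at hr'
      rw [pow_succ]
      nlinarith
  have lS := (loc_SS ly J).map sq2
  have l2 : Loc fun x => N (D J x) ^ 2 := (lD J).map fun v => N v ^ 2
  have hm := mn_mono (A := A) ((hF.loc (t + J)).map fun v => sq2 (v - 1))
    ((lS.map (2 * (C * (κ ^ J) ^ 2) * ·)).map₂ (l2.map (2 * ·)) (· + ·)) fun x => by
      have e : a (t + J) x - 1 = T^[J] (SS y J x) + D J x := by simp only [hD]; abel
      rw [e]
      have c1 := (Icon J _ (SS_sum sy J x)).2
      set M := T^[J] (SS y J x)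
      have b1 := pow_le_pow_left₀ (hN.nn _) (hN.add M (D J x)) 2
      have b2 := (hN.eqv (M + D J x)).1
      have b3 := pow_le_pow_left₀ (hN.nn _) c1 2
      have b4 := mul_le_mul_of_nonneg_left (hN.eqv (SS y J x)).2 (sq_nonneg (κ ^ J))
      rw [mul_pow] at b3
      nlinarith [sq_nonneg (N M - N (D J x))]
  rw [mn_add (lS.map (2 * (C * (κ ^ J) ^ 2) * ·)) (l2.map (2 * ·)), mn_mul lS, mn_mul l2] at hm
  have h0 : ∀ i, mn A (fun x => y x i) = 0 := fun i => by
    have := mn_sub (A := A) ((hF.loc t).map fun v => v i) (Loc.const (1 : ℝ))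
    rw [hF.mean t i, mn_const, sub_self] at this
    exact this
  have hSS := mn_SS hB A ly h0 J
  have hq : 0 ≤ qq A a t := mn_nonneg fun x => sum_nonneg fun i _ => sq_nonneg _
  have e2 : (2 * κ ^ 2) ^ J = (κ ^ J) ^ 2 * 2 ^ J := by
    rw [mul_pow, ← pow_mul, ← pow_mul, mul_comm J 2, mul_comm]
  rw [e2] at hJ
  have h7 := mul_le_mul_of_nonneg_left hSS
    (by positivity : (0 : ℝ) ≤ 2 * (C * (κ ^ J) ^ 2))
  have h8 := mul_le_mul_of_nonneg_right hJ hq
  have h9 := eD J le_rfl
  unfold qq at *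
  nlinarith

end Pool.Agent.Lib.PT5
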