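import Pool.Agent.Lib.PT5.CDefs

/-! The mean square of the message is a moment of the boundary experiment. -/

namespace Pool.Agent.Lib.PT5

open Finset Real RC5

namespace CQK

theorem io1_io1 : ∀ a : T1, io1 (io1 a) = a := by decide

theorem sum_psi (s : ℝ) (b : T1) : ∑ t, psi s t b = 10 := by
  have h : ∀ t : T1, (b = io1 t) = (io1 b = t) := fun t =>
    propext ⟨fun e => by rw [e, io1_io1], fun e => by rw [← e, io1_io1]⟩
  simp only [psi, h, sum_add_distrib, sum_ite_eq, mem_univ, if_true, sum_const, card_univ,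
    nsmul_eq_mul]
  rw [show Fintype.card T1 = 10 by decide]
  push_cast
  ring

theorem psi_nn {s : ℝ} (h0 : 0 ≤ s) (h1 : s ≤ 1) (a b : T1) : 0 ≤ psi s a b := by
  unfold psi
  split_ifs <;> linarith

theorem wt_nn {s : ℝ} (h0 : 0 ≤ s) (h1 : s ≤ 1) : ∀ k (p : Pt k), 0 ≤ wt s k p
  | 0, _ => zero_le_one
  | k + 1, p => by
    have hl : ∀ a (q : Pt k), 0 ≤ lk s a k q := fun a q => by
      cases k
      · exact zero_le_one
      · exact psi_nn h0 h1 _ _
    have ht : 0 ≤ tau p.1 := by
      unfold tau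
      split_ifs <;> norm_num
    exact mul_nonneg (mul_nonneg ht (mul_nonneg (hl _ _) (wt_nn h0 h1 k _)))
      (mul_nonneg (hl _ _) (wt_nn h0 h1 k _))

theorem av (hSP : St_SP) (s : ℝ) (k : ℕ) (f : Bd k → ℝ) :
    ∑ p, wt s (k + 1) p * f (bd k p) = ∑ b, avg (vS s k b) * f b := by
  have h : ∑ t, ∑ p, wt s (k + 1) p * psi s t (top p) * f (bd k p) =
      ∑ t, ∑ b, vS s k b t * f b := sum_congr rfl fun t _ => (hSP s k).1 t f
  rw [sum_comm, sum_comm (f := fun t b => vS s k b t * f b)] at h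
  simp only [← sum_mul, ← mul_sum, sum_psi] at h
  simp only [avg, div_mul_eq_mul_div, ← sum_div]
  rw [← h, eq_div_iff (by norm_num), sum_mul]
  exact sum_congr rfl fun p _ => by ring

end CQK

open CQK in
theorem st_QK (hSP : St_SP) : St_QK := by
  intro s k h0 h1
  refine Eq.trans (sum_congr rfl fun p _ => ?_) (av hSP s k fun b => sq2 (nz (vS s k b)))
  by_cases h : avg (vS s k (bd k p)) = 0
  · have h2 := av hSP s k fun b => ind (avg (vS s k b) = 0)
    rw [sum_eq_zero (s := univ) (f := fun b => avg (vS s k b) * ind (avg (vS s k b) = 0))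
      fun b _ => by unfold ind; split_ifs with e <;> simp [e]] at h2
    have h3 := (sum_eq_zero_iff_of_nonneg fun q _ => mul_nonneg (wt_nn h0 h1 _ q)
      (by unfold ind; split_ifs <;> norm_num)).1 h2 p (mem_univ p)
    rw [ind, if_pos h, mul_one] at h3
    rw [h3, zero_mul, zero_mul]
  · rw [((hSP s k).2.2 h0 h1).2 p h]

end Pool.Agent.Lib.PT5
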