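import Pool.Agent.Lib.PT5.ADefs2
import Pool.Agent.Lib.PT5.C_QK

/-! The mean over an edge with small messages. -/

namespace Pool.Agent.Lib.PT5

open Finset Real RC5

namespace AEDG1

theorem quot {X : Type} [Fintype X] (p w g : X → X → ℝ) (θ : ℝ) (hp : ∀ x y, 0 ≤ p x y)
    (hs : ∑ x, ∑ y, p x y = 100) (hw : ∀ x y, 0 ≤ w x y) (h1 : ∀ x y, |w x y - 1| ≤ θ)
    (hg : ∀ x y, |g x y| ≤ 1) :
    |(∑ x, ∑ y, p x y * w x y * g x y) / ∑ x, ∑ y, p x y * w x y| ≤ 1 ∧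
      |(∑ x, ∑ y, p x y * w x y * g x y) / (∑ x, ∑ y, p x y * w x y) -
        ∑ x, ∑ y, p x y / 100 * g x y| ≤ 2 * θ := by
  have bd : ∀ (u v : X → X → ℝ), (∀ x y, |u x y| ≤ v x y) →
      |∑ x, ∑ y, u x y| ≤ ∑ x, ∑ y, v x y := fun u v h =>
    (abs_sum_le_sum_abs _ _).trans (sum_le_sum fun x _ =>
      (abs_sum_le_sum_abs _ _).trans (sum_le_sum fun y _ => h x y))
  have e0 : ∑ x, ∑ y, p x y * θ = 100 * θ := by simp only [← sum_mul, hs]
  have a1 := bd (fun x y => p x y * w x y * g x y) (fun x y => p x y * w x y) fun x y => by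
    have h2 := mul_nonneg (hp x y) (hw x y)
    rw [abs_mul, abs_of_nonneg h2]
    exact mul_le_of_le_one_right h2 (hg x y)
  have a2 := bd (fun x y => p x y * w x y - p x y) (fun x y => p x y * θ) fun x y => by
    rw [← mul_sub_one, abs_mul, abs_of_nonneg (hp x y)]
    exact mul_le_mul_of_nonneg_left (h1 x y) (hp x y)
  have a3 := bd (fun x y => p x y * w x y * g x y - 100 * (p x y / 100 * g x y))
    (fun x y => p x y * θ) fun x y => by
      rw [show p x y * w x y * g x y - 100 * (p x y / 100 * g x y) =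
        p x y * ((w x y - 1) * g x y) by ring, abs_mul, abs_of_nonneg (hp x y), abs_mul]
      exact mul_le_mul_of_nonneg_left
        ((mul_le_of_le_one_right (abs_nonneg _) (hg x y)).trans (h1 x y)) (hp x y)
  simp only [sum_sub_distrib, ← mul_sum, hs, e0] at a2 a3
  generalize ∑ x, ∑ y, p x y * w x y * g x y = N at *
  generalize ∑ x, ∑ y, p x y * w x y = Z at *
  generalize ∑ x, ∑ y, p x y / 100 * g x y = e at *
  have hZ : 0 ≤ Z := (abs_nonneg _).trans a1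
  have b1 : |N / Z| ≤ 1 := by
    rw [abs_div, abs_of_nonneg hZ]
    exact div_le_one_of_le₀ a1 hZ
  have b2 : N / Z * Z = N := by
    rcases hZ.eq_or_lt with h | h
    · rw [← h, mul_zero]
      exact (abs_nonpos_iff.1 (h ▸ a1)).symm
    · exact div_mul_cancel₀ _ h.ne'
  refine ⟨b1, ?_⟩
  have b3 : |N / Z * (Z - 100)| ≤ 100 * θ := by
    rw [abs_mul]
    exact (mul_le_of_le_one_left (abs_nonneg _) b1).trans a2
  rw [mul_sub, b2] at b3
  rw [abs_le] at a3 b3 ⊢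
  constructor <;> linarith [a3.1, a3.2, b3.1, b3.2]

variable {s : ℝ} {a b : Vec}

theorem rng (h1 : s < 1) (h : Ms s a) (t : T1) :
    0 ≤ a t ∧ a t ≤ 10 ∧ |a t - 1| ≤ √(sq2 (a - 1)) := by
  have h0 : ∀ t, 0 ≤ a t := fun t => by linarith [h.1 t]
  refine ⟨h0 t, ?_, abs_le_sqrt ?_⟩
  · have h2 := single_le_sum (fun t _ => h0 t) (mem_univ t)
    have h3 := h.2
    unfold avg at h3
    linarith
  · exact single_le_sum (f := fun t => (a - 1) t ^ 2) (fun t _ => sq_nonneg _) (mem_univ t)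

theorem mul_bd {x y u v : ℝ} (h : |x| ≤ u) (h0 : 0 ≤ y) (h1 : y ≤ v) : |x * y| ≤ u * v := by
  rw [abs_mul, abs_of_nonneg h0]
  exact mul_le_mul h h1 h0 ((abs_nonneg _).trans h)

theorem vm (h1 : s < 1) (ha : Ms s a) (hb : Ms s b) (t : T1) : 0 ≤ Vm a b t ∧ Vm a b t ≤ 124 ∧
    |Vm a b t - 1| ≤ 15 * (√(sq2 (a - 1)) + √(sq2 (b - 1))) := by
  obtain ⟨a0, a1, a2⟩ := rng h1 ha (t.1, false)
  obtain ⟨a3, a4, a5⟩ := rng h1 ha (t.1, true)
  obtain ⟨a6, -, a8⟩ := rng h1 ha t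
  obtain ⟨b0, b1, b2⟩ := rng h1 hb (t.1, false)
  obtain ⟨b3, b4, b5⟩ := rng h1 hb (t.1, true)
  obtain ⟨b6, b7, b8⟩ := rng h1 hb t
  have le : ∀ c : Vec, 0 ≤ c (t.1, false) → 0 ≤ c (t.1, true) →
      c t ≤ c (t.1, false) + c (t.1, true) := fun c c0 c1 => by
    obtain ⟨i, o⟩ := t
    cases o
    · exact le_add_of_nonneg_right c1
    · exact le_add_of_nonneg_left c0
  have p1 := mul_le_mul (le a a0 a3) (le b b0 b3) b6 (add_nonneg a0 a3)
  have p2 := mul_nonneg a6 b6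
  have p3 := mul_le_mul (add_le_add a1 a4) (add_le_add b1 b4) (add_nonneg b0 b3) (by norm_num)
  have p4 := abs_le.1 (mul_bd a8 b6 b7)
  have p5 := abs_le.1 (mul_bd a2 (add_nonneg b0 b3) (add_le_add b1 b4))
  have p6 := abs_le.1 (mul_bd a5 (add_nonneg b0 b3) (add_le_add b1 b4))
  have p7 := (abs_nonneg _).trans a2
  have p8 := (abs_nonneg _).trans b2
  rw [abs_le] at b2 b5 b8 ⊢
  unfold Vm
  refine ⟨by linarith, by linarith, ?_, ?_⟩ <;>
    linarith [p4.1, p4.2, p5.1, p5.2, p6.1, p6.2, b2.1, b2.2, b5.1, b5.2, b8.1, b8.2]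

end AEDG1

theorem st_EDG1 (_h : St_STEP) : St_EDG1 := by
  refine ⟨3720, by norm_num, fun s g a b a' b' h0 h1 hg ha hb ha' hb' => ?_⟩
  have h := AEDG1.quot (psi s) (fun x y => Vm a b x * Vm a' b' y) g
    (1860 * (√(sq2 (a - 1)) + √(sq2 (b - 1)) + √(sq2 (a' - 1)) + √(sq2 (b' - 1))))
    (CQK.psi_nn h0 h1.le) (by rw [sum_comm]; simp only [CQK.sum_psi]; simp; norm_num)
    (fun x y => mul_nonneg (AEDG1.vm h1 ha hb x).1 (AEDG1.vm h1 ha' hb' y).1) (fun x y => by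
      obtain ⟨c0, c1, c2⟩ := AEDG1.vm h1 ha' hb' y
      have c3 := abs_le.1 (AEDG1.mul_bd (AEDG1.vm h1 ha hb x).2.2 c0 c1)
      have c4 := sqrt_nonneg (sq2 (a' - 1))
      have c5 := sqrt_nonneg (sq2 (b' - 1))
      rw [abs_le] at c2 ⊢
      constructor <;> linarith [c2.1, c2.2, c3.1, c3.2]) hg
  exact ⟨h.1, h.2.trans (le_of_eq (by ring))⟩

end Pool.Agent.Lib.PT5
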