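import Pool.Agent.Lib.PT5.ADefs2

/-! The conditional law of the central edge given the boundary. -/

namespace Pool.Agent.Lib.PT5

open Finset Real RC5

namespace AEDG2

theorem psi_pos {s : ℝ} (h0 : 0 ≤ s) (h1 : s < 1) (a b : T1) : 0 < psi s a b := by
  unfold psi
  split_ifs <;> linarith

theorem tau_pos (x : Star) : 0 < tau x := by
  unfold tau
  split_ifs <;> norm_num

theorem Vm_pos {a b : Vec} (ha : ∀ t, 0 < a t) (hb : ∀ t, 0 < b t) (t : T1) : 0 < Vm a b t := by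
  obtain ⟨c, e⟩ := t
  have h1 := mul_pos (ha (c, false)) (hb (c, false))
  have h2 := mul_pos (ha (c, false)) (hb (c, true))
  have h3 := mul_pos (ha (c, true)) (hb (c, false))
  have h4 := mul_pos (ha (c, true)) (hb (c, true))
  unfold Vm
  cases e <;> (simp only []; nlinarith)

theorem avg_pos {a : Vec} (ha : ∀ t, 0 < a t) : 0 < avg a := by
  unfold avg
  exact div_pos (sum_pos (fun t _ => ha t) univ_nonempty) (by norm_num)

theorem vS_pos {s : ℝ} (h0 : 0 ≤ s) (h1 : s < 1) : ∀ (k : ℕ) (b : Bd k) (t : T1), 0 < vS s k b t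
  | 0, x, t => mul_pos (tau_pos x) (psi_pos h0 h1 _ _)
  | k + 1, b, t => by
    have hv := Vm_pos (vS_pos h0 h1 k b.1) (vS_pos h0 h1 k b.2)
    have h2 := mul_pos (sub_pos.2 h1) (avg_pos hv)
    have h3 := mul_nonneg h0 (hv (io1 t)).le
    show 0 < (1 - s) * avg _ + s * _
    linarith

theorem am_eq (hSP : St_SP) {s : ℝ} (h0 : 0 ≤ s) (h1 : s < 1) (k : ℕ) (q : Pt (k + 1)) :
    am s k q = fun t => vS s k (bd k q) t / avg (vS s k (bd k q)) := by
  have h := ((hSP s k).2.2 h0 h1.le).2 q (avg_pos (vS_pos h0 h1 k _)).ne'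
  funext t
  have h2 := congrFun h t
  simp only [nz, Pi.sub_apply, Pi.one_apply] at h2
  linarith

theorem Vm_div (v w : Vec) (c d : ℝ) :
    Vm (fun t => v t / c) (fun t => w t / d) = fun t => Vm v w t / (c * d) := by
  funext t
  simp only [Vm, div_eq_mul_inv, mul_inv]
  ring

theorem Gf_div (s : ℝ) (g : T1 → T1 → ℝ) (h h' : Vec) {c d : ℝ} (hc : c ≠ 0) (hd : d ≠ 0) :
    Gf s g (fun t => h t / c) (fun t => h' t / d) = Gf s g h h' := by
  unfold Gf
  have e1 : ∑ a, ∑ b, psi s a b * (h a / c * (h' b / d)) * g a b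
      = (∑ a, ∑ b, psi s a b * (h a * h' b) * g a b) / (c * d) := by
    simp only [sum_div]
    refine sum_congr rfl fun a _ => sum_congr rfl fun b _ => ?_
    field_simp
  have e2 : ∑ a, ∑ b, psi s a b * (h a / c * (h' b / d))
      = (∑ a, ∑ b, psi s a b * (h a * h' b)) / (c * d) := by
    simp only [sum_div]
    refine sum_congr rfl fun a _ => sum_congr rfl fun b _ => ?_
    field_simp
  rw [e1, e2, div_div_div_cancel_right₀ (mul_ne_zero hc hd)]

/-- likelihood of a boundary given the state of the top dart -/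
noncomputable def V (s : ℝ) (k : ℕ) (b : Bd k × Bd k) : Vec := Vm (vS s k b.1) (vS s k b.2)

theorem one_side (hSP : St_SP) (s : ℝ) (k : ℕ) (H : T1 → Bd (k + 1) → ℝ) :
    ∑ p : Pt (k + 1 + 1), wt s (k + 1 + 1) p * H (top p) (bd (k + 1) p)
      = ∑ b : Bd k × Bd k, ∑ a, V s k b a / 10 * H a b := by
  rw [sum_comm]
  have e : ∀ a, ∑ b : Bd k × Bd k, V s k b a / 10 * H a b
      = ∑ p : Pt (k + 1 + 1), wt s (k + 1 + 1) p * ind (top p = a) * H a (bd (k + 1) p) :=
    fun a => ((hSP s k).2.1 a (H a)).symm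
  simp only [e]
  rw [sum_comm]
  refine sum_congr rfl fun p _ => ?_
  rw [← sum_ind_mul (top p) fun a => H a (bd (k + 1) p), mul_sum]
  exact sum_congr rfl fun a _ => (mul_assoc _ _ _).symm

theorem two_side (hSP : St_SP) (s : ℝ) (k : ℕ) (K : T1 → Bd (k + 1) → T1 → Bd (k + 1) → ℝ) :
    ∑ p : Pt (k + 1 + 1) × Pt (k + 1 + 1),
        muE s (k + 1) p * K (top p.1) (bd (k + 1) p.1) (top p.2) (bd (k + 1) p.2)
      = ∑ b : Bd k × Bd k, ∑ a, V s k b a / 10 *
          ∑ b' : Bd k × Bd k, ∑ a', V s k b' a' / 10 * (psi s a a' * K a b a' b') := by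
  rw [← one_side hSP s k fun a b =>
    ∑ b' : Bd k × Bd k, ∑ a', V s k b' a' / 10 * (psi s a a' * K a b a' b'),
    Fintype.sum_prod_type]
  refine sum_congr rfl fun p _ => ?_
  rw [← one_side hSP s k fun a' b' => psi s (top p) a' * K (top p) (bd (k + 1) p) a' b', mul_sum]
  refine sum_congr rfl fun q _ => ?_
  simp only [muE]
  ring

theorem cancel {s : ℝ} (h0 : 0 ≤ s) (h1 : s < 1) (g : T1 → T1 → ℝ) {h h' : Vec}
    (hh : ∀ t, 0 < h t) (hh' : ∀ t, 0 < h' t) (x : ℝ) :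
    ∑ a, h a / 10 * ∑ a', h' a' / 10 * (psi s a a' * ((g a a' - Gf s g h h') * x)) = 0 := by
  have hd : 0 < ∑ a, ∑ b, psi s a b * (h a * h' b) :=
    sum_pos (fun a _ => sum_pos (fun b _ => mul_pos (psi_pos h0 h1 a b) (mul_pos (hh a) (hh' b)))
      univ_nonempty) univ_nonempty
  have hG : Gf s g h h' * ∑ a, ∑ b, psi s a b * (h a * h' b)
      = ∑ a, ∑ b, psi s a b * (h a * h' b) * g a b := div_mul_cancel₀ _ hd.ne'
  have e : ∑ a, h a / 10 * ∑ a', h' a' / 10 * (psi s a a' * ((g a a' - Gf s g h h') * x))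
      = x / 100 * (∑ a, ∑ b, psi s a b * (h a * h' b) * g a b
        - Gf s g h h' * ∑ a, ∑ b, psi s a b * (h a * h' b)) := by
    simp only [mul_sum, mul_sub, ← sum_sub_distrib]
    refine sum_congr rfl fun a _ => sum_congr rfl fun b _ => ?_
    ring
  rw [e, hG, sub_self, mul_zero]

end AEDG2

open AEDG2 in
theorem st_EDG2 (hSP : St_SP) : St_EDG2 := by
  intro s k g F h0 h1
  have hA : ∀ p : Pt (k + 1 + 1), ∃ c : ℝ, c ≠ 0 ∧
      Vm (am s k p.2.1) (am s k p.2.2) = fun t => V s k (bd (k + 1) p) t / c := by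
    intro p
    refine ⟨_, (mul_pos (avg_pos (vS_pos h0 h1 k (bd k p.2.1)))
      (avg_pos (vS_pos h0 h1 k (bd k p.2.2)))).ne', ?_⟩
    rw [am_eq hSP h0 h1, am_eq hSP h0 h1, Vm_div]
    rfl
  have hG : ∀ p q : Pt (k + 1 + 1),
      Gf s g (Vm (am s k p.2.1) (am s k p.2.2)) (Vm (am s k q.2.1) (am s k q.2.2))
        = Gf s g (V s k (bd (k + 1) p)) (V s k (bd (k + 1) q)) := by
    intro p q
    obtain ⟨c, hc, e1⟩ := hA p
    obtain ⟨d, hd, e2⟩ := hA q
    rw [e1, e2, Gf_div s g _ _ hc hd]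
  simp only [hG]
  rw [two_side hSP s k fun a b a' b' => (g a a' - Gf s g (V s k b) (V s k b')) * F (b, b')]
  refine sum_eq_zero fun b _ => ?_
  have hV : ∀ b : Bd k × Bd k, ∀ t, 0 < V s k b t :=
    fun b => Vm_pos (vS_pos h0 h1 k b.1) (vS_pos h0 h1 k b.2)
  simp only [mul_sum (univ : Finset (Bd k × Bd k))]
  rw [sum_comm]
  exact sum_eq_zero fun b' _ => cancel h0 h1 g (hV b) (hV b') _

end Pool.Agent.Lib.PT5
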