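import Pool.Agent.Lib.PT5.ADefs2

/-! The entropy inequality for processes. -/

namespace Pool.Agent.Lib.PT5

open Finset Real RC5

namespace AEIP

theorem at_cfg {V γ : Type} {m : V × Fin 3 → V × Fin 3} (hm : Invo m) (P : Proc)
    (t : (TV → Star) → γ) (e : V × Fin 3) (x : V × Fin 3 → P.A.L) :
    at_ m (fun x => t (cfg P tm x)) e x = t (pull m e (cfg P m x)) := by
  rw [pull_cfg hm]; rfl

theorem fre_eq {n : ℕ} (P : Proc) (s : ℝ) (m : HE n → HE n) :
    fre s m (law P m) = -ent P.A (cfg P m) - ex (law P m) (logW s m) := by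
  unfold fre ent ex
  rw [sum_sub_distrib, ← sum_neg_distrib]
  congr 1
  refine sum_congr rfl fun c _ => ?_
  simp only [negMulLog, law]
  ring

end AEIP

open AEIP

theorem st_EIP (hEI : St_EI) (hEW : St_EW) (hENT : St_ENT) : St_EIP := by
  intro P s η β T _ _ Y t φ χ hE hY hφ hχ
  obtain ⟨r, hr⟩ := hE
  obtain ⟨r', hr'⟩ := hEW P s
  have key := hEI P.A β T (fun x => Y (cfg P tm x)) (fun x => t (cfg P tm x)) φ
    (-η - lV P - 3 / 2 * lE P s) (max r r') (hY.cfg P tm)
    (fun i x => by rw [at_cfg tm_invo, hφ]) ?_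
  · have e : (fun x => (t (cfg P tm x), at_ tm (fun x => t (cfg P tm x)) (tm d0) x))
        = fun x => (t (cfg P tm x), t (pull tm (tm d0) (cfg P tm x))) := by
      funext x; rw [at_cfg tm_invo]
    rw [e] at key
    exact key
  · intro n m hm hi
    have h1 := hr n m hm (hi.mono (le_max_left _ _))
    have h2 := hr' n m hm (hi.mono (le_max_right _ _))
    rw [fre_eq, h2] at h1
    have h3 := hENT.2.2.1 (HE n) (Fin n → β) (Fin n → Star) P.A
      (fun x (v : Fin n) => at_ m (fun x => Y (cfg P tm x)) (v, 0) x) (fun y v => χ (y v))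
      (Loc.of_fintype _)
    have e : (fun x (v : Fin n) => χ (at_ m (fun x => Y (cfg P tm x)) (v, 0) x)) = cfg P m := by
      funext x v
      rw [at_cfg (invo_of_isM hm), ← hχ, see_pull, cov_d0, see_zero]
    rw [e] at h3
    linarith

end Pool.Agent.Lib.PT5
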