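import Pool.Agent.Lib.PT5.ADefs2

/-! The law of an edge can be corrected. -/

namespace Pool.Agent.Lib.PT5

open Finset Real RC5

theorem st_EQS (hNR : St_NR) (hRNR : St_RNR) (hFLD : St_FLD) (hQCL : St_QCL) (hCLOSE : St_CLOSE)
    (hEQ : St_EQ) (hDLR : St_DLR) : St_EQS := by
  intro s1 h1
  obtain ⟨q0, hq, hR⟩ := hRNR s1 h1
  obtain ⟨k0, hk⟩ := hNR (q0 / 2) (by positivity)
  obtain ⟨C, hC, hD⟩ := hDLR
  refine ⟨(q0 / 180) ^ 2 / (16 * 2 ^ k0), by positivity, fun s e P η s0 s1' he hη hP => ?_⟩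
  have s2 : s < 1 := s1'.trans_lt h1
  obtain ⟨T, hT⟩ := hR ((e / (2 * (C + 1))) ^ 2) (by positivity)
  obtain ⟨C', hC', hD'⟩ := hD s (k0 + T) s0 s2
  obtain ⟨P', hP', hE⟩ := hEQ s (k0 + T + 1) (e / (2 * (C' + 1))) s0 s2 (by positivity) P η hP
  refine ⟨P', hP', fun g hg => ?_⟩
  have a1 : ∑ p, |nuE P' k0 p - muE s k0 p| ≤ q0 / 180 := by
    refine (abs_le_of_sq_le_sq' ?_ (by positivity)).2
    refine (hCLOSE P' s η s0 s2 hP' k0).trans ?_
    rwa [le_div_iff₀' (by positivity)] at hη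
  have a2 : qn P' s k0 ≤ q0 := by linarith [hQCL s P' k0 s0 s2, hk s s0 s2.le]
  have a0 : ∀ t, qq P'.A (fun t x => am s (k0 + t) (pat tm (cfg P' tm x) (k0 + t + 1) d0)) t =
      qn P' s (k0 + t) := fun t => by unfold qq qn nu; rfl
  have a3 := hT s P'.A _ s0 s1' ((hFLD s s0 s2).2 P' k0) ((a0 0).trans_le a2)
  rw [a0] at a3
  refine (hD' P' _ _ hE (by positivity) a3 g hg).trans ?_
  have b : ∀ D : ℝ, 0 ≤ D → D * (e / (2 * (D + 1))) ≤ e / 2 := fun D hD => by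
    rw [← mul_div_assoc, div_le_div_iff₀ (by positivity) (by positivity)]
    nlinarith
  linarith [b C hC, b C' hC']

end Pool.Agent.Lib.PT5
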