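import Pool.Agent.Lib.PT5.ADefs2

namespace Pool.Agent.Lib.PT5

open Finset Real RC5

theorem st_EW : St_EW := by
  intro P s
  obtain ⟨r1, h1⟩ := nu_graph P ((loc_see d0).map fun y => log (tau y))
  obtain ⟨r2, h2⟩ := nu_graph P ((loc_st d0).map₂ (loc_st (tm d0)) fun a b => log (psi s a b))
  refine ⟨max r1 r2, fun n m hm hi => ?_⟩
  have hv := invo_of_isM hm
  have e1 : ∀ v : Fin n, mn P.A (fun x => log (tau (cfg P m x v))) = lV P := fun v => by
    have := h1 (Fin n) m hv (hi.mono (le_max_left _ _)) (v, 0)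
    simp only [see_pull, cov_d0, see_zero] at this
    exact this
  have e2 : ∀ d : HE n, mn P.A (fun x => log (psi s (st (cfg P m x) d) (st (cfg P m x) (m d)))) =
      lE P s := fun d => by
    have := h2 (Fin n) m hv (hi.mono (le_max_right _ _)) d
    simp only [st_pull, cov_tm hv, cov_d0] at this
    exact this
  have e0 : ex (law P m) (logW s m) = mn P.A fun x => logW s m (cfg P m x) :=
    (mn_law (Loc.of_fintype _) _).symm
  rw [e0]
  unfold logW
  rw [mn_add (Loc.of_fintype _) (Loc.of_fintype _), mn_mul (Loc.of_fintype _),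
    mn_sum _ fun _ _ => Loc.of_fintype _, mn_sum _ fun _ _ => Loc.of_fintype _]
  simp only [e1, e2, sum_const, card_univ, Fintype.card_prod, Fintype.card_fin, nsmul_eq_mul]
  push_cast
  ring

end Pool.Agent.Lib.PT5
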