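import Pool.Agent.Lib.PT5.ADefs2

/-! The messages of a process form a field. -/

namespace Pool.Agent.Lib.PT5

open Finset Real RC5

namespace AFLD

theorem io_g (g : D5) (a b : T1) : g1 g b = io1 (g1 g a) ↔ b = io1 a := by revert g a b; decide

theorem psi_g (s : ℝ) (g : D5) (a b : T1) : psi s (g1 g a) (g1 g b) = psi s a b := by
  simp only [psi, io_g]

theorem equi (h : St_STEP) (s : ℝ) (g : D5) (c : TV → Star) : ∀ (k : ℕ) (d : TD),
    am s k (pat tm (gs g ∘ c) (k + 1) d) ∘ g1 g = am s k (pat tm c (k + 1) d)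
  | 0, d => funext fun t => psi_g s g t (ds (see c (tm d)) 0)
  | k + 1, d => by
    change Fm s (am s k (pat tm _ (k + 1) _)) (am s k (pat tm _ (k + 1) _)) ∘ _ =
      Fm s (am s k (pat tm _ (k + 1) _)) (am s k (pat tm _ (k + 1) _))
    rw [← h.2.2.2.1, equi h s g c k, equi h s g c k]

end AFLD

open AFLD

theorem st_FLD (h : St_STEP) : St_FLD := by
  intro s h0 h1
  obtain ⟨C, -, hC⟩ := h.2.2.2.2.2.2.2.2.2 s h1
  have ms : ∀ k p, Ms s (am s k p) := by
    intro k
    induction k with
    | zero => exact fun p => h.2.2.2.2.2.2.2.1 s h0 _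
    | succ k ih => exact fun p => (hC s _ _ h0 le_rfl (ih _) (ih _)).1
  have lc (k) : Loc fun c : TV → Star => am s k (pat tm c (k + 1) d0) := (loc_pat tm _ _).map _
  refine ⟨ms, fun P k => ⟨fun t => (lc _).cfg P tm, fun t x => ms _ _, fun t x => ?_, fun t i => ?_⟩⟩
  · simp only [at_, ← pull_cfg tm_invo, pat_pull tm_invo, cov_d0]
    rfl
  · have e (j : T1) : nu P (fun c => am s (k + t) (pat tm c (k + t + 1) d0) j)
        = nu P fun c => am s (k + t) (pat tm c (k + t + 1) d0) i := by
      obtain ⟨g, rfl⟩ := h.2.2.2.2.2.1 i j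
      rw [← nu_sym P ((lc _).map (· (g1 g i))) g]
      exact congrArg _ (funext fun c => congrFun (equi h s g c _ _) i)
    have e2 := nu_sum P (f := fun j c => am s (k + t) (pat tm c (k + t + 1) d0) j) univ
      fun j _ => (lc _).map (· j)
    have e3 (c : TV → Star) : ∑ j, am s (k + t) (pat tm c (k + t + 1) d0) j = 10 := by
      have := (ms (k + t) (pat tm c (k + t + 1) d0)).2
      rw [avg] at this
      linarith
    simp only [e, e3, nu_const, sum_const, card_univ, Fintype.card_prod, ZMod.card,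
      Fintype.card_bool, nsmul_eq_mul] at e2
    change nu P (fun c => am s (k + t) (pat tm c (k + t + 1) d0) i) = 1
    push_cast at e2
    linarith

end Pool.Agent.Lib.PT5
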