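import Pool.Agent.Lib.PT5.ADefs2

/-! FN: random responses exist. -/

namespace Pool.Agent.Lib.PT5

open Finset Real RC5

namespace AFN

theorem marg {B Y : Type} [Fintype B] [DecidableEq B] [Fintype Y] (γ : B → Y → ℝ)
    (h1 : ∀ b, ∑ y, γ b y = 1) (b : B) (h : Y → ℝ) :
    ∑ a : B → Y, (∏ c, γ c (a c)) * h (a b) = ∑ y, γ b y * h y := by
  have e : ∀ a : B → Y, (∏ c, γ c (a c)) * h (a b)
      = ∏ c, (γ c (a c) * if c = b then h (a c) else 1) := fun a => by
    rw [prod_mul_distrib, prod_ite_eq']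
    simp
  have k := Finset.prod_univ_sum (fun _ : B => (univ : Finset Y))
    fun c y => γ c y * if c = b then h y else 1
  rw [Fintype.piFinset_univ] at k
  simp_rw [e]
  rw [← k, Finset.prod_eq_single b]
  · simp
  · intro c _ hc
    simp [hc, h1]
  · simp

theorem gs_inj (g : D5) : Function.Injective (gs g) := by
  rintro ⟨c, x⟩ ⟨c', x'⟩ h
  have h1 : gc g c = gc g c' := congrArg Prod.fst h
  have h2 : ∀ i, xor (x i) g.2 = xor (x' i) g.2 := fun i => congrFun (congrArg Prod.snd h) i
  refine Prod.ext ?_ (funext fun i => ?_)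
  · unfold gc at h1
    split_ifs at h1 <;> simpa using h1
  · simpa using h2 i

theorem io_g : ∀ (g : D5) (a b : T1), g1 g b = io1 (g1 g a) ↔ b = io1 a := by decide

theorem tau_gs (g : D5) (y : Star) : tau (gs g y) = tau y := by
  have : cst (gs g y).2 ↔ cst y.2 := by simp [cst, gs]
  simp only [tau, this]

theorem hw_g (s : ℝ) (g : D5) (b : Fin 3 → T1) (y : Star) :
    hw s (g1 g ∘ b) (gs g y) = hw s b y := by
  simp only [hw, tau_gs, ds_gs, psi, Function.comp, io_g]

theorem gam_g (s : ℝ) (g : D5) (b : Fin 3 → T1) (y : Star) :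
    gam s (g1 g ∘ b) (gs g y) = gam s b y := by
  have hb : Function.Bijective (gs g) := Finite.injective_iff_bijective.1 (gs_inj g)
  unfold gam
  rw [hw_g, ← hb.sum_comp fun z => hw s (g1 g ∘ b) z]
  simp only [hw_g]

theorem keep {B Y : Type} [Fintype B] (γ : B → Y → ℝ) (u : B ≃ B) (v : Y ≃ Y)
    (h : ∀ b y, γ (u b) (v y) = γ b y) (a : B → Y) :
    ∏ c, γ c (Equiv.arrowCongr u v a c) = ∏ c, γ c (a c) := by
  rw [← u.prod_comp]
  simp [h]

end AFN

open AFN in
theorem st_FN (hK : St_KNAT) (hS : St_STEP) : St_FN := by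
  intro s h0 h1
  have hP := fun b => (hK.1 s b h0 h1).1
  have hm := marg (gam s) fun b => (hP b).2
  let F : LS :=
    { L := (Fin 3 → T1) → Star
      fin := inferInstance
      pt := fun _ => (0, fun _ => true)
      w := fun a => ∏ c, gam s c (a c)
      nn := fun a => prod_nonneg fun c _ => (hP c).1 _
      one := by simpa [(hP fun _ => (0, true)).2] using hm (fun _ => (0, true)) fun _ => 1 }
  refine ⟨F, fun a b => a b, fun b h => hm b h, fun g => ?_⟩
  let u : (Fin 3 → T1) ≃ (Fin 3 → T1) :=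
    Equiv.arrowCongr (Equiv.refl _) (Equiv.ofBijective _ (hS.2.2.2.2.2.2.1 g))
  let v : Star ≃ Star := Equiv.ofBijective _ (Finite.injective_iff_bijective.1 (gs_inj g))
  refine ⟨Equiv.arrowCongr u v, fun a => keep (gam s) u v (fun b y => gam_g s g b y) a,
    fun a b => ?_⟩
  change v (a (u.symm (u b))) = _
  rw [Equiv.symm_apply_apply]
  rfl

end Pool.Agent.Lib.PT5
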