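import Pool.Agent.Lib.PT5.ADefs2

/-! One heat bath lowers the free energy. -/

namespace Pool.Agent.Lib.PT5

open Finset Real RC5

namespace AKER

theorem bath {X Y : Type} [Fintype X] [Fintype Y] (hE : St_ENT) (pt : X → Y → X) (se : X → Y)
    (h1 : ∀ c y z, pt (pt c y) z = pt c z) (h2 : ∀ c, pt c (se c) = c)
    (h3 : ∀ c y, se (pt c y) = y) (γ : X → Y → ℝ) (g1 : ∀ c y, γ (pt c y) = γ c)
    (g2 : ∀ c y, 0 < γ c y) (g3 : ∀ c, ∑ y, γ c y = 1) (L : X → ℝ)
    (hL : ∀ c y, L (pt c y) - log (γ c y) = L c - log (γ c (se c))) (p q : X → ℝ) (hp : IsP p)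
    (hq : ∀ f, ex q f = ex p fun c => ∑ y, γ c y * f (pt c y)) :
    IsP q ∧ ∀ f : X → ℝ, (∀ c, |f c| ≤ 1) →
      ∑ c, (q c * log (q c) - q c * L c)
        ≤ ∑ c, (p c * log (p c) - p c * L c) - 1 / 4 * (ex p f - ex q f) ^ 2 := by
  classical
  set pb : X → ℝ := fun c => ∑ y, p (pt c y) with hpb
  have inv : Function.Involutive fun z : X × Y => (pt z.1 z.2, se z.1) := fun z => by
    simp only [h1, h2, h3]
  have e1 : ∀ f, ex q f = ∑ c, pb c * γ c (se c) * f c := fun f => by
    rw [hq, ex]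
    simp only [hpb, mul_sum, sum_mul]
    rw [← Fintype.sum_prod_type', ← Fintype.sum_prod_type', ← Equiv.sum_comp inv.toPerm]
    refine sum_congr rfl fun z _ => ?_
    simp only [Function.Involutive.coe_toPerm, h1, h2, g1]
    ring
  have e2 : ∀ c, q c = pb c * γ c (se c) := fun c => by
    have := e1 (Pi.single c 1)
    simpa [ex, Pi.single_apply] using this
  have b0 : ∀ c, 0 ≤ pb c := fun c => sum_nonneg fun y _ => hp.1 _
  have b1 : ∀ c, p c ≤ pb c := fun c => by
    have := single_le_sum (f := fun y => p (pt c y)) (fun y _ => hp.1 _) (mem_univ (se c))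
    rwa [h2] at this
  have fix : ∀ h : X → ℝ, (∀ c y, h (pt c y) = h c) → ex q h = ex p h := fun h hh => by
    rw [hq]
    simp only [hh, ← sum_mul, g3, one_mul]
  have hQ : IsP q := ⟨fun c => by rw [e2]; exact mul_nonneg (b0 c) (g2 _ _).le, by
    have := fix (fun _ => 1) fun _ _ => rfl
    simpa [ex, hp.2] using this⟩
  have z : ∀ c, q c = 0 → p c = 0 := fun c h => by
    rw [e2] at h
    have h' := (mul_eq_zero.1 h).resolve_right (g2 _ _).ne'
    exact le_antisymm (h' ▸ b1 c) (hp.1 c)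
  refine ⟨hQ, fun f hf => ?_⟩
  set h : X → ℝ := fun c => log (pb c) - (L c - log (γ c (se c))) with hh
  have hi : ∀ c y, h (pt c y) = h c := fun c y => by
    simp only [hh, hpb, h1, g1, h3, hL]
  have k : ∀ c, q c ≠ 0 → log (q c) - L c = h c := fun c hc => by
    have hc' : pb c ≠ 0 := fun e => hc (by rw [e2, e, zero_mul])
    rw [e2, log_mul hc' (g2 _ _).ne', hh]
    ring
  have a1 : ∑ c, (q c * log (q c) - q c * L c) = ex q h := sum_congr rfl fun c _ => by
    by_cases hc : q c = 0
    · simp [hc]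
    · rw [← k c hc]; ring
  have a2 : ∑ c, (p c * log (p c) - p c * L c) = kl p q + ex p h := by
    rw [kl, ex, ← sum_add_distrib]
    refine sum_congr rfl fun c _ => ?_
    by_cases hc : q c = 0
    · simp [z c hc]
    · rw [← k c hc]; ring
  have a3 := (hE.2.1 X p q hp hQ z).2
  have a4 : |ex p f - ex q f| ≤ ∑ c, |p c - q c| := by
    rw [ex, ex, ← sum_sub_distrib]
    refine (abs_sum_le_sum_abs _ _).trans (sum_le_sum fun c _ => ?_)
    rw [← sub_mul, abs_mul]
    exact mul_le_of_le_one_right (abs_nonneg _) (hf c)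
  have a5 : (ex p f - ex q f) ^ 2 ≤ (∑ c, |p c - q c|) ^ 2 := by
    rw [← sq_abs]
    exact pow_le_pow_left₀ (abs_nonneg _) a4 2
  rw [a1, a2, fix h hi]
  linarith

theorem io_comm : ∀ a b : T1, b = io1 a ↔ a = io1 b := by decide

theorem psi_comm (s : ℝ) (a b : T1) : psi s a b = psi s b a := by
  unfold psi
  rw [if_congr (io_comm a b) rfl rfl]

theorem psi_pos {s : ℝ} (h0 : 0 ≤ s) (h1 : s < 1) (a b : T1) : 0 < psi s a b := by
  unfold psi
  split_ifs <;> linarith

theorem tau_pos (y : Star) : 0 < tau y := by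
  unfold tau
  split_ifs <;> norm_num

theorem cst_rot : ∀ (i : Fin 3) (f : Fin 3 → Bool), cst (fun j => f (i + j)) ↔ cst f := by decide

theorem tau_rot (i : Fin 3) (y : Star) : tau (rot i y) = tau y := by
  unfold tau
  exact if_congr (cst_rot i y.2) rfl rfl

variable {n : ℕ} {s : ℝ} {m : HE n → HE n} {d : HE n}

theorem split (h0 : 0 ≤ s) (h1 : s < 1) (hm : IsM m) (hd : ∀ i, (m (rho i d)).1 ≠ d.1)
    (c : Fin n → Star) : logW s m c - log (hw s (nbr m c d) (see c d))
      = ∑ v ∈ univ.erase d.1, log (tau (c v)) + 1 / 2 * ∑ e : HE n,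
        if e.1 ≠ d.1 ∧ (m e).1 ≠ d.1 then log (psi s (st c e) (st c (m e))) else 0 := by
  set g : HE n → ℝ := fun e => log (psi s (st c e) (st c (m e))) with hg
  have inv : Function.Involutive m := fun e => (hm e).1
  have gm : ∀ e, g (m e) = g e := fun e => by simp only [hg, inv e, psi_comm s (st c (m e))]
  have a1 : ∑ e : HE n, (if e.1 = d.1 then g e else 0) = ∑ i, g (rho i d) := by
    rw [Fintype.sum_prod_type, sum_eq_single d.1 (fun v _ hv => by simp [hv]) (by simp)]
    simp only [if_true]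
    exact (Equiv.sum_comp (Equiv.addLeft d.2) fun j => g (d.1, j)).symm
  have a2 : ∑ e : HE n, (if (m e).1 = d.1 then g e else 0) = ∑ i, g (rho i d) := by
    rw [← a1, ← Equiv.sum_comp inv.toPerm]
    refine sum_congr rfl fun e _ => ?_
    simp only [Function.Involutive.coe_toPerm, inv e, gm]
  have a3 : ∑ e, g e = ∑ i, g (rho i d) + ∑ i, g (rho i d) + ∑ e : HE n,
      if e.1 ≠ d.1 ∧ (m e).1 ≠ d.1 then g e else 0 := by
    nth_rewrite 1 [← a1]
    rw [← a2, ← sum_add_distrib, ← sum_add_distrib]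
    refine sum_congr rfl fun e _ => ?_
    by_cases e1 : e.1 = d.1
    · obtain ⟨i, rfl⟩ := exists_rho e1
      simp [hd i]
    · by_cases e2 : (m e).1 = d.1 <;> simp [e1, e2]
  have a4 : log (hw s (nbr m c d) (see c d)) = log (tau (c d.1)) + ∑ i, g (rho i d) := by
    rw [hw, log_mul (tau_pos _).ne' (prod_ne_zero_iff.2 fun i _ => (psi_pos h0 h1 _ _).ne'),
      log_prod fun i _ => (psi_pos h0 h1 _ _).ne', see, tau_rot]
    rfl
  have a5 := add_sum_erase univ (fun v => log (tau (c v))) (mem_univ d.1)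
  rw [a4, logW, ← a5]
  change _ + 1 / 2 * ∑ e, g e - _ = _
  rw [a3]
  ring

theorem put_ne (c : Fin n → Star) (y : Star) {v : Fin n} (h : v ≠ d.1) : put c d y v = c v :=
  Function.update_of_ne h _ _

theorem st_put (c : Fin n → Star) (y : Star) {e : HE n} (h : e.1 ≠ d.1) :
    st (put c d y) e = st c e := by rw [st, put_ne c y h, st]

theorem see_put (c : Fin n → Star) (y : Star) : see (put c d y) d = y := by
  rw [see, put, Function.update_self, rot_rot, neg_add_cancel, rot_zero]

theorem nbr_put (hd : ∀ i, (m (rho i d)).1 ≠ d.1) (c : Fin n → Star) (y : Star) :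
    nbr m (put c d y) d = nbr m c d := funext fun i => st_put c y (hd i)

end AKER

open AKER in
theorem st_KER (hK : St_KNAT) (hE : St_ENT) : St_KER := by
  intro s n m d p q h0 h1 hm hd hp hq
  have hk := fun b => hK.1 s b h0 h1
  refine bath hE (fun c y => put c d y) (fun c => see c d)
    (fun c y z => by simp only [put, Function.update_idem])
    (fun c => by
      rw [put, see, rot_rot, add_neg_cancel, rot_zero, Function.update_eq_self])
    see_put (fun c => gam s (nbr m c d)) (fun c y => by rw [nbr_put hd])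
    (fun c y => (hk _).2.2 y) (fun c => (hk _).1.2) (logW s m) (fun c y => ?_) p q hp hq
  have hZ : ∑ z, hw s (nbr m c d) z ≠ 0 :=
    (sum_pos (fun z _ => (hk _).2.1 z) univ_nonempty).ne'
  have a := split h0 h1 hm hd (put c d y)
  have b := split h0 h1 hm hd c
  rw [nbr_put hd, see_put, sum_congr rfl fun v hv => by rw [put_ne c y (ne_of_mem_erase hv)],
    sum_congr rfl (g := fun e : HE n => if e.1 ≠ d.1 ∧ (m e).1 ≠ d.1 then
      log (psi s (st c e) (st c (m e))) else 0) fun e _ =>
        if_ctx_congr Iff.rfl (fun h => by rw [st_put c y h.1, st_put c y h.2]) fun _ => rfl] at a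
  rw [gam, gam, log_div ((hk _).2.1 _).ne' hZ, log_div ((hk _).2.1 _).ne' hZ]
  linarith

end Pool.Agent.Lib.PT5
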