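import Pool.Agent.Lib.PT5.ADefs2

/-! The heat bath is positive, local and natural. -/

namespace Pool.Agent.Lib.PT5

open Finset Real RC5

namespace AKNAT

theorem hw_pos {s : ℝ} (h0 : 0 ≤ s) (h1 : s < 1) (b : Fin 3 → T1) (y : Star) : 0 < hw s b y := by
  refine mul_pos ?_ (prod_pos fun i _ => ?_)
  · unfold tau; split_ifs <;> norm_num
  · unfold psi; split_ifs <;> linarith

theorem dep {V : Type} [DecidableEq V] (s : ℝ) (m : V × Fin 3 → V × Fin 3) (d : V × Fin 3)
    (f : (V → Star) → ℝ) (U : Finset V) (hf : Dep f U) (hU : ∀ i, (m (rho i d)).1 ∈ U) :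
    Dep (Kd s m d f) U := fun c c' h => by
  have e : nbr m c d = nbr m c' d := funext fun i => by rw [nbr, nbr, st, st, h _ (hU i)]
  refine sum_congr rfl fun y _ => ?_
  rw [e, hf (put c d y) (put c' d y) fun v hv => ?_]
  by_cases k : v = d.1
  · simp [put, k]
  · simp [put, k, h v hv]

end AKNAT

theorem st_KNAT : St_KNAT := by
  refine ⟨fun s b h0 h1 => ?_, fun V _ => AKNAT.dep, fun V _ s m d f ⟨B, hB⟩ => ?_,
    fun V _ s m d f R hm hi hf c => ?_⟩
  · have h := AKNAT.hw_pos h0 h1 b
    have k : 0 < ∑ z, hw s b z := sum_pos (fun z _ => h z) ⟨(0, fun _ => false), mem_univ _⟩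
    refine ⟨⟨fun y => (div_pos (h y) k).le, ?_⟩, h, fun y => div_pos (h y) k⟩
    simp only [gam]
    rw [← sum_div, div_self k.ne']
  · exact ⟨B ∪ univ.image fun i => (m (rho i d)).1, AKNAT.dep s m d f _ (hB.mono subset_union_left)
      fun i => mem_union_right _ (mem_image_of_mem _ (mem_univ i))⟩
  · have e : nbr tm (pull m d c) d0 = nbr m c d := funext fun i => by
      rw [nbr, nbr, st_pull, cov_tm hm, cov_rho, cov_d0]
    refine sum_congr rfl fun y _ => ?_
    rw [e, hf (put (pull m d c) d0 y) (pull m d (put c d y)) fun u hu => ?_]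
    by_cases k : u = d0.1
    · have k' : cov m d (d0.1, 0) = d := cov_d0 d
      rw [k, pull, k', put, put, see, Function.update_self, Function.update_self, rot_rot]
      simp [d0]
    · have k' : (cov m d (u, 0)).1 ≠ d.1 := fun h => by
        obtain ⟨i, hi'⟩ := exists_rho h
        have h2 : ((u, 0) : TD) = rho i d0 := hi d (mem_coe.2 (mem_Ball.2 (mem_VB.1 hu)))
          (mem_coe.2 ((rho_mem i).2 (d0_mem R))) (by rw [cov_rho, cov_d0, hi'])
        exact k (congrArg Prod.fst h2)
      rw [put, Function.update_of_ne k, pull, pull, see, see, put, Function.update_of_ne k']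

end Pool.Agent.Lib.PT5
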