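import Pool.Agent.Lib.PT5.ADefs2

/-! Patterns and configurations. -/

namespace Pool.Agent.Lib.PT5

open Finset Real RC5

namespace APAT

/-- the pattern of a function on words that are read from the top -/
def hq : ∀ k, (List Bool → Star) → Pt k
  | 0, _ => ()
  | k + 1, y => (y [], hq k fun w => y (false :: w), hq k fun w => y (true :: w))

theorem pat_eq (y : TV → Star) (b : Bool) : ∀ (k : ℕ) (l : List Bool),
    pat tm y k (tm ((b, l), 0)) = hq k fun w => y (b, w.reverse ++ l)
  | 0, _ => rfl
  | k + 1, l => by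
    have h : ∀ c, ch tm (tm ((b, l), 0)) c = tm ((b, c :: l), 0) := fun c => by
      rw [ch, tm_invo]
      cases c <;> rfl
    rw [pat, hq, tm_invo, see_zero, h, h, pat_eq y b k, pat_eq y b k]
    simp

theorem patE_eq (y : TV → Star) (k : ℕ) : patE tm y k d0 =
    (hq (k + 1) fun w => y (false, w.reverse), hq (k + 1) fun w => y (true, w.reverse)) := by
  have h1 := pat_eq y false (k + 1) []
  have h2 := pat_eq y true (k + 1) []
  simp only [List.append_nil] at h1 h2
  rw [← h1, ← h2]
  rfl

theorem hq_iff : ∀ (k : ℕ) (y y' : List Bool → Star),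
    hq k y = hq k y' ↔ ∀ w, w.length < k → y w = y' w
  | 0, _, _ => ⟨fun _ _ h => absurd h (Nat.not_lt_zero _), fun _ => rfl⟩
  | k + 1, y, y' => by
    refine Prod.ext_iff.trans ((and_congr_right' Prod.ext_iff).trans ?_)
    refine (and_congr_right' (and_congr (hq_iff k _ _) (hq_iff k _ _))).trans
      ⟨fun h w hw => ?_, fun h => ⟨h _ (by simp), fun w hw => h _ (by simpa using hw),
        fun w hw => h _ (by simpa using hw)⟩⟩
    rcases w with _ | ⟨_ | _, w⟩
    exacts [h.1, h.2.1 w (by simpa using hw), h.2.2 w (by simpa using hw)]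

theorem hq_onto : ∀ (k : ℕ) (p : Pt k), ∃ y, hq k y = p
  | 0, _ => ⟨fun _ => (0, fun _ => false), rfl⟩
  | k + 1, p => by
    obtain ⟨y₁, h1⟩ := hq_onto k p.2.1
    obtain ⟨y₂, h2⟩ := hq_onto k p.2.2
    exact ⟨fun w => match w with
      | [] => p.1
      | false :: w => y₁ w
      | true :: w => y₂ w, Prod.ext rfl (Prod.ext h1 h2)⟩

theorem hq_bd : ∀ (k : ℕ) (y y' : List Bool → Star), bd k (hq (k + 1) y) = bd k (hq (k + 1) y') →
    ∀ w, w.length = k → y w = y' w
  | 0, _, _, h, w, hw => by
    rw [List.length_eq_zero_iff.1 hw]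
    exact h
  | k + 1, y, y', h, w, hw => by
    have h1 := hq_bd k (fun w => y (false :: w)) (fun w => y' (false :: w)) (congrArg Prod.fst h)
    have h2 := hq_bd k (fun w => y (true :: w)) (fun w => y' (true :: w)) (congrArg Prod.snd h)
    rcases w with _ | ⟨_ | _, w⟩
    exacts [absurd hw (by simp), h1 w (by simpa using hw), h2 w (by simpa using hw)]

end APAT

open APAT in
theorem st_PAT : St_PAT := by
  refine fun k => ⟨fun c y => ?_, fun p => ?_, fun c y h1 h2 v hv => ?_⟩
  · rw [patE_eq, patE_eq, Prod.ext_iff, hq_iff, hq_iff]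
    refine ⟨fun h v hv => ?_, fun h => ⟨fun w hw => h _ ?_, fun w hw => h _ ?_⟩⟩
    · obtain ⟨b, l⟩ := v
      have h1 : l.reverse.length < k + 1 := by simpa [Nat.lt_succ_iff] using mem_VB.1 hv
      cases b
      · simpa using h.1 _ h1
      · simpa using h.2 _ h1
    · simpa [mem_VB, Nat.lt_succ_iff] using hw
    · simpa [mem_VB, Nat.lt_succ_iff] using hw
  · obtain ⟨y₁, h1⟩ := hq_onto _ p.1
    obtain ⟨y₂, h2⟩ := hq_onto _ p.2
    refine ⟨fun v => if v.1 then y₂ v.2.reverse else y₁ v.2.reverse, ?_⟩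
    rw [patE_eq]
    exact Prod.ext (by simpa using h1) (by simpa using h2)
  · rw [patE_eq, patE_eq] at h1 h2
    obtain ⟨b, l⟩ := v
    have h3 : l.reverse.length = k := by simpa using hv
    cases b
    · simpa using hq_bd k (fun w => c (false, w.reverse)) (fun w => y (false, w.reverse)) h1 _ h3
    · simpa using hq_bd k (fun w => c (true, w.reverse)) (fun w => y (true, w.reverse)) h2 _ h3

end Pool.Agent.Lib.PT5
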