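import Pool.Agent.Lib.PT5.ADefs2

/-! Row PATW: the weights of patterns. -/

namespace Pool.Agent.Lib.PT5

open Finset Real RC5

namespace APATW

variable {s : ℝ}

theorem sum_psi (s : ℝ) (b : T1) : ∑ t, psi s t b = 10 := by
  have h0 : ∀ b t : T1, b = io1 t ↔ io1 b = t := by decide
  simp only [psi, h0, sum_add_distrib, sum_ite_eq, mem_univ, if_true, sum_const, card_univ,
    nsmul_eq_mul]
  rw [show Fintype.card T1 = 10 by decide]
  push_cast
  ring

theorem psi_pos (h0 : 0 ≤ s) (h1 : s < 1) (a b : T1) : 0 < psi s a b := by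
  unfold psi
  split_ifs <;> linarith

theorem tau_pos (x : Star) : 0 < tau x := by
  unfold tau
  split_ifs <;> norm_num

theorem lk_pos (h0 : 0 ≤ s) (h1 : s < 1) (a : T1) : ∀ k (q : Pt k), 0 < lk s a k q
  | 0, _ => zero_lt_one
  | _ + 1, _ => psi_pos h0 h1 _ _

theorem wt_pos (h0 : 0 ≤ s) (h1 : s < 1) : ∀ k (p : Pt k), 0 < wt s k p
  | 0, _ => zero_lt_one
  | k + 1, _ => mul_pos (mul_pos (tau_pos _) (mul_pos (lk_pos h0 h1 _ _ _) (wt_pos h0 h1 k _)))
      (mul_pos (lk_pos h0 h1 _ _ _) (wt_pos h0 h1 k _))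

theorem one (hSP : St_SP) (h0 : 0 ≤ s) (h1 : s ≤ 1) (k : ℕ) (t : T1) :
    ∑ p : Pt (k + 1), wt s (k + 1) p * psi s t (top p) = 1 := by
  have h := (hSP s k).1 t fun _ => 1
  have h2 := congrFun ((hSP s k).2.2 h0 h1).1.2 t
  simp only [mul_one] at h
  rw [Finset.sum_apply] at h2
  exact h.trans h2

theorem sum_wt (hSP : St_SP) (h0 : 0 ≤ s) (h1 : s ≤ 1) (k : ℕ) :
    ∑ p : Pt (k + 1), wt s (k + 1) p = 1 := by
  have h : ∑ t : T1, ∑ p : Pt (k + 1), wt s (k + 1) p * psi s t (top p) = ∑ _t : T1, (1 : ℝ) :=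
    sum_congr rfl fun t _ => one hSP h0 h1 k t
  rw [sum_comm] at h
  simp only [← mul_sum, sum_psi, ← sum_mul, sum_const, card_univ, nsmul_eq_mul] at h
  rw [show Fintype.card T1 = 10 by decide] at h
  push_cast at h
  linarith

theorem top_pat (c : TV → Star) (k : ℕ) (d : TD) : top (pat tm c (k + 1) d) = st c (tm d) :=
  (st_eq c (tm d)).symm

theorem loc_v (e : TD) : Loc fun c : TV → Star => log (tau (see c e)) :=
  (loc_see e).map fun x => log (tau x)

theorem loc_e (s : ℝ) (e : TD) : Loc fun c : TV → Star => log (psi s (st c e) (st c (tm e))) :=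
  (loc_st e).map₂ (loc_st (tm e)) fun a b => log (psi s a b)

theorem nu_v (P : Proc) (e : TD) : nu P (fun c => log (tau (see c e))) = lV P := by
  rw [lV, ← nu_pull P (loc_v d0) e]
  simp only [see_pull, cov_d0]

theorem nu_e (P : Proc) (s : ℝ) (e : TD) :
    nu P (fun c => log (psi s (st c e) (st c (tm e)))) = lE P s := by
  rw [lE, ← nu_pull P (loc_e s d0) e]
  simp only [st_pull, cov_tm tm_invo, cov_d0]

/-- logarithm of the weight behind a dart -/
noncomputable def W (s : ℝ) (k : ℕ) (t : TD) (c : TV → Star) : ℝ :=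
  log (lk s (st c t) k (pat tm c k t) * wt s k (pat tm c k t))

theorem loc_W (s : ℝ) (k : ℕ) (t : TD) : Loc (W s k t) :=
  (loc_st t).map₂ (loc_pat tm k t) fun a p => log (lk s a k p * wt s k p)

theorem loc_U (s : ℝ) (k : ℕ) (t : TD) : Loc fun c : TV → Star => log (wt s k (pat tm c k t)) :=
  (loc_pat tm k t).map fun p => log (wt s k p)

theorem nu_U (h0 : 0 ≤ s) (h1 : s < 1) (P : Proc) (k : ℕ) (t : TD) :
    nu P (fun c => log (wt s (k + 1) (pat tm c (k + 1) t)))
      = lV P + nu P (W s k (ch tm t false)) + nu P (W s k (ch tm t true)) := by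
  rw [← nu_v P (tm t), ← nu_add P (loc_v _) (loc_W s k _),
    ← nu_add P ((loc_v _).map₂ (loc_W s k _) (· + ·)) (loc_W s k _)]
  refine congrArg _ (funext fun c => ?_)
  have a1 := (tau_pos (see c (tm t))).ne'
  have a2 := fun e => (mul_pos (lk_pos h0 h1 (st c e) k (pat tm c k e))
    (wt_pos h0 h1 k (pat tm c k e))).ne'
  rw [W, W, ← log_mul a1 (a2 _), ← log_mul (mul_ne_zero a1 (a2 _)) (a2 _)]
  rfl

theorem nu_W (h0 : 0 ≤ s) (h1 : s < 1) (P : Proc) : ∀ (k : ℕ) (t : TD),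
    nu P (W s k t) = (2 ^ k - 1) * (lV P + lE P s)
  | 0, t => by
    have : W s 0 t = fun _ => 0 := funext fun c => by simp [W, lk, wt]
    rw [this, nu_const]
    simp
  | k + 1, t => by
    have : W s (k + 1) t = fun c => log (psi s (st c t) (st c (tm t)))
        + log (wt s (k + 1) (pat tm c (k + 1) t)) := funext fun c => by
      rw [W, lk, top_pat, log_mul (psi_pos h0 h1 _ _).ne' (wt_pos h0 h1 _ _).ne']
    rw [this, nu_add P (loc_e s t) (loc_U s _ t), nu_e, nu_U h0 h1, nu_W h0 h1 P k,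
      nu_W h0 h1 P k]
    ring

end APATW

open APATW in
theorem st_PATW (hSP : St_SP) : St_PATW := by
  intro s k h0 h1
  have hp : ∀ p, 0 < muE s k p := fun p =>
    mul_pos (psi_pos h0 h1 _ _) (mul_pos (wt_pos h0 h1 _ _) (wt_pos h0 h1 _ _))
  refine ⟨⟨fun p => (hp p).le, ?_⟩, hp, fun P => ?_⟩
  · rw [Fintype.sum_prod_type, ← sum_wt hSP h0 h1.le k]
    refine sum_congr rfl fun p _ => ?_
    rw [← mul_one (wt s (k + 1) p), ← one hSP h0 h1.le k (top p), mul_sum]
    exact sum_congr rfl fun q _ => by rw [muE]; ring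
  · have : (fun c => log (muE s k (patE tm c k d0))) = fun c =>
        log (psi s (st c d0) (st c (tm d0))) + (log (wt s (k + 1) (pat tm c (k + 1) (tm d0)))
          + log (wt s (k + 1) (pat tm c (k + 1) d0))) := funext fun c => by
      rw [muE, patE, top_pat, top_pat, tm_invo d0, log_mul (psi_pos h0 h1 _ _).ne'
        (mul_pos (wt_pos h0 h1 _ _) (wt_pos h0 h1 _ _)).ne',
        log_mul (wt_pos h0 h1 _ _).ne' (wt_pos h0 h1 _ _).ne']
    rw [this, nu_add P (loc_e s d0) ((loc_U s _ _).map₂ (loc_U s _ _) (· + ·)),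
      nu_add P (loc_U s _ _) (loc_U s _ _), nu_e, nu_U h0 h1, nu_U h0 h1]
    simp only [nu_W h0 h1]
    ring

end Pool.Agent.Lib.PT5
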