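import Pool.Agent.Lib.PT5.ADefs2

/-! The process after one round of updates. -/

namespace Pool.Agent.Lib.PT5

open Finset RC5 Function

namespace APROC

open Classical in
/-- the star of a marked port, turned back, or the old star -/
noncomputable def pick (p : Fin 3 → Prop) (y : Fin 3 → Star) (w : Star) : Star :=
  if h : ∃ j, p j then rot (-h.choose) (y h.choose) else w

theorem pick_gs (g : D5) (p : Fin 3 → Prop) (y : Fin 3 → Star) (w : Star) :
    pick p (fun j => gs g (y j)) (gs g w) = gs g (pick p y w) := by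
  unfold pick
  split_ifs
  · rw [gs_rot]
  · rfl

section
variable {V L : Type} (ev : L → (Fin 3 → T1) → Star) (m : V × Fin 3 → V × Fin 3)
  (C : V × Fin 3 → Prop) (c : V → Star) (z : V × Fin 3 → L)

/-- the new star seen from a dart -/
noncomputable def sv (d : V × Fin 3) : Star :=
  pick (fun j => C (rho j d)) (fun j => ev (z (rho j d)) (nbr m c (rho j d))) (see c d)

/-- the new configuration -/
noncomputable def up : V → Star := fun v => sv ev m C c z (v, 0)

variable {C}

theorem sv_pos (hC : ∀ d i, C d → C (rho i d) → i = 0) {d : V × Fin 3} {j : Fin 3}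
    (h : C (rho j d)) : sv ev m C c z d = rot (-j) (ev (z (rho j d)) (nbr m c (rho j d))) := by
  have h1 : ∃ j, C (rho j d) := ⟨j, h⟩
  have h2 : h1.choose - j = 0 := hC _ _ h (by
    rw [rho_rho, add_sub_cancel]; exact h1.choose_spec)
  rw [sv, pick, dif_pos h1, sub_eq_zero.1 h2]

theorem sv_neg {d : V × Fin 3} (h : ∀ j, ¬ C (rho j d)) : sv ev m C c z d = see c d := by
  rw [sv, pick, dif_neg (not_exists.2 h)]

theorem sv_rho (hC : ∀ d i, C d → C (rho i d) → i = 0) (i : Fin 3) (d : V × Fin 3) :
    sv ev m C c z (rho i d) = rot i (sv ev m C c z d) := by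
  by_cases h : ∃ j, C (rho j d)
  · obtain ⟨j, hj⟩ := h
    have e : rho (j - i) (rho i d) = rho j d := by rw [rho_rho, add_sub_cancel]
    rw [sv_pos ev m c z hC hj, sv_pos ev m c z hC (j := j - i) (by rwa [e]), e, rot_rot]
    congr 1
    abel
  · push Not at h
    rw [sv_neg ev m c z h, sv_neg ev m c z fun j => by rw [rho_rho]; exact h _, see_rho]

theorem isUpd (hC : ∀ d i, C d → C (rho i d) → i = 0) : IsUpd ev m C c z (up ev m C c z) := by
  refine ⟨fun d hd => ?_, fun v hv => ?_⟩
  · obtain ⟨v, i⟩ := d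
    have e : see (up ev m C c z) (v, i) = sv ev m C c z (v, i) := by
      rw [← rho_mk v i, sv_rho ev m c z hC, rho_mk]; rfl
    rw [e, sv_pos ev m c z hC (j := 0) (by rwa [rho_zero]), neg_zero, rot_zero, rho_zero]
  · rw [up, sv_neg ev m c z fun j => by rw [rho_mk]; exact hv j, see_zero]

end

theorem cen_uq {V : Type} (m : V × Fin 3 → V × Fin 3) (R : ℕ) (φ : V × Fin 3 → Bool)
    (d : V × Fin 3) (i : Fin 3) (h : at_ m (Cen R) d φ) (h' : at_ m (Cen R) (rho i d) φ) :
    i = 0 := by
  by_contra hi
  have h1 := h.2 (rho i d0) ((rho_mem i).2 (d0_mem R)) fun e => hi (by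
    simpa [rho, d0] using congrArg Prod.snd e)
  have h2 := h'.1
  rw [comp_apply, cov_rho, cov_d0] at h1
  rw [comp_apply, cov_d0, h1] at h2
  exact Bool.false_ne_true h2

theorem loc_cen (R : ℕ) : Loc (Cen R) := ⟨Ball R, fun x y a => by
  rw [Cen, Cen, a _ (d0_mem R)]
  exact propext (and_congr_right fun _ => forall₂_congr fun t ht => by rw [a t ht])⟩

section
variable (P : Proc) (F : LS) (ev : F.L → (Fin 3 → T1) → Star) (R : ℕ)

/-- the new star as a function of all labels -/
noncomputable def nw {V : Type} (m : V × Fin 3 → V × Fin 3) (d : V × Fin 3)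
    (x : V × Fin 3 → Bool × P.A.L × F.L) : Star :=
  sv ev m (fun e => at_ m (Cen R) e fun t => (x t).1) (cfg P m fun t => (x t).2.1)
    (fun t => (x t).2.2) d

theorem key {V : Type} {m : V × Fin 3 → V × Fin 3} (hm : Invo m) (d : V × Fin 3)
    (x : V × Fin 3 → Bool × P.A.L × F.L) :
    at_ m (nw P F ev R tm d0) d x = nw P F ev R m d x := by
  have e : (cfg P tm fun t => ((x ∘ cov m d) t).2.1) = pull m d (cfg P m fun t => (x t).2.1) :=
    (pull_cfg hm P (fun t => (x t).2.1) d).symm
  rw [at_, nw, nw, sv, sv, e, see_pull, cov_d0]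
  congr 1
  · funext j
    have := congrFun (at_at hm (Cen R) (rho j d0) d) fun t => (x t).1
    rw [cov_rho, cov_d0] at this
    exact this
  · funext j
    congr 1
    · rw [comp_apply, cov_rho, cov_d0]
    · funext i
      rw [nbr, nbr, st_pull, cov_tm hm, cov_rho, cov_rho, cov_d0]

theorem loc_nw : Loc (nw P F ev R tm d0) := by
  have l1 : Loc fun (x : TD → Bool × P.A.L × F.L) (j : Fin 3) =>
      at_ tm (Cen R) (rho j d0) fun t => (x t).1 :=
    Loc.pi fun j => ((loc_cen R).at_ tm (rho j d0)).label Prod.fst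
  have lc : ∀ {β : Type} {f : (TV → Star) → β}, Loc f →
      Loc fun x : TD → Bool × P.A.L × F.L => f (cfg P tm fun t => (x t).2.1) := fun h =>
    (h.cfg P tm).label fun a : Bool × P.A.L × F.L => a.2.1
  have l2 : Loc fun (x : TD → Bool × P.A.L × F.L) (j : Fin 3) =>
      ev (x (rho j d0)).2.2 (nbr tm (cfg P tm fun t => (x t).2.1) (rho j d0)) :=
    Loc.pi fun j => (Loc.eval (rho j d0)).map₂
      (lc (f := fun c => nbr tm c (rho j d0)) (Loc.pi fun i => loc_st _)) fun a b => ev a.2.2 b
  exact l1.map₂ (l2.map₂ (lc (loc_see d0)) Prod.mk) fun p q => pick p q.1 q.2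

end

end APROC

open APROC in
theorem st_PROC : St_PROC := by
  intro s P F ev R hF
  let P' : Proc :=
    { A := fair.prod (P.A.prod F)
      X := nw P F ev R tm d0
      loc := loc_nw P F ev R
      cmp := fun i x => by
        rw [key P F ev R tm_invo]
        exact sv_rho ev tm _ _ (cen_uq tm R _) i d0
      sym := fun g => by
        obtain ⟨e1, k1, h1⟩ := P.sym g
        obtain ⟨e2, k2, h2⟩ := hF.sym g
        refine ⟨(Equiv.refl Bool).prodCongr (e1.prodCongr e2), fun a => ?_, fun x => ?_⟩
        · change fair.w a.1 * (P.A.w (e1 a.2.1) * F.w (e2 a.2.2)) =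
            fair.w a.1 * (P.A.w a.2.1 * F.w a.2.2)
          rw [k1, k2]
        · have e : (cfg P tm fun t => e1 (x t).2.1) = gs g ∘ cfg P tm fun t => (x t).2.1 :=
            funext fun v => h1 ((fun t => (x t).2.1) ∘ cov tm (v, 0))
          change sv ev tm (fun e => at_ tm (Cen R) e fun t => (x t).1)
            (cfg P tm fun t => e1 (x t).2.1) (fun t => e2 (x t).2.2) d0 = _
          rw [e, nw, sv, sv, ← pick_gs, see_gs]
          congr 1
          funext j
          exact h2 (x (rho j d0)).2.2 (nbr tm (cfg P tm fun t => (x t).2.1) (rho j d0)) }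
  refine ⟨P', fun n m hm => ⟨fun φ c z => up ev m (fun d => at_ m (Cen R) d φ) c z,
    fun φ c z => isUpd ev m c z (cen_uq m R φ), fun h => ?_⟩⟩
  have lw : ∀ (Q : Proc) (G : (Fin n → Star) → ℝ),
      ex (law Q m) G = mn Q.A fun x => G (cfg Q m x) := fun Q G =>
    (mn_law (Loc.of_fintype (cfg Q m)) G).symm
  have e : ∀ x, cfg P' m x = up ev m (fun d => at_ m (Cen R) d fun t => (x t).1)
      (cfg P m fun t => (x t).2.1) fun t => (x t).2.2 :=
    fun x => funext fun v => key P F ev R (invo_of_isM hm) (v, 0) x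
  rw [lw]
  simp only [e, lw]
  refine (mn_prod (A := fair) (A' := P.A.prod F) (Loc.of_fintype _)).trans ?_
  exact congrArg _ (funext fun φ => mn_prod (A := P.A) (A' := F) (Loc.of_fintype _))

end Pool.Agent.Lib.PT5
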