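import Pool.Agent.Lib.PT5.ADefs2

/-! One step of the normalised messages, pointwise. -/

namespace Pool.Agent.Lib.PT5

open Finset RC5

namespace APTW

theorem sq2_nn (a : Vec) : 0 ≤ sq2 a := sum_nonneg fun _ _ => sq_nonneg _

theorem lin {N : Vec → ℝ} {κ C s : ℝ} (h : Nrm N κ C) (h0 : 0 ≤ s) (h1 : s ≤ 1) {x : Vec}
    (hx : ∑ t, x t = 0) : N (s • L1 x) ≤ κ * N x := by
  rw [h.smul, abs_of_nonneg h0]
  exact (mul_le_of_le_one_left (h.nn _) h1).trans (h.con x hx)

end APTW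

open APTW in
theorem st_PTW (hS : St_STEP) : St_PTW := by
  intro s1 N κ C hs1 h
  obtain ⟨-, -, -, -, -, -, -, -, h9, h10⟩ := hS
  obtain ⟨C0, c0, hC⟩ := h10 s1 hs1
  have c1 : 0 ≤ C := zero_le_one.trans h.c1
  set D := √(C * C0) with hD
  have d0 : 0 ≤ D := Real.sqrt_nonneg _
  have d2 : D ^ 2 = C * C0 := Real.sq_sqrt (mul_nonneg c1 c0)
  have cc : 0 ≤ C * C0 := mul_nonneg c1 c0
  refine ⟨8100 * C0 + 3 * C + 270 * (C * C0) + D, by positivity, fun s a b h0 h1 ha hb => ?_⟩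
  have s1' : s ≤ 1 := h1.trans hs1.le
  obtain ⟨x9, x0⟩ := h9 s a h0 s1' ha
  obtain ⟨y9, y0⟩ := h9 s b h0 s1' hb
  obtain ⟨-, -, hR⟩ := hC s a b h0 h1 ha hb
  have hF : N (Fm s a b - 1) ≤ κ * (N (a - 1) + N (b - 1)) + N (Rm s a b) := by
    have e : Fm s a b - 1 = s • L1 (a - 1) + s • L1 (b - 1) + Rm s a b := by
      rw [Rm]; abel
    have := h.add (s • L1 (a - 1) + s • L1 (b - 1)) (Rm s a b)
    have := h.add (s • L1 (a - 1)) (s • L1 (b - 1))
    have := lin h h0 s1' x0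
    have := lin h h0 s1' y0
    rw [e]
    linarith
  obtain ⟨a1, a2⟩ := h.eqv (a - 1)
  obtain ⟨b1, b2⟩ := h.eqv (b - 1)
  have r2 := (h.eqv (Rm s a b)).2
  have f1 := (h.eqv (Fm s a b - 1)).1
  have xn := sq2_nn (a - 1)
  have yn := sq2_nn (b - 1)
  have an := h.nn (a - 1)
  have bn := h.nn (b - 1)
  have rn := h.nn (Rm s a b)
  have fn := h.nn (Fm s a b - 1)
  have k0 := h.k0
  have k1 : κ ≤ 1 := by nlinarith [h.k1]
  generalize sq2 (a - 1) = X at *
  generalize sq2 (b - 1) = Y at *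
  generalize N (a - 1) = A at *
  generalize N (b - 1) = B at *
  generalize N (Rm s a b) = r at *
  generalize sq2 (Rm s a b) = R at *
  generalize N (Fm s a b - 1) = F at *
  generalize sq2 (Fm s a b - 1) = G at *
  have r3 : r ^ 2 ≤ C * C0 * (X * Y) := by
    have := mul_le_mul_of_nonneg_left hR c1
    linarith
  have r4 : r ≤ D * (A * B) := by
    refine (pow_le_pow_iff_left₀ rn (by positivity) two_ne_zero).1 ?_
    rw [mul_pow, mul_pow, d2]
    exact r3.trans (mul_le_mul_of_nonneg_left (mul_le_mul a1 b1 yn (sq_nonneg _)) cc)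
  refine ⟨?_, ?_, fun δ hδ hn => ?_⟩
  · have : X * Y ≤ 90 * 90 := mul_le_mul x9 y9 yn (by norm_num)
    have := mul_le_mul_of_nonneg_left this c0
    linarith
  · have f2 : F ≤ A + B + r := by nlinarith
    have f3 : F ^ 2 ≤ (A + B + r) ^ 2 := pow_le_pow_left₀ fn f2 2
    have f4 : (A + B + r) ^ 2 ≤ 3 * (A ^ 2 + B ^ 2 + r ^ 2) := by
      nlinarith [sq_nonneg (A - B), sq_nonneg (A - r), sq_nonneg (B - r)]
    have f5 : X * Y ≤ 90 * (X + Y) := by nlinarith
    have f6 := mul_le_mul_of_nonneg_left f5 cc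
    have f7 : 0 ≤ (8100 * C0 + D) * (X + Y) := by positivity
    nlinarith
  · have e1 : A * B ≤ δ * (A + B) := by
      rcases not_and_or.1 hn with k | k <;> have k := not_lt.1 k <;> nlinarith
    have e2 : X * Y ≤ δ ^ 2 * (X + Y) := by
      rcases not_and_or.1 hn with k | k <;> have k := not_lt.1 k
      · have : X ≤ δ ^ 2 := a1.trans (pow_le_pow_left₀ an k 2)
        nlinarith [mul_nonneg (sq_nonneg δ) xn]
      · have : Y ≤ δ ^ 2 := b1.trans (pow_le_pow_left₀ bn k 2)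
        nlinarith [mul_nonneg (sq_nonneg δ) yn]
    constructor
    · have e3 := mul_le_mul_of_nonneg_left e1 d0
      have e4 : 0 ≤ (8100 * C0 + 3 * C + 270 * (C * C0)) * δ * (A + B) := by positivity
      nlinarith
    · have e3 := mul_le_mul_of_nonneg_left e2 c0
      have e4 : 0 ≤ (8099 * C0 + 3 * C + 270 * (C * C0) + D) * δ ^ 2 * (X + Y) := by positivity
      nlinarith

end Pool.Agent.Lib.PT5
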