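import Pool.Agent.Lib.PT5.ADefs2

/-! The mean square of the message of a process that is close to the tree measure. -/

namespace Pool.Agent.Lib.PT5

open Finset Real RC5

namespace AQCL

theorem psi_symm (s : ℝ) (a b : T1) : psi s a b = psi s b a := by
  have h : ∀ a b : T1, b = io1 a ↔ a = io1 b := by decide
  simp only [psi, h a b]

theorem marg (hSP : St_SP) {s : ℝ} (h0 : 0 ≤ s) (h1 : s ≤ 1) (k : ℕ) (φ : Pt (k + 1) → ℝ) :
    ∑ p, muE s k p * φ p.2 = ∑ q, wt s (k + 1) q * φ q := by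
  rw [Fintype.sum_prod_type_right]
  refine sum_congr rfl fun q _ => ?_
  have h2 := (hSP s k).1 (top q) fun _ => 1
  have h3 := congrFun ((hSP s k).2.2 h0 h1).1.2 (top q)
  rw [Finset.sum_apply, Pi.one_apply] at h3
  simp only [mul_one] at h2
  rw [h3] at h2
  rw [← one_mul (wt s (k + 1) q * φ q), ← h2, sum_mul]
  refine sum_congr rfl fun p _ => ?_
  rw [muE, psi_symm]
  ring

end AQCL

theorem st_QCL (hSP : St_SP) (hSTEP : St_STEP) (hFLD : St_FLD) : St_QCL := by
  intro s P k h0 h1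
  have h2 : qn P s k = ∑ p, nuE P k p * sq2 (am s k p.2 - 1) :=
    nu_law P (loc_patE tm k d0) fun p => sq2 (am s k p.2 - 1)
  rw [h2, qk, ← AQCL.marg hSP h0 h1.le k fun q => sq2 (am s k q - 1), mul_sum, ← sum_add_distrib]
  refine sum_le_sum fun p _ => ?_
  have h3 := (hSTEP.2.2.2.2.2.2.2.2.1 s _ h0 h1.le ((hFLD s h0 h1).1 k p.2)).1
  have h4 : 0 ≤ sq2 (am s k p.2 - 1) := sum_nonneg fun _ _ => sq_nonneg _
  nlinarith [le_abs_self (nuE P k p - muE s k p), abs_nonneg (nuE P k p - muE s k p)]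

end Pool.Agent.Lib.PT5
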