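import Pool.Agent.Lib.PT5.ADefs2

/-! Block R4: without branching the value is bounded by the sum over descendants. -/

namespace Pool.Agent.Lib.PT5

open Finset Real RC5

theorem st_R4 : St_R4 := by
  intro L z Br κ hκ h t k
  have e : ∀ {β : Type} (f : (TD → L) → β) (b : Bool) (w : List Bool) (x : TD → L),
      at_ tm f (des tm d0 w) (x ∘ cov tm (ch tm d0 b)) = at_ tm f (des tm d0 (b :: w)) x := by
    intro β f b w x
    have := congrFun (at_at tm_invo f (des tm d0 w) (ch tm d0 b)) x
    rw [cov_des tm_invo, cov_d0] at this
    exact this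
  induction k with
  | zero => intro x _; simp [words, des, at_d0]
  | succ k ih =>
    intro x hx
    have h0 := hx [] k (by simp) (by simp)
    rw [des, at_d0] at h0
    have h1 : ∀ b, at_ tm (z (t + k)) (ch tm d0 b) x ≤
        κ ^ k * ∑ l ∈ words k, at_ tm (z t) (des tm d0 (b :: l)) x := fun b => by
      have := ih (x ∘ cov tm (ch tm d0 b)) fun w j hw hj => by
        rw [e]
        exact hx (b :: w) j (by simpa using hw) (by omega)
      simp only [e] at this
      exact this
    rw [sum_words, pow_succ', mul_assoc, mul_add]
    exact (h (t + k) x h0).trans (mul_le_mul_of_nonneg_left (add_le_add (h1 false) (h1 true)) hκ)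

end Pool.Agent.Lib.PT5
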