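import Pool.Agent.Lib.PT5.ADefs2

/-! The density of a process in equilibrium depends almost only on the boundary. -/

namespace Pool.Agent.Lib.PT5

open Finset Real Function RC5

namespace ARATIO

theorem put_eq (c : TV → Star) (v : TV) (z : Star) : put c (v, 0) z = update c v z := by
  simp [put]

theorem tm_ne (t : TD) : (tm t).1 ≠ t.1 := by
  obtain ⟨⟨b, l⟩, i⟩ := t
  unfold tm
  split_ifs
  · cases l <;> simp
  · simp

theorem nbr_eq {k : ℕ} {v : TV} (hv : v.2.length < k) {c y : TV → Star}
    (h : ∀ u ∈ VB k, u ≠ v → c u = y u) : nbr tm c (v, 0) = nbr tm y (v, 0) := by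
  funext i
  have h1 : rho i (v, 0) ∈ Ball v.2.length := mem_Ball.2 le_rfl
  have h2 := mem_Ball.1 (tm_mem h1)
  simp only [nbr, st]
  rw [h _ (mem_VB.2 (by omega)) (tm_ne _)]

theorem kd_eq (hPAT : St_PAT) (s : ℝ) {k : ℕ} {v : TV} (hv : v.2.length < k) (y : TV → Star)
    (z : Star) (c : TV → Star) :
    Kd s tm (v, 0) (fun c => ind (patE tm c k d0 = patE tm (update y v z) k d0)) c
      = gam s (nbr tm y (v, 0)) z * ind (∀ u ∈ VB k, u ≠ v → c u = y u) := by
  have e : ∀ w, patE tm (update c v w) k d0 = patE tm (update y v z) k d0 ↔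
      z = w ∧ ∀ u ∈ VB k, u ≠ v → c u = y u := fun w => by
    rw [(hPAT k).1]
    refine ⟨fun h => ⟨?_, fun u hu hne => ?_⟩, fun h u hu => ?_⟩
    · simpa using (h v (mem_VB.2 hv.le)).symm
    · simpa [update_of_ne hne] using h u hu
    · by_cases hne : u = v
      · subst hne
        simp [h.1]
      · simp [update_of_ne hne, h.2 u hu hne]
  simp only [Kd, put_eq, ind_congr (e _), ind_and]
  by_cases h : ∀ u ∈ VB k, u ≠ v → c u = y u
  · rw [ind_pos h, nbr_eq hv h, mul_one, ← sum_ind_mul z (gam s (nbr tm y (v, 0)))]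
    exact sum_congr rfl fun w _ => by ring
  · simp only [ind_neg h, mul_zero, sum_const_zero]

theorem site (hPAT : St_PAT) {s : ℝ} {k : ℕ} {P : Proc} {δ : ℝ} (hE : Equi P s k δ) {v : TV}
    (hv : v.2.length < k) (y : TV → Star) (z : Star) :
    |nuE P k (patE tm (update y v z) k d0) - gam s (nbr tm y (v, 0)) z *
      nu P fun c => ind (∀ u ∈ VB k, u ≠ v → c u = y u)| ≤ δ := by
  have h := hE v (mem_VB.2 hv.le)
    (fun c => ind (patE tm c k d0 = patE tm (update y v z) k d0))
    (fun c c' h => by simp only [((hPAT k).1 c c').2 h])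
    fun c => abs_le.2 ⟨by linarith [ind_nonneg (patE tm c k d0 = patE tm (update y v z) k d0)],
      ind_le _⟩
  rwa [funext (kd_eq hPAT s hv y z), nu_mul] at h
  exact ⟨VB k, fun c c' h => ind_congr
    (forall₂_congr fun u hu => by rw [h u hu])⟩

end ARATIO

open ARATIO in
theorem st_RATIO (hPAT : St_PAT) (hWLOC : St_WLOC) (hPATW : St_PATW) (hKNAT : St_KNAT) :
    St_RATIO := by
  intro s k hs0 hs1
  obtain ⟨-, hpos, -⟩ := hPATW s k hs0 hs1
  obtain ⟨p0, -, hp0⟩ := exists_min_image univ (muE s k)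
    ⟨patE tm (fun _ => (0, fun _ => false)) k d0, mem_univ _⟩
  have hμ := hpos p0
  set T := (VB k).filter fun v => v.2.length < k with hT
  refine ⟨T.card * (2 / muE s k p0), by positivity, fun P δ hE => ?_⟩
  set ρ : (TV → Star) → ℝ := fun y => nuE P k (patE tm y k d0) / muE s k (patE tm y k d0) with hρ
  have hδ : 0 ≤ δ := (abs_nonneg _).trans (hE (false, []) (mem_VB.2 (Nat.zero_le k)) (fun _ => 0)
    (fun _ _ _ => rfl) fun _ => by simp)
  have one : ∀ (y : TV → Star) (v : TV) (z : Star), v.2.length < k →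
      |ρ y - ρ (update y v z)| ≤ 2 / muE s k p0 * δ := fun y v z hv => by
    have h1 := site hPAT hE hv y z
    have h2 := site hPAT hE hv y (y v)
    have h3 := hWLOC s k y v z hv
    rw [update_eq_self] at h2
    rw [put_eq] at h3
    have h4 := (hKNAT.1 s (nbr tm y (v, 0)) hs0 hs1).2.1
    have h5 : 0 < ∑ w, hw s (nbr tm y (v, 0)) w := sum_pos (fun w _ => h4 w) univ_nonempty
    have m1 := hpos (patE tm (update y v z) k d0)
    have m2 := hpos (patE tm y k d0)
    have l1 := hp0 (patE tm (update y v z) k d0) (mem_univ _)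
    have l2 := hp0 (patE tm y k d0) (mem_univ _)
    simp only [hρ]
    set J := nu P fun c => ind (∀ u ∈ VB k, u ≠ v → c u = y u)
    set a := muE s k (patE tm (update y v z) k d0)
    set b := muE s k (patE tm y k d0)
    set A := nuE P k (patE tm (update y v z) k d0)
    set B := nuE P k (patE tm y k d0)
    have e : gam s (nbr tm y (v, 0)) z / a = gam s (nbr tm y (v, 0)) (y v) / b := by
      rw [div_eq_div_iff m1.ne' m2.ne', gam, gam, div_mul_eq_mul_div, div_mul_eq_mul_div,
        mul_comm _ b, ← h3, mul_comm]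
    have e2 : B / b - A / a = (B - gam s (nbr tm y (v, 0)) (y v) * J) / b
        - (A - gam s (nbr tm y (v, 0)) z * J) / a := by
      rw [sub_div, sub_div, mul_div_right_comm, mul_div_right_comm, e]
      ring
    rw [e2]
    refine (abs_sub _ _).trans ?_
    rw [abs_div, abs_div, abs_of_pos m1, abs_of_pos m2]
    have b1 : |A - gam s (nbr tm y (v, 0)) z * J| / a ≤ δ / muE s k p0 := by gcongr
    have b2 : |B - gam s (nbr tm y (v, 0)) (y v) * J| / b ≤ δ / muE s k p0 := by gcongr
    calc _ ≤ δ / muE s k p0 + δ / muE s k p0 := add_le_add b2 b1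
      _ = _ := by ring
  have chain : ∀ S ⊆ T, ∀ y y' : TV → Star, (∀ u ∈ VB k, u ∉ S → y u = y' u) →
      |ρ y - ρ y'| ≤ S.card * (2 / muE s k p0 * δ) := fun S => by
    induction S using Finset.induction_on with
    | empty =>
      intro _ y y' h
      simp [hρ, ((hPAT k).1 y y').2 fun u hu => h u hu (notMem_empty u)]
    | insert a S ha ih =>
      intro hS y y' h
      have h1 := one y a (y' a) (mem_filter.1 (hS (mem_insert_self a S))).2
      have h2 := ih ((subset_insert a S).trans hS) (update y a (y' a)) y' fun u hu hn => by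
        by_cases e : u = a
        · subst e
          simp
        · rw [update_of_ne e]
          exact h u hu (by simp [e, hn])
      rw [card_insert_of_notMem ha]
      push_cast
      linarith [abs_sub_le (ρ y) (ρ (update y a (y' a))) (ρ y')]
  intro p p' h1 h2
  obtain ⟨y, rfl⟩ := (hPAT k).2.1 p
  obtain ⟨y', rfl⟩ := (hPAT k).2.1 p'
  rw [mul_assoc]
  refine chain T subset_rfl y y' fun u hu hn => (hPAT k).2.2 y y' h1 h2 u ?_
  have h3 := mem_VB.1 hu
  have h4 : ¬ u.2.length < k := fun h => hn (mem_filter.2 ⟨hu, h⟩)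
  omega

end Pool.Agent.Lib.PT5
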