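import Pool.Agent.Lib.PT5.ADefs2

/-! Small fields of messages die out. -/

namespace Pool.Agent.Lib.PT5

open Finset Real RC5

namespace ARNR

/-- a sequence that halves after every calm window dies out -/
theorem seq {f : ℕ → ℝ} {G q : ℝ} {T : ℕ} (hG : 1 ≤ G) (hq : 0 < q) (hg : ∀ t, f (t + 1) ≤ G * f t)
    (hh : ∀ (t : ℕ) (Q : ℝ), 0 ≤ Q → Q ≤ q → (∀ j < T, f (t + j) ≤ Q) → f (t + T) ≤ Q / 2)
    (h0 : f 0 ≤ q / G ^ T) : ∀ i t, i * T ≤ t → f t ≤ q / 2 ^ i := by
  have g0 : 0 < G := by linarith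
  have h1 : ∀ t, f t ≤ G ^ t * (q / G ^ T) := fun t => by
    induction t with
    | zero => simpa using h0
    | succ t ih => rw [pow_succ', mul_assoc]; exact (hg t).trans (by gcongr)
  have h2 : ∀ t, f t ≤ q := fun t => by
    induction t using Nat.strong_induction_on with
    | _ t ih =>
      rcases lt_or_ge t T with h | h
      · refine (h1 t).trans ?_
        rw [← mul_div_assoc, div_le_iff₀ (by positivity), mul_comm]
        exact mul_le_mul_of_nonneg_left (pow_le_pow_right₀ hG h.le) hq.le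
      · obtain ⟨u, rfl⟩ := Nat.exists_eq_add_of_le' h
        exact (hh u q hq.le le_rfl fun j hj => ih _ (by omega)).trans (by linarith)
  intro i
  induction i with
  | zero => intro t _; simpa using h2 t
  | succ i ih =>
    intro t ht
    rw [add_mul, one_mul] at ht
    obtain ⟨u, rfl⟩ := Nat.exists_eq_add_of_le' (show T ≤ t by omega)
    rw [pow_succ, ← div_div]
    exact hh u _ (by positivity) (div_le_self hq.le (one_le_pow₀ one_le_two))
      fun j _ => ih _ (by omega)

theorem qq_nonneg (A : LS) (a : ℕ → (TD → A.L) → Vec) (t : ℕ) : 0 ≤ qq A a t :=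
  mn_nonneg fun _ => sum_nonneg fun _ _ => sq_nonneg _

end ARNR

open ARNR in
theorem st_RNR (hL : St_LIN) (hP : St_PTW) (hD : St_DUH) (hR : St_REM) : St_RNR := by
  intro s1 h1
  obtain ⟨N, κ, C, hN⟩ := nrm_of_lin hL
  obtain ⟨C1, c1, hP⟩ := hP s1 N κ C h1 hN
  obtain ⟨J, K, k0, hD⟩ := hD
  obtain ⟨W, q, q0, hR⟩ := hR s1 (1 / (4 * K + 4)) h1 (by positivity)
  refine ⟨q / (2 * C1 + 1) ^ (W + 1 + J), by positivity, fun ε hε => ?_⟩
  obtain ⟨i, hi⟩ := pow_unbounded_of_one_lt (q / ε) (one_lt_two (α := ℝ))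
  refine ⟨i * (W + 1 + J), fun s A a s0 hs ha h0 => ?_⟩
  refine (seq (f := qq A a) (by linarith) q0 (fun t => ?_) (fun t Q Q0 hQ h => ?_) h0 i _
    le_rfl).trans ?_
  · have l : Loc fun x => sq2 (a t x - 1) := (ha.loc t).map fun v => sq2 (v - 1)
    have l1 := l.at_ tm (ch tm d0 false)
    have l2 := l.at_ tm (ch tm d0 true)
    have e := mn_mono (A := A) ((ha.loc (t + 1)).map fun v => sq2 (v - 1))
      ((l1.map₂ l2 (· + ·)).map (C1 * ·)) fun x => by
        rw [ha.step]
        exact (hP s _ _ s0 hs (ha.ms t _) (ha.ms t _)).2.1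
    rw [mn_mul (l1.map₂ l2 (· + ·)), mn_add l1 l2, mn_at_tm l, mn_at_tm l] at e
    have p := qq_nonneg A a t
    exact le_trans e (by unfold qq at p ⊢; linarith)
  · rw [← add_assoc, ← add_assoc]
    rcases Nat.eq_zero_or_pos J with rfl | hJ
    · have := hD s A a s0 (by linarith) ha (t + W + 1) 0 fun j hj => absurd hj (Nat.not_lt_zero j)
      rw [add_zero] at this ⊢
      linarith
    · have e := hD s A a s0 (by linarith) ha (t + W + 1) (1 / (4 * K + 4) * Q) fun j hj => by
        rw [show t + W + 1 + j = t + 1 + j + W by ring]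
        refine hR s A a s0 hs ha _ Q hQ fun j' hj' => ?_
        rw [show t + 1 + j + j' = t + (1 + j + j') by ring]
        exact h _ (by omega)
      have e1 := h (W + 1) (by omega)
      rw [← add_assoc] at e1
      have e2 : K * (1 / (4 * K + 4)) ≤ 1 / 4 := by
        rw [mul_one_div, div_le_div_iff₀ (by positivity) (by norm_num)]
        linarith
      have e3 := mul_le_mul_of_nonneg_right e2 Q0
      rw [← mul_assoc] at e
      linarith
  · rw [div_lt_iff₀ hε] at hi
    rw [div_le_iff₀ (by positivity)]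
    linarith

end Pool.Agent.Lib.PT5
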