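import Pool.Agent.Lib.PT5.ADefs2

/-! A round of heat baths lowers the excess. -/

namespace Pool.Agent.Lib.PT5

open Finset Real RC5 Function

namespace AROUND

theorem dep_cen (R : ℕ) : Dep (Cen R) (Ball R) := fun x y a => by
  rw [Cen, Cen, a _ (d0_mem R)]
  exact propext (and_congr_right fun _ => forall₂_congr fun t ht => by rw [a t ht])

theorem cen_pos (R : ℕ) : 0 < pr fair (Cen R) := by
  rw [pr, mn_eq ((dep_cen R).map ind) fun _ => false, EB]
  refine sum_pos' (fun y _ => mul_nonneg (wnn _ y) (ind_nonneg _))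
    ⟨fun t => decide (t.1 = d0), mem_univ _, mul_pos (prod_pos fun i _ => ?_) ?_⟩
  · dsimp only
    split_ifs <;> norm_num
  · rw [ind_pos ⟨by simp [updateFinset, d0_mem], fun t ht h => by simp [updateFinset, ht, h]⟩]
    exact one_pos

theorem no_loop : ∀ i j : Fin 3, tm (rho i d0) ≠ rho j d0 := by decide

theorem ex_law {n : ℕ} (P : Proc) (m : HE n → HE n) (h : (Fin n → Star) → ℝ) :
    ex (law P m) h = mn P.A fun x => h (cfg P m x) := (mn_law (Loc.of_fintype _) h).symm

end AROUND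

open AROUND in
theorem st_ROUND (hFN : St_FN) (hPR : St_PROC) (hSQ : St_SEQ) (hK : St_KNAT) (hE : St_ENT) :
    St_ROUND := by
  intro s R h0 h1
  refine ⟨3 / 4 * pr fair (Cen (R + 1)), mul_pos (by norm_num) (cen_pos _),
    fun P η f ⟨r0, hr0⟩ hf hb => ?_⟩
  obtain ⟨F, ev, ok⟩ := hFN s h0 h1
  obtain ⟨P', hP⟩ := hPR s P F ev (R + 1) ok
  obtain ⟨r1, hr1⟩ := nu_graph P hf.loc
  obtain ⟨r2, hr2⟩ := nu_graph P (hK.2.2.1 _ s tm d0 f hf.loc)
  refine ⟨P', r0 + (R + 1) + r1 + r2, fun n m hm hi => ?_⟩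
  obtain ⟨u, hu, hl⟩ := hP n m hm
  have iv := invo_of_isM hm
  have iR : Inj m (R + 1) := hi.mono (by omega)
  obtain ⟨q, hq⟩ : ∃ q : (HE n → Bool) → (Fin n → Star) → ℝ, ∀ φ c', q φ c' =
      ex (law P m) fun c => mn F fun z => ind (u φ c z = c') := ⟨_, fun _ _ => rfl⟩
  obtain ⟨δ, hδ⟩ : ∃ δ, δ = nu P f - nu P (Kd s tm d0 f) := ⟨_, rfl⟩
  have key : ∀ φ, IsP (q φ) ∧ fre s m (q φ) ≤ fre s m (law P m) -
      δ ^ 2 / 4 * ∑ d, ind (at_ m (Cen (R + 1)) d φ) := fun φ => by
    have hc : ∀ d, d ∈ sel univ (fun d => at_ m (Cen (R + 1)) d φ) ↔ at_ m (Cen (R + 1)) d φ :=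
      fun d => mem_sel.trans (and_iff_right (mem_univ d))
    have := hSQ s F ev h0 h1 ok n m (law P m) (fun d c => f (pull m d c))
      (fun d => (Ball (R + 1)).image fun t => (cov m d t).1) hm
      ⟨fun _ => pr_nonneg _, sum_pr (Loc.of_fintype _)⟩
      (sel univ fun d => at_ m (Cen (R + 1)) d φ) (q φ) (u φ)
      (fun c z => by simpa only [hc] using hu φ c z)
      (fun d hd => ⟨fun x y a => hf _ _ fun v hv => by
          rw [pull, pull, see, see, a _ (mem_image_of_mem _ (mem_Ball.2 (Nat.le_succ_of_le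
            (mem_VB.1 hv)) : ((v, 0) : TD) ∈ _))], fun c => hb _,
        mem_image.2 ⟨d0, d0_mem _, by rw [cov_d0]⟩, fun i => by
          have t : tm (rho i d0) ∈ Ball (R + 1) := tm_mem ((rho_mem i).2 (d0_mem R))
          have e : cov m d (tm (rho i d0)) = m (rho i d) := by rw [cov_tm iv, cov_rho, cov_d0]
          refine ⟨mem_image.2 ⟨_, t, by rw [e]⟩, fun k => ?_⟩
          obtain ⟨j, hj⟩ := exists_rho k
          exact no_loop i j (iR d t ((rho_mem j).2 (d0_mem _)) (by rw [e, hj, cov_rho, cov_d0])),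
        fun e he ne k => by
          obtain ⟨t, ht, k⟩ := mem_image.1 k
          obtain ⟨j, rfl⟩ := exists_rho k.symm
          rw [← cov_rho] at he ne
          have a := ((hc _).1 hd).2 _ ((rho_mem j).2 ht) fun z => ne (by rw [z, cov_d0])
          have b := ((hc _).1 he).1
          rw [comp_apply, cov_d0] at b
          exact Bool.false_ne_true (a.symm.trans b)⟩)
      fun h => by
        simp only [hq, ex, mn_law (Loc.of_fintype (u φ _)) h, sum_mul, mul_sum, mul_assoc]
        exact sum_comm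
    refine ⟨this.1, this.2.trans_eq ?_⟩
    rw [sum_congr rfl fun d _ => show _ = δ ^ 2 by
      rw [← funext (hK.2.2.2 _ s m d f R iv (iR.mono R.le_succ) hf), ex_law, ex_law,
        hr1 _ m iv (hi.mono (by omega)), hr2 _ m iv (hi.mono (by omega)), hδ]]
    classical
    simp only [ind_eq_ite, sum_boole, sum_const, nsmul_eq_mul, sel_eq]
    ring
  have e1 : law P' m = fun c' => ∑ φ : HE n → Bool, (∏ i, fair.w (φ i)) * q φ c' :=
    funext fun c' => by
      simp only [hq]
      rw [← mn_fintype (A := fair), ← hl fun c => ind (c = c')]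
      simp only [ex, mul_comm (law _ _ _), ind_congr (eq_comm (b := c')), sum_ind_mul]
  have e2 := hE.2.2.2 _ _ _ q ⟨fun φ : HE n → Bool => wnn fair φ, wsum fair _⟩
    fun φ => (key φ).1.1
  have e3 : fre s m (law P' m) ≤ mn fair fun φ : HE n → Bool => fre s m (q φ) := by
    rw [mn_fintype, e1]
    simp only [fre, sum_sub_distrib, mul_sub]
    refine sub_le_sub e2 (le_of_eq ?_)
    simp only [sum_mul, mul_sum, mul_assoc]
    exact sum_comm
  have e4 := mn_mono (A := fair) (Loc.of_fintype _) (Loc.of_fintype _) fun φ => (key φ).2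
  rw [mn_sub (Loc.const _) (Loc.of_fintype _), mn_const, mn_mul (Loc.of_fintype _),
    mn_sum _ fun _ _ => Loc.of_fintype _, sum_congr rfl fun d _ =>
      show (mn fair fun φ => ind (at_ m (Cen (R + 1)) d φ)) = pr fair (Cen (R + 1))
      from mn_at (A := fair) ((dep_cen _).map ind) iR d, sum_const, card_univ, Fintype.card_prod,
    Fintype.card_fin, Fintype.card_fin, nsmul_eq_mul] at e4
  have e5 := hr0 n m hm (hi.mono (by omega))
  rw [← hδ]
  push_cast at e4
  linarith

end Pool.Agent.Lib.PT5
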