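import Pool.Agent.Lib.PT5.ADefs2

/-! Change of the parameter. -/

namespace Pool.Agent.Lib.PT5

open Finset Real RC5

namespace ASCH

theorem sum_psi (s : ℝ) (a : T1) : ∑ b, psi s a b = 10 := by
  simp [psi, sum_add_distrib]

theorem psi_ge {s s1 : ℝ} (h0 : 0 ≤ s) (h1 : s ≤ s1) (a b : T1) : 1 - s1 ≤ psi s a b := by
  unfold psi; split_ifs <;> linarith

theorem psi_sub (s s' : ℝ) (a b : T1) : |psi s a b - psi s' a b| ≤ 9 * |s' - s| := by
  have h1 := le_abs_self (s' - s)
  have h2 := neg_abs_le (s' - s)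
  unfold psi
  split_ifs <;> rw [abs_le] <;> constructor <;> linarith

theorem log_le {x y : ℝ} (hx : 0 < x) (hy : 0 < y) : log x - log y ≤ (x - y) / y := by
  rw [← log_div hx.ne' hy.ne', sub_div, div_self hy.ne']
  exact log_le_sub_one_of_pos (div_pos hx hy)

theorem log_sub {x y u D : ℝ} (hu : 0 < u) (hx : u ≤ x) (hy : u ≤ y) (h : |x - y| ≤ D) :
    |log x - log y| ≤ D / u := by
  have hD := (abs_nonneg _).trans h
  rw [abs_le] at h ⊢
  have h1 := (log_le (hu.trans_le hx) (hu.trans_le hy)).trans (div_le_div₀ hD h.2 hu hy)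
  have h2 := (log_le (hu.trans_le hy) (hu.trans_le hx)).trans
    (div_le_div₀ hD (by linarith [h.1]) hu hx)
  constructor <;> linarith

theorem term {x y u D : ℝ} (hu : 0 < u) (hx : u ≤ x) (hy : u ≤ y) (h : |x - y| ≤ D) :
    x / 100 * (log x - log y) ≤ D ^ 2 / u / 100 + (x - y) / 100 := by
  have hy0 := hu.trans_le hy
  have h1 := mul_le_mul_of_nonneg_left (log_le (hu.trans_le hx) hy0) (hu.trans_le hx).le
  have h2 : x * ((x - y) / y) = (x - y) ^ 2 / y + (x - y) := by field_simp; ring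
  have h3 : (x - y) ^ 2 / y ≤ D ^ 2 / u :=
    div_le_div₀ (sq_nonneg _) (by rw [← sq_abs]; exact pow_le_pow_left₀ (abs_nonneg _) h 2) hu hy
  linarith

theorem eg_le {s s' s1 : ℝ} (h : s1 < 1) (h0 : 0 ≤ s) (h1 : s ≤ s1) (k0 : 0 ≤ s') (k1 : s' ≤ s1) :
    eg s (fun a b => log (psi s a b) - log (psi s' a b)) ≤ 81 / (1 - s1) * (s' - s) ^ 2 := by
  refine (sum_le_sum fun a _ => sum_le_sum fun b _ => term (sub_pos.2 h) (psi_ge h0 h1 a b)
    (psi_ge k0 k1 a b) (psi_sub s s' a b)).trans_eq ?_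
  simp only [sum_add_distrib, ← sum_div, sum_sub_distrib, sum_psi, mul_pow, sq_abs]
  simp
  ring

theorem fre_eq {n : ℕ} (s : ℝ) (m : HE n → HE n) (p : (Fin n → Star) → ℝ) :
    fre s m p = ∑ c, p c * log (p c) - ex p (logW s m) := by
  rw [fre, ex, sum_sub_distrib]

end ASCH

open ASCH in
theorem st_SCH (hW : St_EW) : St_SCH := by
  intro s1 h
  have hu := sub_pos.2 h
  refine ⟨3 / 2 * (81 / (1 - s1)), by positivity, fun s s' P η e h0 h1 k0 k1 ⟨r, hr⟩ hc => ?_⟩
  have l : ∀ g : T1 → T1 → ℝ, Loc fun c : TV → Star => g (st c d0) (st c (tm d0)) := fun g =>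
    (loc_st d0).map₂ (loc_st (tm d0)) g
  have e0 : 0 ≤ e := (abs_nonneg _).trans (hc (fun _ _ => 0) (by simp))
  have key : lE P s - lE P s' ≤ 81 / (1 - s1) * (s' - s) ^ 2 + 81 / (1 - s1) * e * |s' - s| := by
    by_cases hs : s' = s
    · simp [hs]
    have ha : 0 < |s' - s| := abs_pos.2 (sub_ne_zero.2 hs)
    have hM : 0 < 9 * |s' - s| / (1 - s1) := by positivity
    generalize hq : 9 * |s' - s| / (1 - s1) = M at hM
    have hb := hc (fun a b => M⁻¹ * (log (psi s a b) - log (psi s' a b))) fun a b => by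
      rw [abs_mul, abs_of_pos (inv_pos.2 hM), inv_mul_le_iff₀ hM, mul_one, ← hq]
      exact log_sub hu (psi_ge h0 h1 a b) (psi_ge k0 k1 a b) (psi_sub s s' a b)
    have e1 : eg s (fun a b => M⁻¹ * (log (psi s a b) - log (psi s' a b)))
        = M⁻¹ * eg s fun a b => log (psi s a b) - log (psi s' a b) := by
      simp only [eg, mul_sum]
      exact sum_congr rfl fun a _ => sum_congr rfl fun b _ => by ring
    rw [nu_mul P (l fun a b => log (psi s a b) - log (psi s' a b)),
      nu_sub P (l fun a b => log (psi s a b)) (l fun a b => log (psi s' a b)), e1, ← mul_sub] at hb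
    have h2 := (inv_mul_le_iff₀ hM).1 ((le_abs_self _).trans hb)
    have h3 := eg_le h h0 h1 k0 k1
    have h4 : M * e ≤ 81 / (1 - s1) * e * |s' - s| := by
      have : 81 / (1 - s1) * e * |s' - s| = 9 * (M * e) := by rw [← hq]; ring
      have := mul_nonneg hM.le e0
      linarith
    unfold lE
    linarith
  obtain ⟨r1, w1⟩ := hW P s
  obtain ⟨r2, w2⟩ := hW P s'
  refine ⟨max r (max r1 r2), fun n m hm hi => ?_⟩
  have a0 := hr n m hm (hi.mono (le_max_left _ _))
  rw [fre_eq, w1 n m hm (hi.mono (by omega))] at a0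
  rw [fre_eq, w2 n m hm (hi.mono (by omega))]
  have := mul_le_mul_of_nonneg_left key (Nat.cast_nonneg n)
  linarith

end Pool.Agent.Lib.PT5
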