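import Pool.Agent.Lib.PT5.ADefs2

/-! Simultaneous updates at separated vertices are a sequence of heat baths. -/

namespace Pool.Agent.Lib.PT5

open Finset RC5 Function

namespace ASEQ

variable {V L : Type} {ev : L → (Fin 3 → T1) → Star} {m : V × Fin 3 → V × Fin 3}
  {C : V × Fin 3 → Prop} {c c' : V → Star} {z : V × Fin 3 → L}

theorem upd_val (h : IsUpd ev m C c z c') {d : V × Fin 3} (hd : C d) :
    c' d.1 = rot (-d.2) (ev (z d) (nbr m c d)) := by
  rw [← h.1 d hd, see, rot_rot]
  simp [rot]

theorem ex_law {X ι : Type} [Fintype X] [Fintype ι] [DecidableEq ι] (F : LS) (p : X → ℝ)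
    (u : X → (ι → F.L) → X) (h : X → ℝ) :
    ex (fun y => ex p fun x => pr F fun z => u x z = y) h
      = ex p fun x => mn F fun z => h (u x z) := by
  simp only [ex, sum_mul]
  rw [sum_comm]
  refine sum_congr rfl fun x _ => ?_
  rw [mn_law (Loc.of_fintype _), mul_sum]
  exact sum_congr rfl fun y _ => mul_assoc _ _ _

theorem ex_ind {X : Type} [Fintype X] (p : X → ℝ) (x : X) : ex p (fun y => ind (x = y)) = p x := by
  rw [← sum_ind_mul x p]
  exact sum_congr rfl fun y _ => mul_comm _ _

end ASEQ

open ASEQ in
theorem st_SEQ (hK : St_KER) (hN : St_KNAT) : St_SEQ := by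
  intro s F ev h0 h1 hF n m p f U hm hp C
  induction C using Finset.induction_on with
  | empty =>
    intro q u hu _ hq
    have e : q = p := funext fun x => by
      rw [← ex_ind q x, ← ex_ind p x, hq]
      refine congrArg (ex p) (funext fun c => ?_)
      have : ∀ z, u c z = c := fun z => funext fun v => (hu c z).2 v fun j => notMem_empty _
      simp only [this, mn_const]
    rw [e]
    exact ⟨hp, by simp⟩
  | insert d C hd ih =>
    intro q u hu hC hq
    obtain ⟨d1, d2, d3, d4, d5⟩ := hC d (mem_insert_self d C)
    have out : ∀ e ∈ C, e.1 ∉ U d := fun e he =>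
      d5 e (mem_insert_of_mem he) fun k => hd (k ▸ he)
    have ne : ∀ e ∈ C, e.1 ≠ d.1 := fun e he k => out e he (k ▸ d3)
    set u' : (Fin n → Star) → (HE n → F.L) → Fin n → Star :=
      fun c z => update (u c z) d.1 (c d.1) with hu'
    have up : ∀ c z, IsUpd ev m (· ∈ C) c z (u' c z) := fun c z => by
      refine ⟨fun e he => ?_, fun v hv => ?_⟩
      · rw [← (hu c z).1 e (mem_insert_of_mem he), see, see, hu']
        simp only [update_of_ne (ne e he)]
      · by_cases k : v = d.1
        · rw [k, hu']
          simp only [update_self]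
        · rw [hu']
          simp only [update_of_ne k]
          refine (hu c z).2 v fun j hj => ?_
          rcases mem_insert.1 hj with k' | k'
          · exact k (congrArg Prod.fst k')
          · exact hv j k'
    have agr : ∀ c z, ∀ v ∈ U d, u' c z v = c v := fun c z v hv =>
      (up c z).2 v fun j hj => out _ hj hv
    have nb : ∀ c z, nbr m (u' c z) d = nbr m c d := fun c z => funext fun i => by
      rw [nbr, nbr, st, st, agr c z _ (d4 i).1]
    have key : ∀ c z a, u c (update z d a) = put (u' c z) d (ev a (nbr m c d)) := fun c z a => by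
      funext v
      by_cases k : v = d.1
      · rw [k, put, update_self, upd_val (hu c _) (mem_insert_self d C), update_self]
      · rw [put, update_of_ne k, hu']
        simp only [update_of_ne k]
        by_cases k' : ∃ j, (v, j) ∈ insert d C
        · obtain ⟨j, hj⟩ := k'
          have a1 := upd_val (hu c (update z d a)) hj
          have a2 := upd_val (hu c z) hj
          rw [update_of_ne fun e => k (congrArg Prod.fst e)] at a1
          exact a1.trans a2.symm
        · rw [(hu c _).2 v fun j hj => k' ⟨j, hj⟩, (hu c _).2 v fun j hj => k' ⟨j, hj⟩]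
    obtain ⟨i1, i2⟩ := ih (fun y => ex p fun c => pr F fun z => u' c z = y) u' up
      (fun e he => by
        obtain ⟨e1, e2, e3, e4, e5⟩ := hC e (mem_insert_of_mem he)
        exact ⟨e1, e2, e3, e4, fun g hg => e5 g (mem_insert_of_mem hg)⟩)
      (ex_law F p u')
    set q' := fun y => ex p fun c => pr F fun z => u' c z = y with hq'
    have step : ∀ h, ex q h = ex q' (Kd s m d h) := fun h => by
      rw [hq, hq', ex_law]
      refine congrArg (ex p) (funext fun c => ?_)
      rw [mn_update (Loc.of_fintype _) d]
      refine congrArg (mn F) (funext fun z => ?_)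
      simp only [key]
      rw [hF.law (nbr m c d) fun y => h (put (u' c z) d y), Kd, nb]
    have same : ∀ h, Dep h (U d) → ex q' h = ex p h := fun h hh => by
      rw [hq', ex_law]
      refine congrArg (ex p) (funext fun c => ?_)
      simp only [fun z => hh _ _ (agr c z), mn_const]
    obtain ⟨k1, k2⟩ := hK s n m d q' q h0 h1 hm (fun i => (d4 i).2) i1 step
    have k3 := k2 (f d) d2
    rw [step, same _ d1, same _ (hN.2.1 _ s m d (f d) (U d) d1 fun i => (d4 i).1)] at k3
    rw [sum_insert hd]
    exact ⟨k1, by linarith⟩

end Pool.Agent.Lib.PT5
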