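import Pool.Agent.Lib.PT5.ADefs2

/-! Independent stars. -/

namespace Pool.Agent.Lib.PT5

open Finset Real RC5

namespace AST92

theorem exists_p : ∃ p : ℝ, 0 ≤ p ∧ p ≤ 1 ∧ p * (1 - p) = 3 / 13 := by
  have h := sq_sqrt (show (0 : ℝ) ≤ 1 / 13 by norm_num)
  have h0 := sqrt_nonneg (1 / 13 : ℝ)
  generalize √(1 / 13 : ℝ) = u at h h0
  exact ⟨(1 - u) / 2, by nlinarith, by linarith, by linarith⟩

@[reducible] noncomputable def u5 : LS where
  L := ZMod 5
  fin := inferInstance
  pt := 0
  w := fun _ => 1 / 5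
  nn := fun _ => by norm_num
  one := by simp

def ori (b r : Fin 3 → Bool) : Fin 3 → Bool := fun i => if cst b then xor (b i) (r i) else b i

def X0 (a : Fin 3 → ZMod 5 × Bool × Bool) : Star :=
  (∑ i, (a i).1, ori (fun i => (a i).2.1) fun i => (a i).2.2)

theorem ori_rot : ∀ (i : Fin 3) (b r : Fin 3 → Bool),
    ori (fun j => b (i + j)) (fun j => r (i + j)) = fun j => ori b r (i + j) := by decide

theorem ori_xor : ∀ (t : Bool) (b r : Fin 3 → Bool),
    ori (fun j => xor (b j) t) r = fun j => xor (ori b r j) t := by decide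

theorem sum3 (f : (Fin 3 → Bool) → ℝ) : ∑ b, f b = ∑ x, ∑ y, ∑ z, f ![x, y, z] := by
  simp only [← Fintype.sum_prod_type']
  exact Fintype.sum_equiv ⟨fun b => (b 0, b 1, b 2), fun t => ![t.1, t.2.1, t.2.2],
    fun b => by ext i; fin_cases i <;> rfl, fun _ => rfl⟩ _ _ fun b =>
      congrArg f (by ext i; fin_cases i <;> rfl)

theorem col (y : ZMod 5) : mn u5 (fun c : Fin 3 → ZMod 5 => ind (∑ i, c i = y)) = 1 / 5 := by
  have h : ∀ y : ZMod 5, (univ.filter fun c : Fin 3 → ZMod 5 => ∑ i, c i = y).card = 25 := by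
    decide
  rw [mn_fintype]
  simp only [ind_eq_ite, prod_const, ← mul_sum, sum_boole, h]
  norm_num

theorem dir {p : ℝ} (h0 : 0 ≤ p) (h1 : p ≤ 1) (h : p * (1 - p) = 3 / 13) (y : Fin 3 → Bool) :
    mn fair (fun b : Fin 3 → Bool => mn (coin p h0 h1) fun r : Fin 3 → Bool => ind (ori b r = y))
      = if cst y then 1 / 26 else 4 / 26 := by
  obtain ⟨a, b, c, rfl⟩ : ∃ a b c, y = ![a, b, c] := ⟨y 0, y 1, y 2, by ext i; fin_cases i <;> rfl⟩
  simp only [mn_fintype, ind_eq_ite, sum3, Fintype.sum_bool, Fin.prod_univ_three]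
  cases a <;> cases b <;> cases c <;> simp (decide := true) <;> linarith

end AST92

open AST92 in
theorem st_START92 : St_START := by
  obtain ⟨p, h0, h1, hp⟩ := exists_p
  let A : LS := u5.prod (fair.prod (coin p h0 h1))
  let P : Proc :=
    { A := A
      X := fun x => X0 fun i => x (rho i d0)
      loc := (Loc.pi fun i => Loc.eval (rho i d0)).map X0
      cmp := fun i x => by
        simp only [at_, Function.comp, cov_rho, cov_d0, rho_rho]
        exact Prod.ext (Equiv.sum_comp (Equiv.addLeft i) fun j => (x (rho j d0)).1)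
          (ori_rot i (fun j => (x (rho j d0)).2.1) fun j => (x (rho j d0)).2.2)
      sym := fun g => by
        have b1 : ∀ g : D5, Function.Bijective fun c : ZMod 5 => (if g.2 then -c else c) + 2 * g.1 := by
          decide
        have b2 : ∀ t : Bool, Function.Bijective fun c : Bool => xor c t := by decide
        have b3 : ∀ (g : D5) (a b c : ZMod 5), (if g.2 then -a else a) + 2 * g.1
            + ((if g.2 then -b else b) + 2 * g.1) + ((if g.2 then -c else c) + 2 * g.1)
            = gc g (a + b + c) := by decide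
        refine ⟨(Equiv.ofBijective _ (b1 g)).prodCongr
          ((Equiv.ofBijective _ (b2 g.2)).prodCongr (Equiv.refl _)), fun a => ?_, fun x => ?_⟩
        · obtain ⟨a, b, c⟩ := a
          obtain ⟨j, t⟩ := g
          cases b <;> cases t <;> simp [A] <;> norm_num
        · refine Prod.ext ?_ (ori_xor g.2 (fun j => (x (rho j d0)).2.1) fun j => (x (rho j d0)).2.2)
          simp only [X0, gs, Fin.sum_univ_three]
          exact b3 g _ _ _ }
  have one : ∀ y : Star, ∑ a : Fin 3 → A.L, (∏ i, A.w (a i)) * ind (X0 a = y) = tau y := by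
    intro y
    rw [← mn_fintype (A := A) fun a => ind (X0 a = y), mn_prod (Loc.of_fintype _)]
    simp only [mn_prod (Loc.of_fintype _), X0, Prod.ext_iff, ind_and, mn_mul (Loc.of_fintype _),
      dir h0 h1 hp, mn_mul' (Loc.of_fintype _), col, tau]
    split_ifs <;> norm_num
  refine ⟨P, 0, fun n m _ _ => ?_⟩
  have lw : ∀ c, law P m c = ∏ v, tau (c v) := by
    intro c
    have e : ∀ x : HE n → A.L, ind (cfg P m x = c) = ∏ v, ind (X0 (fun i => x (v, i)) = c v) := by
      intro x
      have : cfg P m x = fun v => X0 fun i => x (v, i) := funext fun v => by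
        simp only [cfg, at_, P, Function.comp, cov_rho, cov_d0, rho_mk]
      rw [this]
      by_cases h : (fun v => X0 fun i => x (v, i)) = c
      · rw [ind_pos h, prod_eq_one fun v _ => ind_pos (congrFun h v)]
      · obtain ⟨v, hv⟩ := Function.ne_iff.1 h
        rw [ind_neg h, prod_eq_zero (mem_univ v) (ind_neg hv)]
    rw [law, pr, mn_fintype, ← prod_congr rfl fun v _ => one (c v), prod_univ_sum,
      Fintype.piFinset_univ, ← (Equiv.curry (Fin n) (Fin 3) A.L).sum_comp]
    refine sum_congr rfl fun x _ => ?_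
    rw [e, Fintype.prod_prod_type, ← prod_mul_distrib]
    rfl
  have tp : ∀ y, tau y ≠ 0 := fun y => by unfold tau; split_ifs <;> norm_num
  simp [fre, lw, logW, psi, log_prod fun v _ => tp _]

end Pool.Agent.Lib.PT5
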