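import Pool.Agent.Lib.PT5.ADefs2

/-! Change of the weight of a pattern at one vertex. -/

namespace Pool.Agent.Lib.PT5

open Finset Real RC5

namespace AWLOC

theorem io_symm : ∀ a b : T1, b = io1 a ↔ a = io1 b := by decide

theorem psi_symm (s : ℝ) (a b : T1) : psi s a b = psi s b a := by
  unfold psi
  by_cases h : b = io1 a
  · rw [if_pos h, if_pos ((io_symm a b).1 h)]
  · rw [if_neg h, if_neg fun e => h ((io_symm a b).2 e)]

/-- the pattern below a vertex -/
def G (y : TV → Star) (b : Bool) (k : ℕ) (l : List Bool) : Pt k := pat tm y k (tm ((b, l), 0))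

theorem ch_dn (b c : Bool) (l : List Bool) :
    ch tm (tm ((b, l), 0)) c = tm ((b, c :: l), 0) := by
  rw [ch, tm_invo, rho_mk]
  rfl

theorem G_succ (y : TV → Star) (b : Bool) (k : ℕ) (l : List Bool) :
    G y b (k + 1) l = (y (b, l), G y b k (false :: l), G y b k (true :: l)) := by
  unfold G
  rw [pat, ch_dn, ch_dn, tm_invo, see_zero]

theorem G_congr {y y' : TV → Star} {b : Bool} : ∀ (k : ℕ) (l : List Bool),
    (∀ w, y' (b, w ++ l) = y (b, w ++ l)) → G y' b k l = G y b k l
  | 0, _, _ => rfl
  | k + 1, l, h => by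
    have h0 : y' (b, l) = y (b, l) := h []
    have h1 : ∀ c : Bool, G y' b k (c :: l) = G y b k (c :: l) := fun c =>
      G_congr k (c :: l) fun w => by simpa using h (w ++ [c])
    rw [G_succ, G_succ, h0, h1, h1]

/-- the weight of the pattern below a vertex with the edge above it -/
noncomputable def F (s : ℝ) (y : TV → Star) (b : Bool) (a : T1) (k : ℕ) (l : List Bool) : ℝ :=
  lk s a k (G y b k l) * wt s k (G y b k l)

theorem F_top (s : ℝ) (y : TV → Star) (b : Bool) (a : T1) (k : ℕ) (l : List Bool) :
    F s y b a (k + 1) l = psi s a (ds (y (b, l)) 0) * wt s (k + 1) (G y b (k + 1) l) := by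
  have h : top (G y b (k + 1) l) = ds (y (b, l)) 0 := by rw [G_succ]; rfl
  rw [F, lk, h]

theorem F_succ (s : ℝ) (y : TV → Star) (b : Bool) (a : T1) (k : ℕ) (l : List Bool) :
    F s y b a (k + 1) l = psi s a (ds (y (b, l)) 0) * (tau (y (b, l))
      * F s y b (ds (y (b, l)) 1) k (false :: l) * F s y b (ds (y (b, l)) 2) k (true :: l)) := by
  rw [F_top, G_succ]
  rfl

theorem F_congr (s : ℝ) {y y' : TV → Star} {b : Bool} (a : T1) (k : ℕ) (l : List Bool)
    (h : ∀ w, y' (b, w ++ l) = y (b, w ++ l)) : F s y' b a k l = F s y b a k l := by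
  rw [F, F, G_congr k l h]

/-- the local weight -/
noncomputable def H (s : ℝ) (y : TV → Star) (b : Bool) (u : List Bool) (A : T1) (z : Star) : ℝ :=
  tau z * (psi s (ds z 0) A * psi s (ds z 1) (ds (y (b, false :: u)) 0)
    * psi s (ds z 2) (ds (y (b, true :: u)) 0))

theorem upd_ne (y : TV → Star) (b : Bool) (z : Star) {u u' : List Bool} (h : u' ≠ u) :
    Function.update y (b, u) z (b, u') = y (b, u') :=
  Function.update_of_ne (fun e => h (congrArg Prod.snd e)) _ _

theorem main (s : ℝ) (y : TV → Star) (b : Bool) (z : Star) (A : T1) (w : List Bool) :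
    ∀ (l : List Bool) (k : ℕ) (a : T1), w.length + 1 < k → (w = [] → A = a) →
      (∀ c w', w = c :: w' → A = ds (y (b, w' ++ l)) (po c)) →
      F s (Function.update y (b, w ++ l) z) b a k l * H s y b (w ++ l) A (y (b, w ++ l))
        = F s y b a k l * H s y b (w ++ l) A z := by
  induction w using List.reverseRecOn with
  | nil =>
    intro l k a hk h0 _
    obtain ⟨k, rfl⟩ : ∃ j, k = j + 1 + 1 := ⟨k - 2, by simp at hk; omega⟩
    obtain rfl := h0 rfl
    have hc : ∀ (c : Bool) (a : T1), F s (Function.update y (b, l) z) b a (k + 1) (c :: l)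
        = F s y b a (k + 1) (c :: l) := fun c a =>
      F_congr s a _ _ fun w => upd_ne y b z fun e => by
        have := congrArg List.length e
        simp at this
        omega
    rw [List.nil_append, F_succ, F_succ s y, hc, hc, Function.update_self, F_top, F_top, F_top,
      F_top, H, H, psi_symm s A, psi_symm s A]
    ring
  | append_singleton w c ih =>
    intro l k a hk _ h1
    obtain ⟨k, rfl⟩ : ∃ j, k = j + 1 := ⟨k - 1, by omega⟩
    have hk' : w.length + 1 < k := by simp at hk; omega
    have e : w ++ [c] ++ l = w ++ c :: l := by simp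
    have h := ih (c :: l) k (ds (y (b, l)) (po c)) hk'
      (fun e => by subst e; exact h1 c [] rfl)
      (fun c' w' e => by subst e; simpa using h1 c' (w' ++ [c]) rfl)
    have h0 : Function.update y (b, w ++ c :: l) z (b, l) = y (b, l) :=
      upd_ne y b z fun e => by
        have := congrArg List.length e
        simp at this
        omega
    have hc : ∀ a : T1, F s (Function.update y (b, w ++ c :: l) z) b a k ((!c) :: l)
        = F s y b a k ((!c) :: l) := fun a =>
      F_congr s a _ _ fun u => upd_ne y b z fun e => by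
        have := (List.append_inj' e rfl).2
        cases c <;> simp at this
    rw [e, F_succ, F_succ s y, h0]
    cases c
    · have hc' := hc (ds (y (b, l)) 2)
      rw [Bool.not_false] at hc'
      rw [hc']
      have h' : po false = 1 := rfl
      rw [h'] at h
      linear_combination (psi s a (ds (y (b, l)) 0) * tau (y (b, l))
        * F s y b (ds (y (b, l)) 2) k (true :: l)) * h
    · have hc' := hc (ds (y (b, l)) 1)
      rw [Bool.not_true] at hc'
      rw [hc']
      have h' : po true = 2 := rfl
      rw [h'] at h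
      linear_combination (psi s a (ds (y (b, l)) 0) * tau (y (b, l))
        * F s y b (ds (y (b, l)) 1) k (false :: l)) * h

theorem muE_eq (s : ℝ) (k : ℕ) (y : TV → Star) (b : Bool) :
    muE s k (patE tm y k d0)
      = F s y b (ds (y (!b, [])) 0) (k + 1) [] * wt s (k + 1) (G y (!b) (k + 1) []) := by
  have e : patE tm y k d0 = (G y false (k + 1) [], G y true (k + 1) []) := rfl
  have h : ∀ b, top (G y b (k + 1) []) = ds (y (b, [])) 0 := fun b => by rw [G_succ]; rfl
  rw [e, muE, F_top, h, h]
  cases b
  · rw [psi_symm]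
    simp only [Bool.not_false]
    ring
  · simp only [Bool.not_true]
    ring

theorem hw_eq (s : ℝ) (y : TV → Star) (b : Bool) (w : List Bool) (z : Star) :
    hw s (nbr tm y ((b, w), 0)) z = H s y b w (st y (tm ((b, w), 0))) z := by
  rw [hw, Fin.prod_univ_three]
  rfl

end AWLOC

open AWLOC in
theorem st_WLOC : St_WLOC := by
  rintro s k y ⟨b, w⟩ z hk
  have hp : put y ((b, w), 0) z = Function.update y (b, w) z := by
    rw [put, neg_zero, rot_zero]
  have hn : ∀ u, Function.update y (b, w) z (!b, u) = y (!b, u) := fun u =>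
    Function.update_of_ne (fun e => by have := congrArg Prod.fst e; simp at this) _ _
  have h := main s y b z (st y (tm ((b, w), 0))) w [] (k + 1) (ds (y (!b, [])) 0)
    (Nat.succ_lt_succ hk) (fun e => by subst e; rfl)
    (fun c w' e => by subst e; rw [List.append_nil]; rfl)
  rw [List.append_nil] at h
  rw [hp, muE_eq s k _ b, muE_eq s k y b, hw_eq, hw_eq, hn, G_congr (k + 1) [] fun u => hn _]
  linear_combination wt s (k + 1) (G y (!b) (k + 1) []) * h

end Pool.Agent.Lib.PT5
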