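import Pool.Agent.Lib.PT5.CDefs

/-! The linear part of the message recursion contracts. -/

namespace Pool.Agent.Lib.PT5

open Finset Real RC5

namespace CLIN

theorem L1_eq (x : Vec) (t : T1) :
    L1 x t = (5 * x (io1 t) + 8 * x ((io1 t).1, !(io1 t).2)) / 13 := by
  rw [L1]
  obtain ⟨c, o⟩ := io1 t
  cases o <;> simp only [Vm, Pi.one_apply, Bool.not_true, Bool.not_false] <;> ring

/-- the linear map -/
noncomputable def Lm : Vec →ₗ[ℝ] Vec where
  toFun := L1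
  map_add' x y := funext fun t => by simp only [L1_eq, Pi.add_apply]; ring
  map_smul' a x := funext fun t => by
    simp only [L1_eq, Pi.smul_apply, smul_eq_mul, RingHom.id_apply]; ring

theorem pow_succ_apply (j : ℕ) (x : Vec) : (Lm ^ (j + 1)) x = L1 ((Lm ^ j) x) := by
  rw [pow_succ']; rfl

theorem pow_succ_apply' (j : ℕ) (x : Vec) : (Lm ^ (j + 1)) x = (Lm ^ j) (L1 x) := by
  rw [pow_succ]; rfl

def ix (t : T1) : ℕ := 2 * t.1.val + if t.2 then 1 else 0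

def stp (l : List ℕ) : List ℕ :=
  [5 * l.getD 9 0 + 8 * l.getD 8 0, 5 * l.getD 2 0 + 8 * l.getD 3 0,
    5 * l.getD 1 0 + 8 * l.getD 0 0, 5 * l.getD 4 0 + 8 * l.getD 5 0,
    5 * l.getD 3 0 + 8 * l.getD 2 0, 5 * l.getD 6 0 + 8 * l.getD 7 0,
    5 * l.getD 5 0 + 8 * l.getD 4 0, 5 * l.getD 8 0 + 8 * l.getD 9 0,
    5 * l.getD 7 0 + 8 * l.getD 6 0, 5 * l.getD 0 0 + 8 * l.getD 1 0]

def col (u : T1) : ℕ → List ℕ
  | 0 => (List.range 10).map fun i => if i = ix u then 1 else 0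
  | j + 1 => stp (col u j)

/-- the entries of the powers of the integral matrix -/
def cf (j : ℕ) (t u : T1) : ℕ := (col u j).getD (ix t) 0

theorem cf_zero : ∀ t u, cf 0 t u = if t = u then 1 else 0 := by decide +kernel

theorem cf_succ (j : ℕ) (t u : T1) :
    cf (j + 1) t u = 5 * cf j (io1 t) u + 8 * cf j ((io1 t).1, !(io1 t).2) u := by
  obtain ⟨c, o⟩ := t
  fin_cases c <;> cases o <;> rfl

theorem cf_bd : ∀ t, (∑ u, |10 * (cf 13 t u : ℤ) - 13 ^ 13|) * 10 ^ 12 ≤ 7 ^ 13 * 13 ^ 13 := by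
  decide +kernel

theorem pow_eq (j : ℕ) (x : Vec) (t : T1) : (Lm ^ j) x t = (∑ u, cf j t u * x u) / 13 ^ j := by
  induction j generalizing t with
  | zero => simp [cf_zero]
  | succ j ih =>
    rw [pow_succ_apply, L1_eq, ih, ih]
    simp only [cf_succ, Nat.cast_add, Nat.cast_mul, Nat.cast_ofNat, add_mul, sum_add_distrib,
      mul_assoc, ← mul_sum]
    ring

theorem con (x : Vec) (h : ∑ t, x t = 0) : ‖(Lm ^ 13) x‖ ≤ (7 / 10) ^ 13 * ‖x‖ := by
  refine (pi_norm_le_iff_of_nonneg (by positivity)).mpr fun t => ?_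
  have h1 : (Lm ^ 13) x t = (∑ u, (10 * (cf 13 t u : ℝ) - 13 ^ 13) * x u) / (10 * 13 ^ 13) := by
    simp only [pow_eq, sub_mul, sum_sub_distrib, mul_assoc, ← mul_sum, h]
    ring
  have h2 : (∑ u, |10 * (cf 13 t u : ℝ) - 13 ^ 13|) * 10 ^ 12 ≤ 7 ^ 13 * 13 ^ 13 := by
    exact_mod_cast cf_bd t
  have h3 : |∑ u, (10 * (cf 13 t u : ℝ) - 13 ^ 13) * x u| ≤
      (∑ u, |10 * (cf 13 t u : ℝ) - 13 ^ 13|) * ‖x‖ := by
    rw [sum_mul]
    refine (abs_sum_le_sum_abs _ _).trans (sum_le_sum fun u _ => ?_)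
    rw [abs_mul]
    exact mul_le_mul_of_nonneg_left (norm_le_pi_norm x u) (abs_nonneg _)
  rw [h1, Real.norm_eq_abs, abs_div, abs_of_pos (show (0 : ℝ) < 10 * 13 ^ 13 by positivity),
    div_le_iff₀ (by positivity)]
  refine h3.trans ((mul_le_mul_of_nonneg_right ((le_div_iff₀ (by positivity)).mpr h2)
    (norm_nonneg x)).trans_eq ?_)
  ring

theorem L1_le (x : Vec) : ‖L1 x‖ ≤ ‖x‖ :=
  (pi_norm_le_iff_of_nonneg (norm_nonneg _)).mpr fun t => by
    have h1 := abs_le.mp (norm_le_pi_norm x (io1 t))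
    have h2 := abs_le.mp (norm_le_pi_norm x ((io1 t).1, !(io1 t).2))
    rw [L1_eq, Real.norm_eq_abs, abs_le]
    constructor <;> linarith [h1.1, h1.2, h2.1, h2.2]

theorem pow_le (j : ℕ) (x : Vec) : ‖(Lm ^ j) x‖ ≤ ‖x‖ := by
  induction j with
  | zero => simp
  | succ j ih => exact (pow_succ_apply j x ▸ L1_le _).trans ih

theorem sq_le (x : Vec) : ‖x‖ ^ 2 ≤ sq2 x ∧ sq2 x ≤ 10 * ‖x‖ ^ 2 := by
  have h0 : 0 ≤ sq2 x := sum_nonneg fun _ _ => sq_nonneg _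
  constructor
  · rw [← Real.le_sqrt (norm_nonneg _) h0]
    exact (pi_norm_le_iff_of_nonneg (Real.sqrt_nonneg _)).mpr fun t => Real.abs_le_sqrt
      (single_le_sum (f := fun t => x t ^ 2) (fun _ _ => sq_nonneg _) (mem_univ t))
  · refine (sum_le_card_nsmul _ _ (‖x‖ ^ 2) fun t _ => ?_).trans (by simp)
    rw [← sq_abs]
    exact pow_le_pow_left₀ (abs_nonneg _) (norm_le_pi_norm x t) 2

/-- the adapted norm -/
noncomputable def Nm (x : Vec) : ℝ := 4 * ∑ j ∈ range 13, ‖(Lm ^ j) x‖ / (7 / 10) ^ j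

theorem Nm_ge (x : Vec) : 4 * ‖x‖ ≤ Nm x := by
  have := single_le_sum (f := fun j => ‖(Lm ^ j) x‖ / (7 / 10 : ℝ) ^ j) (s := range 13)
    (fun _ _ => by positivity) (mem_range.mpr (show 0 < 13 by norm_num))
  simp only [pow_zero, div_one, Module.End.one_apply] at this
  rw [Nm]
  linarith

theorem Nm_le (x : Vec) : Nm x ≤ 10000 * ‖x‖ := by
  have h1 : ∑ j ∈ range 13, ‖(Lm ^ j) x‖ / (7 / 10 : ℝ) ^ j ≤
      ∑ j ∈ range 13, ‖x‖ / (7 / 10 : ℝ) ^ j :=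
    sum_le_sum fun j _ => div_le_div_of_nonneg_right (pow_le j x) (by positivity)
  have h2 : ∑ j ∈ range 13, ((7 / 10 : ℝ) ^ j)⁻¹ ≤ 2500 := by norm_num [sum_range_succ]
  simp only [div_eq_mul_inv ‖x‖, ← mul_sum] at h1
  rw [Nm]
  linarith [mul_le_mul_of_nonneg_left h2 (norm_nonneg x)]

end CLIN

open CLIN in
theorem st_LIN : St_LIN := by
  refine ⟨Nm, 7 / 10, 10000 ^ 2, by norm_num, by norm_num, by norm_num,
    fun x => le_trans (by positivity) (Nm_ge x), fun x y => ?_, fun a x => ?_, fun x => ⟨?_, ?_⟩,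
    fun x h => ?_⟩
  · rw [Nm, Nm, Nm, ← mul_add, ← sum_add_distrib]
    refine mul_le_mul_of_nonneg_left (sum_le_sum fun j _ => ?_) (by norm_num)
    rw [map_add, ← add_div]
    exact div_le_div_of_nonneg_right (norm_add_le _ _) (by positivity)
  · simp only [Nm, map_smul, norm_smul, Real.norm_eq_abs, mul_div_assoc, ← mul_sum]
    ring
  · nlinarith [(sq_le x).2, pow_le_pow_left₀ (by positivity) (Nm_ge x) 2, sq_nonneg ‖x‖]
  · nlinarith [(sq_le x).1,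
      pow_le_pow_left₀ (le_trans (by positivity) (Nm_ge x)) (Nm_le x) 2]
  · have h1 := sum_range_succ (fun j => ‖(Lm ^ j) x‖ / (7 / 10 : ℝ) ^ j) 13
    have h2 : ‖(Lm ^ 13) x‖ / (7 / 10 : ℝ) ^ 13 ≤ ‖x‖ :=
      (div_le_iff₀' (by positivity)).mpr (con x h)
    have h3 : ∑ j ∈ range 13, ‖(Lm ^ j) (L1 x)‖ / (7 / 10 : ℝ) ^ j =
        7 / 10 * ∑ j ∈ range 13, ‖(Lm ^ (j + 1)) x‖ / (7 / 10 : ℝ) ^ (j + 1) := by
      rw [mul_sum]
      exact sum_congr rfl fun j _ => by rw [pow_succ_apply', pow_succ]; field_simp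
    rw [sum_range_succ', pow_zero, pow_zero, div_one, Module.End.one_apply] at h1
    rw [Nm, Nm, h3]
    linarith

end Pool.Agent.Lib.PT5
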