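import Pool.Agent.Lib.PT5.CDefs

/-! Sums over the interior of a pattern. -/

namespace Pool.Agent.Lib.PT5

open Finset Real RC5

namespace CSP

/-- triples of directions -/
def e3 : Bool × Bool × Bool ≃ (Fin 3 → Bool) where
  toFun p := ![p.1, p.2.1, p.2.2]
  invFun o := (o 0, o 1, o 2)
  left_inv := by decide
  right_inv := by decide

lemma key (g a b : Vec) : ∑ x : Star, tau x * g (ds x 0) * (a (ds x 1) * b (ds x 2))
    = ∑ t, g t * Vm a b t / 10 := by
  rw [Fintype.sum_prod_type, Fintype.sum_prod_type]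
  refine sum_congr rfl fun c _ => ?_
  rw [← e3.sum_comp]
  simp [Fintype.sum_prod_type, e3, tau, ds, cst, Vm]
  ring

lemma psi_sum (s : ℝ) (t : T1) (h : Vec) : ∑ u, psi s t u * h u / 10 = Am s h t := by
  simp only [psi, Am, avg, add_mul, add_div, sum_add_distrib, ite_mul, zero_mul, ← sum_div,
    ← mul_sum, sum_ite_eq', mem_univ, if_true]
  ring

/-- the first claim -/
def P1 (s : ℝ) (k : ℕ) : Prop := ∀ (t : T1) (f : Bd k → ℝ),
  ∑ p, wt s (k + 1) p * psi s t (top p) * f (bd k p) = ∑ b, vS s k b t * f b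

lemma step {s : ℝ} {k : ℕ} (h : P1 s k) (g : Vec) (f : Bd k × Bd k → ℝ) :
    ∑ p, wt s (k + 2) p * g (top p) * f (bd (k + 1) p)
      = ∑ b : Bd k × Bd k, (∑ t, g t * Vm (vS s k b.1) (vS s k b.2) t / 10) * f b := by
  have e1 : ∑ p, wt s (k + 2) p * g (top p) * f (bd (k + 1) p)
      = ∑ x : Star, tau x * g (ds x 0) * ∑ p, wt s (k + 1) p * psi s (ds x 1) (top p) *
        ∑ q, wt s (k + 1) q * psi s (ds x 2) (top q) * f (bd k p, bd k q) := by
    change ∑ p : Star × Pt (k + 1) × Pt (k + 1), _ = _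
    rw [Fintype.sum_prod_type]
    refine sum_congr rfl fun x _ => ?_
    simp only [Fintype.sum_prod_type, mul_sum]
    refine sum_congr rfl fun p _ => sum_congr rfl fun q _ => ?_
    change tau x * (psi s (ds x 1) (top p) * wt s (k + 1) p) *
      (psi s (ds x 2) (top q) * wt s (k + 1) q) * g (ds x 0) * f (bd k p, bd k q) = _
    ring
  have e2 : ∀ x : Star, ∑ p, wt s (k + 1) p * psi s (ds x 1) (top p) *
        ∑ q, wt s (k + 1) q * psi s (ds x 2) (top q) * f (bd k p, bd k q)
      = ∑ b : Bd k × Bd k, vS s k b.1 (ds x 1) * vS s k b.2 (ds x 2) * f b := by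
    intro x
    rw [h (ds x 1) fun b => ∑ q, wt s (k + 1) q * psi s (ds x 2) (top q) * f (b, bd k q),
      Fintype.sum_prod_type]
    refine sum_congr rfl fun b _ => ?_
    rw [h (ds x 2) fun c => f (b, c), mul_sum]
    exact sum_congr rfl fun c _ => by ring
  rw [e1]
  simp only [e2]
  simp only [← key, mul_sum, sum_mul]
  rw [sum_comm]
  exact sum_congr rfl fun b _ => sum_congr rfl fun x _ => by ring

lemma p1 (s : ℝ) : ∀ k, P1 s k
  | 0 => fun t f => by
    change ∑ p : Star × Unit × Unit, _ = ∑ b : Star, _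
    rw [Fintype.sum_prod_type]
    refine sum_congr rfl fun x _ => ?_
    rw [Fintype.sum_prod_type, Fintype.sum_unique, Fintype.sum_unique]
    change tau x * (1 * 1) * (1 * 1) * psi s t (ds x 0) * f x = tau x * psi s t (ds x 0) * f x
    ring
  | k + 1 => fun t f => by
    refine (step (p1 s k) (psi s t) f).trans ?_
    simp only [psi_sum]
    rfl

lemma Vm_nn {a b : Vec} (ha : 0 ≤ a) (hb : 0 ≤ b) : 0 ≤ Vm a b := by
  rintro ⟨c, o⟩
  have h1 := mul_nonneg (ha (c, false)) (hb (c, false))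
  have h2 := mul_nonneg (ha (c, false)) (hb (c, true))
  have h3 := mul_nonneg (ha (c, true)) (hb (c, false))
  have h4 := mul_nonneg (ha (c, true)) (hb (c, true))
  cases o <;> simp only [Vm, Pi.zero_apply] <;> nlinarith

lemma Am_nn {s : ℝ} (h0 : 0 ≤ s) (h1 : s ≤ 1) {h : Vec} (hh : 0 ≤ h) : 0 ≤ Am s h := fun t =>
  add_nonneg (mul_nonneg (sub_nonneg.2 h1) (div_nonneg (sum_nonneg fun u _ => hh u) (by norm_num)))
    (mul_nonneg h0 (hh _))

lemma io_io : ∀ t : T1, io1 (io1 t) = t := by decide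

lemma avg_Am (s : ℝ) (h : Vec) : avg (Am s h) = avg h := by
  have e : ∑ t, h (io1 t) = ∑ t, h t := Equiv.sum_comp (Function.Involutive.toPerm io1 io_io) h
  simp only [avg, Am, sum_add_distrib, ← mul_sum, e, sum_const, card_univ, Fintype.card_prod,
    ZMod.card, Fintype.card_bool, nsmul_eq_mul]
  push_cast
  ring

lemma Vm_smul (x y : ℝ) (a b : Vec) : Vm (x • a) (y • b) = (x * y) • Vm a b := by
  funext t
  simp only [Vm, Pi.smul_apply, smul_eq_mul]
  ring

lemma avg_smul (x : ℝ) (a : Vec) : avg (x • a) = x * avg a := by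
  simp only [avg, Pi.smul_apply, smul_eq_mul, ← mul_sum, mul_div_assoc]

lemma Am_smul (s x : ℝ) (a : Vec) : Am s (x • a) = x • Am s a := by
  funext t
  simp only [Am, avg_smul, Pi.smul_apply, smul_eq_mul]
  ring

lemma one_sum (s : ℝ) (t : T1) : ∑ u, psi s t u / 10 = 1 := by
  have := psi_sum s t 1
  simp only [Pi.one_apply, mul_one] at this
  rw [this]
  simp [Am, avg]

lemma isE {s : ℝ} (h0 : 0 ≤ s) (h1 : s ≤ 1) : ∀ k, IsE (vS s k)
  | 0 => by
    refine ⟨fun x t => mul_nonneg ?_ ?_, funext fun t => ?_⟩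
    · unfold tau
      split_ifs <;> norm_num
    · unfold psi
      split_ifs <;> linarith
    · have := key (psi s t) 1 1
      have e : ∀ u, Vm 1 1 u = 1 := fun u => by norm_num [Vm]
      simp only [Pi.one_apply, mul_one, e, one_sum] at this
      rw [Finset.sum_apply]
      exact this
  | k + 1 => by
    obtain ⟨i1, i2⟩ := isE h0 h1 k
    refine ⟨fun b => Am_nn h0 h1 (Vm_nn (i1 _) (i1 _)), funext fun t => ?_⟩
    have e : ∀ u, ∑ b, vS s k b u = 1 := fun u => by rw [← Finset.sum_apply, i2]; rfl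
    have e1 : ∀ u, ∑ b : Bd k × Bd k, Vm (vS s k b.1) (vS s k b.2) u = 1 := fun u => by
      simp only [Vm, Fintype.sum_prod_type, ← mul_sum, sum_sub_distrib, sum_add_distrib, e,
        ← sum_mul]
      norm_num
    rw [Finset.sum_apply]
    change ∑ b : Bd k × Bd k, Am s (Vm (vS s k b.1) (vS s k b.2)) t = 1
    simp only [← psi_sum]
    rw [sum_comm]
    simp only [← sum_div, ← mul_sum, e1, mul_one]
    rw [sum_div, one_sum]

lemma zero_of {a : Vec} (ha : 0 ≤ a) (h : avg a = 0) : a = 0 := by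
  funext t
  have : ∑ u, a u = 0 := by simpa [avg] using h
  exact (sum_eq_zero_iff_of_nonneg fun u _ => ha u).1 this t (mem_univ t)

lemma am_eq {s : ℝ} (h0 : 0 ≤ s) (h1 : s ≤ 1) : ∀ k p, avg (vS s k (bd k p)) ≠ 0 →
    am s k p = (avg (vS s k (bd k p)))⁻¹ • vS s k (bd k p)
  | 0, p, h => by
    have e : vS s 0 (bd 0 p) = tau p.1 • Am s (fun u => if u = top p then 10 else 0) := by
      funext t
      rw [Pi.smul_apply, ← psi_sum]
      simp only [mul_ite, mul_zero, ite_div, zero_div, sum_ite_eq', mem_univ, if_true]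
      rw [mul_div_cancel_right₀ _ (by norm_num)]
      rfl
    have e1 : avg (vS s 0 (bd 0 p)) = tau p.1 := by
      rw [e, avg_smul, avg_Am]
      simp [avg]
    rw [e1] at h ⊢
    funext t
    change psi s t (top p) = (tau p.1)⁻¹ * (tau p.1 * psi s t (top p))
    rw [inv_mul_cancel_left₀ h]
  | k + 1, p, h => by
    have e : vS s (k + 1) (bd (k + 1) p)
      = Am s (Vm (vS s k (bd k p.2.1)) (vS s k (bd k p.2.2))) := rfl
    rw [e, avg_Am] at h ⊢
    have n1 : avg (vS s k (bd k p.2.1)) ≠ 0 := fun hz => h (by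
      rw [zero_of ((isE h0 h1 k).1 _) hz]; simp [avg, Vm])
    have n2 : avg (vS s k (bd k p.2.2)) ≠ 0 := fun hz => h (by
      rw [zero_of ((isE h0 h1 k).1 _) hz]; simp [avg, Vm])
    funext t
    change Fm s (am s k p.2.1) (am s k p.2.2) t = _
    rw [am_eq h0 h1 k _ n1, am_eq h0 h1 k _ n2, Fm, Vm_smul, Am_smul, avg_smul]
    simp only [Pi.smul_apply, smul_eq_mul]
    field_simp

end CSP

open CSP

theorem st_SP : St_SP := by
  intro s k
  refine ⟨p1 s k, fun t f => ?_, fun h0 h1 => ⟨isE h0 h1 k, fun p hp => ?_⟩⟩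
  · refine (step (p1 s k) (fun u => ind (u = t)) f).trans (sum_congr rfl fun b _ => ?_)
    rw [sum_eq_single t (fun u _ hu => by simp [ind, hu]) (by simp)]
    simp [ind]
  · rw [am_eq h0 h1 k p hp]
    funext t
    simp only [nz, Pi.sub_apply, Pi.smul_apply, smul_eq_mul, Pi.one_apply, div_eq_inv_mul]

end Pool.Agent.Lib.PT5
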