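import Pool.Agent.Lib.PT5.CDefs

/-! One step of messages. -/

namespace Pool.Agent.Lib.PT5

open Finset Real RC5

namespace CSTEP

lemma io_io : ∀ t : T1, io1 (io1 t) = t := by decide

lemma sum_io (h : Vec) : ∑ t, h (io1 t) = ∑ t, h t :=
  (Function.Involutive.bijective io_io).sum_comp h

lemma g1_bij : ∀ g : D5, Function.Bijective (g1 g) := by decide

lemma g1_tr : ∀ t t' : T1, ∃ g : D5, g1 g t = t' := by decide

lemma io_g1 : ∀ (g : D5) (t : T1), g1 g (io1 t) = io1 (g1 g t) := by decide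

lemma sumT (h : Vec) : ∑ t, h t = ∑ c : ZMod 5, (h (c, true) + h (c, false)) := by
  rw [Fintype.sum_prod_type]
  exact Finset.sum_congr rfl fun c _ => Fintype.sum_bool _

lemma sum_c (c : ℝ) : ∑ _t : T1, c = 10 * c := by
  rw [Finset.sum_const, Finset.card_univ, show Fintype.card T1 = 10 by decide, nsmul_eq_mul]
  norm_num

lemma Vm_g (g : D5) (a b : Vec) : Vm (a ∘ g1 g) (b ∘ g1 g) = Vm a b ∘ g1 g := by
  funext t
  obtain ⟨c, r⟩ := g
  cases r <;> simp [Vm, g1] <;> ring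

lemma avg_g (g : D5) (h : Vec) : avg (h ∘ g1 g) = avg h := by
  unfold avg
  rw [← (g1_bij g).sum_comp h]; rfl

lemma sum_Vl (x : Vec) : ∑ t, Vm x 1 t = ∑ t, x t := by
  rw [sumT, sumT x]
  refine Finset.sum_congr rfl fun c _ => ?_
  simp only [Vm, Pi.one_apply]; ring

lemma sum_L1 (x : Vec) : ∑ t, L1 x t = ∑ t, x t := (sum_io (Vm x 1)).trans (sum_Vl x)

lemma Vm_exp (a b : Vec) (t : T1) :
    Vm a b t = 1 + Vm (a - 1) 1 t + Vm (b - 1) 1 t + Vm (a - 1) (b - 1) t := by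
  simp only [Vm, Pi.one_apply, Pi.sub_apply]; ring

lemma Vm_ge {a b : Vec} {m : ℝ} (hm : 0 ≤ m) (ha : ∀ t, m ≤ a t) (hb : ∀ t, m ≤ b t) (t : T1) :
    m ^ 2 ≤ Vm a b t := by
  have h : ∀ u v, m ^ 2 ≤ a u * b v := fun u v => by
    rw [sq]; exact mul_le_mul (ha u) (hb v) hm (hm.trans (ha u))
  obtain ⟨c, o⟩ := t
  have h1 := h (c, false) (c, false)
  have h2 := h (c, false) (c, true)
  have h3 := h (c, true) (c, false)
  have h4 := h (c, true) (c, true)
  cases o <;> simp only [Vm] <;> nlinarith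

lemma Vm_abs {x y : Vec} {p q : ℝ} (hx : ∀ t, |x t| ≤ p) (hy : ∀ t, |y t| ≤ q) (t : T1) :
    |Vm x y t| ≤ 2 * (p * q) := by
  have h : ∀ u v, |x u * y v| ≤ p * q := fun u v => by
    rw [abs_mul]; exact mul_le_mul (hx u) (hy v) (abs_nonneg _) ((abs_nonneg _).trans (hx u))
  obtain ⟨c, o⟩ := t
  have h1 := abs_le.mp (h (c, false) (c, false))
  have h2 := abs_le.mp (h (c, false) (c, true))
  have h3 := abs_le.mp (h (c, true) (c, false))
  have h4 := abs_le.mp (h (c, true) (c, true))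
  rw [abs_le]
  cases o <;> simp only [Vm] <;> constructor <;> nlinarith

lemma avg_abs {h : Vec} {c : ℝ} (hh : ∀ t, |h t| ≤ c) : |avg h| ≤ c := by
  have h1 : |∑ t, h t| ≤ 10 * c := by
    rw [← sum_c]
    exact (Finset.abs_sum_le_sum_abs _ _).trans (Finset.sum_le_sum fun t _ => hh t)
  unfold avg
  rw [abs_div, abs_of_pos (by norm_num : (0 : ℝ) < 10)]
  linarith

lemma avg_ge {h : Vec} {c : ℝ} (hh : ∀ t, c ≤ h t) : c ≤ avg h := by
  have h1 : 10 * c ≤ ∑ t, h t := by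
    rw [← sum_c]; exact Finset.sum_le_sum fun t _ => hh t
  unfold avg
  linarith

lemma abs_le_sq (x : Vec) (t : T1) : |x t| ≤ √(sq2 x) :=
  Real.abs_le_sqrt (Finset.single_le_sum (f := fun t => x t ^ 2) (fun _ _ => sq_nonneg _)
    (Finset.mem_univ t))

lemma sq2_nn (x : Vec) : 0 ≤ sq2 x := Finset.sum_nonneg fun _ _ => sq_nonneg _

lemma ms_psi (s : ℝ) (hs : 0 ≤ s) (b : T1) : Ms s fun t => psi s t b := by
  refine ⟨fun t => ?_, ?_⟩
  · simp only [psi]; split_ifs <;> linarith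
  · have h : ∀ t, psi s t b = 1 - s + if t = io1 b then 10 * s else 0 := fun t => by
      unfold psi
      congr 1
      exact if_congr ⟨fun h => by rw [h, io_io], fun h => by rw [h, io_io]⟩ rfl rfl
    simp only [avg, h]
    rw [Finset.sum_add_distrib, sum_c, Finset.sum_ite_eq', if_pos (Finset.mem_univ _)]
    ring

lemma ms_sum {s : ℝ} {a : Vec} (h : Ms s a) : ∑ t, a t = 10 := by
  have := h.2
  unfold avg at this
  linarith

lemma ms_bd {s : ℝ} {a : Vec} (h1 : s ≤ 1) (h : Ms s a) :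
    sq2 (a - 1) ≤ 90 ∧ ∑ t, (a - 1) t = 0 := by
  have h0 : ∀ t, 0 ≤ a t := fun t => by linarith [h.1 t]
  have hs := ms_sum h
  constructor
  · have h2 : sq2 (a - 1) ≤ ∑ t, (8 * a t + 1) := by
      refine Finset.sum_le_sum fun t _ => ?_
      have h3 : a t ≤ ∑ t, a t := Finset.single_le_sum (fun t _ => h0 t) (Finset.mem_univ t)
      have := h0 t
      simp only [Pi.sub_apply, Pi.one_apply]
      nlinarith
    rw [Finset.sum_add_distrib, ← Finset.mul_sum, hs, sum_c] at h2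
    linarith
  · simp only [Pi.sub_apply, Pi.one_apply]
    rw [Finset.sum_sub_distrib, hs, sum_c]; ring

lemma Fm_eq (s : ℝ) {a b : Vec} (hz : avg (Vm a b) ≠ 0) (t : T1) :
    Fm s a b t = 1 - s + s * (Vm a b (io1 t) / avg (Vm a b)) := by
  simp only [Fm, Am]; field_simp

lemma step {s1 s : ℝ} {a b : Vec} (h1 : s1 < 1) (h0 : 0 ≤ s) (hs : s ≤ s1) (ha : Ms s a)
    (hb : Ms s b) : Ms s (Fm s a b) ∧ (1 - s1) ^ 2 ≤ avg (Vm a b) ∧
      sq2 (Rm s a b) ≤ 10 * (84 / (1 - s1) ^ 2) ^ 2 * (sq2 (a - 1) * sq2 (b - 1)) := by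
  have hm : 0 < 1 - s1 := by linarith
  have hV := Vm_ge (a := a) (b := b) hm.le (fun t => by linarith [ha.1 t])
    (fun t => by linarith [hb.1 t])
  have hZ := avg_ge hV
  have hm2 : 0 < (1 - s1) ^ 2 := by positivity
  have hZ0 : 0 < avg (Vm a b) := hm2.trans_le hZ
  obtain ⟨a1, a2⟩ := ms_bd (by linarith) ha
  obtain ⟨b1, b2⟩ := ms_bd (by linarith) hb
  refine ⟨⟨fun t => ?_, ?_⟩, hZ, ?_⟩
  · rw [Fm_eq s hZ0.ne']
    have := mul_nonneg h0 (div_nonneg (hm2.le.trans (hV (io1 t))) hZ0.le)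
    linarith
  · have h2 : ∑ t, Vm a b t = 10 * avg (Vm a b) := by unfold avg; ring
    have h3 : ∑ t, Fm s a b t = 10 := by
      simp only [Fm_eq s hZ0.ne']
      rw [Finset.sum_add_distrib, sum_c, ← Finset.mul_sum, ← Finset.sum_div, sum_io, h2]
      field_simp; ring
    unfold avg; rw [h3]; norm_num
  · set x := a - 1 with hx
    set y := b - 1 with hy
    have hZ1 : avg (Vm a b) = 1 + avg (Vm x y) := by
      unfold avg
      rw [Finset.sum_congr rfl fun t _ => Vm_exp a b t]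
      rw [Finset.sum_add_distrib, Finset.sum_add_distrib, Finset.sum_add_distrib, sum_c, sum_Vl,
        sum_Vl, a2, b2]
      ring
    have p0 := Real.sqrt_nonneg (sq2 x)
    have q0 := Real.sqrt_nonneg (sq2 y)
    have p1 : √(sq2 x) ≤ 10 := Real.sqrt_le_iff.mpr ⟨by norm_num, by linarith⟩
    have q1 : √(sq2 y) ≤ 10 := Real.sqrt_le_iff.mpr ⟨by norm_num, by linarith⟩
    have hxy := Vm_abs (abs_le_sq x) (abs_le_sq y)
    have hbb := avg_abs hxy
    have o1 : ∀ t : T1, |(1 : Vec) t| ≤ 1 := fun t => by simp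
    have hx1 := Vm_abs (abs_le_sq x) o1
    have hy1 := Vm_abs (abs_le_sq y) o1
    set w := √(sq2 x) * √(sq2 y) with hw
    have w0 : 0 ≤ w := mul_nonneg p0 q0
    have key : ∀ t, |Rm s a b t| ≤ 84 / (1 - s1) ^ 2 * w := fun t => by
      have e : Rm s a b t = s / avg (Vm a b) * (Vm x y (io1 t) - avg (Vm x y)
          - avg (Vm x y) * (Vm x 1 (io1 t) + Vm y 1 (io1 t))) := by
        simp only [Rm, Pi.sub_apply, Pi.smul_apply, Pi.one_apply, smul_eq_mul, L1]
        rw [Fm_eq s hZ0.ne', Vm_exp a b, ← hx, ← hy]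
        have hne := hZ0.ne'
        field_simp
        rw [hZ1]; ring
      have e1 : |Vm x 1 (io1 t) + Vm y 1 (io1 t)| ≤ 40 :=
        (abs_add_le _ _).trans (by linarith [hx1 (io1 t), hy1 (io1 t)])
      have e2 : |avg (Vm x y) * (Vm x 1 (io1 t) + Vm y 1 (io1 t))| ≤ 2 * w * 40 := by
        rw [abs_mul]; exact mul_le_mul hbb e1 (abs_nonneg _) (by linarith)
      have e3 : |Vm x y (io1 t) - avg (Vm x y)
          - avg (Vm x y) * (Vm x 1 (io1 t) + Vm y 1 (io1 t))| ≤ 84 * w := by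
        have := abs_le.mp e2
        have := abs_le.mp hbb
        have := abs_le.mp (hxy (io1 t))
        rw [abs_le]; constructor <;> linarith
      have e4 : s / avg (Vm a b) ≤ 1 / (1 - s1) ^ 2 :=
        div_le_div₀ zero_le_one (by linarith) hm2 hZ
      rw [e, abs_mul, abs_of_nonneg (div_nonneg h0 hZ0.le)]
      refine (mul_le_mul e4 e3 (abs_nonneg _) (by positivity)).trans_eq ?_
      ring
    have h4 : sq2 (Rm s a b) ≤ ∑ _t : T1, (84 / (1 - s1) ^ 2 * w) ^ 2 :=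
      Finset.sum_le_sum fun t _ => sq_le_sq' (abs_le.mp (key t)).1 (abs_le.mp (key t)).2
    rw [sum_c, mul_pow, hw, mul_pow, Real.sq_sqrt (sq2_nn x), Real.sq_sqrt (sq2_nn y)] at h4
    linarith

end CSTEP

open CSTEP in
theorem st_STEP : St_STEP := by
  refine ⟨fun x y => ?_, fun a x => ?_, sum_L1, fun s g a b => ?_, fun g x => ?_, g1_tr, g1_bij,
    ms_psi, fun s a _ h1 h => ms_bd h1 h, fun s1 h1 =>
      ⟨10 * (84 / (1 - s1) ^ 2) ^ 2, by positivity, fun s a b h0 hs ha hb => step h1 h0 hs ha hb⟩⟩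
  · funext t
    simp only [L1, Vm, Pi.add_apply, Pi.one_apply]; ring
  · funext t
    simp only [L1, Vm, Pi.smul_apply, Pi.one_apply, smul_eq_mul]; ring
  · funext t
    simp only [Fm, Am, Vm_g, avg_g, Function.comp_apply, io_g1]
  · funext t
    have := congrFun (Vm_g g x 1) (io1 t)
    simp only [L1, Function.comp_apply, ← io_g1]
    exact this

end Pool.Agent.Lib.PT5
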