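import Pool.Agent.Lib.PT5.AAll1
import Pool.Agent.Lib.PT5.C_LIN
import Pool.Agent.Lib.PT5.C_SP
import Pool.Agent.Lib.PT5.C_STEP
import Pool.Agent.Lib.PT5.A_ANN
import Pool.Agent.Lib.PT5.A_C1
import Pool.Agent.Lib.PT5.A_CLOSE
import Pool.Agent.Lib.PT5.A_CONT
import Pool.Agent.Lib.PT5.A_DLR
import Pool.Agent.Lib.PT5.A_DUH
import Pool.Agent.Lib.PT5.A_EDG1
import Pool.Agent.Lib.PT5.A_EDG2
import Pool.Agent.Lib.PT5.A_EIP
import Pool.Agent.Lib.PT5.A_EQ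
import Pool.Agent.Lib.PT5.A_EQS
import Pool.Agent.Lib.PT5.A_EW
import Pool.Agent.Lib.PT5.A_FLD
import Pool.Agent.Lib.PT5.A_FN
import Pool.Agent.Lib.PT5.A_KER
import Pool.Agent.Lib.PT5.A_KNAT
import Pool.Agent.Lib.PT5.A_PAT
import Pool.Agent.Lib.PT5.A_PATW
import Pool.Agent.Lib.PT5.A_PROC
import Pool.Agent.Lib.PT5.A_PTW
import Pool.Agent.Lib.PT5.A_QCL
import Pool.Agent.Lib.PT5.A_R4
import Pool.Agent.Lib.PT5.A_RATIO
import Pool.Agent.Lib.PT5.A_REM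
import Pool.Agent.Lib.PT5.A_RNR
import Pool.Agent.Lib.PT5.A_ROUND
import Pool.Agent.Lib.PT5.A_SCH
import Pool.Agent.Lib.PT5.A_SEQ
import Pool.Agent.Lib.PT5.A_START92
import Pool.Agent.Lib.PT5.A_WLOC

/-! Assembly: without reconstruction the tree measure is a limit of local processes. -/

namespace Pool.Agent.Lib.PT5

theorem all_EIP : St_EIP := st_EIP all_EI st_EW st_ENT

theorem all_C1 : St_C1 := st_C1 all_EIP st_ENT st_STEP

theorem all_PATW : St_PATW := st_PATW st_SP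

theorem all_CLOSE : St_CLOSE := st_CLOSE all_EIP all_C1 all_PATW st_ENT

theorem all_EQ : St_EQ :=
  st_EQ (st_ROUND (st_FN st_KNAT st_STEP) st_PROC (st_SEQ (st_KER st_KNAT st_ENT) st_KNAT) st_KNAT
    st_ENT) all_C1 st_KNAT

theorem all_FLD : St_FLD := st_FLD st_STEP

theorem all_DLR : St_DLR :=
  st_DLR (st_RATIO st_PAT st_WLOC all_PATW st_KNAT) (st_EDG1 st_STEP) (st_EDG2 st_SP) all_FLD
    all_PATW

theorem all_RNR : St_RNR :=
  st_RNR st_LIN (st_PTW st_STEP) (st_DUH all_BSV st_LIN st_STEP)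
    (st_REM st_LIN (st_PTW st_STEP) st_R4 all_XB all_ITER st_NUM)

theorem ann_of_NR (h : St_NR) : St_ANN :=
  st_ANN (st_EQS h all_RNR all_FLD (st_QCL st_SP st_STEP all_FLD) all_CLOSE all_EQ all_DLR)
    (st_SCH st_EW) st_START92 st_CONT all_CLOSE

end Pool.Agent.Lib.PT5
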