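import Pool.Agent.Lib.PT5.ADefs

/-! Decay of correlations. -/

namespace Pool.Agent.Lib.PT5

open Finset Real RC5

theorem st_BSV (hG : St_GOOD) (hL : St_LOP) (hM : St_MART) : St_BSV := by
  intro A y k hy h0
  have hF : Loc fun x => ∑ l ∈ words k, at_ tm y (des tm d0 l) x :=
    Loc.sum _ fun l _ => hy.at_ _ _
  obtain ⟨r2, h2⟩ := hy.ball
  obtain ⟨r3, h3⟩ := hF.ball
  obtain ⟨r1, h1⟩ := hL (Ball r2) k
  obtain ⟨n0, hn⟩ := hG.2 (r1 + r2 + r3) 1 le_rfl
  obtain ⟨m, hm, hi, -⟩ := hn (2 * (n0 + 1)) (by omega) (even_two_mul _)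
  obtain ⟨D, d1, d2, d3⟩ := hM A (HE (2 * (n0 + 1)))
  have hv := invo_of_isM hm
  have y0 : ∀ e, mn A (at_ m y e) = 0 := fun e => (mn_at h2 (hi.mono (by omega)) e).trans h0
  have y2 : ∀ e, ∑ a, mn A (fun x => D a (at_ m y e) x ^ 2) = mn A fun x => y x ^ 2 := fun e => by
    have := d1 (at_ m y e)
    rw [y0, zero_pow two_ne_zero, zero_add] at this
    exact this.symm.trans (mn_at (h2.map (· ^ 2)) (hi.mono (by omega)) e)
  have f2 : ∀ d, mn A (fun x => (∑ l ∈ words k, at_ tm y (des tm d0 l) x) ^ 2) =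
      ∑ a, mn A fun x => (∑ l ∈ words k, D a (at_ m y (des m d l)) x) ^ 2 := fun d => by
    have := d1 fun x => ∑ l ∈ words k, at_ m y (des m d l) x
    rw [mn_sum _ fun l _ => Loc.of_fintype _, sum_eq_zero fun l _ => y0 _, zero_pow two_ne_zero,
      zero_add] at this
    simp only [d2] at this
    rw [← this, ← mn_at (h3.map (· ^ 2)) (hi.mono (by omega)) d]
    refine congrArg _ (funext fun x => congrArg (· ^ 2) (sum_congr rfl fun l _ => ?_))
    have := congrFun (at_at hv y (des tm d0 l) d) x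
    rw [cov_des hv, cov_d0] at this
    exact this
  have key : ∑ d : HE (2 * (n0 + 1)),
      mn A (fun x => (∑ l ∈ words k, at_ tm y (des tm d0 l) x) ^ 2) ≤
      ∑ d : HE (2 * (n0 + 1)), 4 * ((k : ℝ) + 1) ^ 2 * 2 ^ k * mn A fun x => y x ^ 2 := by
    rw [sum_congr rfl fun d _ => f2 d, sum_comm, ← mul_sum, ← sum_congr rfl fun e _ => y2 e,
      sum_comm (f := fun e a => mn A fun x => D a (at_ m y e) x ^ 2), mul_sum]
    refine sum_le_sum fun a _ => ?_
    rw [← mn_sum _ fun _ _ => Loc.of_fintype _, ← mn_sum _ fun _ _ => Loc.of_fintype _,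
      ← mn_mul (Loc.of_fintype _)]
    exact mn_mono (Loc.of_fintype _) (Loc.of_fintype _) fun x =>
      h1 _ m hm (hi.mono (by omega)) a (fun e => D a (at_ m y e) x) fun e he =>
        d3 _ _ a x (h2.at_ m e) he
  rw [sum_const, sum_const, nsmul_eq_mul, nsmul_eq_mul] at key
  exact le_of_mul_le_mul_left key (by simp; positivity)

end Pool.Agent.Lib.PT5
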