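import Pool.Agent.Lib.PT5.ADefs

/-! Matchings with prescribed types. -/

namespace Pool.Agent.Lib.PT5

open Finset RC5

namespace ACNT

variable {α T : Type} [Fintype α] [DecidableEq α] [Fintype T] (ty : α → T) (ι : T → T)

/-- involutions that move exactly the points of `S` and respect the types -/
noncomputable def CS (S : Finset α) : Finset (α → α) :=
  sel univ fun m => ∀ h, m (m h) = h ∧ (m h ≠ h ↔ h ∈ S) ∧ (h ∈ S → ty (m h) = ι (ty h))

/-- number of points of `S` of type `t` -/
noncomputable def NS (S : Finset α) (t : T) : ℕ := (sel S fun h => ty h = t).card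

theorem fibre (S : Finset α) (a b : α) :
    ((CS ty ι S).filter fun m => m a = b).card ≤ (CS ty ι ((S.erase a).erase b)).card := by
  refine card_le_card_of_injOn (fun m h => if h = a ∨ h = b then h else m h) ?_ ?_
  · intro m hm
    simp only [CS, coe_filter, mem_sel, mem_univ, true_and, Set.mem_ofPred_eq, mem_coe] at hm ⊢
    obtain ⟨h1, h2⟩ := hm
    have h3 : m b = a := by rw [← h2, (h1 a).1]
    intro h
    by_cases hh : h = a ∨ h = b
    · simp only [if_pos hh, mem_erase]
      tauto
    · have h4 : ¬(m h = a ∨ m h = b) := by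
        rintro (e | e)
        · exact hh (Or.inr (by rw [← (h1 h).1, e, h2]))
        · exact hh (Or.inl (by rw [← (h1 h).1, e, h3]))
      simp only [if_neg hh, if_neg h4, mem_erase, (h1 h).1, (h1 h).2.1]
      have := (h1 h).2.2
      tauto
  · intro m hm m' hm' e
    simp only [CS, coe_filter, mem_sel, mem_univ, true_and, Set.mem_ofPred_eq] at hm hm'
    funext h
    by_cases ha : h = a
    · rw [ha, hm.2, hm'.2]
    · by_cases hb : h = b
      · rw [hb]
        conv_lhs => rw [← hm.2, (hm.1 a).1]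
        rw [← hm'.2, (hm'.1 a).1]
      · simpa [ha, hb] using congrFun e h

theorem prod_erase {S : Finset α} {a : α} (ha : a ∈ S) :
    ∏ t, (NS ty S t).factorial = NS ty S (ty a) * ∏ t, (NS ty (S.erase a) t).factorial := by
  classical
  have h1 : NS ty S (ty a) = NS ty (S.erase a) (ty a) + 1 := by
    unfold NS
    rw [← card_insert_of_notMem (a := a) (by simp [mem_sel])]
    congr 1
    ext h
    simp only [mem_sel, mem_insert, mem_erase]
    constructor
    · intro hh
      by_cases e : h = a
      · exact Or.inl e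
      · exact Or.inr ⟨⟨e, hh.1⟩, hh.2⟩
    · rintro (e | e)
      · rw [e]; exact ⟨ha, rfl⟩
      · exact ⟨e.1.2, e.2⟩
  have h2 : ∀ t ∈ univ.erase (ty a), (NS ty S t).factorial = (NS ty (S.erase a) t).factorial := by
    intro t ht
    unfold NS
    congr 2
    ext h
    simp only [mem_sel, mem_erase]
    exact ⟨fun hh => ⟨⟨fun e => (mem_erase.1 ht).1 (by rw [← hh.2, e]), hh.1⟩, hh.2⟩,
      fun hh => ⟨hh.1.2, hh.2⟩⟩
  rw [← mul_prod_erase univ _ (mem_univ (ty a)), ← mul_prod_erase univ
    (fun t => (NS ty (S.erase a) t).factorial) (mem_univ (ty a)), prod_congr rfl h2, h1,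
    Nat.factorial_succ, mul_assoc]

theorem main (hι : ∀ t, ι (ι t) = t) (k : ℕ) :
    ∀ S : Finset α, S.card = k → (CS ty ι S).card ^ 2 ≤ ∏ t, (NS ty S t).factorial := by
  induction k using Nat.strong_induction_on with
  | _ k ih =>
    intro S hS
    rcases S.eq_empty_or_nonempty with rfl | ⟨a, ha⟩
    · have h1 : (CS ty ι ∅).card ≤ 1 := by
        refine card_le_one.2 fun m hm m' hm' => funext fun h => ?_
        simp only [CS, mem_sel, mem_univ, true_and, notMem_empty, iff_false, not_not] at hm hm'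
        rw [(hm h).2.1, (hm' h).2.1]
      exact (pow_le_one₀ (Nat.zero_le _) h1).trans
        (one_le_prod' fun t _ => Nat.factorial_pos _)
    rcases (CS ty ι S).eq_empty_or_nonempty with h0 | ⟨m0, hm0⟩
    · rw [h0]; simp
    have hin : ∀ m ∈ CS ty ι S, ∀ h ∈ S, m h ∈ S ∧ m h ≠ h ∧ ty (m h) = ι (ty h) := by
      intro m hm h hh
      simp only [CS, mem_sel, mem_univ, true_and] at hm
      have h2 := (hm h).2.1.2 hh
      exact ⟨(hm (m h)).2.1.1 (by rw [(hm h).1]; exact h2.symm), h2, (hm h).2.2 hh⟩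
    let B := sel (S.erase a) fun h => ty h = ι (ty a)
    have hB : ∀ m ∈ CS ty ι S, m a ∈ B := fun m hm =>
      mem_sel.2 ⟨mem_erase.2 ⟨(hin m hm a ha).2.1, (hin m hm a ha).1⟩, (hin m hm a ha).2.2⟩
    obtain ⟨b, hb, hmax⟩ := exists_max_image B
      (fun b => (CS ty ι ((S.erase a).erase b)).card) ⟨_, hB m0 hm0⟩
    have h1 : (CS ty ι S).card ≤ (CS ty ι ((S.erase a).erase b)).card * B.card :=
      card_le_mul_card_image_of_maps_to (f := fun m : α → α => m a) hB _
        fun c hc => (fibre ty ι S a c).trans (hmax c hc)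
    obtain ⟨hb1, hb2⟩ := mem_sel.1 hb
    have h2 := ih _ (by
      rw [card_erase_of_mem hb1, card_erase_of_mem ha, hS]
      have := card_pos.2 ⟨a, ha⟩
      omega) ((S.erase a).erase b) rfl
    have h3 : B.card ≤ NS ty S (ty a) := by
      refine card_le_card_of_injOn m0 (fun c hc => ?_) fun c _ c' _ e => ?_
      · obtain ⟨c1, c2⟩ := mem_sel.1 hc
        have := hin m0 hm0 c (mem_of_mem_erase c1)
        exact mem_sel.2 ⟨this.1, by rw [this.2.2, c2, hι]⟩
      · simp only [CS, mem_sel, mem_univ, true_and] at hm0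
        rw [← (hm0 c).1, e, (hm0 c').1]
    have h4 : NS ty (S.erase a) (ty b) = B.card := by rw [hb2]; rfl
    rw [prod_erase ty ha, prod_erase ty hb1, h4]
    calc (CS ty ι S).card ^ 2 ≤ ((CS ty ι ((S.erase a).erase b)).card * B.card) ^ 2 :=
          Nat.pow_le_pow_left h1 2
      _ = B.card * (B.card * (CS ty ι ((S.erase a).erase b)).card ^ 2) := by ring
      _ ≤ _ := by gcongr

end ACNT

theorem st_CNT : St_CNT := by
  intro α T _ _ _ ty ι hι
  refine le_trans (Nat.pow_le_pow_left (card_le_card fun m hm => ?_) 2)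
    (ACNT.main ty ι hι _ univ rfl)
  simp only [Comp, Om, ACNT.CS, mem_sel, mem_univ, true_and, iff_true, true_imp_iff] at hm ⊢
  exact fun h => ⟨(hm.1 h).1, (hm.1 h).2, hm.2 h⟩

end Pool.Agent.Lib.PT5
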