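import Pool.Agent.Lib.PT5.ADefs

/-! Cores of local events. -/

namespace Pool.Agent.Lib.PT5

open Finset Real RC5

namespace ACORE

variable {A : LS} {n : ℕ} {m : HE n → HE n}

/-- the darts that see an event -/
noncomputable def sn (m : HE n → HE n) (F : (TD → A.L) → Prop) (x : HE n → A.L) : Finset (HE n) :=
  sel univ fun d => at_ m F d x

theorem card_sn (F : (TD → A.L) → Prop) (x : HE n → A.L) :
    ((sn m F x).card : ℝ) = ∑ d, at_ m (fun y => ind (F y)) d x := by
  rw [sn, sel, card_filter]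
  push_cast
  rfl

theorem mn_sn {F : (TD → A.L) → Prop} {r : ℕ} (h : Dep F (Ball r)) (hm : Inj m r) :
    mn A (fun x => ((sn m F x).card : ℝ)) = 3 * n * pr A F := by
  simp only [card_sn]
  rw [mn_sum univ fun _ _ => Loc.of_fintype _, sum_congr rfl fun d _ => mn_at (h.map ind) hm d]
  simp only [sum_const, card_univ, Fintype.card_prod, Fintype.card_fin, nsmul_eq_mul, pr]
  push_cast
  ring

theorem num {k : ℕ} (hk : 1 ≤ k) : 6 * (1 + 2 * k : ℝ) * ((1 / 256000) ^ 8 / 18) ^ k ≤
    (1 / 256000) ^ (2 * (1 + 3 * k)) := by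
  have h1 : (1 : ℝ) ≤ k := by exact_mod_cast hk
  have h2 := one_add_mul_le_pow (a := (17 : ℝ)) (by norm_num) k
  rw [div_pow, ← pow_mul, mul_div_left_comm]
  refine (mul_le_of_le_one_right (by positivity) ?_).trans
    (pow_le_pow_of_le_one (by norm_num) (by norm_num) (by omega))
  rw [div_le_one (by positivity)]
  norm_num at h2 ⊢
  linarith

end ACORE

open ACORE in
theorem st_CORE (hVAR : St_VAR) (hGOOD : St_GOOD) (hCORED : St_CORED) : St_CORE := by
  refine ⟨(1 / 256000) ^ 8 / 18, by positivity, fun k hk A E E' X lE lE' lX hE hp hw => ?_⟩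
  obtain ⟨r1, d1⟩ := lE.ball
  obtain ⟨r2, d2⟩ := lE'.ball
  obtain ⟨r3, d3⟩ := lX.ball
  obtain ⟨r4, C, hC⟩ := hVAR A _ (lE.map ind)
  obtain ⟨n0, hn0⟩ := hGOOD.2 (r1 + r2 + r3 + r4) (2 * (1 + 3 * k)) (by omega)
  set al : ℝ := (1 / 256000) ^ (2 * (1 + 3 * k)) with hal
  have al0 : 0 < al := by positivity
  have k0 : (0 : ℝ) < 1 + 2 * k := by positivity
  set β : ℝ := al / (2 * (1 + 2 * k)) with hβ
  have β0 : 0 < β := by positivity
  have hpβ : 3 * pr A E ≤ β := by
    have h1 := pr_mono lE lE' hE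
    have h2 := pr_nonneg X
    have h3 := num hk
    rw [hβ, le_div_iff₀ (by positivity)]
    nlinarith
  refine le_of_forall_pos_le_add fun ε hε => ?_
  obtain ⟨N, hN⟩ := exists_nat_ge (C / (β ^ 2 * ε))
  set n := 2 * (n0 + N + 1) with hn
  obtain ⟨m, hm, hI, hS⟩ := hn0 n (by omega) (even_two_mul _)
  have n0' : (0 : ℝ) < n := by exact_mod_cast (by omega : 0 < n)
  have nN : (N : ℝ) ≤ n := by exact_mod_cast (by omega : N ≤ n)
  have key : ∀ x : HE n → A.L, ((sn m E x).card : ℝ) ≤
      12 * (1 + 3 * k) * ((sn m X x).card + (sn m E' x).card - (sn m E x).card) +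
        3 / (n * β ^ 2) * (∑ d, at_ m (fun y => ind (E y)) d x - 3 * n * pr A E) ^ 2 := fun x => by
    have hsub : sn m E x ⊆ sn m E' x := fun d hd =>
      mem_sel.2 ⟨mem_univ _, hE _ (mem_sel.1 hd).2⟩
    have hc : (((sn m E' x \ sn m E x).card : ℕ) : ℝ) + (sn m E x).card = (sn m E' x).card := by
      exact_mod_cast card_sdiff_add_card_eq_card hsub
    rw [← card_sn, add_sub_assoc, ← eq_sub_of_add_eq hc]
    by_cases h : (((1 + 2 * k) * (sn m E x).card : ℕ) : ℝ) ≤ al * n
    · refine le_add_of_le_of_nonneg ?_ (by positivity)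
      have := hCORED n k m _ _ (sn m E' x) (sn m X x) hk hm hS h fun f hf b => by
        obtain ⟨w, w1, w2⟩ := hw _ (mem_sel.1 hf).2 b
        have e : ∀ F : (TD → A.L) → Prop, at_ tm F (des tm d0 (b :: w)) (x ∘ cov m f) →
            des m f (b :: w) ∈ sn m F x := fun F hF => mem_sel.2 ⟨mem_univ _, by
          have := congrFun (at_at (invo_of_isM hm) F (des tm d0 (b :: w)) f) x
          rw [cov_des (invo_of_isM hm), cov_d0] at this
          exact this ▸ hF⟩
        exact ⟨w, w1, w2.imp (e _) (e _)⟩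
      exact_mod_cast this
    · refine le_add_of_nonneg_of_le (by positivity) ?_
      have h1 : ((sn m E x).card : ℝ) ≤ 3 * n := by
        have := card_le_univ (sn m E x)
        rw [Fintype.card_prod, Fintype.card_fin, Fintype.card_fin, mul_comm] at this
        exact_mod_cast this
      have h2 : 2 * β * n ≤ (sn m E x).card := by
        push_cast at h
        rw [← mul_le_mul_iff_right₀ k0]
        exact le_of_eq_of_le (by rw [hβ]; field_simp) (not_le.1 h).le
      have h3 : β * n ≤ (sn m E x).card - 3 * n * pr A E := by nlinarith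
      refine h1.trans (le_of_eq_of_le ?_ (mul_le_mul_of_nonneg_left
        (pow_le_pow_left₀ (by positivity) h3 2) (by positivity)))
      field_simp
  have l : ∀ f : (HE n → A.L) → ℝ, Loc f := fun f => Loc.of_fintype f
  have h1 := mn_mono (l _) (l _) key
  rw [mn_add (l _) (l _), mn_mul (l _), mn_mul (l _), mn_sub (l _) (l _), mn_add (l _) (l _),
    mn_sn d1 (hI.mono (by omega)), mn_sn d2 (hI.mono (by omega)),
    mn_sn d3 (hI.mono (by omega))] at h1
  have h2 := mul_le_mul_of_nonneg_left (hC n m hm (hI.mono (by omega)))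
    (show 0 ≤ 3 / (n * β ^ 2) by positivity)
  have h3 : 3 / (n * β ^ 2) * (C * n) ≤ 3 * n * ε := by
    have := (div_le_iff₀ (by positivity)).1 (hN.trans nN)
    rw [div_mul_eq_mul_div, div_le_iff₀ (by positivity)]
    nlinarith
  refine le_of_mul_le_mul_left ?_ (show (0 : ℝ) < 3 * n by positivity)
  have h4 := h1.trans (add_le_add_right (h2.trans h3) _)
  linarith

end Pool.Agent.Lib.PT5
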