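import Pool.Agent.Lib.PT5.ADefs

/-! The entropy inequality. -/

namespace Pool.Agent.Lib.PT5

open Finset Real RC5

namespace AEI

theorem pick {α : Type} {S G : Finset α} {Z : α → ℝ} {c K : ℝ} (hG : G ⊆ S) (hZ : ∀ a, 0 ≤ Z a)
    (hS : 0 < S.card) (hc : 0 < c) (h1 : c * S.card ≤ G.card) (h2 : ∑ a ∈ S, Z a ≤ K * S.card) :
    ∃ a ∈ G, c * Z a ≤ K := by
  have h0 : (0 : ℝ) < S.card := Nat.cast_pos.mpr hS
  have hK : 0 ≤ K := nonneg_of_mul_nonneg_left ((sum_nonneg fun a _ => hZ a).trans h2) h0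
  refine exists_le_of_sum_le (f := fun a => c * Z a) (g := fun _ => K)
    (card_pos.mp (Nat.cast_pos.mp ((mul_pos hc h0).trans_le h1))) ?_
  have h3 := (sum_le_sum_of_subset_of_nonneg hG fun a _ _ => hZ a).trans h2
  rw [← mul_sum, sum_const, nsmul_eq_mul]
  calc c * ∑ a ∈ G, Z a ≤ c * (K * S.card) := mul_le_mul_of_nonneg_left h3 hc.le
    _ = c * S.card * K := by ring
    _ ≤ _ := mul_le_mul_of_nonneg_right h1 hK

end AEI

theorem st_EI (hGOOD : St_GOOD) (hPROF : St_PROF) (hENT : St_ENT) (hEMP : St_EMP) : St_EI := by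
  intro A β T _ _ Y t φ c r hY ht hc
  have lt : Loc t := by
    rw [show t = fun x => φ (Y x) 0 from funext fun x => by rw [← ht 0 x, rho_zero, at_d0]]
    exact hY.map fun b => φ b 0
  have lu : Loc fun x => (t x, at_ tm t (tm d0) x) := lt.map₂ (lt.at_ tm _) Prod.mk
  refine le_of_forall_pos_le_add fun ε hε => ?_
  have hδ : 0 < ε / 5 := by positivity
  obtain ⟨r1, e1⟩ := (hEMP A β Y hY).1
  obtain ⟨r2, e2⟩ := (hEMP A _ _ lu).1
  obtain ⟨r3, n3, e3⟩ := (hEMP A T t lt).2 _ hδ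
  obtain ⟨c0, hc0, n0, g0⟩ := hGOOD.1 (r + r1 + r2 + r3)
  obtain ⟨n1, p1⟩ := hPROF β T φ _ hδ
  obtain ⟨n2, hn2⟩ := exists_nat_ge (-log c0 / (ε / 5))
  obtain ⟨n, hn, a0, a1, a2, a3, a4⟩ : ∃ n, Even n ∧ n0 ≤ n ∧ n1 ≤ n ∧ n2 ≤ n ∧ n3 ≤ n ∧ 0 < n :=
    ⟨2 * (n0 + n1 + n2 + n3 + 1), even_two_mul _, by omega, by omega, by omega, by omega, by omega⟩
  obtain ⟨m, hm, hZ⟩ := AEI.pick (S := Om (HE n)) (fun m hm => (mem_sel.mp hm).1)
    (fun m => sum_nonneg fun y _ => (exp_pos _).le) (g0 n a0 hn).1 hc0 (g0 n a0 hn).2 (p1 n a1 hn)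
  obtain ⟨hm, hi⟩ := mem_sel.mp hm
  have hM : IsM m := (mem_sel.mp hm).2
  have hv := invo_of_isM hM
  have hd : ∀ x, dty φ (fun v : Fin n => at_ m Y (v, 0) x) = fun d => at_ m t d x := by
    intro x
    funext ⟨v, i⟩
    have h1 := congrFun (at_at hv t (rho i d0) (v, 0)) x
    rw [cov_rho, cov_d0, rho_mk] at h1
    rw [← h1]
    exact (ht i _).symm
  have hp : ∀ x, pty φ m (fun v : Fin n => at_ m Y (v, 0) x) =
      fun d => at_ m (fun x => (t x, at_ tm t (tm d0) x)) d x := by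
    intro x
    funext d
    have h1 := congrFun (at_at hv t (tm d0) d) x
    rw [cov_tm hv, cov_d0] at h1
    rw [pty, hd]
    exact Prod.ext rfl h1.symm
  have hL := Loc.of_fintype fun (x : HE n → A.L) (v : Fin n) => at_ m Y (v, 0) x
  have h1 := hENT.1 _ (fun y => pr A fun x => (fun v : Fin n => at_ m Y (v, 0) x) = y)
    (fun y => n * (He y - 3 * He (dty φ y) + 3 / 2 * He (pty φ m y)))
    ⟨fun y => pr_nonneg _, sum_pr hL⟩
  have h2 := mn_law hL fun y => n * (He y - 3 * He (dty φ y) + 3 / 2 * He (pty φ m y))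
  rw [ex, ← h2, mn_mul (.of_fintype _), mn_add (.of_fintype _) (.of_fintype _),
    mn_sub (.of_fintype _) (.of_fintype _), mn_mul (.of_fintype _), mn_mul (.of_fintype _)] at h1
  simp only [hd, hp] at h1
  have : Nonempty (Fin n) := ⟨⟨0, a4⟩⟩
  have h3 := e1 n m (hi.mono (by omega)) (Fin n) fun v => (v, 0)
  have h4 := e2 n m (hi.mono (by omega)) (HE n) id
  have h5 := e3 n m a3 hM (hi.mono (by omega))
  have h6 := hc n m hM (hi.mono (by omega))
  have hn0 : (0 : ℝ) < n := Nat.cast_pos.mpr a4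
  have h7 := log_le_log (mul_pos hc0 (sum_pos (fun y _ => exp_pos _) ⟨fun v =>
    Y fun _ => A.pt, mem_univ _⟩)) hZ
  rw [log_mul hc0.ne' (sum_pos (fun y _ => exp_pos _) ⟨fun v =>
    Y fun _ => A.pt, mem_univ _⟩).ne', log_exp] at h7
  have h8 : -log c0 ≤ n * (ε / 5) := (div_le_iff₀ hδ).mp (hn2.trans (Nat.cast_le.mpr a2))
  simp only [id] at h4
  refine le_of_mul_le_mul_left ?_ hn0
  have h9 := mul_le_mul_of_nonneg_left (add_le_add (sub_le_sub h3
    (mul_le_mul_of_nonneg_left h5 (show (0 : ℝ) ≤ 3 by norm_num)))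
    (mul_le_mul_of_nonneg_left h4 (show (0 : ℝ) ≤ 3 / 2 by norm_num))) hn0.le
  rw [ent] at h6
  linarith

end Pool.Agent.Lib.PT5
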