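import Pool.Agent.Lib.PT5.ADefs

/-! Empirical entropies. -/

namespace Pool.Agent.Lib.PT5

open Finset Real RC5

namespace AEMP

theorem num_eq {α β : Type} [Fintype α] (f : α → β) (b : β) :
    (num f b : ℝ) = ∑ j, ind (f j = b) := by
  rw [num, sel, card_filter]
  push_cast
  rfl

theorem num_le {α β : Type} [Fintype α] (f : α → β) (b : β) :
    (num f b : ℝ) / Fintype.card α ≤ 1 := by
  refine div_le_one_of_le₀ ?_ (Nat.cast_nonneg _)
  exact_mod_cast card_le_univ _

theorem low {u ρ : ℝ} (hu : 0 ≤ u) (hρ : 0 < ρ) :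
    -log ρ * u - ρ⁻¹ * (u - ρ) ^ 2 - u + ρ ≤ negMulLog u := by
  have e : ρ⁻¹ * (u - ρ) ^ 2 = u * (u / ρ) - 2 * u + ρ := by field_simp; ring
  rw [e, negMulLog]
  rcases hu.eq_or_lt with rfl | hu
  · simp
  have h := Real.log_le_sub_one_of_pos (div_pos hu hρ)
  rw [Real.log_div hu.ne' hρ.ne'] at h
  nlinarith [mul_le_mul_of_nonneg_left h hu.le]

variable {A : LS} {T : Type} {t : (TD → A.L) → T}

theorem mean {r n : ℕ} (h : Dep t (Ball r)) {m : HE n → HE n} (hm : Inj m r) {J : Type} [Fintype J]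
    [Nonempty J] (e : J → HE n) (b : T) :
    mn A (fun x => (num (fun j => at_ m t (e j) x) b : ℝ) / Fintype.card J) =
      pr A fun x => t x = b := by
  have hc : (Fintype.card J : ℝ) ≠ 0 := by exact_mod_cast Fintype.card_ne_zero
  simp only [num_eq, div_eq_mul_inv]
  rw [mn_mul' (Loc.of_fintype _), mn_sum _ fun _ _ => Loc.of_fintype _]
  have a : ∀ j, mn A (fun x => ind (at_ m t (e j) x = b)) = pr A fun x => t x = b := fun j =>
    mn_at (h.map fun y => ind (y = b)) hm (e j)
  simp only [a, sum_const, card_univ, nsmul_eq_mul]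
  field_simp

theorem one (hV : St_VAR) (ht : Loc t) (b : T) {δ : ℝ} (hδ : 0 < δ) :
    ∃ r n0 : ℕ, ∀ (n : ℕ) (m : HE n → HE n), n0 ≤ n → IsM m → Inj m r →
      negMulLog (pr A fun x => t x = b) - δ ≤
        mn A fun x => negMulLog ((num (fun d => at_ m t d x) b : ℝ) / Fintype.card (HE n)) := by
  rcases (pr_nonneg (A := A) fun x => t x = b).eq_or_lt with h0 | h0
  · refine ⟨0, 0, fun n m _ _ _ => ?_⟩
    rw [← h0, negMulLog_zero]
    exact le_trans (by linarith) (mn_nonneg fun x => negMulLog_nonneg (by positivity) (num_le _ _))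
  set ρ := pr A fun x => t x = b with hρ
  obtain ⟨r, hr⟩ := ht.ball
  obtain ⟨r', C, hC⟩ := hV A (fun x => ind (t x = b)) (ht.map fun y => ind (y = b))
  obtain ⟨n0, hn0⟩ := exists_nat_ge (C / (9 * ρ * δ))
  refine ⟨max r r', n0 + 1, fun n m hn hm hI => ?_⟩
  have hn1 : (0 : ℝ) < n := by exact_mod_cast (by omega : 0 < n)
  have : Nonempty (HE n) := ⟨(⟨0, by omega⟩, 0)⟩
  have hc : (Fintype.card (HE n) : ℝ) = 3 * n := by simp [mul_comm]
  have h1 := mean hr (hI.mono (le_max_left _ _)) (fun d : HE n => d) b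
  have h2 := hC n m hm (hI.mono (le_max_right _ _))
  set u : (HE n → A.L) → ℝ := fun x => (num (fun d => at_ m t d x) b : ℝ) / Fintype.card (HE n)
    with hu
  have h3 : mn A (fun x => (u x - ρ) ^ 2) ≤ ρ * δ := by
    have e : ∀ x, (u x - ρ) ^ 2 = ((3 * n : ℝ) ^ 2)⁻¹ *
        (∑ d, at_ m (fun x => ind (t x = b)) d x - 3 * n * mn A fun x => ind (t x = b)) ^ 2 := by
      intro x
      have e1 : ∑ d, at_ m (fun x => ind (t x = b)) d x = num (fun d => at_ m t d x) b :=
        (num_eq _ _).symm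
      have e2 : (mn A fun x => ind (t x = b)) = ρ := rfl
      rw [e1, e2, hu, hc]
      field_simp
    simp only [e]
    rw [mn_mul (Loc.of_fintype _), inv_mul_le_iff₀ (by positivity)]
    refine h2.trans ?_
    have h4 : C ≤ n * (9 * ρ * δ) := by
      rw [← div_le_iff₀ (by positivity)]
      refine hn0.trans ?_
      exact_mod_cast (by omega : n0 ≤ n)
    nlinarith [mul_le_mul_of_nonneg_right h4 hn1.le]
  have h4 := mn_mono (A := A) (Loc.of_fintype _) (Loc.of_fintype _) fun x =>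
    low (u := u x) (by rw [hu]; positivity) h0
  rw [mn_add (Loc.of_fintype _) (Loc.of_fintype _), mn_sub (Loc.of_fintype _) (Loc.of_fintype _),
    mn_sub (Loc.of_fintype _) (Loc.of_fintype _), mn_mul (Loc.of_fintype _),
    mn_mul (Loc.of_fintype _), mn_const] at h4
  have h5 : ρ⁻¹ * mn A (fun x => (u x - ρ) ^ 2) ≤ δ := by
    rw [inv_mul_le_iff₀ h0]; exact h3
  have h7 : mn A (fun x => u x) = ρ := h1
  rw [h7] at h4
  rw [negMulLog]
  refine le_trans ?_ h4
  nlinarith

end AEMP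

theorem st_EMP (hV : St_VAR) : St_EMP := by
  intro A T _ t ht
  refine ⟨?_, fun δ hδ => ?_⟩
  · obtain ⟨r, hr⟩ := ht.ball
    refine ⟨r, fun n m hm J _ _ e => ?_⟩
    simp only [He, ent]
    rw [mn_sum _ fun _ _ => Loc.of_fintype _]
    refine sum_le_sum fun b _ => ?_
    rw [← AEMP.mean hr hm e b, mn_fintype, mn_fintype]
    exact concaveOn_negMulLog.le_map_sum (fun x _ => wnn A x) (wsum A _) fun x _ =>
      Set.mem_Ici.2 (by positivity)
  · have hc : (0 : ℝ) < Fintype.card T + 1 := by positivity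
    choose r n0 h using fun b => AEMP.one hV ht b (div_pos hδ hc)
    refine ⟨univ.sup r, univ.sup n0, fun n m hn hm hI => ?_⟩
    simp only [He, ent]
    rw [mn_sum _ fun _ _ => Loc.of_fintype _]
    refine le_trans ?_ (sum_le_sum fun b _ =>
      h b n m ((le_sup (mem_univ b)).trans hn) hm (hI.mono (le_sup (mem_univ b))))
    rw [sum_sub_distrib, sum_const, card_univ, nsmul_eq_mul]
    have h1 : (Fintype.card T : ℝ) * (δ / (Fintype.card T + 1)) ≤ δ := by
      rw [← mul_div_assoc, div_le_iff₀ hc]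
      nlinarith
    linarith

end Pool.Agent.Lib.PT5
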