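import Pool.Agent.Lib.PT5.ADefs

/-! Inequalities of Gibbs and Pinsker, factors, convexity. -/

namespace Pool.Agent.Lib.PT5

open Finset Real RC5

namespace AENT

lemma pt {a b : ℝ} (ha : 0 ≤ a) (hb : 0 ≤ b) (h : b = 0 → a = 0) :
    a - b ≤ a * log a - a * log b := by
  rcases ha.eq_or_lt with rfl | ha
  · simpa using hb
  · have hb' : 0 < b := hb.lt_of_ne fun e => ha.ne' (h e.symm)
    have h1 := mul_le_mul_of_nonneg_left (log_le_sub_one_of_pos (div_pos hb' ha)) ha.le
    rw [log_div hb'.ne' ha.ne', mul_sub a (b / a), mul_div_cancel₀ _ ha.ne'] at h1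
    linarith

lemma gibbs {X : Type} [Fintype X] (p g : X → ℝ) (hp : IsP p) :
    ∑ x, negMulLog (p x) - ex p g ≤ log (∑ x, exp (-g x)) := by
  rcases isEmpty_or_nonempty X with hX | hX
  · have := hp.2
    simp at this
  set Z := ∑ x, exp (-g x) with hZ
  have Z0 : 0 < Z := sum_pos (fun x _ => exp_pos _) univ_nonempty
  have h1 : ∑ x, (p x - exp (-g x) / Z) ≤ ∑ x, (-negMulLog (p x) + p x * g x + p x * log Z) := by
    refine sum_le_sum fun x _ => ?_
    have h2 := div_pos (exp_pos (-g x)) Z0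
    have h3 := pt (hp.1 x) h2.le fun e => absurd e h2.ne'
    rw [log_div (exp_pos _).ne' Z0.ne', log_exp] at h3
    unfold negMulLog
    linarith
  rw [sum_sub_distrib, ← sum_div, ← hZ, div_self Z0.ne', hp.2, sum_add_distrib, sum_add_distrib,
    ← sum_mul, hp.2, sum_neg_distrib] at h1
  unfold ex
  linarith

lemma pinsker {X : Type} [Fintype X] (p q : X → ℝ) (hp : IsP p) (hq : IsP q)
    (h : ∀ x, q x = 0 → p x = 0) : 0 ≤ kl p q ∧ (∑ x, |p x - q x|) ^ 2 ≤ 4 * kl p q := by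
  have sp : ∀ x, √(p x) ^ 2 = p x := fun x => sq_sqrt (hp.1 x)
  have sq : ∀ x, √(q x) ^ 2 = q x := fun x => sq_sqrt (hq.1 x)
  have h1 : ∑ x, (√(p x) - √(q x)) ^ 2 ≤ kl p q := by
    have h2 : ∑ x, ((√(p x) - √(q x)) ^ 2 + p x - q x) ≤ kl p q := by
      refine sum_le_sum fun x _ => ?_
      have h3 := pt (sqrt_nonneg (p x)) (sqrt_nonneg (q x)) fun e => by
        rw [h x ((sqrt_eq_zero (hq.1 x)).1 e), sqrt_zero]
      rw [log_sqrt (hp.1 x), log_sqrt (hq.1 x)] at h3
      have h4 := mul_le_mul_of_nonneg_left h3 (sqrt_nonneg (p x))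
      have h5 : √(p x) * (√(p x) * (log (p x) / 2) - √(p x) * (log (q x) / 2)) =
          √(p x) ^ 2 * (log (p x) - log (q x)) / 2 := by ring
      rw [h5, sp] at h4
      nlinarith [sp x, sq x]
    rw [sum_sub_distrib, sum_add_distrib, hp.2, hq.2] at h2
    linarith
  have h2 : ∑ x, (√(p x) + √(q x)) ^ 2 ≤ 4 := by
    have h3 : ∑ x, (√(p x) + √(q x)) ^ 2 ≤ ∑ x, (2 * p x + 2 * q x) :=
      sum_le_sum fun x _ => by nlinarith [sp x, sq x, sq_nonneg (√(p x) - √(q x))]
    rw [sum_add_distrib, ← mul_sum, ← mul_sum, hp.2, hq.2] at h3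
    linarith
  have h0 : 0 ≤ ∑ x, (√(p x) - √(q x)) ^ 2 := sum_nonneg fun _ _ => sq_nonneg _
  refine ⟨h0.trans h1, ?_⟩
  have h3 := sum_mul_sq_le_sq_mul_sq univ (fun x => |√(p x) - √(q x)|) fun x => √(p x) + √(q x)
  have h4 : ∀ x, |√(p x) - √(q x)| * (√(p x) + √(q x)) = |p x - q x| := fun x => by
    rw [← abs_of_nonneg (add_nonneg (sqrt_nonneg (p x)) (sqrt_nonneg (q x))), ← abs_mul]
    congr 1
    linarith [sp x, sq x]
  simp only [h4, sq_abs] at h3
  refine h3.trans ((mul_le_mul h1 h2 (sum_nonneg fun _ _ => sq_nonneg _) (h0.trans h1)).trans_eq ?_)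
  ring

lemma factor {β γ : Type} [Fintype β] [Fintype γ] (p : β → ℝ) (hp : ∀ y, 0 ≤ p y) (h : β → γ) :
    ∑ z, negMulLog (∑ y, p y * ind (h y = z)) ≤ ∑ y, negMulLog (p y) := by
  have h1 : ∀ z, negMulLog (∑ y, p y * ind (h y = z)) =
      ∑ y, p y * (ind (h y = z) * -log (∑ y', p y' * ind (h y' = z))) := fun z => by
    simp only [← mul_assoc]
    rw [← sum_mul]
    unfold negMulLog
    ring
  simp only [h1]
  rw [sum_comm]
  refine sum_le_sum fun y _ => ?_
  rw [← mul_sum, sum_ind_mul (h y) fun z => -log (∑ y', p y' * ind (h y' = z))]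
  rcases (hp y).eq_or_lt with e | e
  · rw [← e]; simp
  · have h2 : p y ≤ ∑ y', p y' * ind (h y' = h y) := by
      refine le_trans ?_ (single_le_sum (f := fun y' => p y' * ind (h y' = h y))
        (fun y' _ => mul_nonneg (hp y') (ind_nonneg _)) (mem_univ y))
      rw [ind_pos rfl, mul_one]
    have h3 := mul_le_mul_of_nonneg_left (log_le_log e h2) e.le
    unfold negMulLog
    linarith

end AENT

theorem st_ENT : St_ENT := by
  refine ⟨fun X _ => AENT.gibbs, fun X _ => AENT.pinsker, fun ι β γ _ _ _ A Y h hY => ?_,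
    fun κ X _ _ w p hw hp => ?_⟩
  · refine le_trans (le_of_eq (sum_congr rfl fun z _ => ?_))
      (AENT.factor (fun y => pr A fun x => Y x = y) (fun _ => pr_nonneg _) h)
    exact congrArg negMulLog (mn_law hY fun y => ind (h y = z))
  · simp only [mul_sum]
    rw [sum_comm]
    refine sum_le_sum fun x _ => ?_
    exact convexOn_mul_log.map_sum_le (fun k _ => hw.1 k) hw.2 fun k _ => hp k x

end Pool.Agent.Lib.PT5
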