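import Pool.Agent.Lib.PT5.ADefs

/-! Multinomial coefficients in groups. -/

namespace Pool.Agent.Lib.PT5

open Finset Real RC5

namespace AGM

variable {α T : Type} [Fintype α]

theorem num_eq [DecidableEq T] (f : α → T) (t : T) : num f t = Fintype.card {d // f d = t} := by
  rw [Fintype.card_subtype, num]
  exact congrArg _ (ext fun d => by simp)

theorem exists_perm {f g : α → T} (h : ∀ t, num f t = num g t) :
    ∃ s : Equiv.Perm α, ∀ d, g (s d) = f d := by
  classical
  exact ⟨Equiv.ofFiberEquiv fun t => Fintype.equivOfCardEq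
    (by have := h t; rw [num_eq, num_eq] at this; exact this),
    Equiv.ofFiberEquiv_map _⟩

theorem card_keep [DecidableEq α] [DecidableEq T] [Fintype T] (f : α → T) :
    Fintype.card {g : Equiv.Perm α // f ∘ g = f} = ∏ t, (num f t).factorial := by
  rw [DomMulAct.stabilizer_card]
  exact prod_congr rfl fun t _ => by rw [num_eq]

end AGM

open AGM in
theorem st_GM : St_GM := by
  intro α T S _ _ _ _ a M
  classical
  set U := sel (univ : Finset (α → S)) fun b => ∀ p, num (fun d => (a d, b d)) p = M p with hU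
  rcases U.eq_empty_or_nonempty with h | ⟨b0, hb0⟩
  · simp [h]
  have h0 := (mem_sel.1 hb0).2
  have hs : ∀ b : U, ∃ s : Equiv.Perm α, ∀ d, (a (s d), b0 (s d)) = (a d, b.1 d) := fun b =>
    exists_perm (g := fun d => (a d, b0 d)) fun p => ((mem_sel.1 b.2).2 p).trans (h0 p).symm
  choose s hs using hs
  have key : ∀ (b : U) (u : {g : Equiv.Perm α // (fun d => (a d, b0 d)) ∘ g = fun d => (a d, b0 d)})
      (d : α), (a ((u.1 * s b) d), b0 ((u.1 * s b) d)) = (a d, b.1 d) := fun b u d =>
    (congrFun u.2 (s b d)).trans (hs b d)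
  rw [← card_keep a, ← prod_congr rfl fun p _ => congrArg Nat.factorial (h0 p), ← card_keep,
    ← Fintype.card_coe U, ← Fintype.card_prod]
  refine Fintype.card_le_of_injective (fun q => ⟨q.2.1 * s q.1,
    funext fun d => congrArg Prod.fst (key q.1 q.2 d)⟩) ?_
  rintro ⟨b, u⟩ ⟨b', u'⟩ h
  have h1 : u.1 * s b = u'.1 * s b' := congrArg Subtype.val h
  obtain rfl : b = b' := Subtype.ext (funext fun d => by
    have e := key b u d
    rw [h1, key b' u' d] at e
    exact (congrArg Prod.snd e).symm)
  rw [Subtype.ext (mul_right_cancel h1)]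

end Pool.Agent.Lib.PT5
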