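import Pool.Agent.Lib.PT5.ADefs

/-! Graphs that look like the tree. -/

namespace Pool.Agent.Lib.PT5

open Finset Real RC5

theorem st_GOOD (hI : St_INJ) (hG : RC5.St_G3) (hO : RC5.St_OM) (hS : RC5.St_SP) : St_GOOD := by
  have key : ∀ r : ℕ, ∃ c : ℝ, 0 < c ∧ ∃ n0 : ℕ, ∀ n, n0 ≤ n → Even n → 0 < (Om (HE n)).card ∧
      c * (Om (HE n)).card ≤ (sel (Om (HE n)) fun m => Inj m r).card := fun r => by
    obtain ⟨g, hg⟩ := hI r
    obtain ⟨c, hc, n0, h⟩ := hG g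
    refine ⟨c, hc, n0, fun n hn ⟨k, hk⟩ => ⟨?_, (h n hn).trans (Nat.cast_le.2 (card_le_card
      fun m hm => mem_sel.2 ⟨(mem_sel.1 hm).1, hg n m (mem_sel.1 (mem_sel.1 hm).1).2
        (mem_sel.1 hm).2⟩))⟩⟩
    exact (hO _ (3 * k) (by simp only [Fintype.card_prod, Fintype.card_fin]; omega)).1
  refine ⟨key, fun r D hD => ?_⟩
  obtain ⟨c, hc, n0, h⟩ := key r
  obtain ⟨n1, h'⟩ := hS D hD (c / 2) (half_pos hc)
  refine ⟨max n0 n1, fun n hn he => ?_⟩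
  obtain ⟨h1, h2⟩ := h n (le_of_max_le_left hn) he
  by_contra! h3
  have h4 := (h2.trans (Nat.cast_le.2 (card_le_card fun m hm => mem_sel.2 ⟨(mem_sel.1 hm).1,
    h3 m (mem_sel.1 (mem_sel.1 hm).1).2 (mem_sel.1 hm).2⟩))).trans (h' n (le_of_max_le_right hn))
  have h5 : (0 : ℝ) < (Om (HE n)).card := Nat.cast_pos.2 h1
  nlinarith [mul_pos hc h5]

end Pool.Agent.Lib.PT5
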