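import Pool.Agent.Lib.PT5.ADefs

/-! Block INJ: without short cycles the graph looks like the tree. -/

namespace Pool.Agent.Lib.PT5

open Finset Real RC5

namespace AINJ

theorem rho_eq {V : Type} {i : Fin 3} {x : V × Fin 3} (h : rho i x = x) : i = 0 := by
  have := congrArg Prod.snd h
  simpa [rho] using this

theorem ch_ne {V : Type} (m : V × Fin 3 → V × Fin 3) (e : V × Fin 3) (b : Bool) :
    m e ≠ ch m e b := fun h => by
  have := rho_eq h.symm
  cases b <;> simp [po] at this

theorem des_take {V : Type} (m : V × Fin 3 → V × Fin 3) (e : V × Fin 3) (l : List Bool) (j : ℕ)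
    (hj : j < l.length) : des m e (l.take (j + 1)) = ch m (des m e (l.take j)) l[j] := by
  rw [List.take_succ_eq_append_getElem hj, des_append]
  rfl

/-- No short word comes back to the same vertex. -/
theorem no_ret {n g : ℕ} {m : HE n → HE n} (hm : IsM m) (hc : ∀ h, ¬ OnCyc m g h) (k : ℕ) :
    0 < k → k < g → ∀ (e : HE n) (l : List Bool), l.length = k → (des m e l).1 ≠ e.1 := by
  induction k using Nat.strong_induction_on with
  | _ k ih =>
  intro h0 hg e l hl hret
  have hd : ∀ a b, a < b → b < k → (des m e (l.take b)).1 ≠ (des m e (l.take a)).1 := by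
    intro a b hab hb
    have e1 : l.take b = l.take a ++ (l.take b).drop a := by
      have := List.take_append_drop a (l.take b)
      rw [List.take_take, min_eq_left hab.le] at this
      exact this.symm
    rw [e1, des_append]
    refine ih (b - a) (by omega) (by omega) (by omega) _ _ ?_
    rw [List.length_drop, List.length_take]
    omega
  refine hc e ⟨k, hg, fun i => des m e (l.take (i % k)), ⟨h0, fun i => ?_, fun i => ?_,
    fun i j hij hj => ?_⟩, ?_⟩
  · simp only [Nat.add_mod_right]
  · have hj : i % k < k := Nat.mod_lt _ h0
    have hs : (i + 1) % k = (i % k + 1) % k := (Nat.mod_add_mod i k 1).symm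
    simp only [hs]
    generalize i % k = j at hj
    have hdt := des_take m e l j (by omega)
    rcases Nat.lt_or_ge (j + 1) k with h | h
    · rw [Nat.mod_eq_of_lt h, hdt]
      exact ⟨rfl, ch_ne m _ _⟩
    · have hk : j + 1 = k := by omega
      rw [hk, Nat.mod_self, List.take_zero]
      rw [List.take_of_length_le (by omega : l.length ≤ j + 1)] at hdt
      rw [hdt] at hret
      refine ⟨hret, fun h => ?_⟩
      have h' : des m e (l.take j) = m e := by
        rw [← (hm (des m e (l.take j))).1, h]
        rfl
      cases j with
      | zero => exact (hm e).2 h'.symm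
      | succ j =>
        cases l with
        | nil => simp at hl; omega
        | cons b l =>
          have h2 : des m (ch m e b) (l.take j) = m e := h'
          cases j with
          | zero => exact ch_ne m e b h2.symm
          | succ j =>
            refine ih (j + 1) (by omega) (by omega) (by omega) (ch m e b) (l.take (j + 1)) ?_ ?_
            · rw [List.length_take]
              simp at hl
              omega
            · rw [h2]
              rfl
  · have hne : i % k ≠ j % k := fun h => by
      have := Nat.le_of_dvd (by omega) ((Nat.modEq_iff_dvd' hij.le).1 h)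
      omega
    rcases lt_or_gt_of_ne hne with h | h
    · exact (hd _ _ h (Nat.mod_lt _ h0)).symm
    · exact hd _ _ h (Nat.mod_lt _ h0)
  · simp [des]

/-- Every vertex of the tree other than the root is reached from the root. -/
theorem reach (b : Bool) (p : List Bool) : (b, p) ≠ (false, []) →
    ∃ (i : Fin 3) (l : List Bool), l.length ≤ p.length ∧ tm (des tm (rho i d0) l) = ((b, p), 0) := by
  induction p with
  | nil =>
    intro h
    cases b with
    | false => exact absurd rfl h
    | true => exact ⟨0, [], le_rfl, rfl⟩
  | cons c p ih =>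
    intro _
    by_cases h : (b, p) = (false, [])
    · obtain ⟨rfl, rfl⟩ := Prod.mk.inj h
      exact ⟨po c, [], Nat.zero_le _, by cases c <;> rfl⟩
    · obtain ⟨i, l, h1, h2⟩ := ih h
      refine ⟨i, l ++ [c], by simpa using h1, ?_⟩
      have : des tm (rho i d0) (l ++ [c]) = rho (po c) (tm (des tm (rho i d0) l)) := by
        rw [des_append]
        rfl
      rw [this, h2]
      cases c <;> rfl

end AINJ

theorem st_INJ : St_INJ := by
  intro r
  refine ⟨(Ball r ×ˢ Ball r).sup (fun p => (cov tm (tinv p.1) p.2).1.2.length) + 2,
    fun n m hm hc d t ht t' ht' h => ?_⟩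
  have hi := invo_of_isM hm
  have hb := le_sup (f := fun p : TD × TD => (cov tm (tinv p.1) p.2).1.2.length)
    (mem_product.2 ⟨ht, ht'⟩ : (t, t') ∈ Ball r ×ˢ Ball r)
  have e1 := cov_cov_tinv t t'
  dsimp only at hb
  generalize cov tm (tinv t) t' = s at hb e1
  rw [← e1, cov_cov hi] at h
  generalize cov m d t = x at h
  by_cases hs : s.1 = (false, [])
  · obtain ⟨i, rfl⟩ := exists_rho (d := d0) hs
    rw [cov_rho, cov_d0] at h
    rw [← e1, AINJ.rho_eq h.symm, rho_zero, cov_d0]
  · obtain ⟨i, l, h1, h2⟩ := AINJ.reach s.1.1 s.1.2 hs
    have h3 : (des tm (rho i d0) (l ++ [false])).1 = s.1 := by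
      rw [des_append]
      have h5 := congrArg Prod.fst h2
      exact h5
    obtain ⟨j, hj⟩ := exists_rho h3
    refine absurd ?_ (AINJ.no_ret hm hc (l.length + 1) (by omega) (by omega) (rho i x)
      (l ++ [false]) (by simp))
    have h4 := cov_des hi x (l ++ [false]) (rho i d0)
    rw [cov_rho, cov_d0, hj, cov_rho, ← h] at h4
    rw [← h4]
    rfl

end Pool.Agent.Lib.PT5
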