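import Pool.Agent.Lib.PT5.ADefs

/-! Windows of levels. -/

namespace Pool.Agent.Lib.PT5

open Finset Real RC5

theorem st_ITER (hC : St_CORE) : St_ITER := by
  obtain ⟨c0, h0, hC⟩ := hC
  refine ⟨c0, h0, fun k hk A Br X hB hX hstep n t u v huv hc => ?_⟩
  set U : ℕ → (TD → A.L) → Prop := fun i x => ∃ j ∈ Icc (i * k) (n * k), Br (t + j) x with hU
  set Xs : (TD → A.L) → Prop := fun x => ∃ j ∈ range (n * k + 1), X (t + j) x with hXs
  have lU : ∀ i, Loc (U i) := fun i => Loc.ex _ fun j _ => hB _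
  have lX : Loc Xs := Loc.ex _ fun j _ => hX _
  have u0 : 0 ≤ u := (pr_nonneg _).trans (huv 0 (Nat.zero_le _)).1
  have pU : ∀ i, pr A (U i) ≤ ((n : ℝ) * k + 1) * u := fun i => by
    refine (pr_ex _ fun j _ => hB _).trans ((sum_le_card_nsmul _ _ u fun j hj =>
      (huv j (mem_Icc.1 hj).2).1).trans ?_)
    rw [nsmul_eq_mul, Nat.card_Icc]
    have : n * k + 1 - i * k ≤ n * k + 1 := Nat.sub_le _ _
    exact mul_le_mul_of_nonneg_right (by exact_mod_cast this) u0
  have pX : pr A Xs ≤ ((n : ℝ) * k + 1) * v := by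
    refine (pr_ex _ fun j _ => hX _).trans ((sum_le_card_nsmul _ _ v fun j hj =>
      (huv j (Nat.lt_succ_iff.1 (mem_range.1 hj))).2).trans_eq ?_)
    rw [nsmul_eq_mul, card_range]
    push_cast
    rfl
  set C : ℝ := 12 * (1 + 3 * k) with hCd
  have C0 : 0 < C := by positivity
  have step : ∀ i < n, pr A (U (i + 1)) ≤ C / (1 + C) * (pr A Xs + pr A (U i)) := fun i hi => by
    have h1 := hC k hk A (U (i + 1)) (U i) Xs (lU _) (lU _) lX
      (fun x ⟨j, hj, e⟩ => ⟨j, mem_Icc.2 ⟨le_trans (Nat.mul_le_mul_right k (Nat.le_succ i))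
        (mem_Icc.1 hj).1, (mem_Icc.1 hj).2⟩, e⟩) (by linarith [pU i])
      fun x ⟨j, hj, e⟩ b => by
        obtain ⟨a1, a2⟩ := mem_Icc.1 hj
        rw [add_mul, one_mul] at a1
        obtain ⟨j', rfl⟩ : ∃ j', j = j' + k := ⟨j - k, by omega⟩
        rcases hstep (t + j') x (by rwa [add_assoc]) b with ⟨w, j'', b1, b2, b3⟩ | b1
        · exact ⟨w, b1, Or.inl ⟨j' + j'', mem_Icc.2 ⟨by omega, by omega⟩, by
            rwa [← add_assoc]⟩⟩
        · exact ⟨[], hk, Or.inr ⟨j', mem_range.2 (by omega), b1⟩⟩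
    rw [div_mul_eq_mul_div, le_div_iff₀ (by linarith)]
    linarith
  have th : 0 ≤ C / (1 + C) := by positivity
  have ind : ∀ i ≤ n, pr A (U i) ≤ (C / (1 + C)) ^ i * pr A (U 0) + C * pr A Xs := fun i hi => by
    induction i with
    | zero => simpa using mul_nonneg C0.le (pr_nonneg _)
    | succ i ih =>
      refine (step i hi).trans ((mul_le_mul_of_nonneg_left
        (add_le_add_right (ih (by omega)) _) th).trans_eq ?_)
      rw [pow_succ]
      field_simp
      ring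
  refine (pr_mono (hB _) (lU n) fun x e => ⟨n * k, mem_Icc.2 ⟨le_rfl, le_rfl⟩, e⟩).trans
    ((ind n le_rfl).trans ?_)
  calc _ ≤ (C / (1 + C)) ^ n * (((n : ℝ) * k + 1) * u) + C * (((n : ℝ) * k + 1) * v) := by
        gcongr
        exact pU 0
    _ = _ := by ring

end Pool.Agent.Lib.PT5
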