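import Pool.Agent.Lib.PT5.ADefs

/-! The sum over descendants on a graph of large girth. -/

namespace Pool.Agent.Lib.PT5

open Finset Real RC5

theorem st_LOP (hT : St_TOP) : St_LOP := by
  classical
  intro B k
  choose iv hiv using fun l t => (des_bij tm_invo l).2 t
  let B1 := B.image tinv
  let B2 := (words k ×ˢ B1).image fun p => iv p.1 p.2
  obtain ⟨r, hr⟩ := exists_Ball (B1 ∪ (B2 ×ˢ words k).image fun p => des tm p.1 p.2)
  refine ⟨r, fun n m hm hi a g hg => ?_⟩
  have hm' := invo_of_isM hm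
  let G : TD → ℝ := fun t => if t ∈ B1 then g (cov m a t) else 0
  have h1 : ∀ e, g e ≠ 0 → ∃ t ∈ B1, cov m a t = e := fun e he => by
    obtain ⟨b, hb, rfl⟩ := mem_image.1 (not_not.1 (mt (hg e) he))
    exact ⟨_, mem_image_of_mem _ hb, cov_back hm' e b⟩
  have hM : ∀ S : Finset TD, ∑ t ∈ S, G t ^ 2 ≤ ∑ e, g e ^ 2 := fun S => by
    have e : ∑ t ∈ S, G t ^ 2 = ∑ t ∈ S.filter (· ∈ B1), g (cov m a t) ^ 2 := by
      rw [sum_filter]
      exact sum_congr rfl fun t _ => by simp only [G]; split_ifs <;> simp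
    rw [e, ← sum_image (f := fun e => g e ^ 2) ((hi a).mono fun t ht =>
      hr (mem_union_left _ (mem_filter.1 ht).2))]
    exact sum_le_sum_of_subset_of_nonneg (subset_univ _) fun _ _ _ => sq_nonneg _
  have h2 : ∀ t ∈ B2, ∀ l ∈ words k, g (des m (cov m a t) l) = G (des tm t l) := by
    intro t ht l hl
    rw [← cov_des hm']
    by_cases h : des tm t l ∈ B1
    · exact (if_pos h).symm
    · refine Eq.trans ?_ (if_neg h).symm
      by_contra h0
      obtain ⟨t1, h3, h4⟩ := h1 _ h0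
      exact h (hi a (hr (mem_union_left _ h3)) (hr (mem_union_right _
        (mem_image.2 ⟨(t, l), mem_product.2 ⟨ht, hl⟩, rfl⟩))) h4 ▸ h3)
  rw [← sum_subset (subset_univ (B2.image (cov m a))) fun d _ hd => ?_]
  · refine (sum_image_le_of_nonneg fun _ _ => sq_nonneg _).trans ?_
    rw [sum_congr rfl fun t ht => by rw [sum_congr rfl (h2 t ht)]]
    exact hT G _ hM k B2
  · rw [sum_eq_zero fun l hl => ?_, zero_pow two_ne_zero]
    by_contra h0
    obtain ⟨t1, h3, h4⟩ := h1 _ h0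
    refine hd (mem_image.2 ⟨iv l t1, mem_image.2 ⟨(l, t1), mem_product.2 ⟨hl, h3⟩, rfl⟩,
      (des_bij hm' l).1 ?_⟩)
    change des m _ l = des m d l
    rw [← cov_des hm', ← h4]
    exact congrArg _ (hiv l t1)

end Pool.Agent.Lib.PT5
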