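import Pool.Agent.Lib.PT5.ADefs

/-! Martingale differences. -/

namespace Pool.Agent.Lib.PT5

open Finset Real Function

namespace AMART

variable {A : LS} {ι : Type} [Fintype ι] [DecidableEq ι]

theorem step (G : (ι → A.L) → ℝ) (a : ι) :
    mn A (fun x => G x ^ 2) =
      mn A (fun x => EB A {a} G x ^ 2) + mn A fun x => (G x - EB A {a} G x) ^ 2 := by
  have h1 : ∀ x l, EB A {a} G (update x a l) = EB A {a} G x := fun x l =>
    (Dep.EB (U := univ) (fun _ _ h => congrArg G (funext fun i => h i (mem_univ i))) {a}) _ _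
      fun i hi => update_of_ne (by simpa using hi) _ _
  have h2 : mn A (fun x => G x * EB A {a} G x) = mn A fun x => EB A {a} G x ^ 2 := by
    rw [mn_update (Loc.of_fintype _) a]
    refine congrArg _ (funext fun x => ?_)
    simp only [h1, ← mul_assoc]
    rw [← sum_mul, ← EB_single, sq]
  have h3 : (fun x => (G x - EB A {a} G x) ^ 2) =
      fun x => G x ^ 2 + EB A {a} G x ^ 2 - 2 * (G x * EB A {a} G x) := funext fun x => by ring
  rw [h3, mn_sub (Loc.of_fintype _) (Loc.of_fintype _), mn_add (Loc.of_fintype _) (Loc.of_fintype _),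
    mn_mul (Loc.of_fintype _), h2]
  ring

omit [Fintype ι] in
theorem lin {κ : Type} (Z : Finset ι) (S : Finset κ) (f : κ → (ι → A.L) → ℝ) (x : ι → A.L) :
    EB A Z (fun y => ∑ k ∈ S, f k y) x = ∑ k ∈ S, EB A Z (f k) x := by
  simp only [EB, mul_sum]
  exact sum_comm

theorem main (Z : Finset ι) : ∃ D : ι → ((ι → A.L) → ℝ) → (ι → A.L) → ℝ,
    (∀ F, mn A (fun x => F x ^ 2) =
      mn A (fun x => EB A Z F x ^ 2) + ∑ a ∈ Z, mn A fun x => D a F x ^ 2) ∧
    (∀ (κ : Type) (S : Finset κ) (f : κ → (ι → A.L) → ℝ) (a : ι) (x : ι → A.L),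
      D a (fun y => ∑ k ∈ S, f k y) x = ∑ k ∈ S, D a (f k) x) ∧
    ∀ (F : (ι → A.L) → ℝ) (U : Finset ι) (a : ι) (x : ι → A.L), Dep F U → a ∉ U → D a F x = 0 := by
  induction Z using Finset.induction_on with
  | empty => exact ⟨fun _ _ _ => 0, fun F => by simp [EB_empty], by simp, by simp⟩
  | insert b Z hb ih =>
    obtain ⟨D, h1, h2, h3⟩ := ih
    refine ⟨fun a F x => if a = b then EB A Z F x - EB A {b} (EB A Z F) x else D a F x,
      fun F => ?_, fun κ S f a x => ?_, fun F U a x hF ha => ?_⟩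
    · rw [sum_insert hb, h1, step (EB A Z F) b, insert_eq, add_assoc]
      simp only [EB_union (disjoint_singleton_left.2 hb), if_true]
      congr 2
      exact sum_congr rfl fun a ha => by simp only [if_neg (ne_of_mem_of_not_mem ha hb)]
    · beta_reduce
      split_ifs
      · rw [funext (lin Z S f), lin, sum_sub_distrib]
      · exact h2 κ S f a x
    · beta_reduce
      split_ifs with h
      · rw [EB_disj (hF.EB Z) (by simp [← h, ha]), sub_self]
      · exact h3 F U a x hF ha

end AMART

theorem st_MART : St_MART := fun A ι _ _ => by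
  obtain ⟨D, h1, h2⟩ := AMART.main (A := A) (univ : Finset ι)
  refine ⟨D, fun F => ?_, h2⟩
  rw [h1, ← funext fun x => mn_eq (B := univ)
    (fun _ _ h => congrArg F (funext fun i => h i (mem_univ i))) x]
  simp only [mn_const]

end Pool.Agent.Lib.PT5
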