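import Pool.Agent.Lib.PT5.ADefs

/-! Choice of the window. -/

namespace Pool.Agent.Lib.PT5

open Finset Real RC5 Filter Topology

namespace ANUM

theorem first (k : ℕ) (hk : 1 ≤ k) : (((k ^ 4 : ℕ) : ℝ) * k + 1) *
    (12 * (1 + 3 * k) / (1 + 12 * (1 + 3 * k))) ^ (k ^ 4) ≤ 9604 / k := by
  have h1 : (1 : ℝ) ≤ k := by exact_mod_cast hk
  have h0 : (0 : ℝ) < k := by linarith
  have h2 : (12 * (1 + 3 * k) / (1 + 12 * (1 + 3 * k)) : ℝ) ≤ exp (-(1 / (49 * k))) := by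
    refine le_trans ?_ (add_one_le_exp _)
    have h3 : (1 / (49 * k) : ℝ) ≤ 1 / (1 + 12 * (1 + 3 * k)) :=
      one_div_le_one_div_of_le (by positivity) (by linarith)
    have h4 : (12 * (1 + 3 * k) / (1 + 12 * (1 + 3 * k)) : ℝ) = 1 - 1 / (1 + 12 * (1 + 3 * k)) := by
      field_simp
      ring
    linarith
  have h3 := pow_le_pow_left₀ (by positivity) h2 (k ^ 4)
  rw [← exp_nat_mul] at h3
  have h4 : ((k ^ 4 : ℕ) : ℝ) * -(1 / (49 * k)) = -((k : ℝ) ^ 3 / 49) := by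
    push_cast
    field_simp
  have h5 : exp (-((k : ℝ) ^ 3 / 49)) ≤ 4802 / (k : ℝ) ^ 6 := by
    have h6 := quadratic_le_exp_of_nonneg (x := (k : ℝ) ^ 3 / 49) (by positivity)
    have h7 : (0 : ℝ) ≤ (k : ℝ) ^ 3 / 49 := by positivity
    rw [exp_neg, ← one_div, div_le_div_iff₀ (exp_pos _) (by positivity)]
    nlinarith
  have h6 : ((k ^ 4 : ℕ) : ℝ) * k + 1 ≤ 2 * (k : ℝ) ^ 5 := by
    have := one_le_pow₀ (n := 5) h1
    push_cast
    nlinarith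
  rw [h4] at h3
  refine (mul_le_mul h6 (h3.trans h5) (by positivity) (by positivity)).trans (le_of_eq ?_)
  field_simp
  norm_num

theorem second {θ : ℝ} (h0 : 0 ≤ θ) (k : ℕ) (hk : 1 ≤ k) : (((k ^ 4 : ℕ) : ℝ) * k + 1) *
    (12 * (1 + 3 * k) * (((k : ℝ) + 1) ^ 2 * θ ^ k)) ≤ 384 * ((k : ℝ) ^ 8 * θ ^ k) := by
  have h1 : (1 : ℝ) ≤ k := by exact_mod_cast hk
  have h6 : ((k ^ 4 : ℕ) : ℝ) * k + 1 ≤ 2 * (k : ℝ) ^ 5 := by
    have := one_le_pow₀ (n := 5) h1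
    push_cast
    nlinarith
  have h2 : (12 * (1 + 3 * k) : ℝ) ≤ 48 * k := by linarith
  have h3 : ((k : ℝ) + 1) ^ 2 ≤ (2 * k) ^ 2 := pow_le_pow_left₀ (by positivity) (by linarith) 2
  calc _ ≤ 2 * (k : ℝ) ^ 5 * (48 * k * ((2 * k) ^ 2 * θ ^ k)) := by gcongr
    _ = _ := by ring

end ANUM

theorem st_NUM : St_NUM := by
  intro θ ε h0 h1 hε
  have t1 : Tendsto (fun k : ℕ => (9604 : ℝ) / k) atTop (𝓝 0) :=
    tendsto_const_div_atTop_nhds_zero_nat _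
  have t2 := (tendsto_pow_const_mul_const_pow_of_abs_lt_one 8
    (show |θ| < 1 by rwa [abs_of_nonneg h0])).const_mul 384
  rw [mul_zero] at t2
  obtain ⟨k, hk, a1, a2⟩ := ((eventually_ge_atTop 1).and
    ((t1.eventually_le_const hε).and (t2.eventually_le_const hε))).exists
  exact ⟨k, k ^ 4, hk, (ANUM.first k hk).trans a1, (ANUM.second h0 k hk).trans a2⟩

end Pool.Agent.Lib.PT5
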