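import Pool.Agent.Lib.PT5.ADefs
import Pool.Agent.Lib.RC5.B_OM

/-! The number of perfect matchings, from below. -/

namespace Pool.Agent.Lib.PT5

open Finset RC5 RC5.T13

namespace AOML

variable {α : Type} [Fintype α] [DecidableEq α]

theorem fibre (S : Finset α) {a b : α} (ha : a ∈ S) (hb : b ∈ S.erase a) :
    (invS ((S.erase a).erase b)).card ≤ ((invS S).filter fun m => m a = b).card := by
  obtain ⟨hab, hb⟩ := mem_erase.1 hb
  have key : ∀ m ∈ invS ((S.erase a).erase b), m a = a ∧ m b = b := fun m hm => by
    simp only [invS, mem_sel, mem_univ, true_and, mem_erase] at hm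
    exact ⟨not_not.1 fun h => ((hm a).2.1 h).2.1 rfl, not_not.1 fun h => ((hm b).2.1 h).1 rfl⟩
  refine card_le_card_of_injOn (fun m h => if h = a then b else if h = b then a else m h) ?_ ?_
  · intro m hm
    obtain ⟨e1, e2⟩ := key m hm
    simp only [invS, coe_filter, mem_sel, mem_univ, true_and, Set.mem_ofPred_eq, mem_coe,
      mem_erase, if_true, and_true] at hm ⊢
    intro h
    by_cases h1 : h = a
    · subst h1
      simp [hab, ha]
    · by_cases h2 : h = b
      · subst h2
        simp [hab, hb, hab.symm]
      · have h3 : m h ≠ a := fun e => h1 (by rw [← (hm h).1, e, e1])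
        have h4 : m h ≠ b := fun e => h2 (by rw [← (hm h).1, e, e2])
        simp only [if_neg h1, if_neg h2, if_neg h3, if_neg h4, (hm h).1, (hm h).2]
        tauto
  · intro m hm m' hm' e
    funext h
    by_cases h1 : h = a
    · rw [h1, (key m hm).1, (key m' hm').1]
    · by_cases h2 : h = b
      · rw [h2, (key m hm).2, (key m' hm').2]
      · simpa [h1, h2] using congrFun e h

theorem low (k : ℕ) : ∀ S : Finset α, S.card = 2 * k → ∏ i ∈ range k, (2 * i + 1) ≤ (invS S).card := by
  induction k with
  | zero =>
    intro S hS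
    rw [mul_zero, card_eq_zero] at hS
    subst hS
    exact card_pos.2 ⟨id, by simp [invS, mem_sel]⟩
  | succ k ih =>
    intro S hS
    obtain ⟨a, ha⟩ := card_pos.1 (show 0 < S.card by omega)
    have h1 : (S.erase a).card = 2 * k + 1 := by rw [card_erase_of_mem ha]; omega
    rw [prod_range_succ, mul_comm, ← h1, ← smul_eq_mul]
    refine (card_nsmul_le_sum _ (fun b => ((invS S).filter fun m => m a = b).card) _
      fun b hb => (ih _ ?_).trans (fibre S ha hb)).trans ?_
    · rw [card_erase_of_mem hb]; omega
    · rw [sum_card_fiberwise_eq_card_filter]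
      exact card_filter_le _ _

theorem num (k : ℕ) : (2 * k).factorial ≤ (2 * k + 1) * (∏ i ∈ range k, (2 * i + 1)) ^ 2 := by
  induction k with
  | zero => simp
  | succ k ih =>
    rw [prod_range_succ, show 2 * (k + 1) = 2 * k + 1 + 1 by ring, Nat.factorial_succ,
      Nat.factorial_succ]
    calc _ ≤ (2 * k + 1 + 1 + 1) * ((2 * k + 1) *
          ((2 * k + 1) * (∏ i ∈ range k, (2 * i + 1)) ^ 2)) := by gcongr; omega
      _ = _ := by ring

end AOML

theorem st_OML : St_OML := by
  intro α _ _ k hk
  refine (AOML.num k).trans ?_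
  gcongr
  refine (AOML.low k univ (by rw [card_univ, hk])).trans (card_le_card fun m hm => ?_)
  simp only [Om, invS, mem_sel, mem_univ, true_and, iff_true] at hm ⊢
  exact hm

end Pool.Agent.Lib.PT5
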