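import Pool.Agent.Lib.PT5.ADefs

/-! The number of pairs with a given profile. -/

namespace Pool.Agent.Lib.PT5

open Finset Real RC5

namespace APC

theorem fib {X Y : Type} (C : Finset X) (U : Finset Y) (f : X → Y) (hf : ∀ x ∈ C, f x ∈ U) :
    C.card = ∑ y ∈ U, (sel C fun x => f x = y).card := by
  classical
  simp only [sel_eq]
  exact card_eq_sum_card_fiberwise hf

theorem sq_le {X Y : Type} (C : Finset X) (U : Finset Y) (f : X → Y) (hf : ∀ x ∈ C, f x ∈ U)
    (Q R : ℕ) (h : ∀ y ∈ U, (sel C fun x => f x = y).card ^ 2 * Q ≤ R) :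
    C.card ^ 2 * Q ≤ U.card ^ 2 * R := by
  rw [fib C U f hf]
  refine (Nat.mul_le_mul_right Q sq_sum_le_card_mul_sum_sq).trans ?_
  rw [mul_assoc, sum_mul, sq, mul_assoc]
  exact Nat.mul_le_mul_left _ (sum_le_card_nsmul _ _ _ h)

theorem num_fst {α T S : Type} [Fintype α] [Fintype S] (a : α → T) (b : α → S) (t : T) :
    num a t = ∑ s, num (fun d => (a d, b d)) (t, s) := by
  rw [num, fib _ univ b fun _ _ => mem_univ _]
  refine sum_congr rfl fun s _ => congrArg card ?_
  ext d
  simp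

theorem fix (hC : St_CNT) (hG : St_GM) {α T : Type} [Fintype α] [DecidableEq α] [Fintype T]
    (a : α → T) (M : T × T → ℕ) :
    (sel (Om α) fun m => ∀ p, num (fun d => (a d, a (m d))) p = M p).card ^ 2 * ∏ p, (M p).factorial
      ≤ (∏ t, (∑ s, M (t, s)).factorial) ^ 2 := by
  set C := sel (Om α) fun m => ∀ p, num (fun d => (a d, a (m d))) p = M p
  rcases C.eq_empty_or_nonempty with h | ⟨m0, h⟩
  · simp [h]
  have h1 := hG α T T a M
  have h2 : ∀ t, num a t = ∑ s, M (t, s) := fun t => by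
    rw [num_fst a fun d => a (m0 d)]
    exact sum_congr rfl fun s _ => (mem_sel.1 h).2 _
  simp only [h2] at h1
  set U := sel (univ : Finset (α → T)) fun b => ∀ p, num (fun d => (a d, b d)) p = M p
  have h3 := sq_le C U (fun m d => a (m d)) (fun m hm => mem_sel.2 ⟨mem_univ _, (mem_sel.1 hm).2⟩)
    1 (∏ p, (M p).factorial) fun b hb => by
      have h4 := hC α (T × T) (fun d => (a d, b d)) Prod.swap Prod.swap_swap
      simp only [(mem_sel.1 hb).2] at h4
      rw [mul_one]
      refine (Nat.pow_le_pow_left (card_le_card fun m hm => ?_) 2).trans h4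
      obtain ⟨k1, rfl⟩ := mem_sel.1 hm
      have k2 := (mem_sel.1 k1).1
      refine mem_sel.2 ⟨k2, fun d => ?_⟩
      simp only [((mem_sel.1 k2).2 d).1, Prod.swap_prod_mk]
  rw [mul_one] at h3
  refine (Nat.mul_le_mul_right _ h3).trans ?_
  rw [mul_assoc, ← sq, ← mul_pow]
  exact Nat.pow_le_pow_left h1 2

end APC

open APC in
theorem st_PC (hC : St_CNT) (hG : St_GM) (hM : RC5.St_MULT) : St_PC := by
  intro β T _ _ φ n N M
  set C := sel (Om (HE n) ×ˢ (univ : Finset (Fin n → β))) fun q =>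
    (∀ b, num q.2 b = N b) ∧ ∀ p, num (pty φ q.1 q.2) p = M p
  rcases C.eq_empty_or_nonempty with h | ⟨q0, h⟩
  · simp [h]
  have h1 : ∑ b, N b = n := by
    have := fib (univ : Finset (Fin n)) univ q0.2 fun _ _ => mem_univ _
    rw [card_univ, Fintype.card_fin] at this
    exact (sum_congr rfl fun b _ => ((mem_sel.1 h).2.1 b).symm).trans this.symm
  have h2 := sq_le C (sel univ fun y => ∀ b, num y b = N b) Prod.snd
    (fun q hq => mem_sel.2 ⟨mem_univ _, (mem_sel.1 hq).2.1⟩) (∏ p, (M p).factorial) _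
    fun y _ => by
      refine le_trans (Nat.mul_le_mul_right _ (Nat.pow_le_pow_left
        (card_le_card_of_injOn Prod.fst (fun q hq => ?_) fun q hq q' hq' e => ?_) 2))
        (fix hC hG (dty φ y) M)
      · obtain ⟨k1, rfl⟩ := mem_sel.1 hq
        exact mem_sel.2 ⟨(mem_product.1 (mem_sel.1 k1).1).1, (mem_sel.1 k1).2.2⟩
      · exact Prod.ext e ((mem_sel.1 hq).2.trans (mem_sel.1 hq').2.symm)
  rw [← hM n β N h1, mul_right_comm, mul_pow]
  exact (Nat.mul_le_mul_right _ h2).trans (mul_right_comm _ _ _).le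

end Pool.Agent.Lib.PT5
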