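import Pool.Agent.Lib.PT5.ADefs

/-! The sum over all profiles. -/

namespace Pool.Agent.Lib.PT5

open Finset Real RC5

namespace APROF

/-- the main term of the logarithm of a factorial -/
noncomputable def lg (k : ℕ) : ℝ := (k : ℝ) * log k - k

section num
variable {α β γ : Type} [Fintype α]

theorem num_eq [DecidableEq β] (f : α → β) (b : β) :
    num f b = ∑ h, if f h = b then 1 else 0 := by
  rw [num, sel_eq, card_filter]

theorem num_le (f : α → β) (b : β) : num f b ≤ Fintype.card α :=
  card_le_univ _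

theorem sum_num [Fintype β] (f : α → β) : ∑ b, num f b = Fintype.card α := by
  classical
  simp only [num_eq]
  rw [sum_comm]
  simp

theorem num_fst [Fintype γ] (f : α → β) (g : α → γ) (b : β) :
    ∑ c, num (fun h => (f h, g h)) (b, c) = num f b := by
  classical
  simp only [num_eq]
  rw [sum_comm]
  refine sum_congr rfl fun h _ => ?_
  by_cases e : f h = b <;> simp [e]

theorem He_eq [Fintype β] (f : α → β) :
    (Fintype.card α : ℝ) * He f = lg (Fintype.card α) - ∑ b, lg (num f b) := by
  have h1 : ∑ b, (num f b : ℝ) = Fintype.card α := by exact_mod_cast sum_num f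
  have h2 : ∀ b, (Fintype.card α : ℝ) * negMulLog ((num f b : ℝ) / Fintype.card α) =
      num f b * log (Fintype.card α) - num f b * log (num f b) := fun b => by
    rcases Nat.eq_zero_or_pos (num f b) with h | h
    · simp [h]
    have h3 : (0 : ℝ) < num f b := by exact_mod_cast h
    have h4 : (0 : ℝ) < Fintype.card α := by exact_mod_cast h.trans_le (num_le f b)
    rw [negMulLog, log_div h3.ne' h4.ne']
    field_simp
    ring
  simp only [He, mul_sum, h2, lg, sum_sub_distrib, ← sum_mul, h1]
  ring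

end num

theorem sum_cls {X C : Type} [DecidableEq C] (S : Finset X) (g : X → C) (t : Finset C)
    (hg : ∀ x ∈ S, g x ∈ t) (F : X → ℝ) {B : ℝ} (hB : 0 ≤ B)
    (h : ∀ x ∈ S, ((S.filter fun z => g z = g x).card : ℝ) * F x ≤ B) :
    ∑ x ∈ S, F x ≤ t.card * B := by
  rw [← sum_fiberwise_of_maps_to hg, ← nsmul_eq_mul]
  refine sum_le_card_nsmul _ _ _ fun c _ => ?_
  rcases (S.filter fun z => g z = c).eq_empty_or_nonempty with e | e
  · rw [e, sum_empty]; exact hB
  have h1 : (0 : ℝ) < (S.filter fun z => g z = c).card := by exact_mod_cast e.card_pos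
  refine le_of_mul_le_mul_left ?_ h1
  rw [mul_sum, ← nsmul_eq_mul]
  refine sum_le_card_nsmul _ _ _ fun x hx => ?_
  obtain ⟨h2, rfl⟩ := mem_filter.1 hx
  exact h x h2

theorem log_prod_fact {ι : Type} [Fintype ι] (N : ι → ℕ) :
    log ((∏ b, (N b).factorial : ℕ) : ℝ) = ∑ b, log (N b).factorial := by
  push_cast
  exact log_prod fun b _ => by exact_mod_cast (N b).factorial_ne_zero

theorem small (C δ : ℝ) (hC : 0 ≤ C) (hδ : 0 < δ) :
    ∃ n0 : ℕ, ∀ n : ℕ, n0 ≤ n → C * (log (3 * n + 1) + 1) ≤ δ * n := by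
  set a := 8 * C / δ + 1 with ha
  have h0 : 0 < a := by positivity
  obtain ⟨n0, hn0⟩ := exists_nat_ge (2 * C * log a / δ + 1)
  have h1 : 0 ≤ log a := log_nonneg (by rw [ha]; exact le_add_of_nonneg_left (by positivity))
  refine ⟨n0, fun n hn => ?_⟩
  have h2 : 2 * C * log a / δ + 1 ≤ n := hn0.trans (by exact_mod_cast hn)
  have h3 : 0 ≤ 2 * C * log a / δ := by positivity
  have h4 : 2 * C * log a ≤ n * δ := (div_le_iff₀ hδ).1 (by linarith)
  have h5 := log_le_sub_one_of_pos (x := (3 * n + 1) / a) (by positivity)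
  rw [log_div (by positivity) h0.ne'] at h5
  have h6 : C * ((3 * n + 1) / a) ≤ δ * n / 2 := by
    rw [← mul_div_assoc, div_le_iff₀ h0, ha]
    have h7 : δ * n / 2 * (8 * C / δ + 1) = 4 * C * n + δ * n / 2 := by field_simp; ring
    rw [h7]
    have h8 : (1 : ℝ) ≤ n := by linarith
    nlinarith [mul_le_mul_of_nonneg_left h8 hC]
  nlinarith [mul_le_mul_of_nonneg_left h5 hC]

theorem cls (hPC : St_PC) (hO : St_OML) (hS : RC5.St_STI) {β T : Type} [Fintype β] [Fintype T]
    (φ : β → Fin 3 → T) {n : ℕ} (hn : Even n) (m : HE n → HE n) (y : Fin n → β) :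
    ((sel (Om (HE n) ×ˢ (univ : Finset (Fin n → β))) fun q =>
        (∀ b, num q.2 b = num y b) ∧ ∀ p, num (pty φ q.1 q.2) p = num (pty φ m y) p).card : ℝ) *
      exp (-(n * (He y - 3 * He (dty φ y) + 3 / 2 * He (pty φ m y)))) ≤
      exp ((Fintype.card T + 2) * (log (3 * n + 1) + 1)) * (Om (HE n)).card := by
  have h1 := hPC β T φ n (num y) (num (pty φ m y))
  set s := (sel (Om (HE n) ×ˢ (univ : Finset (Fin n → β))) fun q =>
    (∀ b, num q.2 b = num y b) ∧ ∀ p, num (pty φ q.1 q.2) p = num (pty φ m y) p).card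
  rcases Nat.eq_zero_or_pos s with h0 | h0
  · rw [h0, Nat.cast_zero, zero_mul]; positivity
  have hs : (0 : ℝ) < s := by exact_mod_cast h0
  have hc : Fintype.card (HE n) = 3 * n := by simp [mul_comm]
  obtain ⟨k, hk⟩ := hn
  have h2 := hO (HE n) (3 * k) (by omega)
  rw [show 2 * (3 * k) = 3 * n by omega] at h2
  have hf : ∀ j : ℕ, (0 : ℝ) < j.factorial := fun j => by exact_mod_cast j.factorial_pos
  have hp : ∀ {ι : Type} [Fintype ι] (N : ι → ℕ), (0 : ℝ) < ((∏ b, (N b).factorial : ℕ) : ℝ) :=
    fun N => by exact_mod_cast prod_pos fun b _ => (N b).factorial_pos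
  have ho : (0 : ℝ) < (Om (HE n)).card := by
    rcases Nat.eq_zero_or_pos (Om (HE n)).card with e | e
    · rw [e] at h2
      exact absurd h2 (by simpa using (3 * n).factorial_ne_zero)
    · exact_mod_cast e
  have h3 := log_le_log (hf _) ((Nat.cast_le (α := ℝ)).2 h2)
  rw [Nat.cast_mul, Nat.cast_pow, log_mul (by positivity) (by positivity), log_pow] at h3
  have e0 : ∀ a, ∑ b, num (pty φ m y) (a, b) = num (dty φ y) a := fun a => num_fst _ _ a
  simp only [e0] at h1
  have h4 := (Nat.cast_le (α := ℝ)).2 h1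
  rw [Nat.cast_mul, Nat.cast_mul, Nat.cast_mul, Nat.cast_pow, Nat.cast_pow, Nat.cast_pow,
    Nat.cast_pow] at h4
  have p1 := hp (num y)
  have p2 := hp (num (pty φ m y))
  have p3 := hp (num (dty φ y))
  have p4 := hf n
  have h5 := log_le_log (by positivity) h4
  rw [log_mul (by positivity) p2.ne', log_mul (by positivity) (by positivity),
    log_mul (by positivity) (by positivity), log_pow, log_pow, log_pow, log_pow, log_prod_fact,
    log_prod_fact, log_prod_fact] at h5
  have up : ∀ j : ℕ, j ≤ 3 * n → log j.factorial ≤ lg j + (log (3 * n + 1) + 1) := fun j hj => by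
    have a1 : (j : ℝ) ≤ 3 * n := by exact_mod_cast hj
    have a2 := log_le_log (x := (j : ℝ) + 1) (y := 3 * n + 1) (by positivity) (by linarith)
    have a3 := (hS j).2
    unfold lg
    linarith
  have b1 : ∑ b, lg (num y b) ≤ ∑ b, log (num y b).factorial := sum_le_sum fun b _ => (hS _).1
  have b2 : ∑ p, lg (num (pty φ m y) p) ≤ ∑ p, log (num (pty φ m y) p).factorial :=
    sum_le_sum fun b _ => (hS _).1
  have b3 : ∑ a, log (num (dty φ y) a).factorial ≤
      ∑ a, (lg (num (dty φ y) a) + (log (3 * n + 1) + 1)) :=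
    sum_le_sum fun a _ => up _ ((num_le _ _).trans hc.le)
  rw [sum_add_distrib, sum_const, card_univ, nsmul_eq_mul] at b3
  have b4 := up n (by omega)
  have b5 : lg (3 * n) ≤ log (3 * n).factorial := (hS _).1
  have c1 := He_eq y
  have c2 := He_eq (dty φ y)
  have c3 := He_eq (pty φ m y)
  rw [Fintype.card_fin] at c1
  rw [hc] at c2 c3
  have b6 : 0 ≤ log (3 * (n : ℝ) + 1) := log_nonneg (le_add_of_nonneg_left (by positivity))
  push_cast at h3 h5 c2 c3
  rw [← exp_log hs, ← exp_log ho, ← exp_add, ← exp_add, exp_le_exp]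
  linarith

end APROF

open APROF in
theorem st_PROF (hPC : St_PC) (hO : St_OML) (hS : RC5.St_STI) : St_PROF := by
  intro β T _ _ φ δ hδ
  classical
  obtain ⟨n0, h0⟩ := small
    ((Fintype.card β + Fintype.card (T × T) : ℕ) + (Fintype.card T + 2)) δ (by positivity) hδ
  refine ⟨n0, fun n hn he => ?_⟩
  have hc : Fintype.card (HE n) = 3 * n := by simp [mul_comm]
  have h1 := sum_cls (Om (HE n) ×ˢ (univ : Finset (Fin n → β)))
    (fun q => (num q.2, num (pty φ q.1 q.2)))
    (Fintype.piFinset (fun _ => range (3 * n + 1)) ×ˢ Fintype.piFinset fun _ => range (3 * n + 1))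
    (fun q _ => mem_product.2 ⟨Fintype.mem_piFinset.2 fun b => mem_range.2 (by
        have := num_le q.2 b
        rw [Fintype.card_fin] at this
        show num q.2 b < 3 * n + 1
        omega),
      Fintype.mem_piFinset.2 fun p => mem_range.2 (Nat.lt_succ_of_le ((num_le _ p).trans hc.le))⟩)
    (fun q => exp (-(n * (He q.2 - 3 * He (dty φ q.2) + 3 / 2 * He (pty φ q.1 q.2)))))
    (B := exp ((Fintype.card T + 2) * (log (3 * n + 1) + 1)) * (Om (HE n)).card) (by positivity)
    (fun q _ => by
      refine le_of_eq_of_le ?_ (cls hPC hO hS φ he q.1 q.2)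
      congr 3
      ext z
      simp only [mem_filter, mem_sel, Prod.mk.injEq, funext_iff])
  rw [sum_product] at h1
  refine h1.trans ?_
  rw [← mul_assoc]
  refine mul_le_mul_of_nonneg_right ?_ (Nat.cast_nonneg _)
  rw [card_product, Fintype.card_piFinset, Fintype.card_piFinset, prod_const, prod_const,
    card_range, card_univ, card_univ, ← pow_add, Nat.cast_pow]
  have h2 : ((3 * n + 1 : ℕ) : ℝ) ≤ exp (log (3 * n + 1) + 1) := by
    push_cast
    rw [exp_add, exp_log (by positivity)]
    exact le_mul_of_one_le_right (by positivity) (one_le_exp zero_le_one)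
  refine (mul_le_mul_of_nonneg_right (pow_le_pow_left₀ (Nat.cast_nonneg _) h2 _)
    (exp_pos _).le).trans ?_
  rw [← exp_nat_mul, ← exp_add, exp_le_exp, ← add_mul]
  exact h0 n hn

end Pool.Agent.Lib.PT5
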