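import Pool.Agent.Lib.PT5.ADefs

/-! Sums of local observables concentrate. -/

namespace Pool.Agent.Lib.PT5

open Finset Real RC5

namespace AVAR

/-- Few balls meet a given ball. -/
theorem card_meet {n : ℕ} {m : HE n → HE n} (hm : Invo m) (B : Finset TD) (d : HE n) :
    (univ.filter fun e => ¬ Disjoint (B.image (cov m d)) (B.image (cov m e))).card ≤
      B.card * B.card := by
  rw [← card_product]
  refine le_trans (card_le_card fun e he => ?_)
    (card_image_le (f := fun p : TD × TD => cov m (cov m d p.1) (tinv p.2)))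
  obtain ⟨a, h1, h2⟩ := not_disjoint_iff.mp (mem_filter.mp he).2
  obtain ⟨t, ht, rfl⟩ := mem_image.mp h1
  obtain ⟨t', ht', e'⟩ := mem_image.mp h2
  exact mem_image.mpr ⟨(t, t'), mk_mem_product ht ht', by rw [← e', cov_back hm]⟩

end AVAR

theorem st_VAR : St_VAR := by
  intro A f hf
  obtain ⟨r, hr⟩ := hf.ball
  have hg := hr.map fun t => t - mn A f
  obtain ⟨K, -, hK⟩ := hg.loc.bdd
  refine ⟨r, 3 * (((Ball r).card * (Ball r).card : ℕ) * (K * K)), fun n m hm hi => ?_⟩
  have h0 : ∀ d, mn A (at_ m (fun x => f x - mn A f) d) = 0 := fun d => by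
    rw [mn_at hg hi, mn_sub hf (Loc.const _), mn_const, sub_self]
  have h1 : ∀ x, (∑ d, at_ m f d x - 3 * n * mn A f) ^ 2 =
      ∑ d, ∑ e, at_ m (fun x => f x - mn A f) d x * at_ m (fun x => f x - mn A f) e x :=
    fun x => by
      rw [← sum_mul_sum, ← sq]
      simp only [at_, sum_sub_distrib, sum_const, card_univ, Fintype.card_prod, Fintype.card_fin,
        nsmul_eq_mul, Nat.cast_mul, Nat.cast_ofNat, mul_comm (n : ℝ)]
  simp only [h1]
  rw [mn_sum _ fun _ _ => Loc.of_fintype _]
  refine (sum_le_card_nsmul _ _ (((Ball r).card * (Ball r).card : ℕ) * (K * K)) fun d _ => ?_).trans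
    (le_of_eq ?_)
  · rw [mn_sum _ fun _ _ => Loc.of_fintype _, ← sum_filter_add_sum_filter_not univ fun e =>
      Disjoint ((Ball r).image (cov m d)) ((Ball r).image (cov m e)),
      sum_eq_zero fun e he => by
        rw [mn_indep (hg.at_ m d) (hg.at_ m e) (mem_filter.mp he).2, h0, zero_mul], zero_add]
    refine (sum_le_card_nsmul _ _ (K * K) fun e _ => mn_le (Loc.of_fintype _) fun x =>
      (le_abs_self _).trans ?_).trans ?_
    · rw [abs_mul]
      exact mul_le_mul (hK _) (hK _) (abs_nonneg _) ((abs_nonneg _).trans (hK fun _ => A.pt))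
    · rw [nsmul_eq_mul]
      exact mul_le_mul_of_nonneg_right
        (Nat.cast_le.mpr (AVAR.card_meet (invo_of_isM hm) _ d)) (mul_self_nonneg K)
  · simp only [card_univ, Fintype.card_prod, Fintype.card_fin, nsmul_eq_mul]
    push_cast
    ring

end Pool.Agent.Lib.PT5
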