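import Pool.Agent.Lib.PT5.ADefs

/-! Large values of a branching sum are rare. -/

namespace Pool.Agent.Lib.PT5

open Finset Real RC5

theorem st_XB (hB : St_BSV) : St_XB := by
  intro A z k κ δ Q hz hκ hδ hQ h4
  set μ := mn A z with hμ
  have hy : Loc fun x => z x - μ := hz.map (· - μ)
  have h0 : mn A (fun x => z x - μ) = 0 := by rw [mn_sub hz (Loc.const μ), mn_const, sub_self]
  have h1 : μ ^ 2 ≤ Q := (mn_sq hz).trans hQ
  have h2 : mn A (fun x => (z x - μ) ^ 2) ≤ Q := by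
    have e : (fun x => (z x - μ) ^ 2) = fun x => z x ^ 2 - (2 * μ * z x - μ ^ 2) := by
      funext x; ring
    have l1 : Loc fun x => 2 * μ * z x := hz.map (2 * μ * ·)
    rw [e, mn_sub (hz.map (· ^ 2)) (l1.map (· - μ ^ 2)), mn_sub l1 (Loc.const _), mn_mul hz,
      mn_const, ← hμ]
    nlinarith [sq_nonneg μ]
  have hk : 0 ≤ κ ^ k := pow_nonneg hκ k
  have e1 : (4 * κ ^ 2) ^ k = (κ ^ k * 2 ^ k) ^ 2 := by
    rw [← mul_pow, ← pow_mul, mul_comm k 2, pow_mul]; congr 1; ring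
  have e2 : (2 * κ ^ 2) ^ k = (κ ^ k) ^ 2 * 2 ^ k := by
    rw [mul_pow, ← pow_mul, ← pow_mul, mul_comm k 2, mul_comm]
  have h3 : κ ^ k * 2 ^ k * μ ≤ δ / 2 := by
    refine (le_abs_self _).trans (abs_le_of_sq_le_sq' ?_ (by positivity) |> abs_le.2)
    have := mul_le_mul_of_nonneg_left h1 (sq_nonneg (κ ^ k * 2 ^ k))
    rw [e1] at h4
    nlinarith
  have hS : Loc fun x => ∑ l ∈ words k, at_ tm (fun x => z x - μ) (des tm d0 l) x :=
    Loc.sum _ fun l _ => hy.at_ _ _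
  have hE : Loc fun x => δ < κ ^ k * ∑ l ∈ words k, at_ tm z (des tm d0 l) x :=
    (Loc.sum _ fun l _ => hz.at_ tm (des tm d0 l)).map (δ < κ ^ k * ·)
  have h5 := markov hE (hS.map fun s => (κ ^ k) ^ 2 * s ^ 2) (c := δ ^ 2 / 4)
    (fun x => by positivity) fun x hx => by
      have e : ∑ l ∈ words k, at_ tm (fun x => z x - μ) (des tm d0 l) x =
          ∑ l ∈ words k, at_ tm z (des tm d0 l) x - 2 ^ k * μ := by
        simp only [at_, sum_sub_distrib, sum_const, card_words, nsmul_eq_mul]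
        push_cast; ring
      rw [e, ← mul_pow]
      have : δ / 2 ≤ κ ^ k * (∑ l ∈ words k, at_ tm z (des tm d0 l) x - 2 ^ k * μ) := by
        nlinarith
      nlinarith
  rw [mn_mul (hS.map (· ^ 2))] at h5
  have h6 := (hB A _ k hy h0).trans (mul_le_mul_of_nonneg_left h2 (by positivity))
  have h7 := mul_le_mul_of_nonneg_left h6 (sq_nonneg (κ ^ k))
  rw [e2]
  nlinarith

end Pool.Agent.Lib.PT5
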