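import Pool.Agent.Lib.RC5.B_BALL
import Pool.Agent.Lib.RC5.B_G1
import Pool.Agent.Lib.RC5.B_G2
import Pool.Agent.Lib.RC5.B_G3
import Pool.Agent.Lib.RC5.B_MULT
import Pool.Agent.Lib.RC5.B_OM
import Pool.Agent.Lib.RC5.B_SP
import Pool.Agent.Lib.RC5.B_SP1
import Pool.Agent.Lib.RC5.B_STI
import Pool.Agent.Lib.RC5.B_SUB
import Pool.Agent.Lib.PT5.A_BSV
import Pool.Agent.Lib.PT5.A_CNT
import Pool.Agent.Lib.PT5.A_CORE
import Pool.Agent.Lib.PT5.A_CORED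
import Pool.Agent.Lib.PT5.A_EI
import Pool.Agent.Lib.PT5.A_EMP
import Pool.Agent.Lib.PT5.A_ENT
import Pool.Agent.Lib.PT5.A_GM
import Pool.Agent.Lib.PT5.A_GOOD
import Pool.Agent.Lib.PT5.A_INJ
import Pool.Agent.Lib.PT5.A_ITER
import Pool.Agent.Lib.PT5.A_LOP
import Pool.Agent.Lib.PT5.A_MART
import Pool.Agent.Lib.PT5.A_NUM
import Pool.Agent.Lib.PT5.A_OML
import Pool.Agent.Lib.PT5.A_PC
import Pool.Agent.Lib.PT5.A_PROF
import Pool.Agent.Lib.PT5.A_TOP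
import Pool.Agent.Lib.PT5.A_VAR
import Pool.Agent.Lib.PT5.A_XB

/-! Assembly of the statements on counting, entropy and local events. -/

namespace Pool.Agent.Lib.PT5

theorem all_GOOD : St_GOOD :=
  st_GOOD st_INJ (RC5.st_G3 RC5.st_BALL (RC5.st_G1 RC5.st_SUB) RC5.st_G2) RC5.st_OM
    (RC5.st_SP (RC5.st_SP1 RC5.st_SUB))

theorem all_CORE : St_CORE := st_CORE st_VAR all_GOOD st_CORED

theorem all_EI : St_EI :=
  st_EI all_GOOD (st_PROF (st_PC st_CNT st_GM RC5.st_MULT) st_OML RC5.st_STI) st_ENT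
    (st_EMP st_VAR)

theorem all_BSV : St_BSV := st_BSV all_GOOD (st_LOP st_TOP) st_MART

theorem all_ITER : St_ITER := st_ITER all_CORE

theorem all_XB : St_XB := st_XB all_BSV

end Pool.Agent.Lib.PT5
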