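import Pool.Agent.Lib.PT5.Kit1
import Pool.Agent.Lib.RC5.Blue

/-! Statements on counting, entropy and local events. -/

namespace Pool.Agent.Lib.PT5

open Finset Real RC5

/-- a probability vector -/
def IsP {X : Type} [Fintype X] (p : X → ℝ) : Prop := (∀ x, 0 ≤ p x) ∧ ∑ x, p x = 1

/-- expectation -/
noncomputable def ex {X : Type} [Fintype X] (p f : X → ℝ) : ℝ := ∑ x, p x * f x

/-- relative entropy -/
noncomputable def kl {X : Type} [Fintype X] (p q : X → ℝ) : ℝ :=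
  ∑ x, (p x * log (p x) - p x * log (q x))

/-- empirical entropy -/
noncomputable def He {α β : Type} [Fintype α] [Fintype β] (f : α → β) : ℝ :=
  ∑ b, negMulLog ((num f b : ℝ) / Fintype.card α)

/-- types of the darts -/
def dty {β T : Type} {n : ℕ} (φ : β → Fin 3 → T) (y : Fin n → β) (d : HE n) : T := φ (y d.1) d.2

/-- types of the two darts of an edge -/
def pty {β T : Type} {n : ℕ} (φ : β → Fin 3 → T) (m : HE n → HE n) (y : Fin n → β) (d : HE n) :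
    T × T := (dty φ y d, dty φ y (m d))

/-- VAR: sums of local observables concentrate -/
def St_VAR : Prop :=
  ∀ (A : LS) (f : (TD → A.L) → ℝ), Loc f → ∃ (r : ℕ) (C : ℝ), ∀ (n : ℕ) (m : HE n → HE n),
    IsM m → Inj m r → mn A (fun x => (∑ d, at_ m f d x - 3 * n * mn A f) ^ 2) ≤ C * n

/-- INJ: large girth -/
def St_INJ : Prop :=
  ∀ r : ℕ, ∃ g : ℕ, ∀ (n : ℕ) (m : HE n → HE n), IsM m → (∀ h, ¬ OnCyc m g h) → Inj m r

/-- GOOD: graphs that look like the tree (from INJ, G3, OM, SP) -/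
def St_GOOD : Prop :=
  (∀ r : ℕ, ∃ c : ℝ, 0 < c ∧ ∃ n0 : ℕ, ∀ n, n0 ≤ n → Even n → 0 < (Om (HE n)).card ∧
    c * (Om (HE n)).card ≤ (sel (Om (HE n)) fun m => Inj m r).card) ∧
  ∀ r D : ℕ, 1 ≤ D → ∃ n0 : ℕ, ∀ n, n0 ≤ n → Even n → ∃ m : HE n → HE n,
    IsM m ∧ Inj m r ∧ Sparse m D ((1 / 256000) ^ D * n)

/-- CNT: matchings with prescribed types -/
def St_CNT : Prop :=
  ∀ (α T : Type) [Fintype α] [DecidableEq α] [Fintype T] (ty : α → T) (ι : T → T),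
    (∀ t, ι (ι t) = t) → (Comp ty ι).card ^ 2 ≤ ∏ t, (num ty t).factorial

/-- OML: all matchings, from below -/
def St_OML : Prop :=
  ∀ (α : Type) [Fintype α] [DecidableEq α] (k : ℕ), Fintype.card α = 2 * k →
    (2 * k).factorial ≤ (2 * k + 1) * (Om α).card ^ 2

/-- GM: multinomial coefficients in groups -/
def St_GM : Prop :=
  ∀ (α T S : Type) [Fintype α] [DecidableEq α] [Fintype T] [Fintype S] (a : α → T)
    (M : T × S → ℕ),
    (sel (univ : Finset (α → S)) fun b => ∀ p, num (fun d => (a d, b d)) p = M p).card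
      * ∏ p, (M p).factorial ≤ ∏ t, (num a t).factorial

/-- PC: the number of pairs with a given profile (from CNT, GM, MULT) -/
def St_PC : Prop :=
  ∀ (β T : Type) [Fintype β] [Fintype T] (φ : β → Fin 3 → T) (n : ℕ) (N : β → ℕ) (M : T × T → ℕ),
    (sel (Om (HE n) ×ˢ (univ : Finset (Fin n → β))) fun q =>
        (∀ b, num q.2 b = N b) ∧ ∀ p, num (pty φ q.1 q.2) p = M p).card ^ 2
      * (∏ b, (N b).factorial) ^ 2 * ∏ p, (M p).factorial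
      ≤ n.factorial ^ 2 * (∏ a, (∑ b, M (a, b)).factorial) ^ 2

/-- PROF: the sum over all profiles (from PC, OML, STI) -/
def St_PROF : Prop :=
  ∀ (β T : Type) [Fintype β] [Fintype T] (φ : β → Fin 3 → T) (δ : ℝ), 0 < δ →
    ∃ n0 : ℕ, ∀ n, n0 ≤ n → Even n →
      ∑ m ∈ Om (HE n), ∑ y : Fin n → β,
          exp (-(n * (He y - 3 * He (dty φ y) + 3 / 2 * He (pty φ m y))))
        ≤ exp (δ * n) * (Om (HE n)).card

/-- ENT: inequalities of Gibbs and Pinsker, factors, convexity -/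
def St_ENT : Prop :=
  (∀ (X : Type) [Fintype X] (p g : X → ℝ), IsP p →
    ∑ x, negMulLog (p x) - ex p g ≤ log (∑ x, exp (-g x))) ∧
  (∀ (X : Type) [Fintype X] (p q : X → ℝ), IsP p → IsP q → (∀ x, q x = 0 → p x = 0) →
    0 ≤ kl p q ∧ (∑ x, |p x - q x|) ^ 2 ≤ 4 * kl p q) ∧
  (∀ (ι β γ : Type) [DecidableEq ι] [Fintype β] [Fintype γ] (A : LS) (Y : (ι → A.L) → β)
    (h : β → γ), Loc Y → ent A (fun x => h (Y x)) ≤ ent A Y) ∧
  ∀ (κ X : Type) [Fintype κ] [Fintype X] (w : κ → ℝ) (p : κ → X → ℝ), IsP w →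
    (∀ k x, 0 ≤ p k x) →
    ∑ x, (∑ k, w k * p k x) * log (∑ k, w k * p k x) ≤ ∑ k, w k * ∑ x, p k x * log (p k x)

/-- EMP: empirical entropies (from VAR) -/
def St_EMP : Prop :=
  ∀ (A : LS) (T : Type) [Fintype T] (t : (TD → A.L) → T), Loc t →
    (∃ r : ℕ, ∀ (n : ℕ) (m : HE n → HE n), Inj m r → ∀ (J : Type) [Fintype J] [Nonempty J]
      (e : J → HE n), mn A (fun x => He fun j => at_ m t (e j) x) ≤ ent A t) ∧
    ∀ δ : ℝ, 0 < δ → ∃ r n0 : ℕ, ∀ (n : ℕ) (m : HE n → HE n), n0 ≤ n → IsM m → Inj m r →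
      ent A t - δ ≤ mn A fun x => He fun d => at_ m t d x

/-- EI: the entropy inequality (from GOOD, PROF, ENT, EMP) -/
def St_EI : Prop :=
  ∀ (A : LS) (β T : Type) [Fintype β] [Fintype T] (Y : (TD → A.L) → β) (t : (TD → A.L) → T)
    (φ : β → Fin 3 → T) (c : ℝ) (r : ℕ), Loc Y → (∀ i x, at_ tm t (rho i d0) x = φ (Y x) i) →
    (∀ (n : ℕ) (m : HE n → HE n), IsM m → Inj m r →
      c * n ≤ ent A fun x (v : Fin n) => at_ m Y (v, 0) x) →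
    c ≤ ent A Y - 3 * ent A t + 3 / 2 * ent A fun x => (t x, at_ tm t (tm d0) x)

/-- TOP: the norm of the sum over descendants on the tree -/
def St_TOP : Prop :=
  ∀ (G : TD → ℝ) (M : ℝ), (∀ S : Finset TD, ∑ t ∈ S, G t ^ 2 ≤ M) → ∀ (k : ℕ) (S : Finset TD),
    ∑ t ∈ S, (∑ l ∈ words k, G (des tm t l)) ^ 2 ≤ 4 * ((k : ℝ) + 1) ^ 2 * 2 ^ k * M

/-- LOP: the same on a graph, for functions with small support (from TOP) -/
def St_LOP : Prop :=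
  ∀ (B : Finset TD) (k : ℕ), ∃ r : ℕ, ∀ (n : ℕ) (m : HE n → HE n), IsM m → Inj m r →
    ∀ (a : HE n) (g : HE n → ℝ), (∀ e, a ∉ B.image (cov m e) → g e = 0) →
      ∑ d, (∑ l ∈ words k, g (des m d l)) ^ 2 ≤ 4 * ((k : ℝ) + 1) ^ 2 * 2 ^ k * ∑ e, g e ^ 2

/-- MART: martingale differences -/
def St_MART : Prop :=
  ∀ (A : LS) (ι : Type) [Fintype ι] [DecidableEq ι],
    ∃ D : ι → ((ι → A.L) → ℝ) → (ι → A.L) → ℝ,
      (∀ F, mn A (fun x => F x ^ 2) = mn A F ^ 2 + ∑ a, mn A fun x => D a F x ^ 2) ∧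
      (∀ (κ : Type) (S : Finset κ) (f : κ → (ι → A.L) → ℝ) (a : ι) (x : ι → A.L),
        D a (fun y => ∑ k ∈ S, f k y) x = ∑ k ∈ S, D a (f k) x) ∧
      ∀ (F : (ι → A.L) → ℝ) (U : Finset ι) (a : ι) (x : ι → A.L), Dep F U → a ∉ U → D a F x = 0

/-- BSV: decay of correlations (from GOOD, LOP, MART) -/
def St_BSV : Prop :=
  ∀ (A : LS) (y : (TD → A.L) → ℝ) (k : ℕ), Loc y → mn A y = 0 →
    mn A (fun x => (∑ l ∈ words k, at_ tm y (des tm d0 l) x) ^ 2)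
      ≤ 4 * ((k : ℝ) + 1) ^ 2 * 2 ^ k * mn A fun x => y x ^ 2

/-- CORED: cores in sparse graphs -/
def St_CORED : Prop :=
  ∀ (n k : ℕ) (m : HE n → HE n) (x : ℝ) (E E' X : Finset (HE n)), 1 ≤ k → IsM m →
    Sparse m (2 * (1 + 3 * k)) x → (((1 + 2 * k) * E.card : ℕ) : ℝ) ≤ x →
    (∀ f ∈ E, ∀ b, ∃ w : List Bool, w.length < k ∧
      (des m f (b :: w) ∈ E' ∨ des m f (b :: w) ∈ X)) →
    E.card ≤ 12 * (1 + 3 * k) * (X.card + (E' \ E).card)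

/-- CORE: cores of local events (from VAR, GOOD, CORED) -/
def St_CORE : Prop :=
  ∃ c0 : ℝ, 0 < c0 ∧ ∀ k : ℕ, 1 ≤ k → ∀ (A : LS) (E E' X : (TD → A.L) → Prop),
    Loc E → Loc E' → Loc X → (∀ x, E x → E' x) → pr A E' + pr A X ≤ c0 ^ k →
    (∀ x, E x → ∀ b, ∃ w : List Bool, w.length < k ∧
      (at_ tm E' (des tm d0 (b :: w)) x ∨ at_ tm X (des tm d0 (b :: w)) x)) →
    pr A E ≤ 12 * (1 + 3 * k) * (pr A X + pr A E' - pr A E)

/-- ITER: windows of levels (from CORE) -/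
def St_ITER : Prop :=
  ∃ c0 : ℝ, 0 < c0 ∧ ∀ k : ℕ, 1 ≤ k → ∀ (A : LS) (Br X : ℕ → (TD → A.L) → Prop),
    (∀ t, Loc (Br t)) → (∀ t, Loc (X t)) →
    (∀ t x, Br (t + k) x → ∀ b, (∃ (w : List Bool) (j : ℕ), w.length < k ∧ j < k ∧
      at_ tm (Br (t + j)) (des tm d0 (b :: w)) x) ∨ at_ tm (X t) (des tm d0 [b]) x) →
    ∀ (n t : ℕ) (u v : ℝ), (∀ j ≤ n * k, pr A (Br (t + j)) ≤ u ∧ pr A (X (t + j)) ≤ v) →
      ((n : ℝ) * k + 1) * (u + v) ≤ c0 ^ k →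
      pr A (Br (t + n * k)) ≤ ((n : ℝ) * k + 1) *
        ((12 * (1 + 3 * k) / (1 + 12 * (1 + 3 * k))) ^ n * u + 12 * (1 + 3 * k) * v)

/-- XB: large sums over descendants (from BSV) -/
def St_XB : Prop :=
  ∀ (A : LS) (z : (TD → A.L) → ℝ) (k : ℕ) (κ δ Q : ℝ), Loc z → 0 ≤ κ → 0 < δ →
    mn A (fun x => z x ^ 2) ≤ Q → 4 * (4 * κ ^ 2) ^ k * Q ≤ δ ^ 2 →
    δ ^ 2 * pr A (fun x => δ < κ ^ k * ∑ l ∈ words k, at_ tm z (des tm d0 l) x)
      ≤ 16 * ((k : ℝ) + 1) ^ 2 * (2 * κ ^ 2) ^ k * Q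

/-- NUM: choice of the window -/
def St_NUM : Prop :=
  ∀ θ ε : ℝ, 0 ≤ θ → θ < 1 → 0 < ε → ∃ k n : ℕ, 1 ≤ k ∧
    ((n : ℝ) * k + 1) * (12 * (1 + 3 * k) / (1 + 12 * (1 + 3 * k))) ^ n ≤ ε ∧
    ((n : ℝ) * k + 1) * (12 * (1 + 3 * k) * (((k : ℝ) + 1) ^ 2 * θ ^ k)) ≤ ε

end Pool.Agent.Lib.PT5
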