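import Pool.Agent.Lib.PT5.Defs

/-! Experiments, messages and the statements of the part on reconstruction. -/

namespace Pool.Agent.Lib.PT5

open Finset Real RC5

/-- boundaries of patterns -/
def Bd : ℕ → Type
  | 0 => Star
  | k + 1 => Bd k × Bd k

instance instBd : ∀ k, Fintype (Bd k)
  | 0 => inferInstanceAs (Fintype Star)
  | k + 1 => @instFintypeProd _ _ (instBd k) (instBd k)

/-- the deepest level of a pattern -/
def bd : ∀ k, Pt (k + 1) → Bd k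
  | 0, p => p.1
  | k + 1, p => (bd k p.2.1, bd k p.2.2)

/-- likelihood of a boundary given the state above the top edge -/
noncomputable def vS (s : ℝ) : ∀ k, Bd k → Vec
  | 0, x => fun t => tau x * psi s t (ds x 0)
  | k + 1, b => Am s (Vm (vS s k b.1) (vS s k b.2))

/-- sublinear on the cone of nonnegative vectors -/
def Subl (F : Vec → ℝ) : Prop :=
  (∀ v w, 0 ≤ v → 0 ≤ w → F (v + w) ≤ F v + F w) ∧ ∀ (a : ℝ) v, 0 ≤ a → 0 ≤ v → F (a • v) = a * F v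

/-- an experiment -/
def IsE {I : Type} [Fintype I] (v : I → Vec) : Prop := (∀ i, 0 ≤ v i) ∧ ∑ i, v i = 1

/-- less informative -/
def Dom {I J : Type} [Fintype I] [Fintype J] (v : I → Vec) (u : J → Vec) : Prop :=
  ∀ F, Subl F → ∑ i, F (v i) ≤ ∑ j, F (u j)

/-- one more level -/
noncomputable def TE {I : Type} (s : ℝ) (v : I → Vec) (i : I × I) : Vec := Am s (Vm (v i.1) (v i.2))

/-- normalised deviation -/
noncomputable def nz (v : Vec) : Vec := fun t => v t / avg v - 1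

/-- perspective -/
noncomputable def per (f : Vec → ℝ) (v : Vec) : ℝ := avg v * f (nz v)

/-- moment of an experiment -/
noncomputable def mo {I : Type} [Fintype I] (v : I → Vec) (f : Vec → ℝ) : ℝ := ∑ i, per f (v i)

/-- the simplex of deviations -/
def Sx (x : Vec) : Prop := (∀ t, -1 ≤ x t) ∧ ∑ t, x t = 0

/-- linear part -/
noncomputable def L1 (x : Vec) : Vec := fun t => Vm x 1 (io1 t)

noncomputable def bb (x y : Vec) : ℝ := avg (Vm x y)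

noncomputable def B0 (x y : Vec) : Vec := fun t => Vm x y (io1 t) - bb x y

noncomputable def dot (a x : Vec) : ℝ := ∑ t, a t * x t

/-- a scalar product given by its factor -/
noncomputable def ip (R : T1 → Vec) (x y : Vec) : ℝ := ∑ j, dot (R j) x * dot (R j) y

noncomputable def qf (R : T1 → Vec) (x : Vec) : ℝ := ip R x x

/-- odd part -/
noncomputable def od (x : Vec) (c : ZMod 5) : ℝ := (x (c, true) - x (c, false)) / 2

/-- data of the last phase -/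
structure Dat where
  M : T1 → Vec
  M1 : T1 → Vec
  M2 : T1 → Vec
  N : T1 → Vec
  Ns : T1 → Vec
  K : T1 → Vec
  Sg : T1 → Vec
  th : ℝ
  qb : ℝ
  ta : ℝ
  tb : ℝ
  S : ℝ
  sd : ℝ
  r : ℝ
  C : ℝ

noncomputable def tl1 (D : Dat) (x : Vec) : ℝ := qf D.N x * max (qf D.N x - D.qb) 0

noncomputable def tl2 (D : Dat) (x : Vec) : ℝ := max (qf D.K x - D.th) 0

/-- the inequalities between the data -/
structure Dat.Good (D : Dat) : Prop where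
  th0 : 0 < D.th
  th1 : D.th < 1
  qb0 : 0 ≤ D.qb
  S0 : 0 ≤ D.S
  sd0 : 0 ≤ D.sd
  r0 : 0 ≤ D.r
  r1 : D.r < 1
  spl : ∀ p q : Vec, ∑ t, p t = 0 → ∑ t, q t = 0 → qf D.M (p - q) ≤ qf D.M1 p + qf D.M2 q
  m2 : ∀ x : Vec, ∑ t, x t = 0 → qf D.M2 (L1 x) ≤ qf D.N x
  bn : ∀ x y : Vec, ∑ t, x t = 0 → ∑ t, y t = 0 → bb x y ^ 2 ≤ qf D.N x * qf D.Ns y
  bk : ∀ x y : Vec, ∑ t, x t = 0 → ∑ t, y t = 0 → bb x y ^ 2 ≤ qf D.K x * qf D.K y
  odd : ∀ a : ZMod 5 → ℝ, ∑ k, (∑ c, a c * od (D.Sg k) c) ^ 2 ≤ 5 * D.sd * ∑ c, a c ^ 2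
  sup : ∀ u x y, Sx u → Sx x → Sx y → qf D.M (u - L1 x - L1 y) ≤ D.S
  con : ∀ x : Vec, ∑ t, x t = 0 →
    2 * (1 + 3 / 13 * D.sd) * qf D.M (L1 x)
      + (∑ k, qf D.M1 (B0 (D.Sg k) x) + 4 * D.qb * ∑ k, bb (D.Sg k) x ^ 2
        + 4 * D.ta * qf D.Ns x) / (1 - D.th)
      + 2 * D.S * D.tb / D.th * qf D.K x ≤ D.r * qf D.M x
  low : ∀ x : Vec, ∑ t, x t = 0 → sq2 x ≤ D.C * qf D.M x

/-- the moments of an experiment are below the data -/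
structure Dat.Fit (D : Dat) {I : Type} [Fintype I] (v : I → Vec) : Prop where
  cov : ∀ a : Vec, mo v (fun x => dot a x ^ 2) ≤ ∑ k, dot a (D.Sg k) ^ 2
  t1 : mo v (tl1 D) ≤ D.ta
  t2 : mo v (tl2 D) ≤ D.tb

/-- admissible messages -/
def Ms (s : ℝ) (a : Vec) : Prop := (∀ t, 1 - s ≤ a t) ∧ avg a = 1

/-- remainder of one step -/
noncomputable def Rm (s : ℝ) (a b : Vec) : Vec := Fm s a b - 1 - s • L1 (a - 1) - s • L1 (b - 1)

/-- SP: sums over the interior of a pattern -/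
def St_SP : Prop :=
  ∀ (s : ℝ) (k : ℕ), (∀ (t : T1) (f : Bd k → ℝ),
      ∑ p, wt s (k + 1) p * psi s t (top p) * f (bd k p) = ∑ b, vS s k b t * f b) ∧
    (∀ (t : T1) (f : Bd (k + 1) → ℝ),
      ∑ p, wt s (k + 2) p * ind (top p = t) * f (bd (k + 1) p)
        = ∑ b : Bd k × Bd k, Vm (vS s k b.1) (vS s k b.2) t / 10 * f b) ∧
    (0 ≤ s → s ≤ 1 → IsE (vS s k) ∧
      ∀ p, avg (vS s k (bd k p)) ≠ 0 → am s k p - 1 = nz (vS s k (bd k p)))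

/-- QK: the mean square of the message is a moment (from SP) -/
def St_QK : Prop := ∀ (s : ℝ) (k : ℕ), 0 ≤ s → s ≤ 1 → qk s k = mo (vS s k) sq2

/-- TM: the order of experiments is kept -/
def St_TM : Prop :=
  ∀ (I J : Type) [Fintype I] [Fintype J] (v : I → Vec) (u : J → Vec), IsE v → IsE u → Dom v u →
    ∀ s, 0 ≤ s → s ≤ 1 → IsE (TE s v) ∧ Dom (TE s v) (TE 1 u)

/-- DOM: monotone in the noise and in the depth (from SP, TM) -/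
def St_DOM : Prop :=
  ∀ k, (∀ s, 0 ≤ s → s ≤ 1 → Dom (vS s k) (vS 1 k)) ∧ Dom (vS 1 (k + 1)) (vS 1 k) ∧
    Dom (vS 1 k) fun t : T1 => (Pi.single t 1 : Vec)

/-- PER: perspectives of convex functions -/
def St_PER : Prop :=
  (∀ f : Vec → ℝ, ConvexOn ℝ Set.univ f → Subl (per f)) ∧
  (∀ R, ConvexOn ℝ Set.univ (qf R)) ∧ ConvexOn ℝ Set.univ sq2 ∧
  (∀ a, ConvexOn ℝ Set.univ fun x => dot a x ^ 2) ∧
  ∀ D : Dat, 0 ≤ D.qb → ConvexOn ℝ Set.univ (tl1 D) ∧ ConvexOn ℝ Set.univ (tl2 D)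

/-- PW: the inequality for one pair of messages -/
def St_PW : Prop :=
  ∀ D : Dat, D.Good → ∀ x y, Sx x → Sx y →
    per (qf D.M) (Am 1 (Vm (1 + x) (1 + y)))
      ≤ qf D.M (L1 x + L1 y) * (1 - bb x y) + 2 * ip D.M (L1 x + L1 y) (B0 x y)
        + (qf D.M1 (B0 x y) + 2 * D.qb * bb x y ^ 2 * 2
          + 2 * (qf D.Ns y * tl1 D x + qf D.Ns x * tl1 D y)) / (1 - D.th)
        + D.S / D.th * (qf D.K y * tl2 D x + qf D.K x * tl2 D y)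

/-- MOM: mixed moments of two independent messages -/
def St_MOM : Prop :=
  ∀ (D : Dat) (I : Type) [Fintype I] (v : I → Vec), D.Good → IsE v → D.Fit v →
    mo v (fun x => mo v fun y =>
        qf D.M (L1 x + L1 y) * (1 - bb x y) + 2 * ip D.M (L1 x + L1 y) (B0 x y))
      ≤ 2 * (1 + 3 / 13 * D.sd) * mo v (fun x => qf D.M (L1 x)) ∧
    ∀ y : Vec, mo v (fun x => qf D.M1 (B0 x y)) ≤ ∑ k, qf D.M1 (B0 (D.Sg k) y) ∧
      mo v (fun x => bb x y ^ 2) ≤ ∑ k, bb (D.Sg k) y ^ 2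

/-- END: contraction (from PW, MOM) -/
def St_END : Prop :=
  ∀ (D : Dat) (I : Type) [Fintype I] (v : I → Vec), D.Good → IsE v → D.Fit v →
    mo (TE 1 v) (qf D.M) ≤ D.r * mo v (qf D.M)

/-- TAB: the certificate -/
def St_TAB : Prop := ∃ (D : Dat) (k : ℕ), D.Good ∧ D.Fit (vS 1 k)

/-- NR: no reconstruction (from SP, QK, DOM, PER, END, TAB) -/
def St_NR : Prop := ∀ ε : ℝ, 0 < ε → ∃ k, ∀ s, 0 ≤ s → s ≤ 1 → qk s k ≤ ε

/-- LIN: the linear part contracts -/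
def St_LIN : Prop :=
  ∃ (N : Vec → ℝ) (κ C : ℝ), 0 ≤ κ ∧ 2 * κ ^ 2 < 1 ∧ 1 ≤ C ∧ (∀ x, 0 ≤ N x) ∧
    (∀ x y, N (x + y) ≤ N x + N y) ∧ (∀ (a : ℝ) x, N (a • x) = |a| * N x) ∧
    (∀ x, sq2 x ≤ N x ^ 2 ∧ N x ^ 2 ≤ C * sq2 x) ∧
    ∀ x : Vec, ∑ t, x t = 0 → N (L1 x) ≤ κ * N x

/-- STEP: one step of messages -/
def St_STEP : Prop :=
  (∀ x y : Vec, L1 (x + y) = L1 x + L1 y) ∧ (∀ (a : ℝ) (x : Vec), L1 (a • x) = a • L1 x) ∧
  (∀ x : Vec, ∑ t, L1 x t = ∑ t, x t) ∧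
  (∀ s (g : D5) (a b : Vec), Fm s (a ∘ g1 g) (b ∘ g1 g) = Fm s a b ∘ g1 g) ∧
  (∀ (g : D5) (x : Vec), L1 (x ∘ g1 g) = L1 x ∘ g1 g) ∧
  (∀ t t' : T1, ∃ g : D5, g1 g t = t') ∧ (∀ g : D5, Function.Bijective (g1 g)) ∧
  (∀ s, 0 ≤ s → ∀ b, Ms s fun t => psi s t b) ∧
  (∀ s a, 0 ≤ s → s ≤ 1 → Ms s a → sq2 (a - 1) ≤ 90 ∧ ∑ t, (a - 1) t = 0) ∧
  ∀ s1, s1 < 1 → ∃ C, 0 ≤ C ∧ ∀ s a b, 0 ≤ s → s ≤ s1 → Ms s a → Ms s b →
    Ms s (Fm s a b) ∧ (1 - s1) ^ 2 ≤ avg (Vm a b) ∧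
      sq2 (Rm s a b) ≤ C * (sq2 (a - 1) * sq2 (b - 1))

end Pool.Agent.Lib.PT5
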