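import Pool.Agent.Lib.PT5.ADefs
import Pool.Agent.Lib.PT5.CDefs

/-! Statements on processes: free energy, heat bath, messages, annealing. -/

namespace Pool.Agent.Lib.PT5

open Finset Real RC5

/-- entropy of an observable of the configuration -/
noncomputable def enP {β : Type} [Fintype β] (P : Proc) (Y : (TV → Star) → β) : ℝ :=
  ent P.A fun x => Y (cfg P tm x)

/-- mean logarithm of the weight of a vertex -/
noncomputable def lV (P : Proc) : ℝ := nu P fun c => log (tau (see c d0))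

/-- mean logarithm of the weight of an edge -/
noncomputable def lE (P : Proc) (s : ℝ) : ℝ :=
  nu P fun c => log (psi s (st c d0) (st c (tm d0)))

/-- vertices at depth at most `k` -/
def VB (k : ℕ) : Finset TV := univ ×ˢ (range (k + 1)).biUnion words

theorem mem_VB {k : ℕ} {v : TV} : v ∈ VB k ↔ v.2.length ≤ k := by simp [VB]

section Bath
variable {V : Type}

/-- the states of the neighbours seen from a dart -/
def nbr (m : V × Fin 3 → V × Fin 3) (c : V → Star) (d : V × Fin 3) : Fin 3 → T1 :=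
  fun i => st c (m (rho i d))

/-- weight of a star given its neighbours -/
noncomputable def hw (s : ℝ) (b : Fin 3 → T1) (y : Star) : ℝ := tau y * ∏ i, psi s (ds y i) (b i)

/-- law of a star given its neighbours -/
noncomputable def gam (s : ℝ) (b : Fin 3 → T1) (y : Star) : ℝ := hw s b y / ∑ z, hw s b z

/-- put the star `y`, seen from `d`, at the vertex of `d` -/
def put [DecidableEq V] (c : V → Star) (d : V × Fin 3) (y : Star) : V → Star :=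
  Function.update c d.1 (rot (-d.2) y)

/-- heat bath at the vertex of `d` -/
noncomputable def Kd [DecidableEq V] (s : ℝ) (m : V × Fin 3 → V × Fin 3) (d : V × Fin 3)
    (f : (V → Star) → ℝ) (c : V → Star) : ℝ := ∑ y, gam s (nbr m c d) y * f (put c d y)

/-- `c'` is `c` updated at the vertices of the darts in `C` -/
def IsUpd {L : Type} (ev : L → (Fin 3 → T1) → Star) (m : V × Fin 3 → V × Fin 3)
    (C : V × Fin 3 → Prop) (c : V → Star) (z : V × Fin 3 → L) (c' : V → Star) : Prop :=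
  (∀ d, C d → see c' d = ev (z d) (nbr m c d)) ∧ ∀ v, (∀ j, ¬ C (v, j)) → c' v = c v

end Bath

/-- labels that carry a random response to the neighbours -/
structure FnOk (s : ℝ) (F : LS) (ev : F.L → (Fin 3 → T1) → Star) : Prop where
  law : ∀ (b : Fin 3 → T1) (h : Star → ℝ), ∑ a, F.w a * h (ev a b) = ∑ y, gam s b y * h y
  sym : ∀ g : D5, ∃ e, Keep F e ∧ ∀ a b, ev (e a) (g1 g ∘ b) = gs g (ev a b)

/-- a fair coin -/
@[reducible] noncomputable def fair : LS := coin (1 / 2) (by norm_num) (by norm_num)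

/-- the root dart is the only flagged dart of the ball -/
def Cen (R : ℕ) (φ : TD → Bool) : Prop := φ d0 = true ∧ ∀ t ∈ Ball R, t ≠ d0 → φ t = false

/-- approximate equilibrium on a ball -/
def Equi (P : Proc) (s : ℝ) (k : ℕ) (δ : ℝ) : Prop :=
  ∀ v ∈ VB k, ∀ f : (TV → Star) → ℝ, Dep f (VB k) → (∀ c, |f c| ≤ 1) →
    |nu P f - nu P (Kd s tm (v, 0) f)| ≤ δ

/-- mean over an ideal edge -/
noncomputable def eg (s : ℝ) (g : T1 → T1 → ℝ) : ℝ := ∑ a, ∑ b, psi s a b / 100 * g a b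

/-- mean over an edge with two messages -/
noncomputable def Gf (s : ℝ) (g : T1 → T1 → ℝ) (h h' : Vec) : ℝ :=
  (∑ a, ∑ b, psi s a b * (h a * h' b) * g a b) / ∑ a, ∑ b, psi s a b * (h a * h' b)

/-- the law of an edge is close to the ideal one -/
def Cls (P : Proc) (s e : ℝ) : Prop :=
  ∀ g : T1 → T1 → ℝ, (∀ a b, |g a b| ≤ 1) →
    |nu P (fun c => g (st c d0) (st c (tm d0))) - eg s g| ≤ e

/-- mean square of the message of a process -/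
noncomputable def qn (P : Proc) (s : ℝ) (k : ℕ) : ℝ :=
  nu P fun c => sq2 (am s k (pat tm c (k + 1) d0) - 1)

/-- a field of messages -/
structure Fld (A : LS) (s : ℝ) (a : ℕ → (TD → A.L) → Vec) : Prop where
  loc : ∀ t, Loc (a t)
  ms : ∀ t x, Ms s (a t x)
  step : ∀ t x, a (t + 1) x
    = Fm s (at_ tm (a t) (ch tm d0 false) x) (at_ tm (a t) (ch tm d0 true) x)
  mean : ∀ t i, mn A (fun x => a t x i) = 1

/-- mean square of a field -/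
noncomputable def qq (A : LS) (a : ℕ → (TD → A.L) → Vec) (t : ℕ) : ℝ :=
  mn A fun x => sq2 (a t x - 1)

/-- mean square of the remainder -/
noncomputable def rr (A : LS) (s : ℝ) (a : ℕ → (TD → A.L) → Vec) (t : ℕ) : ℝ :=
  mn A fun x => sq2 (Rm s (at_ tm (a t) (ch tm d0 false) x) (at_ tm (a t) (ch tm d0 true) x))

/-- a norm in which the linear part contracts -/
structure Nrm (N : Vec → ℝ) (κ C : ℝ) : Prop where
  k0 : 0 ≤ κ
  k1 : 2 * κ ^ 2 < 1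
  c1 : 1 ≤ C
  nn : ∀ x, 0 ≤ N x
  add : ∀ x y, N (x + y) ≤ N x + N y
  smul : ∀ (a : ℝ) x, N (a • x) = |a| * N x
  eqv : ∀ x, sq2 x ≤ N x ^ 2 ∧ N x ^ 2 ≤ C * sq2 x
  con : ∀ x : Vec, ∑ t, x t = 0 → N (L1 x) ≤ κ * N x

theorem nrm_of_lin (h : St_LIN) : ∃ N κ C, Nrm N κ C := by
  obtain ⟨N, κ, C, h0, h1, h2, h3, h4, h5, h6, h7⟩ := h
  exact ⟨N, κ, C, h0, h1, h2, h3, h4, h5, h6, h7⟩

/-- EW: mean logarithm of the weight -/
def St_EW : Prop :=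
  ∀ (P : Proc) (s : ℝ), ∃ r : ℕ, ∀ (n : ℕ) (m : HE n → HE n), IsM m → Inj m r →
    ex (law P m) (logW s m) = n * (lV P + 3 / 2 * lE P s)

/-- EIP: the entropy inequality for processes (from EI, EW, ENT) -/
def St_EIP : Prop :=
  ∀ (P : Proc) (s η : ℝ) (β T : Type) [Fintype β] [Fintype T] (Y : (TV → Star) → β)
    (t : (TV → Star) → T) (φ : β → Fin 3 → T) (χ : β → Star), Exc P s η → Loc Y →
    (∀ i c, t (pull tm (rho i d0) c) = φ (Y c) i) → (∀ c, see c d0 = χ (Y c)) →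
    -η - lV P - 3 / 2 * lE P s
      ≤ enP P Y - 3 * enP P t + 3 / 2 * enP P fun c => (t c, t (pull tm (tm d0) c))

/-- C1: one vertex (from EIP, ENT, STEP) -/
def St_C1 : Prop :=
  ∀ (P : Proc) (s η : ℝ), 0 ≤ s → s < 1 → Exc P s η →
    0 ≤ η ∧ -enP P (fun c => see c d0) - lV P ≤ η

/-- PATW: the weights of patterns (from SP) -/
def St_PATW : Prop :=
  ∀ (s : ℝ) (k : ℕ), 0 ≤ s → s < 1 → IsP (muE s k) ∧ (∀ p, 0 < muE s k p) ∧
    ∀ P : Proc, nu P (fun c => log (muE s k (patE tm c k d0)))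
      = (4 * 2 ^ k - 2) * lV P + (4 * 2 ^ k - 3) * lE P s

/-- CLOSE: small excess gives closeness (from EIP, C1, PATW, ENT) -/
def St_CLOSE : Prop :=
  ∀ (P : Proc) (s η : ℝ), 0 ≤ s → s < 1 → Exc P s η →
    ∀ k, (∑ p, |nuE P k p - muE s k p|) ^ 2 ≤ 16 * 2 ^ k * η

/-- KNAT: the heat bath is positive, local and natural -/
def St_KNAT : Prop :=
  (∀ (s : ℝ) (b : Fin 3 → T1), 0 ≤ s → s < 1 →
    IsP (gam s b) ∧ (∀ y, 0 < hw s b y) ∧ ∀ y, 0 < gam s b y) ∧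
  (∀ (V : Type) [DecidableEq V] (s : ℝ) (m : V × Fin 3 → V × Fin 3) (d : V × Fin 3)
    (f : (V → Star) → ℝ) (U : Finset V), Dep f U → (∀ i, (m (rho i d)).1 ∈ U) →
    Dep (Kd s m d f) U) ∧
  (∀ (V : Type) [DecidableEq V] (s : ℝ) (m : V × Fin 3 → V × Fin 3) (d : V × Fin 3)
    (f : (V → Star) → ℝ), Loc f → Loc (Kd s m d f)) ∧
  ∀ (V : Type) [DecidableEq V] (s : ℝ) (m : V × Fin 3 → V × Fin 3) (d : V × Fin 3)
    (f : (TV → Star) → ℝ) (R : ℕ), Invo m → Inj m R → Dep f (VB R) →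
    ∀ c, Kd s tm d0 f (pull m d c) = Kd s m d (fun c => f (pull m d c)) c

/-- KER: one heat bath lowers the free energy (from KNAT, ENT) -/
def St_KER : Prop :=
  ∀ (s : ℝ) (n : ℕ) (m : HE n → HE n) (d : HE n) (p q : (Fin n → Star) → ℝ), 0 ≤ s → s < 1 →
    IsM m → (∀ i, (m (rho i d)).1 ≠ d.1) → IsP p → (∀ f, ex q f = ex p (Kd s m d f)) →
    IsP q ∧ ∀ f : (Fin n → Star) → ℝ, (∀ c, |f c| ≤ 1) →
      fre s m q ≤ fre s m p - 1 / 4 * (ex p f - ex q f) ^ 2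

/-- FN: random responses exist (from KNAT, STEP) -/
def St_FN : Prop :=
  ∀ s : ℝ, 0 ≤ s → s < 1 → ∃ (F : LS) (ev : F.L → (Fin 3 → T1) → Star), FnOk s F ev

/-- PROC: the process after one round (from STEP) -/
def St_PROC : Prop :=
  ∀ (s : ℝ) (P : Proc) (F : LS) (ev : F.L → (Fin 3 → T1) → Star) (R : ℕ), FnOk s F ev →
    ∃ P' : Proc, ∀ (n : ℕ) (m : HE n → HE n), IsM m →
      ∃ u : (HE n → Bool) → (Fin n → Star) → (HE n → F.L) → Fin n → Star,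
        (∀ φ c z, IsUpd ev m (fun d => at_ m (Cen R) d φ) c z (u φ c z)) ∧
        ∀ h : (Fin n → Star) → ℝ, ex (law P' m) h
          = mn fair fun φ => ex (law P m) fun c => mn F fun z => h (u φ c z)

/-- SEQ: updates at separated darts (from KER, KNAT) -/
def St_SEQ : Prop :=
  ∀ (s : ℝ) (F : LS) (ev : F.L → (Fin 3 → T1) → Star), 0 ≤ s → s < 1 → FnOk s F ev →
    ∀ (n : ℕ) (m : HE n → HE n) (p : (Fin n → Star) → ℝ) (f : HE n → (Fin n → Star) → ℝ)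
      (U : HE n → Finset (Fin n)), IsM m → IsP p →
      ∀ (C : Finset (HE n)) (q : (Fin n → Star) → ℝ)
        (u : (Fin n → Star) → (HE n → F.L) → Fin n → Star),
        (∀ c z, IsUpd ev m (· ∈ C) c z (u c z)) →
        (∀ d ∈ C, Dep (f d) (U d) ∧ (∀ c, |f d c| ≤ 1) ∧ d.1 ∈ U d ∧
          (∀ i, (m (rho i d)).1 ∈ U d ∧ (m (rho i d)).1 ≠ d.1) ∧
          ∀ e ∈ C, e ≠ d → e.1 ∉ U d) →
        (∀ h, ex q h = ex p fun c => mn F fun z => h (u c z)) →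
        IsP q ∧ fre s m q
          ≤ fre s m p - 1 / 4 * ∑ d ∈ C, (ex p (f d) - ex p (Kd s m d (f d))) ^ 2

/-- ROUND: a round lowers the excess (from FN, PROC, SEQ, KNAT, ENT) -/
def St_ROUND : Prop :=
  ∀ (s : ℝ) (R : ℕ), 0 ≤ s → s < 1 → ∃ κ : ℝ, 0 < κ ∧
    ∀ (P : Proc) (η : ℝ) (f : (TV → Star) → ℝ), Exc P s η → Dep f (VB R) → (∀ c, |f c| ≤ 1) →
      ∃ P' : Proc, Exc P' s (η - κ * (nu P f - nu P (Kd s tm d0 f)) ^ 2)

/-- EQ: approximate equilibrium is reached (from ROUND, C1, KNAT) -/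
def St_EQ : Prop :=
  ∀ (s : ℝ) (k : ℕ) (δ : ℝ), 0 ≤ s → s < 1 → 0 < δ → ∀ (P : Proc) (η : ℝ), Exc P s η →
    ∃ P' : Proc, Exc P' s η ∧ Equi P' s k δ

/-- PAT: patterns and configurations -/
def St_PAT : Prop :=
  ∀ k : ℕ, (∀ c y : TV → Star, patE tm c k d0 = patE tm y k d0 ↔ ∀ v ∈ VB k, c v = y v) ∧
    (∀ p, ∃ y : TV → Star, patE tm y k d0 = p) ∧
    ∀ c y : TV → Star, bd k (patE tm c k d0).1 = bd k (patE tm y k d0).1 →
      bd k (patE tm c k d0).2 = bd k (patE tm y k d0).2 → ∀ v : TV, v.2.length = k → c v = y v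

/-- WLOC: change of the weight at one vertex -/
def St_WLOC : Prop :=
  ∀ (s : ℝ) (k : ℕ) (y : TV → Star) (v : TV) (z : Star), v.2.length < k →
    muE s k (patE tm (put y (v, 0) z) k d0) * hw s (nbr tm y (v, 0)) (y v)
      = muE s k (patE tm y k d0) * hw s (nbr tm y (v, 0)) z

/-- RATIO: the density depends almost only on the boundary (from PAT, WLOC, PATW, KNAT) -/
def St_RATIO : Prop :=
  ∀ (s : ℝ) (k : ℕ), 0 ≤ s → s < 1 → ∃ C : ℝ, 0 ≤ C ∧ ∀ (P : Proc) (δ : ℝ), Equi P s k δ →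
    ∀ p p' : Pt (k + 1) × Pt (k + 1), bd k p.1 = bd k p'.1 → bd k p.2 = bd k p'.2 →
      |nuE P k p / muE s k p - nuE P k p' / muE s k p'| ≤ C * δ

/-- EDG1: small messages (from STEP) -/
def St_EDG1 : Prop :=
  ∃ C : ℝ, 0 ≤ C ∧ ∀ (s : ℝ) (g : T1 → T1 → ℝ) (a b a' b' : Vec), 0 ≤ s → s < 1 →
    (∀ x y, |g x y| ≤ 1) → Ms s a → Ms s b → Ms s a' → Ms s b' →
    |Gf s g (Vm a b) (Vm a' b')| ≤ 1 ∧ |Gf s g (Vm a b) (Vm a' b') - eg s g|
      ≤ C * (√(sq2 (a - 1)) + √(sq2 (b - 1)) + √(sq2 (a' - 1)) + √(sq2 (b' - 1)))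

/-- EDG2: the conditional law of the central edge (from SP) -/
def St_EDG2 : Prop :=
  ∀ (s : ℝ) (k : ℕ) (g : T1 → T1 → ℝ) (F : Bd (k + 1) × Bd (k + 1) → ℝ), 0 ≤ s → s < 1 →
    ∑ p : Pt (k + 1 + 1) × Pt (k + 1 + 1), muE s (k + 1) p *
      ((g (top p.1) (top p.2) - Gf s g (Vm (am s k p.1.2.1) (am s k p.1.2.2))
        (Vm (am s k p.2.2.1) (am s k p.2.2.2))) * F (bd (k + 1) p.1, bd (k + 1) p.2)) = 0

/-- FLD: the messages of a process (from STEP) -/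
def St_FLD : Prop :=
  ∀ s : ℝ, 0 ≤ s → s < 1 → (∀ k p, Ms s (am s k p)) ∧ ∀ (P : Proc) (k : ℕ),
    Fld P.A s fun t x => am s (k + t) (pat tm (cfg P tm x) (k + t + 1) d0)

/-- DLR: the law of an edge in equilibrium (from RATIO, EDG1, EDG2, FLD, PATW) -/
def St_DLR : Prop :=
  ∃ C : ℝ, 0 ≤ C ∧ ∀ (s : ℝ) (k : ℕ), 0 ≤ s → s < 1 → ∃ C' : ℝ, 0 ≤ C' ∧
    ∀ (P : Proc) (δ ε : ℝ), Equi P s (k + 1) δ → 0 ≤ ε → qn P s k ≤ ε ^ 2 →
      Cls P s (C' * δ + C * ε)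

/-- PTW: one step, pointwise (from STEP) -/
def St_PTW : Prop :=
  ∀ (s1 : ℝ) (N : Vec → ℝ) (κ C : ℝ), s1 < 1 → Nrm N κ C → ∃ C1 : ℝ, 0 ≤ C1 ∧
    ∀ (s : ℝ) (a b : Vec), 0 ≤ s → s ≤ s1 → Ms s a → Ms s b → sq2 (Rm s a b) ≤ C1 ∧
      sq2 (Fm s a b - 1) ≤ C1 * (sq2 (a - 1) + sq2 (b - 1)) ∧
      ∀ δ : ℝ, 0 ≤ δ → ¬ (δ < N (a - 1) ∧ δ < N (b - 1)) →
        N (Fm s a b - 1) ≤ (κ + C1 * δ) * (N (a - 1) + N (b - 1)) ∧
        sq2 (Rm s a b) ≤ C1 * δ ^ 2 * (sq2 (a - 1) + sq2 (b - 1))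

/-- DUH: the linear part wins after many steps (from BSV, LIN, STEP) -/
def St_DUH : Prop :=
  ∃ (J : ℕ) (K : ℝ), 0 ≤ K ∧ ∀ (s : ℝ) (A : LS) (a : ℕ → (TD → A.L) → Vec), 0 ≤ s → s ≤ 1 →
    Fld A s a → ∀ (t : ℕ) (ρ : ℝ), (∀ j < J, rr A s a (t + j) ≤ ρ) →
      qq A a (t + J) ≤ qq A a t / 4 + K * ρ

/-- R4: no branching -/
def St_R4 : Prop :=
  ∀ (L : Type) (z : ℕ → (TD → L) → ℝ) (Br : ℕ → (TD → L) → Prop) (κ : ℝ), 0 ≤ κ →
    (∀ t x, ¬ Br t x →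
      z (t + 1) x ≤ κ * (at_ tm (z t) (ch tm d0 false) x + at_ tm (z t) (ch tm d0 true) x)) →
    ∀ (t k : ℕ) (x : TD → L),
      (∀ (w : List Bool) (j : ℕ), w.length < k → j < k → ¬ at_ tm (Br (t + j)) (des tm d0 w) x) →
      z (t + k) x ≤ κ ^ k * ∑ l ∈ words k, at_ tm (z t) (des tm d0 l) x

/-- REM: the remainder is small (from LIN, PTW, R4, XB, ITER, NUM) -/
def St_REM : Prop :=
  ∀ s1 ε : ℝ, s1 < 1 → 0 < ε → ∃ (W : ℕ) (q : ℝ), 0 < q ∧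
    ∀ (s : ℝ) (A : LS) (a : ℕ → (TD → A.L) → Vec), 0 ≤ s → s ≤ s1 → Fld A s a →
      ∀ (t : ℕ) (Q : ℝ), Q ≤ q → (∀ j ≤ W, qq A a (t + j) ≤ Q) → rr A s a (t + W) ≤ ε * Q

/-- RNR: small fields die out (from LIN, PTW, DUH, REM) -/
def St_RNR : Prop :=
  ∀ s1 : ℝ, s1 < 1 → ∃ q0 : ℝ, 0 < q0 ∧ ∀ ε : ℝ, 0 < ε → ∃ T : ℕ,
    ∀ (s : ℝ) (A : LS) (a : ℕ → (TD → A.L) → Vec), 0 ≤ s → s ≤ s1 → Fld A s a →
      qq A a 0 ≤ q0 → qq A a T ≤ ε

/-- QCL: messages of a process close to the tree measure (from SP, STEP, FLD) -/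
def St_QCL : Prop :=
  ∀ (s : ℝ) (P : Proc) (k : ℕ), 0 ≤ s → s < 1 →
    qn P s k ≤ qk s k + 90 * ∑ p, |nuE P k p - muE s k p|

/-- EQS: the law of an edge can be corrected (from NR, RNR, FLD, QCL, CLOSE, EQ, DLR) -/
def St_EQS : Prop :=
  ∀ s1 : ℝ, s1 < 1 → ∃ η0 : ℝ, 0 < η0 ∧ ∀ (s e : ℝ) (P : Proc) (η : ℝ), 0 ≤ s → s ≤ s1 → 0 < e →
    η ≤ η0 → Exc P s η → ∃ P' : Proc, Exc P' s η ∧ Cls P' s e

/-- SCH: change of the parameter (from EW) -/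
def St_SCH : Prop :=
  ∀ s1 : ℝ, s1 < 1 → ∃ C : ℝ, 0 ≤ C ∧ ∀ (s s' : ℝ) (P : Proc) (η e : ℝ), 0 ≤ s → s ≤ s1 →
    0 ≤ s' → s' ≤ s1 → Exc P s η → Cls P s e →
    Exc P s' (η + C * (s' - s) ^ 2 + C * e * |s' - s|)

/-- START: independent stars -/
def St_START : Prop := ∃ P : Proc, Exc P 0 0

/-- CONT: continuity of the tree measure -/
def St_CONT : Prop :=
  ∀ (k : ℕ) (ε : ℝ), 0 < ε → ∃ s : ℝ, 0 ≤ s ∧ s < 1 ∧ ∑ p, |muE s k p - muE 1 k p| ≤ ε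

/-- ANN: annealing (from EQS, SCH, START, CONT, CLOSE) -/
def St_ANN : Prop :=
  ∀ (k : ℕ) (ε : ℝ), 0 < ε → ∃ P : Proc, ∑ p, |nuE P k p - muE 1 k p| ≤ ε

end Pool.Agent.Lib.PT5
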