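import Pool.Agent.Lib.PT5.ADefs

/-! Cores in sparse graphs. -/

namespace Pool.Agent.Lib.PT5

open Finset RC5

namespace ACORED

variable {n : ℕ} {m : HE n → HE n}

lemma ch_ne (e : HE n) (b : Bool) : ch m e b ≠ m e := fun h => by
  have := congrArg Prod.snd h
  cases b <;> simp [ch, rho, po] at this

lemma ch_ne' (e : HE n) : ch m e false ≠ ch m e true := fun h => by
  have := congrArg Prod.snd h
  simp [ch, rho, po] at this

/-- darts that reach `Z` after a given number of steps -/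
def lay (m : HE n → HE n) (F : Finset (HE n)) (Z : Finset (Fin n)) : ℕ → Finset (HE n)
  | 0 => F.filter fun e => (m e).1 ∈ Z
  | j + 1 => F.filter fun e => (m e).1 ∉ Z ∧ ∃ b, ch m e b ∈ lay m F Z j

lemma lay_sub (F : Finset (HE n)) (Z : Finset (Fin n)) (j : ℕ) : lay m F Z j ⊆ F := by
  cases j <;> exact filter_subset _ _

lemma core {k : ℕ} {x : ℝ} {E S F : Finset (HE n)} (hm : IsM m)
    (hs : Sparse m (2 * (1 + 3 * k)) x) (hx : ((E.card + F.card : ℕ) : ℝ) ≤ x)
    (h1 : ∀ f ∈ E, ∀ b, ch m f b ∈ F) (h2 : ∀ e ∈ F, ∃ f ∈ E ∪ F, (m f).1 = e.1)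
    (h3 : ∀ e ∈ F, ∃ w : List Bool, w.length < k ∧ (∀ i, des m e (w.take i) ∈ F) ∧
      (des m e w ∈ E ∨ des m e w ∈ S)) : E.card ≤ 12 * (1 + 3 * k) * S.card := by
  have inj : Function.Injective m := Function.LeftInverse.injective fun h => (hm h).1
  obtain ⟨W, hW⟩ : ∃ W, W = (E ∪ F).image fun f => (m f).1 := ⟨_, rfl⟩
  obtain ⟨H, hH⟩ : ∃ H, H = F ∪ F.image m := ⟨_, rfl⟩
  obtain ⟨Z0, hZ0⟩ : ∃ Z0, Z0 = S.image fun f => (m f).1 := ⟨_, rfl⟩
  obtain ⟨dg, hdg⟩ : ∃ dg : Fin n → ℕ, ∀ v, dg v = (H.filter fun h => h.1 = v).card :=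
    ⟨_, fun _ => rfl⟩
  obtain ⟨N, hN⟩ : ∃ N, N = W.filter fun v => 2 < dg v := ⟨_, rfl⟩
  have w1 : ∀ f ∈ E ∪ F, (m f).1 ∈ W := fun f hf => hW ▸ mem_image_of_mem _ hf
  have w2 : ∀ e ∈ F, e.1 ∈ W := fun e he => by
    obtain ⟨f, hf, k⟩ := h2 e he
    exact k ▸ w1 f hf
  have f1 : ∀ e ∈ F, ∀ v, e.1 = v → e ∈ H.filter fun h => h.1 = v := fun e he v hv =>
    mem_filter.2 ⟨hH ▸ mem_union_left _ he, hv⟩
  have f2 : ∀ e ∈ F, ∀ v, (m e).1 = v → m e ∈ H.filter fun h => h.1 = v := fun e he v hv =>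
    mem_filter.2 ⟨hH ▸ mem_union_right _ (mem_image_of_mem _ he), hv⟩
  have hin : ∀ h ∈ H, h.1 ∈ W ∧ (m h).1 ∈ W := fun h hh => by
    rcases mem_union.1 (hH ▸ hh) with k | k
    · exact ⟨w2 h k, w1 h (mem_union_right _ k)⟩
    · obtain ⟨e, he, rfl⟩ := mem_image.1 k
      rw [(hm e).1]
      exact ⟨w1 e (mem_union_right _ he), w2 e he⟩
  have stop : ∀ e ∈ F, e ∈ E ∨ e ∈ S → (m e).1 ∈ N ∪ Z0 := by
    rintro e he (k | k)
    · refine mem_union_left _ (hN ▸ mem_filter.2 ⟨w1 e (mem_union_left _ k), ?_⟩)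
      rw [hdg, two_lt_card_iff]
      exact ⟨_, _, _, f2 e he _ rfl, f1 _ (h1 e k false) _ rfl, f1 _ (h1 e k true) _ rfl,
        (ch_ne e _).symm, (ch_ne e _).symm, ch_ne' e⟩
    · exact mem_union_right _ (hZ0 ▸ mem_image_of_mem _ k)
  have go : ∀ e ∈ F, (e ∈ E ∨ e ∈ S) ∨ ∃ b, ch m e b ∈ F := fun e he => by
    obtain ⟨w, -, a, b⟩ := h3 e he
    cases w with
    | nil => exact Or.inl b
    | cons c w => exact Or.inr ⟨c, a 1⟩
  have deg : ∀ v ∈ W, 2 + (if 2 < dg v then 1 else 0) ≤ dg v + if v ∈ Z0 then 1 else 0 := by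
    intro v hv
    have a : ∀ f ∈ E, 1 < dg (m f).1 := fun f hf => by
      rw [hdg, one_lt_card]
      exact ⟨_, f1 _ (h1 f hf false) _ rfl, _, f1 _ (h1 f hf true) _ rfl, ch_ne' f⟩
    obtain ⟨f, hf, rfl⟩ := mem_image.1 (hW ▸ hv)
    have : 1 < dg (m f).1 ∨ (0 < dg (m f).1 ∧ (m f).1 ∈ Z0) := by
      rcases mem_union.1 hf with hf | hf
      · exact Or.inl (a f hf)
      rcases go f hf with (k | k) | ⟨b, k⟩
      · exact Or.inl (a f k)
      · exact Or.inr ⟨hdg _ ▸ card_pos.2 ⟨_, f2 f hf _ rfl⟩, hZ0 ▸ mem_image_of_mem _ k⟩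
      · left
        rw [hdg, one_lt_card]
        exact ⟨_, f1 _ k _ rfl, _, f2 f hf _ rfl, ch_ne f b⟩
    split_ifs <;> first | omega | (rcases this with h | h; omega; tauto)
  have c0 : Z0.card ≤ S.card := hZ0 ▸ card_image_le
  have c1 : 2 * W.card + N.card ≤ inn m W + S.card := by
    have a := sum_le_sum deg
    rw [sum_add_distrib, sum_add_distrib, ← card_filter, ← card_filter, ← hN, sum_const,
      smul_eq_mul, sum_congr rfl fun v _ => hdg v,
      ← card_eq_sum_card_fiberwise (f := Prod.fst) fun h hh => (hin h hh).1] at a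
    have b : H.card ≤ inn m W := card_le_card fun h hh => by simpa [sel] using hin h hh
    have c : (W.filter fun v => v ∈ Z0).card ≤ Z0.card :=
      card_le_card fun v hv => (mem_filter.1 hv).2
    omega
  have l1 : ∀ j, (lay m F (N ∪ Z0) j).card ≤ 3 * (N ∪ Z0).card := by
    intro j
    induction j with
    | zero =>
      have := card_le_card_of_injOn (s := lay m F (N ∪ Z0) 0) (t := (N ∪ Z0) ×ˢ univ) m
        (fun e he => mem_product.2 ⟨(mem_filter.1 he).2, mem_univ _⟩) inj.injOn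
      rwa [card_product, card_univ, Fintype.card_fin, mul_comm] at this
    | succ j ih =>
      refine le_trans ?_ ih
      choose! b hb using fun e (he : e ∈ lay m F (N ∪ Z0) (j + 1)) => (mem_filter.1 he).2.2
      refine card_le_card_of_injOn (fun e => ch m e (b e)) hb fun e he e' he' h => inj ?_
      by_contra k
      have p := mem_filter.1 he
      have v : (m e').1 = (m e).1 := (congrArg Prod.fst h).symm
      refine p.2.1 (mem_union_left _ (hN ▸ mem_filter.2 ⟨w1 e (mem_union_right _ p.1), ?_⟩))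
      rw [hdg, two_lt_card_iff]
      refine ⟨_, _, _, f2 e p.1 _ rfl, f2 e' (mem_filter.1 he').1 _ v,
        f1 _ (lay_sub _ _ _ (hb e he)) _ rfl, k, (ch_ne e _).symm, ?_⟩
      rw [show ch m e (b e) = ch m e' (b e') from h]
      exact (ch_ne e' _).symm
  have l2 : ∀ (w : List Bool) (e : HE n), (∀ i, des m e (w.take i) ∈ F) →
      (des m e w ∈ E ∨ des m e w ∈ S) → ∃ i ≤ w.length, e ∈ lay m F (N ∪ Z0) i := by
    intro w
    induction w with
    | nil => exact fun e a b => ⟨0, le_rfl, mem_filter.2 ⟨a 0, stop e (a 0) b⟩⟩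
    | cons c w ih =>
      intro e a b
      by_cases z : (m e).1 ∈ N ∪ Z0
      · exact ⟨0, Nat.zero_le _, mem_filter.2 ⟨a 0, z⟩⟩
      · obtain ⟨i, hi, k⟩ := ih (ch m e c) (fun i => a (i + 1)) b
        exact ⟨i + 1, Nat.succ_le_succ hi, mem_filter.2 ⟨a 0, z, c, k⟩⟩
  have c2 : F.card ≤ k * (3 * (N ∪ Z0).card) := by
    refine (card_le_card (t := (range k).biUnion (lay m F (N ∪ Z0))) fun e he => ?_).trans ?_
    · obtain ⟨w, hw, a, b⟩ := h3 e he
      obtain ⟨i, hi, k⟩ := l2 w e a b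
      exact mem_biUnion.2 ⟨i, mem_range.2 (hi.trans_lt hw), k⟩
    · simpa using card_biUnion_le_card_mul (range k) _ _ fun j _ => l1 j
  have c3 : W.card ≤ (N ∪ Z0).card + F.card := by
    refine (card_le_card (t := N ∪ Z0 ∪ F.image Prod.fst) fun v hv => ?_).trans
      ((card_union_le _ _).trans (Nat.add_le_add_left card_image_le _))
    obtain ⟨f, hf, rfl⟩ := mem_image.1 (hW ▸ hv)
    rcases mem_union.1 hf with hf | hf
    · exact mem_union_right _ (mem_image.2 ⟨_, h1 f hf false, rfl⟩)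
    rcases go f hf with k | ⟨b, k⟩
    · exact mem_union_left _ (stop f hf k)
    · exact mem_union_right _ (mem_image.2 ⟨_, k, rfl⟩)
  have c4 : E.card ≤ 3 * W.card := by
    have := card_le_card_of_injOn (s := E) (t := W ×ˢ univ) m
      (fun e he => by simpa using w1 e (mem_union_left _ he)) inj.injOn
    simpa [mul_comm] using this
  rcases W.eq_empty_or_nonempty with e | e
  · rw [e, card_empty] at c4
    omega
  have c5 := hs W e (le_trans (by
    exact_mod_cast hW ▸ card_image_le.trans (card_union_le _ _)) hx)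
  have c6 := card_union_le N Z0
  have c7 : W.card ≤ (1 + 3 * k) * (N.card + S.card) := by
    calc W.card ≤ (1 + 3 * k) * (N ∪ Z0).card := by nlinarith
      _ ≤ _ := Nat.mul_le_mul_left _ (by omega)
  have c8 := Nat.mul_le_mul_left (2 * (1 + 3 * k)) c1
  nlinarith

end ACORED

open ACORED in
theorem st_CORED : St_CORED := by
  intro n k m x E E' X hk hm hs hx h
  choose! w hw using h
  obtain ⟨F, hF⟩ : ∃ F, F = (E ×ˢ univ ×ˢ range k).image
      fun p : HE n × Bool × ℕ => des m p.1 (p.2.1 :: (w p.1 p.2.1).take p.2.2) := ⟨_, rfl⟩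
  have mem : ∀ f ∈ E, ∀ b i, des m f (b :: (w f b).take i) ∈ F := fun f hf b i => by
    have := (hw f hf b).1
    refine hF ▸ mem_image.2 ⟨(f, b, min i (w f b).length), by simp [hf, this], ?_⟩
    simp only [← List.take_take, List.take_length]
  have cF : F.card ≤ E.card * (2 * k) := hF ▸ card_image_le.trans (by simp)
  refine (core (S := X ∪ E' \ E) (F := F) hm hs (le_trans ?_ hx) (fun f hf b => mem f hf b 0)
    (fun e he => ?_) fun e he => ?_).trans (Nat.mul_le_mul_left _ (card_union_le _ _))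
  · exact_mod_cast (by nlinarith : E.card + F.card ≤ (1 + 2 * k) * E.card)
  · obtain ⟨⟨f, b, i⟩, hp, rfl⟩ := mem_image.1 (hF ▸ he)
    have hf := (mem_product.1 hp).1
    clear hp he
    induction i with
    | zero => exact ⟨f, mem_union_left _ hf, rfl⟩
    | succ i ih =>
      simp only [List.take_add_one] at ih ⊢
      cases (w f b)[i]? with
      | none => simpa only [Option.toList_none, List.append_nil] using ih hf
      | some c =>
        refine ⟨_, mem_union_right _ (mem f hf b i), ?_⟩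
        rw [← List.cons_append, des_append]
        rfl
  · obtain ⟨⟨f, b, i⟩, hp, rfl⟩ := mem_image.1 (hF ▸ he)
    have hf := (mem_product.1 hp).1
    refine ⟨(w f b).drop i, lt_of_le_of_lt (by simp) (hw f hf b).1, fun j => ?_, ?_⟩
    · rw [← des_append, List.cons_append, ← List.take_add]
      exact mem f hf b _
    · rw [← des_append, List.cons_append, List.take_append_drop]
      have := (hw f hf b).2
      simp only [mem_union, mem_sdiff]
      tauto

end Pool.Agent.Lib.PT5
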