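import Pool.Agent.Lib.PT5.ADefs2

/-! Approximate equilibrium is reached. -/

namespace Pool.Agent.Lib.PT5

open Finset Real RC5

namespace AEQ

theorem exc_mono {P : Proc} {s η η' : ℝ} (h : Exc P s η) (k : η ≤ η') : Exc P s η' :=
  h.imp fun _ hr n m a b => (hr n m a b).trans (mul_le_mul_of_nonneg_right k (Nat.cast_nonneg n))

theorem radius (k : ℕ) : ∃ R, ∀ v ∈ VB k, ∀ u ∈ VB k, (cov tm (tinv (v, 0)) (u, 0)).1 ∈ VB R := by
  obtain ⟨R, hR⟩ := exists_Ball ((VB k ×ˢ VB k).image fun p => cov tm (tinv (p.1, 0)) (p.2, 0))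
  exact ⟨R, fun v hv u hu => mem_VB.2 (mem_Ball.1 (hR
    (mem_image.2 ⟨(v, u), mem_product.2 ⟨hv, hu⟩, rfl⟩)))⟩

end AEQ

open AEQ in
theorem st_EQ (hR : St_ROUND) (hC : St_C1) (hK : St_KNAT) : St_EQ := by
  intro s k δ h0 h1 hδ P η hP
  obtain ⟨R, hrad⟩ := radius k
  obtain ⟨κ, hκ, hr⟩ := hR s R h0 h1
  have hp : 0 < κ * δ ^ 2 := by positivity
  have key : ∀ (N : ℕ) (P : Proc) (η' : ℝ), Exc P s η' → η' ≤ η → η' < N * (κ * δ ^ 2) →
      ∃ P' : Proc, Exc P' s η ∧ Equi P' s k δ := by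
    intro N
    induction N with
    | zero =>
      intro P η' a _ c
      have := (hC P s η' h0 h1 a).1
      simp only [Nat.cast_zero, zero_mul] at c
      linarith
    | succ N ih =>
      intro P η' a b c
      by_cases hE : Equi P s k δ
      · exact ⟨P, exc_mono a b, hE⟩
      unfold Equi at hE
      push Not at hE
      obtain ⟨v, hv, f, hf, hb, hlt⟩ := hE
      have hd : Dep (fun c => f (pull tm (tinv (v, 0)) c)) (VB R) := fun x y hxy =>
        hf _ _ fun u hu => by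
          simp only [pull, see]
          rw [hxy _ (hrad v hv u hu)]
      have e1 : nu P (fun c => f (pull tm (tinv (v, 0)) c)) = nu P f := nu_pull P hf.loc _
      have e2 : nu P (Kd s tm d0 fun c => f (pull tm (tinv (v, 0)) c))
          = nu P (Kd s tm (v, 0) f) := by
        rw [← nu_pull P (hK.2.2.1 TV s tm d0 _ hd.loc) (v, 0)]
        refine congrArg (nu P) (funext fun c => ?_)
        rw [hK.2.2.2 TV s tm (v, 0) _ R tm_invo (inj_tm R) hd c]
        simp only [pull_pull tm_invo, cov_tinv, pull_d0]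
      obtain ⟨P', hP'⟩ := hr P η' _ a hd fun c => hb _
      rw [e1, e2] at hP'
      have h2 : δ ^ 2 ≤ (nu P f - nu P (Kd s tm (v, 0) f)) ^ 2 := by
        rw [← sq_abs (nu P f - _)]
        exact pow_le_pow_left₀ hδ.le hlt.le 2
      have h3 := mul_le_mul_of_nonneg_left h2 hκ.le
      refine ih P' _ hP' (by linarith) ?_
      push_cast at c
      linarith
  obtain ⟨N, hN⟩ := exists_nat_gt (η / (κ * δ ^ 2))
  exact key N P η hP le_rfl ((div_lt_iff₀ hp).1 hN)

end Pool.Agent.Lib.PT5
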