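import Pool.Agent.Lib.PT5.ADefs2

/-! Block REM: the remainder is small. -/

namespace Pool.Agent.Lib.PT5

open Finset Real RC5 Filter Topology

namespace AREM

theorem small {M a : ℝ} (hM : 0 ≤ M) (ha : 0 < a) : ∃ q > 0, ∀ Q ≤ q, M * Q ≤ a :=
  ⟨a / (M + 1), by positivity, fun Q hQ => (mul_le_mul_of_nonneg_left hQ hM).trans (by
    rw [← mul_div_assoc, div_le_iff₀ (by positivity)]; nlinarith)⟩

theorem sq2_nn (v : Vec) : 0 ≤ sq2 v := sum_nonneg fun _ _ => sq_nonneg _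

theorem at_child {α β : Type} (f : (TD → α) → β) (b : Bool) (w : List Bool) (x : TD → α) :
    at_ tm f (des tm d0 w) (x ∘ cov tm (ch tm d0 b)) = at_ tm f (des tm d0 (b :: w)) x := by
  have h := congrFun (at_at tm_invo f (des tm d0 w) (ch tm d0 b)) x
  rw [cov_des tm_invo, cov_d0] at h
  exact h

theorem exists_del {κ C1 ε : ℝ} (h : 2 * κ ^ 2 < 1) (hε : 0 < ε) :
    ∃ δ : ℝ, 0 < δ ∧ 4 * C1 * δ ^ 2 < ε ∧ 2 * (κ + C1 * δ) ^ 2 < 1 := by
  have h1 : ∀ᶠ δ : ℝ in 𝓝 0, 4 * C1 * δ ^ 2 < ε :=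
    ContinuousAt.eventually_lt (by fun_prop) continuousAt_const (by simpa using hε)
  have h2 : ∀ᶠ δ : ℝ in 𝓝 0, 2 * (κ + C1 * δ) ^ 2 < 1 :=
    ContinuousAt.eventually_lt (by fun_prop) continuousAt_const (by simpa using h)
  exact ((eventually_mem_nhdsWithin (s := Set.Ioi 0)).and
    ((h1.and h2).filter_mono nhdsWithin_le_nhds)).exists

end AREM

open AREM in
theorem st_REM (hLIN : St_LIN) (hPTW : St_PTW) (hR4 : St_R4) (hXB : St_XB) (hITER : St_ITER)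
    (hNUM : St_NUM) : St_REM := by
  intro s1 ε hs1 hε
  obtain ⟨N, κ, C, hN⟩ := nrm_of_lin hLIN
  obtain ⟨C1, c1, hP⟩ := hPTW s1 N κ C hs1 hN
  obtain ⟨c0, c0p, hI⟩ := hITER
  obtain ⟨δ, δ0, δ1, δ2⟩ := exists_del (C1 := C1) hN.k1 hε
  have C0 : 0 ≤ C := zero_le_one.trans hN.c1
  have κ0 : 0 ≤ κ + C1 * δ := add_nonneg hN.k0 (by positivity)
  obtain ⟨k, n, k1, n1, n2⟩ := hNUM _ (ε / (34 * (C1 * C + 1)) * δ ^ 2) (by positivity) δ2
    (by positivity)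
  obtain ⟨q1, q10, hq1⟩ := small (M := 4 * (4 * (κ + C1 * δ) ^ 2) ^ k * C) (by positivity)
    (pow_pos δ0 2)
  obtain ⟨q2, q20, hq2⟩ := small (M := ((n : ℝ) * k + 1) * (C / δ ^ 2 + 16 * ((k : ℝ) + 1) ^ 2 *
    (2 * (κ + C1 * δ) ^ 2) ^ k * (C / δ ^ 2))) (by positivity) (pow_pos c0p k)
  refine ⟨n * k, min q1 q2, lt_min q10 q20, fun s A a s0 s2 hF t Q hQ hq => ?_⟩
  have Q0 : 0 ≤ Q := (mn_nonneg fun x => sq2_nn _).trans (hq 0 (Nat.zero_le _))
  let z : ℕ → (TD → A.L) → ℝ := fun t x => N (a t x - 1)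
  let Br : ℕ → (TD → A.L) → Prop := fun t x =>
    δ < at_ tm (z t) (ch tm d0 false) x ∧ δ < at_ tm (z t) (ch tm d0 true) x
  let X : ℕ → (TD → A.L) → Prop := fun t x =>
    δ < (κ + C1 * δ) ^ k * ∑ l ∈ words k, at_ tm (z t) (des tm d0 l) x
  have lz : ∀ t, Loc (z t) := fun t => (hF.loc t).map fun v => N (v - 1)
  have lq : ∀ t, Loc fun x => sq2 (a t x - 1) := fun t => (hF.loc t).map fun v => sq2 (v - 1)
  have lB : ∀ t, Loc (Br t) := fun t =>
    ((lz t).at_ tm _).map₂ ((lz t).at_ tm _) fun u v => δ < u ∧ δ < v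
  have lX : ∀ t, Loc (X t) := fun t =>
    (Loc.sum _ fun l _ => (lz t).at_ tm _).map fun u => δ < (κ + C1 * δ) ^ k * u
  have pt := fun t x => hP s (at_ tm (a t) (ch tm d0 false) x) (at_ tm (a t) (ch tm d0 true) x)
    s0 s2 (hF.ms t _) (hF.ms t _)
  have h4 := hR4 A.L z Br _ κ0 fun t x h => by
    have := ((pt t x).2.2 δ δ0.le h).1
    rwa [← hF.step] at this
  have hz : ∀ j ≤ n * k, mn A (fun x => z (t + j) x ^ 2) ≤ C * Q := fun j hj =>
    (mn_mono ((lz _).map (· ^ 2)) ((lq _).map (C * ·)) fun x => (hN.eqv _).2).trans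
      ((mn_mul (lq _) C).trans_le (mul_le_mul_of_nonneg_left (hq j hj) C0))
  have h5 := hI k k1 A Br X lB lX (fun t x h b => by
      by_contra hc
      obtain ⟨h1, h2⟩ := not_or.1 hc
      have h3 := h4 t k (x ∘ cov tm (ch tm d0 b)) fun w j hw hj h3 =>
        h1 ⟨w, j, hw, hj, at_child (Br (t + j)) b w x ▸ h3⟩
      refine h2 (lt_of_lt_of_le ?_ h3)
      cases b
      exacts [h.1, h.2]) n t (C / δ ^ 2 * Q)
    (16 * ((k : ℝ) + 1) ^ 2 * (2 * (κ + C1 * δ) ^ 2) ^ k * (C / δ ^ 2) * Q) (fun j hj => by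
      have u1 := markov (A := A) (lB (t + j)) (((lz (t + j)).map (· ^ 2)).at_ tm (ch tm d0 false))
        (c := δ ^ 2) (fun x => sq_nonneg _) fun x h => pow_le_pow_left₀ δ0.le h.1.le 2
      rw [mn_at_tm ((lz (t + j)).map (· ^ 2))] at u1
      have u2 := hXB A (z (t + j)) k _ δ (C * Q) (lz _) κ0 δ0 (hz j hj)
        ((mul_assoc _ C Q).symm.trans_le (hq1 Q (hQ.trans (min_le_left _ _))))
      constructor
      · rw [div_mul_eq_mul_div, le_div_iff₀' (pow_pos δ0 2)]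
        exact u1.trans (hz j hj)
      · rw [mul_assoc, div_mul_eq_mul_div, ← mul_div_assoc, le_div_iff₀' (pow_pos δ0 2)]
        exact u2)
    (le_of_eq_of_le (by ring) (hq2 Q (hQ.trans (min_le_right _ _))))
  have l1 := fun e => (lq (t + n * k)).at_ tm e
  have l2 := ((l1 (ch tm d0 false)).map₂ (l1 (ch tm d0 true)) (· + ·))
  have l3 := (lB (t + n * k)).map ind
  have h6 : rr A s a (t + n * k) ≤ C1 * δ ^ 2 * (qq A a (t + n * k) + qq A a (t + n * k)) +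
      C1 * pr A (Br (t + n * k)) := by
    refine (mn_mono (((hF.loc _).at_ tm _).map₂ ((hF.loc _).at_ tm _) fun u v => sq2 (Rm s u v))
      ((l2.map (C1 * δ ^ 2 * ·)).map₂ (l3.map (C1 * ·)) (· + ·)) fun x => ?_).trans_eq ?_
    · by_cases h : Br (t + n * k) x
      · rw [ind_pos h, mul_one]
        exact (pt _ x).1.trans (le_add_of_nonneg_left (mul_nonneg (by positivity)
          (add_nonneg (sq2_nn _) (sq2_nn _))))
      · rw [ind_neg h, mul_zero, add_zero]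
        exact ((pt _ x).2.2 δ δ0.le h).2
    · rw [mn_add (l2.map (C1 * δ ^ 2 * ·)) (l3.map (C1 * ·)), mn_mul l2, mn_mul l3,
        mn_add (l1 _) (l1 _), mn_at_tm (lq _), mn_at_tm (lq _)]
      rfl
  have h7 := hq _ le_rfl
  have h8 : pr A (Br (t + n * k)) ≤ 17 * (ε / (34 * (C1 * C + 1)) * δ ^ 2) * (C / δ ^ 2 * Q) := by
    have u0 : 0 ≤ C / δ ^ 2 * Q := by positivity
    linarith [mul_le_mul_of_nonneg_right n1 u0, mul_le_mul_of_nonneg_right n2 u0]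
  have h9 : C1 * (17 * (ε / (34 * (C1 * C + 1)) * δ ^ 2) * (C / δ ^ 2 * Q)) =
      ε * Q / 2 * (C1 * C / (C1 * C + 1)) := by
    field_simp
    ring
  have h10 : ε * Q / 2 * (C1 * C / (C1 * C + 1)) ≤ ε * Q / 2 :=
    mul_le_of_le_one_right (by positivity) ((div_le_one (by positivity)).2 (by linarith))
  linarith [mul_le_mul_of_nonneg_left h8 c1, mul_le_mul_of_nonneg_right δ1.le Q0,
    mul_le_mul_of_nonneg_left h7 (show 0 ≤ C1 * δ ^ 2 by positivity)]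

end Pool.Agent.Lib.PT5
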