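import Pool.Agent.Lib.PT5.ADefs

/-! The norm of the sum over descendants on the tree. -/

namespace Pool.Agent.Lib.PT5

open Finset Real RC5

namespace ATOP

/-- sum over the descendants -/
noncomputable def sk (G : TD → ℝ) (k : ℕ) (t : TD) : ℝ := ∑ l ∈ words k, G (des tm t l)

theorem sk_succ (G : TD → ℝ) (k : ℕ) (t : TD) :
    sk G (k + 1) t = sk G k (ch tm t false) + sk G k (ch tm t true) := by
  unfold sk
  rw [sum_words]
  rfl

theorem sum_ch {f : TD → ℝ} {B : ℝ} (h : ∀ S : Finset TD, ∑ t ∈ S, f t ≤ B) (b : Bool)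
    (S : Finset TD) : ∑ t ∈ S, f (ch tm t b) ≤ B := by
  have := h (S.image fun t => ch tm t b)
  rwa [sum_image fun x _ y _ e => (ch_bij tm_invo b).1 e] at this

theorem port {t : TD} (h : t.2 ≠ 0) (b : Bool) : (ch tm t b).2 = po b := by
  simp [ch, rho, tm, h]

theorem down {G : TD → ℝ} {M : ℝ} (h : ∀ S : Finset TD, ∑ t ∈ S, G t ^ 2 ≤ M) (k : ℕ) :
    ∀ S : Finset TD, (∀ t ∈ S, t.2 ≠ 0) → ∑ t ∈ S, sk G k t ^ 2 ≤ 2 ^ k * M := by
  induction k with
  | zero => intro S _; simpa [sk, words, des] using h S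
  | succ k ih =>
    intro S hS
    have h1 := ih (S.image (fun t => ch tm t false) ∪ S.image fun t => ch tm t true) fun t ht => by
      rcases mem_union.1 ht with h | h <;> obtain ⟨u, hu, rfl⟩ := mem_image.1 h <;>
        rw [port (hS u hu)] <;> decide
    rw [sum_union, sum_image fun x _ y _ e => (ch_bij tm_invo false).1 e,
      sum_image fun x _ y _ e => (ch_bij tm_invo true).1 e, ← sum_add_distrib] at h1
    · calc ∑ t ∈ S, sk G (k + 1) t ^ 2
          ≤ ∑ t ∈ S, 2 * (sk G k (ch tm t false) ^ 2 + sk G k (ch tm t true) ^ 2) :=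
            sum_le_sum fun t _ => by
              rw [sk_succ]
              nlinarith [sq_nonneg (sk G k (ch tm t false) - sk G k (ch tm t true))]
        _ ≤ 2 ^ (k + 1) * M := by rw [← mul_sum, pow_succ]; linarith
    · refine disjoint_left.2 fun t h1 h2 => ?_
      obtain ⟨u, hu, rfl⟩ := mem_image.1 h1
      obtain ⟨v, hv, e⟩ := mem_image.1 h2
      have := congrArg Prod.snd e
      rw [port (hS u hu), port (hS v hv)] at this
      exact absurd this (by decide)

theorem all {G : TD → ℝ} {M : ℝ} (h : ∀ S : Finset TD, ∑ t ∈ S, G t ^ 2 ≤ M) (k : ℕ) :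
    ∀ S : Finset TD, ∑ t ∈ S, sk G k t ^ 2 ≤ 2 * ((k : ℝ) + 1) ^ 2 * 2 ^ k * M := by
  have hM : 0 ≤ M := by simpa using h ∅
  induction k with
  | zero =>
    intro S
    have : ∑ t ∈ S, sk G 0 t ^ 2 ≤ M := by simpa [sk, words, des] using h S
    norm_num
    linarith
  | succ k ih =>
    intro S
    have hd : ∀ S : Finset TD, ∑ t ∈ S, (if t.2 = 0 then 0 else sk G k t ^ 2) ≤ 2 ^ k * M :=
      fun S => by
        have := down h k (S.filter fun t => ¬ t.2 = 0) fun t ht => (mem_filter.1 ht).2
        rw [sum_filter] at this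
        exact (sum_congr rfl fun t _ => (ite_not _ _ _).symm).trans_le this
    have hj : (0 : ℝ) < k + 1 := by positivity
    have key : ∀ t : TD, ((k : ℝ) + 1) * sk G (k + 1) t ^ 2 ≤
        (k + 2) * (sk G k (ch tm t false) ^ 2 + sk G k (ch tm t true) ^ 2) + (k + 1) * (k + 2) * 2 *
          ((if (ch tm t false).2 = 0 then 0 else sk G k (ch tm t false) ^ 2) +
            if (ch tm t true).2 = 0 then 0 else sk G k (ch tm t true) ^ 2) := fun t => by
      rw [sk_succ]
      have hne : ¬ ((ch tm t false).2 = 0 ∧ (ch tm t true).2 = 0) := by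
        simp only [ch, rho, po]
        generalize (tm t).2 = i
        revert i
        decide
      generalize sk G k (ch tm t false) = a
      generalize sk G k (ch tm t true) = b
      generalize hJ : (k : ℝ) + 1 = j at hj
      rw [show (k : ℝ) + 2 = j + 1 by linarith]
      have p1 : 0 ≤ j * j := by positivity
      split_ifs with c1 c2 c2
      · exact absurd ⟨c1, c2⟩ hne
      · nlinarith [sq_nonneg (a - j * b), mul_nonneg hj.le (sq_nonneg b), mul_nonneg p1 (sq_nonneg b),
          sq_nonneg b]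
      · nlinarith [sq_nonneg (b - j * a), mul_nonneg hj.le (sq_nonneg a), mul_nonneg p1 (sq_nonneg a),
          sq_nonneg a]
      · nlinarith [mul_nonneg hj.le (sq_nonneg (a - b)), mul_nonneg hj.le (sq_nonneg a),
          mul_nonneg hj.le (sq_nonneg b), mul_nonneg p1 (sq_nonneg a), mul_nonneg p1 (sq_nonneg b),
          sq_nonneg a, sq_nonneg b]
    have h1 := sum_le_sum fun t (_ : t ∈ S) => key t
    rw [← mul_sum, sum_add_distrib, ← mul_sum, ← mul_sum, sum_add_distrib, sum_add_distrib] at h1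
    have a1 := sum_ch ih false S
    have a2 := sum_ch ih true S
    have a3 := sum_ch hd false S
    have a4 := sum_ch hd true S
    refine le_of_mul_le_mul_left (h1.trans ?_) hj
    calc _ ≤ ((k : ℝ) + 2) * (2 * ((k : ℝ) + 1) ^ 2 * 2 ^ k * M + 2 * ((k : ℝ) + 1) ^ 2 * 2 ^ k * M)
          + (k + 1) * (k + 2) * 2 * (2 ^ k * M + 2 ^ k * M) := by gcongr
      _ = _ := by push_cast; ring

end ATOP

theorem st_TOP : St_TOP := fun G M h k S => by
  have hM : 0 ≤ M := by simpa using h ∅
  refine (ATOP.all h k S).trans ?_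
  gcongr
  norm_num

end Pool.Agent.Lib.PT5
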