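import Pool.Agent.Lib.PT5.BKit

/-! A transmitting path is often pivotal. -/

namespace Pool.Agent.Lib.PT5

open Finset RC5 Function

namespace BBLK

variable {α : Type} {D r s : ℕ} {K : (TD → α) → Bool} {o : (TD → α) → ℕ} {x y : TD → α × Bool}

theorem ceil (ho : Dep o (Ball r)) {e : TD} (a : ∀ i ∈ Nb tm r e, (x i).1 = (y i).1) :
    (env tm (envS K o) x e).2 = (env tm (envS K o) y e).2 := by
  rw [env_envS tm_invo, env_envS tm_invo]
  exact ho _ _ fun i hi => a _ (mem_image_of_mem _ hi)

theorem inside (hG : St_GEO) (hK : Dep K (Ball r)) (ho : Dep o (Ball r)) {e : TD}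
    (hS : ∀ i, Beh tm e i → x i = y i) (hZ : ∀ i ∈ Nb tm r e, (x i).1 = (y i).1) :
    mm D tm (env tm (envS K o) x) s e = mm D tm (env tm (envS K o) y) s e :=
  mm_congr s e fun u _ => envS_congr tm_invo hK ho
    (fun i hi => (hG.2.2.1 r e i u hi).elim (fun h => congrArg Prod.fst (hS i h)) (hZ i))
    (congrArg Prod.snd (hS _ (beh_m e u)))

theorem outside (hG : St_GEO) (hK : Dep K (Ball r)) (ho : Dep o (Ball r)) {w : List Bool}
    (hS : ∀ i, ¬ Beh tm (des tm d0 w) i → x i = y i)
    (hZ : ∀ i ∈ Nb tm r (des tm d0 w), (x i).1 = (y i).1) (a : ℕ) :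
    push D tm (env tm (envS K o) x) (mm D tm (env tm (envS K o) x) s) d0 w a =
      push D tm (env tm (envS K o) y) (mm D tm (env tm (envS K o) y) s) d0 w a := by
  refine push_congr a w d0 fun u b v hw => ?_
  rw [hw, des_append] at hS hZ
  rw [des_append]
  generalize des tm d0 u = g at hS hZ ⊢
  refine ⟨envS_congr tm_invo hK ho (fun i hi => ?_)
    (congrArg Prod.snd (hS _ (hG.2.2.2.2.2.2.1 g b v))),
    mm_congr s _ fun v' _ => envS_congr tm_invo hK ho (fun i hi => ?_)
      (congrArg Prod.snd (hS _ fun h => ?_))⟩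
  · by_cases h : Beh tm (des tm g (b :: v)) i
    · exact hZ i (hG.2.2.2.1 r g i _ hi h)
    · exact congrArg Prod.fst (hS i h)
  · by_cases h : Beh tm (des tm g (b :: v)) i
    · exact hZ i (hG.2.2.2.2.1 r g i b v' v hi h)
    · exact congrArg Prod.fst (hS i h)
  · have h1 : Beh tm (ch tm g b) _ := beh_des (w := v) h
    have h2 := beh_m (m := tm) (ch tm g (!b)) v'
    cases b
    · exact hG.1 g _ ⟨h1, h2⟩
    · exact hG.1 g _ ⟨h2, h1⟩

theorem env_setx {d e : TD} (h : d ≠ e) :
    env tm (envS K o) (setx x (tm e) true) d = env tm (envS K o) x d := by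
  simp only [env_envS tm_invo, setx_fst]
  rw [setx_ne _ fun k => h (by rw [← tm_invo d, k, tm_invo e])]

theorem piv (hG : St_GEO) (h1 : ∀ z, 1 ≤ o z) (hs : 1 ≤ s) {w : List Bool}
    (hB : Bl D tm (env tm (envS K o) x) s d0 w)
    (hc : (env tm (envS K o) x (des tm d0 w)).2 ≤ mm D tm (env tm (envS K o) x) s (des tm d0 w))
    (hd : Side tm (mm D tm (env tm (envS K o) x) s)
      (mm D tm (env tm (envS K o) x) (s + w.length)) d0 w) :
    Piv D (envS K o) (s + w.length) w x := by
  have G8 := hG.2.2.2.2.2.2.2.1 d0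
  have a1 : ∀ u b v, w = u ++ b :: v →
      mm D tm (env tm (envS K o) x) (s + v.length) (des tm d0 (u ++ [!b])) =
        mm D tm (env tm (envS K o) x) s (des tm d0 (u ++ [!b])) := fun u b v hw =>
    mm_sand (Nat.le_add_right _ _) (by rw [hw]; simp; omega) ((side_iff w d0).1 hd u b v hw)
  have a2 : mm D tm (env tm (envS K o) (setx x (tm (des tm d0 w)) true)) s (des tm d0 w) = 1 := by
    obtain ⟨t, rfl⟩ := Nat.exists_eq_add_of_le' hs
    refine fs_seed ?_ (h1 _)
    rw [env_envS tm_invo, setx_self, Bool.or_true]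
  unfold Piv mT
  rw [mm_push s w d0 a1, mm_push (σ := mm D tm (env tm (envS K o) x) s) s w d0 fun u b v hw =>
    Eq.trans (mm_congr _ _ fun v' _ => env_setx fun k => ?_) (a1 u b v hw), a2,
    le_antisymm (mm_le_ceil hs _) hc, push_congr (en' := env tm (envS K o) x)
      (σ' := mm D tm (env tm (envS K o) x) s) 1 w d0 fun u b v hw => ⟨env_setx fun k => ?_, rfl⟩]
  · exact hB
  · have := G8 _ _ k
    rw [hw] at this
    simp at this
  · rw [← des_append] at k
    have := G8 _ _ k
    rw [hw] at this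
    simp at this

end BBLK

open BBLK in
theorem st_BLK (hCI : St_CI) (hG : St_GEO) : St_BLK := by
  intro D r s A K o v q w hK ho h1 hs hR
  have hF : Loc (envS K o) := (dep_envS hK ho).loc
  have lE := loc_bl (D := D) (m := tm) hF s d0 w
  have lG := ((hF.at_ tm (des tm d0 w)).map Prod.snd).map₂
    (loc_mm (D := D) (m := tm) hF s (des tm d0 w)) (· ≤ ·)
  have lS := (loc_side (D := D) (m := tm) hF s (s + w.length) w d0).map Not
  have lP : Loc (Piv D (envS K o) (s + w.length) w) :=
    ((loc_mT hF _).setx _ _).map₂ (loc_mT hF _) Ne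
  have k := hCI TD A.L (sd A v) Prod.fst (Nb tm r (des tm d0 w)) (Beh tm (des tm d0 w)) _
    (fun x => (env tm (envS K o) x (des tm d0 w)).2 ≤
      mm D tm (env tm (envS K o) x) s (des tm d0 w)) q lE lG
    (fun x y a b h => by rwa [Bl, ← outside hG hK ho a b, ← outside hG hK ho a b, ← ceil ho b])
    (fun x y a b h => by rwa [← inside hG hK ho a b, ← ceil ho b]) fun z => by
      have lA : Loc fun x : TD → A.L × Bool => ∀ i ∈ Ball r, (x i).1 = (z ∘ cov tm (des tm d0 w)) i :=
        Loc.all _ fun i _ => (Loc.eval i).map fun t : A.L × Bool => t.1 = _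
      have h := hR (z ∘ cov tm (des tm d0 w))
      rw [← pr_at_tm (A := sd A v) lA (des tm d0 w), ← pr_at_tm (A := sd A v)
        (lA.map₂ ((loc_mT hF s).map (o (z ∘ cov tm (des tm d0 w)) ≤ ·)) And) (des tm d0 w)] at h
      refine Eq.trans_le ?_ (h.trans_eq ?_)
      · refine congrArg (fun p => q * pr (sd A v) p) (funext fun x => propext ?_)
        exact forall_mem_image
      · refine congrArg (pr (sd A v)) (funext fun x => propext ?_)
        refine Iff.trans ?_ (and_congr_left' forall_mem_image).symm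
        refine and_congr_right fun a => ?_
        rw [mm_env tm_invo, env_envS tm_invo, ho (z ∘ cov tm (des tm d0 w)) _ fun i hi => (a i hi).symm]
        rfl
  refine k.trans (((pr_mono (A := sd A v) (lE.map₂ lG And) (lP.map₂ lS Or) fun x h => ?_).trans
    (pr_or lP lS)).trans (add_le_add le_rfl (pr_side hF s _ w d0)))
  exact (em _).imp (piv hG h1 hs h.1 h.2) id

end Pool.Agent.Lib.PT5
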