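import Pool.Agent.Lib.PT5.BKit

/-! Labels that keep three messages infinite. -/

namespace Pool.Agent.Lib.PT5

open Finset RC5

namespace BBOOT

theorem sum_bk {D r s k : ℕ} {A : LS} {F : (TD → A.L) → Bool × ℕ} (h : Calm D A F r s k) :
    ∑ W ∈ words (k + 2 * r + 2), pr A (Bk D F r s k W) ≤ 1 / 8 := by
  have e : ∀ u ∈ words (r + 1), ∑ v ∈ words (k + (r + 1)), pr A (Bk D F r s k (u ++ v))
      = 2 ^ (r + 1) * ∑ w ∈ words k, pr A (fun x => Bp D tm (env tm F x) s d0 w) := fun u hu => by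
    rw [sum_words_add, mul_sum]
    refine sum_congr rfl fun w hw => (sum_congr rfl fun v _ => ?_).trans
      ((sum_const _).trans (by rw [card_words, nsmul_eq_mul, Nat.cast_pow, Nat.cast_ofNat]))
    rw [← pr_at_tm (loc_bp h.dep.loc s d0 w) (des tm d0 u)]
    refine congrArg _ (funext fun x => ?_)
    rw [Bk, List.take_left' (mem_words.1 hu), List.drop_left' (mem_words.1 hu),
      List.take_left' (mem_words.1 hw), at_, env_cov tm_invo, bp_cov tm_invo, cov_d0]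
  rw [show k + 2 * r + 2 = r + 1 + (k + (r + 1)) by omega, sum_words_add, sum_congr rfl e, sum_const,
    card_words, nsmul_eq_mul, Nat.cast_pow, Nat.cast_ofNat, ← mul_assoc, ← mul_pow]
  have h1 := h.blk
  rw [le_div_iff₀ (by positivity)] at h1
  norm_num at h1 ⊢
  linarith

end BBOOT

theorem st_BOOT (hS : St_SUP) (hP : St_EVP) (hD : St_EVD) (hG : St_GF) (hC : St_CAU)
    (hA : St_AVOID) : St_BOOT := by
  intro D A F r s k h
  obtain ⟨⟨R, d1, d2, d3⟩, s1, s2⟩ := hS _ D r s k F h.dep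
  have hn : k + 2 * r + 2 ≠ 0 := Nat.succ_ne_zero _
  have z1 : (1 : ℝ) < 2 ^ ((k + 2 * r + 2 : ℕ) : ℝ)⁻¹ := Real.one_lt_rpow one_lt_two (by positivity)
  obtain ⟨N, R', H⟩ := hA A R (fun x => mT D F s x < D + 1) _ _ _ (d1.map (· < D + 1))
    (hD _ (k + 2 * r + 2) R _ _ d2 d3) h.few
    (fun Y => hP A _ _ _ _ _ d2.loc (fun W => (d3 W).loc) s1 s2 h.lf (fun _ => le_rfl) Y []) z1
    (hG _ _ _ _ (Nat.pos_of_ne_zero hn) (by positivity) le_rfl (fun _ => pr_nonneg _)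
      (BBOOT.sum_bk h) z1.le (Real.rpow_inv_natCast_pow zero_le_two hn).le)
  refine ⟨R', fun n m hm hi S hc => ?_⟩
  obtain ⟨x, h1, h2⟩ := H n m hm hi S hc
  refine ⟨x, fun a ha t => ?_⟩
  have i := invo_of_isM hm
  have e : mT D F s (x ∘ cov m a) = D + 1 := le_antisymm (mm_le_cap _ _) (not_lt.1 (h1 a ha).1)
  rw [mm_env i]
  rcases le_total t s with ht | ht
  · exact le_antisymm (mm_le_cap _ _) (e.ge.trans (mm_anti ht _))
  by_contra c
  rcases hC _ D r s k N t F (x ∘ cov m a) h.one h.late ht (e ▸ c) with ⟨Y, a1, a2⟩ | ⟨g, Y, a1, a2, a3⟩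
  · exact (h1 a ha).2 Y a1 a2
  · exact h2 (cov m a g) Y a1 a2 (at_at i _ g a ▸ a3)

end Pool.Agent.Lib.PT5
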