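import Pool.Agent.Lib.PT5.BKit

/-! Block CALM: a density of seeds, ceilings and a time after which changes are rare. -/

namespace Pool.Agent.Lib.PT5

open Finset RC5

namespace BCALM

theorem mono (hRUS : St_RUS) {A : LS} {f : (TD → A.L × Bool) → ℝ} (hf : Loc f)
    (h : ∀ x i, f x ≤ f (setx x i true)) {v u : ℝ} (h0 : 0 ≤ v) (h1 : v ≤ u) (h2 : u ≤ 1) :
    mn (sd A v) f ≤ mn (sd A u) f := by
  obtain ⟨_, -, -, k⟩ := hRUS TD A f ∅ v u hf h h0 h1 h2
  rw [sum_empty, mul_zero] at k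
  linarith

theorem loc_ag {α : Type} (r : ℕ) (z : TD → α) : Loc fun x : TD → α => ∀ i ∈ Ball r, x i = z i :=
  Loc.all _ fun i _ => (Loc.eval i).map (· = z i)

theorem reach (hRUS : St_RUS) {D r t : ℕ} {A : LS} {K : (TD → A.L) → Bool} {o : (TD → A.L) → ℕ}
    (hF : Loc (envS K o)) {v u q : ℝ} (h0 : 0 ≤ v) (h1 : v ≤ u) (h2 : u ≤ 1)
    (h : Reach D A u K o r t q) : Reach D A v K o r t q := fun z => by
  have l : Loc fun x : TD → A.L × Bool =>
      ind ((∀ i ∈ Ball r, (x i).1 = z i) ∧ o z ≤ mT D (envS K o) t x) :=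
    (((loc_ag r z).label Prod.fst).map₂ ((loc_mT hF t).map (o z ≤ ·)) And).map ind
  have k := mono hRUS (l.map Neg.neg) (fun x i => neg_le_neg (ind_mono fun a =>
    ⟨fun j hj => (setx_fst x i j true).symm.trans (a.1 j hj), a.2.trans (mT_setx t x i)⟩)) h0 h1 h2
  rw [mn_neg (A := sd A v) l, mn_neg (A := sd A u) l] at k
  have e := (pr_fst (loc_ag r z) v).trans (pr_fst (loc_ag r z) u).symm
  exact ((congrArg (q * ·) e).le.trans (h z)).trans (neg_le_neg_iff.1 k)

theorem sand {D : ℕ} {A : LS} {F : (TD → A.L) → Bool × ℕ} (hF : Loc F) {a b s t : ℕ} (s1 : a ≤ s)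
    (s2 : s ≤ b) (t1 : a ≤ t) (t2 : t ≤ b) :
    pr A (fun x => mT D F s x ≠ mT D F t x) ≤ pr A fun x => mT D F a x ≠ mT D F b x :=
  pr_mono ((loc_mT hF s).map₂ (loc_mT hF t) Ne) ((loc_mT hF a).map₂ (loc_mT hF b) Ne)
    fun _ h e => h ((mm_sand s1 s2 e).trans (mm_sand t1 t2 e).symm)

theorem seeds {D r : ℕ} {A : LS} {K : (TD → A.L) → Bool} (hK : Dep K (Ball r)) {c : ℝ}
    (hc : 0 < c) (hD : 1 ≤ D) (h : pr A (fun x => K x = true) ≤ (min c 1 / 2) ^ D) :
    pr (sd A ((min c 1 / 2) ^ D)) (fun x => kS K x = true) ≤ c ^ D := by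
  have m0 : 0 < min c 1 := lt_min hc one_pos
  have u1 : (min c 1 / 2) ^ D ≤ 1 := pow_le_one₀ (by positivity) (by linarith [min_le_right c 1])
  have l1 : Loc fun x : TD → A.L × Bool => K (fun i => (x i).1) = true :=
    (hK.loc.label Prod.fst).map (· = true)
  have l2 : Loc fun x : TD → A.L × Bool => (x (tm d0)).2 = true :=
    (Loc.eval (tm d0)).map fun b : A.L × Bool => b.2 = true
  have k := (pr_mono (A := sd A ((min c 1 / 2) ^ D)) ((dep_kS hK).loc.map (· = true))
    (l1.map₂ l2 Or) fun x hx => by simpa [kS] using hx).trans (pr_or l1 l2)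
  rw [pr_seed (by positivity) u1, pr_fst (p := fun x => K x = true) (hK.loc.map (· = true))] at k
  have k2 : (2 : ℝ) ≤ 2 ^ D := le_self_pow₀ one_le_two (by omega)
  calc _ ≤ 2 * (min c 1 / 2) ^ D := by linarith
    _ ≤ 2 ^ D * (min c 1 / 2) ^ D := by gcongr
    _ = (min c 1) ^ D := by rw [← mul_pow]; congr 1; ring
    _ ≤ c ^ D := by gcongr; exact min_le_left _ _

end BCALM

open BCALM in
theorem st_CALM (hSMALL : St_SMALL) (hCEIL : St_CEIL) (hRUS : St_RUS) (hPIG : St_PIG)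
    (hBLK : St_BLK) : St_CALM := by
  obtain ⟨c, hc, hS⟩ := hSMALL
  have m0 : 0 < min c 1 := lt_min hc one_pos
  refine ⟨min c 1 / 2, by positivity, fun D hD A K r hK hp => ?_⟩
  have h1 := hS D hD (sd A ((min c 1 / 2) ^ D)) (kS K) (dep_kS hK).loc (seeds hK hc hD hp)
  have u1 : (min c 1 / 2) ^ D ≤ 1 := pow_le_one₀ (by positivity) (by linarith [min_le_right c 1])
  have u0 : 0 < (min c 1 / 2) ^ D := by positivity
  generalize (min c 1 / 2) ^ D = u at h1 u0 u1
  obtain ⟨o, ho, o1, q, q0, hC⟩ := hCEIL D r A K u (1 / 100) hK h1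
  obtain ⟨δ, hδ⟩ : ∃ δ : ℝ, δ = 1 / (8 * 4 ^ (r + 1)) := ⟨_, rfl⟩
  have δ0 : 0 < δ := by rw [hδ]; positivity
  obtain ⟨J, hJ⟩ := hPIG D r A K o u (q * δ / 3) hK ho u0 u1 (by positivity)
  have n0 : 0 < min (q * δ) δ := lt_min (by positivity) δ0
  obtain ⟨η, η0, η1, η2⟩ : ∃ η : ℝ, 0 < η ∧ η ≤ min (q * δ) δ / (3 * (2 ^ J * (J + 1))) ∧
      η ≤ 1 / (400 * 4 ^ (J + 2 * r + 2) * 2 ^ (r + 1)) :=
    ⟨min _ _, lt_min (by positivity) (by positivity), min_le_left _ _, min_le_right _ _⟩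
  obtain ⟨v, k, s, v0, v1, hk, hs, hP, hE⟩ := hJ η (J + r + 2) η0
  have hF : Loc (envS K o) := (dep_envS hK ho).loc
  have E : ∀ t t', s - (J + r + 2) ≤ t → t ≤ s + (J + r + 2) → s - (J + r + 2) ≤ t' →
      t' ≤ s + (J + r + 2) →
      pr (sd A v) (fun x => mT D (envS K o) t x ≠ mT D (envS K o) t' x) ≤ η :=
    fun t t' a b a' b' => (sand (A := sd A v) hF a b a' b').trans hE
  have η3 : (2 : ℝ) ^ k * (k * η) ≤ min (q * δ) δ / 3 := by
    have k1 : (k : ℝ) ≤ J + 1 := by exact_mod_cast hk.trans (Nat.le_succ J)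
    rw [le_div_iff₀ (by positivity)] at η1
    calc (2 : ℝ) ^ k * (k * η) ≤ 2 ^ J * ((J + 1) * η) := by gcongr; norm_num
      _ ≤ _ := by linarith
  refine ⟨v, o, s, k, dep_envS hK ho, fun x => o1 _, by omega, ?_, ?_, ?_⟩
  · exact (mono hRUS (((loc_mT hF s).map (· < D + 1)).map ind)
      (fun x i => ind_mono fun a => (mT_setx s x i).trans_lt a) v0 v1 u1).trans (hC s).1
  · have b1 : q * ∑ w ∈ words k, pr (sd A v) (fun x => Bl D tm (env tm (envS K o) x) s d0 w) ≤
        q * δ / 3 + 2 ^ k * (k * η) := by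
      rw [mul_sum]
      calc _ ≤ ∑ w ∈ words k, (pr (sd A v) (Piv D (envS K o) (s + k) w) + k * η) := by
            refine sum_le_sum fun w hw => ?_
            have := hBLK D r s A K o v q w hK ho o1 (by omega) (reach hRUS hF v0 v1 u1 (hC s).2)
            rw [mem_words.1 hw] at this
            refine this.trans (add_le_add_right ?_ _)
            exact mul_le_mul_of_nonneg_left
              (E _ _ (by omega) (by omega) (by omega) (by omega)) (Nat.cast_nonneg k)
        _ ≤ _ := by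
            rw [sum_add_distrib, sum_const, card_words, nsmul_eq_mul]
            push_cast
            linarith
    have b2 : ∑ w ∈ words k, pr (sd A v) (fun x => Bl D tm (env tm (envS K o) x) s d0 w) ≤
        2 * δ / 3 :=
      le_of_mul_le_mul_left (by linarith [min_le_left (q * δ) δ]) q0
    calc _ ≤ ∑ w ∈ words k,
          (pr (sd A v) (fun x => Bl D tm (env tm (envS K o) x) s d0 w) + k * η) := by
          refine sum_le_sum fun w hw => ?_
          refine (pr_or (A := sd A v) (loc_bl hF s d0 w)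
            ((loc_side hF _ s w d0).map Not)).trans (add_le_add_right ?_ _)
          refine (pr_side (A := sd A v) hF _ s w d0).trans ?_
          rw [mem_words.1 hw]
          exact mul_le_mul_of_nonneg_left
            (E _ _ (by omega) (by omega) (by omega) (by omega)) (Nat.cast_nonneg k)
      _ ≤ δ := by
          rw [sum_add_distrib, sum_const, card_words, nsmul_eq_mul]
          push_cast
          linarith [min_le_right (q * δ) δ]
      _ = _ := hδ
  · refine (pr_ex (A := sd A v) (words (r + 1)) fun w _ =>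
      (loc_mm hF (s - r) (des tm d0 w)).map₂ (loc_mm hF (s - r - 1) (des tm d0 w)) Ne).trans ?_
    calc _ ≤ ∑ _w ∈ words (r + 1), η := sum_le_sum fun w _ =>
          (pr_mm (A := sd A v) hF _ _ Ne _).trans_le
            (E _ _ (by omega) (by omega) (by omega) (by omega))
      _ = 2 ^ (r + 1) * η := by rw [sum_const, card_words, nsmul_eq_mul]; push_cast; rfl
      _ ≤ 2 ^ (r + 1) * (1 / (400 * 4 ^ (J + 2 * r + 2) * 2 ^ (r + 1))) := by gcongr
      _ = 1 / (400 * 4 ^ (J + 2 * r + 2)) := by field_simp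
      _ ≤ _ := by gcongr; norm_num

end Pool.Agent.Lib.PT5
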