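import Pool.Agent.Lib.PT5.BKit

/-! A late change of a message has a causal tree. -/

namespace Pool.Agent.Lib.PT5

open Finset RC5 Function

namespace BCAU

/-- the tree of the changes after time `s` -/
def Cau (M : ℕ → TD → ℕ) (s : ℕ) : Tr → TD → ℕ → Prop
  | .lf, d, _ => M (s + 1) d ≠ M s d
  | .un b Y, d, t => ∃ t', t = t' + 1 ∧ s ≤ t' ∧ M t d ≠ M s d ∧
      M t' (ch tm d (!b)) = M s (ch tm d (!b)) ∧ Cau M s Y (ch tm d b) t'
  | .bi Y Z, d, _ => ∃ t', s ≤ t' ∧ Cau M s Y (ch tm d false) t' ∧ Cau M s Z (ch tm d true) t'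

/-- a path along which a change went up while the sides did not move -/
def Run (M : ℕ → TD → ℕ) (s : ℕ) (g : TD) (w : List Bool) (t : ℕ) : Prop :=
  ∀ u b v, w = u ++ b :: v → M (t + v.length + 1) (des tm g u) ≠ M s (des tm g u) ∧
    M (t + v.length) (des tm g (u ++ [!b])) = M s (des tm g (u ++ [!b]))

variable {α : Type} {D r s k N : ℕ} {en : TD → Bool × ℕ} {M : ℕ → TD → ℕ}

theorem exists_cau {t : ℕ} (h : s ≤ t) :
    ∀ d, mm D tm en t d ≠ mm D tm en s d → ∃ Y, Cau (mm D tm en) s Y d t := by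
  induction t, h using Nat.le_induction with
  | base => exact fun d h => (h rfl).elim
  | succ t ht ih =>
    intro d h
    by_cases a : mm D tm en t (ch tm d false) = mm D tm en s (ch tm d false) <;>
      by_cases b : mm D tm en t (ch tm d true) = mm D tm en s (ch tm d true)
    · refine ⟨.lf, fun e => h (Eq.trans ?_ e)⟩
      rw [mm, mm, a, b]
    · obtain ⟨Y, hY⟩ := ih _ b
      exact ⟨.un true Y, t, rfl, ht, h, a, hY⟩
    · obtain ⟨Y, hY⟩ := ih _ a
      exact ⟨.un false Y, t, rfl, ht, h, b, hY⟩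
    · obtain ⟨Y, hY⟩ := ih _ a
      obtain ⟨Z, hZ⟩ := ih _ b
      exact ⟨.bi Y Z, t, ht, hY, hZ⟩

theorem sub_cau : ∀ (Y : Tr) (d : TD) (t : ℕ), Cau M s Y d t → N < Y.sz →
    ∃ (Y' : Tr) (d' : TD) (t' : ℕ), Cau M s Y' d' t' ∧ N < Y'.sz ∧ Y'.sz ≤ 2 * N + 1
  | .lf, d, t, h, hN => ⟨.lf, d, t, h, hN, by simp [Tr.sz]⟩
  | .un b Y, d, t, h, hN => by
    by_cases a : N < Y.sz
    · obtain ⟨t', -, -, -, -, h'⟩ := h
      exact sub_cau Y _ t' h' a
    · exact ⟨.un b Y, d, t, h, hN, by simp only [Tr.sz]; omega⟩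
  | .bi Y Z, d, t, h, hN => by
    by_cases a : N < Y.sz
    · obtain ⟨t', -, h', -⟩ := h
      exact sub_cau Y _ t' h' a
    by_cases b : N < Z.sz
    · obtain ⟨t', -, -, h'⟩ := h
      exact sub_cau Z _ t' h' b
    · exact ⟨.bi Y Z, d, t, h, hN, by simp only [Tr.sz]; omega⟩

theorem des_snoc (g : TD) (w : List Bool) (b : Bool) :
    des tm g (w ++ [b]) = ch tm (des tm g w) b := by rw [des_append]; rfl

theorem run_nil (g : TD) (t : ℕ) : Run M s g [] t := fun u b v e => by simp at e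

theorem run_snoc {g : TD} {w : List Bool} {t : ℕ} {b : Bool} (h : Run M s g w (t + 1))
    (h1 : M (t + 1) (des tm g w) ≠ M s (des tm g w))
    (h2 : M t (ch tm (des tm g w) (!b)) = M s (ch tm (des tm g w) (!b))) :
    Run M s g (w ++ [b]) t := by
  intro u c v e
  rcases List.eq_nil_or_concat' v with rfl | ⟨v', c', rfl⟩
  · obtain ⟨rfl, e'⟩ := List.append_inj' e rfl
    obtain rfl : b = c := by simpa using e'
    rw [des_snoc]
    exact ⟨h1, h2⟩
  · have e' : w ++ [b] = (u ++ c :: v') ++ [c'] := by simpa using e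
    have h3 := h u c v' (List.append_inj' e' rfl).1
    rw [List.length_append, List.length_singleton,
      show t + (v'.length + 1) = t + 1 + v'.length by omega]
    exact h3

theorem bp_of_run (h1 : ∀ d, 1 ≤ (en d).2) (hs : k + r + 2 ≤ s) {g : TD} {W₁ w W₃ : List Bool}
    {t : ℕ} (_ht : s ≤ t) (hw : w.length = k) (h3 : W₃.length = r + 1)
    (h : Run (mm D tm en) s g (W₁ ++ (w ++ W₃)) t) : Bp D tm en s (des tm g W₁) w := by
  refine or_iff_not_imp_right.2 fun hS => ?_
  have hS' := (side_iff w _).1 (not_not.1 hS)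
  have a1 := mm_push (D := D) (m := tm) (en := en) (σ := mm D tm en s) (t + (r + 1)) w
    (des tm g W₁) fun u b v e => by
      have := (h (W₁ ++ u) b (v ++ W₃) (by simp [e])).2
      rwa [List.length_append, h3, List.append_assoc, des_append,
        show t + (v.length + (r + 1)) = t + (r + 1) + v.length by omega] at this
  have a2 := mm_push (D := D) (m := tm) (en := en) (σ := mm D tm en s) (s - w.length) w
    (des tm g W₁) fun u b v e => by
      have b1 := hS' u b v e
      have b2 : v.length ≤ w.length := by rw [e]; simp; omega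
      exact (mm_sand (Nat.le_add_right _ _) (by omega) b1).trans b1
  rw [show s - w.length + w.length = s by omega] at a2
  obtain ⟨c, v, e⟩ : ∃ c v, w ++ W₃ = c :: v :=
    List.exists_cons_of_length_pos (by rw [List.length_append]; omega)
  have a3 := (h W₁ c v (by rw [e])).1
  have a4 : t + v.length + 1 = t + (r + 1) + w.length := by
    have := congrArg List.length e
    rw [List.length_append, List.length_cons] at this
    omega
  rw [a4, a1, a2] at a3
  intro a5
  have key : ∀ j, 1 ≤ j → push D tm en (mm D tm en s) (des tm g W₁) w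
      (mm D tm en j (des tm (des tm g W₁) w)) = push D tm en (mm D tm en s) (des tm g W₁) w 1 :=
    fun j hj => le_antisymm (a5 ▸ push_mono (mm_le_ceil hj _) w _) (push_mono (mm_pos h1 j _) w _)
  exact a3 ((key _ (by omega)).trans (key _ (by omega)).symm)

variable {F : (TD → α) → Bool × ℕ} {x : TD → α}

theorem at_des {β : Type} (f : (TD → α) → β) (g : TD) (w : List Bool) :
    at_ tm f (des tm d0 w) (x ∘ cov tm g) = f (x ∘ cov tm (des tm g w)) := by
  rw [at_, comp_cov tm_invo, cov_des tm_invo, cov_d0]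

theorem lf_of (hs : k + r + 2 ≤ s) {e : TD}
    (h : mm D tm (env tm F x) (s + 1) e ≠ mm D tm (env tm F x) s e) :
    Lf D F r s (x ∘ cov tm e) := by
  obtain ⟨w, h1, h2⟩ := mm_desc (D := D) (m := tm) (en := env tm F x) (r + 1) (s - r - 1) e
    (by rwa [show s - r - 1 + (r + 1) = s by omega])
  refine ⟨w, mem_words.2 h1, ?_⟩
  rw [env_cov tm_invo, mm_cov tm_invo, mm_cov tm_invo, cov_des tm_invo, cov_d0]
  rwa [show s - r - 1 + 1 = s - r by omega] at h2

theorem bk_of (h1 : ∀ y, 1 ≤ (F y).2) (hs : k + r + 2 ≤ s) {g : TD} {W : List Bool} {t : ℕ}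
    (ht : s ≤ t) (hW : W.length = k + 2 * r + 2) (h : Run (mm D tm (env tm F x)) s g W t) :
    Bk D F r s k W (x ∘ cov tm g) := by
  rw [Bk, env_cov tm_invo, bp_cov tm_invo, cov_des tm_invo, cov_d0]
  refine bp_of_run (W₃ := (W.drop (r + 1)).drop k) (fun _ => h1 _) hs ht ?_ ?_ ?_
  · rw [List.length_take, List.length_drop]; omega
  · rw [List.length_drop, List.length_drop]; omega
  · rwa [List.take_append_drop, List.take_append_drop]

theorem ev_of (h1 : ∀ y, 1 ≤ (F y).2) (hs : k + r + 2 ≤ s) : ∀ (Y : Tr) (g : TD) (w : List Bool)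
    (t : ℕ), w.length < k + 2 * r + 2 → Cau (mm D tm (env tm F x)) s Y (des tm g w) t →
      Run (mm D tm (env tm F x)) s g w t →
      Ev (k + 2 * r + 2) (Lf D F r s) (Bk D F r s k) Y w (x ∘ cov tm g)
  | .lf, g, w, t, _, h, _ => by
    rw [Ev, at_des]
    exact lf_of hs h
  | .un b Y, g, w, t, hw, h, hR => by
    obtain ⟨t', rfl, a1, a2, a3, a4⟩ := h
    have a5 := run_snoc hR a2 a3
    rw [← des_snoc] at a4
    rw [Ev]
    split_ifs with c
    · rw [at_des]
      exact ⟨bk_of h1 hs a1 (by simpa using c) a5,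
        ev_of h1 hs Y _ [] t' (by simp) a4 (run_nil _ _)⟩
    · exact ev_of h1 hs Y g _ t' (by simp; omega) a4 a5
  | .bi Y Z, g, w, t, _, h, _ => by
    obtain ⟨t', -, a1, a2⟩ := h
    rw [← des_snoc] at a1 a2
    rw [Ev, at_des, at_des]
    exact ⟨ev_of h1 hs Y _ [] t' (by simp) a1 (run_nil _ _),
      ev_of h1 hs Z _ [] t' (by simp) a2 (run_nil _ _)⟩

end BCAU

open BCAU in
theorem st_CAU : St_CAU := by
  intro α D r s k N t F x h1 hs ht h
  obtain ⟨Y, hY⟩ := exists_cau ht d0 h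
  by_cases c : Y.sz ≤ 2 * N + 1
  · have := ev_of h1 hs Y d0 [] t (by simp) hY (run_nil _ _)
    rw [show x ∘ cov tm d0 = x from funext fun i => congrArg x (cov_id i)] at this
    exact Or.inl ⟨Y, c, this⟩
  · obtain ⟨Y', e, t', a1, a2, a3⟩ := sub_cau (N := N) Y _ _ hY (by omega)
    exact Or.inr ⟨e, Y', a2, a3, ev_of h1 hs Y' e [] t' (by simp) a1 (run_nil _ _)⟩

end Pool.Agent.Lib.PT5
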