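import Pool.Agent.Lib.PT5.BKit

/-! Ceilings for the repair messages. -/

namespace Pool.Agent.Lib.PT5

open Finset RC5 Function Filter Topology

namespace BCEIL

theorem pr_imp {ι : Type} [DecidableEq ι] {A : LS} {p : (ι → A.L) → Prop} (h : ∀ x, ¬ p x) :
    pr A p = 0 := by
  unfold pr
  rw [funext fun x => ind_neg (h x), mn_const]

theorem lim0 {f : ℕ → ℝ} (h0 : ∀ t, 0 ≤ f t) (ha : Antitone f)
    (h : ¬ ∃ c, 0 < c ∧ ∀ t, c ≤ f t) : Tendsto f atTop (𝓝 0) := by
  refine tendsto_order.2 ⟨fun c hc => .of_forall fun t => hc.trans_le (h0 t), fun c hc => ?_⟩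
  obtain ⟨t, ht⟩ : ∃ t, f t < c := by
    by_contra k
    exact h ⟨c, hc, fun t => not_lt.1 fun e => k ⟨t, e⟩⟩
  exact (eventually_ge_atTop t).mono fun s hs => (ha hs).trans_lt ht

variable (D r : ℕ) (A : LS) (K : (TD → A.L) → Bool) (u : ℝ)

/-- the labels near the root are given -/
def ag (z : TD → A.L) (x : TD → A.L × Bool) : Prop := ∀ i ∈ Ball r, (x i).1 = z i

/-- the probability of a high message with given labels -/
noncomputable def W (z : TD → A.L) (j t : ℕ) : ℝ :=
  pr (sd A u) fun x => ag r A z x ∧ j ≤ mT D (noC D (kS K)) t x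

/-- the height is reached for ever -/
def Pos (z : TD → A.L) (j : ℕ) : Prop := ∃ c, 0 < c ∧ ∀ t, c ≤ W D r A K u z j t

open Classical in
/-- the ceiling -/
noncomputable def oo (z : TD → A.L) : ℕ := max 1 (Nat.findGreatest (Pos D r A K u z) (D + 1))

/-- extension of labels -/
def ex (y : Ball r → A.L) (i : TD) : A.L := if h : i ∈ Ball r then y ⟨i, h⟩ else A.pt

variable {D r A K u}

theorem ex_res (z : TD → A.L) : ∀ i ∈ Ball r, ex r A (fun i => z i) i = z i :=
  fun _ h => dif_pos h

theorem ag_congr {z z' : TD → A.L} (h : ∀ i ∈ Ball r, z i = z' i) : ag r A z = ag r A z' :=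
  funext fun _ => propext (forall₂_congr fun i hi => by rw [h i hi])

theorem W_congr {z z' : TD → A.L} (h : ∀ i ∈ Ball r, z i = z' i) :
    W D r A K u z = W D r A K u z' := by
  funext j t
  rw [W, W, ag_congr h]

theorem dep_oo : Dep (oo D r A K u) (Ball r) := fun z z' h => by
  have : Pos D r A K u z = Pos D r A K u z' := by
    funext j
    rw [Pos, Pos, W_congr h]
  rw [oo, oo, this]

theorem loc_ag (z : TD → A.L) : Loc (ag r A z) :=
  Loc.all _ fun i _ => (Loc.eval i).map fun a : A.L × Bool => a.1 = z i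

theorem loc_F0 (hK : Dep K (Ball r)) : Loc (noC D (kS K)) :=
  (dep_kS hK).loc.map fun b => (b, D + 1)

theorem not_pos (z : TD → A.L) : ¬ Pos D r A K u z (oo D r A K u z + 1) := by
  classical
  rcases le_or_gt (oo D r A K u z + 1) (D + 1) with h | h
  · exact Nat.findGreatest_is_greatest (Nat.lt_succ_of_le (le_max_right _ _)) h
  · rintro ⟨c, hc, k⟩
    have := k 0
    rw [W, pr_imp fun x hx => absurd (hx.2.trans (mm_le_cap _ _)) (by omega)] at this
    exact absurd this (not_le.2 hc)

theorem pos_or (z : TD → A.L) : Pos D r A K u z (oo D r A K u z) ∨ oo D r A K u z = 1 := by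
  classical
  by_cases h : Nat.findGreatest (Pos D r A K u z) (D + 1) = 0
  · exact Or.inr (by rw [oo, h]; rfl)
  · refine Or.inl ?_
    rw [oo, max_eq_right (Nat.one_le_iff_ne_zero.2 h)]
    exact Nat.findGreatest_of_ne_zero rfl h

theorem W_lim (hK : Dep K (Ball r)) (z : TD → A.L) :
    Tendsto (W D r A K u z (oo D r A K u z + 1)) atTop (𝓝 0) := by
  have l := fun t => (loc_ag (r := r) z).map₂ (loc_mT (D := D) (loc_F0 (D := D) hK) t)
    fun p n => p ∧ oo D r A K u z + 1 ≤ n
  exact lim0 (fun _ => pr_nonneg _) (fun s t h => pr_mono (l t) (l s) fun x hx =>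
    ⟨hx.1, hx.2.trans (mm_anti h _)⟩) (not_pos z)

theorem G_lim (hK : Dep K (Ball r)) : Tendsto (fun t => pr (sd A u) fun x : TD → A.L × Bool =>
    oo D r A K u (fun i => (x i).1) < mT D (noC D (kS K)) t x) atTop (𝓝 0) := by
  classical
  have h := tendsto_finsetSum (univ : Finset (Ball r → A.L))
    fun y _ => W_lim (D := D) (u := u) hK (ex r A y)
  rw [sum_const_zero] at h
  refine squeeze_zero (fun _ => pr_nonneg _) (fun t => ?_) h
  have l := fun y : Ball r → A.L => (loc_ag (r := r) (ex r A y)).map₂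
    (loc_mT (D := D) (loc_F0 (D := D) hK) t) fun p n => p ∧ oo D r A K u (ex r A y) + 1 ≤ n
  refine le_trans (pr_mono ?_ (Loc.ex univ fun y _ => l y) fun x hx => ?_)
    (pr_ex (A := sd A u) univ fun y _ => l y)
  · exact ((dep_oo (D := D) (r := r) (K := K) (u := u)).loc.label Prod.fst).map₂
      (loc_mT (D := D) (loc_F0 (D := D) hK) t) (· < ·)
  · have e := ex_res (r := r) fun i => (x i).1
    exact ⟨fun i => (x i).1, mem_univ _, fun i hi => (e i hi).symm, by rwa [dep_oo _ _ e]⟩

theorem key (hK : Dep K (Ball r)) : ∀ t, Tendsto (fun s => pr (sd A u) fun x =>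
    mT D (envS K (oo D r A K u)) t x < mT D (noC D (kS K)) s x) atTop (𝓝 0)
  | 0 => by
    refine tendsto_const_nhds.congr fun s => (pr_imp fun x => not_lt.2 (mm_le_cap _ _)).symm
  | t + 1 => by
    have lF := (dep_envS hK (dep_oo (D := D) (r := r) (K := K) (u := u))).loc
    have l0 := loc_F0 (D := D) hK
    have h := (((tendsto_add_atTop_iff_nat 1).2 (G_lim (D := D) (u := u) hK)).add
      ((key hK t).add (key hK t)))
    rw [add_zero, add_zero] at h
    refine (tendsto_add_atTop_iff_nat 1).1 (squeeze_zero (fun _ => pr_nonneg _) (fun s => ?_) h)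
    have l := fun e => (loc_mm (D := D) (m := tm) lF t e).map₂
      (loc_mm (D := D) (m := tm) l0 s e) (· < ·)
    have p : ∀ e, pr (sd A u) (fun x => mm D tm (env tm (envS K (oo D r A K u)) x) t e <
        mm D tm (env tm (noC D (kS K)) x) s e) = pr (sd A u) fun x =>
          mT D (envS K (oo D r A K u)) t x < mT D (noC D (kS K)) s x := fun e => by
      simp only [mm_env tm_invo]
      exact pr_at_tm (A := sd A u)
        ((loc_mT (D := D) lF t).map₂ (loc_mT (D := D) l0 s) (· < ·)) e
    have lG := ((dep_oo (D := D) (r := r) (K := K) (u := u)).loc.label Prod.fst).map₂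
      (loc_mT (D := D) l0 (s + 1)) (· < ·)
    have l2 := (l (ch tm d0 false)).map₂ (l (ch tm d0 true)) Or
    refine le_trans (pr_mono ((loc_mT lF _).map₂ (loc_mT l0 _) (· < ·)) (lG.map₂ l2 Or)
      fun x hx => ?_) ((pr_or (A := sd A u) lG l2).trans (add_le_add le_rfl
        ((pr_or (A := sd A u) (l _) (l _)).trans (add_le_add (p _).le (p _).le))))
    by_contra k
    simp only [not_or, not_lt] at k
    refine absurd hx (not_lt.2 (le_min ?_ ((fs_mono id le_rfl k.2.1 k.2.2).trans
      (min_le_right _ _))))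
    have e : x ∘ cov tm d0 = x := funext fun i => congrArg x (cov_id i)
    rw [env, at_, e]
    exact k.1

end BCEIL

open BCEIL in
theorem st_CEIL : St_CEIL := by
  classical
  intro D r A K u q hK hq
  have lF := (dep_envS hK (dep_oo (D := D) (r := r) (K := K) (u := u))).loc
  have l0 := loc_F0 (D := D) hK
  have hc : ∀ y : Ball r → A.L, ∃ c : ℝ, 0 < c ∧ c ≤ 1 ∧
      (Pos D r A K u (ex r A y) (oo D r A K u (ex r A y)) →
        ∀ t, c ≤ W D r A K u (ex r A y) (oo D r A K u (ex r A y)) t) := fun y => by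
    by_cases h : Pos D r A K u (ex r A y) (oo D r A K u (ex r A y))
    · obtain ⟨c, h1, h2⟩ := h
      exact ⟨min c 1, lt_min h1 one_pos, min_le_right _ _, fun _ t => (min_le_left _ _).trans (h2 t)⟩
    · exact ⟨1, one_pos, le_rfl, fun k => absurd k h⟩
  choose c c0 c1 c2 using hc
  have : Nonempty (Ball r → A.L) := ⟨fun _ => A.pt⟩
  obtain ⟨y0, hy⟩ := Finite.exists_min c
  refine ⟨oo D r A K u, dep_oo, fun _ => le_max_left _ _, c y0, c0 _, fun t => ⟨?_, fun z => ?_⟩⟩
  · have h := (key (D := D) (u := u) hK t).const_add q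
    rw [add_zero] at h
    refine ge_of_tendsto' h fun s => ?_
    have a1 := (loc_mT (D := D) l0 s).map (· < D + 1)
    have a2 := (loc_mT (D := D) lF t).map₂ (loc_mT (D := D) l0 s) (· < ·)
    refine le_trans (pr_mono ((loc_mT lF t).map (· < D + 1)) (a1.map₂ a2 Or) fun x hx => ?_)
      ((pr_or (A := sd A u) a1 a2).trans (add_le_add (hq s) le_rfl))
    omega
  · have a0 := loc_ag (r := r) z
    have a1 := a0.map₂ (loc_mT (D := D) lF t) fun p n => p ∧ oo D r A K u z ≤ n
    rcases pos_or (D := D) (r := r) (K := K) (u := u) z with h | h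
    · have e := ex_res (r := r) z
      have h1 := c2 (fun i => z i)
      rw [dep_oo _ _ e, Pos, W_congr e] at h1
      have h2 := (key (D := D) (u := u) hK t).const_add (pr (sd A u) fun x =>
        ag r A z x ∧ oo D r A K u z ≤ mT D (envS K (oo D r A K u)) t x)
      rw [add_zero] at h2
      refine (mul_le_of_le_one_right (c0 _).le (pr_le_one (A := sd A u) a0)).trans
        ((hy fun i => z i).trans (ge_of_tendsto' h2 fun s => (h1 h s).trans ?_))
      have a2 := (loc_mT (D := D) lF t).map₂ (loc_mT (D := D) l0 s) (· < ·)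
      refine le_trans (pr_mono (a0.map₂ (loc_mT (D := D) l0 s)
        fun p n => p ∧ oo D r A K u z ≤ n) (a1.map₂ a2 Or) fun x hx => ?_)
        (pr_or (A := sd A u) a1 a2)
      rcases le_or_gt (mT D (noC D (kS K)) s x) (mT D (envS K (oo D r A K u)) t x) with k | k
      · exact Or.inl ⟨hx.1, hx.2.trans k⟩
      · exact Or.inr k
    · refine (mul_le_of_le_one_left (pr_nonneg _) (c1 _)).trans
        (pr_mono (A := sd A u) a0 a1 fun x hx => ⟨hx, ?_⟩)
      rw [h]
      exact mm_pos (fun d => le_max_left _ _) t d0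

end Pool.Agent.Lib.PT5
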