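import Pool.Agent.Lib.PT5.BKit

/-! Conditional independence given an observable of finitely many labels. -/

namespace Pool.Agent.Lib.PT5

open Finset RC5

namespace BCI

variable {ι γ : Type} [DecidableEq ι] {A : LS}

theorem split [Fintype γ] (π : A.L → γ) (Z : Finset ι) {E : (ι → A.L) → Prop} (hE : Loc E) :
    pr A E = ∑ y : Z → γ, pr A fun x : ι → A.L => (fun i : Z => π (x i)) = y ∧ E x := by
  have l : Loc fun (x : ι → A.L) (i : Z) => π (x i) := Loc.pi fun i => (Loc.eval i.1).map π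
  unfold pr
  rw [← mn_sum _ fun y _ => ((l.map (· = y)).map₂ hE And).map ind]
  simp only [ind_and]
  exact congrArg _ (funext fun x => (sum_ind_mul _ fun _ => ind (E x)).symm)

omit [DecidableEq ι] in
theorem freeze (π : A.L → γ) (Z : Finset ι) (T : ι → Prop) {E : (ι → A.L) → Prop} (hE : Loc E)
    (h : ∀ x y, (∀ i, T i → x i = y i) → (∀ i ∈ Z, π (x i) = π (y i)) → E x → E y)
    (x0 : ι → A.L) : ∃ E' : (ι → A.L) → Prop, Loc E' ∧ DepS E' T ∧
      ∀ x, (∀ i ∈ Z, π (x i) = π (x0 i)) → (E x ↔ E' x) := by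
  classical
  refine ⟨fun x => E fun i => if T i then x i else x0 i, ?_, fun x y a => ?_, fun x a => ?_⟩
  · exact hE.imp fun B k x y a => k _ _ fun i hi => by simp only [a i hi]
  · exact congrArg E (funext fun i => by
      split_ifs with e
      exacts [a i e, rfl])
  · have k : ∀ i ∈ Z, π (x i) = π (if T i then x i else x0 i) := fun i hi => by
      split_ifs
      exacts [rfl, a i hi]
    exact ⟨h _ _ (fun i e => (if_pos e).symm) k,
      h _ _ (fun i e => if_pos e) fun i hi => (k i hi).symm⟩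

omit [DecidableEq ι] in
theorem part (π : A.L → γ) (Z : Finset ι) (T : ι → Prop) (z : ι → γ) :
    Loc (fun x : ι → A.L => ∀ i ∈ Z, T i → π (x i) = z i) ∧
      DepS (fun x : ι → A.L => ∀ i ∈ Z, T i → π (x i) = z i) T :=
  ⟨Loc.all Z fun i _ => (Loc.eval i).map fun a => T i → π a = z i,
    fun x y a => propext (forall₃_congr fun i _ e => by rw [a i e])⟩

omit [DecidableEq ι] in
theorem dand {p q : (ι → A.L) → Prop} {T : ι → Prop} (hp : DepS p T) (hq : DepS q T) :
    DepS (fun x => p x ∧ q x) T := fun x y a => congrArg₂ And (hp x y a) (hq x y a)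

theorem core (π : A.L → γ) (Z : Finset ι) (S : ι → Prop) {E G : (ι → A.L) → Prop} (q : ℝ)
    (hE : Loc E) (hG : Loc G)
    (kE : ∀ x y, (∀ i, ¬ S i → x i = y i) → (∀ i ∈ Z, π (x i) = π (y i)) → E x → E y)
    (kG : ∀ x y, (∀ i, S i → x i = y i) → (∀ i ∈ Z, π (x i) = π (y i)) → G x → G y)
    (x0 : ι → A.L) (h : q * pr A (fun x => ∀ i ∈ Z, π (x i) = π (x0 i))
      ≤ pr A fun x => (∀ i ∈ Z, π (x i) = π (x0 i)) ∧ G x) :
    q * pr A (fun x => (∀ i ∈ Z, π (x i) = π (x0 i)) ∧ E x)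
      ≤ pr A fun x => (∀ i ∈ Z, π (x i) = π (x0 i)) ∧ E x ∧ G x := by
  obtain ⟨E', e1, e2, e3⟩ := freeze π Z (fun i => ¬ S i) hE kE x0
  obtain ⟨G', g1, g2, g3⟩ := freeze π Z S hG kG x0
  obtain ⟨f1, f2⟩ := part (A := A) π Z (fun i => ¬ S i) fun i => π (x0 i)
  obtain ⟨b1, b2⟩ := part (A := A) π Z S fun i => π (x0 i)
  set F := fun x : ι → A.L => ∀ i ∈ Z, ¬ S i → π (x i) = π (x0 i) with hF
  set B := fun x : ι → A.L => ∀ i ∈ Z, S i → π (x i) = π (x0 i) with hB
  have ag : ∀ x : ι → A.L, (∀ i ∈ Z, π (x i) = π (x0 i)) ↔ F x ∧ B x := fun x =>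
    ⟨fun a => ⟨fun i hi _ => a i hi, fun i hi _ => a i hi⟩,
      fun a i hi => (em (S i)).elim (a.2 i hi) (a.1 i hi)⟩
  have d : ∀ i, ¬ S i → ¬ S i := fun _ a => a
  have l1 := f1.map₂ e1 And
  have l2 := b1.map₂ g1 And
  have p1 : (fun x => (∀ i ∈ Z, π (x i) = π (x0 i)) ∧ E x) = fun x => (F x ∧ E' x) ∧ B x :=
    funext fun x => propext (by have := e3 x; have := ag x; tauto)
  have p2 : (fun x => (∀ i ∈ Z, π (x i) = π (x0 i)) ∧ E x ∧ G x)
      = fun x => (F x ∧ E' x) ∧ B x ∧ G' x :=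
    funext fun x => propext (by have := e3 x; have := g3 x; have := ag x; tauto)
  have p3 : (fun x => (∀ i ∈ Z, π (x i) = π (x0 i)) ∧ G x) = fun x => F x ∧ B x ∧ G' x :=
    funext fun x => propext (by have := g3 x; have := ag x; tauto)
  rw [p3, funext fun x => propext (ag x), pr_indepS f1 b1 f2 b2 d,
    pr_indepS f1 l2 f2 (dand b2 g2) d] at h
  rw [p1, p2, pr_indepS l1 b1 (dand f2 e2) b2 d, pr_indepS l1 l2 (dand f2 e2) (dand b2 g2) d]
  have a0 := pr_nonneg (A := A) fun x => F x ∧ E' x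
  have a1 := pr_mono l1 f1 fun x a => a.1
  rcases (pr_nonneg F).eq_or_lt with e | e
  · rw [le_antisymm (a1.trans e.ge) a0]
    simp
  · rw [mul_left_comm] at h ⊢
    exact mul_le_mul_of_nonneg_left (le_of_mul_le_mul_left h e) a0

end BCI

theorem st_CI : St_CI := by
  intro ι γ _ _ A π Z S E G q hE hG kE kG h
  rw [BCI.split π Z hE, BCI.split π Z (hE.map₂ hG And), mul_sum]
  refine sum_le_sum fun y _ => ?_
  by_cases e : ∃ x0 : ι → A.L, (fun i : Z => π (x0 i)) = y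
  · obtain ⟨x0, rfl⟩ := e
    have k : ∀ x : ι → A.L, ((fun i : Z => π (x i)) = fun i : Z => π (x0 i)) ↔
        ∀ i ∈ Z, π (x i) = π (x0 i) := fun x => funext_iff.trans Subtype.forall
    simp only [k]
    exact BCI.core π Z S q hE hG kE kG x0 (h _)
  · have k : ∀ x : ι → A.L, ¬ ((fun i : Z => π (x i)) = y ∧ E x) := fun x a => e ⟨x, a.1⟩
    simp only [pr, ind_neg (k _), mn_const, mul_zero]
    exact mn_nonneg fun _ => ind_nonneg _

end Pool.Agent.Lib.PT5
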