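import Pool.Agent.Lib.PT5.BKit

/-! Block EVD: support of the event of a shape. -/

namespace Pool.Agent.Lib.PT5

open Finset RC5 Function

namespace BEVD

variable {α : Type}

/-- agreement near a dart -/
def Ag (R : ℕ) (x y : TD → α) (e : TD) : Prop := ∀ t ∈ Ball R, x (cov tm e t) = y (cov tm e t)

theorem ag_cov {R : ℕ} {x y : TD → α} {e : TD} {v : List Bool} (h : Ag R x y (des tm e v)) :
    Ag R (x ∘ cov tm e) (y ∘ cov tm e) (des tm d0 v) := fun t ht => by
  have := h t ht
  rwa [comp_apply, comp_apply, cov_cov tm_invo, cov_des tm_invo, cov_d0]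

theorem key {n R : ℕ} {P : (TD → α) → Prop} {Q : List Bool → (TD → α) → Prop}
    (hP : Dep P (Ball R)) (hQ : ∀ W, Dep (Q W) (Ball R)) (Y : Tr) :
    ∀ (w : List Bool) (x y : TD → α), Ag R x y d0 →
      (∀ v ∈ Y.nd, Ag R x y (des tm d0 (w ++ v))) → Ev n P Q Y w x = Ev n P Q Y w y := by
  have sub : ∀ t : Tr, (∀ (w : List Bool) (x y : TD → α), Ag R x y d0 →
      (∀ v ∈ t.nd, Ag R x y (des tm d0 (w ++ v))) → Ev n P Q t w x = Ev n P Q t w y) →
      ∀ (w : List Bool) (b : Bool) (x y : TD → α),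
        (∀ v ∈ t.nd, Ag R x y (des tm d0 (w ++ b :: v))) →
        at_ tm (Ev n P Q t []) (des tm d0 (w ++ [b])) x =
          at_ tm (Ev n P Q t []) (des tm d0 (w ++ [b])) y := by
    intro t ih w b x y h
    have h' : ∀ v ∈ t.nd, Ag R (x ∘ cov tm (des tm d0 (w ++ [b])))
        (y ∘ cov tm (des tm d0 (w ++ [b]))) (des tm d0 v) := fun v hv => ag_cov (by
      rw [← des_append, List.append_assoc]
      exact h v hv)
    exact ih [] _ _ (h' [] t.nil_mem) h'
  induction Y with
  | lf =>
    intro w x y _ h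
    have := h [] (Tr.nil_mem _)
    rw [List.append_nil] at this
    exact hP _ _ this
  | un b t ih =>
    intro w x y h0 h
    have h' : ∀ v ∈ t.nd, Ag R x y (des tm d0 (w ++ b :: v)) := fun v hv =>
      h _ (mem_insert_of_mem (mem_image_of_mem _ hv))
    rw [Ev, Ev, sub t ih w b x y h', hQ _ x y fun i hi => by simpa using h0 i hi,
      ih (w ++ [b]) x y h0 fun v hv => by
        rw [List.append_assoc]
        exact h' v hv]
  | bi s t ihs iht =>
    intro w x y _ h
    rw [Ev, Ev, sub s ihs w false x y fun v hv =>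
        h _ (mem_insert_of_mem (mem_union_left _ (mem_image_of_mem _ hv))),
      sub t iht w true x y fun v hv =>
        h _ (mem_insert_of_mem (mem_union_right _ (mem_image_of_mem _ hv)))]

end BEVD

theorem st_EVD : St_EVD := by
  intro α n R P Q hP hQ Y x y h
  have h' : ∀ v ∈ Y.nd, BEVD.Ag R x y (des tm d0 v) := fun v hv t ht =>
    h _ (mem_biUnion.2 ⟨v, hv, mem_image_of_mem _ ht⟩)
  exact BEVD.key hP hQ Y [] x y (h' [] Y.nil_mem) h'

end Pool.Agent.Lib.PT5
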