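import Pool.Agent.Lib.PT5.BKit

/-! Probability of the event of a shape. -/

namespace Pool.Agent.Lib.PT5

open Finset RC5 Function

namespace BEVP

variable {α : Type} {n : ℕ} {P : (TD → α) → Prop} {Q : List Bool → (TD → α) → Prop}

theorem deps_at {E : (TD → α) → Prop} (h : DepS E (Beh tm d0)) (e : TD) :
    DepS (at_ tm E e) (Beh tm e) := fun x y a =>
  h _ _ fun i hi => a _ (by simpa only [cov_d0] using beh_cov tm_invo e hi)

theorem deps_des {E : (TD → α) → Prop} (h : DepS E (Beh tm d0)) (w : List Bool) :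
    DepS (at_ tm E (des tm d0 w)) (Beh tm d0) := fun x y a =>
  deps_at h _ x y fun i hi => a i (beh_des hi)

theorem loc_ev (hP : Loc P) (hQ : ∀ W, Loc (Q W)) : ∀ (Y : Tr) (w : List Bool), Loc (Ev n P Q Y w)
  | .lf, _ => hP.at_ tm _
  | .un b t, w => by
    by_cases e : w.length + 1 = n
    · have h := (hQ (w ++ [b])).map₂ ((loc_ev hP hQ t []).at_ tm (des tm d0 (w ++ [b]))) And
      exact h.imp fun _ k x y a => by simpa only [Ev, if_pos e] using k x y a
    · exact (loc_ev hP hQ t (w ++ [b])).imp fun _ k x y a => by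
        simpa only [Ev, if_neg e] using k x y a
  | .bi s t, w => ((loc_ev hP hQ s []).at_ tm (des tm d0 (w ++ [false]))).map₂
      ((loc_ev hP hQ t []).at_ tm (des tm d0 (w ++ [true]))) And

theorem deps_ev (hP : DepS P (Beh tm d0)) (hQ : ∀ W : List Bool, W.length = n →
    DepS (Q W) fun i => Beh tm d0 i ∧ ¬ Beh tm (des tm d0 W) i) :
    ∀ (Y : Tr) (w : List Bool), DepS (Ev n P Q Y w) (Beh tm d0)
  | .lf, w => deps_des hP w
  | .un b t, w => fun x y a => by
    by_cases e : w.length + 1 = n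
    · rw [Ev, Ev, if_pos e, if_pos e, deps_des (deps_ev hP hQ t []) _ x y a,
        hQ (w ++ [b]) (by simpa using e) x y fun i hi => a i hi.1]
    · rw [Ev, Ev, if_neg e, if_neg e, deps_ev hP hQ t _ x y a]
  | .bi s t, w => fun x y a => by
    rw [Ev, Ev, deps_des (deps_ev hP hQ s []) _ x y a, deps_des (deps_ev hP hQ t []) _ x y a]

end BEVP

open BEVP in
theorem st_EVP (hG : St_GEO) : St_EVP := by
  intro A n P Q p q lP lQ dP dQ hp hq Y
  induction Y with
  | lf =>
    intro w
    exact (pr_at_tm lP _).trans_le hp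
  | un b t ih =>
    intro w
    by_cases e : w.length + 1 = n
    · have h1 : Ev n P Q (.un b t) w = fun x =>
          Q (w ++ [b]) x ∧ at_ tm (Ev n P Q t []) (des tm d0 (w ++ [b])) x :=
        funext fun x => by rw [Ev, if_pos e]
      rw [h1, pw2, if_pos e, pr_indepS (lQ _) ((loc_ev lP lQ t []).at_ tm _)
        (dQ (w ++ [b]) (by simpa using e)) (deps_at (deps_ev dP dQ t []) _) (fun i hi => hi.2),
        pr_at_tm (loc_ev lP lQ t [])]
      exact mul_le_mul (hq _) (ih []) (pr_nonneg _) ((pr_nonneg _).trans (hq _))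
    · have h1 : Ev n P Q (.un b t) w = Ev n P Q t (w ++ [b]) :=
        funext fun x => by rw [Ev, if_neg e]
      rw [h1, pw2, if_neg e]
      exact ih _
  | bi s t ihs iht =>
    intro w
    have h1 : Ev n P Q (.bi s t) w = fun x =>
        at_ tm (Ev n P Q s []) (des tm d0 (w ++ [false])) x ∧
          at_ tm (Ev n P Q t []) (des tm d0 (w ++ [true])) x := rfl
    rw [h1, pw2, pr_indepS ((loc_ev lP lQ s []).at_ tm _) ((loc_ev lP lQ t []).at_ tm _)
      (deps_at (deps_ev dP dQ s []) _) (deps_at (deps_ev dP dQ t []) _) (fun i h2 h3 => by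
        rw [des_append] at h2 h3
        exact hG.1 (des tm d0 w) i ⟨h2, h3⟩),
      pr_at_tm (loc_ev lP lQ s []), pr_at_tm (loc_ev lP lQ t [])]
    exact mul_le_mul (ihs []) (iht []) (pr_nonneg _) ((pr_nonneg _).trans (ihs []))

end Pool.Agent.Lib.PT5
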