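import Pool.Agent.Lib.PT5.BKit

/-! The repair argument, last step. -/

namespace Pool.Agent.Lib.PT5

open Finset RC5 Function

namespace BFIN

theorem mm_cap {V : Type} {D : ℕ} {m : V × Fin 3 → V × Fin 3} {en : V × Fin 3 → Bool × ℕ}
    {κ : V × Fin 3 → Bool} (h : ∀ d, κ d = true → (en d).1 = true) :
    ∀ t d, mm D m en t d ≤ mm D m (fun d => (κ d, D + 1)) t d
  | 0, _ => le_rfl
  | t + 1, d => by
    refine le_trans ?_ (fs_mono (e := ((en d).1, D + 1)) (h d) le_rfl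
      (mm_cap h t (ch m d false)) (mm_cap h t (ch m d true)))
    rw [mm, fs, fs]
    split_ifs <;> omega

end BFIN

open BFIN in
theorem st_FIN (h1 : St_BINJ) (h2 : St_GR) (h3 : St_REP2) (h4 : St_NAT) (h5 : St_K0)
    (h6 : St_CALM) (h7 : St_BOOT) : St_FIN := by
  obtain ⟨c, hc, h6⟩ := h6
  obtain ⟨L, P, hP⟩ := h5 c hc
  have hl : Loc fun x => tv (kv L tm (cfg P tm x) (tm d0).1) :=
    (Loc.pi fun i => h4.1 P L (tm ((tm d0).1, i))).map fun p => tv (∃ i, p i)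
  obtain ⟨r, hr⟩ := hl.ball
  obtain ⟨v, o, s, k, hC⟩ := h6 (2 * L + 4) (by omega) P.A _ r hr (by simpa only [tv_iff] using hP)
  obtain ⟨R, hR⟩ := h7 _ _ _ _ _ _ hC
  obtain ⟨g, hg⟩ := h1 R
  refine ⟨g, fun V _ G _ hG hgi => ?_⟩
  obtain ⟨n, m, hm, hcy, hcol⟩ := h2 g V G hG hgi
  refine hcol (h3 n L m hm fun u => ?_)
  obtain ⟨x, hx⟩ := hR n m hm (hg n m hm hcy) (univ.image fun i => m (u, i))
    (card_image_le.trans (by simp))
  refine ⟨cfg P m fun i => (x i).1, fun i t => le_antisymm (mm_le_cap _ _) ?_⟩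
  refine (hx _ (mem_image_of_mem _ (mem_univ i)) t).ge.trans (mm_cap (fun d hd => ?_) t _)
  obtain ⟨j, hj⟩ := tv_iff.1 hd
  obtain ⟨a, ha⟩ := exists_rho (d := m d) (e := ((m d).1, j)) rfl
  rw [env_envS (invo_of_isM hm), Bool.or_eq_true]
  refine Or.inl (tv_iff.2 ⟨a, (h4.2.1 P L _ m d (fun i => (x i).1) _ hm).2 ?_⟩)
  rwa [cov_tm (invo_of_isM hm), show ((tm d0).1, a) = rho a (tm d0) by simp [rho, tm_d0],
    cov_rho, cov_tm (invo_of_isM hm), cov_d0, ← ha]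

end Pool.Agent.Lib.PT5
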