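import Pool.Agent.Lib.PT5.BKit

/-! Geometry of the tree. -/

namespace Pool.Agent.Lib.PT5

open Finset RC5 Function

namespace BGEO

/-- signed depth -/
def ht (t : TD) : ℤ := if t.1.1 = true then t.1.2.length + 1 else -t.1.2.length

theorem ht_tm (t : TD) : ht (tm t) ≤ ht t + 1 ∧ ht t ≤ ht (tm t) + 1 := by
  obtain ⟨⟨b, l⟩, i⟩ := t
  by_cases h : i = 0
  · cases l <;> cases b <;> simp [ht, tm, h]
    all_goals omega
  · cases b <;> simp [ht, tm, h]
    all_goals omega

theorem ht_cv (e : TD) (b : Bool) : ∀ l : List Bool,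
    ht (cv tm e b l) ≤ ht (cv tm e b []) + l.length ∧ ht (cv tm e b []) ≤ ht (cv tm e b l) + l.length
  | [] => by simp
  | c :: l => by
    have h1 := ht_cv e b l
    have h2 := ht_tm (rho (po c) (cv tm e b l))
    rw [show ht (rho (po c) (cv tm e b l)) = ht (cv tm e b l) from rfl] at h2
    rw [show cv tm e b (c :: l) = tm (rho (po c) (cv tm e b l)) from rfl, List.length_cons]
    omega

theorem po_ne (b : Bool) : po b ≠ 0 := by cases b <;> decide

theorem away : ∀ (w : List Bool) (d : TD), d.2 ≠ 0 →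
    (des tm d w).2 ≠ 0 ∧ (des tm d w).1.1 = d.1.1 ∧ (des tm d w).1.2.length = d.1.2.length + w.length
  | [], _, h => ⟨h, rfl, rfl⟩
  | b :: l, d, h => by
    have e : ch tm d b = ((d.1.1, decide (d.2 = 2) :: d.1.2), po b) := by simp [ch, tm, h, rho]
    have := away l (ch tm d b) (by rw [e]; exact po_ne b)
    rw [des]
    refine ⟨this.1, this.2.1.trans (by rw [e]), this.2.2.trans ?_⟩
    rw [e]
    simp only [List.length_cons]
    omega

theorem tm_des (w : List Bool) : tm (des tm d0 w) = ((true, w.reverse), 0) := by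
  induction w using List.reverseRecOn with
  | nil => rfl
  | append_singleton l b ih =>
    rw [des_append, des, des, ch, ih]
    cases b <;> simp [rho, tm, po]

theorem up : ∀ (w : List Bool) (g : TD), des tm g w = d0 →
    g.1.1 = false ∧ g.2 = 0 ∧ g.1.2.length = w.length
  | [], g, h => by rw [show g = d0 from h]; exact ⟨rfl, rfl, rfl⟩
  | b :: l, g, h => by
    obtain ⟨h1, h2, h3⟩ := up l (ch tm g b) h
    have e : (tm g).2 ≠ 0 := fun k => po_ne b (by simpa [ch, rho, k] using h2)
    have k : g = (((tm g).1.1, decide ((tm g).2 = 2) :: (tm g).1.2), 0) := by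
      conv_lhs => rw [← tm_invo g, tm, if_neg e]
    rw [k]
    exact ⟨h1, rfl, congrArg (· + 1) h3⟩

/-- signed depth seen from a dart -/
noncomputable def H (e i : TD) : ℤ := ht (cov tm (tinv e) i)

theorem beh_iff (e i : TD) : Beh tm e i ↔ 1 ≤ H e i := by
  have k : ∀ j, Beh tm d0 j ↔ 1 ≤ ht j := fun j => by
    refine ⟨fun ⟨w, hw⟩ => ?_, fun h => ⟨j.1.2.reverse, ?_⟩⟩
    · rw [tm_des] at hw
      simp [ht, ← hw]
    · rw [tm_des, List.reverse_reverse]
      refine Prod.ext ?_ rfl
      by_contra a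
      rw [ht, if_neg fun b => a b.symm] at h
      omega
  rw [H, ← k]
  refine ⟨fun h => tinv_cov e ▸ beh_cov tm_invo _ h, fun h => ?_⟩
  have := beh_cov tm_invo e h
  rwa [cov_d0, cov_cov_tinv] at this

theorem nb_of {r : ℕ} {e i : TD} (h1 : -(r : ℤ) ≤ H e i) (h2 : H e i ≤ r + 1) : i ∈ Nb tm r e := by
  refine mem_image.2 ⟨_, mem_Ball.2 ?_, cov_cov_tinv e i⟩
  rw [H, ht] at h1 h2
  split_ifs at h1 h2 <;> omega

theorem nb_bd {r : ℕ} {d i : TD} (e : TD) (h : i ∈ Nb tm r d) :
    (H e i ≤ H e d + r ∧ H e d ≤ H e i + r) ∨ (H e i ≤ H e (tm d) + r ∧ H e (tm d) ≤ H e i + r) := by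
  obtain ⟨j, hj, rfl⟩ := mem_image.1 h
  have := ht_cv (cov tm (tinv e) d) j.1.1 j.1.2
  have := mem_Ball.1 hj
  rw [H, H, H, cov_cov tm_invo, cov_tm tm_invo,
    show ht (cov tm (cov tm (tinv e) d) j) = ht (cv tm (cov tm (tinv e) d) j.1.1 j.1.2) from rfl]
  cases hb : j.1.1 <;> simp only [hb, cv, if_true, Bool.false_eq_true, if_false] at * <;> omega

theorem h_tm (e d : TD) : H e (tm d) ≤ H e d + 1 ∧ H e d ≤ H e (tm d) + 1 := by
  rw [H, H, cov_tm tm_invo]
  exact ht_tm _

theorem h_des (e : TD) (w : List Bool) : H e (tm (des tm e w)) = w.length + 1 := by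
  rw [H, cov_tm tm_invo, cov_des tm_invo, tinv_cov, tm_des]
  simp [ht]

theorem h_des0 (e : TD) (w : List Bool) : H e (des tm e w) = w.length := by
  rcases w.eq_nil_or_concat' with rfl | ⟨u, b, rfl⟩
  · rw [H, des, tinv_cov]
    rfl
  · rw [des_append, des, des, ch, H, cov_rho, List.length_append]
    exact h_des e u

theorem h_up (g : TD) (w : List Bool) : H (des tm g w) g = -w.length := by
  have := up w (cov tm (tinv (des tm g w)) g) (by rw [← cov_des tm_invo, tinv_cov])
  rw [H, ht, this.1, this.2.2]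
  simp

theorem h_side (g : TD) (b : Bool) (v w : List Bool) :
    H (des tm g (b :: w)) (des tm g ((!b) :: v)) ≤ 0 ∧
      H (des tm g (b :: w)) (tm (des tm g ((!b) :: v))) ≤ 0 := by
  rw [H, H, cov_tm tm_invo, cov_des tm_invo]
  have h := (cov_des tm_invo _ (b :: w) g).symm.trans (tinv_cov (des tm g (b :: w)))
  generalize cov tm (tinv (des tm g (b :: w))) g = a at h ⊢
  obtain ⟨h1, h2, -⟩ := up w (ch tm a b) h
  have h3 : (ch tm a (!b)).2 ≠ 0 :=
    (by decide : ∀ (b : Bool) (j : Fin 3), j + po b = 0 → j + po (!b) ≠ 0) b _ h2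
  obtain ⟨h4, h5, -⟩ := away v _ h3
  have h6 : (des tm (ch tm a (!b)) v).1.1 = false := h5.trans h1
  rw [des]
  simp [ht, tm, h4, h6]

end BGEO

open BGEO in
theorem st_GEO : St_GEO := by
  refine ⟨fun e i ⟨h1, w, hw⟩ => ?_, fun r e i w h hi => ?_, fun r e i w hi => ?_,
    fun r g i w hi h => ?_, fun r g i b v w hi h => ?_, fun r e i w h hi k => ?_,
    fun g b w h => ?_, fun e v w h => ?_, fun r w i hi => ?_⟩
  · have := (h_side e false w []).2
    obtain ⟨j, rfl⟩ := exists_rho hw.symm
    rw [beh_iff, H, cov_rho] at h1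
    exact absurd (h1.trans this) (by omega)
  · have := nb_bd e hi
    have := h_des e w
    have := h_tm e (des tm e w)
    rw [beh_iff]
    omega
  · have := nb_bd e hi
    have := h_des e w
    have := h_tm e (des tm e w)
    by_cases k : 1 ≤ H e i
    · exact Or.inl ((beh_iff _ _).2 k)
    · exact Or.inr (nb_of (by omega) (by omega))
  · have := nb_bd (des tm g w) hi
    have := h_up g w
    have := h_tm (des tm g w) g
    rw [beh_iff] at h
    exact nb_of (by omega) (by omega)
  · have := nb_bd (des tm g (b :: w)) hi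
    have := h_side g b v w
    rw [beh_iff] at h
    exact nb_of (by omega) (by omega)
  · have := nb_bd (des tm e w) hi
    have := h_up e w
    have := h_tm (des tm e w) e
    rw [beh_iff] at k
    omega
  · have := h_up g (b :: w)
    have := h_tm (des tm g (b :: w)) g
    rw [beh_iff] at h
    simp only [List.length_cons] at *
    omega
  · have := congrArg (fun t => tm (cov tm (tinv e) t)) h
    simp only [cov_des tm_invo, tinv_cov, tm_des] at this
    simpa using this
  · have := nb_bd d0 hi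
    have := h_des d0 w
    have := h_des0 d0 w
    rw [← nb_d0]
    exact nb_of (by push_cast; omega) (by push_cast; omega)

end Pool.Agent.Lib.PT5
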