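import Pool.Agent.Lib.PT5.BKit

/-! Block GF: the generating function of the weights of the shapes. -/

namespace Pool.Agent.Lib.PT5

open Finset

namespace BGF

variable {n : ℕ} {p x : ℝ} {q : List Bool → ℝ}

theorem pw_nonneg (hp : 0 ≤ p) (hq : ∀ W, 0 ≤ q W) : ∀ Y w, 0 ≤ pw2 n p q Y w
  | .lf, _ => hp
  | .un b t, w => by
    rw [pw2]
    split_ifs
    · exact mul_nonneg (hq _) (pw_nonneg hp hq t _)
    · exact pw_nonneg hp hq t _
  | .bi s t, _ => mul_nonneg (pw_nonneg hp hq s _) (pw_nonneg hp hq t _)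

theorem sum_upto (h : ℕ) (f : Tr → ℝ) : ∑ Y ∈ upto (h + 1), f Y =
    f .lf + (∑ b, ∑ t ∈ upto h, f (.un b t) + ∑ s ∈ upto h, ∑ t ∈ upto h, f (.bi s t)) := by
  rw [upto, sum_insert (by simp), sum_union, sum_image, sum_image, sum_product, sum_product]
  · rintro ⟨a, b⟩ - ⟨c, d⟩ - e
    simpa using e
  · rintro ⟨a, b⟩ - ⟨c, d⟩ - e
    simpa using e
  · rw [disjoint_left]
    intro Y h1 h2
    obtain ⟨a, -, rfl⟩ := mem_image.1 h1
    obtain ⟨b, -, e⟩ := mem_image.1 h2
    cases e

theorem step (h : ℕ) (w : List Bool) : ∑ Y ∈ upto (h + 1), pw2 n p q Y w * x ^ Y.sz =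
    x * p + (x * ∑ b, ∑ t ∈ upto h, pw2 n p q (.un b t) w * x ^ t.sz +
      x * (∑ Y ∈ upto h, pw2 n p q Y [] * x ^ Y.sz) ^ 2) := by
  rw [sum_upto, sq, sum_mul_sum]
  simp only [mul_sum, Tr.sz]
  congr 1
  · rw [pw2]; ring
  congr 1
  · exact sum_congr rfl fun _ _ => sum_congr rfl fun _ _ => by ring
  · exact sum_congr rfl fun _ _ => sum_congr rfl fun _ _ => by rw [pw2]; ring

end BGF

open BGF in
theorem st_GF : St_GF := by
  intro n p x q hn hp hp' hq hs hx hxn h
  set G : ℝ := 4 * 2 ^ n * p with hG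
  have h2 : (1 : ℝ) ≤ 2 ^ n := one_le_pow₀ one_le_two
  have G0 : 0 ≤ G := by positivity
  have G1 : 2 ^ n * G ≤ 1 / 100 := by
    rw [le_div_iff₀ (by positivity), show (4 : ℝ) ^ n = 2 ^ n * 2 ^ n by
      rw [← mul_pow]; norm_num] at hp'
    rw [hG]
    linarith
  have G2 : G ≤ 1 / 100 := (le_mul_of_one_le_left G0 h2).trans G1
  have x0 : 0 ≤ x := by linarith
  have top : (2 ^ n - 1) * x ^ n * (p + G ^ 2) + x ^ n * (∑ v ∈ words n, q ([] ++ v)) * G ≤ G := by
    have a1 : (2 ^ n - 1) * x ^ n * (p + G ^ 2) ≤ 2 ^ n * 2 * (p + G ^ 2) := by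
      gcongr; linarith
    have a2 : x ^ n * (∑ v ∈ words n, q ([] ++ v)) * G ≤ 2 * (1 / 8) * G := by
      gcongr
      · exact sum_nonneg fun _ _ => hq _
      · exact hs
    have a3 := mul_le_mul_of_nonneg_right G1 G0
    nlinarith
  have key : ∀ h j (w : List Bool), 1 ≤ j → w.length + j = n →
      ∑ Y ∈ upto h, pw2 n p q Y w * x ^ Y.sz ≤
        (2 ^ j - 1) * x ^ j * (p + G ^ 2) + x ^ j * (∑ v ∈ words j, q (w ++ v)) * G := by
    intro h
    induction h with
    | zero =>
      intro j w _ _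
      have : (0 : ℝ) ≤ 2 ^ j - 1 := sub_nonneg.2 (one_le_pow₀ one_le_two)
      have := sum_nonneg fun v (_ : v ∈ words j) => hq (w ++ v)
      rw [upto, sum_empty]
      positivity
    | succ h ih =>
      intro j w hj hw
      have b1 := (ih n [] hn (by simp)).trans top
      have b0 : 0 ≤ ∑ Y ∈ upto h, pw2 n p q Y [] * x ^ Y.sz :=
        sum_nonneg fun Y _ => mul_nonneg (pw_nonneg hp hq Y _) (by positivity)
      have b2 := mul_le_mul_of_nonneg_left (pow_le_pow_left₀ b0 b1 2) x0
      obtain ⟨j, rfl⟩ := Nat.exists_eq_add_of_le' hj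
      rw [step, sum_words, Fintype.sum_bool]
      rcases Nat.eq_zero_or_pos j with rfl | hj0
      · simp only [pw2, if_pos hw, mul_assoc, ← mul_sum, words, sum_singleton]
        have c := fun b => mul_le_mul_of_nonneg_left
          (mul_le_mul_of_nonneg_left b1 (hq (w ++ [b]))) x0
        have c1 := c true
        have c2 := c false
        norm_num
        linarith
      · have e : ¬ w.length + 1 = n := by omega
        simp only [pw2, if_neg e]
        have c := fun b => mul_le_mul_of_nonneg_left (ih j (w ++ [b]) hj0 (by simp; omega)) x0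
        have c1 := c true
        have c2 := c false
        simp only [List.append_assoc, List.singleton_append] at c1 c2
        have c3 : x * (p + G ^ 2) ≤ x ^ (j + 1) * (p + G ^ 2) :=
          mul_le_mul_of_nonneg_right (le_self_pow₀ hx (by omega)) (by positivity)
        rw [pow_succ x, pow_succ 2] at *
        linarith
  exact ((key h n [] hn (by simp)).trans top).trans G2

end Pool.Agent.Lib.PT5
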