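import Pool.Agent.Lib.PT5.BKit

/-! Bad vertices are rare. -/

namespace Pool.Agent.Lib.PT5

open Finset RC5 Function

namespace BK0

theorem num {c : ℝ} (h0 : 0 < c) (h1 : c ≤ 1) (k : ℕ) :
    1 / (6 / c ^ 6) ^ (k + 1) ≤ c ^ (2 * (k + 1) + 4) / 6 := by
  rw [one_div, ← inv_pow, inv_div, div_pow, ← pow_mul]
  refine div_le_div₀ (by positivity) (pow_le_pow_of_le_one h0.le h1 (by omega)) (by norm_num) ?_
  exact le_self_pow₀ (by norm_num) (by omega)

theorem root (hM : St_MU) (hN : St_NAT) (P : Proc) (k : ℕ) {u ε : ℝ} (hu : ∀ d, nf (k + 1) d ≤ u)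
    (hε : ∑ p, |nuE P k p - muE 1 k p| ≤ ε) :
    pr P.A (fun x => bad (k + 1) tm (cfg P tm x) d0) ≤ u + ε := by
  have e : pr P.A (fun x => bad (k + 1) tm (cfg P tm x) d0)
      = ∑ p, nuE P k p * ind (BadP k p) := by
    refine Eq.trans ?_ (nu_law P (loc_patE tm k d0) fun p => ind (BadP k p))
    exact congrArg (mn P.A) (funext fun x => ind_congr (hN.2.2 _ tm _ k d0 tm_isM))
  rw [e]
  refine le_trans ?_ (add_le_add (hM k u hu) hε)
  rw [← sum_add_distrib]
  refine sum_le_sum fun p _ => ?_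
  have a := ind_nonneg (BadP k p)
  have b := ind_le (BadP k p)
  have c := le_abs_self (nuE P k p - muE 1 k p)
  have d := abs_nonneg (nuE P k p - muE 1 k p)
  nlinarith

end BK0

theorem st_K0 (hB : St_BA) (hF : RC5.St_FN2) (hM : St_MU) (hN : St_NAT) : St_K0 := by
  intro c hc
  have h0 : 0 < min c 1 := lt_min hc one_pos
  obtain ⟨L, hL, hnf⟩ := hF (6 / min c 1 ^ 6) (by positivity)
  obtain ⟨k, rfl⟩ := Nat.exists_eq_add_of_le' hL
  obtain ⟨P, hP⟩ := hB k (min c 1 ^ (2 * (k + 1) + 4) / 6) (by positivity)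
  refine ⟨k + 1, P, ?_⟩
  have r := BK0.root hM hN P k (fun d => (hnf d).trans (BK0.num h0 (min_le_right _ _) k)) hP
  have s : ∀ e : TD, pr P.A (fun x => bad (k + 1) tm (cfg P tm x) e)
      = pr P.A fun x => bad (k + 1) tm (cfg P tm x) d0 := fun e => by
    rw [← pr_at_tm (hN.1 P (k + 1) d0) e]
    refine congrArg (pr P.A) (funext fun x => propext ?_)
    have := hN.2.1 P (k + 1) _ tm e x d0 tm_isM
    rw [cov_d0] at this
    exact this.symm
  have t := pr_ex (A := P.A) (p := fun (i : Fin 3) x => bad (k + 1) tm (cfg P tm x) (tm ((tm d0).1, i)))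
    univ fun i _ => hN.1 P (k + 1) _
  simp only [s, mem_univ, true_and, sum_const, card_univ, Fintype.card_fin, nsmul_eq_mul,
    Nat.cast_ofNat] at t
  have w : min c 1 ^ (2 * (k + 1) + 4) ≤ c ^ (2 * (k + 1) + 4) :=
    pow_le_pow_left₀ h0.le (min_le_left _ _) _
  refine le_trans t ?_
  linarith

end Pool.Agent.Lib.PT5
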