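import Pool.Agent.Lib.PT5.BKit

/-! Levels from a fixed point of the messages. -/

namespace Pool.Agent.Lib.PT5

open Finset RC5

namespace BLEVM

theorem third : ∀ j k : Fin 3, ∃ i, j ≠ i ∧ k ≠ i := by decide

theorem other : ∀ i : Fin 3, ∃ j k, j ≠ i ∧ k ≠ i ∧ j ≠ k ∧ ∀ l, l = i ∨ l = j ∨ l = k := by decide

theorem ports : ∀ i j k : Fin 3, j ≠ i → k ≠ i → j ≠ k →
    (j = i + 1 ∧ k = i + 2) ∨ (k = i + 1 ∧ j = i + 2) := by decide

theorem fs_cases (D : ℕ) (b : Bool) (a c : ℕ) :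
    (fs D (b, D + 1) a c = 1 ∧ (b = true ∨ a + c ≤ D)) ∨
      (fs D (b, D + 1) a c = min (D + 1) (1 + min a c) ∧ ¬b = true ∧ D < a + c) := by
  unfold fs
  split_ifs with h
  · exact Or.inl ⟨by omega, h⟩
  · exact Or.inr ⟨by omega, fun k => h (Or.inl k), by have := mt Or.inr h; omega⟩

end BLEVM

open BLEVM in
theorem st_LEVM : St_LEVM := by
  intro n L D m κ M hm hD hM
  classical
  have p1 : ∀ d, 1 ≤ M d := fun d => hM d ▸ fs_pos (Nat.succ_pos D)
  have key : ∀ v i j k, j ≠ i → k ≠ i → j ≠ k →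
      M (m (v, i)) = fs D (κ v, D + 1) (M (v, j)) (M (v, k)) := fun v i j k a b c => by
    rw [hM, ch, ch, (hm _).1]
    rcases ports i j k a b c with ⟨rfl, rfl⟩ | ⟨rfl, rfl⟩
    exacts [rfl, fs_comm _ _ _ _]
  obtain ⟨R, hR⟩ : ∃ R : Fin n → Prop, ∀ v, R v ↔ ∃ i, M (m (v, i)) = 1 := ⟨_, fun _ => Iff.rfl⟩
  have nR : ∀ v, ¬R v → ∀ i j k, j ≠ i → k ≠ i → j ≠ k → D < M (v, j) + M (v, k) ∧
      M (m (v, i)) = min (D + 1) (1 + min (M (v, j)) (M (v, k))) := fun v hv i j k a b c => by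
    have := fs_cases D (κ v) (M (v, j)) (M (v, k))
    rw [← key v i j k a b c] at this
    exact this.elim (fun h => absurd ((hR v).2 ⟨i, h.1⟩) hv) fun h => ⟨h.2.2, h.1⟩
  have n2 : ∀ v, ¬R v → ∀ j k, j ≠ k → D < M (v, j) + M (v, k) := fun v hv j k c =>
    (third j k).elim fun i hi => (nR v hv i j k hi.1 hi.2 c).1
  have lem : ∀ y i x p, m (y, i) = (x, p) → ¬R y → R x → M (y, i) = 1 := fun y i x p e hy hx => by
    have e' : m (x, p) = (y, i) := e ▸ (hm _).1
    obtain ⟨q, hq⟩ := (hR x).1 hx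
    by_cases c : q = p
    · rwa [c, e'] at hq
    obtain ⟨k, k1, k2⟩ := third p q
    obtain ⟨j, l, j1, j2, j3, -⟩ := other i
    have a1 := fs_cases D (κ x) (M (x, p)) (M (x, k))
    have a2 := fs_cases D (κ x) (M (x, q)) (M (x, k))
    have a3 := (nR y hy i j l j1 j2 j3).2
    rw [← key x q p k (Ne.symm c) k2.symm k1, hq] at a1
    rw [← key x p q k c k1.symm k2, e'] at a2
    rw [e] at a3
    have := n2 y hy j i j1
    have := n2 y hy l i j2
    have := p1 (x, k)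
    have := p1 (x, p)
    rcases a2 with a2 | ⟨a2, b, -⟩
    · exact a2.1
    rcases a1 with ⟨-, a1 | a1⟩ | ⟨a1, -⟩
    exacts [absurd a1 b, by omega, by omega]
  choose par hp using fun v : Fin n => Finite.exists_min fun i : Fin 3 => M (v, i)
  have hs : ∀ v, v ∈ sel univ (fun v => ∃ i, M (m (v, i)) = 1) ↔ R v := fun v => by
    rw [hR, mem_sel]
    exact and_iff_right (mem_univ v)
  refine ⟨fun v => if R v then 0 else M (v, par v), par, fun v => ?_, fun v h1 h2 => ?_, ?_⟩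
  · have := p1 (v, par v)
    rw [hs]
    split_ifs with h
    exacts [iff_of_true rfl h, iff_of_false (by omega) h]
  · have hv : ¬R v := fun h => by simp [h] at h1
    obtain ⟨⟨p, c⟩, e⟩ : ∃ d, m (v, par v) = d := ⟨_, rfl⟩
    simp only [hv, if_false, e] at h2 ⊢
    split_ifs with h
    · rw [lem _ _ _ _ e hv h]
    obtain ⟨j, k, j1, j2, j3, j4⟩ := other c
    obtain ⟨j', k', l1, l2, l3, -⟩ := other (par v)
    have a1 := (nR p h c j k j1 j2 j3).2
    have a2 := (nR v hv _ j' k' l1 l2 l3).2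
    rw [← e, (hm _).1] at a1
    rw [e] at a2
    have := n2 v hv j' _ l1
    have := n2 v hv k' _ l2
    have b1 := hp p j
    have b2 := hp p k
    rcases j4 (par p) with b | b | b <;> rw [b] at b1 b2 ⊢ <;> omega
  rintro ⟨x, i⟩ h1 h2 h3
  obtain ⟨⟨y, c⟩, e⟩ : ∃ d, m (x, i) = d := ⟨_, rfl⟩
  have e' : m (y, c) = (x, i) := e ▸ (hm _).1
  simp only [hs, e] at h1 h2 h3 ⊢
  have fin : ¬R y → M (y, c) ≤ L + 1 → par y = c := fun hy b => by
    by_contra k
    have := n2 y hy _ _ k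
    have := hp y c
    omega
  by_cases hx : R x
  · have a := lem _ _ _ _ e' (h2 hx) hx
    have b := fin (h2 hx) (by omega)
    rw [if_neg (h2 hx), if_pos hx, b, a]
    exact ⟨rfl, rfl⟩
  rw [if_neg hx] at h1 ⊢
  have a := n2 x hx _ _ (h3 hx)
  have hy : ¬R y := fun h => by
    have := lem _ _ _ _ e hx h
    omega
  obtain ⟨k, k1, k2⟩ := third i (par x)
  have a1 := (nR x hx i _ k (h3 hx).symm k1.symm k2).2
  have := hp x k
  rw [e] at a1
  have b := fin hy (by omega)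
  rw [if_neg hy, b]
  exact ⟨by omega, rfl⟩

end Pool.Agent.Lib.PT5
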