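import Pool.Agent.Lib.PT5.BKit

/-! The local lemma with weights. -/

namespace Pool.Agent.Lib.PT5

open Finset RC5

namespace BLLL

variable {ι J : Type} [Fintype ι] [DecidableEq ι] {A : LS} {I : Finset J}
  {E : J → (ι → A.L) → Prop} {sup : J → Finset ι} {p : J → ℝ}

theorem key (hd : ∀ j ∈ I, Dep (E j) (sup j)) (hp : ∀ j ∈ I, pr A (E j) ≤ p j)
    (hs : ∀ j ∈ I, ∑ k ∈ sel I fun k => ¬ Disjoint (sup j) (sup k), p k ≤ 1 / 4) (n : ℕ) :
    ∀ T ⊆ I, T.card = n → ∀ j ∈ I, pr A (fun x => E j x ∧ ∀ k ∈ T, ¬ E k x) ≤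
      2 * p j * pr A fun x => ∀ k ∈ T, ¬ E k x := by
  classical
  have p0 : ∀ j ∈ I, 0 ≤ p j := fun j hj => (pr_nonneg _).trans (hp j hj)
  induction n using Nat.strong_induction_on with
  | _ n ih =>
  intro T hT hn j hj
  obtain ⟨T₁, m1⟩ : ∃ S : Finset J, ∀ k, k ∈ S ↔ k ∈ T ∧ ¬ Disjoint (sup j) (sup k) :=
    ⟨T.filter _, fun _ => mem_filter⟩
  obtain ⟨T₂, m2⟩ : ∃ S : Finset J, ∀ k, k ∈ S ↔ k ∈ T ∧ Disjoint (sup j) (sup k) :=
    ⟨T.filter _, fun _ => mem_filter⟩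
  have s2 : T₂ ⊆ T := fun k hk => ((m2 k).1 hk).1
  have hZ : 0 ≤ pr A fun x => ∀ k ∈ T₂, ¬ E k x := pr_nonneg _
  have h1 : pr A (fun x => E j x ∧ ∀ k ∈ T, ¬ E k x) ≤
      pr A (fun x => E j x ∧ ∀ k ∈ T₂, ¬ E k x) :=
    pr_mono (.of_fintype _) (.of_fintype _) fun x h => ⟨h.1, fun k hk => h.2 k (s2 hk)⟩
  have h2 : pr A (fun x => E j x ∧ ∀ k ∈ T₂, ¬ E k x) =
      pr A (E j) * pr A fun x => ∀ k ∈ T₂, ¬ E k x :=
    pr_indep (B' := T₂.biUnion sup) (hd j hj) (fun x y a => propext (forall₂_congr fun k hk => by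
      rw [(hd k (hT (s2 hk))).mono (subset_biUnion_of_mem sup hk) x y a]))
      ((disjoint_biUnion_right _ _ _).2 fun k hk => ((m2 k).1 hk).2)
  have h3 : (pr A fun x => ∀ k ∈ T₂, ¬ E k x) ≤ 2 * pr A fun x => ∀ k ∈ T, ¬ E k x := by
    have h4 : (pr A fun x => ∀ k ∈ T₂, ¬ E k x) ≤ (pr A fun x => ∀ k ∈ T, ¬ E k x) +
        ∑ k ∈ T₁, pr A fun x => E k x ∧ ∀ k ∈ T₂, ¬ E k x := by
      refine le_trans ?_ (add_le_add le_rfl (pr_ex T₁ fun _ _ => .of_fintype _))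
      refine le_trans (pr_mono (.of_fintype _) (.of_fintype _) fun x h => ?_)
        (pr_or (.of_fintype _) (.of_fintype _))
      by_cases h' : ∀ k ∈ T, ¬ E k x
      · exact Or.inl h'
      · push Not at h'
        obtain ⟨k, hk, he⟩ := h'
        exact Or.inr ⟨k, (m1 k).2 ⟨hk, fun hc => h k ((m2 k).2 ⟨hk, hc⟩) he⟩, he, h⟩
    have h5 : ∑ k ∈ T₁, (pr A fun x => E k x ∧ ∀ k ∈ T₂, ¬ E k x) ≤
        ∑ k ∈ T₁, 2 * p k * pr A fun x => ∀ k ∈ T₂, ¬ E k x :=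
      sum_le_sum fun k hk => ih _ (hn ▸ card_lt_card ⟨s2, fun h =>
        ((m1 k).1 hk).2 ((m2 k).1 (h ((m1 k).1 hk).1)).2⟩) T₂ (s2.trans hT) rfl k
        (hT ((m1 k).1 hk).1)
    have h6 : ∑ k ∈ T₁, p k ≤ 1 / 4 :=
      le_trans (sum_le_sum_of_subset_of_nonneg
        (fun k hk => mem_sel.2 ⟨hT ((m1 k).1 hk).1, ((m1 k).1 hk).2⟩)
        fun k hk _ => p0 k (mem_sel.1 hk).1) (hs j hj)
    rw [← sum_mul, ← mul_sum] at h5
    nlinarith
  have h7 := mul_le_mul_of_nonneg_right (hp j hj) hZ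
  have h8 := mul_le_mul_of_nonneg_left h3 (p0 j hj)
  linarith

end BLLL

theorem st_LLL : St_LLL := by
  intro ι J _ _ A I E sup p hd hp h4 hs
  classical
  have pos : ∀ T, T ⊆ I → 0 < pr A fun x => ∀ k ∈ T, ¬ E k x := by
    intro T
    induction T using Finset.induction_on with
    | empty =>
      intro _
      simp [pr, ind_pos, mn_const]
    | insert j T _ ih =>
      intro h
      have hT : T ⊆ I := (subset_insert j T).trans h
      have hj : j ∈ I := h (mem_insert_self j T)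
      have h1 := BLLL.key hd hp hs _ T hT rfl j hj
      have h2 : (pr A fun x => ∀ k ∈ T, ¬ E k x) ≤ (pr A fun x => ∀ k ∈ insert j T, ¬ E k x) +
          pr A fun x => E j x ∧ ∀ k ∈ T, ¬ E k x := by
        refine le_trans (pr_mono (.of_fintype _) (.of_fintype _) fun x hx => ?_)
          (pr_or (.of_fintype _) (.of_fintype _))
        by_cases he : E j x
        · exact Or.inr ⟨he, hx⟩
        · exact Or.inl ((forall_mem_insert _ _ _).2 ⟨he, hx⟩)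
      have h3 := ih hT
      have h5 := mul_le_mul_of_nonneg_right (h4 j hj) h3.le
      linarith
  exact exists_of_pr (pos I subset_rfl)

end Pool.Agent.Lib.PT5
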