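import Pool.Agent.Lib.PT5.BKit

/-! Bad patterns in the tree measure. -/

namespace Pool.Agent.Lib.PT5

open Finset RC5

namespace BMU

/-- mean for the law of the message -/
noncomputable def Ex (k : ℕ) (d : Bool) (h : Finset (ZMod 5) → ℝ) : ℝ := ∑ S, mu k d S * h S

theorem Ex_succ (k : ℕ) (d : Bool) (h : Finset (ZMod 5) → ℝ) : Ex (k + 1) d h =
    ∑ d1, ∑ d2, pw d d1 d2 * Ex k d1 fun S1 => Ex k d2 fun S2 => h (stp d (S1 ∩ S2)) := by
  simp only [Ex, mu, sum_mul, mul_sum]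
  rw [sum_comm]
  refine sum_congr rfl fun d1 _ => ?_
  rw [sum_comm]
  refine sum_congr rfl fun d2 _ => ?_
  rw [sum_comm]
  refine sum_congr rfl fun S1 _ => ?_
  rw [sum_comm]
  refine sum_congr rfl fun S2 _ => ?_
  simp only [ite_mul, zero_mul, sum_ite_eq', mem_univ, if_true]
  ring

theorem Ex_one : ∀ k d, Ex k d (fun _ => 1) = 1
  | 0, d => by simp [Ex, mu]
  | k + 1, d => by
    simp only [Ex_succ, Ex_one k]
    cases d <;> simp [pw] <;> norm_num

theorem sum3 (f : (Fin 3 → Bool) → ℝ) : ∑ s, f s = ∑ a, ∑ b, ∑ c, f ![a, b, c] := by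
  rw [← (Fin.consEquiv fun _ : Fin 3 => Bool).sum_comp, Fintype.sum_prod_type]
  refine sum_congr rfl fun b _ => ?_
  rw [← (piFinTwoEquiv fun _ => Bool).symm.sum_comp, Fintype.sum_prod_type]
  rfl

theorem star (a : T1) (g : Bool → Bool → ℝ) :
    ∑ x : Star, psi 1 a (ds x 0) * tau x * g (x.2 1) (x.2 2) =
      ∑ d1, ∑ d2, pw a.2 d1 d2 * g d1 d2 := by
  rw [Fintype.sum_prod_type, sum_eq_single (a.1 + sg a.2), sum3]
  · obtain ⟨c, d⟩ := a
    cases d <;> simp [psi, tau, ds, cst, io1, pw] <;> ring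
  · intro c _ hc
    refine sum_eq_zero fun s _ => ?_
    rw [psi, if_neg fun e => hc (congrArg Prod.fst e)]
    ring
  · exact fun h => (h (mem_univ _)).elim

theorem sum_tau : ∑ x : Star, tau x = 1 := by
  rw [Fintype.sum_prod_type]
  simp only [sum3]
  simp [tau, cst]
  norm_num

theorem sum_pt (k : ℕ) (f : Pt (k + 1) → ℝ) :
    ∑ p, f p = ∑ x : Star, ∑ p1 : Pt k, ∑ p2 : Pt k, f (x, p1, p2) :=
  (Fintype.sum_prod_type (α₁ := Star) (α₂ := Pt k × Pt k) f).trans
    (sum_congr rfl fun _ _ => Fintype.sum_prod_type _)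

theorem key : ∀ (k : ℕ) (a : T1) (h : Finset (ZMod 5) → ℝ),
    ∑ p : Pt k, lk 1 a k p * wt 1 k p * h (msP k a.2 p) = Ex k a.2 h
  | 0, a, h => by
    refine (Fintype.sum_unique (ι := Unit) _).trans ?_
    simp [Ex, mu, lk, wt, msP]
  | k + 1, a, h => by
    rw [sum_pt, Ex_succ, ← star]
    refine sum_congr rfl fun x _ => ?_
    rw [← show _ = Ex k (x.2 1) _ from key k (ds x 1) _, mul_sum]
    refine sum_congr rfl fun p1 _ => ?_
    rw [← show _ = Ex k (x.2 2) _ from key k (ds x 2) _, mul_sum, mul_sum]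
    refine sum_congr rfl fun p2 _ => ?_
    simp only [lk, wt, msP, top, ds]
    ring

theorem psi_nn (a b : T1) : 0 ≤ psi 1 a b := by
  unfold psi
  split_ifs <;> norm_num

theorem wt_nn : ∀ (k : ℕ) (p : Pt k), 0 ≤ wt 1 k p ∧ ∀ a, 0 ≤ lk 1 a k p
  | 0, _ => ⟨zero_le_one, fun _ => zero_le_one⟩
  | k + 1, p => ⟨mul_nonneg (mul_nonneg (by unfold tau; split_ifs <;> norm_num)
      (mul_nonneg ((wt_nn k _).2 _) (wt_nn k _).1)) (mul_nonneg ((wt_nn k _).2 _) (wt_nn k _).1),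
      fun _ => psi_nn _ _⟩

theorem sum_wt (k : ℕ) : ∑ p, wt 1 (k + 1) p = 1 := by
  have h := fun a => (key k a fun _ => 1).trans (Ex_one k a.2)
  simp only [mul_one] at h
  rw [sum_pt]
  refine (sum_congr rfl fun x _ => ?_).trans sum_tau
  simp only [wt, ← mul_sum, ← sum_mul, h, mul_one]

end BMU

open BMU in
theorem st_MU : St_MU := by
  intro k u hu
  rw [Fintype.sum_prod_type]
  refine (sum_le_sum fun p _ => le_of_eq_of_le ?_
    (mul_le_mul_of_nonneg_left (hu (top p).2) (wt_nn _ p).1)).trans_eq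
    (by rw [← sum_mul, sum_wt, one_mul])
  have e : nf (k + 1) (top p).2 = Ex (k + 1) (top p).2 fun S => ind (S ≠ univ) := by
    rw [nf, Ex, ← add_sum_erase _ _ (mem_univ (univ : Finset (ZMod 5))), ind_neg fun h => h rfl,
      mul_zero, zero_add]
    exact sum_congr rfl fun S hS => by rw [ind_pos (mem_erase.1 hS).1, mul_one]
  rw [e, ← key, mul_sum]
  refine sum_congr rfl fun q _ => ?_
  by_cases h : top q = io1 (top p)
  · rw [ind_congr (p := BadP k (p, q)) (q := msP (k + 1) (top p).2 q ≠ univ)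
      (or_iff_right (not_not.2 h))]
    simp only [muE, lk]
    ring
  · simp only [muE, lk, psi, if_neg h]
    ring

end Pool.Agent.Lib.PT5
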