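import Pool.Agent.Lib.PT5.BKit

/-! Row NAT: bad darts are local and natural. -/

namespace Pool.Agent.Lib.PT5

open Finset RC5 Function

namespace BNAT

variable {V : Type} {m : V × Fin 3 → V × Fin 3}

theorem ms_pull (hm : Invo m) (d : V × Fin 3) (c : V → Star) : ∀ (L : ℕ) (t : TD),
    ms tm (pull m d c) L t = ms m c L (cov m d t)
  | 0, t => by rw [ms, ms, st_pull]
  | L + 1, t => by
    rw [ms, ms, st_pull, ms_pull hm d c L, ms_pull hm d c L, cov_ch hm, cov_ch hm]

theorem loc_ms (m : V × Fin 3 → V × Fin 3) : ∀ (L : ℕ) (h : V × Fin 3),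
    Loc fun c : V → Star => ms m c L h
  | 0, h => (loc_st h).map fun a => stp a.2 {0}
  | L + 1, h => (loc_st h).map₂ ((loc_ms m L (ch m h false)).map₂ (loc_ms m L (ch m h true))
      fun S T => S ∩ T) fun a S => stp a.2 S

theorem loc_bad (m : V × Fin 3 → V × Fin 3) (L : ℕ) (q : V × Fin 3) :
    Loc fun c : V → Star => bad L m c q :=
  ((loc_st (m q)).map₂ (loc_st q) fun a b => a ≠ io1 b).map₂ (loc_ms m L q)
    fun p S => p ∨ S ≠ univ

theorem ms_pat (m : V × Fin 3 → V × Fin 3) (c : V → Star) : ∀ (k : ℕ) (h : V × Fin 3),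
    ms m c k h = msP k (st c h).2 (pat m c k h)
  | 0, _ => rfl
  | k + 1, h => by
    rw [ms, ms_pat m c k, ms_pat m c k]
    rfl

theorem top_pat (m : V × Fin 3 → V × Fin 3) (c : V → Star) (k : ℕ) (d : V × Fin 3) :
    top (pat m c (k + 1) d) = st c (m d) := (st_eq c (m d)).symm

end BNAT

open BNAT in
theorem st_NAT : St_NAT := by
  refine ⟨fun P L t => (loc_bad tm L t).cfg P tm, fun P L V m d x t h => ?_,
    fun V m c k d h => ?_⟩
  · have hm := invo_of_isM h
    rw [← pull_cfg hm, bad, bad, st_pull, st_pull, ms_pull hm, cov_tm hm]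
  · have hm := invo_of_isM h
    rw [bad, BadP, patE, top_pat, top_pat, hm d, ms_pat]

end Pool.Agent.Lib.PT5
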