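import Pool.Agent.Lib.PT5.BKit

/-! A good density of seeds, depth and time. -/

namespace Pool.Agent.Lib.PT5

open Finset RC5 Function

namespace BPIG

theorem pig (P : ℕ → ℕ → ℝ) (φ e : ℕ → ℝ) {C u θ η : ℝ} {J N a : ℕ} (hP : ∀ t k, 0 ≤ P t k)
    (he0 : ∀ s, 0 ≤ e s) (he : ∀ j, e (a + j) ≤ φ j - φ (2 * a + j)) (h0 : ∀ t, 0 ≤ φ t)
    (h1 : ∀ t, φ t ≤ C) (hu : 0 < u) (hθ : 0 < θ) (hη : 0 < η) (hJ : 4 * C < u * θ * J)
    (hN : a + J ≤ N) (hN' : 4 * a * C < η * N)
    (hR : u * ∑ k ∈ range J, ∑ t ∈ range (N + a + J), P t k ≤ (N + a + J : ℕ) * C) :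
    ∃ k s, k ≤ J ∧ a ≤ s ∧ P (s + k) k ≤ θ ∧ e s ≤ η := by
  by_contra hc
  push Not at hc
  have hC : 0 ≤ C := (h0 0).trans (h1 0)
  have hJ0 : (0 : ℝ) < J := (mul_pos_iff_of_pos_left (mul_pos hu hθ)).1
    (lt_of_le_of_lt (by positivity) hJ)
  have a1 : ∀ j ∈ range N, J * θ * η ≤ η * ∑ k ∈ range J, P (a + k + j) k + J * θ * e (a + j) := by
    intro j _
    have s0 : 0 ≤ ∑ k ∈ range J, P (a + k + j) k := sum_nonneg fun _ _ => hP _ _
    rcases le_or_gt (e (a + j)) η with h | h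
    · have : J * θ ≤ ∑ k ∈ range J, P (a + k + j) k := by
        have := card_nsmul_le_sum (range J) (fun k => P (a + k + j) k) θ fun k hk => by
          rw [add_right_comm]
          exact le_of_not_ge fun h' =>
            (hc k (a + j) (mem_range.1 hk).le (Nat.le_add_right _ _) h').not_ge h
        simpa using this
      nlinarith [mul_nonneg (mul_pos hJ0 hθ).le (he0 (a + j))]
    · nlinarith [mul_pos hJ0 hθ, mul_nonneg hη.le s0]
  have a2 := sum_le_sum a1
  rw [sum_const, card_range, nsmul_eq_mul, sum_add_distrib, ← mul_sum, ← mul_sum, sum_comm] at a2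
  have a3 : ∑ k ∈ range J, ∑ j ∈ range N, P (a + k + j) k ≤
      ∑ k ∈ range J, ∑ t ∈ range (N + a + J), P t k := sum_le_sum fun k hk => by
    have b1 := sum_range_add (fun t => P t k) (a + k) N
    have b2 : ∑ t ∈ range (a + k + N), P t k ≤ ∑ t ∈ range (N + a + J), P t k :=
      sum_le_sum_of_subset_of_nonneg (range_mono (by have := mem_range.1 hk; omega))
        fun _ _ _ => hP _ _
    have b3 : 0 ≤ ∑ t ∈ range (a + k), P t k := sum_nonneg fun _ _ => hP _ _
    linarith
  have a4 : ∑ j ∈ range N, e (a + j) ≤ 2 * a * C := by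
    have b1 := sum_range_add φ N (2 * a)
    have b2 := sum_range_add φ (2 * a) N
    have b3 : 0 ≤ ∑ t ∈ range (2 * a), φ (N + t) := sum_nonneg fun _ _ => h0 _
    have b4 := sum_le_card_nsmul (range (2 * a)) φ C fun t _ => h1 t
    have b5 := sum_le_sum fun j (_ : j ∈ range N) => he j
    rw [sum_sub_distrib] at b5
    rw [card_range, nsmul_eq_mul] at b4
    rw [add_comm] at b2
    push_cast at b4
    linarith
  have a5 : ((N + a + J : ℕ) : ℝ) * C ≤ 2 * N * C := by
    refine mul_le_mul_of_nonneg_right ?_ hC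
    exact_mod_cast (by omega : N + a + J ≤ 2 * N)
  have a6 := ((mul_le_mul_of_nonneg_left a3 hu.le).trans hR).trans a5
  have a7 := mul_le_mul_of_nonneg_left a2 hu.le
  have hN0 : (0 : ℝ) ≤ N := Nat.cast_nonneg N
  have a8 := mul_le_mul_of_nonneg_left a6 hη.le
  have a9 := mul_le_mul_of_nonneg_left hJ.le (mul_nonneg hη.le hN0)
  have p := mul_pos (mul_pos hu hJ0) hθ
  have a10 := mul_le_mul_of_nonneg_left a4 p.le
  have a11 := mul_lt_mul_of_pos_left hN' p
  nlinarith

end BPIG

open BPIG in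
theorem st_PIG (hR : St_RUS) (hG : St_GEO) : St_PIG := by
  intro D r A K o u θ hK ho hu hu1 hθ
  obtain ⟨J, hJ⟩ := exists_nat_gt (4 * (D + 1 : ℝ) / (u * θ))
  rw [div_lt_iff₀' (mul_pos hu hθ)] at hJ
  refine ⟨J, fun η a hη => ?_⟩
  obtain ⟨N0, hN⟩ := exists_nat_gt (4 * a * (D + 1 : ℝ) / η)
  rw [div_lt_iff₀' hη] at hN
  set N := N0 + a + J with hNd
  have hF : Loc (envS K o) := (dep_envS hK ho).loc
  have lm : ∀ t, Loc fun x => (mT D (envS K o) t x : ℝ) := fun t => (loc_mT hF t).map Nat.cast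
  have cap : ∀ t x, (mT D (envS K o) t x : ℝ) ≤ D + 1 := fun t x => by
    exact_mod_cast mm_le_cap t d0
  have lf : Loc fun x => ∑ t ∈ range (N + a + J), -(mT D (envS K o) t x : ℝ) :=
    Loc.sum _ fun t _ => (lm t).map Neg.neg
  obtain ⟨v, v0, v1, hv⟩ := hR TD A (fun x => ∑ t ∈ range (N + a + J), -(mT D (envS K o) t x : ℝ))
    (((range J).biUnion words).image fun w => tm (des tm d0 w)) 0 u lf
    (fun x i => sum_le_sum fun t _ => neg_le_neg (by exact_mod_cast mT_setx t x i)) le_rfl hu.le hu1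
  refine (pig (fun t k => ∑ w ∈ words k, pr (sd A v) (Piv D (envS K o) t w))
    (fun t => mn (sd A v) fun x => (mT D (envS K o) t x : ℝ))
    (fun s => pr (sd A v) fun x => mT D (envS K o) (s - a) x ≠ mT D (envS K o) (s + a) x)
    (C := D + 1) (J := J) (N := N) (a := a) (fun _ _ => sum_nonneg fun _ _ => pr_nonneg _)
    (fun _ => pr_nonneg _) (fun j => ?_) (fun _ => mn_nonneg fun _ => Nat.cast_nonneg _)
    (fun t => mn_le (lm t) (cap t)) hu hθ hη hJ (by omega)
    (hN.trans_le (mul_le_mul_of_nonneg_left (Nat.cast_le.2 (by omega)) hη.le)) ?_).elim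
    fun k hk => hk.elim fun s h => ⟨v, k, s, v0, v1, h⟩
  · rw [Nat.add_sub_cancel_left, show a + j + a = 2 * a + j by omega, ← mn_sub (lm _) (lm _),
      ← one_mul (pr _ _)]
    have le : ∀ x, mT D (envS K o) (2 * a + j) x ≤ mT D (envS K o) j x :=
      fun x => mm_anti (by omega) d0
    refine markov ((loc_mT hF _).map₂ (loc_mT hF _) Ne) ((lm _).map₂ (lm _) (· - ·))
      (fun x => sub_nonneg.2 (by exact_mod_cast le x)) fun x hx => ?_
    have : mT D (envS K o) (2 * a + j) x + 1 ≤ mT D (envS K o) j x := lt_of_le_of_ne (le x) hx.symm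
    rw [le_sub_iff_add_le']
    exact_mod_cast this
  · rw [sub_zero, sum_image fun w _ w' _ e => hG.2.2.2.2.2.2.2.1 d0 w w' (by
      rw [← tm_invo (des tm d0 w), e, tm_invo]), sum_biUnion fun k _ k' _ hk =>
        disjoint_left.2 fun w h1 h2 => hk ((mem_words.1 h1).symm.trans (mem_words.1 h2))] at hv
    refine le_trans (mul_le_mul_of_nonneg_left (sum_le_sum fun k _ => ?_) hu.le) (hv.trans ?_)
    · rw [sum_comm]
      refine sum_le_sum fun w _ => ?_
      simp only [← sum_sub_distrib]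
      rw [mn_sum _ fun t _ => (((lm t).setx _ true).map Neg.neg).map₂ ((lm t).map Neg.neg) (· - ·)]
      refine sum_le_sum fun t _ => ?_
      rw [← one_mul (pr _ _)]
      have le := fun x => mT_setx (D := D) (K := K) (o := o) t x (tm (des tm d0 w))
      refine markov (((loc_mT hF t).setx _ true).map₂ (loc_mT hF t) Ne)
        ((((lm t).setx _ true).map Neg.neg).map₂ ((lm t).map Neg.neg) (· - ·))
        (fun x => sub_nonneg.2 (neg_le_neg (by exact_mod_cast le x))) fun x hx => ?_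
      have := Nat.succ_le_of_lt (lt_of_le_of_ne (le x) hx)
      rw [neg_sub_neg, le_sub_iff_add_le']
      exact_mod_cast this
    · have b1 : mn (sd A u) (fun x => ∑ t ∈ range (N + a + J), -(mT D (envS K o) t x : ℝ)) ≤ 0 :=
        mn_le lf fun x => sum_nonpos fun t _ => neg_nonpos.2 (Nat.cast_nonneg _)
      have b2 : -mn (sd A 0) (fun x => ∑ t ∈ range (N + a + J), -(mT D (envS K o) t x : ℝ)) ≤
          (N + a + J : ℕ) * (D + 1 : ℝ) := by
        rw [← mn_neg lf]
        refine mn_le (lf.map Neg.neg) fun x => ?_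
        rw [sum_neg_distrib, neg_neg]
        simpa only [card_range, nsmul_eq_mul] using
          sum_le_card_nsmul (range (N + a + J)) _ _ fun t _ => cap t x
      linarith

end Pool.Agent.Lib.PT5
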