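import Pool.Agent.Lib.PT5.BKit

/-! The repair of a colouring, one vertex at a time. -/

namespace Pool.Agent.Lib.PT5

open Finset RC5 Function

namespace BREP2

theorem fix {n D : ℕ} (m : HE n → HE n) (en : HE n → Bool × ℕ) :
    ∃ t, mm D m en (t + 1) = mm D m en t := by
  obtain ⟨t, ht⟩ := WellFounded.has_min (wellFounded_lt (α := ℕ))
    (Set.range fun t => ∑ d, mm D m en t d) (Set.range_nonempty _)
  obtain ⟨⟨t, rfl⟩, ht⟩ := ht
  have h1 : ∀ d ∈ (univ : Finset (HE n)), mm D m en (t + 1) d ≤ mm D m en t d :=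
    fun d _ => mm_succ_le t d
  exact ⟨t, funext fun d => (sum_eq_sum_iff_of_le h1).1
    (le_antisymm (sum_le_sum h1) (not_lt.1 (ht _ ⟨t + 1, rfl⟩))) d (mem_univ d)⟩

end BREP2

open BREP2 in
theorem st_REP2 (hL : St_LEVM) (hE : St_EXT2) : St_REP2 := by
  intro n L m hm h
  have key : ∀ U : Finset (Fin n), ∃ c : Fin n → ZMod 5,
      ∀ q : HE n, q.1 ∈ U → (m q).1 ∈ U → Ad (c q.1) (c (m q).1) := fun U => by
    induction U using Finset.induction_on with
    | empty => exact ⟨fun _ => 0, fun q hq => absurd hq (notMem_empty _)⟩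
    | insert v U _ ih =>
      obtain ⟨c, hc⟩ := ih
      obtain ⟨a, ha⟩ := h v
      obtain ⟨t, ht⟩ := fix (D := 2 * L + 4) m fun d => (tv (kv L m a (m d).1), 2 * L + 4 + 1)
      obtain ⟨lev, par, hl⟩ := hL n L (2 * L + 4) m (fun v => tv (kv L m a v)) _ hm le_rfl
        fun d => (congrFun ht d).symm
      obtain ⟨col, h1, h2⟩ := hE n L m _ lev par a c hm hl fun q hq hb => hq
        (mem_sel.2 ⟨mem_univ _, (m q).2, by
          rw [← ht]
          refine fs_seed (tv_iff.2 ⟨(m q).2, ?_⟩) (Nat.le_add_left _ _)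
          simpa only [invo_of_isM hm (m q), invo_of_isM hm q] using hb⟩)
      refine ⟨col, fun q q1 q2 => ?_⟩
      by_contra hn
      have h3 := not_or.1 fun k => hn (h2 q k)
      have h4 : ∀ x ∈ insert v U, x ∈ sel univ (fun v => ∃ i, mm (2 * L + 4) m
          (fun d => (tv (kv L m a (m d).1), 2 * L + 4 + 1)) t (m (v, i)) = 1) → x ∈ U :=
        fun x hx hR => (mem_insert.1 hx).resolve_left fun e => by
          obtain ⟨i, hi⟩ := (mem_sel.1 hR).2
          rw [e, ha] at hi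
          omega
      rw [h1 _ (not_not.1 h3.1), h1 _ (not_not.1 h3.2)] at hn
      exact hn (hc q (h4 _ q1 (not_not.1 h3.1)) (h4 _ q2 (not_not.1 h3.2)))
  obtain ⟨c, hc⟩ := key univ
  exact ⟨c, fun q => hc q (mem_univ _) (mem_univ _)⟩

end Pool.Agent.Lib.PT5
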