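import Pool.Agent.Lib.PT5.BKit

/-! The derivative of the mean of an increasing function in the seed probability. -/

namespace Pool.Agent.Lib.PT5

open Finset RC5 Function

namespace BRUS

variable {ι : Type} [DecidableEq ι] {A : LS}

theorem w_eq (u : ℝ) (l : A.L × Bool) :
    (sd A u).w l = A.w l.1 * if l.2 = true then max 0 (min u 1) else 1 - max 0 (min u 1) := rfl

theorem w_cont (l : A.L × Bool) : Continuous fun u => (sd A u).w l := by
  simp only [w_eq]
  split_ifs <;> fun_prop

theorem w_der (l : A.L × Bool) {u : ℝ} (h0 : 0 < u) (h1 : u < 1) :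
    HasDerivAt (fun u => (sd A u).w l) (A.w l.1 * if l.2 = true then 1 else -1) u := by
  have h2 : HasDerivAt (fun u : ℝ => max 0 (min u 1)) 1 u := by
    refine (hasDerivAt_id' u).congr_of_eventuallyEq ?_
    filter_upwards [Ioo_mem_nhds h0 h1] with v hv
    rw [min_eq_left hv.2.le, max_eq_right hv.1.le]
  simp only [w_eq]
  split_ifs
  · exact h2.const_mul _
  · exact (h2.const_sub 1).const_mul _

theorem EB_cont (B : Finset ι) (h : (ι → A.L × Bool) → ℝ) (x : ι → A.L × Bool) :
    Continuous fun u => EB (sd A u) B h x :=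
  continuous_finsetSum univ fun (y : B → A.L × Bool) _ =>
    (continuous_finsetProd univ fun i _ => w_cont (A := A) (y i)).mul
      (continuous_const (y := h (updateFinset x B y)))

theorem setx_upd {a : ι} {B : Finset ι} (ha : a ∉ B) (x : ι → A.L × Bool) (l : A.L × Bool)
    (y : B → A.L × Bool) (c : Bool) :
    setx (updateFinset (update x a l) B y) a c = updateFinset (update x a (l.1, c)) B y := by
  funext j
  by_cases e : j = a
  · subst e
    simp [setx, updateFinset, ha]
  · simp [setx, updateFinset, e]

theorem EB_delta {a : ι} {B : Finset ι} (ha : a ∉ B) (u : ℝ) (h : (ι → A.L × Bool) → ℝ)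
    (x : ι → A.L × Bool) (l : A.L × Bool) :
    EB (sd A u) B (fun x => h (setx x a true) - h (setx x a false)) (update x a l) =
      EB (sd A u) B h (update x a (l.1, true)) - EB (sd A u) B h (update x a (l.1, false)) := by
  unfold EB
  rw [← sum_sub_distrib]
  refine sum_congr rfl fun y _ => ?_
  rw [← mul_sub, ← setx_upd ha x l y true, ← setx_upd ha x l y false]

theorem EB_der (B : Finset ι) (h : (ι → A.L × Bool) → ℝ) {u : ℝ} (h0 : 0 < u) (h1 : u < 1) :
    ∀ x : ι → A.L × Bool, HasDerivAt (fun u => EB (sd A u) B h x)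
      (∑ i ∈ B, EB (sd A u) B (fun x => h (setx x i true) - h (setx x i false)) x) u := by
  induction B using Finset.induction_on with
  | empty =>
    intro x
    simp only [EB_empty, sum_empty]
    exact hasDerivAt_const u (h x)
  | insert a B ha ih =>
    intro x
    have e : (fun u => EB (sd A u) (insert a B) h x) =
        fun u => ∑ l : A.L × Bool, (sd A u).w l * EB (sd A u) B h (update x a l) :=
      funext fun u => EB_insert (A := sd A u) ha h x
    rw [e]
    refine (HasDerivAt.fun_sum fun l _ => (w_der l h0 h1).mul (ih (update x a l))).congr_deriv ?_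
    rw [sum_insert ha, sum_add_distrib]
    congr 1
    · rw [EB_insert (A := sd A u) ha]
      simp only [EB_delta ha]
      rw [Fintype.sum_prod_type, Fintype.sum_prod_type]
      refine sum_congr rfl fun l _ => ?_
      simp only [Fintype.sum_bool, if_true, Bool.false_eq_true, if_false]
      ring
    · simp only [mul_sum]
      rw [sum_comm]
      exact sum_congr rfl fun i _ => (EB_insert (A := sd A u) ha _ x).symm

theorem setx_setx (x : ι → A.L × Bool) (i : ι) (c c' : Bool) :
    setx (setx x i c) i c' = setx x i c' := by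
  simp [setx]

theorem setx_cases (x : ι → A.L × Bool) (i : ι) : x = setx x i true ∨ x = setx x i false := by
  have h : ∀ c, (x i).2 = c → x = setx x i c := fun c e => by
    rw [setx, ← e]
    exact (update_eq_self i x).symm
  cases e : (x i).2
  · exact Or.inr (h _ e)
  · exact Or.inl (h _ e)

theorem dep_setx {f : (ι → A.L × Bool) → ℝ} {B : Finset ι} (h : Dep f B) (i : ι) (c : Bool) :
    Dep (fun x => f (setx x i c)) B := fun x y a => h _ _ fun j hj => by
  by_cases e : j = i
  · rw [e, setx, setx, update_self, update_self, ← e, a j hj]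
  · rw [setx_ne _ e, setx_ne _ e, a j hj]

end BRUS

theorem st_RUS : St_RUS := by
  intro ι _ A f S a b hf hm h0 hab h1
  rcases hab.eq_or_lt with rfl | hab
  · exact ⟨a, le_rfl, le_rfl, by simp⟩
  obtain ⟨B₀, hB₀⟩ := hf
  have hB : Dep f (B₀ ∪ S) := hB₀.mono subset_union_left
  let x₀ : ι → A.L × Bool := fun _ => (A.pt, false)
  obtain ⟨v, hv, e⟩ := exists_hasDerivAt_eq_slope (fun u => EB (sd A u) (B₀ ∪ S) f x₀) _ hab
    (BRUS.EB_cont _ f x₀).continuousOn
    fun u hu => BRUS.EB_der (B₀ ∪ S) f (h0.trans_lt hu.1) (hu.2.trans_le h1) x₀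
  refine ⟨v, hv.1.le, hv.2.le, ?_⟩
  have h2 : ∀ x i, f (setx x i false) ≤ f x := fun x i => by
    rcases BRUS.setx_cases x i with e | e
    · have h3 := hm (setx x i false) i
      rwa [BRUS.setx_setx, ← e] at h3
    · rw [← e]
  have h3 : ∀ i, EB (sd A v) (B₀ ∪ S) (fun x => f (setx x i true) - f (setx x i false)) x₀ =
      mn (sd A v) fun x => f (setx x i true) - f (setx x i false) := fun i =>
    (mn_eq (A := sd A v) (fun x y h => congrArg₂ (· - ·) (BRUS.dep_setx hB i true x y h)
      (BRUS.dep_setx hB i false x y h)) x₀).symm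
  rw [mn_eq (A := sd A b) hB x₀, mn_eq (A := sd A a) hB x₀, ← le_div_iff₀' (sub_pos.mpr hab), ← e]
  simp only [h3]
  refine le_trans (sum_le_sum fun i _ => ?_) (sum_le_sum_of_subset_of_nonneg subset_union_right
    fun i _ _ => mn_nonneg fun x => sub_nonneg.mpr ((h2 x i).trans (hm x i)))
  exact mn_mono (A := sd A v) ((hB.loc.setx i true).map₂ hB.loc (· - ·))
    ((hB.loc.setx i true).map₂ (hB.loc.setx i false) (· - ·)) fun x => sub_le_sub_left (h2 x i) _

end Pool.Agent.Lib.PT5
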