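import Pool.Agent.Lib.PT5.BKit

/-! Few seeds give few finite messages. -/

namespace Pool.Agent.Lib.PT5

open Finset RC5 Function

namespace BSMALL

theorem descent {V : Type} {D : ℕ} {m : V × Fin 3 → V × Fin 3} {en : V × Fin 3 → Bool × ℕ}
    (h : ∀ d, (en d).2 = D + 1) : ∀ (t : ℕ) (d : V × Fin 3), mm D m en t d ≤ D →
      ∃ w : List Bool, w.length < mm D m en t d ∧ mm D m en t (des m d w) = 1
  | 0, _, k => absurd k (Nat.not_succ_le_self D)
  | t + 1, d, k => by
    have p : ∀ d, 1 ≤ (en d).2 := fun d => by rw [h d]; omega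
    by_cases e : mm D m en (t + 1) d = 1
    · exact ⟨[], by rw [e]; exact Nat.one_pos, e⟩
    have : ∃ b, mm D m en (t + 1) d = 1 + mm D m en t (ch m d b) := by
      rw [mm, fs, h d] at k e ⊢
      split_ifs at k e ⊢
      · omega
      · rcases le_total (mm D m en t (ch m d false)) (mm D m en t (ch m d true)) with q | q
        · exact ⟨false, by omega⟩
        · exact ⟨true, by omega⟩
    obtain ⟨b, hb⟩ := this
    obtain ⟨w, h1, h2⟩ := descent (m := m) h t (ch m d b) (by omega)
    refine ⟨b :: w, by rw [List.length_cons]; omega, le_antisymm ?_ (mm_pos p _ _)⟩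
    exact (mm_succ_le t _).trans h2.le

theorem card_le (D : ℕ) : ((range D).biUnion words).card ≤ 2 ^ D := by
  refine card_biUnion_le.trans ?_
  simp only [card_words]
  induction D with
  | zero => simp
  | succ D ih => rw [sum_range_succ, pow_succ]; omega

theorem num {D : ℕ} (h : 1 ≤ D) : (1 : ℝ) + 2 ^ D * (1 + 12 * (1 + 3 * D)) ≤ 100 ^ D := by
  induction D, h using Nat.le_induction with
  | base => norm_num
  | succ D _ ih =>
    have h1 : (0 : ℝ) < 2 ^ D := by positivity
    have h2 : (0 : ℝ) ≤ 2 ^ D * D := by positivity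
    rw [pow_succ, pow_succ]
    push_cast
    nlinarith

theorem fin_le {D : ℕ} {A : LS} {K : (TD → A.L) → Bool} (hK : Loc K) (t : ℕ) (e : TD) :
    pr A (fun x => mm D tm (env tm (noC D K) x) t e < D + 1) ≤
      2 ^ D * pr A fun x => mT D (noC D K) t x = 1 := by
  have hF : Loc (noC D K) := hK.map fun b => (b, D + 1)
  have l : ∀ w ∈ (range D).biUnion words,
      Loc fun x => mm D tm (env tm (noC D K) x) t (des tm e w) = 1 :=
    fun w _ => (loc_mm hF t _).map (· = 1)
  refine (pr_mono ((loc_mm hF t e).map (· < D + 1)) (Loc.ex _ l) fun x hx => ?_).trans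
    ((pr_ex _ l).trans ?_)
  · obtain ⟨w, h1, h2⟩ := descent (m := tm) (en := env tm (noC D K) x) (fun _ => rfl) t e
      (Nat.lt_succ_iff.1 hx)
    exact ⟨w, mem_biUnion.2 ⟨w.length, mem_range.2 (by omega), mem_words.2 rfl⟩, h2⟩
  · rw [sum_congr rfl fun w _ => pr_mm hF t t (fun a _ => a = 1) (des tm e w), sum_const,
      nsmul_eq_mul]
    exact mul_le_mul_of_nonneg_right (by exact_mod_cast card_le D) (pr_nonneg _)

end BSMALL

open BSMALL in
theorem st_SMALL (hC : St_BCORE) : St_SMALL := by
  obtain ⟨c₀, h0, hC⟩ := hC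
  have hc : 0 < min c₀ 1 := lt_min h0 one_pos
  refine ⟨min c₀ 1 / 10000, by positivity, fun D hD A K hK hp => ?_⟩
  have hF : Loc (noC D K) := hK.map fun b => (b, D + 1)
  have hX : Loc fun x => K x = true := hK.map (· = true)
  set p := pr A fun x => K x = true with hp'
  have p0 : 0 ≤ p := pr_nonneg _
  have hn : (1 + 2 ^ D * (1 + 12 * (1 + 3 * D))) * p ≤ (min c₀ 1 / 100) ^ D := by
    rw [show min c₀ 1 / 100 = 100 * (min c₀ 1 / 10000) by ring, mul_pow]
    exact mul_le_mul (num hD) hp p0 (by positivity)
  have key : ∀ t, pr A (fun x => mT D (noC D K) t x = 1) ≤ (1 + 12 * (1 + 3 * D)) * p := by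
    intro t
    induction t with
    | zero =>
      refine (pr_mono ((loc_mT hF 0).map (· = 1)) hX fun x hx => ?_).trans
        (le_mul_of_one_le_left p0 (le_add_of_nonneg_right (by positivity)))
      exact absurd hx (by rw [mT, mm]; omega)
    | succ t ih =>
      have l1 : Loc fun x => mT D (noC D K) (t + 1) x = 1 := (loc_mT hF _).map (· = 1)
      have hE : Loc fun x => mT D (noC D K) (t + 1) x = 1 ∧ ¬ K x = true :=
        l1.map₂ (hX.map Not) And
      have ch_le : ∀ x, (mT D (noC D K) (t + 1) x = 1 ∧ ¬ K x = true) → ∀ b,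
          mm D tm (env tm (noC D K) x) t (ch tm d0 b) ≤ D := fun x hx b => by
        have e : env tm (noC D K) x d0 = (K x, D + 1) := by
          rw [env, at_, show x ∘ cov tm d0 = x from funext fun i => congrArg x (cov_id i)]
          rfl
        have q := fun d => mm_pos (D := D) (m := tm) (en := env tm (noC D K) x)
          (fun _ => Nat.le_add_left _ _) t d
        have q1 := q (ch tm d0 b)
        have q2 := q (ch tm d0 (!b))
        have h1 := hx.1
        rw [mT, mm_succ t d0 b, e, fs] at h1
        split_ifs at h1 with h2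
        · have := h2.resolve_left hx.2
          omega
        · dsimp only at h1
          omega
      have a1 := (pr_mono hE ((loc_mm hF t (ch tm d0 false)).map (· < D + 1))
        fun x hx => Nat.lt_succ_of_le (ch_le x hx false)).trans (fin_le hK t _)
      have a2 := mul_le_mul_of_nonneg_left ih (show (0 : ℝ) ≤ 2 ^ D by positivity)
      have a3 : (min c₀ 1 / 100) ^ D ≤ c₀ ^ D :=
        pow_le_pow_left₀ (by positivity) (by linarith [min_le_left c₀ 1]) D
      have a4 := hC D hD A _ _ _ hE hE hX (fun _ => id) (by nlinarith) fun x hx b => by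
        obtain ⟨w, h1, h2⟩ := descent (m := tm) (en := env tm (noC D K) x) (fun _ => rfl) t _
          (ch_le x hx b)
        refine ⟨w, h1.trans_le (ch_le x hx b), ?_⟩
        have h3 : mm D tm (env tm (noC D K) x) (t + 1) (des tm d0 (b :: w)) = 1 :=
          le_antisymm ((mm_succ_le t _).trans h2.le) (mm_pos (fun _ => Nat.le_add_left _ _) _ _)
        rw [mm_env tm_invo] at h3
        by_cases k : K (x ∘ cov tm (des tm d0 (b :: w))) = true
        · exact Or.inr k
        · exact Or.inl ⟨h3, k⟩
      have a5 := (pr_mono l1 (hE.map₂ hX Or) fun x hx => by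
        by_cases k : K x = true
        · exact Or.inr k
        · exact Or.inl ⟨hx, k⟩).trans (pr_or hE hX)
      rw [add_sub_cancel_right] at a4
      linarith
  intro t
  have b1 := fin_le (D := D) hK t d0
  have b2 := mul_le_mul_of_nonneg_left (key t) (show (0 : ℝ) ≤ 2 ^ D by positivity)
  have b3 : (min c₀ 1 / 100) ^ D ≤ 1 / 100 :=
    (pow_le_of_le_one (by positivity) (by linarith [min_le_right c₀ 1]) (by omega)).trans
      (by linarith [min_le_right c₀ 1])
  refine b1.trans ?_
  nlinarith

end Pool.Agent.Lib.PT5
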