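import Pool.Agent.Lib.PT5.BKit

/-! Supports of the two events. -/

namespace Pool.Agent.Lib.PT5

open Finset RC5 Function

namespace BSUP

variable {V α : Type} {D : ℕ} {m : V × Fin 3 → V × Fin 3} {en en' : V × Fin 3 → Bool × ℕ}

theorem bp_congr {s : ℕ} {g : V × Fin 3} {w : List Bool}
    (hp : ∀ u v, w = u ++ v → en (des m g u) = en' (des m g u))
    (hs : ∀ u b v z, w = u ++ b :: v → z.length < s →
      en (des m g (u ++ (!b) :: z)) = en' (des m g (u ++ (!b) :: z))) :
    Bp D m en s g w = Bp D m en' s g w := by
  have h1 : ∀ t ≤ s, ∀ u b v, w = u ++ b :: v →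
      mm D m en t (des m g (u ++ [!b])) = mm D m en' t (des m g (u ++ [!b])) :=
    fun t ht u b v e => mm_congr t _ fun z hz => by
      rw [← des_append, List.append_assoc]
      exact hs u b v z e (hz.trans_le ht)
  have h2 : ∀ a, push D m en (mm D m en s) g w a = push D m en' (mm D m en' s) g w a := fun a =>
    push_congr a w g fun u b v e => ⟨hp u _ e, h1 s le_rfl u b v e⟩
  rw [Bp, Bp, Bl, Bl, h2, h2, hp w [] (List.append_nil w).symm, side_iff, side_iff]
  refine propext (or_congr_right (not_congr (forall₄_congr fun u b v e => ?_)))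
  rw [h1 s le_rfl u b v e, h1 _ (Nat.sub_le _ _) u b v e]

theorem lf_congr {F : (TD → α) → Bool × ℕ} {r s : ℕ} {x y : TD → α}
    (h : ∀ v : List Bool, r + 1 ≤ v.length → v.length ≤ r + 1 + s →
      env tm F x (des tm d0 v) = env tm F y (des tm d0 v)) : Lf D F r s x = Lf D F r s y := by
  have h1 : ∀ t ≤ s, ∀ w ∈ words (r + 1),
      mm D tm (env tm F x) t (des tm d0 w) = mm D tm (env tm F y) t (des tm d0 w) :=
    fun t ht w hw => mm_congr t _ fun z hz => by
      have h2 := mem_words.mp hw
      rw [← des_append]
      exact h _ (by rw [List.length_append]; omega) (by rw [List.length_append]; omega)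
  exact propext (exists_congr fun w => and_congr_right fun hw => by
    rw [h1 _ (by omega) w hw, h1 _ (by omega) w hw])

end BSUP

theorem st_SUP (hGEO : St_GEO) : St_SUP := by
  intro α D r s k F hF
  obtain ⟨-, g2, -, g4, g5, g6, -, -, g9⟩ := hGEO
  have key : ∀ x y : TD → α, (∀ i ∈ Ball (r + (r + 1 + k + s)), x i = y i) →
      ∀ v : List Bool, v.length ≤ r + 1 + k + s →
        env tm F x (des tm d0 v) = env tm F y (des tm d0 v) := fun x y a v hv =>
    env_dep hF fun i hi => a i (Ball_mono (by omega) (g9 r v hi))
  refine ⟨⟨r + (r + 1 + k + s), fun x y a => mm_congr s d0 fun w hw => key x y a w (by omega),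
    fun x y a => BSUP.lf_congr fun v _ hv => key x y a v (by omega), fun W x y a => ?_⟩,
    fun x y a => BSUP.lf_congr fun v hv _ => env_dep hF fun i hi => a i (g2 r d0 i v hv hi),
    fun W hW x y a => ?_⟩
  · have h1 := List.length_take_le (r + 1) W
    have h2 := List.length_take_le k (W.drop (r + 1))
    refine BSUP.bp_congr (fun u v e => ?_) fun u b v z e hz => ?_ <;>
      rw [e, List.length_append] at h2 <;> rw [← des_append] <;> refine key x y a _ ?_ <;>
      simp only [List.length_append, List.length_cons] at h2 ⊢ <;> omega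
  · have h1 : (W.take (r + 1)).length = r + 1 := by rw [List.length_take]; omega
    have h2 : r + 1 ≤ ((W.drop (r + 1)).drop k).length := by
      rw [List.length_drop, List.length_drop]; omega
    have h3 : des tm d0 W = des tm (des tm (des tm d0 (W.take (r + 1))) ((W.drop (r + 1)).take k))
        ((W.drop (r + 1)).drop k) := by
      rw [← des_append, List.take_append_drop, ← des_append, List.take_append_drop]
    have h4 : ∀ t : List Bool, (∀ i ∈ Nb tm r (des tm (des tm d0 (W.take (r + 1))) t),
        Beh tm (des tm (des tm d0 (W.take (r + 1))) ((W.drop (r + 1)).take k)) i →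
        i ∈ Nb tm r (des tm (des tm d0 (W.take (r + 1))) ((W.drop (r + 1)).take k))) →
        env tm F x (des tm (des tm d0 (W.take (r + 1))) t) =
          env tm F y (des tm (des tm d0 (W.take (r + 1))) t) := fun t ht =>
      env_dep hF fun i hi => a i ⟨g2 r d0 i (W.take (r + 1) ++ t)
        (by rw [List.length_append]; omega) (by rwa [des_append]), fun h => by
          rw [h3] at h
          exact g6 r _ i _ h2 (ht i hi (beh_des h)) h⟩
    refine BSUP.bp_congr (fun u v e => h4 u fun i hi => ?_) fun u b v z e _ => h4 _ fun i hi => ?_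
    · rw [e, des_append]
      exact g4 r _ i v hi
    · rw [des_append] at hi
      rw [e, des_append]
      exact g5 r _ i b z v hi

end Pool.Agent.Lib.PT5
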