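import Pool.Agent.Lib.PT5.B_AVOID
import Pool.Agent.Lib.PT5.B_BLK
import Pool.Agent.Lib.PT5.B_BOOT
import Pool.Agent.Lib.PT5.B_CALM
import Pool.Agent.Lib.PT5.B_CAU
import Pool.Agent.Lib.PT5.B_CEIL
import Pool.Agent.Lib.PT5.B_CI
import Pool.Agent.Lib.PT5.B_EVD
import Pool.Agent.Lib.PT5.B_EVP
import Pool.Agent.Lib.PT5.B_EXT2
import Pool.Agent.Lib.PT5.B_FIN
import Pool.Agent.Lib.PT5.B_GEO
import Pool.Agent.Lib.PT5.B_GF
import Pool.Agent.Lib.PT5.B_GR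
import Pool.Agent.Lib.PT5.B_K0
import Pool.Agent.Lib.PT5.B_LEVM
import Pool.Agent.Lib.PT5.B_LLL
import Pool.Agent.Lib.PT5.B_MU
import Pool.Agent.Lib.PT5.B_NAT
import Pool.Agent.Lib.PT5.B_PIG
import Pool.Agent.Lib.PT5.B_REP2
import Pool.Agent.Lib.PT5.B_RUS
import Pool.Agent.Lib.PT5.B_SMALL
import Pool.Agent.Lib.PT5.B_SUP
import Pool.Agent.Lib.PT5.A_CORE
import Pool.Agent.Lib.PT5.A_CORED
import Pool.Agent.Lib.PT5.A_INJ
import Pool.Agent.Lib.PT5.A_VAR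
import Pool.Agent.Lib.PT5.A_GOOD
import Pool.Agent.Lib.RC5.B_G3
import Pool.Agent.Lib.RC5.B_OM
import Pool.Agent.Lib.RC5.B_SP
import Pool.Agent.Lib.RC5.B_SP1
import Pool.Agent.Lib.RC5.B_SUB
import Pool.Agent.Lib.RC5.B_G1
import Pool.Agent.Lib.RC5.B_G2
import Pool.Agent.Lib.RC5.B_BALL
import Pool.Agent.Lib.RC5.B_FN1
import Pool.Agent.Lib.RC5.B_FN2

/-! Assembly of the repair argument. -/

namespace Pool.Agent.Lib.PT5

theorem good_all : St_GOOD :=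
  st_GOOD st_INJ (RC5.st_G3 RC5.st_BALL (RC5.st_G1 RC5.st_SUB) RC5.st_G2) RC5.st_OM
    (RC5.st_SP (RC5.st_SP1 RC5.st_SUB))

theorem core_all : St_CORE := st_CORE st_VAR good_all st_CORED

/-- Processes close to the tree measure give the homomorphism. -/
theorem fin_of_A (h : St_BA) : St_FIN :=
  st_FIN st_INJ st_GR (st_REP2 st_LEVM st_EXT2) st_NAT
    (st_K0 h (RC5.st_FN2 RC5.st_FN1) st_MU st_NAT)
    (st_CALM (st_SMALL core_all) st_CEIL st_RUS (st_PIG st_RUS st_GEO) (st_BLK st_CI st_GEO))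
    (st_BOOT (st_SUP st_GEO) (st_EVP st_GEO) st_EVD st_GF st_CAU (st_AVOID st_LLL st_GEO))

end Pool.Agent.Lib.PT5
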