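import Pool.Agent.Lib.PT5.CDefs

/-! Monotonicity of the experiments in the noise and in the depth. -/

namespace Pool.Agent.Lib.PT5

open Finset Real RC5

namespace CDOM

theorem sub {F : Vec → ℝ} (hF : Subl F) {I : Type} (s : Finset I) {w : I → Vec}
    (hw : ∀ i, 0 ≤ w i) : F (∑ i ∈ s, w i) ≤ ∑ i ∈ s, F (w i) := by
  classical
  induction s using Finset.induction_on with
  | empty => simpa using (hF.2 0 0 le_rfl le_rfl).le
  | insert a s ha ih =>
    rw [sum_insert ha, sum_insert ha]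
    exact (hF.1 _ _ (hw a) (sum_nonneg fun i _ => hw i)).trans (by linarith)

theorem one_nn (t : T1) : (0 : Vec) ≤ Pi.single t 1 := Pi.single_nonneg.2 zero_le_one

theorem full {I : Type} [Fintype I] {v : I → Vec} (hv : IsE v) :
    Dom v fun t : T1 => (Pi.single t 1 : Vec) := by
  intro F hF
  have h : ∀ i, F (v i) ≤ ∑ t, v i t * F (Pi.single t 1) := fun i => by
    have e : v i = ∑ t, v i t • (Pi.single t 1 : Vec) := pi_eq_sum_univ' (v i)
    refine (congrArg F e).trans_le ((sub hF _ fun t => smul_nonneg (hv.1 i t) (one_nn t)).trans_eq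
      (sum_congr rfl fun t _ => hF.2 _ _ (hv.1 i t) (one_nn t)))
  refine (sum_le_sum fun i _ => h i).trans_eq ?_
  rw [sum_comm]
  refine sum_congr rfl fun t _ => ?_
  rw [← sum_mul, ← Finset.sum_apply, hv.2, Pi.one_apply, one_mul]

theorem io_io : ∀ t : T1, io1 (io1 t) = t := by decide

theorem star (g : T1 → ℝ) : ∑ x : Star, 10 * tau x * g (ds x 0) = ∑ t, g t := by
  rw [Fintype.sum_prod_type, Fintype.sum_prod_type]
  refine sum_congr rfl fun c _ => ?_
  rw [← (Fin.consEquiv fun _ : Fin 3 => Bool).sum_comp, Fintype.sum_prod_type]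
  refine sum_congr rfl fun b _ => ?_
  rw [← (piFinTwoEquiv fun _ => Bool).symm.sum_comp, Fintype.sum_prod_type]
  cases b <;> simp [tau, ds, cst, Fin.consEquiv] <;> ring

theorem base {F : Vec → ℝ} (hF : Subl F) :
    ∑ t : T1, F (Pi.single t 1) = ∑ x, F (vS 1 0 x) := by
  have e : ∀ x : Star, F (vS 1 0 x) = 10 * tau x * F (Pi.single (io1 (ds x 0)) 1) := fun x => by
    rw [← hF.2 _ _ (by unfold tau; split_ifs <;> norm_num) (one_nn _)]
    congr 1
    funext t
    simp only [vS, psi, Pi.smul_apply, Pi.single_apply, smul_eq_mul]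
    by_cases h : ds x 0 = io1 t
    · rw [if_pos h, if_pos (by rw [h, io_io])]
      ring
    · rw [if_neg h, if_neg fun k => h (by rw [k, io_io])]
      ring
  refine Eq.symm ((sum_congr rfl fun x _ => e x).trans
    ((star fun t => F (Pi.single (io1 t) 1)).trans ?_))
  exact Equiv.sum_comp (Function.Involutive.toPerm io1 io_io) fun t => F (Pi.single t 1)

end CDOM

open CDOM in
theorem st_DOM (hSP : St_SP) (hTM : St_TM) : St_DOM := by
  have E : ∀ s k, 0 ≤ s → s ≤ 1 → IsE (vS s k) := fun s k h0 h1 => ((hSP s k).2.2 h0 h1).1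
  intro k
  refine and_assoc.1 ⟨?_, full (E 1 k zero_le_one le_rfl)⟩
  induction k with
  | zero =>
    exact ⟨fun s h0 h1 F hF => (full (E s 0 h0 h1) F hF).trans_eq (base hF),
      fun F hF => (full (E 1 1 zero_le_one le_rfl) F hF).trans_eq (base hF)⟩
  | succ k ih =>
    exact ⟨fun s h0 h1 => (hTM _ _ _ _ (E s k h0 h1) (E 1 k zero_le_one le_rfl) (ih.1 s h0 h1)
      s h0 h1).2, (hTM _ _ _ _ (E 1 (k + 1) zero_le_one le_rfl) (E 1 k zero_le_one le_rfl) ih.2
      1 zero_le_one le_rfl).2⟩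

end Pool.Agent.Lib.PT5
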