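import Pool.Agent.Lib.PT5.CDefs

/-! The contraction of the last phase. -/

namespace Pool.Agent.Lib.PT5

open Finset Real RC5

namespace CEND

theorem avg_nonneg {v : Vec} (h : 0 ≤ v) : 0 ≤ avg v :=
  div_nonneg (sum_nonneg fun t _ => h t) (by norm_num)

theorem eq_zero {v : Vec} (h : 0 ≤ v) (h0 : avg v = 0) : v = 0 := by
  have h1 : ∑ t, v t = 0 := by
    unfold avg at h0
    linarith
  funext t
  exact (sum_eq_zero_iff_of_nonneg fun t _ => h t).1 h1 t (mem_univ t)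

theorem eq_smul {v : Vec} (h : 0 ≤ v) : v = avg v • (1 + nz v) := by
  by_cases h0 : avg v = 0
  · rw [h0, zero_smul]
    exact eq_zero h h0
  · funext t
    simp only [nz, Pi.smul_apply, Pi.add_apply, Pi.one_apply, smul_eq_mul]
    field_simp
    ring

theorem sx_nz {v : Vec} (h : 0 ≤ v) (h0 : avg v ≠ 0) : Sx (nz v) := by
  refine ⟨fun t => ?_, ?_⟩
  · have := div_nonneg (h t) (avg_nonneg h)
    simp only [nz]
    linarith
  · have hc : Fintype.card T1 = 10 := by decide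
    have h1 : ∑ t, v t = 10 * avg v := by
      unfold avg
      ring
    simp only [nz, sum_sub_distrib, ← sum_div, sum_const, card_univ, hc, nsmul_eq_mul, h1]
    field_simp
    norm_num

theorem avg_smul (a : ℝ) (h : Vec) : avg (a • h) = a * avg h := by
  simp only [avg, Pi.smul_apply, smul_eq_mul, ← mul_sum]
  ring

theorem per_smul (f : Vec → ℝ) (a : ℝ) (h : Vec) : per f (a • h) = a * per f h := by
  by_cases ha : a = 0
  · simp only [per, avg_smul, ha, zero_mul]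
  · have : nz (a • h) = nz h := by
      funext t
      simp only [nz, avg_smul, Pi.smul_apply, smul_eq_mul, mul_div_mul_left _ _ ha]
    simp only [per, avg_smul, this, mul_assoc]

theorem am_vm_smul (a b : ℝ) (u u' : Vec) :
    Am 1 (Vm (a • u) (b • u')) = (a * b) • Am 1 (Vm u u') := by
  funext t
  simp only [Am, Vm, Pi.smul_apply, smul_eq_mul, sub_self, zero_mul, zero_add, one_mul]
  ring

theorem qf_nonneg (R : T1 → Vec) (x : Vec) : 0 ≤ qf R x := by
  unfold qf ip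
  exact sum_nonneg fun _ _ => mul_self_nonneg _

theorem swap {I : Type} [Fintype I] (w : I → ℝ) (F : I → I → ℝ) :
    ∑ i, w i * ∑ j, w j * F i j = ∑ j, w j * ∑ i, w i * F i j := by
  simp only [mul_sum]
  rw [sum_comm]
  exact sum_congr rfl fun _ _ => sum_congr rfl fun _ _ => by ring

theorem total {I : Type} [Fintype I] (w : I → ℝ) (hw : ∀ i, 0 ≤ w i) (G P Q R : I → I → ℝ)
    (n t1 k t2 a q r' m : I → ℝ) (c qb th S ta tb r : ℝ) (th0 : 0 < th) (th1 : th < 1)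
    (qb0 : 0 ≤ qb) (S0 : 0 ≤ S) (hn : ∀ i, 0 ≤ n i) (hk : ∀ i, 0 ≤ k i)
    (hG : ∀ i j, w i ≠ 0 → w j ≠ 0 → G i j ≤ P i j
      + (Q i j + 2 * qb * R i j * 2 + 2 * (n j * t1 i + n i * t1 j)) / (1 - th)
      + S / th * (k j * t2 i + k i * t2 j))
    (hP : ∑ i, w i * ∑ j, w j * P i j ≤ c * ∑ i, w i * a i)
    (hQ : ∀ j, ∑ i, w i * Q i j ≤ q j) (hR : ∀ j, ∑ i, w i * R i j ≤ r' j)
    (h1 : ∑ i, w i * t1 i ≤ ta) (h2 : ∑ i, w i * t2 i ≤ tb)
    (hc : ∀ i, w i ≠ 0 → c * a i + (q i + 4 * qb * r' i + 4 * ta * n i) / (1 - th)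
      + 2 * S * tb / th * k i ≤ r * m i) :
    ∑ i, ∑ j, w i * w j * G i j ≤ r * ∑ i, w i * m i := by
  have e1 : ∑ i, ∑ j, w i * w j * G i j ≤ ∑ i, ∑ j, w i * w j * (P i j
      + (Q i j + 2 * qb * R i j * 2 + 2 * (n j * t1 i + n i * t1 j)) / (1 - th)
      + S / th * (k j * t2 i + k i * t2 j)) := by
    refine sum_le_sum fun i _ => sum_le_sum fun j _ => ?_
    by_cases hi : w i = 0
    · simp [hi]
    by_cases hj : w j = 0
    · simp [hj]
    exact mul_le_mul_of_nonneg_left (hG i j hi hj) (mul_nonneg (hw i) (hw j))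
  have e2 : ∑ i, ∑ j, w i * w j * (P i j
      + (Q i j + 2 * qb * R i j * 2 + 2 * (n j * t1 i + n i * t1 j)) / (1 - th)
      + S / th * (k j * t2 i + k i * t2 j)) =
      (∑ i, w i * ∑ j, w j * P i j) + (1 - th)⁻¹ * (∑ i, w i * ∑ j, w j * Q i j)
        + (1 - th)⁻¹ * (4 * qb) * (∑ i, w i * ∑ j, w j * R i j)
        + (1 - th)⁻¹ * 2 * ((∑ i, w i * t1 i) * (∑ j, w j * n j))
        + (1 - th)⁻¹ * 2 * ((∑ i, w i * n i) * (∑ j, w j * t1 j))
        + S / th * ((∑ i, w i * t2 i) * (∑ j, w j * k j))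
        + S / th * ((∑ i, w i * k i) * (∑ j, w j * t2 j)) := by
    rw [sum_mul_sum, sum_mul_sum, sum_mul_sum, sum_mul_sum]
    simp only [mul_sum, ← sum_add_distrib]
    exact sum_congr rfl fun i _ => sum_congr rfl fun j _ => by ring
  have e3 : ∑ i, w i * (c * a i + (q i + 4 * qb * r' i + 4 * ta * n i) / (1 - th)
      + 2 * S * tb / th * k i) ≤ r * ∑ i, w i * m i := by
    rw [mul_sum]
    refine sum_le_sum fun i _ => ?_
    by_cases hi : w i = 0
    · simp [hi]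
    · have := mul_le_mul_of_nonneg_left (hc i hi) (hw i)
      linarith
  have e4 : ∑ i, w i * (c * a i + (q i + 4 * qb * r' i + 4 * ta * n i) / (1 - th)
      + 2 * S * tb / th * k i) =
      c * (∑ i, w i * a i) + (1 - th)⁻¹ * (∑ i, w i * q i)
        + (1 - th)⁻¹ * (4 * qb) * (∑ i, w i * r' i)
        + (1 - th)⁻¹ * 2 * (ta * ∑ j, w j * n j) + (1 - th)⁻¹ * 2 * ((∑ i, w i * n i) * ta)
        + S / th * (tb * ∑ j, w j * k j) + S / th * ((∑ i, w i * k i) * tb) := by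
    simp only [sum_mul, mul_sum, ← sum_add_distrib]
    exact sum_congr rfl fun i _ => by ring
  have hi : 0 ≤ (1 - th)⁻¹ := inv_nonneg.2 (by linarith)
  have hs : 0 ≤ S / th := div_nonneg S0 th0.le
  have hN : 0 ≤ ∑ i, w i * n i := sum_nonneg fun i _ => mul_nonneg (hw i) (hn i)
  have hK : 0 ≤ ∑ i, w i * k i := sum_nonneg fun i _ => mul_nonneg (hw i) (hk i)
  have hQ' : ∑ i, w i * ∑ j, w j * Q i j ≤ ∑ i, w i * q i := by
    rw [swap]
    exact sum_le_sum fun j _ => mul_le_mul_of_nonneg_left (hQ j) (hw j)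
  have hR' : ∑ i, w i * ∑ j, w j * R i j ≤ ∑ i, w i * r' i := by
    rw [swap]
    exact sum_le_sum fun j _ => mul_le_mul_of_nonneg_left (hR j) (hw j)
  refine e1.trans (le_trans ?_ e3)
  rw [e2, e4]
  gcongr

end CEND

open CEND

theorem st_END (hPW : St_PW) (hMOM : St_MOM) : St_END := by
  intro D I _ v hD hE hF
  obtain ⟨m1, m2⟩ := hMOM D I v hD hE hF
  have e : mo (TE 1 v) (qf D.M) = ∑ i, ∑ j, avg (v i) * avg (v j) *
      per (qf D.M) (Am 1 (Vm (1 + nz (v i)) (1 + nz (v j)))) := by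
    unfold mo
    rw [Fintype.sum_prod_type]
    refine sum_congr rfl fun i _ => sum_congr rfl fun j _ => ?_
    rw [← per_smul, ← am_vm_smul, ← eq_smul (hE.1 i), ← eq_smul (hE.1 j)]
    rfl
  rw [e]
  exact total (fun i => avg (v i)) (fun i => avg_nonneg (hE.1 i)) _
    (fun i j => qf D.M (L1 (nz (v i)) + L1 (nz (v j))) * (1 - bb (nz (v i)) (nz (v j)))
      + 2 * ip D.M (L1 (nz (v i)) + L1 (nz (v j))) (B0 (nz (v i)) (nz (v j))))
    (fun i j => qf D.M1 (B0 (nz (v i)) (nz (v j)))) (fun i j => bb (nz (v i)) (nz (v j)) ^ 2)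
    (fun i => qf D.Ns (nz (v i))) (fun i => tl1 D (nz (v i))) (fun i => qf D.K (nz (v i)))
    (fun i => tl2 D (nz (v i))) (fun i => qf D.M (L1 (nz (v i))))
    (fun i => ∑ k, qf D.M1 (B0 (D.Sg k) (nz (v i)))) (fun i => ∑ k, bb (D.Sg k) (nz (v i)) ^ 2)
    (fun i => qf D.M (nz (v i))) (2 * (1 + 3 / 13 * D.sd)) D.qb D.th D.S D.ta D.tb D.r
    hD.th0 hD.th1 hD.qb0 hD.S0 (fun _ => qf_nonneg _ _) (fun _ => qf_nonneg _ _)
    (fun i j hi hj => hPW D hD _ _ (sx_nz (hE.1 i) hi) (sx_nz (hE.1 j) hj)) m1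
    (fun j => (m2 _).1) (fun j => (m2 _).2) hF.t1 hF.t2
    (fun i hi => hD.con _ (sx_nz (hE.1 i) hi).2)

end Pool.Agent.Lib.PT5
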