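import Pool.Agent.Lib.PT5.CDefs

/-! Mixed moments of two independent messages. -/

namespace Pool.Agent.Lib.PT5

open Finset Real RC5

namespace CMOM

variable {I : Type} [Fintype I] {v : I → Vec}

theorem mo_add (f g : Vec → ℝ) : mo v (fun x => f x + g x) = mo v f + mo v g := by
  simp only [mo, per, mul_add, sum_add_distrib]

theorem mo_sub (f g : Vec → ℝ) : mo v (fun x => f x - g x) = mo v f - mo v g := by
  simp only [mo, per, mul_sub, sum_sub_distrib]

theorem mo_cmul (c : ℝ) (f : Vec → ℝ) : mo v (fun x => c * f x) = c * mo v f := by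
  simp only [mo, per, mul_sum]
  exact sum_congr rfl fun i _ => by ring

theorem mo_mulc (c : ℝ) (f : Vec → ℝ) : mo v (fun x => f x * c) = mo v f * c := by
  simp only [mo, per, sum_mul]
  exact sum_congr rfl fun i _ => by ring

theorem mo_sum {J : Type} [Fintype J] (f : J → Vec → ℝ) :
    mo v (fun x => ∑ j, f j x) = ∑ j, mo v (f j) := by
  simp only [mo, per, mul_sum]
  exact sum_comm

theorem mo_comm (G : Vec → Vec → ℝ) :
    mo v (fun x => mo v fun y => G x y) = mo v fun y => mo v fun x => G x y := by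
  simp only [mo, per, mul_sum]
  rw [sum_comm]
  exact sum_congr rfl fun i _ => sum_congr rfl fun k _ => by ring

theorem avg_nn {a : Vec} (h : 0 ≤ a) : 0 ≤ avg a :=
  div_nonneg (sum_nonneg fun t _ => h t) (by norm_num)

theorem sum_avg (hv : IsE v) : ∑ i, avg (v i) = 1 := by
  have h : ∀ t, ∑ i, v i t = 1 := fun t => by
    have := congrFun hv.2 t
    rwa [Finset.sum_apply] at this
  simp only [avg]
  rw [← sum_div, sum_comm]
  simp only [h, sum_const, card_univ, Fintype.card_prod, ZMod.card, Fintype.card_bool]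
  norm_num

theorem mo_const (hv : IsE v) (c : ℝ) : mo v (fun _ => c) = c := by
  simp only [mo, per]
  rw [← sum_mul, sum_avg hv, one_mul]

theorem avg_nz {a : Vec} (h : 0 ≤ a) (t : T1) : avg a * nz a t = a t - avg a := by
  by_cases h0 : avg a = 0
  · have h1 : ∑ t, a t = 0 := by
      have := h0
      simp only [avg] at this
      linarith
    rw [h0, (sum_eq_zero_iff_of_nonneg fun t _ => h t).1 h1 t (mem_univ t)]
    ring
  · simp only [nz]
    field_simp

theorem mo_ev (hv : IsE v) (t : T1) : mo v (fun x => x t) = 0 := by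
  have h : ∑ i, v i t = 1 := by
    have := congrFun hv.2 t
    rwa [Finset.sum_apply] at this
  simp only [mo, per]
  rw [sum_congr rfl fun i _ => avg_nz (hv.1 i) t, sum_sub_distrib, h, sum_avg hv, sub_self]

theorem lin_dot {φ : Vec → ℝ} (h : IsLinearMap ℝ φ) : ∃ a, ∀ x, φ x = dot a x :=
  ⟨fun t => φ fun j => if t = j then 1 else 0, fun x => by
    have := LinearMap.pi_apply_eq_sum_univ (h.mk' φ) x
    simp only [IsLinearMap.mk'_apply, smul_eq_mul] at this
    rw [this]
    exact sum_congr rfl fun t _ => mul_comm _ _⟩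

theorem mo_lin (hv : IsE v) {φ : Vec → ℝ} (h : IsLinearMap ℝ φ) : mo v φ = 0 := by
  obtain ⟨a, ha⟩ := lin_dot h
  rw [show φ = fun x => ∑ t, a t * x t from funext ha, mo_sum]
  exact sum_eq_zero fun t _ => by rw [mo_cmul, mo_ev hv, mul_zero]

theorem cov_lin {D : Dat} (hf : D.Fit v) {φ : Vec → ℝ} (h : IsLinearMap ℝ φ) :
    mo v (fun x => φ x ^ 2) ≤ ∑ k, φ (D.Sg k) ^ 2 := by
  obtain ⟨a, ha⟩ := lin_dot h
  simp only [ha]
  exact hf.cov a

theorem mo_sq (hv : IsE v) (f : Vec → ℝ) : 0 ≤ mo v fun x => f x ^ 2 :=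
  sum_nonneg fun i _ => mul_nonneg (avg_nn (hv.1 i)) (sq_nonneg _)

theorem mo_cs (hv : IsE v) (f g : Vec → ℝ) :
    mo v (fun x => f x * g x) ^ 2 ≤ mo v (fun x => f x ^ 2) * mo v fun x => g x ^ 2 :=
  sum_sq_le_sum_mul_sum_of_sq_le_mul _
    (fun i _ => mul_nonneg (avg_nn (hv.1 i)) (sq_nonneg _))
    (fun i _ => mul_nonneg (avg_nn (hv.1 i)) (sq_nonneg _)) fun i _ =>
      le_of_eq (by simp only [per]; ring)

theorem Vm_comm (a b : Vec) : Vm a b = Vm b a := by
  funext t; simp only [Vm]; ring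

theorem Vm_add (a a' b : Vec) (t : T1) : Vm (a + a') b t = Vm a b t + Vm a' b t := by
  simp only [Vm, Pi.add_apply]; ring

theorem Vm_smul (r : ℝ) (a b : Vec) (t : T1) : Vm (r • a) b t = r * Vm a b t := by
  simp only [Vm, Pi.smul_apply, smul_eq_mul]; ring

theorem bb_comm (x y : Vec) : bb x y = bb y x := by rw [bb, bb, Vm_comm]

theorem B0_comm (x y : Vec) : B0 x y = B0 y x := by
  funext t; rw [B0, B0, Vm_comm, bb_comm]

theorem lin_bb (y : Vec) : IsLinearMap ℝ fun x => bb x y :=
  ⟨fun a a' => by simp only [bb, avg, Vm_add, sum_add_distrib]; ring,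
    fun r a => by simp only [bb, avg, Vm_smul, ← mul_sum, smul_eq_mul]; ring⟩

theorem lin_B0 (R y : Vec) : IsLinearMap ℝ fun x => dot R (B0 x y) :=
  ⟨fun a a' => by
    simp only [dot, B0, Vm_add, (lin_bb y).1, ← sum_add_distrib]
    exact sum_congr rfl fun t _ => by ring,
  fun r a => by
    simp only [dot, B0, Vm_smul, (lin_bb y).2, smul_eq_mul, mul_sum]
    exact sum_congr rfl fun t _ => by ring⟩

theorem lin_L1 (R : Vec) : IsLinearMap ℝ fun x => dot R (L1 x) :=
  ⟨fun a a' => by simp only [dot, L1, Vm_add, mul_add, sum_add_distrib],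
  fun r a => by
    simp only [dot, L1, Vm_smul, smul_eq_mul, mul_sum]
    exact sum_congr rfl fun t _ => by ring⟩

theorem lin_od (a : ZMod 5 → ℝ) : IsLinearMap ℝ fun x : Vec => ∑ c, a c * od x c :=
  ⟨fun x y => by
    simp only [od, Pi.add_apply, ← sum_add_distrib]
    exact sum_congr rfl fun t _ => by ring,
  fun r x => by
    simp only [od, Pi.smul_apply, smul_eq_mul, mul_sum]
    exact sum_congr rfl fun t _ => by ring⟩

theorem dot_add (R x y : Vec) : dot R (x + y) = dot R x + dot R y := by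
  simp only [dot, Pi.add_apply, mul_add, sum_add_distrib]

/-- even part -/
noncomputable def ev (x : Vec) (c : ZMod 5) : ℝ := (x (c, true) + x (c, false)) / 2

theorem bb_eq (x y : Vec) :
    bb x y = ∑ c, (1 / 5 * (ev x c * ev y c) - 3 / 65 * (od x c * od y c)) := by
  simp only [bb, avg, Fintype.sum_prod_type, Fintype.sum_bool, sum_div]
  exact sum_congr rfl fun c _ => by simp only [Vm, ev, od]; ring

theorem odd_le {D : Dat} (hD : D.Good) (hv : IsE v) (hf : D.Fit v) (l : Vec → ℝ) :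
    ∑ c, mo v (fun x => l x * od x c) * mo v (fun x => l x * od x c)
      ≤ 5 * D.sd * mo v fun x => l x ^ 2 := by
  set a : ZMod 5 → ℝ := fun c => mo v fun x => l x * od x c with ha
  have h1 : ∑ c, a c * a c = mo v fun x => l x * ∑ c, a c * od x c := by
    simp only [mul_sum, mo_sum]
    refine sum_congr rfl fun c _ => ?_
    rw [← mo_cmul]
    congr 1
    funext x
    ring
  have h2 := mo_cs hv l fun x => ∑ c, a c * od x c
  have h3 := (cov_lin hf (lin_od a)).trans (hD.odd a)
  have h4 := mo_sq hv l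
  have h5 : ∑ c, a c ^ 2 = ∑ c, a c * a c := sum_congr rfl fun c _ => sq _
  have h6 : 0 ≤ ∑ c, a c * a c := sum_nonneg fun c _ => mul_self_nonneg _
  rw [← h1] at h2
  rw [h5] at h3
  have h7 := h2.trans (mul_le_mul_of_nonneg_left h3 h4)
  rcases h6.eq_or_lt with h | h
  · rw [← h]
    exact mul_nonneg (mul_nonneg (by norm_num) hD.sd0) h4
  · exact le_of_mul_le_mul_right (by nlinarith) h

theorem key {D : Dat} (hD : D.Good) (hv : IsE v) (hf : D.Fit v) {l : Vec → ℝ}
    (hl : IsLinearMap ℝ l) {β : Vec → Vec → ℝ} (hβ : ∀ y, IsLinearMap ℝ fun x => β x y)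
    (hs : ∀ x y, β x y = β y x) :
    mo v (fun x => mo v fun y => (l x + l y) ^ 2 * (1 - bb x y) + 2 * ((l x + l y) * β x y))
      ≤ 2 * (1 + 3 / 13 * D.sd) * mo v fun x => l x ^ 2 := by
  have e : ∀ x y, (l x + l y) ^ 2 * (1 - bb x y) + 2 * ((l x + l y) * β x y) =
      l x ^ 2 + l y ^ 2 - 2 * ∑ c, (1 / 5 * ((l x * ev x c) * (l y * ev y c))
        - 3 / 65 * ((l x * od x c) * (l y * od y c)))
      + (2 * l x * l y - l x ^ 2 * bb y x + 2 * l x * β y x)
      + (2 * l y * β x y - l y ^ 2 * bb x y) := fun x y => by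
    have h : ∑ c, (1 / 5 * ((l x * ev x c) * (l y * ev y c))
        - 3 / 65 * ((l x * od x c) * (l y * od y c))) = l x * l y * bb x y := by
      rw [bb_eq, mul_sum]
      exact sum_congr rfl fun c _ => by ring
    rw [h, bb_comm y x, hs y x]
    ring
  have z1 : ∀ x, mo v (fun y => 2 * l x * l y - l x ^ 2 * bb y x + 2 * l x * β y x) = 0 :=
    fun x => by
      rw [mo_add, mo_sub, mo_cmul, mo_cmul, mo_cmul, mo_lin hv hl, mo_lin hv (lin_bb x),
        mo_lin hv (hβ x)]
      ring
  have z2 : mo v (fun x => mo v fun y => 2 * l y * β x y - l y ^ 2 * bb x y) = 0 := by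
    rw [mo_comm]
    have : ∀ y, mo v (fun x => 2 * l y * β x y - l y ^ 2 * bb x y) = 0 := fun y => by
      rw [mo_sub, mo_cmul, mo_cmul, mo_lin hv (lin_bb y), mo_lin hv (hβ y)]
      ring
    simp only [this, mo_const hv]
  have e2 : ∀ x, mo v (fun y => (l x + l y) ^ 2 * (1 - bb x y) + 2 * ((l x + l y) * β x y)) =
      l x ^ 2 + mo v (fun y => l y ^ 2) - 2 * ∑ c,
        (1 / 5 * ((l x * ev x c) * mo v fun y => l y * ev y c)
          - 3 / 65 * ((l x * od x c) * mo v fun y => l y * od y c))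
      + mo v fun y => 2 * l y * β x y - l y ^ 2 * bb x y := fun x => by
    simp only [e]
    rw [mo_add, mo_add, z1, add_zero, mo_sub, mo_add, mo_const hv, mo_cmul, mo_sum]
    simp only [mo_sub, mo_cmul]
  simp only [e2]
  rw [mo_add, z2, add_zero, mo_sub, mo_add, mo_const hv, mo_cmul, mo_sum]
  simp only [mo_sub, mo_cmul]
  have e3 : ∀ (p : Vec → ℝ) (c : ZMod 5),
      mo v (fun x => l x * ev x c * mo v fun y => l y * ev y c) =
        mo v (fun y => l y * ev y c) * mo v (fun y => l y * ev y c) ∧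
      mo v (fun x => l x * od x c * mo v fun y => l y * od y c) =
        mo v (fun y => l y * od y c) * mo v (fun y => l y * od y c) :=
    fun _ c => ⟨mo_mulc _ _, mo_mulc _ _⟩
  simp only [(e3 l _).1, (e3 l _).2, sum_sub_distrib, ← mul_sum]
  have h1 := odd_le hD hv hf l
  have h2 : 0 ≤ ∑ c, mo v (fun y => l y * ev y c) * mo v (fun y => l y * ev y c) :=
    sum_nonneg fun c _ => mul_self_nonneg _
  nlinarith

end CMOM

open CMOM in
theorem st_MOM : St_MOM := by
  intro D I _ v hD hv hf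
  refine ⟨?_, fun y => ⟨?_, cov_lin hf (lin_bb y)⟩⟩
  · have e : ∀ x y : Vec,
        qf D.M (L1 x + L1 y) * (1 - bb x y) + 2 * ip D.M (L1 x + L1 y) (B0 x y) =
        ∑ j, ((dot (D.M j) (L1 x) + dot (D.M j) (L1 y)) ^ 2 * (1 - bb x y)
          + 2 * ((dot (D.M j) (L1 x) + dot (D.M j) (L1 y)) * dot (D.M j) (B0 x y))) :=
      fun x y => by
        simp only [qf, ip, dot_add, sum_mul, mul_sum, ← sum_add_distrib]
        exact sum_congr rfl fun j _ => by ring
    have e' : ∀ x : Vec, qf D.M (L1 x) = ∑ j, dot (D.M j) (L1 x) ^ 2 := fun x => by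
      simp only [qf, ip, sq]
    simp only [e, e', mo_sum, mul_sum]
    exact sum_le_sum fun j _ => key hD hv hf (lin_L1 _) (lin_B0 _) fun x y => by rw [B0_comm]
  · have e' : ∀ x : Vec, qf D.M1 (B0 x y) = ∑ j, dot (D.M1 j) (B0 x y) ^ 2 := fun x => by
      simp only [qf, ip, sq]
    simp only [e', mo_sum]
    rw [sum_comm]
    exact sum_le_sum fun j _ => cov_lin hf (lin_B0 _ y)

end Pool.Agent.Lib.PT5
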