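import Pool.Agent.Lib.PT5.CDefs

/-! No reconstruction from the certificate of the last phase. -/

namespace Pool.Agent.Lib.PT5

open Finset Real RC5

namespace CNR

lemma low {D : Dat} (hD : D.Good) {v : Vec} (hv : 0 ≤ v) :
    per sq2 v ≤ |D.C| * per (qf D.M) v := by
  have h0 : 0 ≤ avg v := div_nonneg (Finset.sum_nonneg fun t _ => hv t) (by norm_num)
  rcases h0.eq_or_lt with h | h
  · simp [per, ← h]
  have h1 : ∑ t, nz v t = 0 := by
    have h2 : ∑ t, v t = 10 * avg v := by rw [avg]; ring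
    simp only [nz, Finset.sum_sub_distrib, ← Finset.sum_div, h2]
    rw [mul_div_assoc, div_self h.ne']
    simp [Finset.card_univ]
  have h3 : 0 ≤ qf D.M (nz v) := by
    rw [qf, ip]
    exact Finset.sum_nonneg fun j _ => mul_self_nonneg _
  have h4 := (hD.low _ h1).trans (mul_le_mul_of_nonneg_right (le_abs_self _) h3)
  rw [per, per, mul_left_comm]
  exact mul_le_mul_of_nonneg_left h4 h0

end CNR

open CNR in
theorem st_NR (hSP : St_SP) (hQK : St_QK) (hDOM : St_DOM) (hPER : St_PER) (hEND : St_END)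
    (hTAB : St_TAB) : St_NR := by
  obtain ⟨D, k, hD, hF⟩ := hTAB
  obtain ⟨p1, -, p3, p4, p5⟩ := hPER
  have hE : ∀ j, IsE (vS 1 j) := fun j => ((hSP 1 j).2.2 zero_le_one le_rfl).1
  have hdom : ∀ n, Dom (vS 1 (k + n)) (vS 1 k) := fun n => by
    induction n with
    | zero => exact fun F _ => le_rfl
    | succ n ih => exact fun F h => ((hDOM (k + n)).2.1 F h).trans (ih F h)
  have hfit : ∀ n, D.Fit (vS 1 (k + n)) := fun n =>
    ⟨fun a => (hdom n _ (p1 _ (p4 a))).trans (hF.cov a),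
      (hdom n _ (p1 _ (p5 D hD.qb0).1)).trans hF.t1, (hdom n _ (p1 _ (p5 D hD.qb0).2)).trans hF.t2⟩
  have key : ∀ n, mo (vS 1 (k + n)) (qf D.M) ≤ D.r ^ n * mo (vS 1 k) (qf D.M) := fun n => by
    induction n with
    | zero => simp
    | succ n ih =>
      have h : mo (vS 1 (k + n + 1)) (qf D.M) ≤ _ := hEND D _ _ hD (hE (k + n)) (hfit n)
      rw [pow_succ', mul_assoc]
      exact h.trans (mul_le_mul_of_nonneg_left ih hD.r0)
  intro ε hε
  have hlim := ((tendsto_pow_atTop_nhds_zero_of_lt_one hD.r0 hD.r1).mul_const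
    (mo (vS 1 k) (qf D.M))).const_mul |D.C|
  rw [zero_mul, mul_zero] at hlim
  obtain ⟨n, hn⟩ := (hlim.eventually (ge_mem_nhds hε)).exists
  refine ⟨k + n, fun s h0 h1 => ?_⟩
  rw [hQK s _ h0 h1]
  refine ((hDOM (k + n)).1 s h0 h1 _ (p1 _ p3)).trans (le_trans ?_
    ((mul_le_mul_of_nonneg_left (key n) (abs_nonneg _)).trans hn))
  rw [mo, Finset.mul_sum]
  exact Finset.sum_le_sum fun b _ => low hD ((hE _).1 b)

end Pool.Agent.Lib.PT5
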