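import Pool.Agent.Lib.PT5.CDefs

/-! Perspectives of convex functions are sublinear. -/

namespace Pool.Agent.Lib.PT5

open Finset Real RC5

namespace CPER

theorem avg_add (v w : Vec) : avg (v + w) = avg v + avg w := by
  simp only [avg, Pi.add_apply, sum_add_distrib]; ring

theorem avg_smul (a : ℝ) (v : Vec) : avg (a • v) = a * avg v := by
  simp only [avg, Pi.smul_apply, smul_eq_mul, ← mul_sum]; ring

theorem avg_nonneg {v : Vec} (hv : 0 ≤ v) : 0 ≤ avg v := by
  have : 0 ≤ ∑ t, v t := sum_nonneg fun t _ => hv t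
  unfold avg; positivity

theorem eq_zero {v : Vec} (hv : 0 ≤ v) (h : avg v = 0) : v = 0 := by
  have h1 : ∑ t, v t = 0 := by unfold avg at h; linarith
  funext t
  exact (sum_eq_zero_iff_of_nonneg fun t _ => hv t).1 h1 t (mem_univ t)

theorem per_zero (f : Vec → ℝ) : per f 0 = 0 := by simp [per, avg]

theorem subl (f : Vec → ℝ) (hf : ConvexOn ℝ Set.univ f) : Subl (per f) := by
  refine ⟨fun v w hv hw => ?_, fun a v ha hv => ?_⟩
  · rcases (avg_nonneg hv).eq_or_lt with h | h
    · rw [eq_zero hv h.symm, zero_add, per_zero, zero_add]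
    rcases (avg_nonneg hw).eq_or_lt with h' | h'
    · rw [eq_zero hw h'.symm, add_zero, per_zero, add_zero]
    have hs : 0 < avg v + avg w := by linarith
    have e : nz (v + w) = (avg v / (avg v + avg w)) • nz v + (avg w / (avg v + avg w)) • nz w := by
      funext t
      simp only [nz, avg_add, Pi.add_apply, Pi.smul_apply, smul_eq_mul]
      field_simp
      ring
    have h2 := hf.2 (Set.mem_univ (nz v)) (Set.mem_univ (nz w))
      (div_pos h hs).le (div_pos h' hs).le (by field_simp)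
    rw [← e, smul_eq_mul, smul_eq_mul] at h2
    unfold per
    rw [avg_add]
    calc _ ≤ (avg v + avg w) * (avg v / (avg v + avg w) * f (nz v)
          + avg w / (avg v + avg w) * f (nz w)) := mul_le_mul_of_nonneg_left h2 hs.le
      _ = _ := by field_simp
  · rcases ha.eq_or_lt with h | h
    · rw [← h, zero_smul, per_zero, zero_mul]
    have e : nz (a • v) = nz v := by
      funext t
      simp only [nz, avg_smul, Pi.smul_apply, smul_eq_mul]
      rw [mul_div_mul_left _ _ h.ne']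
    unfold per
    rw [e, avg_smul, mul_assoc]

theorem dot_comb (c x y : Vec) (a b : ℝ) : dot c (a • x + b • y) = a * dot c x + b * dot c y := by
  simp only [dot, Pi.add_apply, Pi.smul_apply, smul_eq_mul, mul_sum, ← sum_add_distrib]
  exact sum_congr rfl fun t _ => by ring

theorem sq_comb (p q a b : ℝ) (ha : 0 ≤ a) (hb : 0 ≤ b) (hab : a + b = 1) :
    (a * p + b * q) ^ 2 ≤ a * p ^ 2 + b * q ^ 2 := by
  obtain rfl : b = 1 - a := by linarith
  nlinarith [mul_nonneg (mul_nonneg ha hb) (sq_nonneg (p - q))]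

theorem cv_dot (c : Vec) : ConvexOn ℝ Set.univ fun x => dot c x ^ 2 :=
  ⟨convex_univ, fun x _ y _ a b ha hb hab => by
    simp only [dot_comb, smul_eq_mul]
    exact sq_comb _ _ _ _ ha hb hab⟩

theorem qf_eq (R : T1 → Vec) (x : Vec) : qf R x = ∑ j, dot (R j) x ^ 2 := by
  simp only [qf, ip, sq]

theorem cv_qf (R : T1 → Vec) : ConvexOn ℝ Set.univ (qf R) :=
  ⟨convex_univ, fun x _ y _ a b ha hb hab => by
    simp only [qf_eq, dot_comb, smul_eq_mul, mul_sum, ← sum_add_distrib]
    exact sum_le_sum fun j _ => sq_comb _ _ _ _ ha hb hab⟩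

theorem cv_sq2 : ConvexOn ℝ Set.univ sq2 :=
  ⟨convex_univ, fun x _ y _ a b ha hb hab => by
    simp only [sq2, Pi.add_apply, Pi.smul_apply, smul_eq_mul, mul_sum, ← sum_add_distrib]
    exact sum_le_sum fun j _ => sq_comb _ _ _ _ ha hb hab⟩

theorem phi_mono {c p q : ℝ} (hc : 0 ≤ c) (h : p ≤ q) :
    p * max (p - c) 0 ≤ q * max (q - c) 0 := by
  rcases le_total (p - c) 0 with h1 | h1 <;> rcases le_total (q - c) 0 with h2 | h2
  · rw [max_eq_right h1, max_eq_right h2, mul_zero, mul_zero]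
  · rw [max_eq_right h1, max_eq_left h2, mul_zero]
    exact mul_nonneg (by linarith) h2
  · rw [max_eq_left h1, max_eq_right h2]
    nlinarith
  · rw [max_eq_left h1, max_eq_left h2]
    nlinarith

theorem phi_ge {c p : ℝ} (hc : 0 ≤ c) :
    0 ≤ p * max (p - c) 0 ∧ (0 ≤ p → p ^ 2 - c * p ≤ p * max (p - c) 0) := by
  refine ⟨?_, fun hp => ?_⟩
  · rcases le_total (p - c) 0 with h1 | h1
    · rw [max_eq_right h1, mul_zero]
    · rw [max_eq_left h1]
      exact mul_nonneg (by linarith) h1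
  · have := mul_le_mul_of_nonneg_left (le_max_left (p - c) 0) hp
    nlinarith

theorem phi_cv {c p q a b : ℝ} (hc : 0 ≤ c) (hp : 0 ≤ p) (hq : 0 ≤ q) (ha : 0 ≤ a) (hb : 0 ≤ b)
    (hab : a + b = 1) : (a * p + b * q) * max (a * p + b * q - c) 0
      ≤ a * (p * max (p - c) 0) + b * (q * max (q - c) 0) := by
  rcases le_total (a * p + b * q - c) 0 with h1 | h1
  · rw [max_eq_right h1, mul_zero]
    exact add_nonneg (mul_nonneg ha (phi_ge hc).1) (mul_nonneg hb (phi_ge hc).1)
  · rw [max_eq_left h1]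
    have h2 := mul_le_mul_of_nonneg_left ((phi_ge (p := p) hc).2 hp) ha
    have h3 := mul_le_mul_of_nonneg_left ((phi_ge (p := q) hc).2 hq) hb
    have h4 := sq_comb p q a b ha hb hab
    nlinarith

theorem qf_nonneg (R : T1 → Vec) (x : Vec) : 0 ≤ qf R x := by
  rw [qf_eq]; exact sum_nonneg fun j _ => sq_nonneg _

theorem cv_tl1 (D : Dat) (h : 0 ≤ D.qb) : ConvexOn ℝ Set.univ (tl1 D) :=
  ⟨convex_univ, fun x hx y hy a b ha hb hab => by
    have h1 := (cv_qf D.N).2 hx hy ha hb hab
    simp only [smul_eq_mul] at h1 ⊢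
    exact (phi_mono h h1).trans (phi_cv h (qf_nonneg _ _) (qf_nonneg _ _) ha hb hab)⟩

theorem cv_tl2 (D : Dat) : ConvexOn ℝ Set.univ (tl2 D) :=
  ⟨convex_univ, fun x hx y hy a b ha hb hab => by
    have h1 := (cv_qf D.K).2 hx hy ha hb hab
    simp only [smul_eq_mul, tl2] at h1 ⊢
    have h2 := mul_le_mul_of_nonneg_left (le_max_left (qf D.K x - D.th) 0) ha
    have h3 := mul_le_mul_of_nonneg_left (le_max_left (qf D.K y - D.th) 0) hb
    refine max_le ?_ (add_nonneg (mul_nonneg ha (le_max_right _ _))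
      (mul_nonneg hb (le_max_right _ _)))
    have h4 : D.th = a * D.th + b * D.th := by rw [← add_mul, hab, one_mul]
    nlinarith⟩

end CPER

theorem st_PER : St_PER :=
  ⟨CPER.subl, CPER.cv_qf, CPER.cv_sq2, CPER.cv_dot,
    fun D h => ⟨CPER.cv_tl1 D h, CPER.cv_tl2 D⟩⟩

end Pool.Agent.Lib.PT5
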