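import Pool.Agent.Lib.PT5.CDefs

/-! The inequality for one pair of messages. -/

namespace Pool.Agent.Lib.PT5

open Finset Real RC5

namespace PW

theorem dot_add (a x y : Vec) : dot a (x + y) = dot a x + dot a y := by
  simp only [dot, Pi.add_apply, mul_add, sum_add_distrib]

theorem dot_smul (a x : Vec) (c : ℝ) : dot a (c • x) = c * dot a x := by
  simp only [dot, Pi.smul_apply, smul_eq_mul, mul_sum]
  exact sum_congr rfl fun t _ => by ring

theorem qf_nonneg (R : T1 → Vec) (x : Vec) : 0 ≤ qf R x := by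
  unfold qf ip
  exact sum_nonneg fun _ _ => mul_self_nonneg _

theorem qf_smul (R : T1 → Vec) (x : Vec) (c : ℝ) : qf R (c • x) = c ^ 2 * qf R x := by
  simp only [qf, ip, dot_smul, mul_sum]
  exact sum_congr rfl fun t _ => by ring

theorem qf_comb (R : T1 → Vec) (x y : Vec) (a c : ℝ) :
    qf R (a • x + c • y) = a ^ 2 * qf R x + 2 * a * c * ip R x y + c ^ 2 * qf R y := by
  simp only [qf, ip, dot_add, dot_smul, mul_sum, ← sum_add_distrib]
  exact sum_congr rfl fun t _ => by ring

theorem qf_add_le (R : T1 → Vec) (x y : Vec) : qf R (x + y) ≤ 2 * (qf R x + qf R y) := by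
  simp only [qf, ip, dot_add, mul_sum, ← sum_add_distrib]
  exact sum_le_sum fun t _ => by nlinarith [sq_nonneg (dot (R t) x - dot (R t) y)]

theorem io_io : ∀ t : T1, io1 (io1 t) = t := by decide

theorem sum_io (f : T1 → ℝ) : ∑ t, f (io1 t) = ∑ t, f t :=
  (Function.Involutive.bijective io_io).sum_comp f

theorem sum_L1 (x : Vec) : ∑ t, L1 x t = ∑ t, x t := by
  rw [show ∑ t, L1 x t = ∑ t, Vm x 1 t from sum_io (Vm x 1)]
  simp only [Fintype.sum_prod_type, Fintype.sum_bool, Vm, Pi.one_apply]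
  exact sum_congr rfl fun c _ => by ring

theorem sum_const' (c : ℝ) : ∑ _t : T1, c = 10 * c := by
  rw [sum_const, card_univ, show Fintype.card T1 = 10 by decide, nsmul_eq_mul]
  norm_num

theorem sum_B0 (x y : Vec) : ∑ t, B0 x y t = 0 := by
  simp only [B0, sum_sub_distrib, sum_io (Vm x y), sum_const', bb, avg]
  ring

theorem bb_comm (x y : Vec) : bb x y = bb y x := by
  simp only [bb, avg, Vm]
  exact congrArg (· / 10) (sum_congr rfl fun t _ => by ring)

theorem Vm_nonneg {a b : Vec} (ha : ∀ t, 0 ≤ a t) (hb : ∀ t, 0 ≤ b t) (t : T1) : 0 ≤ Vm a b t := by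
  obtain ⟨c, o⟩ := t
  have h1 := mul_nonneg (ha (c, false)) (hb (c, false))
  have h2 := mul_nonneg (ha (c, false)) (hb (c, true))
  have h3 := mul_nonneg (ha (c, true)) (hb (c, false))
  have h4 := mul_nonneg (ha (c, true)) (hb (c, true))
  cases o <;> simp only [Vm] <;> nlinarith

theorem split (x y : Vec) (t : T1) :
    Am 1 (Vm (1 + x) (1 + y)) t = 1 + bb x y + ((L1 x + L1 y) t + B0 x y t) := by
  simp only [Am, Vm, L1, B0, Pi.add_apply, Pi.one_apply]
  ring

theorem tail {p q b th : ℝ} (h0 : 0 < th) (hq : 0 ≤ q) (hqp : q ≤ p) (h1 : th < b)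
    (h2 : b ^ 2 ≤ p * q) : th * (b - th) ≤ q * max (p - th) 0 := by
  refine le_trans ?_ (mul_le_mul_of_nonneg_left (le_max_left _ _) hq)
  have h3 : b ≤ p := by
    by_contra h
    nlinarith
  rcases le_total th q with h | h <;> nlinarith

theorem tail2 {p q b th : ℝ} (h0 : 0 < th) (hp : 0 ≤ p) (hq : 0 ≤ q) (h1 : th < b)
    (h2 : b ^ 2 ≤ p * q) : b - th ≤ (q * max (p - th) 0 + p * max (q - th) 0) / th := by
  rw [le_div_iff₀ h0, mul_comm]
  rcases le_total q p with h | h
  · exact (tail h0 hq h h1 h2).trans (le_add_of_nonneg_right (mul_nonneg hp (le_max_right _ _)))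
  · exact (tail h0 hp h h1 (mul_comm p q ▸ h2)).trans
      (le_add_of_nonneg_left (mul_nonneg hq (le_max_right _ _)))

theorem one_side {D : Dat} (h : D.Good) {x y : Vec} (hx : ∑ t, x t = 0) (hy : ∑ t, y t = 0) :
    bb x y ^ 2 * qf D.M2 (L1 x) ≤ D.qb * bb x y ^ 2 + qf D.Ns y * tl1 D x := by
  have h1 := mul_le_mul_of_nonneg_left (h.m2 x hx) (sq_nonneg (bb x y))
  have h2 := mul_le_mul_of_nonneg_left (le_max_left (qf D.N x - D.qb) 0) (sq_nonneg (bb x y))
  have h3 := mul_le_mul_of_nonneg_right (h.bn x y hx hy) (le_max_right (qf D.N x - D.qb) 0)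
  rw [tl1]
  nlinarith

theorem rem_le {D : Dat} (h : D.Good) {x y : Vec} (hx : ∑ t, x t = 0) (hy : ∑ t, y t = 0) :
    qf D.M (B0 x y - bb x y • (L1 x + L1 y)) ≤ qf D.M1 (B0 x y) + 2 * D.qb * bb x y ^ 2 * 2
      + 2 * (qf D.Ns y * tl1 D x + qf D.Ns x * tl1 D y) := by
  have h1 := h.spl (B0 x y) (bb x y • (L1 x + L1 y)) (sum_B0 x y) (by
    simp only [Pi.smul_apply, Pi.add_apply, smul_eq_mul, ← mul_sum, sum_add_distrib, sum_L1, hx, hy,
      add_zero, mul_zero])
  rw [qf_smul] at h1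
  have h2 := mul_le_mul_of_nonneg_left (qf_add_le D.M2 (L1 x) (L1 y)) (sq_nonneg (bb x y))
  have h3 := one_side h hx hy
  have h4 := one_side h hy hx
  rw [bb_comm y x] at h4
  linarith

theorem fin {R Q Z S th E : ℝ} (h1 : th < 1) (hS : 0 ≤ S) (hR : Z * R ≤ Q)
    (hR0 : 0 ≤ R) (hRS : R ≤ Z * S) (hE : 0 ≤ E) (hE' : Z < 1 - th → 1 - Z - th ≤ E) :
    R ≤ Q / (1 - th) + S * E := by
  have h2 : 0 < 1 - th := by linarith
  have h3 := mul_nonneg hS hE
  rcases le_or_gt (1 - th) Z with h | h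
  · have : R ≤ Q / (1 - th) := by
      rw [le_div_iff₀ h2]
      nlinarith
    linarith
  · have h4 := mul_le_mul_of_nonneg_left (hE' h) hS
    have h5 : R - S * (1 - Z - th) ≤ Q / (1 - th) := by
      rw [le_div_iff₀ h2]
      have h6 := mul_le_mul_of_nonneg_right hRS (show 0 ≤ 1 - Z - th by linarith)
      have h7 := mul_nonneg hS (sq_nonneg (1 - Z - th))
      nlinarith
    linarith

end PW

open PW in
theorem st_PW : St_PW := by
  intro D h x y hx hy
  have hw : ∀ t, 0 ≤ Am 1 (Vm (1 + x) (1 + y)) t := fun t => by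
    simp only [Am, sub_self, zero_mul, one_mul, zero_add]
    exact Vm_nonneg (fun t => by have := hx.1 t; simp only [Pi.add_apply, Pi.one_apply]; linarith)
      (fun t => by have := hy.1 t; simp only [Pi.add_apply, Pi.one_apply]; linarith) _
  have hs : ∑ t, ((L1 x + L1 y) t + B0 x y t) = 0 := by
    simp only [Pi.add_apply, sum_add_distrib, sum_L1, sum_B0, hx.2, hy.2, add_zero]
  have hZ : avg (Am 1 (Vm (1 + x) (1 + y))) = 1 + bb x y := by
    simp only [avg, split]
    rw [sum_add_distrib, hs, sum_const']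
    ring
  have hZ0 : 0 ≤ 1 + bb x y := hZ ▸ div_nonneg (sum_nonneg fun t _ => hw t) (by norm_num)
  have hQ := rem_le h hx.2 hy.2
  have hE : 0 ≤ (qf D.K y * tl2 D x + qf D.K x * tl2 D y) / D.th :=
    div_nonneg (add_nonneg (mul_nonneg (qf_nonneg _ _) (le_max_right _ _))
      (mul_nonneg (qf_nonneg _ _) (le_max_right _ _))) h.th0.le
  rw [per, hZ, div_mul_eq_mul_div, mul_div_assoc D.S]
  rcases hZ0.eq_or_lt with e | hZ0
  · have h0 : ∀ t, B0 x y t = -(L1 x + L1 y) t := fun t => by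
      have h1 := (sum_eq_zero_iff_of_nonneg (s := univ)
        (f := fun t => (L1 x + L1 y) t + B0 x y t) fun t _ => by
          have := hw t
          rwa [split, ← e, zero_add] at this).mp hs t (mem_univ t)
      linarith
    have h1 : ip D.M (L1 x + L1 y) (B0 x y) = -qf D.M (L1 x + L1 y) := by
      rw [show B0 x y = (-1 : ℝ) • (L1 x + L1 y) from funext fun t => by
        rw [h0, Pi.smul_apply, smul_eq_mul, neg_one_mul]]
      simp only [qf, ip, dot_smul, ← sum_neg_distrib]
      exact sum_congr rfl fun t _ => by ring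
    have h2 := div_nonneg ((qf_nonneg _ _).trans hQ) (sub_pos.mpr h.th1).le
    have h3 := mul_nonneg h.S0 hE
    rw [← e, h1, show 1 - bb x y = 2 by linarith]
    linarith
  · have hu : nz (Am 1 (Vm (1 + x) (1 + y))) =
        (1 + bb x y)⁻¹ • (L1 x + L1 y) + (1 + bb x y)⁻¹ • B0 x y := funext fun t => by
      rw [nz, hZ, split, Pi.add_apply _ (_ • B0 x y), Pi.smul_apply, Pi.smul_apply, smul_eq_mul,
        smul_eq_mul]
      field_simp
      ring
    have hS := h.sup (nz (Am 1 (Vm (1 + x) (1 + y)))) x y ⟨fun t => by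
      have := div_nonneg (hw t) hZ0.le
      rw [nz, hZ]
      linarith, by
      rw [hu, ← smul_add]
      simp only [Pi.smul_apply, smul_eq_mul, ← mul_sum, Pi.add_apply _ (B0 x y), hs, mul_zero]⟩ hx hy
    have e1 : nz (Am 1 (Vm (1 + x) (1 + y))) - L1 x - L1 y =
        (1 + bb x y)⁻¹ • (B0 x y - bb x y • (L1 x + L1 y)) := funext fun t => by
      simp only [hu, Pi.sub_apply, Pi.add_apply, Pi.smul_apply, smul_eq_mul]
      field_simp
      ring
    have e2 := qf_comb D.M (L1 x + L1 y) (B0 x y) (-bb x y) 1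
    rw [one_smul, neg_smul, neg_add_eq_sub] at e2
    rw [e1, qf_smul] at hS
    have key := fin (R := qf D.M (B0 x y - bb x y • (L1 x + L1 y)) / (1 + bb x y)) h.th1 h.S0
      ((mul_div_cancel₀ _ hZ0.ne').le.trans hQ) (div_nonneg (qf_nonneg _ _) hZ0.le)
      (le_trans (le_of_eq (by field_simp)) (mul_le_mul_of_nonneg_left hS hZ0.le)) hE fun hb => by
        have := tail2 (b := -bb x y) h.th0 (qf_nonneg D.K x) (qf_nonneg D.K y) (by linarith)
          (by rw [neg_sq]; exact h.bk x y hx.2 hy.2)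
        simp only [tl2]
        linarith
    have e3 : (1 + bb x y) * qf D.M (nz (Am 1 (Vm (1 + x) (1 + y)))) =
        qf D.M (L1 x + L1 y) * (1 - bb x y) + 2 * ip D.M (L1 x + L1 y) (B0 x y)
          + qf D.M (B0 x y - bb x y • (L1 x + L1 y)) / (1 + bb x y) := by
      rw [hu, qf_comb, e2]
      field_simp
      ring
    rw [e3]
    linarith

end Pool.Agent.Lib.PT5
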