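import Pool.Agent.Lib.PT5.CDefs

/-! The order of experiments is kept by one more level. -/

namespace Pool.Agent.Lib.PT5

open Finset Real RC5

namespace CTM

/-- the vertex map as a bilinear map -/
noncomputable def VL : Vec →ₗ[ℝ] Vec →ₗ[ℝ] Vec :=
  LinearMap.mk₂ ℝ Vm
    (fun a b c => by funext t; simp only [Vm, Pi.add_apply]; ring)
    (fun r a c => by funext t; simp only [Vm, Pi.smul_apply, smul_eq_mul]; ring)
    (fun a b c => by funext t; simp only [Vm, Pi.add_apply]; ring)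
    (fun r a c => by funext t; simp only [Vm, Pi.smul_apply, smul_eq_mul]; ring)

theorem avg_add (a b : Vec) : avg (a + b) = avg a + avg b := by
  simp only [avg, Pi.add_apply, sum_add_distrib]; ring

theorem avg_smul (r : ℝ) (a : Vec) : avg (r • a) = r * avg a := by
  simp only [avg, Pi.smul_apply, smul_eq_mul, ← mul_sum]; ring

/-- the mean as a linear map -/
noncomputable def avL : Vec →ₗ[ℝ] ℝ where
  toFun := avg
  map_add' := avg_add
  map_smul' := avg_smul

/-- the edge map as a linear map -/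
noncomputable def AL (s : ℝ) : Vec →ₗ[ℝ] Vec where
  toFun := Am s
  map_add' := fun a b => by funext t; simp only [Am, Pi.add_apply, avg_add]; ring
  map_smul' := fun r a => by
    funext t; simp only [Am, Pi.smul_apply, avg_smul, smul_eq_mul, RingHom.id_apply]; ring

theorem avg_one : avg 1 = 1 := by
  simp only [avg, Pi.one_apply, sum_const, card_univ, Fintype.card_prod, ZMod.card,
    Fintype.card_bool]
  norm_num

theorem avg_nonneg {a : Vec} (h : 0 ≤ a) : 0 ≤ avg a :=
  div_nonneg (sum_nonneg fun t _ => h t) (by norm_num)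

theorem Vm_one : Vm 1 1 = 1 := by
  funext t; simp only [Vm, Pi.one_apply]; norm_num

theorem Am_one (s : ℝ) : Am s 1 = 1 := by
  funext t; simp only [Am, Pi.one_apply, avg_one]; ring

theorem Vm_nonneg {a b : Vec} (ha : 0 ≤ a) (hb : 0 ≤ b) : 0 ≤ Vm a b := by
  rintro ⟨c, o⟩
  have h1 := mul_nonneg (ha (c, false)) (hb (c, false))
  have h2 := mul_nonneg (ha (c, false)) (hb (c, true))
  have h3 := mul_nonneg (ha (c, true)) (hb (c, false))
  have h4 := mul_nonneg (ha (c, true)) (hb (c, true))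
  cases o <;> simp only [Vm, Pi.zero_apply] <;> nlinarith

theorem Am_nonneg {s : ℝ} (h0 : 0 ≤ s) (h1 : s ≤ 1) {a : Vec} (ha : 0 ≤ a) : 0 ≤ Am s a :=
  fun _ => add_nonneg (mul_nonneg (sub_nonneg.2 h1) (avg_nonneg ha)) (mul_nonneg h0 (ha _))

theorem Am_split (s : ℝ) (h : Vec) : Am s h = ((1 - s) * avg h) • (1 : Vec) + s • Am 1 h := by
  funext t; simp only [Am, Pi.add_apply, Pi.smul_apply, Pi.one_apply, smul_eq_mul]; ring

theorem sum_Vm {I : Type} [Fintype I] {v : I → Vec} (hv : IsE v) :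
    ∑ i : I × I, Vm (v i.1) (v i.2) = 1 := by
  rw [Fintype.sum_prod_type]
  have : ∑ i, ∑ j, VL (v i) (v j) = VL (∑ i, v i) (∑ j, v j) := by
    rw [LinearMap.map_sum₂]
    exact sum_congr rfl fun i _ => (map_sum _ _ _).symm
  rw [hv.2] at this
  exact this.trans Vm_one

theorem isE {I : Type} [Fintype I] {v : I → Vec} (hv : IsE v) {s : ℝ} (h0 : 0 ≤ s) (h1 : s ≤ 1) :
    IsE (TE s v) := by
  refine ⟨fun i => Am_nonneg h0 h1 (Vm_nonneg (hv.1 _) (hv.1 _)), ?_⟩
  have := map_sum (AL s) (fun i : I × I => Vm (v i.1) (v i.2)) univ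
  rw [sum_Vm hv] at this
  exact this.symm.trans (Am_one s)

theorem sub_sum {F : Vec → ℝ} (hF : Subl F) {I : Type} (w : I → Vec) (hw : ∀ i, 0 ≤ w i)
    (S : Finset I) : F (∑ i ∈ S, w i) ≤ ∑ i ∈ S, F (w i) := by
  classical
  induction S using Finset.induction_on with
  | empty =>
    have := hF.2 0 0 le_rfl le_rfl
    simp only [smul_zero, zero_mul] at this
    simp [this]
  | insert a S ha ih =>
    rw [sum_insert ha, sum_insert ha]
    exact (hF.1 _ _ (hw a) (sum_nonneg fun i _ => hw i)).trans (by linarith)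

theorem sub_comp {F : Vec → ℝ} (hF : Subl F) (L : Vec →ₗ[ℝ] Vec) (hL : ∀ v, 0 ≤ v → 0 ≤ L v) :
    Subl fun v => F (L v) :=
  ⟨fun v w hv hw => by
    simp only [map_add]; exact hF.1 _ _ (hL v hv) (hL w hw),
   fun a v ha hv => by
    simp only [map_smul]; exact hF.2 a _ ha (hL v hv)⟩

theorem dom_one {I J : Type} [Fintype I] [Fintype J] {v : I → Vec} {u : J → Vec} (hv : IsE v)
    (hu : IsE u) (h : Dom v u) : Dom (TE 1 v) (TE 1 u) := by
  intro F hF
  rw [Fintype.sum_prod_type, Fintype.sum_prod_type]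
  calc ∑ i, ∑ i', F (TE 1 v (i, i')) ≤ ∑ i, ∑ j', F (Am 1 (Vm (v i) (u j'))) :=
        sum_le_sum fun i _ => h _ (sub_comp hF ((AL 1).comp (VL (v i))) fun w hw =>
          Am_nonneg zero_le_one le_rfl (Vm_nonneg (hv.1 i) hw))
    _ = ∑ j', ∑ i, F (Am 1 (Vm (v i) (u j'))) := sum_comm
    _ ≤ ∑ j', ∑ j, F (Am 1 (Vm (u j) (u j'))) :=
        sum_le_sum fun j' _ => h _ (sub_comp hF ((AL 1).comp (VL.flip (u j'))) fun w hw =>
          Am_nonneg zero_le_one le_rfl (Vm_nonneg hw (hu.1 j')))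
    _ = ∑ j, ∑ j', F (TE 1 u (j, j')) := sum_comm

end CTM

open CTM in
theorem st_TM : St_TM := by
  intro I J _ _ v u hv hu h s h0 h1
  refine ⟨isE hv h0 h1, fun F hF => ?_⟩
  have hu1 := isE hu zero_le_one le_rfl
  have e1 : F 1 ≤ ∑ j, F (TE 1 u j) := by
    have := sub_sum hF _ hu1.1 univ
    rwa [hu1.2] at this
  have e2 := dom_one hv hu h F hF
  have e3 : ∑ i : I × I, avg (Vm (v i.1) (v i.2)) = 1 := by
    have := map_sum avL (fun i : I × I => Vm (v i.1) (v i.2)) univ
    rw [sum_Vm hv] at this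
    exact this.symm.trans avg_one
  have e4 : ∀ i : I × I, F (TE s v i)
      ≤ (1 - s) * F 1 * avg (Vm (v i.1) (v i.2)) + s * F (TE 1 v i) := by
    intro i
    have hn := Vm_nonneg (hv.1 i.1) (hv.1 i.2)
    have ha := mul_nonneg (sub_nonneg.2 h1) (avg_nonneg hn)
    have hb := Am_nonneg zero_le_one le_rfl hn
    have o1 : (0 : Vec) ≤ 1 := fun _ => zero_le_one
    have := hF.1 _ _ (smul_nonneg ha o1) (smul_nonneg h0 hb)
    rw [hF.2 _ _ ha o1, hF.2 _ _ h0 hb, ← Am_split] at this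
    simp only [TE]
    linarith
  have e5 := sum_le_sum fun i (_ : i ∈ univ) => e4 i
  rw [sum_add_distrib, ← mul_sum, ← mul_sum, e3] at e5
  nlinarith [mul_le_mul_of_nonneg_left e1 (sub_nonneg.2 h1), mul_le_mul_of_nonneg_left e2 h0]

end Pool.Agent.Lib.PT5
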