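import Pool.Agent.Lib.PT5.AAll
import Pool.Agent.Lib.PT5.BAll
import Pool.Agent.Lib.PT5.C_DOM
import Pool.Agent.Lib.PT5.C_END
import Pool.Agent.Lib.PT5.C_MOM
import Pool.Agent.Lib.PT5.C_NR
import Pool.Agent.Lib.PT5.C_PER
import Pool.Agent.Lib.PT5.C_PW
import Pool.Agent.Lib.PT5.C_QK
import Pool.Agent.Lib.PT5.C_TM

/-! Assembly of the three parts. -/

namespace Pool.Agent.Lib.PT5

theorem fin_of_NR (h : St_NR) : St_FIN := fin_of_A (ann_of_NR h)

theorem nr_of_TAB (h : St_TAB) : St_NR :=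
  st_NR st_SP (st_QK st_SP) (st_DOM st_SP st_TM) st_PER (st_END st_PW st_MOM) h

theorem fin_of_TAB (h : St_TAB) : St_FIN := fin_of_NR (nr_of_TAB h)

end Pool.Agent.Lib.PT5
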