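import Pool.Agent.Lib.PT5.Defs

/-! Repair messages, late trees and their events. -/

namespace Pool.Agent.Lib.PT5

open Finset RC5

/-- `f` depends only on the coordinates with property `S` -/
def DepS {ι α β : Type} (f : (ι → α) → β) (S : ι → Prop) : Prop :=
  ∀ x y, (∀ i, S i → x i = y i) → f x = f y

/-- one step of the messages, the environment is a seed flag and a ceiling -/
def fs (D : ℕ) (e : Bool × ℕ) (a b : ℕ) : ℕ :=
  min e.2 (if e.1 = true ∨ a + b ≤ D then 1 else min (D + 1) (1 + min a b))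

section Sys
variable {V : Type}

/-- the messages at time `t` -/
def mm (D : ℕ) (m : V × Fin 3 → V × Fin 3) (en : V × Fin 3 → Bool × ℕ) : ℕ → V × Fin 3 → ℕ
  | 0, _ => D + 1
  | t + 1, d => fs D (en d) (mm D m en t (ch m d false)) (mm D m en t (ch m d true))

/-- push a value up a path, the sides have the values `σ` -/
def push (D : ℕ) (m : V × Fin 3 → V × Fin 3) (en : V × Fin 3 → Bool × ℕ) (σ : V × Fin 3 → ℕ) :
    V × Fin 3 → List Bool → ℕ → ℕ
  | _, [], a => a
  | d, b :: l, a => fs D (en d) (push D m en σ (ch m d b) l a) (σ (ch m d (!b)))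

/-- two fields agree on the sides of a path -/
def Side (m : V × Fin 3 → V × Fin 3) (σ σ' : V × Fin 3 → ℕ) : V × Fin 3 → List Bool → Prop
  | _, [] => True
  | d, b :: l => σ (ch m d (!b)) = σ' (ch m d (!b)) ∧ Side m σ σ' (ch m d b) l

/-- the path transmits a change -/
def Bl (D : ℕ) (m : V × Fin 3 → V × Fin 3) (en : V × Fin 3 → Bool × ℕ) (s : ℕ) (d : V × Fin 3)
    (w : List Bool) : Prop :=
  push D m en (mm D m en s) d w 1 ≠ push D m en (mm D m en s) d w (en (des m d w)).2

/-- the path transmits a change or its sides moved recently -/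
def Bp (D : ℕ) (m : V × Fin 3 → V × Fin 3) (en : V × Fin 3 → Bool × ℕ) (s : ℕ) (d : V × Fin 3)
    (w : List Bool) : Prop :=
  Bl D m en s d w ∨ ¬ Side m (mm D m en (s - w.length)) (mm D m en s) d w

/-- the environment of a labelling -/
def env {α : Type} (m : V × Fin 3 → V × Fin 3) (F : (TD → α) → Bool × ℕ) (x : V × Fin 3 → α) :
    V × Fin 3 → Bool × ℕ := fun d => at_ m F d x

/-- the dart `i` sits at a vertex behind the dart `e` -/
def Beh (m : V × Fin 3 → V × Fin 3) (e i : V × Fin 3) : Prop := ∃ w, (m (des m e w)).1 = i.1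

/-- the darts near the dart `e` -/
def Nb [DecidableEq V] (m : V × Fin 3 → V × Fin 3) (r : ℕ) (e : V × Fin 3) : Finset (V × Fin 3) :=
  (Ball r).image (cov m e)

/-- the changes of colour that the tree of depth `L` behind a dart absorbs -/
def ms (m : V × Fin 3 → V × Fin 3) (c : V → Star) : ℕ → V × Fin 3 → Finset (ZMod 5)
  | 0, h => stp (st c h).2 {0}
  | L + 1, h => stp (st c h).2 (ms m c L (ch m h false) ∩ ms m c L (ch m h true))

/-- the edge of the dart is not compatible or the tree behind it is not free -/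
def bad (L : ℕ) (m : V × Fin 3 → V × Fin 3) (c : V → Star) (q : V × Fin 3) : Prop :=
  st c (m q) ≠ io1 (st c q) ∨ ms m c L q ≠ univ

/-- a bad dart points to the vertex -/
def kv (L : ℕ) (m : V × Fin 3 → V × Fin 3) (c : V → Star) (v : V) : Prop :=
  ∃ i, bad L m c (m (v, i))

end Sys

/-- truth value -/
noncomputable def tv (p : Prop) : Bool := @decide p (Classical.propDecidable p)

/-- the message of the root dart -/
def mT {α : Type} (D : ℕ) (F : (TD → α) → Bool × ℕ) (t : ℕ) (x : TD → α) : ℕ :=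
  mm D tm (env tm F x) t d0

/-- the environment without ceiling -/
def noC {α : Type} (D : ℕ) (K : (TD → α) → Bool) (x : TD → α) : Bool × ℕ := (K x, D + 1)

/-- labels with a seed of probability `u` -/
@[reducible] noncomputable def sd (A : LS) (u : ℝ) : LS :=
  A.prod (coin (max 0 (min u 1)) (le_max_left _ _) (max_le zero_le_one (min_le_right _ _)))

/-- set one seed -/
def setx {ι α : Type} [DecidableEq ι] (x : ι → α × Bool) (i : ι) (c : Bool) : ι → α × Bool :=
  Function.update x i ((x i).1, c)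

/-- the seed flag with extra seeds -/
def kS {α : Type} (K : (TD → α) → Bool) (x : TD → α × Bool) : Bool :=
  K (fun i => (x i).1) || (x (tm d0)).2

/-- the environment with extra seeds and ceilings -/
def envS {α : Type} (K : (TD → α) → Bool) (o : (TD → α) → ℕ) (x : TD → α × Bool) : Bool × ℕ :=
  (kS K x, o fun i => (x i).1)

/-- the seed of the descendant `w` changes the message of the root -/
def Piv {α : Type} (D : ℕ) (F : (TD → α × Bool) → Bool × ℕ) (t : ℕ) (w : List Bool)
    (x : TD → α × Bool) : Prop :=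
  mT D F t (setx x (tm (des tm d0 w)) true) ≠ mT D F t x

/-- given the labels near the root the ceiling is reached with probability at least `q` -/
def Reach (D : ℕ) (A : LS) (u : ℝ) (K : (TD → A.L) → Bool) (o : (TD → A.L) → ℕ) (r t : ℕ)
    (q : ℝ) : Prop :=
  ∀ z : TD → A.L, q * pr (sd A u) (fun x : TD → A.L × Bool => ∀ i ∈ Ball r, (x i).1 = z i)
    ≤ pr (sd A u) fun x : TD → A.L × Bool =>
        (∀ i ∈ Ball r, (x i).1 = z i) ∧ o z ≤ mT D (envS K o) t x

/-- the event at a leaf -/
def Lf {α : Type} (D : ℕ) (F : (TD → α) → Bool × ℕ) (r s : ℕ) (x : TD → α) : Prop :=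
  ∃ w ∈ words (r + 1), mm D tm (env tm F x) (s - r) (des tm d0 w)
    ≠ mm D tm (env tm F x) (s - r - 1) (des tm d0 w)

/-- the event in the middle of a long run -/
def Bk {α : Type} (D : ℕ) (F : (TD → α) → Bool × ℕ) (r s k : ℕ) (W : List Bool) (x : TD → α) :
    Prop :=
  Bp D tm (env tm F x) s (des tm d0 (W.take (r + 1))) ((W.drop (r + 1)).take k)

/-- after time `s` changes are rare -/
structure Calm (D : ℕ) (A : LS) (F : (TD → A.L) → Bool × ℕ) (r s k : ℕ) : Prop where
  dep : Dep F (Ball r)
  one : ∀ x, 1 ≤ (F x).2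
  late : k + r + 2 ≤ s
  few : pr A (fun x => mT D F s x < D + 1) ≤ 1 / 100
  blk : ∑ w ∈ words k, pr A (fun x => Bp D tm (env tm F x) s d0 w) ≤ 1 / (8 * 4 ^ (r + 1))
  lf : pr A (Lf D F r s) ≤ 1 / (400 * 4 ^ (k + 2 * r + 2))

/-- shapes of late trees -/
inductive Tr : Type
  | lf : Tr
  | un : Bool → Tr → Tr
  | bi : Tr → Tr → Tr
  deriving DecidableEq

/-- number of nodes -/
def Tr.sz : Tr → ℕ
  | .lf => 1
  | .un _ t => t.sz + 1
  | .bi s t => s.sz + t.sz + 1

/-- the nodes as words -/
def Tr.nd : Tr → Finset (List Bool)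
  | .lf => {[]}
  | .un b t => insert [] (t.nd.image (List.cons b))
  | .bi s t => insert [] (s.nd.image (List.cons false) ∪ t.nd.image (List.cons true))

/-- shapes of height at most `h` -/
def upto : ℕ → Finset Tr
  | 0 => ∅
  | h + 1 => insert .lf (((univ : Finset Bool) ×ˢ upto h).image (fun p => .un p.1 p.2)
      ∪ (upto h ×ˢ upto h).image fun p => .bi p.1 p.2)

/-- the event of a shape below the run `w` -/
def Ev {α : Type} (n : ℕ) (P : (TD → α) → Prop) (Q : List Bool → (TD → α) → Prop) :
    Tr → List Bool → (TD → α) → Prop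
  | .lf, w, x => at_ tm P (des tm d0 w) x
  | .un b t, w, x => if w.length + 1 = n then
      Q (w ++ [b]) x ∧ at_ tm (Ev n P Q t []) (des tm d0 (w ++ [b])) x else Ev n P Q t (w ++ [b]) x
  | .bi s t, w, x => at_ tm (Ev n P Q s []) (des tm d0 (w ++ [false])) x ∧
      at_ tm (Ev n P Q t []) (des tm d0 (w ++ [true])) x

/-- the weight of a shape below the run `w` -/
def pw2 (n : ℕ) (p : ℝ) (q : List Bool → ℝ) : Tr → List Bool → ℝ
  | .lf, _ => p
  | .un b t, w => if w.length + 1 = n then q (w ++ [b]) * pw2 n p q t [] else pw2 n p q t (w ++ [b])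
  | .bi s t, _ => pw2 n p q s [] * pw2 n p q t []

/-- the darts near the nodes of a shape -/
def supT (R : ℕ) (Y : Tr) : Finset TD := Y.nd.biUnion fun v => Nb tm R (des tm d0 v)

/-- the absorbed changes of colour of a pattern -/
def msP : ∀ k, Bool → Pt k → Finset (ZMod 5)
  | 0, d, _ => stp d {0}
  | k + 1, d, p => stp d (msP k (p.1.2 1) p.2.1 ∩ msP k (p.1.2 2) p.2.2)

/-- bad patterns -/
def BadP (k : ℕ) (p : Pt (k + 1) × Pt (k + 1)) : Prop :=
  top p.2 ≠ io1 (top p.1) ∨ msP (k + 1) (top p.1).2 p.2 ≠ univ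

end Pool.Agent.Lib.PT5
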