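import Pool.Agent.Lib.RC5.Blue
import Pool.Agent.Lib.PT5.BDefs

/-! Statements of the blocks of the repair argument. -/

namespace Pool.Agent.Lib.PT5

open Finset RC5

/-- input: symmetric processes close to the tree measure -/
def St_BA : Prop :=
  ∀ (k : ℕ) (ε : ℝ), 0 < ε → ∃ P : Proc, ∑ p, |nuE P k p - muE 1 k p| ≤ ε

/-- input: sparse local events have no core -/
def St_BCORE : Prop :=
  ∃ c : ℝ, 0 < c ∧ ∀ k : ℕ, 1 ≤ k → ∀ (A : LS) (E E' X : (TD → A.L) → Prop),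
    Loc E → Loc E' → Loc X → (∀ x, E x → E' x) → pr A E' + pr A X ≤ c ^ k →
    (∀ x, E x → ∀ b, ∃ w : List Bool, w.length < k ∧
      (at_ tm E' (des tm d0 (b :: w)) x ∨ at_ tm X (des tm d0 (b :: w)) x)) →
    pr A E ≤ 12 * (1 + 3 * k) * (pr A X + pr A E' - pr A E)

/-- input: no short cycle gives tree-like balls -/
def St_BINJ : Prop :=
  ∀ r : ℕ, ∃ g : ℕ, ∀ (n : ℕ) (m : HE n → HE n), IsM m → (∀ h, ¬ OnCyc m g h) → Inj m r

/-- GR: from a graph to a matching -/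
def St_GR : Prop :=
  ∀ (g : ℕ) (V : Type) [Fintype V] (G : SimpleGraph V) [DecidableRel G.Adj],
    G.IsRegularOfDegree 3 → (g : ℕ∞) ≤ G.egirth →
    ∃ (n : ℕ) (m : HE n → HE n), IsM m ∧ (∀ h, ¬ OnCyc m g h) ∧
      (Col m → Nonempty (G →g SimpleGraph.cycleGraph 5))

/-- LEVM: levels from a fixed point of the messages -/
def St_LEVM : Prop :=
  ∀ (n L D : ℕ) (m : HE n → HE n) (κ : Fin n → Bool) (M : HE n → ℕ), IsM m → 2 * L + 4 ≤ D →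
    (∀ d, M d = fs D (κ (m d).1, D + 1) (M (ch m d false)) (M (ch m d true))) →
    ∃ lev par, Lev m (sel univ fun v => ∃ i, M (m (v, i)) = 1) L lev par

/-- EXT2: free trees absorb any colouring of `R` -/
def St_EXT2 : Prop :=
  ∀ (n L : ℕ) (m : HE n → HE n) (R : Finset (Fin n)) (lev : Fin n → ℕ) (par : Fin n → Fin 3)
    (a : Lab n) (c : Fin n → ZMod 5), IsM m → Lev m R L lev par →
    (∀ q : HE n, (m q).1 ∉ R → ¬ bad L m a q) →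
    ∃ col : Fin n → ZMod 5, (∀ v ∈ R, col v = c v) ∧
      ∀ h : HE n, h.1 ∉ R ∨ (m h).1 ∉ R → Ad (col h.1) (col (m h).1)

/-- REP2: repair (from LEVM, EXT2) -/
def St_REP2 : Prop :=
  ∀ (n L : ℕ) (m : HE n → HE n), IsM m →
    (∀ v : Fin n, ∃ a : Lab n, ∀ i t,
      mm (2 * L + 4) m (fun d => (tv (kv L m a (m d).1), 2 * L + 4 + 1)) t (m (v, i))
        = 2 * L + 4 + 1) → Col m

/-- MU: bad patterns in the tree measure -/
def St_MU : Prop :=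
  ∀ (k : ℕ) (u : ℝ), (∀ d, nf (k + 1) d ≤ u) → ∑ p, muE 1 k p * ind (BadP k p) ≤ u

/-- NAT: bad darts are local and natural -/
def St_NAT : Prop :=
  (∀ (P : Proc) (L : ℕ) (t : TD), Loc fun x => bad L tm (cfg P tm x) t) ∧
  (∀ (P : Proc) (L : ℕ) (V : Type) (m : V × Fin 3 → V × Fin 3) (d : V × Fin 3)
    (x : V × Fin 3 → P.A.L) (t : TD), IsM m →
    (bad L tm (cfg P tm (x ∘ cov m d)) t ↔ bad L m (cfg P m x) (cov m d t))) ∧
  ∀ (V : Type) (m : V × Fin 3 → V × Fin 3) (c : V → Star) (k : ℕ) (d : V × Fin 3), IsM m →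
    (bad (k + 1) m c d ↔ BadP k (patE m c k d))

/-- K0: bad vertices are rare (from BA, FN2, MU, NAT) -/
def St_K0 : Prop :=
  ∀ c : ℝ, 0 < c → ∃ (L : ℕ) (P : Proc),
    pr P.A (fun x => kv L tm (cfg P tm x) (tm d0).1) ≤ c ^ (2 * L + 4)

/-- SMALL: few messages are finite (from BCORE) -/
def St_SMALL : Prop :=
  ∃ c : ℝ, 0 < c ∧ ∀ D : ℕ, 1 ≤ D → ∀ (A : LS) (K : (TD → A.L) → Bool), Loc K →
    pr A (fun x => K x = true) ≤ c ^ D →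
    ∀ t, pr A (fun x => mT D (noC D K) t x < D + 1) ≤ 1 / 100

/-- CEIL: ceilings -/
def St_CEIL : Prop :=
  ∀ (D r : ℕ) (A : LS) (K : (TD → A.L) → Bool) (u q : ℝ), Dep K (Ball r) →
    (∀ t, pr (sd A u) (fun x => mT D (noC D (kS K)) t x < D + 1) ≤ q) →
    ∃ o : (TD → A.L) → ℕ, Dep o (Ball r) ∧ (∀ z, 1 ≤ o z) ∧ ∃ w : ℝ, 0 < w ∧ ∀ t,
      pr (sd A u) (fun x => mT D (envS K o) t x < D + 1) ≤ q ∧ Reach D A u K o r t w

/-- RUS: pivotal seeds -/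
def St_RUS : Prop :=
  ∀ (ι : Type) [DecidableEq ι] (A : LS) (f : (ι → A.L × Bool) → ℝ) (S : Finset ι) (a b : ℝ),
    Loc f → (∀ x i, f x ≤ f (setx x i true)) → 0 ≤ a → a ≤ b → b ≤ 1 →
    ∃ v, a ≤ v ∧ v ≤ b ∧
      (b - a) * ∑ i ∈ S, mn (sd A v) (fun x => f (setx x i true) - f x)
        ≤ mn (sd A b) f - mn (sd A a) f

/-- CI: conditional independence -/
def St_CI : Prop :=
  ∀ (ι γ : Type) [DecidableEq ι] [Fintype γ] (A : LS) (π : A.L → γ) (Z : Finset ι) (S : ι → Prop)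
    (E G : (ι → A.L) → Prop) (q : ℝ), Loc E → Loc G →
    (∀ x y, (∀ i, ¬ S i → x i = y i) → (∀ i ∈ Z, π (x i) = π (y i)) → E x → E y) →
    (∀ x y, (∀ i, S i → x i = y i) → (∀ i ∈ Z, π (x i) = π (y i)) → G x → G y) →
    (∀ z : ι → γ, q * pr A (fun x => ∀ i ∈ Z, π (x i) = z i)
      ≤ pr A fun x => (∀ i ∈ Z, π (x i) = z i) ∧ G x) →
    q * pr A E ≤ pr A fun x => E x ∧ G x

/-- GEO: geometry of the tree -/
def St_GEO : Prop :=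
  (∀ e i : TD, ¬ (Beh tm (ch tm e false) i ∧ Beh tm (ch tm e true) i)) ∧
  (∀ (r : ℕ) (e i : TD) (w : List Bool), r + 1 ≤ w.length → i ∈ Nb tm r (des tm e w) →
    Beh tm e i) ∧
  (∀ (r : ℕ) (e i : TD) (w : List Bool), i ∈ Nb tm r (des tm e w) →
    Beh tm e i ∨ i ∈ Nb tm r e) ∧
  (∀ (r : ℕ) (g i : TD) (w : List Bool), i ∈ Nb tm r g → Beh tm (des tm g w) i →
    i ∈ Nb tm r (des tm g w)) ∧
  (∀ (r : ℕ) (g i : TD) (b : Bool) (v w : List Bool), i ∈ Nb tm r (des tm g ((!b) :: v)) →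
    Beh tm (des tm g (b :: w)) i → i ∈ Nb tm r (des tm g (b :: w))) ∧
  (∀ (r : ℕ) (e i : TD) (w : List Bool), r + 1 ≤ w.length → i ∈ Nb tm r e →
    ¬ Beh tm (des tm e w) i) ∧
  (∀ (g : TD) (b : Bool) (w : List Bool), ¬ Beh tm (des tm g (b :: w)) (tm g)) ∧
  (∀ (e : TD) (v w : List Bool), des tm e v = des tm e w → v = w) ∧
  ∀ (r : ℕ) (w : List Bool), Nb tm r (des tm d0 w) ⊆ Ball (r + w.length)

/-- PIG: a good density of seeds, depth and time (from RUS, GEO) -/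
def St_PIG : Prop :=
  ∀ (D r : ℕ) (A : LS) (K : (TD → A.L) → Bool) (o : (TD → A.L) → ℕ) (u θ : ℝ),
    Dep K (Ball r) → Dep o (Ball r) → 0 < u → u ≤ 1 → 0 < θ →
    ∃ J : ℕ, ∀ (η : ℝ) (a : ℕ), 0 < η → ∃ (v : ℝ) (k s : ℕ), 0 ≤ v ∧ v ≤ u ∧ k ≤ J ∧ a ≤ s ∧
      ∑ w ∈ words k, pr (sd A v) (Piv D (envS K o) (s + k) w) ≤ θ ∧
      pr (sd A v) (fun x => mT D (envS K o) (s - a) x ≠ mT D (envS K o) (s + a) x) ≤ η

/-- BLK: a transmitting path is often pivotal (from CI, GEO) -/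
def St_BLK : Prop :=
  ∀ (D r s : ℕ) (A : LS) (K : (TD → A.L) → Bool) (o : (TD → A.L) → ℕ) (v q : ℝ) (w : List Bool),
    Dep K (Ball r) → Dep o (Ball r) → (∀ z, 1 ≤ o z) → 1 ≤ s → Reach D A v K o r s q →
    q * pr (sd A v) (fun x => Bl D tm (env tm (envS K o) x) s d0 w)
      ≤ pr (sd A v) (Piv D (envS K o) (s + w.length) w) + w.length *
        pr (sd A v) fun x => mT D (envS K o) s x ≠ mT D (envS K o) (s + w.length) x

/-- CALM (from SMALL, CEIL, RUS, PIG, BLK) -/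
def St_CALM : Prop :=
  ∃ c : ℝ, 0 < c ∧ ∀ D : ℕ, 1 ≤ D → ∀ (A : LS) (K : (TD → A.L) → Bool) (r : ℕ), Dep K (Ball r) →
    pr A (fun x => K x = true) ≤ c ^ D →
    ∃ (v : ℝ) (o : (TD → A.L) → ℕ) (s k : ℕ), Calm D (sd A v) (envS K o) r s k

/-- SUP: supports of the two events (from GEO) -/
def St_SUP : Prop :=
  ∀ (α : Type) (D r s k : ℕ) (F : (TD → α) → Bool × ℕ), Dep F (Ball r) →
    (∃ R, Dep (mT D F s) (Ball R) ∧ Dep (Lf D F r s) (Ball R) ∧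
      ∀ W, Dep (Bk D F r s k W) (Ball R)) ∧
    DepS (Lf D F r s) (Beh tm d0) ∧
    ∀ W : List Bool, W.length = k + 2 * r + 2 →
      DepS (Bk D F r s k W) fun i => Beh tm d0 i ∧ ¬ Beh tm (des tm d0 W) i

/-- EVP: probability of the event of a shape (from GEO) -/
def St_EVP : Prop :=
  ∀ (A : LS) (n : ℕ) (P : (TD → A.L) → Prop) (Q : List Bool → (TD → A.L) → Prop) (p : ℝ)
    (q : List Bool → ℝ), Loc P → (∀ W, Loc (Q W)) → DepS P (Beh tm d0) →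
    (∀ W : List Bool, W.length = n →
      DepS (Q W) fun i => Beh tm d0 i ∧ ¬ Beh tm (des tm d0 W) i) →
    pr A P ≤ p → (∀ W, pr A (Q W) ≤ q W) → ∀ Y w, pr A (Ev n P Q Y w) ≤ pw2 n p q Y w

/-- EVD: support of the event of a shape -/
def St_EVD : Prop :=
  ∀ (α : Type) (n R : ℕ) (P : (TD → α) → Prop) (Q : List Bool → (TD → α) → Prop),
    Dep P (Ball R) → (∀ W, Dep (Q W) (Ball R)) → ∀ Y, Dep (Ev n P Q Y []) (supT R Y)

/-- GF: generating function of the weights -/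
def St_GF : Prop :=
  ∀ (n : ℕ) (p x : ℝ) (q : List Bool → ℝ), 1 ≤ n → 0 ≤ p → p ≤ 1 / (400 * 4 ^ n) →
    (∀ W, 0 ≤ q W) → ∑ W ∈ words n, q W ≤ 1 / 8 → 1 ≤ x → x ^ n ≤ 2 →
    ∀ h, ∑ Y ∈ upto h, pw2 n p q Y [] * x ^ Y.sz ≤ 1 / 100

/-- CAU: a late change has a causal tree -/
def St_CAU : Prop :=
  ∀ (α : Type) (D r s k N t : ℕ) (F : (TD → α) → Bool × ℕ) (x : TD → α), (∀ y, 1 ≤ (F y).2) →
    k + r + 2 ≤ s → s ≤ t → mT D F t x ≠ mT D F s x →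
    (∃ Y : Tr, Y.sz ≤ 2 * N + 1 ∧ Ev (k + 2 * r + 2) (Lf D F r s) (Bk D F r s k) Y [] x) ∨
    ∃ (e : TD) (Y : Tr), N < Y.sz ∧ Y.sz ≤ 2 * N + 1 ∧
      at_ tm (Ev (k + 2 * r + 2) (Lf D F r s) (Bk D F r s k) Y []) e x

/-- LLL: local lemma with weights -/
def St_LLL : Prop :=
  ∀ (ι J : Type) [Fintype ι] [DecidableEq ι] (A : LS) (I : Finset J)
    (E : J → (ι → A.L) → Prop) (sup : J → Finset ι) (p : J → ℝ),
    (∀ j ∈ I, Dep (E j) (sup j)) → (∀ j ∈ I, pr A (E j) ≤ p j) → (∀ j ∈ I, p j ≤ 1 / 4) →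
    (∀ j ∈ I, ∑ k ∈ sel I fun k => ¬ Disjoint (sup j) (sup k), p k ≤ 1 / 4) →
    ∃ x, ∀ j ∈ I, ¬ E j x

/-- AVOID: labels without large late trees (from LLL, GEO) -/
def St_AVOID : Prop :=
  ∀ (A : LS) (R : ℕ) (E0 : (TD → A.L) → Prop) (E : Tr → (TD → A.L) → Prop) (p : Tr → ℝ) (z : ℝ),
    Dep E0 (Ball R) → (∀ Y, Dep (E Y) (supT R Y)) → pr A E0 ≤ 1 / 100 →
    (∀ Y, pr A (E Y) ≤ p Y) → 1 < z → (∀ h, ∑ Y ∈ upto h, p Y * z ^ Y.sz ≤ 1 / 100) →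
    ∃ N R' : ℕ, ∀ (n : ℕ) (m : HE n → HE n), IsM m → Inj m R' → ∀ S : Finset (HE n), S.card ≤ 3 →
      ∃ x : HE n → A.L,
        (∀ a ∈ S, ¬ at_ m E0 a x ∧ ∀ Y : Tr, Y.sz ≤ 2 * N + 1 → ¬ at_ m (E Y) a x) ∧
        ∀ (e : HE n) (Y : Tr), N < Y.sz → Y.sz ≤ 2 * N + 1 → ¬ at_ m (E Y) e x

/-- BOOT: labels that keep three messages infinite (from SUP, EVP, EVD, GF, CAU, AVOID) -/
def St_BOOT : Prop :=
  ∀ (D : ℕ) (A : LS) (F : (TD → A.L) → Bool × ℕ) (r s k : ℕ), Calm D A F r s k →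
    ∃ R : ℕ, ∀ (n : ℕ) (m : HE n → HE n), IsM m → Inj m R → ∀ S : Finset (HE n), S.card ≤ 3 →
      ∃ x : HE n → A.L, ∀ a ∈ S, ∀ t, mm D m (env m F x) t a = D + 1

/-- FIN (from BINJ, GR, REP2, NAT, K0, CALM, BOOT) -/
def St_FIN : Prop :=
  ∃ g : ℕ, ∀ (V : Type) [Fintype V] (G : SimpleGraph V) [DecidableRel G.Adj],
    G.IsRegularOfDegree 3 → (g : ℕ∞) ≤ G.egirth → Nonempty (G →g SimpleGraph.cycleGraph 5)

end Pool.Agent.Lib.PT5
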