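import Pool.Agent.Lib.PT5.BK5
import Pool.Agent.Lib.PT5.BD_C1
import Pool.Agent.Lib.PT5.BD_C2
import Pool.Agent.Lib.PT5.BD_C3
import Pool.Agent.Lib.PT5.BD_C4
import Pool.Agent.Lib.PT5.BD_C5
import Pool.Agent.Lib.PT5.BD_C6
import Pool.Agent.Lib.PT5.BD_C7
import Pool.Agent.Lib.PT5.BD_C8
import Pool.Agent.Lib.PT5.BD_C9
import Pool.Agent.Lib.PT5.BD_C10
import Pool.Agent.Lib.PT5.BD_C11
import Pool.Agent.Lib.PT5.BD_C12
import Pool.Agent.Lib.PT5.BD_C13
import Pool.Agent.Lib.PT5.BD_C14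
import Pool.Agent.Lib.PT5.BD_C15
import Pool.Agent.Lib.PT5.BD_C16
import Pool.Agent.Lib.PT5.BD_C17
import Pool.Agent.Lib.PT5.BD_C18
import Pool.Agent.Lib.PT5.BD_C19
import Pool.Agent.Lib.PT5.BD_C20
import Pool.Agent.Lib.PT5.BD_C21
import Pool.Agent.Lib.PT5.BD_C22
import Pool.Agent.Lib.PT5.BD_C23
import Pool.Agent.Lib.PT5.BD_C24
import Pool.Agent.Lib.PT5.BD_C25
import Pool.Agent.Lib.PT5.BD_C26
import Pool.Agent.Lib.PT5.BD_C27
import Pool.Agent.Lib.PT5.BD_C28
import Pool.Agent.Lib.PT5.BD_C29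
import Pool.Agent.Lib.PT5.BD_C30
import Pool.Agent.Lib.PT5.BD_C31
import Pool.Agent.Lib.PT5.BD_C32

/-! The chain of experiments. -/

set_option maxRecDepth 100000

namespace Pool.Agent.Lib.PT5.BK

instance tA : Fact (tabChk tabA 250 = true) := ⟨by decide +kernel⟩

instance fA : Fact (fin 250 wA pA32 = true) := ⟨by decide +kernel⟩

theorem tabA_ok : Tab tabA 250 := tab_ok tA.out

theorem covA : Cov tabA 250 wA (250 * 250) pA32 :=
  have h0 := cov_zero (tab := tabA) (K := 250) wA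
  have h1 := chk_ok tabA_ok h0 cA1.out
  have h2 := chk_ok tabA_ok h1 cA2.out
  have h3 := chk_ok tabA_ok h2 cA3.out
  have h4 := chk_ok tabA_ok h3 cA4.out
  have h5 := chk_ok tabA_ok h4 cA5.out
  have h6 := chk_ok tabA_ok h5 cA6.out
  have h7 := chk_ok tabA_ok h6 cA7.out
  have h8 := chk_ok tabA_ok h7 cA8.out
  have h9 := chk_ok tabA_ok h8 cA9.out
  have h10 := chk_ok tabA_ok h9 cA10.out
  have h11 := chk_ok tabA_ok h10 cA11.out
  have h12 := chk_ok tabA_ok h11 cA12.out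
  have h13 := chk_ok tabA_ok h12 cA13.out
  have h14 := chk_ok tabA_ok h13 cA14.out
  have h15 := chk_ok tabA_ok h14 cA15.out
  have h16 := chk_ok tabA_ok h15 cA16.out
  have h17 := chk_ok tabA_ok h16 cA17.out
  have h18 := chk_ok tabA_ok h17 cA18.out
  have h19 := chk_ok tabA_ok h18 cA19.out
  have h20 := chk_ok tabA_ok h19 cA20.out
  have h21 := chk_ok tabA_ok h20 cA21.out
  have h22 := chk_ok tabA_ok h21 cA22.out
  have h23 := chk_ok tabA_ok h22 cA23.out
  have h24 := chk_ok tabA_ok h23 cA24.out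
  have h25 := chk_ok tabA_ok h24 cA25.out
  have h26 := chk_ok tabA_ok h25 cA26.out
  have h27 := chk_ok tabA_ok h26 cA27.out
  have h28 := chk_ok tabA_ok h27 cA28.out
  have h29 := chk_ok tabA_ok h28 cA29.out
  have h30 := chk_ok tabA_ok h29 cA30.out
  have h31 := chk_ok tabA_ok h30 cA31.out
  have h32 := chk_ok tabA_ok h31 cA32.out
  h32

theorem lenA : pA32.length = 124 := by decide +kernel

theorem w0A : wA.getD 0 0 = 4294967296 := by decide +kernel

theorem domA (hM : St_MD) (hC : St_CD) (hD : St_DOM) (hv : ∀ k b, 0 ≤ vS 1 k b) :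
    ∀ t ≤ 124, Dom (vS 1 t) (Ex tabA 250 (wA.getD t 0)) := fun t ht => by
  have h := phase hM hC hv tabA_ok covA fA.out (k := 0) (w0A ▸ start hM hD tabA_ok) t (lenA ▸ ht)
  rwa [Nat.zero_add] at h

end Pool.Agent.Lib.PT5.BK
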