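import Pool.Agent.Lib.PT5.DDefs
import Pool.Agent.Lib.PT5.C_TM

/-! Row CD: chains of experiments for the order `Dom`. -/

namespace Pool.Agent.Lib.PT5

open Finset Real RC5

namespace CCD

open CTM in
theorem dom_two {I I' J J' : Type} [Fintype I] [Fintype I'] [Fintype J] [Fintype J'] {v : I → Vec}
    {v' : I' → Vec} {u : J → Vec} {u' : J' → Vec} (hv : ∀ i, 0 ≤ v i) (hu : ∀ j, 0 ≤ u' j)
    (h1 : Dom v v') (h2 : Dom u u') : Dom (T2 v u) (T2 v' u') := by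
  intro F hF
  rw [Fintype.sum_prod_type, Fintype.sum_prod_type]
  calc ∑ i, ∑ j, F (T2 v u (i, j)) ≤ ∑ i, ∑ j', F (Am 1 (Vm (v i) (u' j'))) :=
        sum_le_sum fun i _ => h2 _ (sub_comp hF ((AL 1).comp (VL (v i))) fun w hw =>
          Am_nonneg zero_le_one le_rfl (Vm_nonneg (hv i) hw))
    _ = ∑ j', ∑ i, F (Am 1 (Vm (v i) (u' j'))) := sum_comm
    _ ≤ ∑ j', ∑ i', F (Am 1 (Vm (v' i') (u' j'))) :=
        sum_le_sum fun j' _ => h1 _ (sub_comp hF ((AL 1).comp (VL.flip (u' j'))) fun w hw =>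
          Am_nonneg zero_le_one le_rfl (Vm_nonneg hw (hu j')))
    _ = ∑ i', ∑ j', F (T2 v' u' (i', j')) := sum_comm

end CCD

theorem st_CD (hSP : St_SP) (hDOM : St_DOM) : St_CD := by
  refine ⟨fun I I' J J' _ _ _ _ v v' u u' _ _ hv hu h1 h2 => CCD.dom_two hv hu h1 h2, ?_⟩
  intro I _ E k hE h0
  induction k with
  | zero =>
    intro _ F hF
    exact ((hDOM 0).2.2 F hF).trans (h0 F hF)
  | succ k ih =>
    intro hs F hF
    have h1 : Dom (vS 1 k) (E k) := ih fun n hn => hs n (Nat.lt_succ_of_lt hn)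
    have hv : ∀ b, 0 ≤ vS 1 k b := (((hSP 1 k).2.2 zero_le_one le_rfl).1).1
    exact (CCD.dom_two hv (hE k) h1 h1 F hF).trans (hs k (Nat.lt_succ_self k) F hF)

end Pool.Agent.Lib.PT5
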