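import Pool.Agent.Lib.PT5.BK4

/-! Checker for tables of splittings into rays: the table of orbits. -/

namespace Pool.Agent.Lib.PT5.BK

open Finset RC5 Pool.Agent.Lib.VC2.TB

/-- the action on positions -/
def pm (g x : ℕ) : ℕ :=
  Nat.add (Nat.mul 2 (Nat.mod (Nat.add (Nat.mul (Nat.div x 2) (Nat.succ (Nat.mul 3 (Nat.mod g 2))))
    (Nat.div g 2)) 5)) (Nat.mod (Nat.add x g) 2)

lemma pm_ix : ∀ (g : D5) (t : T1), pm (ix g) (ix t) = ix (g1 g t) := by decide +kernel

lemma pm_lt : ∀ g < 10, ∀ x < 10, pm g x < 10 := by decide +kernel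

noncomputable def s10 (b : ℕ) : ℕ := Nat.rec 0 (fun x ih => Nat.add ih (lane 44 b x)) 10

lemma s10_eq (b : ℕ) : s10 b = ∑ x ∈ range 10, lane 44 b x := by
  simp only [sum_range_succ, sum_range_zero]; rfl

/-- the test of a table of orbits -/
noncomputable def tabChk (tab K : ℕ) : Bool :=
  force tab fun tab => (((Nat.blt 0 K).and (Nat.ble K 820)).and
    ((Nat.beq (Nat.shiftRight tab (Nat.mul 4400 K)) 0).and (Nat.beq (lane 44 tab 0) 4096))).and
    (allLt K fun l => force (slice 44 tab (Nat.mul 100 l) 100) fun b =>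
      (Nat.beq (s10 b) 4096).and (allLt 10 fun g => allLt 10 fun x =>
        Nat.beq (lane 44 b (Nat.add (Nat.mul 10 g) x)) (lane 44 b (pm g x))))

theorem tab_ok {tab K : ℕ} (h : tabChk tab K = true) : Tab tab K := by
  rw [tabChk, force_eq] at h
  simp only [Bool.and_eq_true, Nat.blt_eq, Nat.ble_eq, Nat.beq_eq] at h
  obtain ⟨⟨⟨h1, h2⟩, h3, h4⟩, h5⟩ := h
  have e : ∀ l, ∀ q < 100, lane 44 (slice 44 tab (Nat.mul 100 l) 100) q
      = lane 44 tab (100 * l + q) := fun l q hq => by
    rw [slice_eq_pk, lane_pk (fun _ _ => lane_lt _ _ _) hq, Nat.mul_eq]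
  have hs : ∀ l < K, ∑ x ∈ range 10, lane 44 tab (100 * l + x) = 4096 := fun l hl => by
    have := allLt_ok h5 l hl
    rw [force_eq, Bool.and_eq_true, Nat.beq_eq, s10_eq] at this
    rw [← this.1]
    exact sum_congr rfl fun x hx => (e l x (by have := mem_range.1 hx; omega)).symm
  have hp : ∀ l < K, ∀ g < 10, ∀ x < 10,
      lane 44 tab (100 * l + (10 * g + x)) = lane 44 tab (100 * l + pm g x) :=
    fun l hl g hg x hx => by
      have := allLt_ok h5 l hl
      rw [force_eq, Bool.and_eq_true] at this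
      have := Nat.eq_of_beq_eq_true (allLt_ok (allLt_ok this.2 g hg) x hx)
      exact (e l _ (show 10 * g + x < 100 by omega)).symm.trans
        (this.trans (e l _ (by have := pm_lt g hg x hx; omega)))
  have h0 : ∀ q, 100 * K ≤ q → lane 44 tab q = 0 := fun q hq => by
    rw [Nat.shiftRight_eq, Nat.shiftRight_eq_div_pow, Nat.div_eq_zero_iff_lt (by positivity),
      Nat.mul_eq] at h3
    rw [lane_eq, Nat.div_eq_of_lt (h3.trans_le (Nat.pow_le_pow_right (by norm_num) (by omega))),
      Nat.zero_mod]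
  refine ⟨fun q => ?_, fun l g => funext fun t => ?_, funext fun t => ?_, fun l hl => ?_, h1,
    Kb_eq ▸ h2⟩
  · rcases lt_or_ge q (100 * K) with hq | hq
    · have h6 := hp (q / 100) (by omega) (q % 100 / 10) (by omega) (q % 10) (by omega)
      rw [show 100 * (q / 100) + (10 * (q % 100 / 10) + q % 10) = q by omega] at h6
      rw [h6, ← hs (q / 100) (by omega)]
      exact single_le_sum (f := fun x => lane 44 tab (100 * (q / 100) + x))
        (fun _ _ => Nat.zero_le _) (mem_range.2 (pm_lt _ (by omega) _ (by omega)))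
    · rw [h0 q hq]; norm_num
  · simp only [ray, vec, Function.comp, Nat.cast_inj]
    rcases lt_or_ge l K with hl | hl
    · rw [← pm_ix, show 10 * (10 * l) = 100 * l by ring, ← hp l hl _ (ix_lt g) _ (ix_lt t)]
      congr 1; ring
    · rw [h0 _ (by omega), h0 _ (by omega)]
  · have h6 := hs 0 h1
    simp only [mul_zero, zero_add] at h6
    simp only [ray, vec, mul_zero, zero_add, dl, Pi.smul_apply, Pi.single_apply, smul_eq_mul]
    split_ifs with ht
    · rw [ht, show ix (0, false) = 0 from rfl, h4]; norm_num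
    · obtain ⟨y, hy⟩ : ∃ y, ix t = y + 1 := ⟨ix t - 1, by revert t; decide +kernel⟩
      rw [sum_range_succ', h4] at h6
      have := single_le_sum (f := fun x => lane 44 tab (x + 1)) (fun _ _ => Nat.zero_le _)
        (mem_range.2 (show y < 9 by have := ix_lt t; omega))
      rw [hy, show lane 44 tab (y + 1) = 0 by omega]; norm_num
  · have := sum_ix fun x => (lane 44 tab (100 * l + x) : ℝ)
    rw [← Nat.cast_sum, hs l hl] at this
    simp only [ray, vec, show 10 * (10 * l) = 100 * l by ring]
    exact_mod_cast this.symm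

end Pool.Agent.Lib.PT5.BK
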