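import Pool.Agent.Lib.PT5.C_FIT
import Pool.Agent.Lib.PT5.C_DAT
import Pool.Agent.Lib.PT5.BK5

/-! The certificate from the end of a chain of mixtures. -/

namespace Pool.Agent.Lib.PT5

open Finset RC5 CFIT Pool.Agent.Lib.VC2.TB

/-- the rays of a table of orbits are the given rays -/
noncomputable def lnk (sN : ℕ → ℕ → ℕ) (K tab : ℕ) : Bool :=
  force tab fun tab => BK.allLt K fun l => force (slice 44 tab (Nat.mul 100 l) 10) fun b =>
    BK.allLt 10 fun x => Nat.beq (lane 44 b x) (sN l x)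

theorem tab_of (hP : St_PER) {sN : ℕ → ℕ → ℕ} {K tab W k : ℕ}
    (h0 : ∀ {s : Fin K → Vec} {w : Fin K → ℝ}, (∀ l t, s l t = sN l (ix t)) →
      (∀ l, w l = lane 33 W l / 2 ^ 44) → CG.Z0.dat.Fit (mix s w))
    (h1 : lnk sN K tab = true) (h2 : Dom (vS 1 k) (BK.Ex tab K W)) : St_TAB := by
  refine ⟨_, k, CG.good0, fit_down hP CG.good0.qb0 h2 (h0 (fun l t => ?_) fun _ => rfl)⟩
  rw [lnk, force_eq] at h1
  have h3 := BK.allLt_ok h1 l l.2
  rw [force_eq] at h3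
  have h4 := Nat.eq_of_beq_eq_true (BK.allLt_ok h3 _ (BK.ix_lt t))
  rw [slice_eq_pk, lane_pk (fun _ _ => lane_lt _ _ _) (BK.ix_lt t), Nat.mul_eq] at h4
  rw [BK.ray, BK.vec, show 10 * (10 * l.1) = 100 * l.1 by ring, h4,
    (by decide +kernel : ∀ t, BK.ix t = ix t)]

end Pool.Agent.Lib.PT5
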