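import Pool.Agent.Lib.PT5.LDefs

/-! Mixtures of orbits under the dihedral group. -/

namespace Pool.Agent.Lib.PT5

open Finset Real RC5

namespace CMX

/-- composition of symmetries -/
def ml (g g' : D5) : D5 := (gc g g'.1, xor g.2 g'.2)

lemma g1_ml : ∀ (g g' : D5) (t : T1), g1 (ml g g') t = g1 g (g1 g' t) := by decide +kernel

lemma bij_l : ∀ g : D5, Function.Bijective (ml g) := by decide +kernel

lemma bij_t : ∀ t : T1, Function.Bijective fun g : D5 => g1 g t := by decide +kernel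

lemma io_g : ∀ (g : D5) (t : T1), io1 (g1 g t) = g1 g (io1 t) := by decide +kernel

/-- the inverse symmetry -/
def iv (g : D5) : D5 := (if g.2 then g.1 else -g.1, g.2)

lemma bij_d : ∀ t : T1, Function.Bijective fun g : D5 => g1 (iv g) t := by decide +kernel

lemma inv_d : ∀ (g : D5) (t t' : T1), g1 g t' = t ↔ t' = g1 (iv g) t := by decide +kernel

lemma comp_ml (v : Vec) (g g' : D5) : (v ∘ g1 g) ∘ g1 g' = v ∘ g1 (ml g g') :=
  funext fun t => congrArg v (g1_ml g g' t).symm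

lemma orb_sum (v : Vec) : ∑ g : D5, v ∘ g1 g = (∑ t, v t) • (1 : Vec) := funext fun t => by
  rw [Finset.sum_apply, Pi.smul_apply, Pi.one_apply, smul_eq_mul, mul_one]
  exact (bij_t t).sum_comp v

lemma fo_g (p h v : Vec) (g : D5) : Fo p h (v ∘ g1 g) = Fo p h v := by
  simp only [Fo, comp_ml]
  exact (bij_l g).sum_comp fun g' => Ph p h (v ∘ g1 g')

lemma fo_dl (p h : Vec) (t : T1) : Fo p h (dl t) = ∑ t', Ph p h (dl t') := by
  rw [← (bij_d t).sum_comp fun t' => Ph p h (dl t')]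
  refine Finset.sum_congr rfl fun g _ => congrArg _ (funext fun u => ?_)
  simp only [Function.comp, dl, Pi.single_apply, inv_d]

lemma vm_g (a b : Vec) (g : D5) : Vm (a ∘ g1 g) (b ∘ g1 g) = Vm a b ∘ g1 g := funext fun t => by
  obtain ⟨c, r⟩ := g
  cases r <;> simp only [Vm, Function.comp, g1, Bool.xor_false, Bool.xor_true, Bool.not_false,
    Bool.not_true]
  ring

lemma am_g (v : Vec) (g : D5) : Am 1 (v ∘ g1 g) = Am 1 v ∘ g1 g := funext fun t => by
  simp only [Am, Function.comp, sub_self, zero_mul, io_g]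

lemma tm_smul (a b : Vec) (x y : ℝ) : Am 1 (Vm (x • a) (y • b)) = (x * y) • Am 1 (Vm a b) :=
  funext fun t => by
    simp only [Am, Vm, Pi.smul_apply, smul_eq_mul]
    ring

lemma tm_nonneg {a b : Vec} (ha : 0 ≤ a) (hb : 0 ≤ b) : 0 ≤ Am 1 (Vm a b) := fun t => by
  simp only [Am, Vm, sub_self, zero_mul, zero_add, one_mul, Pi.zero_apply]
  obtain ⟨c, o⟩ := io1 t
  have h1 : 0 ≤ a (c, false) := ha _
  have h2 : 0 ≤ a (c, true) := ha _
  have h3 : 0 ≤ b (c, false) := hb _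
  have h4 : 0 ≤ b (c, true) := hb _
  cases o <;> nlinarith [mul_nonneg h1 h3, mul_nonneg h1 h4, mul_nonneg h2 h3, mul_nonneg h2 h4]

lemma comp_nonneg {v : Vec} (hv : 0 ≤ v) (g : D5) : 0 ≤ v ∘ g1 g := fun t => hv (g1 g t)

lemma sub_sum {F : Vec → ℝ} (hF : Subl F) {I : Type} (s : Finset I) {w : I → Vec}
    (hw : ∀ i, 0 ≤ w i) : F (∑ i ∈ s, w i) ≤ ∑ i ∈ s, F (w i) := by
  classical
  induction s using Finset.induction_on with
  | empty =>
    have := hF.2 0 0 le_rfl le_rfl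
    rw [zero_smul, zero_mul] at this
    rw [Finset.sum_empty, Finset.sum_empty, this]
  | insert i s hi ih =>
    rw [Finset.sum_insert hi, Finset.sum_insert hi]
    exact (hF.1 _ _ (hw i) (Finset.sum_nonneg fun j _ => hw j)).trans (by linarith)

lemma dl_nonneg (t : T1) : 0 ≤ dl t := Pi.single_nonneg.mpr zero_le_one

lemma as_dl (v : Vec) : v = ∑ t, v t • dl t := funext fun u => by
  simp [dl, Finset.sum_apply, Pi.single_apply]

variable {p h : Vec}

lemma fo_smul (hF : Subl (Ph p h)) {v : Vec} (hv : 0 ≤ v) {a : ℝ} (ha : 0 ≤ a) :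
    ∑ g : D5, Ph p h (a • (v ∘ g1 g)) = a * Fo p h v := by
  rw [Fo, Finset.mul_sum]
  exact Finset.sum_congr rfl fun g _ => hF.2 a _ ha (comp_nonneg hv g)

lemma fo_low (hF : Subl (Ph p h)) {v : Vec} (hv : 0 ≤ v) : (∑ t, v t) * Ph p h 1 ≤ Fo p h v := by
  rw [← hF.2 _ _ (Finset.sum_nonneg fun t _ => hv t) zero_le_one, ← orb_sum]
  exact sub_sum hF _ (comp_nonneg hv)

lemma fo_up (hF : Subl (Ph p h)) {v : Vec} (hv : 0 ≤ v) :
    Fo p h v ≤ (∑ t, v t) * ∑ t, Ph p h (dl t) := by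
  have h1 : ∀ g : D5, Ph p h (v ∘ g1 g) ≤ ∑ t, v (g1 g t) * Ph p h (dl t) := fun g => by
    refine (le_of_eq (congrArg _ (as_dl _))).trans
      ((sub_sum hF _ fun t => smul_nonneg (hv _) (dl_nonneg t)).trans (le_of_eq ?_))
    exact Finset.sum_congr rfl fun t _ => hF.2 _ _ (hv _) (dl_nonneg t)
  refine (Finset.sum_le_sum fun g _ => h1 g).trans (le_of_eq ?_)
  rw [Finset.sum_comm, Finset.mul_sum]
  refine Finset.sum_congr rfl fun t _ => ?_
  rw [← Finset.sum_mul, (bij_t t).sum_comp v]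

lemma pair (hF : Subl (Ph p h)) {a b : Vec} (ha : 0 ≤ a) (hb : 0 ≤ b) {x y : ℝ} (hx : 0 ≤ x)
    (hy : 0 ≤ y) :
    ∑ g : D5, ∑ g' : D5, Ph p h (Am 1 (Vm (x • (a ∘ g1 g)) (y • (b ∘ g1 g')))) =
      x * y * ∑ g : D5, Fo p h (Am 1 (Vm a (b ∘ g1 g))) := by
  have h1 : ∀ g : D5, ∑ g' : D5, Ph p h (Am 1 (Vm (x • (a ∘ g1 g)) (y • (b ∘ g1 g')))) =
      ∑ k : D5, Ph p h ((x * y) • (Am 1 (Vm a (b ∘ g1 k)) ∘ g1 g)) := fun g => by
    have h2 : Function.Bijective fun k : D5 => ml k g := by revert g; decide +kernel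
    rw [← h2.sum_comp fun g' => Ph p h (Am 1 (Vm (x • (a ∘ g1 g)) (y • (b ∘ g1 g'))))]
    exact Finset.sum_congr rfl fun k _ => by rw [tm_smul, ← comp_ml, vm_g, am_g]
  rw [Finset.sum_congr rfl fun g _ => h1 g, Finset.sum_comm, Finset.mul_sum]
  exact Finset.sum_congr rfl fun k _ =>
    fo_smul hF (tm_nonneg ha (comp_nonneg hb k)) (mul_nonneg hx hy)

end CMX

open CMX in
theorem st_MX (hP : St_PH) : St_MX := by
  refine ⟨fun p h v hA hv => ⟨fo_low (hP.1 p h hA) hv, fo_up (hP.1 p h hA) hv⟩, fo_dl, fo_g,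
    fun K _ s w => ?_, fun K _ s w p h hA hs hw => ?_,
    fun K K' _ _ s w s' w' p h hA hs hw hs' hw' => ?_⟩
  · rw [Fintype.sum_prod_type, Finset.sum_smul]
    refine Finset.sum_congr rfl fun l _ => ?_
    simp only [mix]
    rw [← Finset.smul_sum, orb_sum, smul_smul]
  · rw [Fintype.sum_prod_type]
    refine Finset.sum_congr rfl fun l _ => ?_
    rw [← fo_smul (hP.1 p h hA) (hs l) (hw l)]
    simp only [mix]
  · rw [Fintype.sum_prod_type, Fintype.sum_prod_type]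
    refine Finset.sum_congr rfl fun i _ => ?_
    simp only [Fintype.sum_prod_type (α₁ := K')]
    rw [Finset.sum_comm]
    refine Finset.sum_congr rfl fun j _ => ?_
    rw [← pair (hP.1 p h hA) (hs i) (hs' j) (hw i) (hw' j)]
    simp only [T2, mix]

end Pool.Agent.Lib.PT5
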