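import Pool.Agent.Lib.PT5.DDefs
import Pool.Agent.Lib.PT5.C_MX

/-! Mixtures of orbits for a general sublinear functional. -/

namespace Pool.Agent.Lib.PT5

open Finset Real RC5

namespace CMD

open CMX

variable {F : Vec → ℝ}

lemma fd_g (F : Vec → ℝ) (v : Vec) (g : D5) : Fd F (v ∘ g1 g) = Fd F v := by
  simp only [Fd, comp_ml]
  exact (bij_l g).sum_comp fun g' => F (v ∘ g1 g')

lemma fd_dl (F : Vec → ℝ) (t : T1) : Fd F (dl t) = ∑ t', F (dl t') := by
  rw [← (bij_d t).sum_comp fun t' => F (dl t')]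
  refine Finset.sum_congr rfl fun g _ => congrArg _ (funext fun u => ?_)
  simp only [Function.comp, dl, Pi.single_apply, inv_d]

lemma fd_smul (hF : Subl F) {v : Vec} (hv : 0 ≤ v) {a : ℝ} (ha : 0 ≤ a) :
    ∑ g : D5, F (a • (v ∘ g1 g)) = a * Fd F v := by
  rw [Fd, Finset.mul_sum]
  exact Finset.sum_congr rfl fun g _ => hF.2 a _ ha (comp_nonneg hv g)

lemma fd_low (hF : Subl F) {v : Vec} (hv : 0 ≤ v) : (∑ t, v t) * F 1 ≤ Fd F v := by
  rw [← hF.2 _ _ (Finset.sum_nonneg fun t _ => hv t) zero_le_one, ← orb_sum]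
  exact sub_sum hF _ (comp_nonneg hv)

lemma fd_up (hF : Subl F) {v : Vec} (hv : 0 ≤ v) : Fd F v ≤ (∑ t, v t) * ∑ t, F (dl t) := by
  have h1 : ∀ g : D5, F (v ∘ g1 g) ≤ ∑ t, v (g1 g t) * F (dl t) := fun g => by
    refine (le_of_eq (congrArg _ (as_dl _))).trans
      ((sub_sum hF _ fun t => smul_nonneg (hv _) (dl_nonneg t)).trans (le_of_eq ?_))
    exact Finset.sum_congr rfl fun t _ => hF.2 _ _ (hv _) (dl_nonneg t)
  refine (Finset.sum_le_sum fun g _ => h1 g).trans (le_of_eq ?_)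
  rw [Finset.sum_comm, Finset.mul_sum]
  refine Finset.sum_congr rfl fun t _ => ?_
  rw [← Finset.sum_mul, (bij_t t).sum_comp v]

lemma fd_subl (hF : Subl F) : Subl (Fd F) := by
  refine ⟨fun v w hv hw => ?_, fun a v ha hv => fd_smul hF hv ha⟩
  rw [Fd, Fd, Fd, ← Finset.sum_add_distrib]
  exact Finset.sum_le_sum fun g _ => hF.1 _ _ (comp_nonneg hv g) (comp_nonneg hw g)

lemma pair_d (hF : Subl F) {a b : Vec} (ha : 0 ≤ a) (hb : 0 ≤ b) {x y : ℝ} (hx : 0 ≤ x)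
    (hy : 0 ≤ y) :
    ∑ g : D5, ∑ g' : D5, F (Am 1 (Vm (x • (a ∘ g1 g)) (y • (b ∘ g1 g')))) =
      x * y * ∑ g : D5, Fd F (Am 1 (Vm a (b ∘ g1 g))) := by
  have h1 : ∀ g : D5, ∑ g' : D5, F (Am 1 (Vm (x • (a ∘ g1 g)) (y • (b ∘ g1 g')))) =
      ∑ k : D5, F ((x * y) • (Am 1 (Vm a (b ∘ g1 k)) ∘ g1 g)) := fun g => by
    have h2 : Function.Bijective fun k : D5 => ml k g := by revert g; decide +kernel
    rw [← h2.sum_comp fun g' => F (Am 1 (Vm (x • (a ∘ g1 g)) (y • (b ∘ g1 g'))))]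
    exact Finset.sum_congr rfl fun k _ => by rw [tm_smul, ← comp_ml, vm_g, am_g]
  rw [Finset.sum_congr rfl fun g _ => h1 g, Finset.sum_comm, Finset.mul_sum]
  exact Finset.sum_congr rfl fun k _ =>
    fd_smul hF (tm_nonneg ha (comp_nonneg hb k)) (mul_nonneg hx hy)

end CMD

open CMD in
theorem st_MD : St_MD := by
  refine ⟨fun F v hF hv => ⟨fd_low hF hv, fd_up hF hv⟩, fd_dl, fd_g, fun F hF => fd_subl hF,
    fun K _ s w F hF hs hw => ?_, fun K K' _ _ s w s' w' F hF hs hw hs' hw' => ?_⟩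
  · rw [Fintype.sum_prod_type]
    refine Finset.sum_congr rfl fun l _ => ?_
    rw [← fd_smul hF (hs l) (hw l)]
    simp only [mix]
  · rw [Fintype.sum_prod_type, Fintype.sum_prod_type]
    refine Finset.sum_congr rfl fun i _ => ?_
    simp only [Fintype.sum_prod_type (α₁ := K')]
    rw [Finset.sum_comm]
    refine Finset.sum_congr rfl fun j _ => ?_
    rw [← pair_d hF (hs i) (hs' j) (hw i) (hw' j)]
    simp only [T2, mix]

end Pool.Agent.Lib.PT5
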