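import Pool.Agent.Lib.PT5.All
import Pool.Agent.Lib.PT5.BD_F
import Pool.Agent.Lib.PT5.C_CD
import Pool.Agent.Lib.PT5.C_MD
import Pool.Agent.Lib.PT5.C_FI2
import Pool.Agent.Lib.PT5.C_LNK

/-! The certificate. -/

namespace Pool.Agent.Lib.PT5

instance lnkA : Fact (lnk CFI2.sN 250 BK.tabA = true) := ⟨by decide +kernel⟩

instance endA : Fact (Nat.beq (BK.wA.getD 124 0) CFI2.tW = true) := ⟨by decide +kernel⟩

theorem tab_all : St_TAB :=
  tab_of st_PER CFI2.fit0 lnkA.out (Nat.eq_of_beq_eq_true endA.out ▸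
    BK.domA st_MD (st_CD st_SP (st_DOM st_SP st_TM)) (st_DOM st_SP st_TM)
      (fun k => ((st_SP 1 k).2.2 zero_le_one le_rfl).1.1) 124 le_rfl)

end Pool.Agent.Lib.PT5
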