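import Pool.Agent.Lib.PT5.C_MX
import Pool.Agent.Lib.VC2.TB1

/-! Checker for tables of splittings into rays: one table entry. -/

namespace Pool.Agent.Lib.PT5.BK

open Finset RC5 Pool.Agent.Lib.VC2.TB

/-- position of a state -/
def ix (t : T1) : ℕ := 2 * t.1.val + if t.2 then 1 else 0

lemma ix_lt : ∀ t, ix t < 10 := by decide +kernel

/-- the vector with the given coordinates -/
def vec (f : ℕ → ℕ) : Vec := fun t => f (ix t)

/-- block `r` of ten lanes -/
def ray (v r : ℕ) : Vec := vec fun x => lane 44 v (10 * r + x)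

lemma vec_nn (f : ℕ → ℕ) : 0 ≤ vec f := fun _ => Nat.cast_nonneg _

lemma ray_nn (v r : ℕ) : 0 ≤ ray v r := vec_nn _

/-- gains -/
structure Gd (G : Vec → ℝ) : Prop where
  add : ∀ v w, 0 ≤ v → 0 ≤ w → G v + G w ≤ G (v + w)
  smul : ∀ (a : ℝ) v, 0 ≤ a → 0 ≤ v → G (a • v) = a * G v
  nn : ∀ v, 0 ≤ v → 0 ≤ G v
  inv : ∀ v g, G (v ∘ g1 g) = G v
  dl : ∀ t, G (dl t) = 0

lemma Gd.mono {G : Vec → ℝ} (h : Gd G) {v w : Vec} (hv : 0 ≤ v) (hw : v ≤ w) : G v ≤ G w := by
  have h1 := h.add v (w - v) hv (sub_nonneg.2 hw)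
  have h2 := h.nn (w - v) (sub_nonneg.2 hw)
  rw [add_sub_cancel] at h1
  linarith

lemma Gd.zero {G : Vec → ℝ} (h : Gd G) : G 0 = 0 := by
  have := h.smul 0 0 le_rfl le_rfl
  simpa using this

/-- number of lanes of coefficients -/
@[irreducible] def Kb : ℕ := 820

lemma Kb_eq : Kb = 820 := by unfold Kb; rfl

/-- packed coefficients with a bound on the lanes and on the value -/
def Rep (Γ : ℕ → ℝ) (c B : ℕ) (x : ℝ) : Prop :=
  ∃ f : ℕ → ℕ, c = pk 116 Kb f ∧ (∀ r, f r ≤ B) ∧ ∑ r ∈ range Kb, f r * Γ r ≤ x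

lemma pk_one (w n r a : ℕ) (hr : r < n) :
    pk w n (fun i => if i = r then a else 0) = a * 2 ^ (w * r) := by
  unfold pk
  rw [sum_eq_single r (fun i _ hi => by simp [hi]) (fun h => absurd (mem_range.2 hr) h)]
  simp

namespace Rep

variable {Γ : ℕ → ℝ} {c c' B B' : ℕ} {x x' : ℝ}

lemma mono (h : Rep Γ c B x) (hB : B ≤ B') (hx : x ≤ x') : Rep Γ c B' x' := by
  obtain ⟨f, e, h1, h2⟩ := h
  exact ⟨f, e, fun r => (h1 r).trans hB, h2.trans hx⟩

lemma add (h : Rep Γ c B x) (h' : Rep Γ c' B' x') : Rep Γ (c + c') (B + B') (x + x') := by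
  obtain ⟨f, rfl, h1, h2⟩ := h
  obtain ⟨g, rfl, h3, h4⟩ := h'
  refine ⟨_, pk_add _ _ _ _, fun r => add_le_add (h1 r) (h3 r), ?_⟩
  simp only [Nat.cast_add, add_mul, sum_add_distrib]
  exact add_le_add h2 h4

lemma smul (a : ℕ) (h : Rep Γ c B x) : Rep Γ (a * c) (a * B) (a * x) := by
  obtain ⟨f, rfl, h1, h2⟩ := h
  refine ⟨_, mul_pk _ _ _ _, fun r => Nat.mul_le_mul_left _ (h1 r), ?_⟩
  simp only [Nat.cast_mul, mul_assoc, ← mul_sum]
  exact mul_le_mul_of_nonneg_left h2 (Nat.cast_nonneg _)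

lemma one (a r : ℕ) (hr : r < Kb) : Rep Γ (a * 2 ^ (116 * r)) a (a * Γ r) := by
  refine ⟨_, (pk_one 116 Kb r a hr).symm, fun i => by split_ifs <;> omega, le_of_eq ?_⟩
  rw [sum_eq_single r (fun i _ hi => by simp [hi]) (fun h => absurd (mem_range.2 hr) h)]
  simp

lemma zero : Rep Γ 0 0 0 := by simpa using one (Γ := Γ) 0 0 (by rw [Kb_eq]; norm_num)

lemma salt (h : Rep Γ c B x) (h0 : Γ 0 = 0) (a : ℕ) : Rep Γ (c + a) (B + a) x := by
  simpa [h0] using h.add (one (Γ := Γ) a 0 (by rw [Kb_eq]; norm_num))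

lemma lanes (h : Rep Γ c B x) (hB : B < 2 ^ 116) :
    ∑ r ∈ range Kb, lane 116 c r * Γ r ≤ x := by
  obtain ⟨f, rfl, h1, h2⟩ := h
  refine le_trans (le_of_eq (sum_congr rfl fun r hr => ?_)) h2
  rw [lane_pk (fun i _ => (h1 i).trans_lt hB) (mem_range.1 hr)]

end Rep

def m440 : ℕ := 0xffffffffffffffffffffffffffffffffffffffffffffffffffffffffffffffffffffffffffffffffffffffffffffffffffffffffffffff
def gd : ℕ := 0x80000000000800000000008000000000080000000000800000000008000000000080000000000800000000008000000000080000000000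

lemma m440_eq : m440 = 2 ^ 440 - 1 := by decide +kernel
lemma gd_eq : gd = pk 44 10 fun _ => 2 ^ 43 := by decide +kernel

/-- a block as a number -/
def blk (v a : ℕ) : ℕ := Nat.land (Nat.shiftRight v a) m440

lemma blk_eq (v r : ℕ) : blk v (440 * r) = pk 44 10 fun x => lane 44 v (10 * r + x) := by
  rw [← slice_eq_pk, slice_eq, blk, m440_eq, Nat.land_eq, Nat.and_two_pow_sub_one_eq_mod,
    Nat.shiftRight_eq, Nat.shiftRight_eq_div_pow, show 44 * (10 * r) = 440 * r by ring]

/-- lanewise comparison -/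
def leq (s t : ℕ) : Bool := Nat.beq (Nat.land (Nat.sub (Nat.add t gd) s) gd) gd

lemma leq_ok {f g : ℕ → ℕ} (hf : ∀ x < 10, f x ≤ 2 ^ 43) (hg : ∀ x < 10, g x < 2 ^ 43)
    (h : leq (pk 44 10 f) (pk 44 10 g) = true) : ∀ x < 10, f x ≤ g x := by
  intro x hx
  have e := Nat.eq_of_beq_eq_true h
  simp only [Nat.add_eq, Nat.sub_eq] at e
  rw [gd_eq, pk_add, pk_sub fun i hi => by have := hf i hi; omega] at e
  have b1 : ∀ i < 10, g i + 2 ^ 43 - f i < 2 ^ (43 + 1) := fun i hi => by
    have := hg i hi; omega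
  have e2 := congrArg (fun v => lane 44 v x) e
  simp only [lane_land] at e2
  rw [lane_pk b1 hx, lane_pk (fun _ _ => by norm_num) hx, and_top (b1 x hx)] at e2
  have := hf x hx
  split_ifs at e2 with h1
  omega

/-- the entries of one literal -/
noncomputable def run (tab cb cm eb im tb n : ℕ) :
    ℕ → ℕ → ℕ → ℕ → ℕ → (ℕ → Bool) → Bool :=
  Nat.rec (motive := fun _ => ℕ → ℕ → ℕ → ℕ → ℕ → (ℕ → Bool) → Bool)
    (fun _ _ _ _ ct k => k ct)
    (fun _ ih h g s c ct k =>
      Nat.rec (motive := fun _ => Bool)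
        (force (Nat.land (Nat.shiftRight h cb) 7) fun e =>
          (leq (Nat.shiftLeft s e) (blk tb g)).and
            (Nat.rec (motive := fun _ => Bool) (k (Nat.add ct (Nat.shiftLeft c e)))
              (fun h1 _ => force (Nat.add g 440) fun g' =>
                ih (Nat.succ h1) g' 0 0 (Nat.add ct (Nat.shiftLeft c e)) k)
              (Nat.shiftRight h eb)))
        (fun a1 _ =>
          force (Nat.land (Nat.shiftRight h cb) im) fun r =>
          force (Nat.shiftRight h eb) fun h' => ih h' g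
            (Nat.add s (Nat.mul (Nat.succ a1) (blk tab (Nat.mul 440 r))))
            (Nat.add c (Nat.shiftLeft (Nat.succ a1) (Nat.mul 116 (Nat.div r 10)))) ct k)
        (Nat.land h cm)) n

lemma vec_add (f g : ℕ → ℕ) : vec (fun x => f x + g x) = vec f + vec g := by
  funext t; simp [vec]

lemma vec_mul (a : ℕ) (f : ℕ → ℕ) : vec (fun x => a * f x) = (a : ℝ) • vec f := by
  funext t; simp [vec]

variable {G : Vec → ℝ} {tab cb cm eb im tb : ℕ}

lemma run_end {n h g s c ct : ℕ} {k : ℕ → Bool} (h0 : Nat.land h cm = 0)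
    (H : run tab cb cm eb im tb (n + 1) h g s c ct k = true) :
    ∃ e ≤ 7, leq (2 ^ e * s) (blk tb g) = true ∧ (k (ct + 2 ^ e * c) = true ∨
      ∃ h', run tab cb cm eb im tb n h' (g + 440) 0 0 (ct + 2 ^ e * c) k = true) := by
  have H1 : Nat.rec (motive := fun _ => Bool)
        (force (Nat.land (Nat.shiftRight h cb) 7) fun e =>
          (leq (Nat.shiftLeft s e) (blk tb g)).and
            (Nat.rec (motive := fun _ => Bool) (k (Nat.add ct (Nat.shiftLeft c e)))
              (fun h1 _ => force (Nat.add g 440) fun g' => run tab cb cm eb im tb n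
                (Nat.succ h1) g' 0 0 (Nat.add ct (Nat.shiftLeft c e)) k)
              (Nat.shiftRight h eb)))
        (fun a1 _ =>
          force (Nat.land (Nat.shiftRight h cb) im) fun r =>
          force (Nat.shiftRight h eb) fun h' => run tab cb cm eb im tb n h' g
            (Nat.add s (Nat.mul (Nat.succ a1) (blk tab (Nat.mul 440 r))))
            (Nat.add c (Nat.shiftLeft (Nat.succ a1) (Nat.mul 116 (Nat.div r 10)))) ct k)
        (Nat.land h cm) = true := H
  rw [h0, Nat.rec_zero, force_eq, Bool.and_eq_true] at H1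
  refine ⟨Nat.land (Nat.shiftRight h cb) 7, Nat.and_le_right, ?_⟩
  generalize Nat.land (Nat.shiftRight h cb) 7 = e at H1
  have e1 : ∀ a, Nat.shiftLeft a e = 2 ^ e * a := fun a => by
    rw [mul_comm]; exact Nat.shiftLeft_eq _ _
  rw [e1, e1] at H1
  refine ⟨H1.1, ?_⟩
  have H2 := H1.2
  generalize Nat.shiftRight h eb = h' at H2
  cases h' with
  | zero => exact Or.inl H2
  | succ h' => exact Or.inr ⟨h' + 1, (force_eq _ _).symm.trans H2⟩

lemma run_ent {n h g s c ct a : ℕ} {k : ℕ → Bool} (h0 : Nat.land h cm = a + 1)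
    (H : run tab cb cm eb im tb (n + 1) h g s c ct k = true) :
    ∃ r ≤ im, ∃ h', run tab cb cm eb im tb n h' g (s + (a + 1) * blk tab (440 * r))
      (c + (a + 1) * 2 ^ (116 * (r / 10))) ct k = true := by
  have H1 : Nat.rec (motive := fun _ => Bool)
        (force (Nat.land (Nat.shiftRight h cb) 7) fun e =>
          (leq (Nat.shiftLeft s e) (blk tb g)).and
            (Nat.rec (motive := fun _ => Bool) (k (Nat.add ct (Nat.shiftLeft c e)))
              (fun h1 _ => force (Nat.add g 440) fun g' => run tab cb cm eb im tb n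
                (Nat.succ h1) g' 0 0 (Nat.add ct (Nat.shiftLeft c e)) k)
              (Nat.shiftRight h eb)))
        (fun a1 _ =>
          force (Nat.land (Nat.shiftRight h cb) im) fun r =>
          force (Nat.shiftRight h eb) fun h' => run tab cb cm eb im tb n h' g
            (Nat.add s (Nat.mul (Nat.succ a1) (blk tab (Nat.mul 440 r))))
            (Nat.add c (Nat.shiftLeft (Nat.succ a1) (Nat.mul 116 (Nat.div r 10)))) ct k)
        (Nat.land h cm) = true := H
  rw [h0] at H1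
  change force (Nat.land (Nat.shiftRight h cb) im) _ = true at H1
  rw [force_eq, force_eq] at H1
  refine ⟨Nat.land (Nat.shiftRight h cb) im, Nat.and_le_right, Nat.shiftRight h eb, ?_⟩
  rw [← Nat.shiftLeft_eq]
  exact H1

lemma run_ok (hG : Gd G) (hc : cm ≤ 65535) (hi : im ≤ 8191) (ht : ∀ q, lane 44 tab q ≤ 4096)
    (hv : ∀ r, G (ray tab (10 * (r / 10))) = G (ray tab r)) (tv : ℕ → ℕ → ℕ)
    (hb : ∀ g, blk tb (440 * g) = pk 44 10 (tv g)) (hb' : ∀ g x, tv g x < 2 ^ 43)
    (k : ℕ → Bool) (n : ℕ) : ∀ (h g m B : ℕ) (f : ℕ → ℕ) (c ct : ℕ), m + n ≤ 256 →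
      (∀ x, f x ≤ m * 2 ^ 28) → Rep (fun r => G (ray tab (10 * r))) c (m * 2 ^ 16) (G (vec f)) →
      Rep (fun r => G (ray tab (10 * r))) ct B (∑ j ∈ range g, G (vec (tv j))) →
      run tab cb cm eb im tb n h (440 * g) (pk 44 10 f) c ct k = true →
      ∃ ct' g', Rep (fun r => G (ray tab (10 * r))) ct' (B + (m + n) * 2 ^ 23)
        (∑ j ∈ range g', G (vec (tv j))) ∧ k ct' = true := by
  induction n with
  | zero => exact fun h g m B f c ct _ _ _ h2 h3 => ⟨ct, g, h2.mono (by omega) le_rfl, h3⟩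
  | succ n ih =>
    intro h g m B f c ct hm hf h1 h2 h3
    have ha : Nat.land h cm ≤ 65535 := Nat.and_le_right.trans hc
    rcases h0 : Nat.land h cm with _ | a
    · obtain ⟨e, he, h4, h5⟩ := run_end h0 h3
      have p7 : 2 ^ e ≤ 2 ^ 7 := Nat.pow_le_pow_right (by norm_num) he
      rw [hb, mul_pk] at h4
      have h6 := leq_ok (fun x _ => by
        have := Nat.mul_le_mul p7 (hf x)
        omega) (fun x _ => hb' g x) h4
      have h7 : G (vec fun x => 2 ^ e * f x) ≤ G (vec (tv g)) :=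
        hG.mono (vec_nn _) fun t => Nat.cast_le.2 (h6 _ (ix_lt t))
      rw [vec_mul, hG.smul _ _ (Nat.cast_nonneg _) (vec_nn _)] at h7
      have h8 : Rep (fun r => G (ray tab (10 * r))) (ct + 2 ^ e * c) (B + m * 2 ^ 23)
          (∑ j ∈ range (g + 1), G (vec (tv j))) := by
        rw [sum_range_succ]
        refine (h2.add (h1.smul (2 ^ e))).mono ?_ (by linarith)
        have := Nat.mul_le_mul_right (m * 2 ^ 16) p7
        omega
      rcases h5 with h5 | ⟨h', h5⟩
      · exact ⟨_, _, h8.mono (by omega) le_rfl, h5⟩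
      · have e0 : vec (fun _ => 0) = 0 := by funext t; simp [vec]
        obtain ⟨ct', g', h9, h10⟩ := ih h' (g + 1) 0 _ (fun _ => 0) 0 _ (by omega)
          (fun _ => by omega) (by rw [e0, hG.zero]; exact Rep.zero) h8
          (by rw [show pk 44 10 (fun _ => 0) = 0 by simp [pk], mul_add, mul_one]; exact h5)
        exact ⟨ct', g', h9.mono (by omega) le_rfl, h10⟩
    · obtain ⟨r, hr, h', h4⟩ := run_ent h0 h3
      rw [blk_eq, mul_pk, pk_add] at h4
      rw [h0] at ha
      obtain ⟨ct', g', h9, h10⟩ := ih h' g (m + 1) B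
        (fun x => f x + (a + 1) * lane 44 tab (10 * r + x)) _ ct (by omega) (fun x => by
          have := Nat.mul_le_mul ha (ht (10 * r + x))
          have := hf x
          omega) (by
          refine (h1.add (Rep.one (a + 1) (r / 10) (by rw [Kb_eq]; omega))).mono (by omega) ?_
          rw [vec_add, vec_mul, hv]
          refine le_trans ?_ (hG.add _ _ (vec_nn _) (smul_nonneg (Nat.cast_nonneg _) (vec_nn _)))
          rw [hG.smul _ _ (Nat.cast_nonneg _) (vec_nn _)]
          rfl) h2 h4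
      exact ⟨ct', g', h9.mono (by omega) le_rfl, h10⟩

end Pool.Agent.Lib.PT5.BK
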