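import Pool.Agent.Lib.PT5.BK1

/-! Checker for tables of splittings into rays: the target of a pair of orbits. -/

set_option exponentiation.threshold 5000

namespace Pool.Agent.Lib.PT5.BK

open Finset RC5 Pool.Agent.Lib.VC2.TB

def Mz : ℕ := 0xfffffffffff000000000000000000000000000000000000000000000000000000000000000000000000000000000000000000000000000fffffffffff000000000000000000000000000000000000000000000000000000000000000000000000000000000000000000000000000fffffffffff000000000000000000000000000000000000000000000000000000000000000000000000000000000000000000000000000fffffffffff000000000000000000000000000000000000000000000000000000000000000000000000000000000000000000000000000fffffffffff000000000000000000000000000000000000000000000000000000000000000000000000000000000000000000000000000fffffffffff000000000000000000000000000000000000000000000000000000000000000000000000000000000000000000000000000fffffffffff000000000000000000000000000000000000000000000000000000000000000000000000000000000000000000000000000fffffffffff000000000000000000000000000000000000000000000000000000000000000000000000000000000000000000000000000fffffffffff000000000000000000000000000000000000000000000000000000000000000000000000000000000000000000000000000fffffffffff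

lemma Mz_eq : Mz = pk 440 10 fun _ => 2 ^ 44 - 1 := by decide +kernel

/-- one coordinate of the ten rays of an orbit -/
def col (b y : ℕ) : ℕ := Nat.land (Nat.shiftRight b (Nat.mul 44 y)) Mz

lemma col_eq (b y : ℕ) : col b y = pk 440 10 fun g => lane 44 b (10 * g + y) := by
  have hz : ∀ i < 10, 2 ^ 44 - 1 < 2 ^ 440 := fun _ _ => by norm_num
  have h1 : col b y < 2 ^ (440 * 10) := by
    refine lt_of_le_of_lt Nat.and_le_right ?_
    rw [Mz_eq]; exact pk_lt hz
  rw [← Nat.mod_eq_of_lt h1, ← pk_lane]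
  refine pk_congr fun g hg => ?_
  rw [col, lane_land, Mz_eq, lane_pk hz hg, Nat.and_two_pow_sub_one_eq_mod, lane_eq, lane_eq,
    Nat.mod_mod_of_dvd _ (pow_dvd_pow 2 (by norm_num)), Nat.shiftRight_eq,
    Nat.shiftRight_eq_div_pow, Nat.div_div_eq_div_mul, ← pow_add, Nat.mul_eq,
    show 44 * y + 440 * g = 44 * (10 * g + y) by ring]

/-- the two states of one colour -/
def two (a0 a1 b0 b1 p q : ℕ) : ℕ :=
  Nat.add
    (Nat.shiftLeft (Nat.add (Nat.mul (Nat.add a0 (Nat.mul 4 a1)) b0)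
      (Nat.mul (Nat.mul 4 (Nat.add a0 a1)) b1)) p)
    (Nat.shiftLeft (Nat.add (Nat.mul (Nat.mul 4 (Nat.add a0 a1)) b0)
      (Nat.mul (Nat.add (Nat.mul 4 a0) a1) b1)) q)

lemma two_eq (a0 a1 b0 b1 p q : ℕ) : two a0 a1 b0 b1 p q =
    ((a0 + 4 * a1) * 2 ^ p + 4 * (a0 + a1) * 2 ^ q) * b0
      + (4 * (a0 + a1) * 2 ^ p + (4 * a0 + a1) * 2 ^ q) * b1 := by
  simp only [two, Nat.shiftLeft_eq', Nat.shiftLeft_eq, Nat.add_eq, Nat.mul_eq]
  ring

lemma two_pk (a0 a1 p q : ℕ) (f g : ℕ → ℕ) : two a0 a1 (pk 440 10 f) (pk 440 10 g) p q =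
    pk 440 10 fun i => two a0 a1 (f i) (g i) p q := by
  simp only [two_eq, mul_pk, pk_add]

/-- all five colours -/
def five (a b : ℕ → ℕ) : ℕ :=
  Nat.add (Nat.add (Nat.add (Nat.add (two (a 0) (a 1) (b 0) (b 1) 396 88)
    (two (a 2) (a 3) (b 2) (b 3) 44 176)) (two (a 4) (a 5) (b 4) (b 5) 132 264))
    (two (a 6) (a 7) (b 6) (b 7) 220 352)) (two (a 8) (a 9) (b 8) (b 9) 308 0)

def iox (x : ℕ) : ℕ := (x + if x % 2 = 0 then 9 else 1) % 10

def bar (t : ℕ) : ℕ := if t % 2 = 0 then t + 1 else t - 1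

/-- the target in integers -/
def tg (a b : ℕ → ℕ) (x : ℕ) : ℕ :=
  (a (iox x) + 4 * a (bar (iox x))) * b (iox x)
    + 4 * (a (iox x) + a (bar (iox x))) * b (bar (iox x))

lemma five_eq (a b : ℕ → ℕ) : five a b = pk 44 10 (tg a b) := by
  simp only [five, two_eq, Nat.add_eq, pk, sum_range_succ, sum_range_zero, tg, iox, bar]
  norm_num
  ring

lemma tg_lt {a b : ℕ → ℕ} (ha : ∀ x, a x ≤ 2 ^ 20) (hb : ∀ x, b x ≤ 4096) (x : ℕ) :
    tg a b x < 2 ^ 43 := by
  have h1 := Nat.mul_le_mul (show a (iox x) + 4 * a (bar (iox x)) ≤ 5 * 2 ^ 20 by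
    have := ha (iox x); have := ha (bar (iox x)); omega) (hb (iox x))
  have h2 := Nat.mul_le_mul (show 4 * (a (iox x) + a (bar (iox x))) ≤ 8 * 2 ^ 20 by
    have := ha (iox x); have := ha (bar (iox x)); omega) (hb (bar (iox x)))
  unfold tg
  omega

lemma iox_lt (x : ℕ) : iox x < 10 ∧ bar (iox x) < 10 := by
  unfold iox bar
  split_ifs <;> omega

lemma ix_io : ∀ t, ix (io1 t) = iox (ix t) ∧ ix ((io1 t).1, !(io1 t).2) = bar (iox (ix t)) := by
  decide +kernel

lemma vec_tg (c : ℕ) (a b : ℕ → ℕ) :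
    vec (tg (fun x => c * a x) b) = (13 * c : ℝ) • Am 1 (Vm (vec a) (vec b)) := by
  funext t
  simp only [vec, tg, ← (ix_io t).1, Pi.smul_apply, smul_eq_mul, Am, Vm]
  rw [(ix_io t).1, ← (ix_io t).2, ← (ix_io t).1]
  generalize io1 t = u
  obtain ⟨d, o⟩ := u
  cases o <;> simp only [Bool.not_true, Bool.not_false] <;> push_cast <;> ring

/-- the ten targets of a pair -/
noncomputable def tsum (tab i j : ℕ) : ℕ :=
  force (slice 44 tab (Nat.mul 100 j) 100) fun b => force (Nat.mul 100 i) fun q =>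
    five (fun y => Nat.mul 256 (lane 44 tab (Nat.add q y))) (col b)

/-- their coordinates -/
def tv (tab i j g : ℕ) : ℕ → ℕ :=
  tg (fun y => 256 * lane 44 tab (10 * (10 * i) + y))
    fun y => if g < 10 then lane 44 tab (10 * (10 * j + g) + y) else 0

lemma blk_lane (v g : ℕ) : blk v (440 * g) = lane 440 v g := by
  rw [lane_eq, blk, m440_eq, Nat.land_eq, Nat.and_two_pow_sub_one_eq_mod, Nat.shiftRight_eq,
    Nat.shiftRight_eq_div_pow]

lemma tv_lt {tab : ℕ} (ht : ∀ q, lane 44 tab q ≤ 4096) (i j g x : ℕ) : tv tab i j g x < 2 ^ 43 :=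
  tg_lt (fun y => by have := ht (10 * (10 * i) + y); omega)
    (fun y => by split_ifs; exacts [ht _, by norm_num]) x

lemma blk_pk {f : ℕ → ℕ → ℕ} (h : ∀ g x, f g x < 2 ^ 43) {n : ℕ}
    (h0 : ∀ g, n ≤ g → ∀ x, f g x = 0) (g : ℕ) :
    blk (pk 440 n fun g => pk 44 10 (f g)) (440 * g) = pk 44 10 (f g) := by
  have h1 : ∀ i, pk 44 10 (f i) < 2 ^ 440 := fun i =>
    pk_lt (w := 44) (n := 10) fun x _ => (h i x).trans (by norm_num)
  rw [blk_lane]
  rcases lt_or_ge g n with hg | hg
  · exact lane_pk (fun i _ => h1 i) hg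
  · rw [lane_eq, Nat.div_eq_of_lt ((pk_lt fun i _ => h1 i).trans_le
      (Nat.pow_le_pow_right (by norm_num) (Nat.mul_le_mul_left _ hg))), Nat.zero_mod]
    simp [pk, h0 g hg]

lemma tsum_eq (tab i j : ℕ) :
    tsum tab i j = pk 440 10 fun g => pk 44 10 (tv tab i j g) := by
  rw [tsum, force_eq, force_eq, five]
  simp only [col_eq, two_pk, Nat.add_eq, pk_add]
  refine pk_congr fun g hg => ?_
  have e : ∀ y < 10, lane 44 (slice 44 tab (Nat.mul 100 j) 100) (10 * g + y)
      = lane 44 tab (10 * (10 * j + g) + y) := fun y hy => by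
    rw [slice_eq_pk, lane_pk (fun _ _ => lane_lt _ _ _) (by omega), Nat.mul_eq]
    congr 1; ring
  rw [tv, ← five_eq, five]
  rw [e 0 (by omega), e 1 (by omega), e 2 (by omega), e 3 (by omega), e 4 (by omega),
    e 5 (by omega), e 6 (by omega), e 7 (by omega), e 8 (by omega), e 9 (by omega)]
  simp only [if_pos hg, Nat.add_eq, Nat.mul_eq, show 10 * (10 * i) = 100 * i by ring]

lemma tsum_blk {tab : ℕ} (ht : ∀ q, lane 44 tab q ≤ 4096) (i j g : ℕ) :
    blk (tsum tab i j) (440 * g) = pk 44 10 (tv tab i j g) := by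
  rw [tsum_eq]
  exact blk_pk (tv_lt ht i j) (fun g hg x => by simp [tv, tg, not_lt.2 hg]) g

/-- tables of orbits -/
structure Tab (tab K : ℕ) : Prop where
  le : ∀ q, lane 44 tab q ≤ 4096
  orb : ∀ l (g : D5), ray tab (10 * l + ix g) = ray tab (10 * l) ∘ g1 g
  zero : ray tab 0 = (4096 : ℝ) • dl (0, false)
  sum : ∀ l < K, ∑ t, ray tab (10 * l) t = 4096
  pos : 0 < K
  kb : K ≤ Kb

lemma sum_ix (φ : ℕ → ℝ) : ∑ j ∈ range 10, φ j = ∑ g : D5, φ (ix g) := by
  rw [show range 10 = univ.image ix by decide +kernel,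
    sum_image fun a _ b _ => (by decide +kernel : Function.Injective ix) (a₁ := a) (a₂ := b)]

variable {G : Vec → ℝ} {tab K : ℕ}

lemma Tab.inv (h : Tab tab K) (hG : Gd G) (r : ℕ) :
    G (ray tab (10 * (r / 10))) = G (ray tab r) := by
  obtain ⟨g, hg⟩ := (by decide +kernel : ∀ y < 10, ∃ g : D5, ix g = y) (r % 10) (by omega)
  rw [← hG.inv _ g, ← h.orb, hg, Nat.div_add_mod]

lemma Tab.g0 (h : Tab tab K) (hG : Gd G) : G (ray tab (10 * 0)) = 0 := by
  rw [mul_zero, h.zero, hG.smul _ _ (by norm_num) (CMX.dl_nonneg _), hG.dl, mul_zero]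

/-- the gain of a pair of orbits -/
noncomputable def pg (G : Vec → ℝ) (tab i j : ℕ) : ℝ :=
  ∑ g : D5, G (Am 1 (Vm (ray tab (10 * i)) (ray tab (10 * j) ∘ g1 g)))

lemma pg_nn (hG : Gd G) (i j : ℕ) : 0 ≤ pg G tab i j :=
  sum_nonneg fun g _ => hG.nn _ (CMX.tm_nonneg (ray_nn _ _) (CMX.comp_nonneg (ray_nn _ _) g))

lemma sum_cut {φ : ℕ → ℝ} (h : ∀ j, 0 ≤ φ j) {n : ℕ} (h0 : ∀ j, n ≤ j → φ j = 0) (m : ℕ) :
    ∑ j ∈ range m, φ j ≤ ∑ j ∈ range n, φ j := by
  rcases le_total m n with hm | hm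
  · exact sum_le_sum_of_subset_of_nonneg (range_mono hm) fun _ _ _ => h _
  · exact le_of_eq (sum_subset (range_mono hm) fun j _ hj => h0 j (by simpa using hj)).symm

lemma tv_sum (h : Tab tab K) (hG : Gd G) (i j m : ℕ) :
    ∑ g ∈ range m, G (vec (tv tab i j g)) ≤ 3328 * pg G tab i j := by
  refine (sum_cut (n := 10) (fun g => hG.nn _ (vec_nn _)) (fun g hg => ?_) m).trans (le_of_eq ?_)
  · rw [show vec (tv tab i j g) = 0 by funext t; simp [vec, tv, tg, not_lt.2 hg], hG.zero]
  · rw [sum_ix, pg, mul_sum]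
    refine sum_congr rfl fun g _ => ?_
    rw [← h.orb, tv, vec_tg, hG.smul _ _ (by positivity) (CMX.tm_nonneg (vec_nn _) (vec_nn _))]
    simp only [if_pos (ix_lt g)]
    norm_num [ray]

end Pool.Agent.Lib.PT5.BK
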