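import Pool.Agent.Lib.PT5.BK2

/-! Checker for tables of splittings into rays: a piece of a table at all levels. -/

namespace Pool.Agent.Lib.PT5.BK

open Finset RC5 Pool.Agent.Lib.VC2.TB

/-- pairs with their literals -/
inductive PL : Type
  | leaf (p h : ℕ) : PL
  | node (a b : PL) : PL

/-- pairs with their coefficients -/
inductive CL : Type
  | leaf (i j c : ℕ) : CL
  | node (a b : CL) : CL

/-- multiplicity of a pair -/
def mult (i j : ℕ) : ℕ := cond (Nat.blt i j) 2 (cond (Nat.beq i j) 1 0)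

lemma mult_le (i j : ℕ) : mult i j ≤ 2 := by
  unfold mult
  cases Nat.blt i j <;> cases Nat.beq i j <;> simp

/-- the loop over pairs -/
noncomputable def pairs (tab K : ℕ) (l : PL) : ℕ → (ℕ → CL → Bool) → Bool :=
  PL.rec (motive := fun _ => ℕ → (ℕ → CL → Bool) → Bool)
    (fun p h lo k => (Nat.ble lo p).and
      (force (Nat.div p K) fun i => force (Nat.mod p K) fun j => force (tsum tab i j) fun tb =>
        run tab 16 65535 28 4095 tb 256 h 0 0 0 0 fun ct =>
          force (Nat.add (Nat.mul (mult i j) ct) (Nat.mod p 65536)) fun c =>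
            force (Nat.succ p) fun q => k q (CL.leaf i j c)))
    (fun _ _ a b lo k => a lo fun q ca => b q fun q' cb => k q' (CL.node ca cb)) l

/-- the weighted sum of the coefficients -/
noncomputable def dotU (W : ℕ) (cl : CL) : ℕ :=
  CL.rec (motive := fun _ => ℕ)
    (fun i j c => Nat.mul (Nat.mul (lane 33 W i) (lane 33 W j)) c) (fun _ _ a b => Nat.add a b) cl

/-- the weighted gain of the pair with a given number -/
noncomputable def pv (G : Vec → ℝ) (tab K W q : ℕ) : ℝ :=
  (lane 33 W (q / K) * lane 33 W (q % K) : ℕ) *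
    (mult (q / K) (q % K) * (3328 * pg G tab (q / K) (q % K)))

variable {G : Vec → ℝ} {tab K : ℕ}

lemma pv_nn (hG : Gd G) (W q : ℕ) : 0 ≤ pv G tab K W q :=
  mul_nonneg (Nat.cast_nonneg _) (mul_nonneg (Nat.cast_nonneg _)
    (mul_nonneg (by norm_num) (pg_nn hG _ _)))

/-- invariant of the loop over pairs -/
def Good (G : Vec → ℝ) (tab K lo hi : ℕ) (cl : CL) : Prop :=
  lo ≤ hi ∧ ∀ W, Rep (fun r => G (ray tab (10 * r))) (dotU W cl) ((hi - lo) * 2 ^ 99)
    (∑ q ∈ Ico lo hi, pv G tab K W q)

lemma pairs_ok (h : Tab tab K) (hG : Gd G) (l : PL) : ∀ lo (k : ℕ → CL → Bool),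
    pairs tab K l lo k = true → ∃ hi cl, Good G tab K lo hi cl ∧ k hi cl = true := by
  induction l with
  | node a b iha ihb =>
    intro lo k h2
    obtain ⟨q, ca, h3, h4⟩ := iha lo (fun q ca => pairs tab K b q fun q' cb =>
      k q' (CL.node ca cb)) h2
    obtain ⟨q', cb, h5, h6⟩ := ihb q _ h4
    refine ⟨q', CL.node ca cb, ⟨h3.1.trans h5.1, fun W => ((h3.2 W).add (h5.2 W)).mono (le_of_eq ?_)
      (sum_Ico_consecutive _ h3.1 h5.1).le⟩, h6⟩
    rw [← add_mul, add_comm, Nat.sub_add_sub_cancel h5.1 h3.1]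
  | leaf p x =>
    intro lo k h2
    have H : ((Nat.ble lo p).and
      (force (Nat.div p K) fun i => force (Nat.mod p K) fun j => force (tsum tab i j) fun tb =>
        run tab 16 65535 28 4095 tb 256 x 0 0 0 0 fun ct =>
          force (Nat.add (Nat.mul (mult i j) ct) (Nat.mod p 65536)) fun c =>
            force (Nat.succ p) fun q => k q (CL.leaf i j c))) = true := h2
    rw [Bool.and_eq_true, force_eq, force_eq, force_eq, Nat.ble_eq] at H
    have e0 : vec (fun _ => 0) = 0 := by funext t; simp [vec]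
    obtain ⟨ct, g, h3, h4⟩ := run_ok hG (le_refl 65535) (by norm_num : 4095 ≤ 8191) h.le
      (h.inv hG) (tv tab (p / K) (p % K)) (tsum_blk h.le _ _) (tv_lt h.le _ _) _ 256 x 0 0 0
      (fun _ => 0) 0 0 le_rfl (fun _ => by omega) (by rw [e0, hG.zero]; exact Rep.zero)
      (by rw [sum_range_zero]; exact Rep.zero)
      (by rw [show pk 44 10 (fun _ => 0) = 0 by simp [pk]]; exact H.2)
    rw [force_eq, force_eq] at h4
    refine ⟨_, CL.leaf _ _ _, ⟨H.1.trans (Nat.le_succ p), fun W => ?_⟩, h4⟩
    refine ((((h3.mono (B' := 2 ^ 31) (by norm_num) (tv_sum h hG _ _ g)).smul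
      (mult (p / K) (p % K))).salt (h.g0 hG) (p % 65536)).smul
      (lane 33 W (p / K) * lane 33 W (p % K))).mono ?_ ?_
    · have b1 := Nat.mul_le_mul (lane_lt 33 W (p / K)).le (lane_lt 33 W (p % K)).le
      have b2 := mult_le (p / K) (p % K)
      have b4 : p % 65536 < 65536 := Nat.mod_lt _ (by norm_num)
      have b3 := Nat.mul_le_mul b1 (show mult (p / K) (p % K) * 2 ^ 31
        + p % 65536 ≤ 2 ^ 33 by generalize p % 65536 = y at b4; omega)
      have : 1 ≤ p.succ - lo := by
        have := H.1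
        omega
      exact (b3.trans (by norm_num)).trans (Nat.mul_le_mul_right (2 ^ 99) this)
    · exact single_le_sum (f := pv G tab K W) (fun _ _ => pv_nn hG W _)
        (mem_Ico.2 ⟨H.1, Nat.lt_succ_self p⟩)

/-- bounded conjunction -/
noncomputable def allLt (n : ℕ) (p : ℕ → Bool) : Bool :=
  Nat.rec true (fun i ih => (p i).and ih) n

lemma allLt_ok {n : ℕ} {p : ℕ → Bool} (h : allLt n p = true) : ∀ i < n, p i = true := by
  induction n with
  | zero => exact fun i hi => absurd hi (by omega)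
  | succ n ih =>
    have h1 : ((p n).and (allLt n p)) = true := h
    rw [Bool.and_eq_true] at h1
    intro i hi
    rcases Nat.lt_succ_iff_lt_or_eq.1 hi with h2 | rfl
    exacts [ih h1.2 i h2, h1.1]

/-- the loop over levels -/
noncomputable def loopT (c : ℕ → ℕ → ℕ → Bool) (R : List ℕ) : List ℕ → List ℕ → Bool :=
  List.rec (motive := fun _ => List ℕ → List ℕ → Bool) (fun _ _ => true)
    (fun r _ ih W P => (c (W.headD 0) (P.headD 0) r).and (ih W.tail P.tail)) R

lemma loopT_ok {c : ℕ → ℕ → ℕ → Bool} (R : List ℕ) : ∀ W P, loopT c R W P = true →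
    ∀ t < R.length, c (W.getD t 0) (P.getD t 0) (R.getD t 0) = true := by
  induction R with
  | nil => exact fun _ _ _ t ht => absurd ht (by simp)
  | cons r R ih =>
    intro W P h t ht
    have h1 : ((c (W.headD 0) (P.headD 0) r).and (loopT c R W.tail P.tail)) = true := h
    rw [Bool.and_eq_true] at h1
    cases t with
    | zero => cases W <;> cases P <;> exact h1.1
    | succ t =>
      have := ih _ _ h1.2 t (by simpa using ht)
      cases W <;> cases P <;> simpa using this

/-- one level -/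
noncomputable def lev (K : ℕ) (cl : CL) (W P R : ℕ) : Bool :=
  force W fun W => force (dotU W cl) fun U => allLt K fun l =>
    Nat.ble (Nat.mul 228698418577408 (lane 40 R l))
      (Nat.add (Nat.mul 228698418577408 (lane 40 P l)) (lane 116 U l))

/-- a piece of a table -/
noncomputable def chk (tab K p0 p1 : ℕ) (l : PL) (W P R : List ℕ) : Bool :=
  force tab fun tab => (Nat.ble p1 (Nat.add p0 65536)).and
    (pairs tab K l p0 fun lo cl => (Nat.ble lo p1).and (loopT (lev K cl) R W P))

/-- the pairs below `p` cover the vectors `P` -/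
def Cov (tab K : ℕ) (W : List ℕ) (p : ℕ) (P : List ℕ) : Prop :=
  ∀ G, Gd G → ∀ t, ∑ l ∈ range K, (228698418577408 * lane 40 (P.getD t 0) l : ℕ) * G (ray tab (10 * l))
    ≤ ∑ q ∈ range p, pv G tab K (W.getD t 0) q

lemma lane_zero (w i : ℕ) : lane w 0 i = 0 := by simp [lane_eq]

lemma cov_zero (W : List ℕ) : Cov tab K W 0 [] := fun G _ t => by simp [lane_zero]

theorem chk_ok (h : Tab tab K) {p0 p1 : ℕ} {l : PL} {W P R : List ℕ} (h0 : Cov tab K W p0 P)
    (h1 : chk tab K p0 p1 l W P R = true) : Cov tab K W p1 R := by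
  intro G hG t
  rw [chk, force_eq, Bool.and_eq_true, Nat.ble_eq] at h1
  obtain ⟨lo, cl, h2, h3⟩ := pairs_ok h hG l p0 _ h1.2
  rw [Bool.and_eq_true, Nat.ble_eq] at h3
  rcases lt_or_ge t R.length with ht | ht
  · have h4 := loopT_ok R W P h3.2 t ht
    rw [lev, force_eq, force_eq] at h4
    have h5 := (h2.2 (W.getD t 0)).lanes (by
      have : lo - p0 ≤ 65536 := by have := h1.1; have := h3.1; simp only [Nat.add_eq] at *; omega
      exact (Nat.mul_le_mul_right (2 ^ 99) this).trans_lt (by norm_num))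
    have h6 := sum_le_sum_of_subset_of_nonneg (range_mono h.kb)
      (f := fun r => lane 116 (dotU (W.getD t 0) cl) r * G (ray tab (10 * r)))
      fun _ _ _ => mul_nonneg (Nat.cast_nonneg _) (hG.nn _ (ray_nn _ _))
    have h7 : ∑ q ∈ range p0, pv G tab K (W.getD t 0) q + ∑ q ∈ Ico p0 lo, pv G tab K (W.getD t 0) q
        ≤ ∑ q ∈ range p1, pv G tab K (W.getD t 0) q := by
      rw [sum_range_add_sum_Ico _ h2.1]
      exact sum_le_sum_of_subset_of_nonneg (range_mono h3.1) fun _ _ _ => pv_nn hG _ _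
    refine le_trans ?_ ((add_le_add (h0 G hG t) (h6.trans h5)).trans h7)
    rw [← sum_add_distrib]
    refine sum_le_sum fun l hl => ?_
    rw [← add_mul, ← Nat.cast_add]
    exact mul_le_mul_of_nonneg_right
      (Nat.cast_le.2 (Nat.le_of_ble_eq_true (allLt_ok h4 l (mem_range.1 hl))))
      (hG.nn _ (ray_nn _ _))
  · rw [List.getD_eq_default _ _ ht]
    simpa [lane_zero] using sum_nonneg fun q _ => pv_nn hG _ q

end Pool.Agent.Lib.PT5.BK
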