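import Pool.Agent.Lib.PT5.LDefs

/-! Chains and mixtures for the order `Dom`. -/

namespace Pool.Agent.Lib.PT5

open Finset Real RC5

/-- the sum of a functional over an orbit -/
noncomputable def Fd (F : Vec → ℝ) (v : Vec) : ℝ := ∑ g : D5, F (v ∘ g1 g)

/-- CD: chains of experiments (from SP, DOM) -/
def St_CD : Prop :=
  (∀ (I I' J J' : Type) [Fintype I] [Fintype I'] [Fintype J] [Fintype J'] (v : I → Vec)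
    (v' : I' → Vec) (u : J → Vec) (u' : J' → Vec), (∀ i, 0 ≤ v' i) → (∀ j, 0 ≤ u j) →
    (∀ i, 0 ≤ v i) → (∀ j, 0 ≤ u' j) → Dom v v' → Dom u u' → Dom (T2 v u) (T2 v' u')) ∧
  ∀ (I : ℕ → Type) [∀ n, Fintype (I n)] (E : ∀ n, I n → Vec) (k : ℕ),
    (∀ n i, 0 ≤ E n i) → Dom dl (E 0) → (∀ n < k, Dom (T2 (E n) (E n)) (E (n + 1))) →
    Dom (vS 1 k) (E k)

/-- MD: mixtures of orbits -/
def St_MD : Prop :=
  (∀ F v, Subl F → 0 ≤ v → (∑ t, v t) * F 1 ≤ Fd F v ∧ Fd F v ≤ (∑ t, v t) * ∑ t, F (dl t)) ∧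
  (∀ F t, Fd F (dl t) = ∑ t', F (dl t')) ∧
  (∀ F v g, Fd F (v ∘ g1 g) = Fd F v) ∧
  (∀ F, Subl F → Subl (Fd F)) ∧
  (∀ (K : Type) [Fintype K] (s : K → Vec) (w : K → ℝ) F, Subl F → (∀ l, 0 ≤ s l) →
    (∀ l, 0 ≤ w l) → ∑ i, F (mix s w i) = ∑ l, w l * Fd F (s l)) ∧
  ∀ (K K' : Type) [Fintype K] [Fintype K'] (s : K → Vec) (w : K → ℝ) (s' : K' → Vec)
    (w' : K' → ℝ) F, Subl F → (∀ l, 0 ≤ s l) → (∀ l, 0 ≤ w l) → (∀ l, 0 ≤ s' l) →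
    (∀ l, 0 ≤ w' l) → ∑ i, F (T2 (mix s w) (mix s' w') i)
      = ∑ i, ∑ j, w i * w' j * ∑ g : D5, Fd F (Am 1 (Vm (s i) (s' j ∘ g1 g)))

end Pool.Agent.Lib.PT5
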