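import Pool.Agent.Lib.PT5.BK3
import Pool.Agent.Lib.PT5.DDefs

/-! Checker for tables of splittings into rays: from tables to the order of experiments. -/

namespace Pool.Agent.Lib.PT5.BK

open Finset RC5 Pool.Agent.Lib.VC2.TB

/-- the mixture with packed rays and weights -/
noncomputable def Ex (tab K W : ℕ) : Fin K × D5 → Vec :=
  mix (fun l : Fin K => ray tab (10 * l)) fun l : Fin K => (lane 33 W l : ℝ) / 2 ^ 44

/-- the gain of a functional -/
noncomputable def gn (F : Vec → ℝ) (v : Vec) : ℝ := (∑ t, v t) * ∑ t, F (dl t) - Fd F v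

variable {F G : Vec → ℝ} {tab K W : ℕ}

lemma gd_gn (hM : St_MD) (hF : Subl F) : Gd (gn F) where
  add v w hv hw := by
    have := (hM.2.2.2.1 F hF).1 v w hv hw
    simp only [gn, Pi.add_apply, sum_add_distrib]
    linarith
  smul a v ha hv := by
    simp only [gn, Pi.smul_apply, smul_eq_mul, ← mul_sum, (hM.2.2.2.1 F hF).2 a v ha hv]
    ring
  nn v hv := sub_nonneg.2 (hM.1 F v hF hv).2
  inv v g := by
    have hb : Function.Bijective (g1 g) := by revert g; decide +kernel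
    simp only [gn, hM.2.2.1, Function.comp, hb.sum_comp v]
  dl t := by
    rw [gn, hM.2.1]
    simp [dl, Pi.single_apply]

lemma ex_nn (i : Fin K × D5) : 0 ≤ Ex tab K W i :=
  smul_nonneg (by positivity) (CMX.comp_nonneg (ray_nn _ _) _)

/-- total weight -/
noncomputable def tw (K W : ℕ) : ℕ := Nat.rec 0 (fun l ih => Nat.add ih (lane 33 W l)) K

lemma tw_eq (K W : ℕ) : tw K W = ∑ l ∈ range K, lane 33 W l := by
  induction K with
  | zero => rfl
  | succ K ih => rw [sum_range_succ, ← ih]; rfl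

lemma tw_one (h : tw K W = 2 ^ 32) : ∑ l : Fin K, (lane 33 W l : ℝ) / 2 ^ 44 * 4096 = 1 := by
  rw [← sum_mul, ← sum_div, Fin.sum_univ_eq_sum_range fun l => (lane 33 W l : ℝ), ← Nat.cast_sum,
    ← tw_eq, h]
  norm_num

lemma ex_sum (hM : St_MD) (hF : Subl F) (h : Tab tab K) (hw : tw K W = 2 ^ 32) :
    ∑ i, F (Ex tab K W i) = ∑ t, F (dl t)
      - (∑ l ∈ range K, lane 33 W l * gn F (ray tab (10 * l))) / 2 ^ 44 := by
  rw [Ex, hM.2.2.2.2.1 _ _ _ F hF (fun _ => ray_nn _ _) (fun _ => by positivity),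
    ← Fin.sum_univ_eq_sum_range fun l => lane 33 W l * gn F (ray tab (10 * l)), sum_div,
    ← one_mul (∑ t, F (dl t)), ← tw_one hw, sum_mul, ← sum_sub_distrib]
  refine sum_congr rfl fun l _ => ?_
  rw [gn, h.sum l l.2]
  ring

lemma mass (a b : Vec) :
    ∑ g : D5, ∑ t, Am 1 (Vm a (b ∘ g1 g)) t = (∑ t, a t) * ∑ t, b t := by
  have hb : Function.Bijective io1 := by decide +kernel
  have h1 : ∀ u, ∑ g : D5, b (g1 g u) = ∑ t, b t := fun u => (CMX.bij_t u).sum_comp b
  have h2 : ∀ t, ∑ g : D5, Vm a (b ∘ g1 g) t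
      = 4 / 13 * (2 * (a (t.1, false) + a (t.1, true)) - 3 / 4 * a t) * ∑ t, b t := fun t => by
    simp only [Vm, Function.comp, ← mul_sum, sum_sub_distrib, sum_add_distrib, h1]
    ring
  simp only [Am, sub_self, zero_mul, zero_add, one_mul, hb.sum_comp (Vm a _)]
  rw [sum_comm, sum_congr rfl fun t _ => h2 t, ← sum_mul]
  congr 1
  simp only [Fintype.sum_prod_type, Fintype.sum_bool]
  exact sum_congr rfl fun c _ => by ring

lemma t2_sum (hM : St_MD) (hF : Subl F) (h : Tab tab K) (hw : tw K W = 2 ^ 32) :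
    ∑ i, F (T2 (Ex tab K W) (Ex tab K W) i) = ∑ t, F (dl t) - (∑ i ∈ range K, ∑ j ∈ range K,
      (lane 33 W i * lane 33 W j : ℕ) * pg (gn F) tab i j) / 2 ^ 88 := by
  have e : ∀ x : ℝ, x = ((∑ l : Fin K, (lane 33 W l : ℝ) / 2 ^ 44 * 4096)
      * ∑ l : Fin K, (lane 33 W l : ℝ) / 2 ^ 44 * 4096) * x := fun x => by
    rw [tw_one hw, one_mul, one_mul]
  rw [Ex, hM.2.2.2.2.2 _ _ _ _ _ _ F hF (fun _ => ray_nn _ _) (fun _ => by positivity)
    (fun _ => ray_nn _ _) (fun _ => by positivity),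
    ← Fin.sum_univ_eq_sum_range fun i => ∑ j ∈ range K,
      ((lane 33 W i * lane 33 W j : ℕ) : ℝ) * pg (gn F) tab i j, sum_div,
    e (∑ t, F (dl t)), sum_mul_sum, sum_mul, ← sum_sub_distrib]
  refine sum_congr rfl fun i _ => ?_
  rw [← Fin.sum_univ_eq_sum_range fun j =>
    ((lane 33 W i * lane 33 W j : ℕ) : ℝ) * pg (gn F) tab i j, sum_div, sum_mul, ← sum_sub_distrib]
  refine sum_congr rfl fun j _ => ?_
  simp only [pg, gn, sum_sub_distrib, ← sum_mul, mass, h.sum i i.2, h.sum j j.2]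
  push_cast
  ring

lemma pg_symm (hG : Gd G) (i j : ℕ) : pg G tab i j = pg G tab j i := by
  have hb : Function.Bijective CMX.iv := by decide +kernel
  rw [pg, pg, ← hb.sum_comp]
  refine sum_congr rfl fun g _ => ?_
  rw [← hG.inv _ g, ← CMX.am_g, ← CMX.vm_g]
  have e : ∀ v : Vec, (v ∘ g1 (CMX.iv g)) ∘ g1 g = v := fun v => funext fun t =>
    congrArg v ((CMX.inv_d g _ t).1 rfl).symm
  rw [e]
  congr 2
  funext t
  simp only [Vm]
  ring

lemma sum_sq (φ : ℕ → ℕ → ℝ) (hK : 0 < K) (n : ℕ) :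
    ∑ q ∈ range (n * K), φ (q / K) (q % K) = ∑ i ∈ range n, ∑ j ∈ range K, φ i j := by
  induction n with
  | zero => simp
  | succ n ih =>
    rw [add_mul, one_mul, sum_range_add, ih, sum_range_succ]
    congr 1
    refine sum_congr rfl fun j hj => ?_
    rw [mul_comm, Nat.mul_add_div hK, Nat.mul_add_mod, Nat.div_eq_of_lt (mem_range.1 hj),
      Nat.mod_eq_of_lt (mem_range.1 hj), add_zero]

lemma mult_add (i j : ℕ) : mult i j + mult j i = 2 := by
  unfold mult
  cases h1 : Nat.blt i j <;> cases h2 : Nat.blt j i <;> cases h3 : Nat.beq i j <;>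
    cases h4 : Nat.beq j i <;>
    simp only [← Bool.not_eq_true, Nat.blt_eq, Nat.beq_eq] at h1 h2 h3 h4 <;>
    first | rfl | omega

lemma pv_sum (hG : Gd G) (hK : 0 < K) : ∑ q ∈ range (K * K), pv G tab K W q
    = 3328 * ∑ i ∈ range K, ∑ j ∈ range K, (lane 33 W i * lane 33 W j : ℕ) * pg G tab i j := by
  have e := sum_sq (fun i j => ((lane 33 W i * lane 33 W j : ℕ) : ℝ)
    * (mult i j * (3328 * pg G tab i j))) hK K
  have e2 : ∑ i ∈ range K, ∑ j ∈ range K, ((lane 33 W i * lane 33 W j : ℕ) : ℝ)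
      * (mult i j * (3328 * pg G tab i j)) = ∑ i ∈ range K, ∑ j ∈ range K,
        ((lane 33 W i * lane 33 W j : ℕ) : ℝ) * (mult j i * (3328 * pg G tab i j)) := by
    rw [sum_comm]
    refine sum_congr rfl fun i _ => sum_congr rfl fun j _ => ?_
    rw [pg_symm hG, mul_comm (lane 33 W j)]
  have e3 : ∑ i ∈ range K, ∑ j ∈ range K, ((lane 33 W i * lane 33 W j : ℕ) : ℝ)
      * (mult i j * (3328 * pg G tab i j)) + ∑ i ∈ range K, ∑ j ∈ range K,
        ((lane 33 W i * lane 33 W j : ℕ) : ℝ) * (mult j i * (3328 * pg G tab i j))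
      = 2 * (3328 * ∑ i ∈ range K, ∑ j ∈ range K,
        (lane 33 W i * lane 33 W j : ℕ) * pg G tab i j) := by
    simp only [mul_sum, ← sum_add_distrib]
    refine sum_congr rfl fun i _ => sum_congr rfl fun j _ => ?_
    have : (mult i j : ℝ) + mult j i = 2 := by exact_mod_cast mult_add i j
    linear_combination ((lane 33 W i * lane 33 W j : ℕ) : ℝ) * (3328 * pg G tab i j) * this
  unfold pv
  linarith

lemma sum_lanes (hG : Gd G) (h : Tab tab K) {f g : ℕ → ℕ} (H : ∀ l < K - 1, f (l + 1) ≤ g (l + 1)) :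
    ∑ l ∈ range K, f l * G (ray tab (10 * l)) ≤ ∑ l ∈ range K, g l * G (ray tab (10 * l)) := by
  refine sum_le_sum fun l hl => ?_
  cases l with
  | zero => rw [h.g0 hG, mul_zero, mul_zero]
  | succ l =>
    exact mul_le_mul_of_nonneg_right (Nat.cast_le.2 (H l (by have := mem_range.1 hl; omega)))
      (hG.nn _ (ray_nn _ _))

/-- the weights of the next level are covered -/
noncomputable def fin (K : ℕ) (W P : List ℕ) : Bool :=
  loopT (fun w w' p => force w fun w => force w' fun w' => force p fun p =>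
    ((Nat.beq (tw K w) 4294967296).and (Nat.beq (tw K w') 4294967296)).and
      (allLt (Nat.pred K) fun l =>
        Nat.ble (Nat.mul 256 (lane 33 w' (Nat.succ l))) (lane 40 p (Nat.succ l)))) P W W.tail

theorem phase (hM : St_MD) (hC : St_CD) (hv : ∀ k b, 0 ≤ vS 1 k b) (h : Tab tab K)
    {W P : List ℕ} (h1 : Cov tab K W (K * K) P) (h2 : fin K W P = true) {k : ℕ}
    (h3 : Dom (vS 1 k) (Ex tab K (W.getD 0 0))) :
    ∀ t ≤ P.length, Dom (vS 1 (k + t)) (Ex tab K (W.getD t 0)) := by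
  intro t
  induction t with
  | zero => exact fun _ => h3
  | succ t ih =>
    intro ht F hF
    have h4 := loopT_ok P W W.tail h2 t ht
    have e : W.tail.getD t 0 = W.getD (t + 1) 0 := by cases W <;> simp
    rw [force_eq, force_eq, force_eq, Bool.and_eq_true, Bool.and_eq_true, e] at h4
    have hG := gd_gn hM hF
    refine (hC.1 _ _ _ _ _ _ _ _ ex_nn (hv _) (hv _) ex_nn (ih (by omega)) (ih (by omega))
      F hF).trans ?_
    rw [t2_sum hM hF h (Nat.eq_of_beq_eq_true h4.1.1), ex_sum hM hF h (Nat.eq_of_beq_eq_true h4.1.2)]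
    have h5 := h1 _ hG t
    rw [pv_sum hG h.pos] at h5
    have h6 := sum_lanes hG h (f := fun l => 256 * lane 33 (W.getD (t + 1) 0) l)
      (g := fun l => lane 40 (P.getD t 0) l) fun l hl => Nat.le_of_ble_eq_true (allLt_ok h4.2 l hl)
    simp only [Nat.cast_mul, Nat.cast_ofNat, mul_assoc, ← mul_sum] at h5 h6 ⊢
    linarith

theorem start (hM : St_MD) (hD : St_DOM) (h : Tab tab K) : Dom (vS 1 0) (Ex tab K 4294967296) := by
  intro F hF
  have e : ∀ l, lane 33 4294967296 (l + 1) = 0 := fun l => by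
    rw [lane_eq, Nat.div_eq_of_lt, Nat.zero_mod]
    exact lt_of_lt_of_le (by norm_num) (Nat.pow_le_pow_right (n := 2) (i := 33) (by norm_num)
      (by omega))
  obtain ⟨K, rfl⟩ : ∃ n, K = n + 1 := ⟨K - 1, by have := h.pos; omega⟩
  rw [ex_sum hM hF h (by rw [tw_eq, sum_range_succ']; simp only [e, sum_const_zero]; decide +kernel),
    sum_range_succ', h.g0 (gd_gn hM hF)]
  simpa [e, dl] using (hD 0).2.2 F hF

end Pool.Agent.Lib.PT5.BK
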