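import Pool.Agent.Lib.PT5.Kit1
import Pool.Agent.Lib.PT5.BBlue

/-! Basic facts on the repair messages. -/

namespace Pool.Agent.Lib.PT5

open Finset RC5 Function

theorem tv_iff {p : Prop} : tv p = true ↔ p := by simp [tv]

section Step
variable {D a b a' b' : ℕ} {e e' : Bool × ℕ}

theorem fs_comm (D : ℕ) (e : Bool × ℕ) (a b : ℕ) : fs D e a b = fs D e b a := by
  rw [fs, fs, add_comm a b, min_comm a b]

theorem fs_le_ceil : fs D e a b ≤ e.2 := min_le_left _ _

theorem fs_le_cap : fs D e a b ≤ D + 1 := by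
  unfold fs
  split_ifs <;> omega

theorem fs_pos (h : 1 ≤ e.2) : 1 ≤ fs D e a b := by
  unfold fs
  split_ifs <;> omega

theorem fs_seed (h : e.1 = true) (k : 1 ≤ e.2) : fs D e a b = 1 := by
  rw [fs, if_pos (Or.inl h)]
  omega

theorem fs_mono (h1 : e'.1 = true → e.1 = true) (h2 : e.2 ≤ e'.2) (ha : a ≤ a') (hb : b ≤ b') :
    fs D e a b ≤ fs D e' a' b' := by
  unfold fs
  by_cases k : e'.1 = true ∨ a' + b' ≤ D
  · rw [if_pos k, if_pos (k.imp h1 fun _ => by omega)]
    omega
  · rw [if_neg k]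
    split_ifs <;> omega

end Step

section Sys
variable {V α : Type} {D : ℕ} {m : V × Fin 3 → V × Fin 3} {en en' : V × Fin 3 → Bool × ℕ}

theorem mm_succ (t : ℕ) (d : V × Fin 3) (b : Bool) : mm D m en (t + 1) d
    = fs D (en d) (mm D m en t (ch m d b)) (mm D m en t (ch m d (!b))) := by
  cases b
  · rfl
  · exact fs_comm _ _ _ _

theorem mm_le_cap (t : ℕ) (d : V × Fin 3) : mm D m en t d ≤ D + 1 := by
  cases t
  · exact le_rfl
  · exact fs_le_cap

theorem mm_pos (h : ∀ d, 1 ≤ (en d).2) (t : ℕ) (d : V × Fin 3) : 1 ≤ mm D m en t d := by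
  cases t
  · exact Nat.le_add_left _ _
  · exact fs_pos (h d)

theorem mm_le_ceil {t : ℕ} (h : 1 ≤ t) (d : V × Fin 3) : mm D m en t d ≤ (en d).2 := by
  obtain ⟨t, rfl⟩ := Nat.exists_eq_add_of_le' h
  exact fs_le_ceil

theorem mm_env_mono (h1 : ∀ d, (en' d).1 = true → (en d).1 = true) (h2 : ∀ d, (en d).2 ≤ (en' d).2) :
    ∀ t d, mm D m en t d ≤ mm D m en' t d
  | 0, _ => le_rfl
  | t + 1, d => fs_mono (h1 d) (h2 d) (mm_env_mono h1 h2 t _) (mm_env_mono h1 h2 t _)

theorem mm_succ_le : ∀ t d, mm D m en (t + 1) d ≤ mm D m en t d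
  | 0, _ => fs_le_cap
  | t + 1, _ => fs_mono id le_rfl (mm_succ_le t _) (mm_succ_le t _)

theorem mm_anti {t t' : ℕ} (h : t ≤ t') (d : V × Fin 3) : mm D m en t' d ≤ mm D m en t d :=
  antitone_nat_of_succ_le (f := fun t => mm D m en t d) (fun t => mm_succ_le t d) h

theorem mm_sand {s t u : ℕ} {d : V × Fin 3} (h1 : s ≤ t) (h2 : t ≤ u)
    (h : mm D m en s d = mm D m en u d) : mm D m en t d = mm D m en s d :=
  le_antisymm (mm_anti h1 d) (h ▸ mm_anti h2 d)

theorem mm_congr : ∀ (t : ℕ) (d : V × Fin 3),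
    (∀ w : List Bool, w.length < t → en (des m d w) = en' (des m d w)) →
      mm D m en t d = mm D m en' t d
  | 0, _, _ => rfl
  | t + 1, d, h => by
    rw [mm, mm, show en d = en' d from h [] (by simp),
      mm_congr t _ fun w hw => h (false :: w) (by simpa using hw),
      mm_congr t _ fun w hw => h (true :: w) (by simpa using hw)]

theorem mm_desc : ∀ (j t : ℕ) (d : V × Fin 3), mm D m en (t + j + 1) d ≠ mm D m en (t + j) d →
    ∃ w : List Bool, w.length = j ∧ mm D m en (t + 1) (des m d w) ≠ mm D m en t (des m d w)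
  | 0, _, _, h => ⟨[], rfl, h⟩
  | j + 1, t, d, h => by
    have : ∃ b, mm D m en (t + j + 1) (ch m d b) ≠ mm D m en (t + j) (ch m d b) := by
      by_contra k
      push Not at k
      exact h (by rw [mm, ← add_assoc, k, k]; rfl)
    obtain ⟨b, hb⟩ := this
    obtain ⟨w, h1, h2⟩ := mm_desc j t _ hb
    exact ⟨b :: w, by simp [h1], h2⟩

theorem push_mono {σ : V × Fin 3 → ℕ} {a a' : ℕ} (h : a ≤ a') : ∀ (w : List Bool) (d : V × Fin 3),
    push D m en σ d w a ≤ push D m en σ d w a'
  | [], _ => h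
  | _ :: l, _ => fs_mono id le_rfl (push_mono h l _) le_rfl

theorem push_congr {σ σ' : V × Fin 3 → ℕ} (a : ℕ) : ∀ (w : List Bool) (d : V × Fin 3),
    (∀ u b v, w = u ++ b :: v → en (des m d u) = en' (des m d u) ∧
      σ (des m d (u ++ [!b])) = σ' (des m d (u ++ [!b]))) →
    push D m en σ d w a = push D m en' σ' d w a
  | [], _, _ => rfl
  | b :: l, d, h => by
    rw [push, push, show en d = en' d from (h [] b l rfl).1,
      show σ (ch m d (!b)) = σ' (ch m d (!b)) from (h [] b l rfl).2,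
      push_congr a l _ fun u c v e => h (b :: u) c v (by rw [e]; rfl)]

theorem side_iff {σ σ' : V × Fin 3 → ℕ} : ∀ (w : List Bool) (d : V × Fin 3), Side m σ σ' d w ↔
    ∀ u b v, w = u ++ b :: v → σ (des m d (u ++ [!b])) = σ' (des m d (u ++ [!b]))
  | [], _ => ⟨fun _ u b v e => by simp at e, fun _ => trivial⟩
  | b :: l, d => by
    rw [Side, side_iff l]
    refine ⟨fun h u c v e => ?_, fun h => ⟨h [] b l rfl, fun u c v e =>
      h (b :: u) c v (by rw [e]; rfl)⟩⟩
    cases u with
    | nil => obtain ⟨rfl, -⟩ := List.cons.inj e; exact h.1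
    | cons a u => obtain ⟨rfl, e'⟩ := List.cons.inj e; exact h.2 u c v e'

/-- Along a path with the right side values the message is pushed up. -/
theorem mm_push {σ : V × Fin 3 → ℕ} (t : ℕ) : ∀ (w : List Bool) (d : V × Fin 3),
    (∀ u b v, w = u ++ b :: v →
      mm D m en (t + v.length) (des m d (u ++ [!b])) = σ (des m d (u ++ [!b]))) →
    mm D m en (t + w.length) d = push D m en σ d w (mm D m en t (des m d w))
  | [], _, _ => rfl
  | b :: l, d, h => by
    rw [List.length_cons, ← add_assoc, mm_succ _ _ b, push, des,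
      mm_push t l _ fun u c v e => h (b :: u) c v (by rw [e]; rfl)]
    exact congrArg _ (h [] b l rfl)

theorem beh_des {e i : V × Fin 3} {w : List Bool} (h : Beh m (des m e w) i) : Beh m e i :=
  h.elim fun v hv => ⟨w ++ v, by rwa [des_append]⟩

theorem beh_m (e : V × Fin 3) (w : List Bool) : Beh m e (m (des m e w)) := ⟨w, rfl⟩

theorem beh_cov (hm : Invo m) (d : V × Fin 3) {e i : TD} (h : Beh tm e i) :
    Beh m (cov m d e) (cov m d i) := by
  obtain ⟨w, hw⟩ := h
  obtain ⟨j, rfl⟩ := exists_rho hw.symm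
  exact ⟨w, by rw [cov_rho, rho_fst, cov_tm hm, cov_des hm]⟩

theorem nb_d0 (r : ℕ) : Nb tm r d0 = Ball r := by
  ext t
  simp [Nb, cov_id]

theorem nb_cov [DecidableEq V] (hm : Invo m) (d : V × Fin 3) (r : ℕ) (e : TD) :
    (Nb tm r e).image (cov m d) = Nb m r (cov m d e) := by
  rw [Nb, Nb, image_image]
  exact image_congr fun t _ => cov_cov hm d e t

theorem env_cov (hm : Invo m) (F : (TD → α) → Bool × ℕ) (x : V × Fin 3 → α) (d : V × Fin 3) :
    env tm F (x ∘ cov m d) = env m F x ∘ cov m d :=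
  funext fun t => congrFun (at_at hm F t d) x

theorem mm_cov (hm : Invo m) (d : V × Fin 3) : ∀ (t : ℕ) (i : TD),
    mm D tm (en ∘ cov m d) t i = mm D m en t (cov m d i)
  | 0, _ => rfl
  | t + 1, i => by rw [mm, mm, mm_cov hm d t, mm_cov hm d t, cov_ch hm, cov_ch hm]; rfl

theorem mm_env (hm : Invo m) (F : (TD → α) → Bool × ℕ) (x : V × Fin 3 → α) (t : ℕ)
    (d : V × Fin 3) : mm D m (env m F x) t d = mT D F t (x ∘ cov m d) := by
  rw [mT, env_cov hm, mm_cov hm, cov_d0]

theorem push_cov (hm : Invo m) (d : V × Fin 3) (σ : V × Fin 3 → ℕ) (a : ℕ) :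
    ∀ (w : List Bool) (i : TD), push D tm (en ∘ cov m d) (σ ∘ cov m d) i w a
      = push D m en σ (cov m d i) w a
  | [], _ => rfl
  | b :: l, i => by rw [push, push, push_cov hm d σ a l, comp_apply, comp_apply, cov_ch hm, cov_ch hm]

theorem side_cov (hm : Invo m) (d : V × Fin 3) (σ σ' : V × Fin 3 → ℕ) :
    ∀ (w : List Bool) (i : TD), Side tm (σ ∘ cov m d) (σ' ∘ cov m d) i w ↔
      Side m σ σ' (cov m d i) w
  | [], _ => Iff.rfl
  | b :: l, i => by rw [Side, Side, side_cov hm d σ σ' l, comp_apply, comp_apply, cov_ch hm, cov_ch hm]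

theorem bl_cov (hm : Invo m) (d : V × Fin 3) (s : ℕ) (i : TD) (w : List Bool) :
    Bl D tm (en ∘ cov m d) s i w ↔ Bl D m en s (cov m d i) w := by
  rw [Bl, Bl, show mm D tm (en ∘ cov m d) s = mm D m en s ∘ cov m d from funext (mm_cov hm d s),
    push_cov hm, push_cov hm, comp_apply, cov_des hm]

theorem bp_cov (hm : Invo m) (d : V × Fin 3) (s : ℕ) (i : TD) (w : List Bool) :
    Bp D tm (en ∘ cov m d) s i w ↔ Bp D m en s (cov m d i) w := by
  rw [Bp, Bp, bl_cov hm, show mm D tm (en ∘ cov m d) s = mm D m en s ∘ cov m d from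
    funext (mm_cov hm d s), show mm D tm (en ∘ cov m d) (s - w.length)
      = mm D m en (s - w.length) ∘ cov m d from funext (mm_cov hm d _), side_cov hm]

theorem env_dep [DecidableEq V] {F : (TD → α) → Bool × ℕ} {r : ℕ} (h : Dep F (Ball r))
    {x y : V × Fin 3 → α} {g : V × Fin 3} (k : ∀ i ∈ Nb m r g, x i = y i) :
    env m F x g = env m F y g := h.at_ m g x y k

variable {F : (TD → α) → Bool × ℕ}

theorem loc_mm (h : Loc F) : ∀ (t : ℕ) (d : V × Fin 3), Loc fun x => mm D m (env m F x) t d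
  | 0, _ => Loc.const _
  | t + 1, d => (h.at_ m d).map₂ ((loc_mm h t (ch m d false)).map₂ (loc_mm h t (ch m d true))
      Prod.mk) fun e p => fs D e p.1 p.2

theorem loc_mT (h : Loc F) (t : ℕ) : Loc (mT D F t) := loc_mm h t d0

theorem loc_push (h : Loc F) (s : ℕ) {a : (V × Fin 3 → α) → ℕ} (ha : Loc a) :
    ∀ (w : List Bool) (d : V × Fin 3),
      Loc fun x => push D m (env m F x) (mm D m (env m F x) s) d w (a x)
  | [], _ => ha
  | b :: l, d => (h.at_ m d).map₂ ((loc_push h s ha l (ch m d b)).map₂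
      (loc_mm (D := D) h s (ch m d (!b))) Prod.mk) fun e p => fs D e p.1 p.2

theorem loc_side (h : Loc F) (s t : ℕ) : ∀ (w : List Bool) (d : V × Fin 3),
    Loc fun x => Side m (mm D m (env m F x) s) (mm D m (env m F x) t) d w
  | [], _ => Loc.const _
  | b :: l, d => ((loc_mm h s (ch m d (!b))).map₂ (loc_mm h t (ch m d (!b))) Eq).map₂
      (loc_side h s t l (ch m d b)) And

theorem loc_bl (h : Loc F) (s : ℕ) (d : V × Fin 3) (w : List Bool) :
    Loc fun x => Bl D m (env m F x) s d w :=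
  (loc_push h s (Loc.const 1) w d).map₂
    (loc_push h s ((h.at_ m (des m d w)).map Prod.snd) w d) Ne

theorem loc_bp (h : Loc F) (s : ℕ) (d : V × Fin 3) (w : List Bool) :
    Loc fun x => Bp D m (env m F x) s d w :=
  (loc_bl h s d w).map₂ ((loc_side h _ s w d).map Not) Or

variable {K : (TD → α) → Bool} {o : (TD → α) → ℕ} {r : ℕ}

theorem tm_d0_mem (r : ℕ) : tm d0 ∈ Ball r := by rw [tm_d0, mem_Ball]; exact Nat.zero_le _

theorem dep_kS (h : Dep K (Ball r)) : Dep (kS K) (Ball r) := fun x y a => by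
  rw [kS, kS, a _ (tm_d0_mem r), h _ (fun i => (y i).1) fun i hi => congrArg Prod.fst (a i hi)]

theorem dep_envS (h : Dep K (Ball r)) (k : Dep o (Ball r)) : Dep (envS K o) (Ball r) :=
  fun x y a => by
    rw [envS, envS, dep_kS h x y a, k _ (fun i => (y i).1) fun i hi => congrArg Prod.fst (a i hi)]

theorem env_envS (hm : Invo m) (x : V × Fin 3 → α × Bool) (g : V × Fin 3) :
    env m (envS K o) x g
      = (K (fun i => (x (cov m g i)).1) || (x (m g)).2, o fun i => (x (cov m g i)).1) := by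
  simp only [env, at_, envS, kS, comp_apply, cov_tm hm, cov_d0]

theorem envS_congr [DecidableEq V] (hm : Invo m) (h : Dep K (Ball r)) (k : Dep o (Ball r))
    {x y : V × Fin 3 → α × Bool} {g : V × Fin 3} (a : ∀ i ∈ Nb m r g, (x i).1 = (y i).1)
    (b : (x (m g)).2 = (y (m g)).2) : env m (envS K o) x g = env m (envS K o) y g := by
  rw [env_envS hm, env_envS hm, b,
    h _ (fun i => (y (cov m g i)).1) fun i hi => a _ (mem_image_of_mem _ hi),
    k _ (fun i => (y (cov m g i)).1) fun i hi => a _ (mem_image_of_mem _ hi)]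

theorem setx_fst {ι : Type} [DecidableEq ι] (x : ι → α × Bool) (i j : ι) (c : Bool) :
    (setx x i c j).1 = (x j).1 := by
  by_cases h : j = i
  · rw [h, setx, update_self]
  · rw [setx, update_of_ne h]

theorem setx_self {ι : Type} [DecidableEq ι] (x : ι → α × Bool) (i : ι) (c : Bool) :
    (setx x i c i).2 = c := by rw [setx, update_self]

theorem setx_ne {ι : Type} [DecidableEq ι] (x : ι → α × Bool) {i j : ι} (h : j ≠ i) (c : Bool) :
    setx x i c j = x j := update_of_ne h _ _

theorem Loc.setx {ι β : Type} [DecidableEq ι] {f : (ι → α × Bool) → β} (h : Loc f) (i : ι)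
    (c : Bool) : Loc fun x => f (setx x i c) :=
  h.imp fun _ k x y a => k _ _ fun j hj => by
    by_cases e : j = i
    · rw [e, PT5.setx, PT5.setx, update_self, update_self, ← e, a j hj]
    · rw [setx_ne _ e, setx_ne _ e, a j hj]

/-- More seeds give smaller messages. -/
theorem mT_setx (t : ℕ) (x : TD → α × Bool) (i : TD) :
    mT D (envS K o) t (setx x i true) ≤ mT D (envS K o) t x := by
  refine mm_env_mono (fun d => ?_) (fun d => ?_) t d0 <;>
    simp only [env_envS tm_invo, setx_fst, le_refl, Bool.or_eq_true]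
  refine Or.imp id fun h => ?_
  by_cases e : tm d = i
  · rw [e, setx_self]
  · rwa [setx_ne _ e]

end Sys

section Prob
variable {A : LS}

theorem pr_at {V : Type} [DecidableEq V] {m : V × Fin 3 → V × Fin 3} {p : (TD → A.L) → Prop}
    {r : ℕ} (h : Dep p (Ball r)) (hm : Inj m r) (d : V × Fin 3) : pr A (at_ m p d) = pr A p :=
  mn_at (h.map ind) hm d

theorem pr_at_tm {p : (TD → A.L) → Prop} (h : Loc p) (e : TD) : pr A (at_ tm p e) = pr A p :=
  mn_at_tm (h.map ind) e

theorem pr_indepS {ι : Type} [DecidableEq ι] {p q : (ι → A.L) → Prop} {S T : ι → Prop}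
    (hp : Loc p) (hq : Loc q) (kp : DepS p S) (kq : DepS q T) (h : ∀ i, S i → ¬ T i) :
    pr A (fun x => p x ∧ q x) = pr A p * pr A q := by
  obtain ⟨B, h1, h2⟩ := hp.inside (S := {i | S i}) kp
  obtain ⟨B', h3, h4⟩ := hq.inside (S := {i | T i}) kq
  exact pr_indep h2 h4 (disjoint_left.2 fun i a b => h i (h1 a) (h3 b))

theorem pr_mm {D : ℕ} {F : (TD → A.L) → Bool × ℕ} (h : Loc F) (s t : ℕ) (p : ℕ → ℕ → Prop)
    (e : TD) : pr A (fun x => p (mm D tm (env tm F x) s e) (mm D tm (env tm F x) t e))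
      = pr A fun x => p (mT D F s x) (mT D F t x) := by
  simp only [mm_env tm_invo]
  exact pr_at_tm ((loc_mT h s).map₂ (loc_mT h t) p) e

theorem pr_side {D : ℕ} {F : (TD → A.L) → Bool × ℕ} (h : Loc F) (s t : ℕ) :
    ∀ (w : List Bool) (e : TD),
      pr A (fun x => ¬ Side tm (mm D tm (env tm F x) s) (mm D tm (env tm F x) t) e w)
        ≤ w.length * pr A fun x => mT D F s x ≠ mT D F t x
  | [], _ => by simp [Side, pr, ind_neg, mn_const]
  | b :: l, e => by
    have l1 := (loc_mm (D := D) (m := tm) h s (ch tm e (!b))).map₂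
      (loc_mm (D := D) (m := tm) h t (ch tm e (!b))) Ne
    have l2 := (loc_side (D := D) (m := tm) h s t l (ch tm e b)).map Not
    have := (pr_mono ((loc_side h s t (b :: l) e).map Not) (l1.map₂ l2 Or)
      fun x hx => not_and_or.1 hx).trans (pr_or l1 l2)
    rw [pr_mm h s t Ne] at this
    have := pr_side h s t l (ch tm e b) (D := D)
    push_cast [List.length_cons]
    linarith

theorem pr_seed {ι : Type} [DecidableEq ι] {u : ℝ} (h0 : 0 ≤ u) (h1 : u ≤ 1) (i : ι) :
    pr (sd A u) (fun x : ι → A.L × Bool => (x i).2 = true) = u := by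
  have h : Loc fun y : ι → A.L × Bool => ind ((y i).2 = true) :=
    (Loc.eval i).map fun b : A.L × Bool => ind (b.2 = true)
  rw [pr, mn_update (A := sd A u) h i]
  simp [ind_pos, ind_neg, mn_const, min_eq_left h1, max_eq_right h0, Fintype.sum_prod_type,
    ← sum_mul, A.one]

theorem pr_fst {ι : Type} [DecidableEq ι] {p : (ι → A.L) → Prop} (h : Loc p) (u : ℝ) :
    pr (sd A u) (fun x : ι → A.L × Bool => p fun i => (x i).1) = pr A p := mn_fst (h.map ind)

end Prob

theorem sum_words_add {M : Type} [AddCommMonoid M] (k : ℕ) : ∀ (j : ℕ) (f : List Bool → M),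
    ∑ l ∈ words (j + k), f l = ∑ u ∈ words j, ∑ v ∈ words k, f (u ++ v)
  | 0, f => by simp [words]
  | j + 1, f => by
    rw [show j + 1 + k = j + k + 1 by omega, sum_words, sum_words, sum_words_add k j,
      sum_words_add k j]
    rfl

theorem Tr.sz_pos (Y : Tr) : 1 ≤ Y.sz := by cases Y <;> simp [Tr.sz]

theorem mem_upto : ∀ (h : ℕ) (Y : Tr), Y.sz ≤ h → Y ∈ upto h
  | 0, Y, k => absurd (Y.sz_pos.trans k) (by omega)
  | h + 1, .lf, _ => mem_insert_self _ _
  | h + 1, .un b t, k => mem_insert_of_mem (mem_union_left _ (mem_image.2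
      ⟨(b, t), mem_product.2 ⟨mem_univ _, mem_upto h t (by simpa [Tr.sz] using k)⟩, rfl⟩))
  | h + 1, .bi s t, k => mem_insert_of_mem (mem_union_right _ (mem_image.2
      ⟨(s, t), mem_product.2 ⟨mem_upto h s (by simp only [Tr.sz] at k; omega),
        mem_upto h t (by simp only [Tr.sz] at k; omega)⟩, rfl⟩))

theorem Tr.nil_mem (Y : Tr) : [] ∈ Y.nd := by cases Y <;> simp [Tr.nd]

theorem Tr.card_nd : ∀ Y : Tr, Y.nd.card ≤ Y.sz
  | .lf => le_rfl
  | .un _ t => (card_insert_le _ _).trans (Nat.succ_le_succ (card_image_le.trans t.card_nd))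
  | .bi s t => (card_insert_le _ _).trans (Nat.succ_le_succ ((card_union_le _ _).trans
      (add_le_add (card_image_le.trans s.card_nd) (card_image_le.trans t.card_nd))))

theorem Tr.len_nd : ∀ (Y : Tr) (v : List Bool), v ∈ Y.nd → v.length ≤ Y.sz
  | .lf, v, h => by simp [mem_singleton.1 h]
  | .un _ t, v, h => by
    rcases mem_insert.1 h with rfl | h
    · simp
    · obtain ⟨u, hu, rfl⟩ := mem_image.1 h
      simpa [Tr.sz] using t.len_nd u hu
  | .bi s t, v, h => by
    rcases mem_insert.1 h with rfl | h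
    · simp
    · rcases mem_union.1 h with h | h <;> obtain ⟨u, hu, rfl⟩ := mem_image.1 h
      · have := s.len_nd u hu
        simp only [Tr.sz, List.length_cons]; omega
      · have := t.len_nd u hu
        simp only [Tr.sz, List.length_cons]; omega

/-- the unfolding lemmas of the recursions are generated once, here -/
theorem seed_b : True := by
  have := @mm.eq_def
  have := @push.eq_def
  have := @Side.eq_def
  have := @ms.eq_def
  have := @ms.eq_1
  have := @ms.eq_2
  have := @upto.eq_def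
  have := @upto.eq_1
  have := @upto.eq_2
  have := @Ev.eq_def
  have := @Ev.eq_1
  have := @Ev.eq_2
  have := @Ev.eq_3
  have := @pw2.eq_def
  have := @pw2.eq_1
  have := @pw2.eq_2
  have := @pw2.eq_3
  have := @msP.eq_def
  have := @msP.eq_1
  have := @msP.eq_2
  have := @Tr.sz.eq_def
  have := @Tr.nd.eq_def
  trivial

end Pool.Agent.Lib.PT5
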