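import Pool.Agent.Lib.PT5.BKit

/-! Labels without large late trees. -/

namespace Pool.Agent.Lib.PT5

open Finset RC5 Function Filter

namespace BAVOID

/-- the nodes of an index -/
def nds : Option Tr → Finset (List Bool)
  | none => {[]}
  | some Y => Y.nd

/-- the support of an index -/
def sp {V : Type} [DecidableEq V] (m : V × Fin 3 → V × Fin 3) (R : ℕ) (e : V × Fin 3)
    (o : Option Tr) : Finset (V × Fin 3) := (nds o).biUnion fun v => Nb m R (des m e v)

theorem ex_N (C : ℕ) {z : ℝ} (hz : 1 < z) : ∃ N : ℕ, ((2 * N + 1) * ((2 * N + 1) * C) : ℕ) ≤ z ^ N := by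
  have h := tendsto_pow_const_div_const_pow_of_one_lt 2 hz
  have h1 := h.eventually (gt_mem_nhds (show (0 : ℝ) < 1 / (9 * C + 1) by positivity))
  obtain ⟨N, h2, h3⟩ := (h1.and (eventually_ge_atTop 1)).exists
  refine ⟨N, ?_⟩
  have hp : 0 < z ^ N := by positivity
  rw [div_lt_div_iff₀ hp (by positivity), one_mul] at h2
  have h4 : (1 : ℝ) ≤ N := by exact_mod_cast h3
  have h5 : (0 : ℝ) ≤ C := by positivity
  have h6 : (2 * (N : ℝ) + 1) * (2 * N + 1) ≤ 9 * N ^ 2 := by nlinarith
  push_cast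
  nlinarith [mul_le_mul_of_nonneg_right h6 h5]

theorem sp_cov {V : Type} [DecidableEq V] {m : V × Fin 3 → V × Fin 3} (hm : Invo m) (R : ℕ)
    (e : V × Fin 3) (o : Option Tr) : (sp tm R d0 o).image (cov m e) = sp m R e o := by
  rw [sp, sp, biUnion_image]
  exact biUnion_congr rfl fun v _ => by rw [nb_cov hm, cov_des hm, cov_d0]

theorem count {V : Type} [Fintype V] [DecidableEq V] {m : V × Fin 3 → V × Fin 3} (hm : Invo m)
    (R M : ℕ) (e : V × Fin 3) (o o' : Option Tr) (h : (nds o).card ≤ M) (h' : (nds o').card ≤ M) :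
    (univ.filter fun e' => ¬ Disjoint (sp m R e o) (sp m R e' o')).card ≤
      M * (M * (Ball R).card ^ 2) := by
  refine (card_le_card (t := (nds o).biUnion fun v => (nds o').biUnion fun v' =>
    univ.filter fun e' => ¬ Disjoint (Nb m R (des m e v)) (Nb m R (des m e' v')))
    fun e' he => ?_).trans ?_
  · obtain ⟨i, h1, h2⟩ := not_disjoint_iff.1 (mem_filter.1 he).2
    obtain ⟨v, hv, h3⟩ := mem_biUnion.1 h1
    obtain ⟨v', hv', h4⟩ := mem_biUnion.1 h2
    exact mem_biUnion.2 ⟨v, hv, mem_biUnion.2 ⟨v', hv', mem_filter.2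
      ⟨mem_univ _, not_disjoint_iff.2 ⟨i, h3, h4⟩⟩⟩⟩
  · refine (card_biUnion_le_card_mul _ _ (M * (Ball R).card ^ 2) fun v _ => ?_).trans
      (Nat.mul_le_mul_right _ h)
    refine (card_biUnion_le_card_mul _ _ ((Ball R).card ^ 2) fun v' _ => ?_).trans
      (Nat.mul_le_mul_right _ h')
    refine le_trans (card_le_card_of_injOn (fun e' => des m e' v') (fun e' he => ?_)
      (des_bij hm v').1.injOn) (card_meet hm (Ball R) (des m e v))
    exact mem_coe.2 (mem_filter.2 ⟨mem_univ _, (mem_filter.1 (mem_coe.1 he)).2⟩)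

end BAVOID

open BAVOID in
theorem st_AVOID (hL : St_LLL) (hG : St_GEO) : St_AVOID := by
  intro A R E0 E p z h0 hE p0 hp hz hs
  obtain ⟨N, hN⟩ := ex_N ((Ball R).card ^ 2) hz
  refine ⟨N, R + (2 * N + 1), fun n m hm hi S hS => ?_⟩
  have hv := invo_of_isM hm
  have pn : ∀ Y, 0 ≤ p Y := fun Y => (pr_nonneg _).trans (hp Y)
  set T : Finset Tr := (upto (2 * N + 1)).filter fun Y => Y.sz ≤ 2 * N + 1 with hT
  set Tb : Finset Tr := T.filter fun Y => N < Y.sz with hTb
  have mT : ∀ Y, Y ∈ T ↔ Y.sz ≤ 2 * N + 1 := fun Y =>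
    ⟨fun h => (mem_filter.1 h).2, fun h => mem_filter.2 ⟨mem_upto _ Y h, h⟩⟩
  have sT : ∑ Y ∈ T, p Y ≤ 1 / 100 := by
    refine le_trans ?_ (hs (2 * N + 1))
    refine (sum_le_sum (g := fun Y => p Y * z ^ Y.sz) fun Y _ =>
      le_mul_of_one_le_right (pn Y) (one_le_pow₀ hz.le)).trans ?_
    exact sum_le_sum_of_subset_of_nonneg (filter_subset _ _) fun Y _ _ =>
      mul_nonneg (pn Y) (by positivity)
  have sTb : ∑ Y ∈ Tb, z ^ N * p Y ≤ 1 / 100 := by
    refine le_trans ?_ (hs (2 * N + 1))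
    refine (sum_le_sum (g := fun Y => p Y * z ^ Y.sz) fun Y hY => ?_).trans ?_
    · rw [mul_comm]
      exact mul_le_mul_of_nonneg_left (pow_le_pow_right₀ hz.le (mem_filter.1 hY).2.le) (pn Y)
    · exact sum_le_sum_of_subset_of_nonneg ((filter_subset _ _).trans (filter_subset _ _))
        fun Y _ _ => mul_nonneg (pn Y) (by positivity)
  let EE : Option Tr → (TD → A.L) → Prop := fun o => o.elim E0 E
  let q : Option Tr → ℝ := fun o => o.elim (1 / 100) p
  have qn : ∀ o, 0 ≤ q o := fun o => by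
    cases o with
    | none => exact (by norm_num : (0 : ℝ) ≤ 1 / 100)
    | some Y => exact pn Y
  have dE : ∀ o, Dep (EE o) (sp tm R d0 o) := fun o => by
    cases o with
    | none =>
      have : sp tm R d0 none = Ball R := by
        rw [sp, nds, singleton_biUnion, des, nb_d0]
      rw [this]; exact h0
    | some Y => exact hE Y
  have pE : ∀ o, pr A (EE o) ≤ q o := fun o => by
    cases o with
    | none => exact p0
    | some Y => exact hp Y
  set I : Finset (HE n × Option Tr) := S ×ˢ insertNone T ∪ univ ×ˢ Tb.map Embedding.some with hI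
  have mI : ∀ j ∈ I, j.2 ∈ insertNone T := fun j hj => by
    rcases mem_union.1 hj with h | h
    · exact (mem_product.1 h).2
    · obtain ⟨Y, hY, e⟩ := mem_map.1 (mem_product.1 h).2
      rw [← e]
      exact some_mem_insertNone.2 (mem_filter.1 hY).1
  have sz : ∀ o ∈ insertNone T, (nds o).card ≤ 2 * N + 1 ∧ (∀ v ∈ nds o, v.length ≤ 2 * N + 1) ∧
      q o ≤ 1 / 4 := fun o ho => by
    cases o with
    | none =>
      refine ⟨by simp [nds], fun v hv => by simp [mem_singleton.1 hv], ?_⟩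
      exact (by norm_num : (1 / 100 : ℝ) ≤ 1 / 4)
    | some Y =>
      have h1 := some_mem_insertNone.1 ho
      have h2 := (mT Y).1 h1
      refine ⟨Y.card_nd.trans h2, fun v hv => (Y.len_nd v hv).trans h2, ?_⟩
      have := single_le_sum (f := p) (fun Y _ => pn Y) h1
      change p Y ≤ 1 / 4
      linarith
  obtain ⟨x, hx⟩ := hL (HE n) (HE n × Option Tr) A I (fun j => at_ m (EE j.2) j.1)
    (fun j => sp m R j.1 j.2) (fun j => q j.2)
    (fun j _ => by rw [← sp_cov hv]; exact (dE j.2).at_ m j.1)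
    (fun j hj => by
      refine (pr_at ((dE j.2).mono ?_) hi j.1).trans_le (pE j.2)
      refine biUnion_subset.2 fun v hv => (hG.2.2.2.2.2.2.2.2 R v).trans (Ball_mono ?_)
      exact Nat.add_le_add_left ((sz _ (mI j hj)).2.1 v hv) R)
    (fun j hj => (sz _ (mI j hj)).2.2)
    (fun j hj => by
      have h1 : (sel I fun k => ¬ Disjoint (sp m R j.1 j.2) (sp m R k.1 k.2)) ⊆
          S ×ˢ insertNone T ∪ (univ ×ˢ Tb.map Embedding.some).filter
            fun k => ¬ Disjoint (sp m R j.1 j.2) (sp m R k.1 k.2) := fun k hk => by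
        obtain ⟨h2, h3⟩ := mem_sel.1 hk
        exact mem_union.2 ((mem_union.1 h2).imp id fun h => mem_filter.2 ⟨h, h3⟩)
      refine (sum_le_sum_of_subset_of_nonneg h1 fun k _ _ => qn k.2).trans ?_
      have h2 : ∑ k ∈ S ×ˢ insertNone T, q k.2 ≤ 6 / 100 := by
        rw [sum_product]
        change ∑ _e ∈ S, ∑ o ∈ insertNone T, q o ≤ _
        rw [sum_const, nsmul_eq_mul]
        have e : ∑ o ∈ insertNone T, q o = 1 / 100 + ∑ Y ∈ T, p Y := sum_insertNone q T
        have h3 : (S.card : ℝ) ≤ 3 := by exact_mod_cast hS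
        have h4 : 0 ≤ ∑ Y ∈ T, p Y := sum_nonneg fun Y _ => pn Y
        rw [e]
        nlinarith
      have h3 : ∑ k ∈ (univ ×ˢ Tb.map Embedding.some).filter
          (fun k : HE n × Option Tr => ¬ Disjoint (sp m R j.1 j.2) (sp m R k.1 k.2)), q k.2 ≤
          1 / 100 := by
        rw [sum_filter, sum_product_right, sum_map]
        refine le_trans (sum_le_sum fun Y hY => ?_) sTb
        rw [← sum_filter]
        change ∑ _e ∈ univ.filter fun e' => ¬ Disjoint (sp m R j.1 j.2) (sp m R e' (some Y)), p Y ≤ _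
        rw [sum_const, nsmul_eq_mul]
        refine mul_le_mul_of_nonneg_right (le_trans ?_ hN) (pn Y)
        exact_mod_cast count hv R _ j.1 j.2 (some Y) (sz _ (mI j hj)).1
          (sz _ (some_mem_insertNone.2 (mem_filter.1 hY).1)).1
      have h4 := sum_union_inter (s₁ := S ×ˢ insertNone T)
        (s₂ := (univ ×ˢ Tb.map Embedding.some).filter
          fun k : HE n × Option Tr => ¬ Disjoint (sp m R j.1 j.2) (sp m R k.1 k.2))
        (f := fun k => q k.2)
      have h5 := sum_nonneg (s := (S ×ˢ insertNone T) ∩ (univ ×ˢ Tb.map Embedding.some).filter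
          fun k : HE n × Option Tr => ¬ Disjoint (sp m R j.1 j.2) (sp m R k.1 k.2))
        (f := fun k => q k.2) fun k _ => qn k.2
      linarith)
  refine ⟨x, fun a ha => ⟨hx (a, none) ?_, fun Y hY => hx (a, some Y) ?_⟩,
    fun e Y h1 h2 => hx (e, some Y) ?_⟩
  · exact mem_union_left _ (mem_product.2 ⟨ha, none_mem_insertNone⟩)
  · exact mem_union_left _ (mem_product.2 ⟨ha, some_mem_insertNone.2 ((mT Y).2 hY)⟩)
  · exact mem_union_right _ (mem_product.2 ⟨mem_univ _,
      mem_map_of_mem _ (mem_filter.2 ⟨(mT Y).2 h2, h1⟩)⟩)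

end Pool.Agent.Lib.PT5
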