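import Pool.Agent.Lib.PT5.BKit
import Pool.Agent.Lib.RC5.B_TRANS
import Pool.Agent.Lib.RC5.B_G4

/-! Block GR: from a cubic graph of large girth to a matching without short cycles. -/

namespace Pool.Agent.Lib.PT5

open Finset RC5 Function

namespace BGR

theorem walk {V : Type} {G : SimpleGraph V} {f : ℕ → V} (h : ∀ i, G.Adj (f i) (f (i + 1)))
    (j : ℕ) : ∀ (a : ℕ) (v : V), f (a + j) = v →
      ∃ w : G.Walk (f a) v, w.length = j ∧ w.support = (List.range' a (j + 1)).map f := by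
  induction j with
  | zero => rintro a v rfl; exact ⟨.nil, rfl, rfl⟩
  | succ j ih =>
    intro a v hv
    obtain ⟨w, h1, h2⟩ := ih (a + 1) v (by rw [← hv, add_assoc, add_comm 1 j])
    refine ⟨.cons (h a) w, by simp [h1], ?_⟩
    rw [SimpleGraph.Walk.support_cons, h2, List.range'_succ (s := a), List.map_cons]

theorem egirth_le {V : Type} {G : SimpleGraph V} {f : ℕ → V} (h : ∀ i, G.Adj (f i) (f (i + 1)))
    {k : ℕ} (hk : 3 ≤ k) (h0 : f k = f 0) (hi : ∀ i j, i < j → j < i + k → f i ≠ f j) :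
    G.egirth ≤ k := by
  obtain ⟨w, h1, h2⟩ := walk h k 0 (f 0) (by rw [zero_add, h0])
  rw [← h1]
  refine SimpleGraph.egirth_le_length
    (SimpleGraph.Walk.isCycle_iff_isPath_tail_and_le_length.2 ⟨?_, by omega⟩)
  rw [SimpleGraph.Walk.isPath_def, SimpleGraph.Walk.support_tail_of_not_nil w
    (SimpleGraph.Walk.not_nil_iff_lt_length.2 (by omega)), h2, List.range'_succ, List.map_cons,
    List.tail_cons]
  refine List.Nodup.map_on (fun x hx y hy e => ?_) (List.nodup_range' _)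
  rw [List.mem_range'_1] at hx hy
  by_contra hne
  rcases Nat.lt_or_gt_of_ne hne with h3 | h3
  · exact hi x y h3 (by omega) e
  · exact hi y x h3 (by omega) e.symm

end BGR

theorem st_GR : St_GR := by
  intro g V _ G _ hG hg
  let e := Fintype.equivFin V
  let φ : G.comap e.symm ≃g G := SimpleGraph.Iso.comap e.symm G
  have h3 : ∀ v, ((G.comap e.symm).neighborSet v).ncard = 3 := fun v => by
    rw [Set.ncard_congr' (φ.mapNeighborSet v), Set.ncard_eq_toFinset_card', Set.toFinset_card,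
      G.card_neighborSet_eq_degree, hG.degree_eq]
  obtain ⟨m, hm⟩ := card_pos.1 ((T4.fibre _ h3).symm ▸ pow_pos (by norm_num : 0 < 6) _)
  obtain ⟨h1, hs, hG'⟩ := mem_sel.1 hm
  have hM : IsM m := (mem_sel.1 h1).2
  refine ⟨_, m, hM, ?_, fun hc => ?_⟩
  · rintro h ⟨k, hk, c, ⟨c0, c1, c2, c3⟩, -⟩
    have hk3 : 3 ≤ k := by
      by_contra hk3
      obtain rfl | rfl : k = 1 ∨ k = 2 := by omega
      · exact (hs (c 0)).1 (by rw [(c2 0).1, c1 0])
      · refine (c2 0).2 ((hs (c 1)).2 _ (c2 0).1 ?_)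
        rw [(hM _).1, (c2 1).1]
        exact congrArg Prod.fst (c1 0).symm
    have h4 := BGR.egirth_le (G := Gr m) (f := fun i => (c i).1)
      (fun i => (c2 i).1 ▸ T25.gr_adj' hs (c i)) hk3
      (congrArg Prod.fst ((congrArg c (zero_add k).symm).trans (c1 0))) c3
    rw [hG', φ.egirth_eq] at h4
    exact hk.not_ge (by exact_mod_cast hg.trans h4)
  · obtain ⟨ψ⟩ := (st_G4 _ 0 m hM).2.2 hc
    rw [hG'] at ψ
    exact ⟨ψ.comp φ.symm.toHom⟩

end Pool.Agent.Lib.PT5
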