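import Pool.Agent.Lib.PT5.LDefs

/-! Criteria for the second order comparison: signed splittings and bases. -/

namespace Pool.Agent.Lib.PT5

open Finset Real RC5

namespace CBAS

/-- the extreme prior -/
def ep (x : T1) : Vec := fun t => (if t = x then 4 else 0) + if t = (x.1, !x.2) then 1 else 0

theorem dot_ep (x : T1) (v : Vec) : dot (ep x) v = dd v x := by
  simp [dot, ep, dd, add_mul, sum_add_distrib, ite_mul]

theorem dd_nn {v : Vec} (hv : 0 ≤ v) (x : T1) : 0 ≤ dd v x := by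
  have h1 : 0 ≤ v x := hv x
  have h2 : 0 ≤ v (x.1, !x.2) := hv _
  unfold dd; linarith

/-- coordinates of a prior -/
noncomputable def co (p : Vec) (x : T1) : ℝ := (4 * p x - p (x.1, !x.2)) / 15

theorem co_nn {p h : Vec} (hA : Adm p h) (x : T1) : 0 ≤ co p x := by
  have := hA.2 (x.1, !x.2)
  simp only [Bool.not_not] at this
  unfold co; linarith

theorem dot_co (p v : Vec) : dot p v = ∑ x, co p x * dd v x := by
  simp only [dot, co, dd, Fintype.sum_prod_type, Fintype.sum_bool, Bool.not_true, Bool.not_false]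
  exact sum_congr rfl fun c _ => by ring

theorem abs_dot {p h v : Vec} (hA : Adm p h) (hv : 0 ≤ v) : |dot h v| ≤ dot p v := by
  refine (abs_sum_le_sum_abs _ _).trans (sum_le_sum fun t _ => ?_)
  rw [abs_mul, abs_of_nonneg (hv t)]
  exact mul_le_mul_of_nonneg_right (hA.1 t) (hv t)

theorem two_le {a b y : ℝ} (hb : 0 ≤ b) (h : b = 0 → a = 0) : 2 * y * a - y ^ 2 * b ≤ a ^ 2 / b := by
  rcases hb.eq_or_lt with h0 | h0
  · simp [← h0, h h0.symm]
  · rw [le_div_iff₀ h0]; nlinarith [sq_nonneg (a - y * b)]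

theorem two_eq (a b : ℝ) : a ^ 2 / b = 2 * (a / b) * a - (a / b) ^ 2 * b := by
  by_cases h : b = 0
  · simp [h]
  · field_simp; ring

theorem titu {X : Type} [Fintype X] (a d e : X → ℝ) (ha : ∀ x, 0 ≤ a x) (hd : ∀ x, 0 ≤ d x)
    (h : ∀ x, d x = 0 → e x = 0) :
    (∑ x, a x * e x) ^ 2 / ∑ x, a x * d x ≤ ∑ x, a x * (e x ^ 2 / d x) := by
  rw [two_eq]
  generalize (∑ x, a x * e x) / ∑ x, a x * d x = y
  rw [mul_sum, mul_sum, ← sum_sub_distrib]
  refine sum_le_sum fun x _ => ?_
  have := mul_le_mul_of_nonneg_left (two_le (y := y) (hd x) (h x)) (ha x)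
  linarith

variable {I J : Type} [Fintype I] [Fintype J]

theorem core {v : I → Vec} {u : J → Vec} (hv : ∀ i, 0 ≤ v i) (hu : ∀ j, 0 ≤ u j)
    (H : ∀ (a : T1 → ℝ) (h : Vec) (t : J → ℝ), (∀ j, dot h (u j) = ∑ x, a x * (t j * dd (u j) x)) →
      ∃ e : T1 → I → ℝ, (∀ i, dot h (v i) = ∑ x, a x * e x i) ∧
        ∀ x, (∀ i, dd (v i) x = 0 → e x i = 0) ∧
          ∑ i, e x i ^ 2 / dd (v i) x ≤ ∑ j, (t j * dd (u j) x) ^ 2 / dd (u j) x) : LN v u := by
  intro p h hA
  have key : ∀ j, dot h (u j) = dot h (u j) / dot p (u j) * dot p (u j) := fun j => by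
    by_cases h0 : dot p (u j) = 0
    · have := abs_dot hA (hu j)
      rw [h0] at this
      simp [abs_nonpos_iff.1 this]
    · field_simp
  obtain ⟨e, he, hx⟩ := H (co p) h (fun j => dot h (u j) / dot p (u j)) fun j => by
    rw [key j, ← key j]
    nth_rewrite 1 [key j]
    generalize dot h (u j) / dot p (u j) = t
    rw [dot_co, mul_sum]
    exact sum_congr rfl fun x _ => by ring
  calc ∑ i, Ph p h (v i) ≤ ∑ i, ∑ x, co p x * (e x i ^ 2 / dd (v i) x) := by
        refine sum_le_sum fun i _ => ?_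
        rw [Ph, he i, dot_co]
        exact titu _ _ _ (co_nn hA) (dd_nn (hv i)) fun x => (hx x).1 i
    _ = ∑ x, co p x * ∑ i, e x i ^ 2 / dd (v i) x := by
        rw [sum_comm]; simp only [mul_sum]
    _ ≤ ∑ x, co p x * ∑ j, (dot h (u j) / dot p (u j) * dd (u j) x) ^ 2 / dd (u j) x :=
        sum_le_sum fun x _ => mul_le_mul_of_nonneg_left (hx x).2 (co_nn hA x)
    _ = ∑ j, Ph p h (u j) := by
        simp only [mul_sum]
        rw [sum_comm]
        refine sum_congr rfl fun j _ => ?_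
        have h1 : Ph p h (u j) = (dot h (u j) / dot p (u j)) ^ 2 * dot p (u j) := by
          unfold Ph
          by_cases h0 : dot p (u j) = 0
          · simp [h0]
          · field_simp
        rw [h1]
        generalize dot h (u j) / dot p (u j) = t
        rw [dot_co, mul_sum]
        refine sum_congr rfl fun x _ => ?_
        by_cases h0 : dd (u j) x = 0
        · simp [h0]
        · field_simp

theorem dot_sum {K : Type} [Fintype K] (h : Vec) (w : K → Vec) :
    dot h (∑ k, w k) = ∑ k, dot h (w k) := by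
  simp only [dot, Finset.sum_apply, mul_sum]; exact sum_comm

theorem dot_smul (h : Vec) (c : ℝ) (w : Vec) : dot h (c • w) = c * dot h w := by
  simp only [dot, Pi.smul_apply, smul_eq_mul, mul_sum]; exact sum_congr rfl fun _ _ => by ring

theorem shift {a d c : ℝ} (h : d = 0 → a = 0) :
    (a + c * d) ^ 2 / d = a ^ 2 / d + 2 * c * a + c ^ 2 * d := by
  by_cases h0 : d = 0
  · simp [h0, h h0]
  · field_simp; ring

end CBAS

open CBAS

variable {I J : Type} [Fintype I] [Fintype J]

/-- signed splittings -/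
theorem ln_signed {v : I → Vec} {u : J → Vec} (hv : ∀ i, 0 ≤ v i) (hu : ∀ j, 0 ≤ u j)
    (β : I → J → ℝ) (hβ : ∀ i, v i = ∑ j, β i j • u j)
    (H : ∀ (x : T1) (z : J → ℝ), (∀ j, dd (u j) x = 0 → z j = 0) →
      (∀ i, dd (v i) x = 0 → ∑ j, β i j * z j = 0) ∧
        ∑ i, (∑ j, β i j * z j) ^ 2 / dd (v i) x ≤ ∑ j, z j ^ 2 / dd (u j) x) : LN v u := by
  refine core hv hu fun a h t ht => ⟨fun x i => ∑ j, β i j * (t j * dd (u j) x), fun i => ?_,
    fun x => H x _ fun j hj => by simp [hj]⟩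
  rw [hβ i, dot_sum]
  simp only [dot_smul, ht, mul_sum]
  rw [sum_comm]
  exact sum_congr rfl fun x _ => sum_congr rfl fun j _ => by ring

/-- signed splittings that keep the mass: one coordinate may be deleted -/
theorem ln_signed' {v : I → Vec} {u : J → Vec} (hv : ∀ i, 0 ≤ v i) (hu : ∀ j, 0 ≤ u j)
    (β : I → J → ℝ) (hβ : ∀ i, v i = ∑ j, β i j • u j) (h1 : ∀ j, ∑ i, β i j = 1)
    (k : T1 → J)
    (H : ∀ (x : T1) (z : J → ℝ), z (k x) = 0 → (∀ j, dd (u j) x = 0 → z j = 0) →
      (∀ i, dd (v i) x = 0 → ∑ j, β i j * z j = 0) ∧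
        ∑ i, (∑ j, β i j * z j) ^ 2 / dd (v i) x ≤ ∑ j, z j ^ 2 / dd (u j) x) : LN v u := by
  refine ln_signed hv hu β hβ fun x z hz => ?_
  have hd : ∀ i, dd (v i) x = ∑ j, β i j * dd (u j) x := fun i => by
    rw [← dot_ep, hβ i, dot_sum]; simp only [dot_smul, dot_ep]
  obtain ⟨c, hc⟩ : ∃ c, z (k x) - c * dd (u (k x)) x = 0 := by
    by_cases h0 : dd (u (k x)) x = 0
    · exact ⟨0, by simp [hz _ h0]⟩
    · exact ⟨z (k x) / dd (u (k x)) x, by field_simp; ring⟩
  have hz' : ∀ j, dd (u j) x = 0 → z j - c * dd (u j) x = 0 := fun j hj => by simp [hj, hz j hj]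
  obtain ⟨A, B⟩ := H x (fun j => z j - c * dd (u j) x) hc hz'
  have e1 : ∀ i, ∑ j, β i j * z j = ∑ j, β i j * (z j - c * dd (u j) x) + c * dd (v i) x := fun i => by
    rw [hd i, mul_sum, ← sum_add_distrib]; exact sum_congr rfl fun j _ => by ring
  have e2 : ∀ f : J → ℝ, ∑ i, ∑ j, β i j * f j = ∑ j, f j := fun f => by
    rw [sum_comm]; exact sum_congr rfl fun j _ => by rw [← sum_mul, h1, one_mul]
  refine ⟨fun i hi => by rw [e1, A i hi, hi]; ring, ?_⟩
  have e3 : ∀ j, z j ^ 2 / dd (u j) x = (z j - c * dd (u j) x) ^ 2 / dd (u j) x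
      + 2 * c * (z j - c * dd (u j) x) + c ^ 2 * dd (u j) x := fun j => by
    rw [← shift (hz' j)]; ring_nf
  have e4 : ∑ i, dd (v i) x = ∑ j, dd (u j) x := by simp only [hd]; exact e2 _
  simp only [e1, e3, fun i => shift (c := c) (A i), sum_add_distrib, ← mul_sum, e2, e4]
  linarith

/-- comparison with independent vectors of the same sum -/
theorem ln_basis {v : I → Vec} {u : J → Vec} (hv : ∀ i, 0 ≤ v i) (hu : ∀ j, 0 ≤ u j)
    (hs : ∑ j, u j = ∑ i, v i) (hb : ∀ z : J → ℝ, ∃ l, ∀ j, dot l (u j) = z j)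
    (H : ∀ (x : T1) (l : Vec), l x = 0 → (∀ j, dd (u j) x = 0 → dot l (u j) = 0) →
      (∀ i, dd (v i) x = 0 → dot l (v i) = 0) ∧
        ∑ i, dot l (v i) ^ 2 / dd (v i) x ≤ ∑ j, dot l (u j) ^ 2 / dd (u j) x) : LN v u := by
  have H' : ∀ (x : T1) (l : Vec), (∀ j, dd (u j) x = 0 → dot l (u j) = 0) →
      (∀ i, dd (v i) x = 0 → dot l (v i) = 0) ∧
        ∑ i, dot l (v i) ^ 2 / dd (v i) x ≤ ∑ j, dot l (u j) ^ 2 / dd (u j) x := by
    intro x l hl
    have e0 : ∀ w, dot l w = dot (l - (l x / 4) • ep x) w + l x / 4 * dd w x := fun w => by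
      rw [← dot_ep]
      simp only [dot, Pi.sub_apply, Pi.smul_apply, smul_eq_mul, mul_sum, ← sum_add_distrib]
      exact sum_congr rfl fun t _ => by ring
    have hx : (l - (l x / 4) • ep x) x = 0 := by
      have : x ≠ (x.1, !x.2) := fun h => by
        have := congrArg Prod.snd h
        simp at this
      simp [ep, this]
    generalize l - (l x / 4) • ep x = l' at e0 hx
    generalize l x / 4 = c at e0
    have hl' : ∀ j, dd (u j) x = 0 → dot l' (u j) = 0 := fun j hj => by
      have := e0 (u j); rw [hl j hj, hj] at this; linarith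
    obtain ⟨A, B⟩ := H x l' hx hl'
    refine ⟨fun i hi => by rw [e0, A i hi, hi]; ring, ?_⟩
    have e2 : ∀ f, ∑ i, dot f (v i) = ∑ j, dot f (u j) := fun f => by
      rw [← dot_sum, ← dot_sum, hs]
    have e4 : ∑ i, dd (v i) x = ∑ j, dd (u j) x := by simp only [← dot_ep]; exact e2 _
    simp only [e0, fun i => shift (c := c) (A i), fun j => shift (c := c) (hl' j),
      sum_add_distrib, ← mul_sum, e2, e4]
    linarith
  refine core hv hu fun a h t ht => ?_
  choose l hl using fun x : T1 => hb fun j => t j * dd (u j) x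
  refine ⟨fun x i => dot (l x) (v i), fun i => ?_, fun x => ?_⟩
  · have e0 : ∀ w, dot (h - ∑ x, a x • l x) w = dot h w - ∑ x, a x * dot (l x) w := fun w => by
      simp only [dot, Pi.sub_apply, Finset.sum_apply, Pi.smul_apply, smul_eq_mul, sub_mul,
        sum_sub_distrib, sum_mul, mul_sum]
      rw [sum_comm]
      simp only [mul_assoc]
    have e1 : ∀ j, dot (h - ∑ x, a x • l x) (u j) = 0 := fun j => by
      rw [e0, ht j]; simp only [hl, sub_self]
    rw [← sub_eq_zero, ← e0]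
    generalize h - ∑ x, a x • l x = m at e1
    obtain ⟨A, B⟩ := H' (0, false) m fun j _ => e1 j
    by_cases h0 : dd (v i) (0, false) = 0
    · exact A i h0
    · simp only [e1, ne_eq, OfNat.ofNat_ne_zero, not_false_eq_true, zero_pow, zero_div,
        sum_const_zero] at B
      have h2 := (single_le_sum (f := fun i => dot m (v i) ^ 2 / dd (v i) (0, false))
        (fun i _ => div_nonneg (sq_nonneg _) (dd_nn (hv i) _)) (mem_univ i)).trans B
      have h3 : 0 < dd (v i) (0, false) := (dd_nn (hv i) _).lt_of_ne' h0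
      rw [div_le_iff₀ h3, zero_mul] at h2
      exact pow_eq_zero_iff (two_ne_zero) |>.1 (le_antisymm h2 (sq_nonneg _))
  · have := H' x (l x) fun j hj => by rw [hl, hj, mul_zero]
    simpa only [hl] using this

end Pool.Agent.Lib.PT5
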