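import Pool.Agent.Lib.PT5.LDefs

/-! Row CH: chains of experiments. -/

namespace Pool.Agent.Lib.PT5

open Finset Real RC5

theorem st_CH (hSP : St_SP) (hDOM : St_DOM) (hPH : St_PH) (hTL : St_TL) : St_CH := by
  intro I _ E k hE h0
  induction k with
  | zero =>
    intro _ p h hA
    exact ((hDOM 0).2.2 (Ph p h) (hPH.1 p h hA)).trans (h0 p h hA)
  | succ k ih =>
    intro hs p h hA
    have h1 : LN (vS 1 k) (E k) := ih fun n hn => hs n (Nat.lt_succ_of_lt hn)
    have hv : ∀ b, 0 ≤ vS 1 k b := (((hSP 1 k).2.2 zero_le_one le_rfl).1).1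
    have h2 := hTL _ _ _ _ (vS 1 k) (E k) (vS 1 k) (E k) (hE k) hv h1 h1 p h hA
    exact h2.trans (hs k (Nat.lt_succ_self k) p h hA)

end Pool.Agent.Lib.PT5
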