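import Pool.Agent.Lib.PT5.LDefs

/-! Integer checks for the moments of a mixture of orbits. -/

namespace Pool.Agent.Lib.PT5

open Finset Real RC5

namespace CFIT

/-- the number of a state -/
def ix (t : T1) : ℕ := 2 * t.1.val + t.2.toNat

/-- entry of a table -/
def en (L : List (List ℤ)) (i j : ℕ) : ℤ := (L.getD i []).getD j 0

/-- scalar product of two lists -/
noncomputable def dN (r : List ℕ) : List ℕ → ℕ :=
  List.rec (fun _ => 0)
    (fun a _ ih m => List.rec 0 (fun b m' _ => Nat.add (Nat.mul a b) (ih m')) m) r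

/-- sum over a list -/
noncomputable def sm {α : Type} (f : α → ℕ) (L : List α) : ℕ :=
  List.rec 0 (fun a _ ih => Nat.add (f a) ih) L

/-- a row shifted to nonnegative entries -/
def sh (r : List ℤ) : List ℕ := r.map fun a : ℤ => Int.toNat (a + ((r.map Int.natAbs).sum : ℕ))

/-- square of a difference -/
def sqd (a c : ℕ) : ℕ := Nat.pow (Nat.add (Nat.sub a c) (Nat.sub c a)) 2

/-- the value of a quadratic form given by its factor -/
noncomputable def qL (L : List (List ℤ)) (M : ℕ) (y : List ℕ) : ℕ :=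
  sm (fun r => sqd (Nat.mul 10 (dN (sh r) y)) (Nat.mul M (sh r).sum)) L

/-- the action of the group -/
def PT : List (List ℕ) :=
  [[0, 1, 2, 3, 4, 5, 6, 7, 8, 9], [1, 0, 9, 8, 7, 6, 5, 4, 3, 2], [2, 3, 4, 5, 6, 7, 8, 9, 0, 1],
    [3, 2, 1, 0, 9, 8, 7, 6, 5, 4], [4, 5, 6, 7, 8, 9, 0, 1, 2, 3], [5, 4, 3, 2, 1, 0, 9, 8, 7, 6],
    [6, 7, 8, 9, 0, 1, 2, 3, 4, 5], [7, 6, 5, 4, 3, 2, 1, 0, 9, 8], [8, 9, 0, 1, 2, 3, 4, 5, 6, 7],
    [9, 8, 7, 6, 5, 4, 3, 2, 1, 0]]

/-- scaled deviation -/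
def yy (M : ℕ) (s : ℕ → ℕ) (i : ℕ) : ℤ := (10 * s i : ℕ) - (M : ℤ)

/-- weighted sum of a function of the quadratic form over all atoms -/
noncomputable def tot (L : List (List ℤ)) (M K : ℕ) (sN : ℕ → ℕ → ℕ) (wN : ℕ → ℕ) (φ : ℕ → ℕ) :
    ℕ :=
  Nat.rec 0 (fun l ih => Nat.add ih (bif Nat.beq (wN l) 0 then 0 else
    Nat.mul (wN l) (sm (fun p => φ (qL L M (p.map (sN l)))) PT))) K

/-- the matrix that has to be diagonally dominant -/
def EE (nS nA nR : List (List ℤ)) (c d : ℕ) (lam : ℤ) (i j : T1) : ℤ :=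
  c * ∑ k, en nS (ix k) (ix i) * en nS (ix k) (ix j)
    - d * ∑ g : D5, en nA (ix (g1 g i)) (ix (g1 g j)) + lam
    - ∑ k, en nR (ix k) (ix i) * en nR (ix k) (ix j)

lemma sum_ix {R : Type} [AddCommMonoid R] (f : ℕ → R) : ∑ t, f (ix t) = ∑ i ∈ range 10, f i := by
  rw [← (by decide : univ.image ix = range 10), sum_image fun a _ b _ =>
    (by decide : ∀ a b, ix a = ix b → a = b) a b]

lemma sm_eq {α : Type} (f : α → ℕ) (d : α) :
    ∀ L : List α, sm f L = ∑ i ∈ range L.length, f (L.getD i d)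
  | [] => rfl
  | a :: L => by
    rw [List.length_cons, sum_range_succ', add_comm]
    exact congrArg (f a + ·) (sm_eq f d L)

lemma sum_eq : ∀ L : List ℕ, L.sum = ∑ i ∈ range L.length, L.getD i 0
  | [] => rfl
  | a :: L => by
    rw [List.sum_cons, sum_eq L, List.length_cons, sum_range_succ', add_comm]
    rfl

lemma dN_eq : ∀ a b : List ℕ, dN a b = ∑ i ∈ range b.length, a.getD i 0 * b.getD i 0
  | [], _ => by simp [dN]
  | _ :: _, [] => rfl
  | a :: l, b :: m => by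
    rw [List.length_cons, sum_range_succ', add_comm]
    exact congrArg (a * b + ·) (dN_eq l m)

lemma sqd_eq (a c : ℕ) : (sqd a c : ℝ) = (a - c) ^ 2 := by
  change (((a - c + (c - a)) ^ 2 : ℕ) : ℝ) = _
  rcases le_total a c with h | h <;>
    simp [Nat.sub_eq_zero_of_le h, Nat.cast_sub h, sub_sq_comm]

lemma sh_eq {r : List ℤ} {i : ℕ} (h : i < r.length) :
    ((sh r).getD i 0 : ℝ) = r.getD i 0 + ((r.map Int.natAbs).sum : ℕ) := by
  have h1 : r[i].natAbs ≤ (r.map Int.natAbs).sum :=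
    List.single_le_sum (fun _ _ => Nat.zero_le _) _ (List.mem_map_of_mem (List.getElem_mem h))
  rw [List.getD_eq_getElem _ _ (by simpa [sh] using h), List.getD_eq_getElem _ _ h]
  simp only [sh, List.getElem_map]
  rw [← Int.cast_natCast, Int.toNat_of_nonneg (by omega), Int.cast_add, Int.cast_natCast]

lemma PT_eq : ∀ g : D5, PT.getD (ix g) [] = (List.range 10).map fun i =>
    (PT.getD (ix g) []).getD i 0 := by decide +kernel

lemma PT_ix : ∀ (g : D5) (t : T1), (PT.getD (ix g) []).getD (ix t) 0 = ix (g1 g t) := by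
  decide +kernel

lemma g1_bij : ∀ g : D5, Function.Bijective (g1 g) := by decide +kernel

lemma qL_eq {L : List (List ℤ)} (hL : L.length = 10 ∧ ∀ j < 10, (L.getD j []).length = 10)
    {M : ℕ} {y : ℕ → ℕ} (h : ∑ i ∈ range 10, y i = M) (g : D5) :
    (qL L M ((PT.getD (ix g) []).map y) : ℝ)
      = ∑ j, (∑ t, (en L (ix j) (ix t) : ℝ) * yy M y (ix (g1 g t))) ^ 2 := by
  have hx : ∀ t, ix t < 10 := by decide
  rw [qL, sm_eq _ [], hL.1, ← sum_ix, Nat.cast_sum]
  refine sum_congr rfl fun j _ => ?_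
  have h1 := hL.2 _ (hx j)
  have h2 : ∑ t, (y (ix (g1 g t)) : ℝ) = M := by
    rw [(g1_bij g).sum_comp fun t => (y (ix t) : ℝ), ← h, ← sum_ix, Nat.cast_sum]
  rw [sqd_eq, Nat.mul_eq, Nat.mul_eq, dN_eq, sum_eq, PT_eq, List.map_map, List.length_map,
    List.length_range, sh, List.length_map, h1, ← sh, ← sum_ix, ← sum_ix]
  congr 1
  have h3 : ∀ t, ((List.range 10).map (y ∘ fun i => (PT.getD (ix g) []).getD i 0)).getD (ix t) 0
      = y (ix (g1 g t)) := fun t => by simp [hx t, ← PT_ix g t]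
  simp only [h3, yy]
  push_cast
  simp only [sh_eq (h1 ▸ hx _), add_mul, mul_sub, sum_add_distrib, sum_sub_distrib, ← mul_sum,
    ← sum_mul, h2, en, mul_left_comm _ (10 : ℝ)]
  simp [card_univ]
  ring

lemma psd (E : T1 → T1 → ℝ) (h : ∀ i, ∑ j, (|E i j| + |E j i|) ≤ 4 * E i i) (x : Vec) :
    0 ≤ ∑ i, ∑ j, E i j * (x i * x j) := by
  have h1 : ∀ i j, (if i = j then 2 * E i i * x i ^ 2 else 0)
      - |E i j| * x i ^ 2 / 2 - |E i j| * x j ^ 2 / 2 ≤ E i j * (x i * x j) := by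
    intro i j
    split_ifs with e
    · subst e
      nlinarith [mul_nonneg (sub_nonneg.2 (le_abs_self (E i i))) (sq_nonneg (x i))]
    · nlinarith [mul_nonneg (sub_nonneg.2 (le_abs_self (E i j))) (sq_nonneg (x i - x j)),
        mul_nonneg (sub_nonneg.2 (neg_abs_le (E i j))) (sq_nonneg (x i + x j))]
  refine le_trans ?_ (sum_le_sum fun i _ => sum_le_sum fun j _ => h1 i j)
  simp only [sum_sub_distrib, sum_ite_eq, mem_univ, if_true]
  rw [sum_comm (f := fun i j => |E i j| * x j ^ 2 / 2), ← sum_sub_distrib, ← sum_sub_distrib]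
  refine sum_nonneg fun i _ => ?_
  have := mul_le_mul_of_nonneg_right (h i) (sq_nonneg (x i))
  simp only [← sum_div, ← sum_mul, sum_add_distrib] at this ⊢
  linarith

lemma dot_sq (a : Vec) (x : Vec) : dot a x ^ 2 = ∑ i, ∑ j, x i * x j * (a i * a j) := by
  rw [dot, sq, sum_mul_sum]
  exact sum_congr rfl fun i _ => sum_congr rfl fun j _ => by ring

section
variable {K M W : ℕ} {sN : ℕ → ℕ → ℕ} {wN : ℕ → ℕ} {s : Fin K → Vec} {w : Fin K → ℝ}

lemma mo_mix (hM : 0 < M) (hs : ∀ l t, s l t = sN l (ix t)) (hw : ∀ l, w l = wN l / (M * W))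
    (h : ∀ l < K, ∑ i ∈ range 10, sN l i = M) (f : Vec → ℝ) :
    mo (mix s w) f = (∑ l ∈ range K, wN l *
      ∑ g : D5, f fun t => (yy M (sN l) (ix (g1 g t)) : ℝ) / M) / (10 * W) := by
  have hM' : (M : ℝ) ≠ 0 := by positivity
  rw [mo, Fintype.sum_prod_type, ← Fin.sum_univ_eq_sum_range (fun l => (wN l : ℝ) *
      ∑ g : D5, f fun t => (yy M (sN l) (ix (g1 g t)) : ℝ) / M), sum_div]
  refine sum_congr rfl fun l _ => ?_
  rw [mul_sum, sum_div]
  refine sum_congr rfl fun g _ => ?_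
  have e : avg (mix s w (l, g)) = w l * M / 10 := by
    simp only [avg, mix, Pi.smul_apply, smul_eq_mul, ← mul_sum, Function.comp]
    rw [(g1_bij g).sum_comp (s l), ← h l l.2, ← sum_ix, Nat.cast_sum]
    simp only [hs]
  rw [per]
  by_cases h0 : w l = 0
  · rw [e, mul_div_right_comm (wN l : ℝ), show (wN l : ℝ) / (10 * W) = w l * M / 10 by
      rw [hw]; field_simp, h0]
    simp
  · have e2 : nz (mix s w (l, g)) = fun t => (yy M (sN l) (ix (g1 g t)) : ℝ) / M := by
      funext t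
      rw [nz, e]
      simp only [mix, Pi.smul_apply, smul_eq_mul, Function.comp, hs, yy]
      push_cast
      field_simp
    rw [e2, e, hw]
    field_simp

lemma tot_eq (L : List (List ℤ)) (φ : ℕ → ℕ) : ∀ K, (tot L M K sN wN φ : ℝ) = ∑ l ∈ range K,
    wN l * ∑ g : D5, (φ (qL L M ((PT.getD (ix g) []).map (sN l))) : ℝ)
  | 0 => by simp [tot]
  | K + 1 => by
    rw [sum_range_succ, ← tot_eq L φ K, ← Nat.cast_sum, ← Nat.cast_mul, ← Nat.cast_add,
      sum_ix fun i => φ (qL L M ((PT.getD i []).map (sN K)))]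
    refine congrArg (fun x => ((tot L M K sN wN φ + x : ℕ) : ℝ)) ?_
    cases h : Nat.beq (wN K) 0
    · exact congrArg (wN K * ·) (sm_eq _ [] PT)
    · simp [Nat.eq_of_beq_eq_true h]

lemma qf_eq {R : T1 → Vec} {L : List (List ℤ)} {d : ℕ}
    (hL : L.length = 10 ∧ ∀ j < 10, (L.getD j []).length = 10)
    (hR : ∀ j t, R j t = en L (ix j) (ix t) / d) {y : ℕ → ℕ} (h : ∑ i ∈ range 10, y i = M)
    (g : D5) : qf R (fun t => (yy M y (ix (g1 g t)) : ℝ) / M)
      = qL L M ((PT.getD (ix g) []).map y) / ((d * M) ^ 2 : ℕ) := by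
  rw [qL_eq hL h, qf, ip, sum_div]
  refine sum_congr rfl fun j _ => ?_
  rw [← sq, Nat.cast_pow, ← div_pow, sum_div, dot]
  congr 1
  refine sum_congr rfl fun t _ => ?_
  rw [hR, Nat.cast_mul, div_mul_div_comm]

lemma max_eq (q a : ℕ) {b c : ℕ} (hb : 0 < b) (hc : 0 < c) :
    max ((q : ℝ) / c - a / b) 0 = (q * b - a * c : ℕ) / (c * b) := by
  have e : (q : ℝ) / c - a / b = ((q * b : ℕ) - (a * c : ℕ)) / (c * b) := by
    push_cast
    field_simp
  rw [e]
  rcases le_total (a * c) (q * b) with h | h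
  · rw [Nat.cast_sub h, max_eq_left (div_nonneg (sub_nonneg.2 (Nat.cast_le.2 h)) (by positivity))]
  · rw [Nat.sub_eq_zero_of_le h, max_eq_right (div_nonpos_of_nonpos_of_nonneg
      (sub_nonpos.2 (Nat.cast_le.2 h)) (by positivity)), Nat.cast_zero, zero_div]

end

end CFIT

open CFIT

/-- The moments pass down along the order of experiments. -/
theorem fit_down (hP : St_PER) {D : Dat} (h0 : 0 ≤ D.qb) {I J : Type} [Fintype I] [Fintype J]
    {v : I → Vec} {u : J → Vec} (h : Dom v u) (hF : D.Fit u) : D.Fit v :=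
  ⟨fun a => (h _ (hP.1 _ (hP.2.2.2.1 a))).trans (hF.cov a),
    (h _ (hP.1 _ (hP.2.2.2.2 D h0).1)).trans hF.t1, (h _ (hP.1 _ (hP.2.2.2.2 D h0).2)).trans hF.t2⟩

/-- The moments of a mixture of orbits from integer checks. -/
theorem fit_of_chk (D : Dat) {K : ℕ} (M W : ℕ) (sN : ℕ → ℕ → ℕ) (wN : ℕ → ℕ) (s : Fin K → Vec)
    (w : Fin K → ℝ) (nN nK nS nA nR : List (List ℤ)) (dN dK dS qn qd hn hd an ad bn bd : ℕ)
    (lam : ℤ) (hs : ∀ l t, s l t = sN l (ix t)) (hw : ∀ l, w l = wN l / (M * W))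
    (eN : ∀ j t, D.N j t = en nN (ix j) (ix t) / dN)
    (eK : ∀ j t, D.K j t = en nK (ix j) (ix t) / dK)
    (eS : ∀ j t, D.Sg j t = en nS (ix j) (ix t) / dS) (eq : D.qb = qn / qd) (eh : D.th = hn / hd)
    (ea : D.ta = an / ad) (eb : D.tb = bn / bd)
    (c0 : 0 < M ∧ 0 < W ∧ 0 < dN ∧ 0 < dK ∧ 0 < dS ∧ 0 < qd ∧ 0 < hd ∧ 0 < ad ∧ 0 < bd ∧
      (nN.length = 10 ∧ ∀ j < 10, (nN.getD j []).length = 10) ∧
      (nK.length = 10 ∧ ∀ j < 10, (nK.getD j []).length = 10) ∧
      (lam = 0 ∨ ∀ k : T1, ∑ i, en nS (ix k) (ix i) = 0) ∧ ∀ l < K, ∑ i ∈ range 10, sN l i = M)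
    (c1 : tot nN M K sN wN (fun q => q * (q * qd - qn * (dN * M) ^ 2)) * ad
      ≤ an * (10 * W * (dN * M) ^ 4 * qd))
    (c2 : tot nK M K sN wN (fun q => q * hd - hn * (dK * M) ^ 2) * bd
      ≤ bn * (10 * W * (dK * M) ^ 2 * hd))
    (c3 : ∀ i < 10, ∀ j < 10,
      en nA i j = ∑ l ∈ range K, wN l * (yy M (sN l) i * yy M (sN l) j))
    (c4 : ∀ i, ∑ j, (|EE nS nA nR (10 * W * M ^ 2) (dS ^ 2) lam i j|
      + |EE nS nA nR (10 * W * M ^ 2) (dS ^ 2) lam j i|)
        ≤ 4 * EE nS nA nR (10 * W * M ^ 2) (dS ^ 2) lam i i) : D.Fit (mix s w) := by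
  obtain ⟨p1, p2, p3, p4, p5, p6, p7, p8, p9, l1, l2, hl, hM⟩ := c0
  have mm := mo_mix p1 hs hw hM
  refine ⟨fun a => ?_, ?_, ?_⟩
  · have hx : ∀ t, ix t < 10 := by decide
    have key : ∀ a : Vec, lam * (∑ i, a i) ^ 2 = 0 →
        mo (mix s w) (fun x => dot a x ^ 2) ≤ ∑ k, dot a (D.Sg k) ^ 2 := by
      intro a ha
      have h1 := psd (fun i j => (EE nS nA nR (10 * W * M ^ 2) (dS ^ 2) lam i j : ℝ))
        (fun i => by exact_mod_cast c4 i) a
      have h2 : ∀ (L : List (List ℤ)), ∑ i, ∑ j, (∑ k, (en L (ix k) (ix i) : ℝ) *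
          en L (ix k) (ix j)) * (a i * a j) = ∑ k, dot a (fun t => en L (ix k) (ix t)) ^ 2 := by
        intro L
        simp only [dot_sq, sum_mul]
        exact (sum_congr rfl fun i _ => sum_comm).trans sum_comm
      have h3 : ∑ i, ∑ j, (∑ g : D5, (en nA (ix (g1 g i)) (ix (g1 g j)) : ℝ)) * (a i * a j)
          = ∑ l ∈ range K, wN l * ∑ g : D5, dot a (fun t => yy M (sN l) (ix (g1 g t))) ^ 2 := by
        simp only [dot_sq, sum_mul, mul_sum, c3 _ (hx _) _ (hx _), Int.cast_sum]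
        refine (sum_congr rfl fun i _ => sum_comm).trans (sum_comm.trans
          (Eq.trans (sum_congr rfl fun g _ => ?_) sum_comm))
        refine (sum_congr rfl fun i _ => sum_comm).trans (sum_comm.trans ?_)
        refine sum_congr rfl fun l _ => sum_congr rfl fun i _ => sum_congr rfl fun j _ => ?_
        push_cast
        ring
      have h4 : ∑ i, ∑ j, (lam : ℝ) * (a i * a j) = 0 := by
        rw [← ha, sq, sum_mul_sum, mul_sum]
        simp only [mul_sum]
      have h5 : ∀ (x : Vec) (c : ℝ), dot a (fun t => x t / c) ^ 2 = dot a x ^ 2 / c ^ 2 :=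
        fun x c => by simp only [dot, ← div_pow, sum_div, mul_div_assoc]
      simp only [EE] at h1
      push_cast at h1
      simp only [sub_mul, add_mul, sum_sub_distrib, sum_add_distrib, h4, h2] at h1
      simp only [mul_assoc, ← mul_sum, h2, h3] at h1
      have h6 : 0 ≤ ∑ k, dot a (fun t => (en nR (ix k) (ix t) : ℝ)) ^ 2 :=
        sum_nonneg fun _ _ => sq_nonneg _
      rw [mm, show D.Sg = fun j t => (en nS (ix j) (ix t) : ℝ) / dS from
        funext fun j => funext (eS j)]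
      simp only [h5, ← sum_div, ← mul_div_assoc]
      rw [div_div, div_le_div_iff₀ (by positivity) (by positivity)]
      linarith
    rcases hl with hl | hl
    · exact key a (by simp [hl])
    · have h1 : ∀ x : Vec, ∑ t, x t = 0 → dot (fun t => a t - avg a) x = dot a x := fun x hx => by
        simp only [dot, sub_mul, sum_sub_distrib, ← mul_sum, hx, mul_zero, sub_zero]
      have h2 := key (fun t => a t - avg a) (by simp [avg, card_univ]; right; ring)
      rw [mm] at h2 ⊢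
      have h3 : ∀ k, ∑ t, D.Sg k t = 0 := fun k => by
        simp only [eS, ← sum_div, ← Int.cast_sum, hl k, Int.cast_zero, zero_div]
      have h4 : ∀ l ∈ range K, ∀ g : D5, ∑ t, (yy M (sN l) (ix (g1 g t)) : ℝ) / M = 0 :=
        fun l hl g => by
          rw [← sum_div, (g1_bij g).sum_comp fun t => (yy M (sN l) (ix t) : ℝ),
            sum_ix fun i => (yy M (sN l) i : ℝ)]
          simp only [yy]
          push_cast
          rw [sum_sub_distrib, ← mul_sum, ← Nat.cast_sum, hM l (mem_range.1 hl)]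
          simp
      simp only [h1 _ (h3 _)] at h2
      rwa [sum_congr rfl fun l hl => by
        rw [sum_congr rfl fun g _ => by rw [h1 _ (h4 l hl g)]]] at h2
  · have c : (_ : ℝ) ≤ _ := Nat.cast_le.2 c1
    rw [Nat.cast_mul, tot_eq] at c
    rw [mm, ea, sum_congr rfl fun l hl => by
      simp only [tl1, qf_eq l1 eN (hM l (mem_range.1 hl)), eq,
        max_eq _ _ p6 (pow_pos (mul_pos p3 p1) 2), div_mul_div_comm]
      rfl]
    simp only [← sum_div, ← mul_div_assoc]
    rw [div_div, div_le_div_iff₀ (by positivity) (by positivity)]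
    refine le_trans (le_of_eq ?_) (c.trans (le_of_eq ?_))
    · simp only [Nat.cast_mul]
    · push_cast
      ring
  · have c : (_ : ℝ) ≤ _ := Nat.cast_le.2 c2
    rw [Nat.cast_mul, tot_eq] at c
    rw [mm, eb, sum_congr rfl fun l hl => by
      simp only [tl2, qf_eq l2 eK (hM l (mem_range.1 hl)), eh,
        max_eq _ _ p7 (pow_pos (mul_pos p4 p1) 2)]
      rfl]
    simp only [← sum_div, ← mul_div_assoc]
    rw [div_div, div_le_div_iff₀ (by positivity) (by positivity)]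
    refine c.trans (le_of_eq ?_)
    push_cast
    ring

end Pool.Agent.Lib.PT5
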