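import Mathlib

/-! Integer certificates for nonnegative quadratic forms. -/

namespace Pool.Agent.Lib.PT5

open Finset

variable {ι κ : Type} [Fintype ι] [Fintype κ]

/-- the bilinear form of an integer matrix -/
noncomputable def bl (Q : ι → ι → ℤ) (x y : ι → ℝ) : ℝ := ∑ i, ∑ j, (Q i j : ℝ) * (x i * y j)

/-- mixed Gram matrix of the rows -/
def gram2 (A B : κ → ι → ℤ) (i j : ι) : ℤ := ∑ k, A k i * B k j

/-- Gram matrix of the rows -/
def gram (A : κ → ι → ℤ) : ι → ι → ℤ := gram2 A A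

/-- integer linear form -/
noncomputable def dz (a : ι → ℤ) (x : ι → ℝ) : ℝ := ∑ i, (a i : ℝ) * x i

/-- linear combination of matrices -/
def lc : List (ℤ × (ι → ι → ℤ)) → ι → ι → ℤ
  | [], _, _ => 0
  | p :: l, i, j => p.1 * p.2 i j + lc l i j

/-- diagonal dominance -/
def Dg (E : ι → ι → ℤ) : Prop := ∀ i, ∑ j, (|E i j| + |E j i|) ≤ 4 * E i i

instance (E : ι → ι → ℤ) : Decidable (Dg E) := inferInstanceAs (Decidable (∀ _, _))

theorem bl_gram2 (A B : κ → ι → ℤ) (x y : ι → ℝ) :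
    bl (gram2 A B) x y = ∑ k, dz (A k) x * dz (B k) y := by
  simp only [dz, sum_mul_sum]
  simp only [bl, gram2, Int.cast_sum, Int.cast_mul, sum_mul]
  rw [sum_comm (s := (univ : Finset κ))]
  refine sum_congr rfl fun i _ => ?_
  rw [sum_comm (s := (univ : Finset κ))]
  exact sum_congr rfl fun j _ => sum_congr rfl fun k _ => by ring

theorem bl_gram (A : κ → ι → ℤ) (x : ι → ℝ) : bl (gram A) x x = ∑ k, dz (A k) x ^ 2 := by
  simp only [gram, bl_gram2, sq]

theorem bl_nil (x y : ι → ℝ) : bl (lc []) x y = 0 := by simp [bl, lc]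

theorem bl_cons (c : ℤ) (Q : ι → ι → ℤ) (l : List (ℤ × (ι → ι → ℤ))) (x y : ι → ℝ) :
    bl (lc ((c, Q) :: l)) x y = c * bl Q x y + bl (lc l) x y := by
  simp only [bl, lc, Int.cast_add, Int.cast_mul, add_mul, sum_add_distrib, mul_sum, mul_assoc]

theorem bl_one (x y : ι → ℝ) : bl (fun _ _ => 1) x y = (∑ i, x i) * ∑ i, y i := by
  simp [bl, sum_mul_sum]

theorem bl_id [DecidableEq ι] (x y : ι → ℝ) :
    bl (fun i j => if i = j then 1 else 0) x y = ∑ i, x i * y i := by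
  simp [bl]

theorem Dg.nonneg {E : ι → ι → ℤ} (h : Dg E) (x : ι → ℝ) : 0 ≤ bl E x x := by
  classical
  have h1 : ∀ i j, (if i = j then 2 * (E i i : ℝ) * x i ^ 2 else 0)
      - (|(E i j : ℝ)| * x i ^ 2 + |(E i j : ℝ)| * x j ^ 2) / 2 ≤ E i j * (x i * x j) := by
    intro i j
    split_ifs with hij
    · subst hij
      nlinarith [le_abs_self (E i i : ℝ), sq_nonneg (x i)]
    · rcases abs_cases (E i j : ℝ) with ⟨h, h'⟩ | ⟨h, h'⟩ <;> rw [h] <;>
        nlinarith [sq_nonneg (x i + x j), sq_nonneg (x i - x j)]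
  refine le_trans ?_ (sum_le_sum fun i _ => sum_le_sum fun j _ => h1 i j)
  simp only [sum_sub_distrib, sum_ite_eq, mem_univ, if_true, ← sum_div, sum_add_distrib]
  rw [sum_comm (f := fun i j => |(E i j : ℝ)| * x j ^ 2), ← sum_add_distrib, sum_div,
    ← sum_sub_distrib]
  refine sum_nonneg fun i _ => ?_
  have h2 : ((∑ j, (|E i j| + |E j i|) : ℤ) : ℝ) ≤ (4 * E i i : ℤ) := Int.cast_le.2 (h i)
  push_cast at h2
  rw [← sum_mul, ← sum_mul, ← add_mul, ← sum_add_distrib]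
  nlinarith [sq_nonneg (x i)]

/-- the certificate -/
theorem psd {Q : ι → ι → ℤ} (c : ℤ) (R : κ → ι → ℤ) (hc : 0 ≤ c)
    (h : Dg fun i j => Q i j - c * gram R i j) (x : ι → ℝ) : 0 ≤ bl Q x x := by
  have h1 := h.nonneg x
  have h2 : bl (fun i j => Q i j - c * gram R i j) x x = bl Q x x - c * bl (gram R) x x := by
    simp only [bl, Int.cast_sub, Int.cast_mul, sub_mul, sum_sub_distrib, mul_sum, mul_assoc]
  have h3 : 0 ≤ (c : ℝ) * bl (gram R) x x :=
    mul_nonneg (Int.cast_nonneg hc) (by rw [bl_gram]; positivity)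
  linarith

end Pool.Agent.Lib.PT5
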