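import Pool.Agent.Lib.PT5.CDefs
import Pool.Agent.Lib.PT5.Psd

/-! Integer data for the last phase. -/

namespace Pool.Agent.Lib.PT5

open Finset Real RC5

namespace CG

/-- integer matrices -/
abbrev ZM : Type := T1 → T1 → ℤ

def fl (t : T1) : T1 := (t.1, !t.2)

/-- an integer matrix over a denominator -/
noncomputable def cm (A : ZM) (d : ℕ) : T1 → Vec := fun j t => (A j t : ℝ) / d

/-- thirteen times the adjoint of `L1` -/
def Lt (a : T1 → ℤ) (s : T1) : ℤ := 5 * a (io1 s) + 8 * a (io1 (fl s))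

def bt (a : T1 → ℤ) (t : T1) : ℤ := 5 * a t + 8 * a (fl t)

def Bt (a s : T1 → ℤ) (t : T1) : ℤ :=
  40 * (a (io1 t) + a (io1 (fl t))) * (s t + s (fl t)) - 30 * a (io1 t) * s t - (∑ u, a u) * bt s t

def Ga (i j : T1) : ℤ := (if i = j then 5 else 0) + if i = fl j then 8 else 0

def vx (a : T1 → ℤ) (t : T1) : ℤ := 10 * a t - ∑ u, a u

theorem sum10 (f : T1 → ℝ) : ∑ t, f t = f (0, false) + f (0, true) + f (1, false) + f (1, true)
    + f (2, false) + f (2, true) + f (3, false) + f (3, true) + f (4, false) + f (4, true) := by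
  rw [Fintype.sum_prod_type]
  simp only [Fintype.sum_bool]
  change ∑ c : Fin 5, (f (c, true) + f (c, false)) = _
  rw [Fin.sum_univ_five]
  change f (0, true) + f (0, false) + (f (1, true) + f (1, false)) + (f (2, true) + f (2, false))
    + (f (3, true) + f (3, false)) + (f (4, true) + f (4, false)) = _
  ring

theorem io_io : ∀ t, io1 (io1 t) = t := by decide

theorem sum_io (f : T1 → ℝ) : ∑ t, f (io1 t) = ∑ t, f t :=
  Function.Bijective.sum_comp (Function.Involutive.bijective io_io) f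

theorem sum_pair (f g : T1 → ℝ) (h : ∀ c, f (c, true) + f (c, false) = g (c, true) + g (c, false)) :
    ∑ t, f t = ∑ t, g t := by
  simp only [Fintype.sum_prod_type, Fintype.sum_bool, h]

theorem dot_cm (A : ZM) (d : ℕ) (j : T1) (x : Vec) : dot (cm A d j) x = dz (A j) x / d := by
  simp only [dot, cm, dz, sum_div]; exact sum_congr rfl fun _ _ => by ring

theorem qf_cm (A : ZM) (d : ℕ) (x : Vec) : qf (cm A d) x = (∑ j, dz (A j) x ^ 2) / d ^ 2 := by
  simp only [qf, ip, dot_cm, sum_div]; exact sum_congr rfl fun _ _ => by ring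

theorem dz_io (a : T1 → ℤ) (h : Vec) : dz a (fun t => h (io1 t)) = ∑ t, a (io1 t) * h t := by
  rw [dz, ← sum_io]; simp only [io_io]

theorem dz_L1 (a : T1 → ℤ) (x : Vec) : dz a (L1 x) = dz (Lt a) x / 13 := by
  unfold L1
  rw [dz_io, dz, sum_div]
  refine sum_pair _ _ fun c => ?_
  simp only [Vm, Lt, fl, Bool.not_true, Bool.not_false, Pi.one_apply]
  push_cast; ring

theorem bb_eq (x y : Vec) : bb x y = (∑ t, (5 * x t + 8 * x (fl t)) * y t) / 130 := by
  rw [bb, avg, sum_div, sum_div]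
  refine sum_pair _ _ fun c => ?_
  simp only [Vm, fl, Bool.not_true, Bool.not_false]; ring

theorem bb_Ga (x y : Vec) : bb x y = bl Ga x y / 130 := by
  rw [bb_eq, bl, sum_comm]
  congr 1
  refine sum_congr rfl fun t _ => ?_
  simp [Ga, add_mul, sum_add_distrib, ite_mul, mul_assoc]

theorem bb_cm (A : ZM) (d : ℕ) (k : T1) (x : Vec) :
    bb (cm A d k) x = dz (bt (A k)) x / (130 * d) := by
  rw [bb_eq, dz, sum_div, sum_div]
  refine sum_congr rfl fun t _ => ?_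
  simp only [cm, bt]; push_cast; ring

theorem dz_B0 (a : T1 → ℤ) (A : ZM) (d : ℕ) (k : T1) (x : Vec) :
    dz a (B0 (cm A d k) x) = dz (Bt a (A k)) x / (130 * d) := by
  have h1 : dz a (B0 (cm A d k) x)
      = dz a (fun t => Vm (cm A d k) x (io1 t)) - (∑ u, (a u : ℝ)) * bb (cm A d k) x := by
    simp only [dz, B0, mul_sub, sum_sub_distrib, sum_mul]
  rw [h1, dz_io, bb_cm, dz, dz, sum_div, sum_div, mul_sum, ← sum_sub_distrib]
  refine sum_pair _ _ fun c => ?_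
  simp only [Vm, Bt, cm, fl, Bool.not_true, Bool.not_false]
  push_cast; ring

theorem dz_sub (a : T1 → ℤ) (x y : Vec) : dz a (x - y) = dz a x - dz a y := by
  simp only [dz, Pi.sub_apply, mul_sub, sum_sub_distrib]

theorem dz_mul (c : ℤ) (a : T1 → ℤ) (x : Vec) : dz (fun t => c * a t) x = c * dz a x := by
  simp only [dz, mul_sum, Int.cast_mul, mul_assoc]

theorem vertex {x : Vec} (hx : Sx x) (A : ZM) (e : ℝ) (c : T1 → ℝ) (S : ℝ)
    (h : ∀ t, ∑ j, (e * vx (A j) t + c j) ^ 2 ≤ S) : ∑ j, (e * dz (A j) x + c j) ^ 2 ≤ S := by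
  have h1 : ∑ t, (1 + x t) / 10 = 1 := by
    rw [← sum_div, sum_add_distrib, hx.2]; norm_num [sum10]
  have h0 : ∀ t, 0 ≤ (1 + x t) / 10 := fun t => by have := hx.1 t; linarith
  have h2 : ∀ j, e * dz (A j) x + c j = ∑ t, (1 + x t) / 10 * (e * vx (A j) t + c j) := fun j => by
    have h3 := hx.2
    simp only [dz, vx, sum10] at h3 ⊢
    push_cast
    simp only [sum10]
    have h4 : x (4, true) = -(x (0, false) + x (0, true) + x (1, false) + x (1, true)
      + x (2, false) + x (2, true) + x (3, false) + x (3, true) + x (4, false)) := by linarith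
    rw [h4]; ring
  calc ∑ j, (e * dz (A j) x + c j) ^ 2
      ≤ ∑ j, ∑ t, (1 + x t) / 10 * (e * vx (A j) t + c j) ^ 2 := by
        refine sum_le_sum fun j _ => ?_
        have h5 : 0 ≤ ∑ t, (1 + x t) / 10 * (e * vx (A j) t + c j - (e * dz (A j) x + c j)) ^ 2 :=
          sum_nonneg fun t _ => mul_nonneg (h0 t) (sq_nonneg _)
        have h6 := h2 j
        generalize e * dz (A j) x + c j = m at h5 h6 ⊢
        have h7 : ∀ t, (1 + x t) / 10 * (e * vx (A j) t + c j - m) ^ 2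
            = (1 + x t) / 10 * (e * vx (A j) t + c j) ^ 2
              - 2 * m * ((1 + x t) / 10 * (e * vx (A j) t + c j)) + m ^ 2 * ((1 + x t) / 10) :=
          fun t => by ring
        simp only [h7, sum_add_distrib, sum_sub_distrib, ← mul_sum, h1, ← h6] at h5
        linarith
    _ = ∑ t, (1 + x t) / 10 * ∑ j, (e * vx (A j) t + c j) ^ 2 := by
        rw [sum_comm]; simp only [mul_sum]
    _ ≤ ∑ t, (1 + x t) / 10 * S := sum_le_sum fun t _ => mul_le_mul_of_nonneg_left (h t) (h0 t)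
    _ = S := by rw [← sum_mul, h1, one_mul]

/-- integer data -/
structure ZD where
  M : ZM
  al : T1 → ℤ
  be : T1 → ℤ
  N : ZM
  Ns : ZM
  K : ZM
  Sg : ZM
  dM : ℕ
  da : ℕ
  dNs : ℕ
  dK : ℕ
  dS : ℕ
  th : ℚ
  qb : ℚ
  ta : ℚ
  tb : ℚ
  S : ℚ
  sd : ℚ
  r : ℚ
  C : ℕ

def ZD.M1 (Z : ZD) : ZM := fun j t => Z.al j * Z.M j t

def ZD.M2 (Z : ZD) : ZM := fun j t => Z.be j * Z.M j t

/-- the real data -/
noncomputable def ZD.dat (Z : ZD) : Dat where
  M := cm Z.M Z.dM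
  M1 := cm Z.M1 (Z.da * Z.dM)
  M2 := cm Z.M2 (Z.da * Z.dM)
  N := cm Z.N (13 * (Z.da * Z.dM))
  Ns := cm Z.Ns Z.dNs
  K := cm Z.K Z.dK
  Sg := cm Z.Sg Z.dS
  th := Z.th
  qb := Z.qb
  ta := Z.ta
  tb := Z.tb
  S := Z.S
  sd := Z.sd
  r := Z.r
  C := Z.C

def one : ZM := fun _ _ => 1

def idm {ι : Type} [DecidableEq ι] : ι → ι → ℤ := fun i j => if i = j then 1 else 0

/-- nonnegative on vectors of sum zero -/
def Pz (Q : ZM) : Prop := ∀ x : Vec, ∑ t, x t = 0 → 0 ≤ bl Q x x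

theorem pz {l : List (ℤ × ZM)} (e c : ℤ) (R : ZM) (hc : 0 ≤ c)
    (h : Dg fun i j => lc ((e, one) :: l) i j - c * gram R i j) : Pz (lc l) := by
  intro x hx
  have := psd c R hc h x
  rw [bl_cons, show bl one x x = _ from bl_one x x, hx] at this
  linarith

def ZD.df (Z : ZD) (i j : T1) : ℤ :=
  Ga i j * (13 * (Z.da * Z.dM) * Z.dNs : ℕ) - 130 * gram2 Z.N Z.Ns i j

theorem spl_aux {a b al be d : ℝ} (ha : 0 < al) (hb : 0 < be)
    (h : d ^ 2 * (al ^ 2 + be ^ 2) ≤ al ^ 2 * be ^ 2) :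
    d ^ 2 * (a - b) ^ 2 ≤ (al * a) ^ 2 + (be * b) ^ 2 := by
  have h1 : 0 < al ^ 2 * be ^ 2 := by positivity
  have h2 : 0 < al ^ 2 + be ^ 2 := by positivity
  refine le_of_mul_le_mul_right ?_ h2
  have h3 := mul_le_mul_of_nonneg_right h (sq_nonneg (a - b))
  nlinarith [sq_nonneg (al ^ 2 * a + be ^ 2 * b)]

theorem good (Z : ZD) (hM : 0 < Z.dM) (ha : 0 < Z.da) (hNs : 0 < Z.dNs) (hK : 0 < Z.dK)
    (hS : 0 < Z.dS) (h0 : 0 < Z.th ∧ Z.th < 1 ∧ 0 ≤ Z.qb ∧ 0 ≤ Z.S ∧ 0 ≤ Z.sd ∧ 0 ≤ Z.r ∧ Z.r < 1)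
    (h1 : ∀ j, 0 < Z.al j ∧ 0 < Z.be j ∧
      (Z.da : ℤ) ^ 2 * (Z.al j ^ 2 + Z.be j ^ 2) ≤ Z.al j ^ 2 * Z.be j ^ 2)
    (h2 : ∀ j, (∀ s, Z.N j s = Lt (Z.M2 j) s) ∨ ∀ s, Z.M2 j s = 0)
    (h3 : ∀ i j, Z.df i j = Z.df i (0, false) + Z.df (0, false) j - Z.df (0, false) (0, false))
    (h4 : Pz (lc [(130, gram Z.K), (-Z.dK ^ 2, Ga)]))
    (h5 : Pz (lc [(130, gram Z.K), (Z.dK ^ 2, Ga)]))
    (h6 : ∀ a : ZMod 5 → ℝ, 0 ≤ bl (lc [(20 * Z.dS ^ 2 * Z.sd.num, idm),
      (-Z.sd.den, gram fun k c => Z.Sg k (c, true) - Z.Sg k (c, false))]) a a)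
    (h7 : ∀ a b c, ((∑ j, (13 * vx (Z.M j) a - vx (Lt (Z.M j)) b - vx (Lt (Z.M j)) c) ^ 2 : ℤ) : ℚ)
      ≤ Z.S * (13 * Z.dM) ^ 2)
    (c0 c1 c2 c3 c4 c5 : ℤ) (L : ℚ) (hL : 0 < L)
    (h8 : c0 ≤ L * (Z.r / Z.dM ^ 2) ∧ L * (2 * (1 + 3 / 13 * Z.sd) / (13 * Z.dM) ^ 2) ≤ c1 ∧
      L * (1 / (1 - Z.th) / (130 * Z.dS * (Z.da * Z.dM)) ^ 2) ≤ c2 ∧
      L * (4 * Z.qb / (1 - Z.th) / (130 * Z.dS) ^ 2) ≤ c3 ∧
      L * (4 * Z.ta / (1 - Z.th) / Z.dNs ^ 2) ≤ c4 ∧ L * (2 * Z.S * Z.tb / Z.th / Z.dK ^ 2) ≤ c5)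
    (h9 : Pz (lc [(c0, gram Z.M), (-c1, gram fun j => Lt (Z.M j)),
      (-c2, gram fun p : T1 × T1 => Bt (Z.M1 p.2) (Z.Sg p.1)), (-c3, gram fun k => bt (Z.Sg k)),
      (-c4, gram Z.Ns), (-c5, gram Z.K)]))
    (h10 : Pz (lc [(Z.C, gram Z.M), (-Z.dM ^ 2, idm)])) : Z.dat.Good := by
  have hM' : (0 : ℝ) < Z.dM := by exact_mod_cast hM
  have ha' : (0 : ℝ) < Z.da := by exact_mod_cast ha
  have hNs' : (0 : ℝ) < Z.dNs := by exact_mod_cast hNs
  have hK' : (0 : ℝ) < Z.dK := by exact_mod_cast hK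
  have hS' : (0 : ℝ) < Z.dS := by exact_mod_cast hS
  obtain ⟨t0, t1, q0, s0, sd0, r0, r1⟩ := h0
  refine ⟨show (0 : ℝ) < Z.th by exact_mod_cast t0, show (Z.th : ℝ) < 1 by exact_mod_cast t1,
    show (0 : ℝ) ≤ Z.qb by exact_mod_cast q0, show (0 : ℝ) ≤ Z.S by exact_mod_cast s0,
    show (0 : ℝ) ≤ Z.sd by exact_mod_cast sd0, show (0 : ℝ) ≤ Z.r by exact_mod_cast r0,
    show (Z.r : ℝ) < 1 by exact_mod_cast r1, ?_, ?_, ?_, ?_, ?_, ?_, ?_, ?_⟩
  · intro p q _ _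
    simp only [ZD.dat, qf_cm, dz_sub]
    have : ∀ j, (Z.da : ℝ) ^ 2 * (dz (Z.M j) p - dz (Z.M j) q) ^ 2
        ≤ dz (Z.M1 j) p ^ 2 + dz (Z.M2 j) q ^ 2 := fun j => by
      rw [show dz (Z.M1 j) p = _ from dz_mul _ _ _, show dz (Z.M2 j) q = _ from dz_mul _ _ _]
      exact spl_aux (by exact_mod_cast (h1 j).1) (by exact_mod_cast (h1 j).2.1)
        (by exact_mod_cast (h1 j).2.2)
    have h := sum_le_sum fun j (_ : j ∈ univ) => this j
    rw [← mul_sum, sum_add_distrib] at h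
    rw [← add_div, div_le_div_iff₀ (by positivity) (by positivity)]
    push_cast
    nlinarith [mul_le_mul_of_nonneg_right h (sq_nonneg (Z.dM : ℝ))]
  · intro x _
    simp only [ZD.dat, qf_cm, sum_div]
    refine sum_le_sum fun j _ => ?_
    rcases h2 j with h | h
    · rw [dz_L1, ← funext h]
      push_cast
      exact le_of_eq (by field_simp)
    · have : dz (Z.M2 j) (L1 x) = 0 := by simp [dz, h]
      rw [this]
      simp only [ne_eq, OfNat.ofNat_ne_zero, not_false_eq_true, zero_pow, zero_div]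
      positivity
  · intro x y hx hy
    have e1 : bl Z.df x y = 0 := by
      have : ∀ i j, (Z.df i j : ℝ) * (x i * y j) = Z.df i (0, false) * x i * y j
          + x i * (Z.df (0, false) j * y j) - Z.df (0, false) (0, false) * x i * y j := fun i j => by
        rw [h3 i j]; push_cast; ring
      simp only [bl, this, sum_sub_distrib, sum_add_distrib, ← mul_sum, ← sum_mul, hx, hy]
      ring
    have e2 : bl Z.df x y = bl Ga x y * (13 * (Z.da * Z.dM) * Z.dNs)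
        - 130 * bl (gram2 Z.N Z.Ns) x y := by
      simp only [bl, ZD.df, mul_sum, sum_mul, ← sum_sub_distrib]
      exact sum_congr rfl fun i _ => sum_congr rfl fun j _ => by push_cast; ring
    have e3 : bb x y = (∑ k, dz (Z.N k) x * dz (Z.Ns k) y) / (13 * (Z.da * Z.dM) * Z.dNs) := by
      rw [bb_Ga, ← bl_gram2, div_eq_div_iff (by norm_num) (by positivity)]
      linarith
    simp only [ZD.dat, qf_cm]
    rw [e3, div_pow, div_mul_div_comm]
    push_cast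
    rw [← mul_pow]
    exact div_le_div_of_nonneg_right (sum_mul_sq_le_sq_mul_sq _ _ _) (by positivity)
  · intro x y hx hy
    have k1 : ∀ z : Vec, ∑ t, z t = 0 → |bb z z| ≤ qf (cm Z.K Z.dK) z := fun z hz => by
      have a1 := h4 z hz
      have a2 := h5 z hz
      simp only [bl_cons, bl_nil, bl_gram] at a1 a2
      push_cast at a1 a2
      rw [qf_cm, bb_Ga, le_div_iff₀ (by positivity), ← abs_of_pos (show (0 : ℝ) < Z.dK ^ 2 by
        positivity), ← abs_mul, abs_le]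
      constructor <;> linarith
    have k2 : ∀ l : ℝ, 0 ≤ qf (cm Z.K Z.dK) x * (l * l) + -(2 * bb x y) * l
        + qf (cm Z.K Z.dK) y := fun l => by
      have a1 := (abs_le.1 (k1 (l • x + y) (by simp [sum_add_distrib, ← mul_sum, hx, hy]))).2
      have a2 := (abs_le.1 (k1 (l • x - y) (by simp [sum_sub_distrib, ← mul_sum, hx, hy]))).1
      have a3 : bb (l • x + y) (l • x + y) - bb (l • x - y) (l • x - y) = 4 * l * bb x y := by
        simp only [bb_eq, ← sub_div, ← sum_sub_distrib, ← mul_div_assoc, mul_sum]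
        congr 1
        refine sum_pair _ _ fun c => ?_
        simp only [fl, Bool.not_true, Bool.not_false, Pi.add_apply, Pi.sub_apply, Pi.smul_apply,
          smul_eq_mul]
        ring
      have a4 : qf (cm Z.K Z.dK) (l • x + y) + qf (cm Z.K Z.dK) (l • x - y)
          = 2 * (l * l) * qf (cm Z.K Z.dK) x + 2 * qf (cm Z.K Z.dK) y := by
        simp only [qf, ip, mul_sum, ← sum_add_distrib]
        refine sum_congr rfl fun j _ => ?_
        have b1 : ∀ a : Vec, dot a (l • x + y) = l * dot a x + dot a y := fun a => by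
          simp only [dot, mul_sum, ← sum_add_distrib, Pi.add_apply, Pi.smul_apply, smul_eq_mul]
          exact sum_congr rfl fun _ _ => by ring
        have b2 : ∀ a : Vec, dot a (l • x - y) = l * dot a x - dot a y := fun a => by
          simp only [dot, mul_sum, ← sum_sub_distrib, Pi.sub_apply, Pi.smul_apply, smul_eq_mul]
          exact sum_congr rfl fun _ _ => by ring
        rw [b1, b2]; ring
      linarith
    have := discrim_le_zero k2
    simp only [discrim] at this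
    change _ ≤ qf (cm Z.K Z.dK) x * qf (cm Z.K Z.dK) y
    nlinarith
  · intro a
    have a1 := h6 a
    rw [bl_cons, bl_cons, bl_nil, bl_gram, show bl idm a a = _ from bl_id a a] at a1
    have a2 : ∀ k, ∑ c, a c * od (cm Z.Sg Z.dS k) c
        = dz (fun c => Z.Sg k (c, true) - Z.Sg k (c, false)) a / (2 * Z.dS) := fun k => by
      simp only [dz, od, cm, sum_div]
      exact sum_congr rfl fun c _ => by push_cast; field_simp
    have a3 : (Z.sd : ℝ) = Z.sd.num / Z.sd.den := by exact_mod_cast (Rat.num_div_den Z.sd).symm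
    have a4 : (0 : ℝ) < Z.sd.den := by exact_mod_cast Z.sd.den_pos
    simp only [ZD.dat, a2, div_pow, ← sum_div, a3, sq (a _)]
    push_cast at a1
    rw [div_le_iff₀ (by positivity)]
    refine le_of_mul_le_mul_left ?_ a4
    have : (Z.sd.den : ℝ) * (5 * (Z.sd.num / Z.sd.den) * (∑ c, a c * a c) * (2 * Z.dS) ^ 2)
        = 20 * Z.dS ^ 2 * Z.sd.num * ∑ c, a c * a c := by field_simp; ring
    linarith
  · intro u x y hu hx hy
    have a1 : ∑ j, (13 * dz (Z.M j) u + (-dz (Lt (Z.M j)) x - dz (Lt (Z.M j)) y)) ^ 2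
        ≤ (Z.S : ℝ) * (13 * Z.dM) ^ 2 := by
      refine vertex hu _ _ _ _ fun a => ?_
      have : ∑ j, (-1 * dz (Lt (Z.M j)) x + (13 * vx (Z.M j) a - dz (Lt (Z.M j)) y)) ^ 2
          ≤ (Z.S : ℝ) * (13 * Z.dM) ^ 2 := by
        refine vertex hx (fun j => Lt (Z.M j)) _ _ _ fun b => ?_
        have : ∑ j, (-1 * dz (Lt (Z.M j)) y + (13 * vx (Z.M j) a - vx (Lt (Z.M j)) b)) ^ 2
            ≤ (Z.S : ℝ) * (13 * Z.dM) ^ 2 := by
          refine vertex hy (fun j => Lt (Z.M j)) _ _ _ fun c => ?_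
          have a2 : ((∑ j, (13 * vx (Z.M j) a - vx (Lt (Z.M j)) b - vx (Lt (Z.M j)) c) ^ 2 : ℤ) : ℝ)
              ≤ (Z.S : ℝ) * (13 * Z.dM) ^ 2 := by exact_mod_cast h7 a b c
          push_cast at a2
          exact le_of_eq_of_le (sum_congr rfl fun j _ => by ring) a2
        exact le_of_eq_of_le (sum_congr rfl fun j _ => by ring) this
      exact le_of_eq_of_le (sum_congr rfl fun j _ => by ring) this
    simp only [ZD.dat, qf_cm, dz_sub, dz_L1]
    rw [div_le_iff₀ (by positivity)]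
    have a3 : ∑ j, (13 * dz (Z.M j) u + (-dz (Lt (Z.M j)) x - dz (Lt (Z.M j)) y)) ^ 2
        = 13 ^ 2 * ∑ j, (dz (Z.M j) u - dz (Lt (Z.M j)) x / 13 - dz (Lt (Z.M j)) y / 13) ^ 2 := by
      rw [mul_sum]; exact sum_congr rfl fun j _ => by ring
    nlinarith
  · intro x hx
    have a1 := h9 x hx
    simp only [bl_cons, bl_nil, bl_gram] at a1
    rw [Fintype.sum_prod_type (f := fun p : T1 × T1 => dz (Bt (Z.M1 p.2) (Z.Sg p.1)) x ^ 2)] at a1
    push_cast at a1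
    obtain ⟨b0, b1, b2, b3, b4, b5⟩ := h8
    have hL' : (0 : ℝ) < L := by exact_mod_cast hL
    have d0 : (c0 : ℝ) ≤ L * (Z.r / Z.dM ^ 2) := by exact_mod_cast b0
    have d1 : (L : ℝ) * (2 * (1 + 3 / 13 * Z.sd) / (13 * Z.dM) ^ 2) ≤ c1 := by
      have := (Rat.cast_le (K := ℝ)).2 b1
      push_cast at this
      exact this
    have d2 : (L : ℝ) * (1 / (1 - Z.th) / (130 * Z.dS * (Z.da * Z.dM)) ^ 2) ≤ c2 := by
      exact_mod_cast b2
    have d3 : (L : ℝ) * (4 * Z.qb / (1 - Z.th) / (130 * Z.dS) ^ 2) ≤ c3 := by exact_mod_cast b3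
    have d4 : (L : ℝ) * (4 * Z.ta / (1 - Z.th) / Z.dNs ^ 2) ≤ c4 := by exact_mod_cast b4
    have d5 : (L : ℝ) * (2 * Z.S * Z.tb / Z.th / Z.dK ^ 2) ≤ c5 := by exact_mod_cast b5
    simp only [ZD.dat, qf_cm, dz_L1, dz_B0, bb_cm, div_pow, ← sum_div]
    push_cast
    have p : ∀ {f : T1 → ℝ}, 0 ≤ ∑ j, f j ^ 2 := sum_nonneg fun _ _ => sq_nonneg _
    have g0 := mul_le_mul_of_nonneg_right d0 (p (f := fun j => dz (Z.M j) x))
    have g1 := mul_le_mul_of_nonneg_right d1 (p (f := fun j => dz (Lt (Z.M j)) x))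
    have g2 := mul_le_mul_of_nonneg_right d2 (sum_nonneg fun k (_ : k ∈ univ) =>
      p (f := fun j => dz (Bt (Z.M1 j) (Z.Sg k)) x))
    have g3 := mul_le_mul_of_nonneg_right d3 (p (f := fun j => dz (bt (Z.Sg j)) x))
    have g4 := mul_le_mul_of_nonneg_right d4 (p (f := fun j => dz (Z.Ns j) x))
    have g5 := mul_le_mul_of_nonneg_right d5 (p (f := fun j => dz (Z.K j) x))
    refine le_of_mul_le_mul_left ?_ hL'
    generalize ∑ j, dz (Z.M j) x ^ 2 = G0 at *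
    generalize ∑ j, dz (Lt (Z.M j)) x ^ 2 = G1 at *
    generalize ∑ k, ∑ j, dz (Bt (Z.M1 j) (Z.Sg k)) x ^ 2 = G2 at *
    generalize ∑ j, dz (bt (Z.Sg j)) x ^ 2 = G3 at *
    generalize ∑ j, dz (Z.Ns j) x ^ 2 = G4 at *
    generalize ∑ j, dz (Z.K j) x ^ 2 = G5 at *
    refine le_of_eq_of_le (b := L * (2 * (1 + 3 / 13 * Z.sd) / (13 * Z.dM) ^ 2) * G1
      + L * (1 / (1 - Z.th) / (130 * Z.dS * (Z.da * Z.dM)) ^ 2) * G2
      + L * (4 * Z.qb / (1 - Z.th) / (130 * Z.dS) ^ 2) * G3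
      + L * (4 * Z.ta / (1 - Z.th) / Z.dNs ^ 2) * G4
      + L * (2 * Z.S * Z.tb / Z.th / Z.dK ^ 2) * G5) (by ring) ?_
    refine le_of_le_of_eq (b := L * (Z.r / Z.dM ^ 2) * G0) (by linarith) (by ring)
  · intro x hx
    have a1 := h10 x hx
    rw [bl_cons, bl_cons, bl_nil, bl_gram, show bl idm x x = _ from bl_id x x] at a1
    push_cast at a1
    simp only [ZD.dat, qf_cm, sq2, sq (x _)]
    rw [← mul_div_assoc, le_div_iff₀ (by positivity)]
    linarith

end CG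

end Pool.Agent.Lib.PT5
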