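import Pool.Agent.Lib.PT5.LDefs

/-! No reconstruction from the second order certificate. -/

namespace Pool.Agent.Lib.PT5

open Finset Real RC5

namespace CNL

lemma g_smul (a b : ℝ) (v w : Vec) :
    Am 1 (Vm (a • v) (b • w)) = (a * b) • Am 1 (Vm v w) := by
  funext t
  simp only [Am, Vm, Pi.smul_apply, smul_eq_mul]
  ring

lemma g_one : Am 1 (Vm 1 1) = 1 := by
  funext t
  simp only [Am, Vm, Pi.one_apply]
  norm_num

lemma g_comm (v w : Vec) : Am 1 (Vm v w) = Am 1 (Vm w v) := by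
  funext t
  simp only [Am, Vm]
  ring

lemma g_nonneg {v w : Vec} (hv : 0 ≤ v) (hw : 0 ≤ w) : 0 ≤ Am 1 (Vm v w) := by
  intro t
  simp only [Am, Vm, Pi.zero_apply]
  rcases h : io1 t with ⟨c, o⟩
  have h1 : 0 ≤ v (c, false) := hv _
  have h2 : 0 ≤ v (c, true) := hv _
  have h3 : 0 ≤ w (c, false) := hw _
  have h4 : 0 ≤ w (c, true) := hw _
  have h5 := mul_nonneg h1 h3
  have h6 := mul_nonneg h1 h4
  have h7 := mul_nonneg h2 h3
  have h8 := mul_nonneg h2 h4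
  cases o <;> simp only <;> nlinarith

lemma subl_sum {F : Vec → ℝ} (hF : Subl F) {I : Type} (S : Finset I) (v : I → Vec)
    (hv : ∀ i, 0 ≤ v i) : F (∑ i ∈ S, v i) ≤ ∑ i ∈ S, F (v i) := by
  classical
  induction S using Finset.induction_on with
  | empty =>
    have h := hF.2 0 0 le_rfl le_rfl
    simp only [zero_smul, zero_mul] at h
    simp [h]
  | insert a S ha ih =>
    rw [Finset.sum_insert ha, Finset.sum_insert ha]
    have h := hF.1 (v a) (∑ i ∈ S, v i) (hv a) (Finset.sum_nonneg fun i _ => hv i)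
    linarith

lemma one_nonneg : (0 : Vec) ≤ 1 := fun _ => zero_le_one

lemma era_nonneg {I : Type} {e : ℝ} (h0 : 0 ≤ e) (h1 : e ≤ 1) {R : I → Vec} (hR : ∀ i, 0 ≤ R i)
    (i : Option I) : 0 ≤ era e R i := by
  cases i with
  | none => exact smul_nonneg (by linarith) one_nonneg
  | some i => exact smul_nonneg h0 (hR i)

lemma sum_era {F : Vec → ℝ} (hF : Subl F) {I : Type} [Fintype I] {e : ℝ} (h0 : 0 ≤ e)
    (h1 : e ≤ 1) {R : I → Vec} (hR : ∀ i, 0 ≤ R i) :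
    ∑ i, F (era e R i) = (1 - e) * F 1 + e * ∑ i, F (R i) := by
  rw [Fintype.sum_option, Finset.mul_sum]
  have ha : F (era e R none) = (1 - e) * F 1 := hF.2 _ _ (by linarith) one_nonneg
  have hb : ∀ i, F (era e R (some i)) = e * F (R i) := fun i => hF.2 _ _ h0 (hR i)
  rw [ha, Finset.sum_congr rfl fun i _ => hb i]

lemma sum_t2 {F : Vec → ℝ} (hF : Subl F) {I : Type} [Fintype I] {e : ℝ} (h0 : 0 ≤ e)
    (h1 : e ≤ 1) {R : I → Vec} (hR : ∀ i, 0 ≤ R i) :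
    ∑ i, F (T2 (era e R) (era e R) i) = (1 - e) * (1 - e) * F 1
      + 2 * (e * (1 - e)) * ∑ i, F (Am 1 (Vm 1 (R i))) + e * e * ∑ i, F (T2 R R i) := by
  have h1' : 0 ≤ 1 - e := by linarith
  have ha : F (T2 (era e R) (era e R) (none, none)) = (1 - e) * (1 - e) * F 1 := by
    show F (Am 1 (Vm ((1 - e) • 1) ((1 - e) • 1))) = _
    rw [g_smul, g_one]
    exact hF.2 _ _ (mul_nonneg h1' h1') one_nonneg
  have hb : ∀ j, F (T2 (era e R) (era e R) (none, some j))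
      = (e * (1 - e)) * F (Am 1 (Vm 1 (R j))) := by
    intro j
    show F (Am 1 (Vm ((1 - e) • 1) (e • R j))) = _
    rw [g_smul, mul_comm e]
    exact hF.2 _ _ (mul_nonneg h1' h0) (g_nonneg one_nonneg (hR j))
  have hc : ∀ i, F (T2 (era e R) (era e R) (some i, none))
      = (e * (1 - e)) * F (Am 1 (Vm 1 (R i))) := by
    intro i
    show F (Am 1 (Vm (e • R i) ((1 - e) • 1))) = _
    rw [g_smul, g_comm]
    exact hF.2 _ _ (mul_nonneg h0 h1') (g_nonneg one_nonneg (hR i))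
  have hd : ∀ i j, F (T2 (era e R) (era e R) (some i, some j))
      = e * e * F (T2 R R (i, j)) := by
    intro i j
    show F (Am 1 (Vm (e • R i) (e • R j))) = e * e * F (Am 1 (Vm (R i) (R j)))
    rw [g_smul]
    exact hF.2 _ _ (mul_nonneg h0 h0) (g_nonneg (hR i) (hR j))
  rw [Fintype.sum_prod_type, Fintype.sum_option, Fintype.sum_option, ha]
  simp only [Fintype.sum_option, hb, hc, hd]
  rw [Finset.sum_add_distrib, Fintype.sum_prod_type]
  simp only [← Finset.mul_sum]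
  ring

lemma step (hPH : St_PH) {I : Type} [Fintype I] {R : I → Vec} (hR : IsE R) {a κ ρ e : ℝ}
    (ha0 : 0 ≤ a) (ha : a ≤ ρ) (hk0 : 0 ≤ κ) (hk : 2 * κ ≤ ρ) (hρ : ρ ≤ 1) (h0 : 0 ≤ e)
    (h1 : e ≤ 1) (hA : LN (T2 R R) (era a R))
    (hB : LN (fun i => Am 1 (Vm 1 (R i))) (era κ R)) :
    LN (T2 (era e R) (era e R)) (era (ρ * e) R) := by
  intro p h hp
  have hF := hPH.1 p h hp
  have hρ0 : 0 ≤ ρ := ha0.trans ha
  have hle : Ph p h 1 ≤ ∑ i, Ph p h (R i) := by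
    have := subl_sum hF Finset.univ R hR.1
    rwa [hR.2] at this
  have e1 := hA p h hp
  have e2 := hB p h hp
  rw [sum_era hF ha0 (ha.trans hρ) hR.1] at e1
  rw [sum_era hF hk0 (by linarith) hR.1] at e2
  rw [sum_t2 hF h0 h1 hR.1,
    sum_era hF (mul_nonneg hρ0 h0) (mul_le_one₀ hρ h0 h1) hR.1]
  set F0 := Ph p h 1
  set F := ∑ i, Ph p h (R i)
  set A := ∑ i, Ph p h (T2 R R i)
  set B := ∑ i, Ph p h (Am 1 (Vm 1 (R i)))
  have hD : 0 ≤ F - F0 := by linarith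
  have hee : 0 ≤ e * e := mul_nonneg h0 h0
  have he1 : 0 ≤ e * (1 - e) := mul_nonneg h0 (by linarith)
  have f1 : A ≤ F0 + ρ * (F - F0) := by
    have := mul_le_mul_of_nonneg_right ha hD
    linarith
  have f2 : 2 * B ≤ 2 * F0 + ρ * (F - F0) := by
    have := mul_le_mul_of_nonneg_right hk hD
    linarith
  have f3 := mul_le_mul_of_nonneg_left f1 hee
  have f4 := mul_le_mul_of_nonneg_left f2 he1
  linarith

end CNL

open CNL in
theorem st_NL (hSP : St_SP) (hQK : St_QK) (hDOM : St_DOM) (hPH : St_PH) (hTL : St_TL)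
    (hTB : St_TB) : St_NR := by
  obtain ⟨I, _, R, k, a, κ, hR, ha0, ha1, hk0, hk1, hL0, hA, hB⟩ := hTB
  set ρ := max a (2 * κ) with hρ
  have hρ1 : ρ < 1 := max_lt ha1 hk1
  have hρ0 : 0 ≤ ρ := ha0.trans (le_max_left _ _)
  have hp0 : ∀ n : ℕ, 0 ≤ ρ ^ n := fun n => pow_nonneg hρ0 n
  have hp1 : ∀ n : ℕ, ρ ^ n ≤ 1 := fun n => pow_le_one₀ hρ0 hρ1.le
  have hv : ∀ j b, 0 ≤ vS 1 j b := fun j => ((hSP 1 j).2.2 zero_le_one le_rfl).1.1
  have key : ∀ n, LN (vS 1 (k + n)) (era (ρ ^ n) R) := by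
    intro n
    induction n with
    | zero =>
      intro p h hp
      rw [sum_era (hPH.1 p h hp) (hp0 0) (hp1 0) hR.1]
      have := hL0 p h hp
      simpa using this
    | succ n ih =>
      intro p h hp
      have e1 := hTL _ _ _ _ (vS 1 (k + n)) (era (ρ ^ n) R) (vS 1 (k + n)) (era (ρ ^ n) R)
        (era_nonneg (hp0 n) (hp1 n) hR.1) (hv _) ih ih p h hp
      have e2 := step hPH hR ha0 (le_max_left _ _) hk0 (le_max_right _ _) hρ1.le (hp0 n) (hp1 n)
        hA hB p h hp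
      rw [pow_succ']
      exact e1.trans e2
  intro ε hε
  set C : ℝ := 10 * ∑ t, ∑ i, Ph 1 (dl t - fun _ => 1 / 10) (R i) with hC
  have hlim : Filter.Tendsto (fun n : ℕ => ρ ^ n * C) Filter.atTop (nhds (0 * C)) :=
    (tendsto_pow_atTop_nhds_zero_of_lt_one hρ0 hρ1).mul_const C
  rw [zero_mul] at hlim
  obtain ⟨n, hn⟩ := (hlim.eventually (ge_mem_nhds hε)).exists
  refine ⟨k + n, fun s hs0 hs1 => ?_⟩
  refine le_trans ?_ hn
  rw [hQK s _ hs0 hs1, mo]
  simp only [hPH.2.1]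
  rw [← Finset.mul_sum, Finset.sum_comm]
  have hC' : ρ ^ n * C = 10 * ∑ t, ρ ^ n * ∑ i, Ph 1 (dl t - fun _ => 1 / 10) (R i) := by
    rw [hC, ← Finset.mul_sum]
    ring
  rw [hC']
  have h10 : (0 : ℝ) ≤ 10 := by norm_num
  refine mul_le_mul_of_nonneg_left (Finset.sum_le_sum fun t _ => ?_) h10
  obtain ⟨hadm, hz⟩ := hPH.2.2.1 t
  have hF := hPH.1 _ _ hadm
  have e1 := (hDOM (k + n)).1 s hs0 hs1 _ hF
  have e2 := key n _ _ hadm
  rw [sum_era hF (hp0 n) (hp1 n) hR.1, hz] at e2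
  linarith

end Pool.Agent.Lib.PT5
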