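import Pool.Agent.Lib.PT5.LDefs

/-! The test functionals of the second order comparison. -/

namespace Pool.Agent.Lib.PT5

open Finset Real RC5

namespace CPH

lemma abs_le {p h v : Vec} (H : Adm p h) (hv : 0 ≤ v) : |dot h v| ≤ dot p v :=
  (abs_sum_le_sum_abs _ _).trans (sum_le_sum fun t _ => by
    rw [abs_mul, abs_of_nonneg (hv t)]
    exact mul_le_mul_of_nonneg_right (H.1 t) (hv t))

lemma dot_add (p v w : Vec) : dot p (v + w) = dot p v + dot p w := by
  simp only [dot, Pi.add_apply, mul_add, sum_add_distrib]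

lemma dot_smul (p : Vec) (a : ℝ) (v : Vec) : dot p (a • v) = a * dot p v := by
  simp only [dot, Pi.smul_apply, smul_eq_mul, mul_sum, mul_left_comm]

lemma dot_sum {I : Type} [Fintype I] (p : Vec) (y : I → ℝ) (v : I → Vec) :
    dot p (∑ i, y i • v i) = ∑ i, y i * dot p (v i) := by
  simp only [dot, Finset.sum_apply, Pi.smul_apply, smul_eq_mul, mul_sum, mul_left_comm]
  exact sum_comm

lemma low {a b : ℝ} (z : ℝ) (h : |a| ≤ b) : 2 * (z * a) - z ^ 2 * b ≤ a ^ 2 / b := by
  rcases ((abs_nonneg a).trans h).eq_or_lt with rfl | hb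
  · simp [abs_nonpos_iff.1 h]
  · rw [le_div_iff₀ hb]
    nlinarith [sq_nonneg (a - z * b)]

lemma att (a b : ℝ) : a ^ 2 / b = 2 * (a / b * a) - (a / b) ^ 2 * b := by
  rcases eq_or_ne b 0 with rfl | hb
  · simp
  · field_simp; ring

lemma dot_dl (t : T1) (v : Vec) : dot (dl t - fun _ => 1 / 10) v = v t - avg v := by
  simp only [dot, dl, Pi.sub_apply, sub_mul, sum_sub_distrib, Pi.single_apply, ite_mul, one_mul,
    zero_mul, sum_ite_eq', mem_univ, if_true, avg, ← mul_sum]
  ring

lemma dot_one (v : Vec) : dot 1 v = 10 * avg v := by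
  simp only [dot, Pi.one_apply, one_mul, avg]
  ring

end CPH

open CPH in
theorem st_PH : St_PH := by
  refine ⟨fun p h H => ⟨fun v w hv hw => ?_, fun a v ha _ => ?_⟩, fun v => ?_,
    fun t => ⟨⟨fun s => ?_, fun _ => by simp⟩, ?_⟩, fun I J _ _ v u p h H hv hu hz => ?_⟩
  · have h1 := low (dot h (v + w) / dot p (v + w)) (abs_le H hv)
    have h2 := low (dot h (v + w) / dot p (v + w)) (abs_le H hw)
    rw [Ph, Ph, Ph, att]
    generalize dot h (v + w) / dot p (v + w) = z at *
    rw [dot_add, dot_add]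
    linarith
  · rw [Ph, Ph, dot_smul, dot_smul]
    rcases eq_or_ne a 0 with rfl | h0
    · simp
    · rw [mul_pow, sq a, mul_assoc, mul_div_mul_left _ _ h0, mul_div_assoc]
  · simp only [Ph, dot_dl, dot_one, per, sq2, nz, mul_sum]
    refine sum_congr rfl fun t _ => ?_
    rcases eq_or_ne (avg v) 0 with h0 | h0
    · simp [h0]
    · field_simp
  · simp only [dl, Pi.sub_apply, Pi.single_apply, Pi.one_apply]
    split_ifs <;> norm_num [_root_.abs_le]
  · rw [Ph, dot_dl]
    simp [avg]
  · obtain ⟨z, h1, h2⟩ := hz fun i => dot h (v i) / dot p (v i)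
    have h3 := congrArg (dot h) h1
    rw [dot_sum, dot_sum] at h3
    have h4 := sum_le_sum fun j (_ : j ∈ univ) => low (z j) (abs_le H (hu j))
    simp only [Ph]
    rw [sum_congr rfl fun i _ => att (dot h (v i)) (dot p (v i))]
    rw [sum_sub_distrib, ← mul_sum] at h4 ⊢
    linarith

end Pool.Agent.Lib.PT5
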