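import Pool.Agent.Lib.PT5.LDefs

/-! The second order comparison is kept by one more level. -/

namespace Pool.Agent.Lib.PT5

open Finset Real RC5

namespace CTL

theorem app (v w : Vec) (t : T1) : Am 1 (Vm v w) t = Vm v w (io1 t) := by simp [Am]

theorem symm (v w : Vec) : Vm v w = Vm w v := by
  funext t
  simp only [Vm]
  ring

theorem nn {v w : Vec} (hv : 0 ≤ v) (hw : 0 ≤ w) : 0 ≤ Vm v w := by
  rintro ⟨c, o⟩
  have a0 := mul_nonneg (hv (c, false)) (hw (c, false))
  have a1 := mul_nonneg (hv (c, false)) (hw (c, true))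
  have a2 := mul_nonneg (hv (c, true)) (hw (c, false))
  have a3 := mul_nonneg (hv (c, true)) (hw (c, true))
  cases o <;> simp only [Vm, Pi.zero_apply] <;> nlinarith

/-- the vertex map is linear in the first argument -/
noncomputable def W (w : Vec) (t : T1) : Vec →ₗ[ℝ] ℝ where
  toFun v := Vm v w t
  map_add' a b := by simp only [Vm, Pi.add_apply]; ring
  map_smul' c a := by simp only [Vm, Pi.smul_apply, smul_eq_mul, RingHom.id_apply]; ring

theorem lin (v w : Vec) (t : T1) : Vm v w t = ∑ t', v t' * Vm (dl t') w t := by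
  have h : v = ∑ t', v t' • dl t' := pi_eq_sum_univ' v
  change W w t v = ∑ t', v t' * W w t (dl t')
  conv_lhs => rw [h]
  simp only [map_sum, map_smul, smul_eq_mul]

/-- the transposed map -/
noncomputable def tr (w h : Vec) : Vec := fun t' => dot h (Am 1 (Vm (dl t') w))

theorem dot_tr (v w h : Vec) : dot h (Am 1 (Vm v w)) = dot (tr w h) v := by
  simp only [dot, tr, app, sum_mul]
  rw [sum_comm]
  refine sum_congr rfl fun t _ => ?_
  rw [lin, mul_sum]
  exact sum_congr rfl fun _ _ => by ring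

theorem cone {w : Vec} (hw : 0 ≤ w) (t' s : T1) :
    Vm (dl t') w s ≤ 4 * Vm (dl (t'.1, !t'.2)) w s := by
  obtain ⟨c, o⟩ := t'
  obtain ⟨c', o'⟩ := s
  have a0 : 0 ≤ w (c', false) := hw _
  have a1 : 0 ≤ w (c', true) := hw _
  by_cases h : c' = c
  · subst h
    cases o <;> cases o' <;> simp [Vm, dl] <;> linarith
  · simp [Vm, dl, h]

theorem adm {p h w : Vec} (H : Adm p h) (hw : 0 ≤ w) : Adm (tr w p) (tr w h) := by
  refine ⟨fun t' => ?_, fun t' => ?_⟩
  · simp only [tr, dot]
    refine (abs_sum_le_sum_abs _ _).trans (sum_le_sum fun t _ => ?_)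
    have k : 0 ≤ Am 1 (Vm (dl t') w) t := by
      rw [app]
      exact nn (Pi.single_nonneg.2 zero_le_one) hw _
    rw [abs_mul, abs_of_nonneg k]
    exact mul_le_mul_of_nonneg_right (H.1 t) k
  · simp only [tr, dot, app, mul_sum]
    refine sum_le_sum fun t _ => ?_
    rw [mul_left_comm]
    exact mul_le_mul_of_nonneg_left (cone hw _ _) ((abs_nonneg _).trans (H.1 t))

theorem ph (p h v w : Vec) : Ph p h (Am 1 (Vm v w)) = Ph (tr w p) (tr w h) v := by
  simp only [Ph, dot_tr]

end CTL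

open CTL in
theorem st_TL : St_TL := by
  intro I I' J J' _ _ _ _ v v' u u' hv hu h1 h2 p h H
  simp only [T2, Fintype.sum_prod_type]
  calc ∑ i, ∑ j, Ph p h (Am 1 (Vm (v i) (u j)))
      = ∑ j, ∑ i, Ph (tr (u j) p) (tr (u j) h) (v i) := by
        rw [sum_comm]; simp only [ph]
    _ ≤ ∑ j, ∑ i, Ph (tr (u j) p) (tr (u j) h) (v' i) :=
        sum_le_sum fun j _ => h1 _ _ (adm H (hu j))
    _ = ∑ i, ∑ j, Ph (tr (v' i) p) (tr (v' i) h) (u j) := by
        rw [sum_comm]
        refine sum_congr rfl fun i _ => sum_congr rfl fun j _ => ?_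
        rw [← ph, ← ph, symm]
    _ ≤ ∑ i, ∑ j, Ph (tr (v' i) p) (tr (v' i) h) (u' j) :=
        sum_le_sum fun i _ => h2 _ _ (adm H (hv i))
    _ = _ := sum_congr rfl fun i _ => sum_congr rfl fun j _ => by rw [← ph, symm]

end Pool.Agent.Lib.PT5
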