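import Pool.Agent.Lib.PT5.LDefs

/-! The criterion at the extreme priors. -/

namespace Pool.Agent.Lib.PT5

open Finset Real RC5

namespace VX

/-- flip of the direction -/
def fl : T1 ≃ T1 where
  toFun x := (x.1, !x.2)
  invFun x := (x.1, !x.2)
  left_inv x := by simp
  right_inv x := by simp

lemma dot_eq (p v : Vec) : dot p v = ∑ x : T1, (4 * p x - p (x.1, !x.2)) / 15 * dd v x := by
  have h := fl.sum_comp fun x : T1 => (4 * p x - p (x.1, !x.2)) / 15 * v (x.1, !x.2)
  simp only [dd, mul_add, sum_add_distrib]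
  rw [← h, ← sum_add_distrib, dot]
  refine sum_congr rfl fun x _ => ?_
  simp only [fl, Equiv.coe_fn_mk, Bool.not_not, Prod.mk.eta]
  ring

lemma sum_eq {I : Type} [Fintype I] (p : Vec) (v : I → Vec) (y : I → ℝ) :
    ∑ i, y i ^ 2 * dot p (v i) =
      ∑ x : T1, (4 * p x - p (x.1, !x.2)) / 15 * ∑ i, y i ^ 2 * dd (v i) x := by
  simp only [dot_eq, mul_sum]
  rw [sum_comm]
  exact sum_congr rfl fun x _ => sum_congr rfl fun i _ => by ring

end VX

theorem st_VX (hPH : St_PH) : St_VX := by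
  intro I J _ _ v u hv hu h p q hp
  refine hPH.2.2.2 I J v u p q hp hv hu fun y => ?_
  obtain ⟨z, h1, h2⟩ := h y
  refine ⟨z, h1, ?_⟩
  rw [VX.sum_eq, VX.sum_eq]
  refine sum_le_sum fun x _ => mul_le_mul_of_nonneg_left (h2 x) ?_
  have := hp.2 (x.1, !x.2)
  simp only [Bool.not_not, Prod.mk.eta] at this
  linarith

end Pool.Agent.Lib.PT5
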