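import Pool.Agent.Lib.RC5.Defs

/-! Local observables on cubic graphs and on the cubic tree. -/

namespace Pool.Agent.Lib.PT5

open Finset Real RC5

/-- indicator -/
noncomputable def ind (p : Prop) : ℝ := @ite ℝ p (Classical.propDecidable p) 1 0

/-- a finite label set with weights -/
structure LS where
  L : Type
  fin : Fintype L
  pt : L
  w : L → ℝ
  nn : ∀ a, 0 ≤ w a
  one : ∑ a, w a = 1

instance (A : LS) : Fintype A.L := A.fin

/-- product of label sets -/
@[reducible] def LS.prod (A B : LS) : LS where
  L := A.L × B.L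
  fin := inferInstance
  pt := (A.pt, B.pt)
  w := fun p => A.w p.1 * B.w p.2
  nn := fun p => mul_nonneg (A.nn _) (B.nn _)
  one := by rw [Fintype.sum_prod_type, ← Fintype.sum_mul_sum, A.one, B.one, one_mul]

/-- a coin -/
@[reducible] def coin (p : ℝ) (h0 : 0 ≤ p) (h1 : p ≤ 1) : LS where
  L := Bool
  fin := inferInstance
  pt := false
  w := fun b => if b then p else 1 - p
  nn := fun b => by cases b <;> simp [h0, h1]
  one := by simp

section Mean
variable {ι α β : Type}

/-- `f` depends only on the coordinates in `B` -/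
def Dep (f : (ι → α) → β) (B : Finset ι) : Prop := ∀ x y, (∀ i ∈ B, x i = y i) → f x = f y

/-- `f` depends on finitely many coordinates -/
def Loc (f : (ι → α) → β) : Prop := ∃ B, Dep f B

/-- integrate out the coordinates in `B` -/
noncomputable def EB [DecidableEq ι] (A : LS) (B : Finset ι) (f : (ι → A.L) → ℝ)
    (x : ι → A.L) : ℝ :=
  ∑ y : B → A.L, (∏ i, A.w (y i)) * f (Function.updateFinset x B y)

/-- the mean of a local function of independent labels -/
noncomputable def mn [DecidableEq ι] (A : LS) (f : (ι → A.L) → ℝ) : ℝ :=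
  @dite ℝ (Loc f) (Classical.propDecidable _) (fun h => EB A h.choose f fun _ => A.pt) fun _ => 0

/-- the probability of a local event -/
noncomputable def pr [DecidableEq ι] (A : LS) (p : (ι → A.L) → Prop) : ℝ :=
  mn A fun x => ind (p x)

/-- entropy of a local observable -/
noncomputable def ent [DecidableEq ι] [Fintype β] (A : LS) (Y : (ι → A.L) → β) : ℝ :=
  ∑ y, negMulLog (pr A fun x => Y x = y)

end Mean

section Darts
variable {V : Type}

/-- rotate a dart at its vertex -/
def rho (i : Fin 3) (d : V × Fin 3) : V × Fin 3 := (d.1, d.2 + i)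

/-- the port of a child -/
def po (b : Bool) : Fin 3 := if b then 2 else 1

/-- the children of a dart -/
def ch (m : V × Fin 3 → V × Fin 3) (d : V × Fin 3) (b : Bool) : V × Fin 3 := rho (po b) (m d)

/-- descendants, the word is read from the top -/
def des (m : V × Fin 3 → V × Fin 3) : V × Fin 3 → List Bool → V × Fin 3
  | d, [] => d
  | d, b :: l => des m (ch m d b) l

/-- vertices of the tree: a side and a path, last step first -/
abbrev TV : Type := Bool × List Bool

/-- darts of the tree -/
abbrev TD : Type := TV × Fin 3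

/-- the edges of the tree -/
def tm (t : TD) : TD :=
  if t.2 = 0 then
    match t.1.2 with
    | [] => ((!t.1.1, []), 0)
    | c :: l => ((t.1.1, l), po c)
  else ((t.1.1, decide (t.2 = 2) :: t.1.2), 0)

/-- the root dart -/
def d0 : TD := ((false, []), 0)

/-- image of the port zero of a vertex of the tree -/
def cv (m : V × Fin 3 → V × Fin 3) (d : V × Fin 3) (b : Bool) : List Bool → V × Fin 3
  | [] => if b then m d else d
  | c :: l => m (rho (po c) (cv m d b l))

/-- the covering map with `d0 ↦ d` -/
def cov (m : V × Fin 3 → V × Fin 3) (d : V × Fin 3) (t : TD) : V × Fin 3 :=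
  rho t.2 (cv m d t.1.1 t.1.2)

/-- words of a given length -/
def words : ℕ → Finset (List Bool)
  | 0 => {[]}
  | k + 1 => (words k).image (List.cons false) ∪ (words k).image (List.cons true)

/-- darts at depth at most `r` -/
def Ball (r : ℕ) : Finset TD := (univ ×ˢ (range (r + 1)).biUnion words) ×ˢ univ

/-- the graph looks like the tree up to depth `r` -/
def Inj (m : V × Fin 3 → V × Fin 3) (r : ℕ) : Prop := ∀ d, Set.InjOn (cov m d) (Ball r)

/-- an observable of the tree seen from the dart `d` -/
def at_ {α β : Type} (m : V × Fin 3 → V × Fin 3) (f : (TD → α) → β) (d : V × Fin 3)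
    (x : V × Fin 3 → α) : β := f (x ∘ cov m d)

/-- rotation of a star -/
def rot (i : Fin 3) (x : Star) : Star := (x.1, fun j => x.2 (i + j))

/-- the star seen from a dart -/
def see (c : V → Star) (d : V × Fin 3) : Star := rot d.2 (c d.1)

/-- the state of the dart `i` of a star -/
def ds (x : Star) (i : Fin 3) : T1 := (x.1, x.2 i)

/-- the state of a dart -/
def st (c : V → Star) (d : V × Fin 3) : T1 := ds (c d.1) d.2

/-- pull a configuration back to the tree -/
def pull (m : V × Fin 3 → V × Fin 3) (d : V × Fin 3) (c : V → Star) : TV → Star :=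
  fun v => see c (cov m d (v, 0))

end Darts

/-- the dihedral group of order ten, as a set -/
abbrev D5 : Type := ZMod 5 × Bool

def gc (g : D5) (c : ZMod 5) : ZMod 5 := (if g.2 then -c else c) + g.1

def g1 (g : D5) (a : T1) : T1 := (gc g a.1, xor a.2 g.2)

def gs (g : D5) (x : Star) : Star := (gc g x.1, fun i => xor (x.2 i) g.2)

/-- a bijection of the labels that keeps the weights -/
def Keep (A : LS) (e : A.L ≃ A.L) : Prop := ∀ a, A.w (e a) = A.w a

/-- a symmetric local process -/
structure Proc where
  A : LS
  X : (TD → A.L) → Star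
  loc : Loc X
  cmp : ∀ i x, at_ tm X (rho i d0) x = rot i (X x)
  sym : ∀ g : D5, ∃ e, Keep A e ∧ ∀ x, X (e ∘ x) = gs g (X x)

/-- the configuration of a process on a graph -/
def cfg {V : Type} (P : Proc) (m : V × Fin 3 → V × Fin 3) (x : V × Fin 3 → P.A.L) : V → Star :=
  fun v => at_ m P.X (v, 0) x

/-- mean of an observable of the configuration on the tree -/
noncomputable def nu (P : Proc) (f : (TV → Star) → ℝ) : ℝ := mn P.A fun x => f (cfg P tm x)

/-- weight of a star -/
noncomputable def tau (x : Star) : ℝ := if cst x.2 then 1 / 130 else 4 / 130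

/-- weight of an edge -/
noncomputable def psi (s : ℝ) (a b : T1) : ℝ := 1 - s + if b = io1 a then 10 * s else 0

/-- logarithm of the weight of a configuration -/
noncomputable def logW {n : ℕ} (s : ℝ) (m : HE n → HE n) (c : Fin n → Star) : ℝ :=
  ∑ v, log (tau (c v)) + 1 / 2 * ∑ d : HE n, log (psi s (st c d) (st c (m d)))

/-- free energy of a law -/
noncomputable def fre {n : ℕ} (s : ℝ) (m : HE n → HE n) (p : (Fin n → Star) → ℝ) : ℝ :=
  ∑ c, (p c * log (p c) - p c * logW s m c)

/-- the law of the configuration -/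
noncomputable def law {n : ℕ} (P : Proc) (m : HE n → HE n) (c : Fin n → Star) : ℝ :=
  pr P.A fun x => cfg P m x = c

/-- the free energy per vertex is at most `η` on all graphs of large girth -/
def Exc (P : Proc) (s η : ℝ) : Prop :=
  ∃ r, ∀ (n : ℕ) (m : HE n → HE n), IsM m → Inj m r → fre s m (law P m) ≤ η * n

/-- patterns on half trees -/
def Pt : ℕ → Type
  | 0 => Unit
  | k + 1 => Star × Pt k × Pt k

instance instPt : ∀ k, Fintype (Pt k)
  | 0 => inferInstanceAs (Fintype Unit)
  | k + 1 => @instFintypeProd _ _ _ (@instFintypeProd _ _ (instPt k) (instPt k))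

/-- the pattern behind a dart -/
def pat {V : Type} (m : V × Fin 3 → V × Fin 3) (c : V → Star) : ∀ k, V × Fin 3 → Pt k
  | 0, _ => ()
  | k + 1, d => (see c (m d), pat m c k (ch m d false), pat m c k (ch m d true))

/-- the pattern around the edge of a dart -/
def patE {V : Type} (m : V × Fin 3 → V × Fin 3) (c : V → Star) (k : ℕ) (d : V × Fin 3) :
    Pt (k + 1) × Pt (k + 1) := (pat m c (k + 1) (m d), pat m c (k + 1) d)

/-- state of the top dart -/
def top {k : ℕ} (p : Pt (k + 1)) : T1 := ds p.1 0

/-- weight of the edge above a pattern -/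
noncomputable def lk (s : ℝ) (a : T1) : ∀ k, Pt k → ℝ
  | 0, _ => 1
  | _ + 1, p => psi s a (top p)

/-- weight of a pattern -/
noncomputable def wt (s : ℝ) : ∀ k, Pt k → ℝ
  | 0, _ => 1
  | k + 1, p => tau p.1 * (lk s (ds p.1 1) k p.2.1 * wt s k p.2.1)
      * (lk s (ds p.1 2) k p.2.2 * wt s k p.2.2)

/-- the tree measure on edge balls -/
noncomputable def muE (s : ℝ) (k : ℕ) (p : Pt (k + 1) × Pt (k + 1)) : ℝ :=
  psi s (top p.1) (top p.2) * (wt s (k + 1) p.1 * wt s (k + 1) p.2)

/-- the law of the process on edge balls -/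
noncomputable def nuE (P : Proc) (k : ℕ) (p : Pt (k + 1) × Pt (k + 1)) : ℝ :=
  nu P fun c => ind (patE tm c k d0 = p)

/-- vectors on dart states -/
abbrev Vec : Type := T1 → ℝ

noncomputable def avg (a : Vec) : ℝ := (∑ t, a t) / 10

/-- squared length -/
noncomputable def sq2 (a : Vec) : ℝ := ∑ t, a t ^ 2

/-- the vertex map -/
noncomputable def Vm (a b : Vec) : Vec := fun t =>
  4 / 13 * ((a (t.1, false) + a (t.1, true)) * (b (t.1, false) + b (t.1, true)) - 3 / 4 * (a t * b t))

/-- the edge map -/
noncomputable def Am (s : ℝ) (h : Vec) : Vec := fun t => (1 - s) * avg h + s * h (io1 t)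

/-- one step of normalised messages -/
noncomputable def Fm (s : ℝ) (a b : Vec) : Vec := fun t => Am s (Vm a b) t / avg (Vm a b)

/-- the message of a pattern -/
noncomputable def am (s : ℝ) : ∀ k, Pt (k + 1) → Vec
  | 0, p => fun t => psi s t (top p)
  | k + 1, p => Fm s (am s k p.2.1) (am s k p.2.2)

/-- mean square of the message in the tree measure -/
noncomputable def qk (s : ℝ) (k : ℕ) : ℝ := ∑ p, wt s (k + 1) p * sq2 (am s k p - 1)

end Pool.Agent.Lib.PT5
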