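import Pool.Agent.Lib.PT5.Defs

/-! Calculus of means of local functions. -/

namespace Pool.Agent.Lib.PT5

open Finset Real Function

theorem ind_pos {p : Prop} (h : p) : ind p = 1 := if_pos h

theorem ind_neg {p : Prop} (h : ¬ p) : ind p = 0 := if_neg h

theorem ind_nonneg (p : Prop) : 0 ≤ ind p := by unfold ind; split_ifs <;> norm_num

theorem ind_le (p : Prop) : ind p ≤ 1 := by unfold ind; split_ifs <;> norm_num

theorem ind_mono {p q : Prop} (h : p → q) : ind p ≤ ind q := by
  by_cases hp : p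
  · rw [ind_pos hp, ind_pos (h hp)]
  · rw [ind_neg hp]; exact ind_nonneg q

theorem ind_congr {p q : Prop} (h : p ↔ q) : ind p = ind q := by rw [propext h]

theorem ind_and (p q : Prop) : ind (p ∧ q) = ind p * ind q := by
  by_cases hp : p <;> by_cases hq : q <;> simp [ind, hp, hq]

theorem ind_or (p q : Prop) : ind (p ∨ q) ≤ ind p + ind q := by
  by_cases hp : p <;> by_cases hq : q <;> simp [ind, hp, hq]

theorem ind_not (p : Prop) : ind (¬ p) = 1 - ind p := by by_cases hp : p <;> simp [ind, hp]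

theorem ind_eq_ite (p : Prop) [Decidable p] : ind p = if p then 1 else 0 := by
  by_cases hp : p <;> simp [ind, hp]

theorem sum_ind_mul {β : Type} [Fintype β] (b : β) (h : β → ℝ) :
    ∑ y, ind (b = y) * h y = h b := by
  classical
  simp [ind_eq_ite]

section Dep
variable {ι κ α β γ : Type}

theorem Dep.mono {f : (ι → α) → β} {B B' : Finset ι} (h : Dep f B) (k : B ⊆ B') : Dep f B' :=
  fun x y a => h x y fun i hi => a i (k hi)

theorem Dep.map {f : (ι → α) → β} {B : Finset ι} (h : Dep f B) (g : β → γ) :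
    Dep (fun x => g (f x)) B := fun x y a => congrArg g (h x y a)

theorem Dep.loc {f : (ι → α) → β} {B : Finset ι} (h : Dep f B) : Loc f := ⟨B, h⟩

theorem Dep.comp [DecidableEq ι] {f : (κ → α) → β} {B : Finset κ} (h : Dep f B) (φ : κ → ι) :
    Dep (fun x : ι → α => f (x ∘ φ)) (B.image φ) :=
  fun _ _ a => h _ _ fun _ hi => a _ (mem_image_of_mem φ hi)

theorem Dep.label {f : (ι → α) → β} {B : Finset ι} (h : Dep f B) (g : γ → α) :
    Dep (fun x : ι → γ => f (g ∘ x)) B := fun _ _ a => h _ _ fun i hi => congrArg g (a i hi)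

theorem Loc.const (b : β) : Loc fun _ : ι → α => b := ⟨∅, fun _ _ _ => rfl⟩

theorem Loc.eval (i : ι) : Loc fun x : ι → α => x i :=
  ⟨{i}, fun _ _ a => a i (mem_singleton_self i)⟩

theorem Loc.map {f : (ι → α) → β} (h : Loc f) (g : β → γ) : Loc fun x => g (f x) :=
  h.imp fun _ a => a.map g

theorem Loc.map₂ {δ : Type} {f : (ι → α) → β} {g : (ι → α) → γ} (h : Loc f) (k : Loc g)
    (F : β → γ → δ) : Loc fun x => F (f x) (g x) := by
  classical
  obtain ⟨B, h⟩ := h
  obtain ⟨B', k⟩ := k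
  exact ⟨B ∪ B', fun x y a =>
    congrArg₂ F (h.mono subset_union_left x y a) (k.mono subset_union_right x y a)⟩

theorem Loc.comp {f : (κ → α) → β} (h : Loc f) (φ : κ → ι) :
    Loc fun x : ι → α => f (x ∘ φ) := by
  classical
  obtain ⟨B, h⟩ := h
  exact ⟨_, h.comp φ⟩

theorem Loc.label {f : (ι → α) → β} (h : Loc f) (g : γ → α) :
    Loc fun x : ι → γ => f (g ∘ x) := h.imp fun _ a => a.label g

theorem Loc.of_fintype [Fintype ι] (f : (ι → α) → β) : Loc f :=
  ⟨univ, fun _ _ a => congrArg f (funext fun i => a i (mem_univ i))⟩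

/-- A common support for finitely many local functions. -/
theorem Loc.common {f : κ → (ι → α) → β} (S : Finset κ) (h : ∀ k ∈ S, Loc (f k)) :
    ∃ B, ∀ k ∈ S, Dep (f k) B := by
  classical
  choose! B hB using h
  exact ⟨S.biUnion B, fun k hk => (hB k hk).mono (subset_biUnion_of_mem B hk)⟩

theorem Loc.pi [Fintype κ] {f : κ → (ι → α) → β} (h : ∀ k, Loc (f k)) :
    Loc fun x k => f k x := by
  obtain ⟨B, hB⟩ := Loc.common univ fun k _ => h k
  exact ⟨B, fun x y a => funext fun k => hB k (mem_univ k) x y a⟩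

/-- A local function of a field whose coordinates are local. -/
theorem Loc.field {F : (κ → β) → γ} (hF : Loc F) {f : κ → (ι → α) → β} (h : ∀ k, Loc (f k)) :
    Loc fun x => F fun k => f k x := by
  obtain ⟨S, hS⟩ := hF
  obtain ⟨B, hB⟩ := Loc.common S fun k _ => h k
  exact ⟨B, fun x y a => hS _ _ fun k hk => hB k hk x y a⟩

theorem Loc.sum {f : κ → (ι → α) → ℝ} (S : Finset κ) (h : ∀ k ∈ S, Loc (f k)) :
    Loc fun x => ∑ k ∈ S, f k x := by
  obtain ⟨B, hB⟩ := Loc.common S h
  exact ⟨B, fun x y a => sum_congr rfl fun k hk => hB k hk x y a⟩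

theorem Loc.ex {p : κ → (ι → α) → Prop} (S : Finset κ) (h : ∀ k ∈ S, Loc (p k)) :
    Loc fun x => ∃ k ∈ S, p k x := by
  obtain ⟨B, hB⟩ := Loc.common S h
  exact ⟨B, fun x y a => propext (exists_congr fun k => and_congr_right fun hk => by
    rw [hB k hk x y a])⟩

theorem Loc.all {p : κ → (ι → α) → Prop} (S : Finset κ) (h : ∀ k ∈ S, Loc (p k)) :
    Loc fun x => ∀ k ∈ S, p k x := by
  obtain ⟨B, hB⟩ := Loc.common S h
  exact ⟨B, fun x y a => propext (forall₂_congr fun k hk => by rw [hB k hk x y a])⟩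

/-- A local function that depends only on a set has a finite support inside the set. -/
theorem Loc.inside {f : (ι → α) → β} (h : Loc f) {S : Set ι}
    (k : ∀ x y, (∀ i ∈ S, x i = y i) → f x = f y) : ∃ B : Finset ι, ↑B ⊆ S ∧ Dep f B := by
  classical
  obtain ⟨B, h⟩ := h
  refine ⟨B.filter (· ∈ S), fun i hi => (mem_filter.1 hi).2, fun x y a => ?_⟩
  rw [h x (B.piecewise x y) fun i hi => (B.piecewise_eq_of_mem _ _ hi).symm]
  refine k _ _ fun i hi => ?_
  by_cases hb : i ∈ B
  · rw [B.piecewise_eq_of_mem _ _ hb, a i (mem_filter.2 ⟨hb, hi⟩)]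
  · rw [B.piecewise_eq_of_notMem _ _ hb]

/-- A local real function is bounded. -/
theorem Loc.bdd [Finite α] {f : (ι → α) → ℝ} (h : Loc f) : ∃ C, 0 ≤ C ∧ ∀ x, |f x| ≤ C := by
  classical
  obtain ⟨B, h⟩ := h
  rcases isEmpty_or_nonempty (ι → α) with e | ⟨⟨x0⟩⟩
  · exact ⟨0, le_rfl, fun x => e.elim x⟩
  obtain ⟨C, hC⟩ := (Set.finite_range fun y : B → α => |f (updateFinset x0 B y)|).bddAbove
  refine ⟨max C 0, le_max_right _ _, fun x => le_max_of_le_left ?_⟩
  rw [h x (updateFinset x0 B (B.restrict x)) fun i hi => by simp [updateFinset, hi]]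
  exact hC ⟨_, rfl⟩

end Dep

section Mean
variable {ι κ : Type} [DecidableEq ι] {A : LS}

theorem wprod (A : LS) (B : Finset ι) (x : ι → A.L) (y : B → A.L) :
    ∏ i, A.w (y i) = ∏ i ∈ B, A.w (updateFinset x B y i) := by
  rw [← prod_coe_sort B]
  exact prod_congr rfl fun i _ => by simp [updateFinset]

theorem wsum (A : LS) (κ : Type) [Fintype κ] [DecidableEq κ] :
    ∑ y : κ → A.L, ∏ i, A.w (y i) = 1 := by
  rw [← Fintype.piFinset_univ, ← prod_univ_sum]
  simp [A.one]

theorem wnn (A : LS) {κ : Type} [Fintype κ] (y : κ → A.L) : 0 ≤ ∏ i, A.w (y i) :=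
  prod_nonneg fun _ _ => A.nn _

theorem EB_const (B : Finset ι) (c : ℝ) (x : ι → A.L) : EB A B (fun _ => c) x = c := by
  rw [EB, ← sum_mul, wsum, one_mul]

theorem EB_union {B B' : Finset ι} (h : Disjoint B B') (f : (ι → A.L) → ℝ) (x : ι → A.L) :
    EB A (B ∪ B') f x = EB A B (EB A B' f) x := by
  simp only [EB, mul_sum]
  rw [← Fintype.sum_prod_type', ← (Equiv.piFinsetUnion (fun _ => A.L) h).sum_comp]
  refine sum_congr rfl fun p _ => ?_
  rw [wprod A (B ∪ B') x, ← updateFinset_updateFinset, prod_union h, ← wprod A B', ← mul_assoc,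
    wprod A B x]
  congr 2
  exact prod_congr rfl fun i hi => by simp [updateFinset, disjoint_left.1 h hi]

theorem EB_single (a : ι) (f : (ι → A.L) → ℝ) (x : ι → A.L) :
    EB A {a} f x = ∑ l, A.w l * f (update x a l) := by
  rw [EB, ← (Equiv.funUnique ({a} : Finset ι) A.L).symm.sum_comp]
  simp [updateFinset_singleton]

theorem EB_insert {a : ι} {B : Finset ι} (h : a ∉ B) (f : (ι → A.L) → ℝ) (x : ι → A.L) :
    EB A (insert a B) f x = ∑ l, A.w l * EB A B f (update x a l) := by
  rw [insert_eq, EB_union (disjoint_singleton_left.2 h), EB_single]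

theorem EB_empty (f : (ι → A.L) → ℝ) (x : ι → A.L) : EB A ∅ f x = f x := by simp [EB]

theorem Dep.EB {f : (ι → A.L) → ℝ} {U : Finset ι} (h : Dep f U) (B : Finset ι) :
    Dep (EB A B f) (U \ B) := fun x y a => sum_congr rfl fun z _ => by
  rw [h (updateFinset x B z) (updateFinset y B z) fun i hi => ?_]
  by_cases hb : i ∈ B
  · simp [updateFinset, hb]
  · simp [updateFinset, hb, a i (mem_sdiff.2 ⟨hi, hb⟩)]

theorem Loc.EB {f : (ι → A.L) → ℝ} (h : Loc f) (B : Finset ι) : Loc (EB A B f) :=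
  h.elim fun _ a => ⟨_, a.EB B⟩

theorem EB_base {f : (ι → A.L) → ℝ} {B : Finset ι} (h : Dep f B) (x y : ι → A.L) :
    EB A B f x = EB A B f y := h.EB B x y (by simp)

theorem EB_disj {f : (ι → A.L) → ℝ} {U B : Finset ι} (h : Dep f U) (k : Disjoint U B)
    (x : ι → A.L) : EB A B f x = f x := by
  rw [← EB_const (A := A) B (f x) x]
  exact sum_congr rfl fun z _ => by
    rw [h (updateFinset x B z) x fun i hi => by simp [updateFinset, disjoint_left.1 k hi]]

theorem EB_sup {f : (ι → A.L) → ℝ} {B B' : Finset ι} (h : Dep f B) (k : B ⊆ B') (x : ι → A.L) :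
    EB A B' f x = EB A B f x := by
  rw [← sdiff_union_of_subset k, EB_union sdiff_disjoint]
  exact EB_disj (h.EB B) (by simp) x

theorem mn_eq {f : (ι → A.L) → ℝ} {B : Finset ι} (h : Dep f B) (x : ι → A.L) :
    mn A f = EB A B f x := by
  rw [mn, dif_pos h.loc, ← EB_sup h.loc.choose_spec (subset_union_right (s₁ := B)),
    EB_sup h subset_union_left, EB_base h]

theorem mn_const (c : ℝ) : mn A (fun _ : ι → A.L => c) = c := by
  rw [mn_eq (B := ∅) (fun _ _ _ => rfl) fun _ => A.pt, EB_empty]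

theorem mn_mono {f g : (ι → A.L) → ℝ} (hf : Loc f) (hg : Loc g) (h : ∀ x, f x ≤ g x) :
    mn A f ≤ mn A g := by
  obtain ⟨B, hf⟩ := hf
  obtain ⟨B', hg⟩ := hg
  rw [mn_eq (hf.mono (subset_union_left (s₂ := B'))) fun _ => A.pt,
    mn_eq (hg.mono subset_union_right) fun _ => A.pt]
  exact sum_le_sum fun y _ => mul_le_mul_of_nonneg_left (h _) (wnn A y)

theorem mn_nonneg {f : (ι → A.L) → ℝ} (h : ∀ x, 0 ≤ f x) : 0 ≤ mn A f := by
  unfold mn
  split_ifs
  exacts [sum_nonneg fun y _ => mul_nonneg (wnn A y) (h _), le_rfl]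

theorem mn_le {f : (ι → A.L) → ℝ} (hf : Loc f) {c : ℝ} (h : ∀ x, f x ≤ c) : mn A f ≤ c :=
  (mn_mono hf (Loc.const c) h).trans_eq (mn_const c)

theorem le_mn {f : (ι → A.L) → ℝ} (hf : Loc f) {c : ℝ} (h : ∀ x, c ≤ f x) : c ≤ mn A f :=
  (mn_const c).ge.trans (mn_mono (Loc.const c) hf h)

theorem mn_add {f g : (ι → A.L) → ℝ} (hf : Loc f) (hg : Loc g) :
    mn A (fun x => f x + g x) = mn A f + mn A g := by
  obtain ⟨B, hf⟩ := hf
  obtain ⟨B', hg⟩ := hg
  have a := hf.mono (subset_union_left (s₂ := B'))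
  have b := hg.mono (subset_union_right (s₁ := B))
  rw [mn_eq a fun _ => A.pt, mn_eq b fun _ => A.pt,
    mn_eq (B := B ∪ B') (fun x y h => by rw [a x y h, b x y h]) fun _ => A.pt]
  simp only [EB, mul_add, sum_add_distrib]

theorem mn_mul {f : (ι → A.L) → ℝ} (hf : Loc f) (c : ℝ) :
    mn A (fun x => c * f x) = c * mn A f := by
  obtain ⟨B, hf⟩ := hf
  rw [mn_eq hf fun _ => A.pt, mn_eq (hf.map fun t => c * t) fun _ => A.pt]
  simp only [EB, mul_sum, mul_left_comm]

theorem mn_mul' {f : (ι → A.L) → ℝ} (hf : Loc f) (c : ℝ) :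
    mn A (fun x => f x * c) = mn A f * c := by
  simp only [mul_comm _ c, mn_mul hf]

theorem mn_neg {f : (ι → A.L) → ℝ} (hf : Loc f) : mn A (fun x => -f x) = -mn A f := by
  simpa using mn_mul hf (-1)

theorem mn_sub {f g : (ι → A.L) → ℝ} (hf : Loc f) (hg : Loc g) :
    mn A (fun x => f x - g x) = mn A f - mn A g := by
  simp only [sub_eq_add_neg]
  rw [mn_add hf (hg.map Neg.neg), mn_neg hg]

theorem mn_sum {f : κ → (ι → A.L) → ℝ} (S : Finset κ) (h : ∀ k ∈ S, Loc (f k)) :
    mn A (fun x => ∑ k ∈ S, f k x) = ∑ k ∈ S, mn A (f k) := by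
  obtain ⟨B, hB⟩ := Loc.common S h
  rw [mn_eq (B := B) (fun x y a => sum_congr rfl fun k hk => hB k hk x y a) fun _ => A.pt,
    sum_congr rfl fun k hk => mn_eq (hB k hk) fun _ => A.pt]
  simp only [EB, mul_sum]
  exact sum_comm

theorem abs_mn_le {f : (ι → A.L) → ℝ} (hf : Loc f) : |mn A f| ≤ mn A fun x => |f x| := by
  refine abs_le.2 ⟨?_, mn_mono hf (hf.map abs) fun x => le_abs_self _⟩
  rw [← mn_neg (hf.map abs)]
  exact mn_mono ((hf.map abs).map Neg.neg) hf fun x => neg_abs_le _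

theorem mn_EB {f : (ι → A.L) → ℝ} (hf : Loc f) (Z : Finset ι) : mn A (EB A Z f) = mn A f := by
  obtain ⟨B, hf⟩ := hf
  rw [mn_eq (hf.EB Z) fun _ => A.pt, ← EB_union sdiff_disjoint,
    mn_eq (hf.mono (B' := B \ Z ∪ Z) (by simp)) fun _ => A.pt]

/-- Conditioning by substitution. -/
theorem mn_subst {f : (ι → A.L) → ℝ} (hf : Loc f) (Z : Finset ι) :
    mn A f = ∑ y : Z → A.L, (∏ i, A.w (y i)) * mn A fun x => f (updateFinset x Z y) := by
  have l : ∀ y : Z → A.L, Loc fun x => f (updateFinset x Z y) := fun y => hf.imp fun B h x x' a =>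
    h _ _ fun i hi => by by_cases hb : i ∈ Z <;> simp [updateFinset, hb, a i hi]
  rw [← mn_EB hf Z, show EB A Z f = fun x => ∑ y : Z → A.L, (∏ i, A.w (y i)) *
    f (updateFinset x Z y) from rfl, mn_sum _ fun y _ => (l y).map _]
  exact sum_congr rfl fun y _ => mn_mul (l y) _

/-- One coordinate is resampled. -/
theorem mn_update {f : (ι → A.L) → ℝ} (hf : Loc f) (a : ι) :
    mn A f = mn A fun x => ∑ l, A.w l * f (update x a l) := by
  rw [← mn_EB hf {a}, funext (EB_single a f)]

/-- Independence. -/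
theorem mn_indep {f g : (ι → A.L) → ℝ} {B B' : Finset ι} (hf : Dep f B) (hg : Dep g B')
    (h : Disjoint B B') : mn A (fun x => f x * g x) = mn A f * mn A g := by
  rw [← mn_EB (hf.loc.map₂ hg.loc (· * ·)) B', ← mn_mul' hf.loc]
  refine congrArg _ (funext fun x => ?_)
  rw [mn_eq hg x, EB, EB, mul_sum]
  exact sum_congr rfl fun z _ => by
    rw [hf (updateFinset x B' z) x fun i hi => by simp [updateFinset, disjoint_left.1 h hi]]
    ring

theorem mn_fintype [Fintype ι] (f : (ι → A.L) → ℝ) :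
    mn A f = ∑ x, (∏ i, A.w (x i)) * f x := by
  rw [mn_eq (B := univ) (fun _ _ a => congrArg f (funext fun i => a i (mem_univ i))) fun _ => A.pt,
    EB]
  refine Fintype.sum_equiv (Equiv.arrowCongr (Equiv.subtypeUnivEquiv mem_univ) (Equiv.refl A.L))
    _ _ fun y => ?_
  rw [wprod A univ fun _ => A.pt, updateFinset_univ]
  rfl

/-- Transport along a map that is injective on the support. -/
theorem mn_comp [DecidableEq κ] {f : (κ → A.L) → ℝ} {U : Finset κ} (h : Dep f U) {φ : κ → ι}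
    (hφ : Set.InjOn φ U) : mn A (fun x : ι → A.L => f (x ∘ φ)) = mn A f := by
  have k : ∀ B ⊆ U, ∀ x : ι → A.L,
      EB A (B.image φ) (fun x => f (x ∘ φ)) x = EB A B f (x ∘ φ) := by
    intro B
    induction B using Finset.induction_on with
    | empty => exact fun _ x => by simp [EB_empty]
    | insert a B ha ih =>
      intro hB x
      have hB' := (subset_insert a B).trans hB
      have aU := hB (mem_insert_self a B)
      have na : φ a ∉ B.image φ := fun hh => by
        obtain ⟨b, hb, e⟩ := mem_image.1 hh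
        exact ha (hφ (hB' hb) aU e ▸ hb)
      rw [image_insert, EB_insert na, EB_insert ha]
      refine sum_congr rfl fun l _ => ?_
      rw [ih hB', (h.EB B).mono sdiff_subset _ (update (x ∘ φ) a l) fun i hi => ?_]
      by_cases e : i = a
      · simp [e]
      · have : φ i ≠ φ a := fun e' => e (hφ hi aU e')
        simp [e, this]
  rw [mn_eq (h.comp φ) fun _ => A.pt, k U Subset.rfl, ← mn_eq h]

/-- Change of labels along a map that pushes the weights forward. -/
theorem mn_push {A' : LS} {g : A.L → A'.L}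
    (hg : ∀ h : A'.L → ℝ, ∑ a, A.w a * h (g a) = ∑ b, A'.w b * h b) {f : (ι → A'.L) → ℝ}
    (hf : Loc f) : mn A (fun x => f (g ∘ x)) = mn A' f := by
  have k : ∀ (B : Finset ι) (x : ι → A.L), EB A B (fun x => f (g ∘ x)) x = EB A' B f (g ∘ x) := by
    intro B
    induction B using Finset.induction_on with
    | empty => exact fun x => by simp [EB_empty]
    | insert a B ha ih =>
      intro x
      rw [EB_insert ha, EB_insert ha, ← hg]
      exact sum_congr rfl fun l _ => by rw [ih, comp_update]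
  obtain ⟨B, h⟩ := hf
  rw [mn_eq (h.label g) fun _ => A.pt, k, ← mn_eq h]

theorem mn_keep {e : A.L ≃ A.L} (he : Keep A e) {f : (ι → A.L) → ℝ} (hf : Loc f) :
    mn A (fun x => f (e ∘ x)) = mn A f :=
  mn_push (fun h => by rw [← e.sum_comp fun b => A.w b * h b]; simp only [he _]) hf

/-- Fubini for product labels. -/
theorem mn_prod {A' : LS} {f : (ι → (A.prod A').L) → ℝ} (hf : Loc f) :
    mn (A.prod A') f = mn A fun x => mn A' fun y => f fun i => (x i, y i) := by
  obtain ⟨B, h⟩ := hf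
  have h2 : ∀ x : ι → A.L, Dep (fun y : ι → A'.L => f fun i => (x i, y i)) B :=
    fun x y y' a => h _ _ fun i hi => by rw [a i hi]
  have h1 : Dep (fun x : ι → A.L => mn A' fun y => f fun i => (x i, y i)) B :=
    fun x x' a => congrArg _ (funext fun y => h _ _ fun i hi => by rw [a i hi])
  rw [mn_eq h fun _ => (A.pt, A'.pt), mn_eq h1 fun _ => A.pt]
  simp only [EB, mn_eq (h2 _) fun _ => A'.pt, mul_sum]
  rw [← Fintype.sum_prod_type']
  refine Fintype.sum_equiv (Equiv.arrowProdEquivProdArrow B (fun _ => A.L) fun _ => A'.L) _ _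
    fun p => ?_
  rw [← mul_assoc, ← prod_mul_distrib]
  refine congrArg₂ _ rfl (h _ _ fun i hi => ?_)
  simp [updateFinset, hi]

theorem mn_fst {A' : LS} {f : (ι → A.L) → ℝ} (hf : Loc f) :
    mn (A.prod A') (fun x => f (Prod.fst ∘ x)) = mn A f := by
  rw [mn_prod (hf.label _)]
  exact congrArg _ (funext fun x => mn_const (f x))

theorem mn_snd {A' : LS} {f : (ι → A'.L) → ℝ} (hf : Loc f) :
    mn (A.prod A') (fun x => f (Prod.snd ∘ x)) = mn A' f := by
  rw [mn_prod (hf.label _)]
  exact mn_const (mn A' f)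

/-- Jensen for squares. -/
theorem mn_sq {f : (ι → A.L) → ℝ} (hf : Loc f) : mn A f ^ 2 ≤ mn A fun x => f x ^ 2 := by
  have h := mn_mono (A := A) ((hf.map fun t => 2 * mn A f * t).map₂ (Loc.const (mn A f ^ 2)) (· - ·))
    (hf.map (· ^ 2)) fun x => by nlinarith [sq_nonneg (f x - mn A f)]
  rw [mn_sub (hf.map _) (Loc.const _), mn_mul hf, mn_const] at h
  linarith

theorem pr_nonneg (p : (ι → A.L) → Prop) : 0 ≤ pr A p := mn_nonneg fun _ => ind_nonneg _

theorem pr_le_one {p : (ι → A.L) → Prop} (h : Loc p) : pr A p ≤ 1 :=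
  mn_le (h.map ind) fun _ => ind_le _

theorem pr_mono {p q : (ι → A.L) → Prop} (hp : Loc p) (hq : Loc q) (h : ∀ x, p x → q x) :
    pr A p ≤ pr A q := mn_mono (hp.map ind) (hq.map ind) fun x => ind_mono (h x)

theorem pr_or {p q : (ι → A.L) → Prop} (hp : Loc p) (hq : Loc q) :
    pr A (fun x => p x ∨ q x) ≤ pr A p + pr A q :=
  (mn_mono ((hp.map₂ hq Or).map ind) ((hp.map ind).map₂ (hq.map ind) (· + ·)) fun _ =>
    ind_or _ _).trans_eq (mn_add (hp.map ind) (hq.map ind))

theorem pr_not {p : (ι → A.L) → Prop} (hp : Loc p) : pr A (fun x => ¬ p x) = 1 - pr A p := by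
  simp only [pr, ind_not]
  rw [mn_sub (Loc.const _) (hp.map ind), mn_const]

theorem pr_ex {p : κ → (ι → A.L) → Prop} (S : Finset κ) (h : ∀ k ∈ S, Loc (p k)) :
    pr A (fun x => ∃ k ∈ S, p k x) ≤ ∑ k ∈ S, pr A (p k) := by
  refine (mn_mono ((Loc.ex S h).map ind) (Loc.sum S fun k hk => (h k hk).map ind) fun x => ?_).trans_eq
    (mn_sum S fun k hk => (h k hk).map ind)
  by_cases e : ∃ k ∈ S, p k x
  · obtain ⟨k, hk, e'⟩ := e
    exact (ind_le _).trans ((ind_pos e').ge.trans
      (single_le_sum (f := fun k => ind (p k x)) (fun _ _ => ind_nonneg _) hk))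
  · rw [ind_neg e]
    exact sum_nonneg fun _ _ => ind_nonneg _

theorem pr_indep {p q : (ι → A.L) → Prop} {B B' : Finset ι} (hp : Dep p B) (hq : Dep q B')
    (h : Disjoint B B') : pr A (fun x => p x ∧ q x) = pr A p * pr A q := by
  simp only [pr, ind_and]
  exact mn_indep (hp.map ind) (hq.map ind) h

/-- Markov's inequality. -/
theorem markov {p : (ι → A.L) → Prop} {f : (ι → A.L) → ℝ} (hp : Loc p) (hf : Loc f) {c : ℝ}
    (h0 : ∀ x, 0 ≤ f x) (h : ∀ x, p x → c ≤ f x) : c * pr A p ≤ mn A f := by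
  rw [pr, ← mn_mul (hp.map ind)]
  refine mn_mono ((hp.map ind).map _) hf fun x => ?_
  by_cases e : p x
  · rw [ind_pos e, mul_one]; exact h x e
  · rw [ind_neg e, mul_zero]; exact h0 x

/-- The mean of a function of an observable through its law. -/
theorem mn_law {β : Type} [Fintype β] {Y : (ι → A.L) → β} (hY : Loc Y) (h : β → ℝ) :
    mn A (fun x => h (Y x)) = ∑ y, pr A (fun x => Y x = y) * h y := by
  unfold pr
  rw [sum_congr rfl fun y _ => (mn_mul' (hY.map fun b => ind (b = y)) (h y)).symm,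
    ← mn_sum _ fun y _ => hY.map fun b => ind (b = y) * h y]
  simp only [sum_ind_mul]

theorem sum_pr {β : Type} [Fintype β] {Y : (ι → A.L) → β} (hY : Loc Y) :
    ∑ y, pr A (fun x => Y x = y) = 1 := by
  simpa [mn_const] using (mn_law hY fun _ => 1).symm

/-- An event of positive probability can happen. -/
theorem exists_of_pr {p : (ι → A.L) → Prop} (h : 0 < pr A p) : ∃ x, p x := by
  by_contra k
  push Not at k
  simp only [pr, ind_neg (k _), mn_const] at h
  exact lt_irrefl _ h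

end Mean

end Pool.Agent.Lib.PT5
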