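import Pool.Agent.Lib.PT5.Kit0

/-! The tree, covering maps, transport of means. -/

namespace Pool.Agent.Lib.PT5

open Finset Real Function RC5

/-- an involution of darts -/
def Invo {V : Type} (m : V × Fin 3 → V × Fin 3) : Prop := ∀ d, m (m d) = d

theorem invo_of_isM {V : Type} {m : V × Fin 3 → V × Fin 3} (h : IsM m) : Invo m := fun d => (h d).1

section Tree
variable {V α β : Type} {m : V × Fin 3 → V × Fin 3}

@[simp] theorem rho_zero (d : V × Fin 3) : rho 0 d = d := by simp [rho]

theorem rho_rho (i j : Fin 3) (d : V × Fin 3) : rho i (rho j d) = rho (j + i) d := by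
  simp [rho, add_assoc]

@[simp] theorem rho_fst (i : Fin 3) (d : V × Fin 3) : (rho i d).1 = d.1 := rfl

theorem rho_mk (v : V) (i : Fin 3) : rho i (v, 0) = (v, i) := by simp [rho]

theorem rho_inj (i : Fin 3) : Injective (rho i : V × Fin 3 → V × Fin 3) := fun a b h => by
  simpa [rho_rho] using congrArg (rho (-i)) h

theorem exists_rho {d e : V × Fin 3} (h : e.1 = d.1) : ∃ i, e = rho i d :=
  ⟨e.2 - d.2, Prod.ext h (by simp [rho])⟩

theorem tm_isM : IsM tm := by
  rintro ⟨⟨b, l⟩, i⟩
  fin_cases i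
  · cases l with
    | nil => simp [tm]
    | cons c l => cases c <;> simp [tm, po]
  · simp [tm, po]
  · simp [tm, po]

theorem tm_invo : Invo tm := invo_of_isM tm_isM

theorem tm_d0 : tm d0 = ((true, []), 0) := rfl

@[simp] theorem cov_d0 (d : V × Fin 3) : cov m d d0 = d := by simp [cov, d0, cv]

theorem cov_rho (d : V × Fin 3) (i : Fin 3) (t : TD) :
    cov m d (rho i t) = rho i (cov m d t) := by
  simp only [cov, rho_rho]; rfl

theorem cov_tm (hm : Invo m) (d : V × Fin 3) (t : TD) : cov m d (tm t) = m (cov m d t) := by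
  obtain ⟨⟨b, l⟩, i⟩ := t
  fin_cases i
  · cases l with
    | nil => cases b <;> simp [tm, cov, cv, hm d]
    | cons c l => simp [tm, cov, cv, hm _]
  · simp [tm, cov, cv, po]
  · simp [tm, cov, cv, po]

theorem cov_ch (hm : Invo m) (d : V × Fin 3) (t : TD) (b : Bool) :
    cov m d (ch tm t b) = ch m (cov m d t) b := by rw [ch, cov_rho, cov_tm hm, ch]

theorem cov_des (hm : Invo m) (d : V × Fin 3) : ∀ (l : List Bool) (t : TD),
    cov m d (des tm t l) = des m (cov m d t) l
  | [], _ => rfl
  | b :: l, t => by rw [des, des, cov_des hm d l, cov_ch hm]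

theorem des_append (d : V × Fin 3) : ∀ l l' : List Bool, des m d (l ++ l') = des m (des m d l) l' := by
  intro l
  induction l generalizing d with
  | nil => exact fun _ => rfl
  | cons b l ih => exact fun l' => ih _ l'

theorem ch_bij (hm : Invo m) (b : Bool) : Bijective fun d => ch m d b :=
  bijective_iff_has_inverse.2 ⟨fun e => m (rho (-po b) e), fun d => by
    simp [ch, rho_rho, hm d], fun e => by simp [ch, rho_rho, hm _]⟩

theorem des_bij (hm : Invo m) : ∀ l, Bijective fun d => des m d l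
  | [] => bijective_id
  | b :: l => (des_bij hm l).comp (ch_bij hm b)

/-- Induction over the darts of the tree. -/
theorem tree_ind {p : TD → Prop} (h0 : p d0) (h1 : ∀ t, p t → p (tm t))
    (h2 : ∀ i t, p t → p (rho i t)) (t : TD) : p t := by
  obtain ⟨⟨b, l⟩, i⟩ := t
  rw [← rho_mk]
  refine h2 _ _ ?_
  induction l with
  | nil => cases b; exacts [h0, h1 _ h0]
  | cons c l ih =>
    have := h1 _ (h2 (po c) _ ih)
    cases c <;> simpa [tm, rho, po] using this

theorem cov_cov (hm : Invo m) (d : V × Fin 3) (e t : TD) :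
    cov m d (cov tm e t) = cov m (cov m d e) t := by
  induction t using tree_ind with
  | h0 => simp
  | h1 t h => rw [cov_tm tm_invo, cov_tm hm, cov_tm hm, h]
  | h2 i t h => rw [cov_rho, cov_rho, cov_rho, h]

@[simp] theorem cov_id (t : TD) : cov tm d0 t = t := by
  induction t using tree_ind with
  | h0 => simp
  | h1 t h => rw [cov_tm tm_invo, h]
  | h2 i t h => rw [cov_rho, h]

theorem exists_inv (e : TD) : ∃ e', cov tm e e' = d0 ∧ cov tm e' e = d0 := by
  induction e using tree_ind with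
  | h0 => exact ⟨d0, by simp⟩
  | h1 t h =>
    obtain ⟨s, h1, h2⟩ := h
    refine ⟨cov tm (tm d0) s, ?_, ?_⟩
    · rw [cov_cov tm_invo, cov_tm tm_invo, cov_d0, tm_invo, h1]
    · rw [← cov_cov tm_invo, cov_tm tm_invo, h2, cov_tm tm_invo, cov_d0, tm_invo]
  | h2 i t h =>
    obtain ⟨s, h1, h2⟩ := h
    refine ⟨cov tm (rho (-i) d0) s, ?_, ?_⟩
    · rw [cov_cov tm_invo, cov_rho, cov_d0, rho_rho, add_neg_cancel, rho_zero, h1]
    · rw [← cov_cov tm_invo, cov_rho, h2, cov_rho, cov_d0, rho_rho, neg_add_cancel, rho_zero]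

/-- the inverse in the group of the tree -/
noncomputable def tinv (e : TD) : TD := (exists_inv e).choose

theorem cov_tinv (e : TD) : cov tm e (tinv e) = d0 := (exists_inv e).choose_spec.1

theorem tinv_cov (e : TD) : cov tm (tinv e) e = d0 := (exists_inv e).choose_spec.2

theorem cov_cov_tinv (e t : TD) : cov tm e (cov tm (tinv e) t) = t := by
  rw [cov_cov tm_invo, cov_tinv, cov_id]

theorem cov_tinv_cov (e t : TD) : cov tm (tinv e) (cov tm e t) = t := by
  rw [cov_cov tm_invo, tinv_cov, cov_id]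

theorem cov_bij (e : TD) : Bijective (cov tm e) :=
  bijective_iff_has_inverse.2 ⟨_, cov_tinv_cov e, cov_cov_tinv e⟩

/-- The root is recovered from the image of any dart. -/
theorem cov_back (hm : Invo m) (d : V × Fin 3) (t : TD) : cov m (cov m d t) (tinv t) = d := by
  rw [← cov_cov hm, cov_tinv, cov_d0]

theorem cov_left_bij (hm : Invo m) (t : TD) : Bijective fun d => cov m d t :=
  bijective_iff_has_inverse.2 ⟨fun e => cov m e (tinv t), fun d => cov_back hm d t, fun e => by
    simp only [← cov_cov hm, tinv_cov, cov_d0]⟩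

@[simp] theorem mem_words {k : ℕ} {l : List Bool} : l ∈ words k ↔ l.length = k := by
  induction k generalizing l with
  | zero => simp [words]
  | succ k ih =>
    cases l with
    | nil => simp [words]
    | cons b l => cases b <;> simp [words, ih]

theorem sum_words {M : Type} [AddCommMonoid M] (k : ℕ) (f : List Bool → M) :
    ∑ l ∈ words (k + 1), f l = ∑ l ∈ words k, f (false :: l) + ∑ l ∈ words k, f (true :: l) := by
  rw [words, sum_union (by simp [disjoint_left]), sum_image (by simp), sum_image (by simp)]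

theorem card_words (k : ℕ) : (words k).card = 2 ^ k := by
  induction k with
  | zero => rfl
  | succ k ih =>
    have := sum_words k fun _ => (1 : ℕ)
    simp only [sum_const, smul_eq_mul, mul_one, ih] at this
    omega

theorem mem_Ball {r : ℕ} {t : TD} : t ∈ Ball r ↔ t.1.2.length ≤ r := by
  simp [Ball]

theorem Ball_mono {r r' : ℕ} (h : r ≤ r') : Ball r ⊆ Ball r' :=
  fun _ ht => mem_Ball.2 ((mem_Ball.1 ht).trans h)

theorem exists_Ball (S : Finset TD) : ∃ r, S ⊆ Ball r :=
  ⟨S.sup fun t => t.1.2.length, fun _ ht => mem_Ball.2 (le_sup (f := fun t : TD => t.1.2.length) ht)⟩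

theorem d0_mem (r : ℕ) : d0 ∈ Ball r := mem_Ball.2 (Nat.zero_le r)

theorem rho_mem {r : ℕ} {t : TD} (i : Fin 3) : rho i t ∈ Ball r ↔ t ∈ Ball r := by
  simp [mem_Ball]

theorem tm_mem {r : ℕ} {t : TD} (h : t ∈ Ball r) : tm t ∈ Ball (r + 1) := by
  obtain ⟨⟨b, l⟩, i⟩ := t
  rw [mem_Ball] at h ⊢
  unfold tm
  split_ifs
  · cases l <;> simp at h ⊢
    omega
  · simpa using h

theorem Loc.ball {f : (TD → α) → β} (h : Loc f) : ∃ r, Dep f (Ball r) := by
  obtain ⟨B, h⟩ := h
  obtain ⟨r, hr⟩ := exists_Ball B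
  exact ⟨r, h.mono hr⟩

theorem Inj.mono {r r' : ℕ} (h : Inj m r') (k : r ≤ r') : Inj m r :=
  fun d => (h d).mono (Ball_mono k)

theorem inj_tm (r : ℕ) : Inj tm r := fun d => (cov_bij d).1.injOn

theorem Loc.at_ {f : (TD → α) → β} (h : Loc f) (m : V × Fin 3 → V × Fin 3) (d : V × Fin 3) :
    Loc (at_ m f d) := h.comp _

theorem Dep.at_ [DecidableEq V] {f : (TD → α) → β} {B : Finset TD} (h : Dep f B)
    (m : V × Fin 3 → V × Fin 3) (d : V × Fin 3) : Dep (at_ m f d) (B.image (cov m d)) := h.comp _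

theorem comp_cov (hm : Invo m) (x : V × Fin 3 → α) (d : V × Fin 3) (e : TD) :
    (x ∘ cov m d) ∘ cov tm e = x ∘ cov m (cov m d e) :=
  funext fun t => congrArg x (cov_cov hm d e t)

theorem at_at (hm : Invo m) (f : (TD → α) → β) (e : TD) (d : V × Fin 3) :
    at_ m (at_ tm f e) d = at_ m f (cov m d e) :=
  funext fun x => congrArg f (comp_cov hm x d e)

@[simp] theorem at_d0 (f : (TD → α) → β) : at_ tm f d0 = f :=
  funext fun x => congrArg f (funext fun t => congrArg x (cov_id t))

/-- Transport from the tree to a graph. -/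
theorem mn_at [DecidableEq V] {A : LS} {f : (TD → A.L) → ℝ} {r : ℕ} (h : Dep f (Ball r))
    (hm : Inj m r) (d : V × Fin 3) : mn A (at_ m f d) = mn A f := mn_comp h (hm d)

/-- Invariance on the tree. -/
theorem mn_at_tm {A : LS} {f : (TD → A.L) → ℝ} (h : Loc f) (e : TD) :
    mn A (at_ tm f e) = mn A f := h.ball.elim fun r hr => mn_at hr (inj_tm r) e

/-- Few darts see a part of the same ball. -/
theorem card_meet [Fintype V] [DecidableEq V] (hm : Invo m) (B : Finset TD) (d : V × Fin 3) :
    (univ.filter fun e => ¬ Disjoint (B.image (cov m d)) (B.image (cov m e))).card ≤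
      B.card ^ 2 := by
  refine (card_le_card (t := (B ×ˢ B).image fun p => cov m (cov m d p.1) (tinv p.2))
    fun e he => ?_).trans (card_image_le.trans (by simp [sq]))
  obtain ⟨z, h1, h2⟩ := not_disjoint_iff.1 (mem_filter.1 he).2
  obtain ⟨a, ha, rfl⟩ := mem_image.1 h1
  obtain ⟨b, hb, e'⟩ := mem_image.1 h2
  exact mem_image.2 ⟨(a, b), mem_product.2 ⟨ha, hb⟩, by rw [← e', cov_back hm]⟩

@[simp] theorem rot_zero (x : Star) : rot 0 x = x := by simp [rot]

theorem rot_rot (i j : Fin 3) (x : Star) : rot i (rot j x) = rot (j + i) x := by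
  simp [rot, add_assoc]

theorem see_rho (c : V → Star) (i : Fin 3) (d : V × Fin 3) : see c (rho i d) = rot i (see c d) := by
  simp [see, rho, rot_rot]

theorem see_zero (c : V → Star) (v : V) : see c (v, 0) = c v := rot_zero _

theorem ds_rot (i j : Fin 3) (x : Star) : ds (rot i x) j = ds x (i + j) := rfl

theorem ds_see (c : V → Star) (d : V × Fin 3) (i : Fin 3) : ds (see c d) i = st c (rho i d) := rfl

theorem st_eq (c : V → Star) (d : V × Fin 3) : st c d = ds (see c d) 0 := by
  rw [ds_see, rho_zero]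

theorem see_pull (d : V × Fin 3) (c : V → Star) (t : TD) :
    see (pull m d c) t = see c (cov m d t) := by
  obtain ⟨v, i⟩ := t
  rw [← rho_mk, see_rho, cov_rho, see_rho, see_zero, pull]

theorem st_pull (d : V × Fin 3) (c : V → Star) (t : TD) :
    st (pull m d c) t = st c (cov m d t) := by rw [st_eq, st_eq, see_pull]

theorem pull_pull (hm : Invo m) (d : V × Fin 3) (e : TD) (c : V → Star) :
    pull tm e (pull m d c) = pull m (cov m d e) c :=
  funext fun v => by rw [pull, see_pull, cov_cov hm, pull]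

@[simp] theorem pull_d0 (c : TV → Star) : pull tm d0 c = c :=
  funext fun v => by rw [pull, cov_id, see_zero]

theorem pat_pull (hm : Invo m) (d : V × Fin 3) (c : V → Star) : ∀ (k : ℕ) (t : TD),
    pat tm (pull m d c) k t = pat m c k (cov m d t)
  | 0, _ => rfl
  | k + 1, t => by
    simp only [pat, see_pull, pat_pull hm d c k, cov_tm hm, cov_ch hm]

theorem patE_pull (hm : Invo m) (d : V × Fin 3) (c : V → Star) (k : ℕ) (t : TD) :
    patE tm (pull m d c) k t = patE m c k (cov m d t) := by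
  simp only [patE, pat_pull hm, cov_tm hm]

theorem loc_see (d : V × Fin 3) : Loc fun c : V → Star => see c d := (Loc.eval d.1).map _

theorem loc_st (d : V × Fin 3) : Loc fun c : V → Star => st c d := (Loc.eval d.1).map (ds · d.2)

theorem loc_pat (m : V × Fin 3 → V × Fin 3) : ∀ (k : ℕ) (d : V × Fin 3),
    Loc fun c : V → Star => pat m c k d
  | 0, _ => Loc.const _
  | k + 1, _ => (loc_see _).map₂ ((loc_pat m k _).map₂ (loc_pat m k _) Prod.mk) Prod.mk

theorem loc_patE (m : V × Fin 3 → V × Fin 3) (k : ℕ) (d : V × Fin 3) :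
    Loc fun c : V → Star => patE m c k d := (loc_pat m _ _).map₂ (loc_pat m _ _) Prod.mk

theorem Loc.pull {f : (TV → Star) → β} (h : Loc f) (m : V × Fin 3 → V × Fin 3) (d : V × Fin 3) :
    Loc fun c => f (pull m d c) := h.field fun _ => loc_see _

theorem see_cfg (hm : Invo m) (P : Proc) (x : V × Fin 3 → P.A.L) (d : V × Fin 3) :
    see (cfg P m x) d = at_ m P.X d x := by
  obtain ⟨v, i⟩ := d
  have h := P.cmp i (x ∘ cov m (v, 0))
  rw [at_, comp_cov hm, cov_rho, cov_d0, rho_mk] at h
  exact h.symm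

theorem pull_cfg (hm : Invo m) (P : Proc) (x : V × Fin 3 → P.A.L) (d : V × Fin 3) :
    pull m d (cfg P m x) = cfg P tm (x ∘ cov m d) :=
  funext fun v => by rw [pull, see_cfg hm, cfg, at_, at_, comp_cov hm]

theorem Loc.cfg {f : (V → Star) → β} (h : Loc f) (P : Proc) (m : V × Fin 3 → V × Fin 3) :
    Loc fun x => f (cfg P m x) := h.field fun _ => P.loc.at_ _ _

/-- The law of the configuration is invariant. -/
theorem nu_pull (P : Proc) {f : (TV → Star) → ℝ} (h : Loc f) (e : TD) :
    nu P (fun c => f (pull tm e c)) = nu P f := by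
  simp only [nu, pull_cfg tm_invo]
  exact mn_at_tm (h.cfg P tm) e

/-- The local law on a graph of large girth. -/
theorem nu_graph (P : Proc) {f : (TV → Star) → ℝ} (h : Loc f) : ∃ r, ∀ (V : Type) [DecidableEq V]
    (m : V × Fin 3 → V × Fin 3), Invo m → Inj m r → ∀ d,
      mn P.A (fun x => f (pull m d (cfg P m x))) = nu P f := by
  obtain ⟨r, hr⟩ := (h.cfg P tm).ball
  refine ⟨r, fun V _ m hm hi d => ?_⟩
  simp only [pull_cfg hm]
  exact mn_at hr hi d

theorem gs_rot (g : D5) (i : Fin 3) (x : Star) : gs g (rot i x) = rot i (gs g x) := rfl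

theorem ds_gs (g : D5) (x : Star) (i : Fin 3) : ds (gs g x) i = g1 g (ds x i) := rfl

theorem see_gs (g : D5) (c : V → Star) (d : V × Fin 3) : see (gs g ∘ c) d = gs g (see c d) := rfl

theorem st_gs (g : D5) (c : V → Star) (d : V × Fin 3) : st (gs g ∘ c) d = g1 g (st c d) := rfl

/-- The law of the configuration is symmetric. -/
theorem nu_sym (P : Proc) {f : (TV → Star) → ℝ} (h : Loc f) (g : D5) :
    nu P (fun c => f (gs g ∘ c)) = nu P f := by
  obtain ⟨e, he, hx⟩ := P.sym g
  rw [nu, nu, ← mn_keep he (h.cfg P tm)]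
  exact congrArg _ (funext fun x => congrArg f (funext fun v => (hx (x ∘ cov tm (v, 0))).symm))

theorem nu_const (P : Proc) (a : ℝ) : nu P (fun _ => a) = a := mn_const a

theorem nu_mono (P : Proc) {f g : (TV → Star) → ℝ} (hf : Loc f) (hg : Loc g) (h : ∀ c, f c ≤ g c) :
    nu P f ≤ nu P g := mn_mono (hf.cfg P tm) (hg.cfg P tm) fun _ => h _

theorem nu_nonneg (P : Proc) {f : (TV → Star) → ℝ} (h : ∀ c, 0 ≤ f c) : 0 ≤ nu P f :=
  mn_nonneg fun _ => h _

theorem nu_add (P : Proc) {f g : (TV → Star) → ℝ} (hf : Loc f) (hg : Loc g) :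
    nu P (fun c => f c + g c) = nu P f + nu P g := mn_add (hf.cfg P tm) (hg.cfg P tm)

theorem nu_sub (P : Proc) {f g : (TV → Star) → ℝ} (hf : Loc f) (hg : Loc g) :
    nu P (fun c => f c - g c) = nu P f - nu P g := mn_sub (hf.cfg P tm) (hg.cfg P tm)

theorem nu_mul (P : Proc) {f : (TV → Star) → ℝ} (hf : Loc f) (a : ℝ) :
    nu P (fun c => a * f c) = a * nu P f := mn_mul (hf.cfg P tm) a

theorem nu_sum {κ : Type} (P : Proc) {f : κ → (TV → Star) → ℝ} (S : Finset κ)
    (h : ∀ k ∈ S, Loc (f k)) : nu P (fun c => ∑ k ∈ S, f k c) = ∑ k ∈ S, nu P (f k) :=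
  mn_sum S fun k hk => (h k hk).cfg P tm

theorem nu_law [Fintype β] (P : Proc) {Y : (TV → Star) → β} (hY : Loc Y) (h : β → ℝ) :
    nu P (fun c => h (Y c)) = ∑ y, nu P (fun c => ind (Y c = y)) * h y := mn_law (hY.cfg P tm) h

end Tree

/-- an unfolding lemma is generated once, here -/
theorem seed_wt : True := by
  have := @wt.eq_def
  trivial

end Pool.Agent.Lib.PT5
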