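import Pool.Agent.Lib.PT5.CDefs

/-! The second order comparison of experiments. -/

namespace Pool.Agent.Lib.PT5

open Finset Real RC5

/-- the test functionals -/
noncomputable def Ph (p h v : Vec) : ℝ := dot h v ^ 2 / dot p v

/-- admissible tests -/
def Adm (p h : Vec) : Prop := (∀ t, |h t| ≤ p t) ∧ ∀ t : T1, p t ≤ 4 * p (t.1, !t.2)

/-- less informative at second order -/
def LN {I J : Type} [Fintype I] [Fintype J] (v : I → Vec) (u : J → Vec) : Prop :=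
  ∀ p h, Adm p h → ∑ i, Ph p h (v i) ≤ ∑ j, Ph p h (u j)

/-- one more level from two experiments -/
noncomputable def T2 {I J : Type} (v : I → Vec) (u : J → Vec) (i : I × J) : Vec :=
  Am 1 (Vm (v i.1) (u i.2))

/-- keep the outcome with probability `e` -/
def era {I : Type} (e : ℝ) (v : I → Vec) : Option I → Vec
  | none => (1 - e) • 1
  | some i => e • v i

/-- full information -/
def dl (t : T1) : Vec := Pi.single t 1

/-- the sum of a test over an orbit -/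
noncomputable def Fo (p h v : Vec) : ℝ := ∑ g : D5, Ph p h (v ∘ g1 g)

/-- a mixture of orbits -/
def mix {K : Type} (s : K → Vec) (w : K → ℝ) (i : K × D5) : Vec := w i.1 • (s i.1 ∘ g1 i.2)

/-- PH: the test functionals -/
def St_PH : Prop :=
  (∀ p h, Adm p h → Subl (Ph p h)) ∧
  (∀ v : Vec, per sq2 v = 10 * ∑ t, Ph 1 (dl t - fun _ => 1 / 10) v) ∧
  (∀ t, Adm 1 (dl t - fun _ => 1 / 10) ∧ Ph 1 (dl t - fun _ => 1 / 10) 1 = 0) ∧
  ∀ (I J : Type) [Fintype I] [Fintype J] (v : I → Vec) (u : J → Vec) (p h : Vec), Adm p h →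
    (∀ i, 0 ≤ v i) → (∀ j, 0 ≤ u j) →
    (∀ y : I → ℝ, ∃ z : J → ℝ, ∑ j, z j • u j = ∑ i, y i • v i ∧
      ∑ j, z j ^ 2 * dot p (u j) ≤ ∑ i, y i ^ 2 * dot p (v i)) →
    ∑ i, Ph p h (v i) ≤ ∑ j, Ph p h (u j)

/-- TL: the second order comparison is kept -/
def St_TL : Prop :=
  ∀ (I I' J J' : Type) [Fintype I] [Fintype I'] [Fintype J] [Fintype J'] (v : I → Vec)
    (v' : I' → Vec) (u : J → Vec) (u' : J' → Vec), (∀ i, 0 ≤ v' i) → (∀ j, 0 ≤ u j) →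
    LN v v' → LN u u' → LN (T2 v u) (T2 v' u')

/-- CH: chains of experiments (from SP, DOM, PH, TL) -/
def St_CH : Prop :=
  ∀ (I : ℕ → Type) [∀ n, Fintype (I n)] (E : ∀ n, I n → Vec) (k : ℕ),
    (∀ n i, 0 ≤ E n i) → LN dl (E 0) → (∀ n < k, LN (T2 (E n) (E n)) (E (n + 1))) →
    LN (vS 1 k) (E k)

/-- MX: mixtures of orbits (from PH) -/
def St_MX : Prop :=
  (∀ p h v, Adm p h → 0 ≤ v →
    (∑ t, v t) * Ph p h 1 ≤ Fo p h v ∧ Fo p h v ≤ (∑ t, v t) * ∑ t, Ph p h (dl t)) ∧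
  (∀ p h t, Fo p h (dl t) = ∑ t', Ph p h (dl t')) ∧
  (∀ p h v g, Fo p h (v ∘ g1 g) = Fo p h v) ∧
  (∀ (K : Type) [Fintype K] (s : K → Vec) (w : K → ℝ),
    ∑ i, mix s w i = (∑ l, w l * ∑ t, s l t) • (1 : Vec)) ∧
  (∀ (K : Type) [Fintype K] (s : K → Vec) (w : K → ℝ) p h, Adm p h → (∀ l, 0 ≤ s l) →
    (∀ l, 0 ≤ w l) → ∑ i, Ph p h (mix s w i) = ∑ l, w l * Fo p h (s l)) ∧
  ∀ (K K' : Type) [Fintype K] [Fintype K'] (s : K → Vec) (w : K → ℝ) (s' : K' → Vec)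
    (w' : K' → ℝ) p h, Adm p h → (∀ l, 0 ≤ s l) → (∀ l, 0 ≤ w l) → (∀ l, 0 ≤ s' l) →
    (∀ l, 0 ≤ w' l) → ∑ i, Ph p h (T2 (mix s w) (mix s' w') i)
      = ∑ i, ∑ j, w i * w' j * ∑ g : D5, Fo p h (Am 1 (Vm (s i) (s' j ∘ g1 g)))

/-- the extreme priors -/
def dd (v : Vec) (x : T1) : ℝ := 4 * v x + v (x.1, !x.2)

/-- VX: the criterion at the extreme priors (from PH) -/
def St_VX : Prop :=
  ∀ (I J : Type) [Fintype I] [Fintype J] (v : I → Vec) (u : J → Vec),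
    (∀ i, 0 ≤ v i) → (∀ j, 0 ≤ u j) →
    (∀ y : I → ℝ, ∃ z : J → ℝ, ∑ j, z j • u j = ∑ i, y i • v i ∧
      ∀ x, ∑ j, z j ^ 2 * dd (u j) x ≤ ∑ i, y i ^ 2 * dd (v i) x) → LN v u

/-- TB: the certificate -/
def St_TB : Prop :=
  ∃ (I : Type) (_ : Fintype I) (R : I → Vec) (k : ℕ) (a κ : ℝ), IsE R ∧ 0 ≤ a ∧ a < 1 ∧ 0 ≤ κ ∧
    2 * κ < 1 ∧ LN (vS 1 k) R ∧ LN (T2 R R) (era a R) ∧
    LN (fun i => Am 1 (Vm 1 (R i))) (era κ R)

end Pool.Agent.Lib.PT5
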